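import Pool.Agent.LibCA93.Defs

/-
PLAN (SY, MEDIUM). Calculus of symbols. Sy_mono: K n * B^n <= K n * B'^n. Sy_mul: norm_iteratedFDeriv_mul_le: ‖D^n (f g)‖ <= SUM_i choose n i ‖D^i f‖ ‖D^(n-i) g‖, K'' n = SUM_i choose n i K i K' (n-i).
Sy_cut: χ is smooth with compact support, so every iterated derivative is bounded (continuous, tsupport compact); composition with ω -> 2^κ ω - a: iteratedFDeriv of the composition with a scaling plus
translation (iteratedFDeriv_comp_add_right / _sub, ContinuousLinearMap.iteratedFDeriv_comp_right, norm of the linear map 2^κ id) gives (2^κ)^n M_n. K n := max 0 M_n. Sy_sum: near every point at most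
2^m (locally finite; or: D^n of the sum = sum of the D^n, at every z at most 2^m terms are nonzero because the n-th derivative of ω -> χ(2^κ ω - iv j) vanishes at z unless |2^κ z_i - j_i| <= 1 for all i
(closed support): at most 3^m labels j). For n = 0: values in [0,1] (Pu.sum, Pu.le_one: finite partial sums of a HasSum 1 of nonnegative terms). 1 - sum: derivatives of order n >= 1 are the same up to
sign, order 0 bounded by 1.
-/

set_option autoImplicit false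

noncomputable section

open MeasureTheory Metric Set Filter

namespace Pool.LibCA93

open Pool.LibSR53 Pool.LibST49

theorem Sy_mono {m : ℕ} {K : ℕ → ℝ} (hK : ∀ n, 0 ≤ K n) {B B' : ℝ} (hB : 0 ≤ B) (h : B ≤ B')
    {Ψ : E m → ℝ} (hΨ : Sy K B Ψ) : Sy K B' Ψ :=
  ⟨hΨ.smooth, fun n z => (hΨ.bd n z).trans (mul_le_mul_of_nonneg_left (pow_le_pow_left₀ hB h n) (hK n))⟩

theorem Sy_weak {m : ℕ} {K K' : ℕ → ℝ} (hK : ∀ n, K n ≤ K' n) {B : ℝ} (hB : 0 ≤ B)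
    {Ψ : E m → ℝ} (hΨ : Sy K B Ψ) : Sy K' B Ψ :=
  ⟨hΨ.smooth, fun n z => (hΨ.bd n z).trans (mul_le_mul_of_nonneg_right (hK n) (pow_nonneg hB n))⟩

theorem Sy_const {m : ℕ} (c B : ℝ) (hc : |c| ≤ 1) (hB : 0 ≤ B) :
    Sy (fun _ => 1) B (fun _ : E m => c) := by
  refine ⟨contDiff_const, fun n z => ?_⟩
  rcases Nat.eq_zero_or_pos n with rfl | hn
  · rw [norm_iteratedFDeriv_zero, pow_zero, mul_one, Real.norm_eq_abs]
    exact hc
  · rw [iteratedFDeriv_const_of_ne hn.ne']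
    show ‖(0 : ContinuousMultilinearMap ℝ (fun _ : Fin n => E m) ℝ)‖ ≤ 1 * B ^ n
    rw [norm_zero, one_mul]
    exact pow_nonneg hB n

private theorem SY_le (n : ℕ) : (n : WithTop ℕ∞) ≤ ((⊤ : ℕ∞) : WithTop ℕ∞) := by
  exact_mod_cast (le_top : (n : ℕ∞) ≤ ⊤)

private theorem SY_cs {m : ℕ} {R : ℝ} {χ : E m → ℝ} (hχ : Ct R χ) : HasCompactSupport χ := by
  have hclosed : IsClosed {z : E m | ∀ i, |z i| ≤ R} := by
    rw [Set.ofPred_forall]
    refine isClosed_iInter fun i => isClosed_le ?_ continuous_const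
    have hc : Continuous fun z : E m => z i := (EuclideanSpace.proj i : E m →L[ℝ] ℝ).continuous
    exact hc.abs
  have h2 : tsupport χ ⊆ {z : E m | ∀ i, |z i| ≤ R} :=
    closure_minimal (fun z hz i => (hχ.supp _ (Function.mem_support.1 hz) i).le) hclosed
  refine (isCompact_closedBall (0 : E m) (Real.sqrt (∑ _i : Fin m, R ^ 2))).of_isClosed_subset
    isClosed_closure fun z hz => ?_
  rw [mem_closedBall_zero_iff, EuclideanSpace.norm_eq]
  refine Real.sqrt_le_sqrt (Finset.sum_le_sum fun i _ => ?_)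
  exact pow_le_pow_left₀ (norm_nonneg _) (h2 hz i) 2

theorem Sy_mul {m : ℕ} (K K' : ℕ → ℝ) (hK : ∀ n, 0 ≤ K n) (hK' : ∀ n, 0 ≤ K' n) :
    ∃ K'' : ℕ → ℝ, (∀ n, 0 ≤ K'' n) ∧ ∀ B : ℝ, 0 ≤ B → ∀ Ψ Ψ' : E m → ℝ, Sy K B Ψ → Sy K' B Ψ' →
      Sy K'' B (fun ω => Ψ ω * Ψ' ω) := by
  refine ⟨fun n => ∑ i ∈ Finset.range (n + 1), (n.choose i : ℝ) * K i * K' (n - i), fun n => ?_, ?_⟩
  · exact Finset.sum_nonneg fun i _ => mul_nonneg (mul_nonneg (Nat.cast_nonneg _) (hK i)) (hK' _)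
  · intro B hB Ψ Ψ' h h'
    refine ⟨h.smooth.mul h'.smooth, fun n z => ?_⟩
    refine (norm_iteratedFDeriv_mul_le h.smooth h'.smooth z (SY_le n)).trans ?_
    rw [Finset.sum_mul]
    refine Finset.sum_le_sum fun i hi => ?_
    have hin : i ≤ n := Nat.lt_succ_iff.1 (Finset.mem_range.1 hi)
    calc (n.choose i : ℝ) * ‖iteratedFDeriv ℝ i Ψ z‖ * ‖iteratedFDeriv ℝ (n - i) Ψ' z‖
        ≤ (n.choose i : ℝ) * (K i * B ^ i) * (K' (n - i) * B ^ (n - i)) :=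
          mul_le_mul (mul_le_mul_of_nonneg_left (h.bd i z) (Nat.cast_nonneg _)) (h'.bd (n - i) z)
            (norm_nonneg _) (mul_nonneg (Nat.cast_nonneg _) (mul_nonneg (hK i) (pow_nonneg hB i)))
      _ = (n.choose i : ℝ) * K i * K' (n - i) * (B ^ i * B ^ (n - i)) := by ring
      _ = (n.choose i : ℝ) * K i * K' (n - i) * B ^ n := by rw [← pow_add, Nat.add_sub_cancel' hin]

theorem Sy_cut {m : ℕ} {R : ℝ} {χ : E m → ℝ} (hχ : Ct R χ) : ∃ K : ℕ → ℝ, (∀ n, 0 ≤ K n) ∧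
    ∀ (κ : ℕ) (a : E m), Sy K ((2 : ℝ) ^ κ) (fun ω => χ ((2 : ℝ) ^ κ • ω - a)) := by
  have hb : ∀ n : ℕ, ∃ C : ℝ, ∀ x, ‖iteratedFDeriv ℝ n χ x‖ ≤ C := fun n =>
    (hχ.smooth.continuous_iteratedFDeriv (SY_le n)).bounded_above_of_compact_support
      ((SY_cs hχ).iteratedFDeriv n)
  choose C hC using hb
  refine ⟨C, fun n => (norm_nonneg _).trans (hC n 0), fun κ a => ?_⟩
  set L : E m →L[ℝ] E m := (2 : ℝ) ^ κ • ContinuousLinearMap.id ℝ (E m) with hL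
  have hχa : ContDiff ℝ (⊤ : ℕ∞) fun y : E m => χ (y - a) := hχ.smooth.comp (contDiff_id.sub contDiff_const)
  have hcomp : (fun ω : E m => χ ((2 : ℝ) ^ κ • ω - a)) = (fun y => χ (y - a)) ∘ L := rfl
  rw [hcomp]
  refine ⟨hχa.comp L.contDiff, fun n z => ?_⟩
  rw [L.iteratedFDeriv_comp_right hχa z (SY_le n), iteratedFDeriv_comp_sub]
  refine (ContinuousMultilinearMap.norm_compContinuousLinearMap_le _ _).trans ?_
  rw [Finset.prod_const, Finset.card_univ, Fintype.card_fin]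
  have hLn : ‖L‖ ≤ 2 ^ κ := by
    rw [hL]
    refine (norm_smul_le ((2 : ℝ) ^ κ) (ContinuousLinearMap.id ℝ (E m))).trans ?_
    rw [Real.norm_of_nonneg (by positivity : (0 : ℝ) ≤ 2 ^ κ)]
    exact mul_le_of_le_one_right (by positivity) ContinuousLinearMap.norm_id_le
  exact mul_le_mul (hC n _) (pow_le_pow_left₀ (norm_nonneg _) hLn n) (pow_nonneg (norm_nonneg _) n)
    ((norm_nonneg _).trans (hC n 0))

theorem cells_le_one {m : ℕ} {χ : E m → ℝ} (hχ : Pu χ) (κ : ℕ) (D : Finset (Fin m → ℤ))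
    (ω : E m) : 0 ≤ ∑ j ∈ D, χ ((2 : ℝ) ^ κ • ω - iv j) ∧
      ∑ j ∈ D, χ ((2 : ℝ) ^ κ • ω - iv j) ≤ 1 :=
  ⟨Finset.sum_nonneg fun j _ => (hχ.le_one _).1,
    sum_le_hasSum D (fun j _ => (hχ.le_one _).1) (hχ.sum ((2 : ℝ) ^ κ • ω))⟩

private def SY_near {m : ℕ} (x : E m) : Finset (Fin m → ℤ) :=
  Fintype.piFinset fun i => Finset.Icc ⌈x i - 1⌉ ⌊x i + 1⌋

private theorem SY_near_card {m : ℕ} (x : E m) : ((SY_near x).card : ℝ) ≤ 3 ^ m := by
  have h : (SY_near x).card ≤ 3 ^ m := by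
    rw [SY_near, Fintype.card_piFinset]
    refine (Finset.prod_le_pow_card Finset.univ _ 3 fun i _ => ?_).trans (le_of_eq (by
      rw [Finset.card_univ, Fintype.card_fin]))
    rw [Int.card_Icc]
    have h1 := Int.floor_le (x i + 1)
    have h2 := Int.le_ceil (x i - 1)
    have h3 : ((⌊x i + 1⌋ - ⌈x i - 1⌉ : ℤ) : ℝ) ≤ 2 := by
      push_cast
      linarith
    have h4 : ⌊x i + 1⌋ - ⌈x i - 1⌉ ≤ 2 := by exact_mod_cast h3
    omega
  exact_mod_cast h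

private theorem SY_zero {m : ℕ} {χ : E m → ℝ} (hχ : Pu χ) (κ n : ℕ) (j : Fin m → ℤ) (ω : E m)
    (hj : j ∉ SY_near ((2 : ℝ) ^ κ • ω)) :
    iteratedFDeriv ℝ n (fun ω => χ ((2 : ℝ) ^ κ • ω - iv j)) ω = 0 := by
  by_contra hne
  apply hj
  have h1 : ω ∈ tsupport (fun ω : E m => χ ((2 : ℝ) ^ κ • ω - iv j)) :=
    support_iteratedFDeriv_subset n (Function.mem_support.2 hne)
  have hclosed : IsClosed {z : E m | ∀ i, |(2 : ℝ) ^ κ * z i - j i| ≤ 1} := by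
    rw [Set.ofPred_forall]
    refine isClosed_iInter fun i => isClosed_le ?_ continuous_const
    have hc : Continuous fun z : E m => z i := (EuclideanSpace.proj i : E m →L[ℝ] ℝ).continuous
    exact ((continuous_const.mul hc).sub continuous_const).abs
  have h2 : tsupport (fun ω : E m => χ ((2 : ℝ) ^ κ • ω - iv j)) ⊆
      {z : E m | ∀ i, |(2 : ℝ) ^ κ * z i - j i| ≤ 1} :=
    closure_minimal (fun z hz i => (hχ.supp _ (Function.mem_support.1 hz) i).le) hclosed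
  have h3 := h2 h1
  rw [SY_near, Fintype.mem_piFinset]
  intro i
  have h4 : |(2 : ℝ) ^ κ * ω i - j i| ≤ 1 := h3 i
  rw [abs_le] at h4
  have h5 : ((2 : ℝ) ^ κ • ω) i = (2 : ℝ) ^ κ * ω i := rfl
  rw [Finset.mem_Icc, h5]
  exact ⟨Int.ceil_le.2 (by linarith), Int.le_floor.2 (by linarith)⟩

theorem Sy_sum {m : ℕ} {χ : E m → ℝ} (hχ : Pu χ) : ∃ K : ℕ → ℝ, (∀ n, 0 ≤ K n) ∧
    ∀ (κ : ℕ) (D : Finset (Fin m → ℤ)),
      Sy K ((2 : ℝ) ^ κ) (fun ω => ∑ j ∈ D, χ ((2 : ℝ) ^ κ • ω - iv j)) ∧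
      Sy K ((2 : ℝ) ^ κ) (fun ω => 1 - ∑ j ∈ D, χ ((2 : ℝ) ^ κ • ω - iv j)) := by
  obtain ⟨C, hC0, hC⟩ := Sy_cut hχ.toCt
  refine ⟨fun n => max 1 (3 ^ m * C n), fun n => zero_le_one.trans (le_max_left _ _), fun κ D => ?_⟩
  have hsm : ∀ j ∈ D, ContDiff ℝ (⊤ : ℕ∞) fun ω : E m => χ ((2 : ℝ) ^ κ • ω - iv j) := fun j _ =>
    (hC κ (iv j)).smooth
  have hS : ContDiff ℝ (⊤ : ℕ∞) fun ω : E m => ∑ j ∈ D, χ ((2 : ℝ) ^ κ • ω - iv j) := ContDiff.sum hsm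
  have hbd : ∀ (n : ℕ) (z : E m),
      ‖iteratedFDeriv ℝ n (fun ω : E m => ∑ j ∈ D, χ ((2 : ℝ) ^ κ • ω - iv j)) z‖ ≤
        3 ^ m * C n * ((2 : ℝ) ^ κ) ^ n := by
    intro n z
    rw [iteratedFDeriv_fun_sum_apply fun j hj => ((hsm j hj).of_le (SY_le n)).contDiffAt]
    have hb0 : 0 ≤ C n * ((2 : ℝ) ^ κ) ^ n := mul_nonneg (hC0 n) (by positivity)
    calc ‖∑ j ∈ D, iteratedFDeriv ℝ n (fun ω : E m => χ ((2 : ℝ) ^ κ • ω - iv j)) z‖
        ≤ ∑ j ∈ D, ‖iteratedFDeriv ℝ n (fun ω : E m => χ ((2 : ℝ) ^ κ • ω - iv j)) z‖ := norm_sum_le _ _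
      _ ≤ ∑ j ∈ D, (if j ∈ SY_near ((2 : ℝ) ^ κ • z) then C n * ((2 : ℝ) ^ κ) ^ n else 0) := by
          refine Finset.sum_le_sum fun j _ => ?_
          split_ifs with h
          · exact (hC κ (iv j)).bd n z
          · rw [SY_zero hχ κ n j z h, norm_zero]
      _ = ((D ∩ SY_near ((2 : ℝ) ^ κ • z)).card : ℝ) * (C n * ((2 : ℝ) ^ κ) ^ n) := by
          rw [Finset.sum_ite_mem, Finset.sum_const, nsmul_eq_mul]
      _ ≤ 3 ^ m * (C n * ((2 : ℝ) ^ κ) ^ n) := by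
          refine mul_le_mul_of_nonneg_right (le_trans ?_ (SY_near_card ((2 : ℝ) ^ κ • z))) hb0
          exact_mod_cast Finset.card_le_card Finset.inter_subset_right
      _ = 3 ^ m * C n * ((2 : ℝ) ^ κ) ^ n := by ring
  have hbd' : ∀ (n : ℕ) (z : E m), 3 ^ m * C n * ((2 : ℝ) ^ κ) ^ n ≤ max 1 (3 ^ m * C n) * ((2 : ℝ) ^ κ) ^ n :=
    fun n z => mul_le_mul_of_nonneg_right (le_max_right _ _) (by positivity)
  refine ⟨⟨hS, fun n z => (hbd n z).trans (hbd' n z)⟩, ⟨contDiff_const.sub hS, fun n z => ?_⟩⟩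
  rcases Nat.eq_zero_or_pos n with rfl | hn
  · rw [norm_iteratedFDeriv_zero, pow_zero, mul_one, Real.norm_eq_abs]
    refine le_trans ?_ (le_max_left _ _)
    obtain ⟨h1, h2⟩ := cells_le_one hχ κ D z
    rw [abs_le]
    constructor <;> linarith
  · have h1 := iteratedFDeriv_sub_apply (𝕜 := ℝ) (i := n) (x := z) (f := fun _ : E m => (1 : ℝ))
      (g := fun ω : E m => ∑ j ∈ D, χ ((2 : ℝ) ^ κ • ω - iv j)) contDiff_const.contDiffAt
      ((hS.of_le (SY_le n)).contDiffAt)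
    have h2 : (fun ω : E m => 1 - ∑ j ∈ D, χ ((2 : ℝ) ^ κ • ω - iv j)) =
        (fun _ : E m => (1 : ℝ)) - fun ω : E m => ∑ j ∈ D, χ ((2 : ℝ) ^ κ • ω - iv j) := rfl
    rw [h2, h1, iteratedFDeriv_const_of_ne hn.ne', Pi.zero_apply, zero_sub, norm_neg]
    exact (hbd n z).trans (hbd' n z)

end Pool.LibCA93
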