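import Pool.Agent.LibCA93.PLU
import Pool.Agent.LibST49.P5
import Pool.Agent.LibST49.G1

/-
PLAN (L1T, STRONG, two theorems). For every p in S i and packet a put α = ‖nd h a.2 - Lk κ (w κ a.1) p‖. |rad (pos a)| <= rad p + 2‖pos a - p‖ <= 2^(k i + 1) + C 4^κ (1+α) (pos a - p = Li κ w (nd - Lk p), norm_Li_le, norm_w_le) and
4^κ <= 2^(k i). Let k' >= k i / 2 be the least natural number with 2^(k i + 1) + C 4^κ (1+α) + |s0| <= 4^k': 4^k' <= C 2^(k i) (1+α)(1+|s0|). packet_L1U at scale k' (Sy_mono: 2^(k i/2) <= 2^k'; κ <= k i / 2 because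
4^κ <= 2^(k i)): L1 norm of the packet a <= C c', c' = number of cells of size 2^-k' where Θ = χ(2^κ . - iv a.1) Ψ i lives. A cell of size 2^-k' with tch is inside (meets) a cell i'' of size 2^-(k i/2) with tch: c' <= C
2^((k' - k i/2) m) c, c the number at scale k i/2. L1P: c <= C 2^((k i/2 - κ) m) (cells meeting the support of χ(2^κ . - iv j)). L1T: for fixed n sum over the labels j: every cell i'' meets at most C supports of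
χ(2^κ . - iv j), so SUM_j c_j <= C (number of cells with tch (k i/2) (Ψ i)). ‖cf_a‖ <= SUM_p ‖Φ(..)‖ <= SUM_p C_M (1+α)^-M, SUM_n (1+α)^(-m-3) <= C (sum_nd). 2^(k i m/2) * 2^((k' ) m) etc.
-/

set_option autoImplicit false

noncomputable section

open MeasureTheory Metric Set Filter

namespace Pool.LibCA93

open Pool.LibSR53 Pool.LibST49

/-- number of cells of size 2^-k meeting the support of Θ -/
private def L1T_c {m : ℕ} (k : ℕ) (Θ : E m → ℝ) : ℕ :=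
  open scoped Classical in ((J m k).filter (fun i => tch k Θ i)).card

/-- number of integer vectors in a cube -/
private theorem L1T_cube {m : ℕ} (T : Finset (Fin m → ℤ)) (y : Fin m → ℝ) (r : ℝ) (N : ℕ)
    (hr : 2 * r + 1 ≤ N) (hT : ∀ j ∈ T, ∀ i, |y i - j i| < r) :
    T.card ≤ N ^ m := by
  classical
  have hsub : T ⊆ Fintype.piFinset (fun i => Finset.Icc ⌈y i - r⌉ ⌊y i + r⌋) := by
    intro j hj
    rw [Fintype.mem_piFinset]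
    intro i
    have h1 := abs_lt.1 (hT j hj i)
    rw [Finset.mem_Icc]
    constructor
    · rw [Int.ceil_le]; linarith [h1.1, h1.2]
    · rw [Int.le_floor]; linarith [h1.1, h1.2]
  refine (Finset.card_le_card hsub).trans ?_
  rw [Fintype.card_piFinset]
  calc ∏ i : Fin m, (Finset.Icc ⌈y i - r⌉ ⌊y i + r⌋).card ≤ ∏ _i : Fin m, N := by
        refine Finset.prod_le_prod' fun i _ => ?_
        rw [Int.card_Icc, Int.toNat_le]
        have h1 : ((⌊y i + r⌋ : ℤ) : ℝ) ≤ y i + r := Int.floor_le _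
        have h2 : y i - r ≤ ((⌈y i - r⌉ : ℤ) : ℝ) := Int.le_ceil _
        have h3 : (((⌊y i + r⌋ + 1 - ⌈y i - r⌉ : ℤ)) : ℝ) ≤ ((N : ℤ) : ℝ) := by
          push_cast
          linarith
        exact_mod_cast h3
    _ = N ^ m := by rw [Finset.prod_const, Finset.card_univ, Fintype.card_fin]

/-- passage to a finer scale -/
private theorem L1T_fine {m : ℕ} (k0 d : ℕ) (Θ : E m → ℝ) :
    L1T_c (k0 + d) Θ ≤ (5 * 2 ^ d) ^ m * L1T_c k0 Θ := by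
  classical
  unfold L1T_c
  have hch : ∀ i ∈ (J m (k0 + d)).filter (fun i => tch (k0 + d) Θ i), ∃ ω : E m, ‖ω‖ ≤ 1 ∧
      cel (k0 + d) i ω ∧ Θ ω ≠ 0 := fun i hi => (Finset.mem_filter.1 hi).2
  choose! om hom using hch
  have hmaps : ∀ i ∈ (J m (k0 + d)).filter (fun i => tch (k0 + d) Θ i),
      (fun l => ⌊(2 : ℝ) ^ k0 * om i l⌋) ∈ (J m k0).filter (fun i => tch k0 Θ i) := by
    intro i hi
    obtain ⟨h1, h2, h3⟩ := hom i hi
    rw [Finset.mem_filter]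
    constructor
    · unfold J
      rw [Fintype.mem_piFinset]
      intro l
      have h4 : ‖om i l‖ ≤ ‖om i‖ := PiLp.norm_apply_le _ l
      have h5 : |om i l| ≤ 1 := by
        rw [← Real.norm_eq_abs]
        exact h4.trans h1
      have h6 := abs_le.1 h5
      have hp : (0 : ℝ) < 2 ^ k0 := by positivity
      have hp2 : (2 : ℝ) ^ (k0 + 1) = 2 * 2 ^ k0 := by rw [pow_succ]; ring
      rw [Finset.mem_Icc]
      constructor
      · rw [Int.le_floor]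
        push_cast
        rw [hp2]
        nlinarith [h6.1, h6.2]
      · rw [← Int.cast_le (R := ℝ)]
        refine (Int.floor_le _).trans ?_
        push_cast
        rw [hp2]
        nlinarith [h6.1, h6.2]
    · refine ⟨om i, h1, ?_, h3⟩
      intro l
      have h7 := Int.floor_le ((2 : ℝ) ^ k0 * om i l)
      have h8 := Int.lt_floor_add_one ((2 : ℝ) ^ k0 * om i l)
      rw [abs_lt]
      constructor <;> linarith
  refine Finset.card_le_mul_card_image_of_maps_to hmaps _ ?_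
  intro t ht
  have hp : (0 : ℝ) < 2 ^ d := by positivity
  have hp1 : (1 : ℝ) ≤ 2 ^ d := one_le_pow₀ (by norm_num)
  refine L1T_cube _ (fun l => (2 : ℝ) ^ d * t l) (1 + 2 ^ d) (5 * 2 ^ d) ?_ ?_
  · push_cast
    linarith
  · intro j hj l
    rw [Finset.mem_filter] at hj
    obtain ⟨hj1, hj2⟩ := hj
    obtain ⟨h1, h2, h3⟩ := hom j hj1
    have h4 := h2 l
    have h5 : t l = ⌊(2 : ℝ) ^ k0 * om j l⌋ := by rw [← hj2]
    have h7 := Int.floor_le ((2 : ℝ) ^ k0 * om j l)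
    have h8 := Int.lt_floor_add_one ((2 : ℝ) ^ k0 * om j l)
    rw [← h5] at h7 h8
    have h9 : (2 : ℝ) ^ (k0 + d) * om j l = 2 ^ d * (2 ^ k0 * om j l) := by
      rw [pow_add]; ring
    rw [h9] at h4
    have h10 := abs_lt.1 h4
    have h11 : (2 : ℝ) ^ d * (t l : ℝ) ≤ 2 ^ d * (2 ^ k0 * om j l) := by gcongr
    have h12 : (2 : ℝ) ^ d * (2 ^ k0 * om j l) ≤ 2 ^ d * ((t l : ℝ) + 1) := by gcongr
    rw [abs_lt]
    constructor <;> nlinarith [h10.1, h10.2]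

/-- number of cells in the support of the cut off -/
private theorem L1T_one {m : ℕ} {χ : E m → ℝ} (hχ : Pu χ) (κ d : ℕ) (j : Fin m → ℤ)
    (Ψ : E m → ℝ) :
    L1T_c (κ + d) (fun ω => χ ((2 : ℝ) ^ κ • ω - iv j) * Ψ ω) ≤ (5 * 2 ^ d) ^ m := by
  classical
  unfold L1T_c
  have hp : (0 : ℝ) < 2 ^ d := by positivity
  have hp1 : (1 : ℝ) ≤ 2 ^ d := one_le_pow₀ (by norm_num)
  refine L1T_cube _ (fun l => (2 : ℝ) ^ d * j l) (1 + 2 ^ d) (5 * 2 ^ d) ?_ ?_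
  · push_cast
    linarith
  · intro i hi l
    obtain ⟨ω, h1, h2, h3⟩ := (Finset.mem_filter.1 hi).2
    have h4 := h2 l
    have h5 := hχ.supp _ (left_ne_zero_of_mul h3) l
    have h6 : ((2 : ℝ) ^ κ • ω - iv j) l = 2 ^ κ * ω l - j l := by simp [iv]
    rw [h6] at h5
    have h9 : (2 : ℝ) ^ (κ + d) * ω l = 2 ^ d * (2 ^ κ * ω l) := by
      rw [pow_add]; ring
    rw [h9] at h4
    have h10 := abs_lt.1 h4
    have h11 := abs_lt.1 h5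
    have h12 : (2 : ℝ) ^ d * (2 ^ κ * ω l - j l) < 2 ^ d * 1 := by gcongr; exact h11.2
    have h13 : (2 : ℝ) ^ d * (-1) < 2 ^ d * (2 ^ κ * ω l - j l) := by gcongr; exact h11.1
    rw [abs_lt]
    constructor <;> nlinarith [h10.1, h10.2]

/-- sum over the labels -/
private theorem L1T_lab {m : ℕ} {χ : E m → ℝ} (hχ : Pu χ) (κ d : ℕ) (Q : Finset (Fin m → ℤ))
    (Ψ : E m → ℝ) :
    ∑ j ∈ Q, L1T_c (κ + d) (fun ω => χ ((2 : ℝ) ^ κ • ω - iv j) * Ψ ω) ≤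
      5 ^ m * L1T_c (κ + d) Ψ := by
  classical
  unfold L1T_c
  simp only [Finset.card_filter]
  rw [Finset.sum_comm, Finset.mul_sum]
  refine Finset.sum_le_sum fun i _ => ?_
  by_cases hi : tch (κ + d) Ψ i
  · rw [if_pos hi, mul_one, ← Finset.card_filter]
    refine L1T_cube _ (fun l => (2 : ℝ)⁻¹ ^ d * i l) 2 5 (by norm_num) ?_
    intro j hj l
    obtain ⟨ω, h1, h2, h3⟩ := (Finset.mem_filter.1 hj).2
    have h4 := h2 l
    have h5 := hχ.supp _ (left_ne_zero_of_mul h3) l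
    have h6 : ((2 : ℝ) ^ κ • ω - iv j) l = 2 ^ κ * ω l - j l := by simp [iv]
    rw [h6] at h5
    have hp : (0 : ℝ) < (2 : ℝ)⁻¹ ^ d := by positivity
    have hp1 : (2 : ℝ)⁻¹ ^ d ≤ 1 := pow_le_one₀ (by norm_num) (by norm_num)
    have hpp : (2 : ℝ)⁻¹ ^ d * 2 ^ d = 1 := by rw [← mul_pow]; norm_num
    have h9 : (2 : ℝ)⁻¹ ^ d * ((2 : ℝ) ^ (κ + d) * ω l) = 2 ^ κ * ω l := by
      rw [pow_add]
      calc (2 : ℝ)⁻¹ ^ d * ((2 : ℝ) ^ κ * 2 ^ d * ω l) =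
          ((2 : ℝ)⁻¹ ^ d * 2 ^ d) * (2 ^ κ * ω l) := by ring
        _ = _ := by rw [hpp, one_mul]
    have h10 := abs_lt.1 h4
    have h11 := abs_lt.1 h5
    have h12 : (2 : ℝ)⁻¹ ^ d * ((2 : ℝ) ^ (κ + d) * ω l - i l) < (2 : ℝ)⁻¹ ^ d * 1 := by
      gcongr; exact h10.2
    have h13 : (2 : ℝ)⁻¹ ^ d * (-1) < (2 : ℝ)⁻¹ ^ d * ((2 : ℝ) ^ (κ + d) * ω l - i l) := by
      gcongr; exact h10.1
    rw [mul_sub, h9] at h12 h13
    rw [abs_lt]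
    constructor <;> nlinarith [h11.1, h11.2]
  · rw [if_neg hi, mul_zero]
    refine le_of_eq (Finset.sum_eq_zero fun j _ => ?_)
    rw [if_neg]
    rintro ⟨ω, h1, h2, h3⟩
    exact hi ⟨ω, h1, h2, right_ne_zero_of_mul h3⟩

private theorem L1T_Sb {m : ℕ} {v0 v1 : ℝ} {χ : E m → ℝ} (hχ : Pu χ) {b : V m → ℂ}
    (hb : Sb v0 v1 1 b) (κ : ℕ) (j : Fin m → ℤ) {K : ℕ → ℝ} {Bd : ℝ} {Ψ : E m → ℝ}
    (hΨ : Sy K Bd Ψ) : Sb v0 v1 1 (cu χ b κ Ψ j) where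
  pos := hb.pos
  le := hb.le
  smooth := by
    have h1 : ContDiff ℝ (⊤ : ℕ∞) (fun z : V m => χ ((2 : ℝ) ^ κ • z.1 - iv j)) :=
      hχ.smooth.comp ((contDiff_fst.const_smul _).sub contDiff_const)
    have h2 : ContDiff ℝ (⊤ : ℕ∞) (fun z : V m => Ψ z.1) := hΨ.smooth.comp contDiff_fst
    exact (Complex.ofRealCLM.contDiff.comp h1).mul
      ((Complex.ofRealCLM.contDiff.comp h2).mul hb.smooth)
  supp := fun z hz => hb.supp z (fun h0 => hz (by unfold cu; rw [h0, mul_zero, mul_zero]))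

private theorem L1T_cont {m : ℕ} {v0 v1 : ℝ} {χ : E m → ℝ} (hχ : Pu χ) {b : V m → ℂ}
    (hb : Sb v0 v1 1 b) (h : ℝ) (κ : ℕ) (s0 : ℝ) {K : ℕ → ℝ} {Bd : ℝ} {Ψ : E m → ℝ}
    (hΨ : Sy K Bd Ψ) (a : Pk m) :
    Continuous (fun x : E (m + 1) => Kb (cu χ b κ Ψ a.1) (Lam (x, -s0) - pos h κ a)) := by
  have h1 := (Kb_cont (L1T_Sb hχ hb κ a.1 hΨ)).1
  have h2 : Continuous (fun x : E (m + 1) => Lam (x, -s0) - pos h κ a) :=
    (continuous_Lam.comp (continuous_id.prodMk continuous_const)).sub continuous_const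
  exact h1.comp h2

private theorem L1T_lint {m : ℕ} {v0 v1 : ℝ} {χ : E m → ℝ} (hχ : Pu χ) {b : V m → ℂ}
    (hb : Sb v0 v1 1 b) (Φ : X m → ℂ) (h : ℝ) (κ : ℕ) (s0 : ℝ) {β : Type}
    (B : Finset β) (k : β → ℕ) (S : β → Finset (X m)) (γ : β → X m → ℂ)
    (G : β → Finset (Pk m)) {K : ℕ → ℝ} {Bd : β → ℝ} (Ψ : β → E m → ℝ)
    (hΨ : ∀ i ∈ B, Sy K (Bd i) (Ψ i)) :
    ∫⁻ x, ‖Fh χ b Φ h κ s0 B k S γ G Ψ x‖ₑ ≤ ∑ i ∈ B, ∑ a ∈ G i,
      ENNReal.ofReal ((2 : ℝ) ^ ((k i : ℝ) * ((m : ℝ) / 2))) *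
        (‖cf Φ h κ (S i) (γ i) a‖ₑ *
          ∫⁻ x : E (m + 1), ‖Kb (cu χ b κ (Ψ i) a.1) (Lam (x, -s0) - pos h κ a)‖ₑ) := by
  have hmeas : ∀ i ∈ B, ∀ a, Measurable (fun x : E (m + 1) =>
      ‖Kb (cu χ b κ (Ψ i) a.1) (Lam (x, -s0) - pos h κ a)‖ₑ) := fun i hi a =>
    (L1T_cont hχ hb h κ s0 (hΨ i hi) a).measurable.enorm
  calc ∫⁻ x, ‖Fh χ b Φ h κ s0 B k S γ G Ψ x‖ₑ
      ≤ ∫⁻ x, ∑ i ∈ B, ∑ a ∈ G i, ENNReal.ofReal ((2 : ℝ) ^ ((k i : ℝ) * ((m : ℝ) / 2))) *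
        (‖cf Φ h κ (S i) (γ i) a‖ₑ *
          ‖Kb (cu χ b κ (Ψ i) a.1) (Lam (x, -s0) - pos h κ a)‖ₑ) := by
        refine lintegral_mono fun x => ?_
        unfold Fh
        refine (enorm_sum_le _ _).trans (Finset.sum_le_sum fun i _ => ?_)
        rw [enorm_mul, ← Finset.mul_sum]
        refine mul_le_mul' (le_of_eq ?_) ?_
        · rw [← ofReal_norm, Complex.norm_real, Real.norm_of_nonneg (by positivity)]
        · refine (enorm_sum_le _ _).trans (Finset.sum_le_sum fun a _ => ?_)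
          rw [enorm_mul]
    _ = _ := by
        rw [lintegral_finsetSum _ (fun i hi => Finset.measurable_fun_sum _ (fun a _ =>
          ((hmeas i hi a).const_mul _).const_mul _))]
        refine Finset.sum_congr rfl fun i hi => ?_
        rw [lintegral_finsetSum _ (fun a _ => ((hmeas i hi a).const_mul _).const_mul _)]
        refine Finset.sum_congr rfl fun a _ => ?_
        rw [lintegral_const_mul _ ((hmeas i hi a).const_mul _),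
          lintegral_const_mul _ (hmeas i hi a)]

/-- L1 norm of one packet, seen from the point p -/
private theorem L1T_pk {m : ℕ} (hm : 1 ≤ m) {v0 v1 : ℝ} {χ : E m → ℝ} (hχ : Pu χ)
    {b : V m → ℂ} (hb : Sb v0 v1 1 b) (K : ℕ → ℝ) (hK : ∀ n, 0 ≤ K n) : ∃ C : ℝ, 0 < C ∧
    ∀ (h : ℝ) (κ k : ℕ), (4 : ℝ) ^ κ ≤ 2 ^ k → ∀ p : X m, (2 : ℝ) ^ k ≤ rad p →
    rad p ≤ 2 ^ (k + 1) → ∀ a : Pk m, a.1 ∈ J m κ → ∀ Ψ : E m → ℝ,
    Sy K ((2 : ℝ) ^ (k / 2)) Ψ → ∀ s0 : ℝ,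
    ∫⁻ x : E (m + 1), ‖Kb (cu χ b κ Ψ a.1) (Lam (x, -s0) - pos h κ a)‖ₑ ≤
      ENNReal.ofReal (C * (1 + |s0|) ^ ((m : ℝ) / 2) *
        (1 + ‖nd h a.2 - Lk κ (w κ a.1) p‖) ^ m *
        (L1T_c (k / 2) (fun ω => χ ((2 : ℝ) ^ κ • ω - iv a.1) * Ψ ω) : ℝ)) := by
  obtain ⟨C1, hC1, hL⟩ := packet_L1U hm hχ hb K hK
  obtain ⟨c, hc⟩ : ∃ c : ℝ, c = 2 + 2 * (1 + 2 * Real.sqrt m) ^ 2 := ⟨_, rfl⟩
  have hc2 : 2 ≤ c := by rw [hc]; nlinarith [sq_nonneg (1 + 2 * Real.sqrt m)]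
  refine ⟨C1 * 5 ^ m * (8 * c) ^ ((m : ℝ) / 2), by positivity, ?_⟩
  intro h κ k hk p hp1 hp2 a ha Ψ hΨ s0
  obtain ⟨α, hα⟩ : ∃ α : ℝ, α = ‖nd h a.2 - Lk κ (w κ a.1) p‖ := ⟨_, rfl⟩
  have hα0 : 0 ≤ α := by rw [hα]; exact norm_nonneg _
  have hs := abs_nonneg s0
  have h2k : (1 : ℝ) ≤ 2 ^ k := one_le_pow₀ (by norm_num)
  obtain ⟨Q, hQ⟩ : ∃ Q : ℝ, Q = 2 ^ k * (c * ((1 + α) * (1 + |s0|))) := ⟨_, rfl⟩
  have hprod : 1 ≤ (1 + α) * (1 + |s0|) := by nlinarith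
  have hcp : 2 ≤ c * ((1 + α) * (1 + |s0|)) := by nlinarith
  have hQ1 : (2 : ℝ) ^ k ≤ Q := by rw [hQ]; nlinarith
  have hQ2 : 1 ≤ Q := h2k.trans hQ1
  -- radius
  have hrad : |rad (pos h κ a)| + |s0| ≤ Q := by
    have h1 : rad (pos h κ a) = rad p + rad (pos h κ a - p) := by
      rw [rad_sub]
      ring
    have h2 := abs_rad_le (pos h κ a - p)
    have h3 : |rad p| ≤ 2 * 2 ^ k := by
      have h7 : (0 : ℝ) < 2 ^ k := by positivity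
      rw [abs_of_nonneg (by linarith)]
      calc rad p ≤ 2 ^ (k + 1) := hp2
        _ = 2 * 2 ^ k := by rw [pow_succ]; ring
    have hpos : ‖pos h κ a - p‖ ≤ 2 ^ k * ((1 + 2 * Real.sqrt m) ^ 2 * α) := by
      have h1 : pos h κ a - p = Li κ (w κ a.1) (nd h a.2 - Lk κ (w κ a.1) p) := by
        have h2 : Lk κ (w κ a.1) (pos h κ a - p) = nd h a.2 - Lk κ (w κ a.1) p := by
          rw [Lk_sub]
          unfold pos
          rw [Lk_Li]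
        rw [← h2, Li_Lk]
      rw [h1]
      refine (norm_Li_le _ _ _).trans ?_
      have h5 : ‖(w κ a.1 : E m)‖ ≤ 2 * Real.sqrt m := norm_w_le κ a.1 ha
      rw [← hα]
      calc (4 : ℝ) ^ κ * (1 + ‖(w κ a.1 : E m)‖) ^ 2 * α
          ≤ 2 ^ k * (1 + 2 * Real.sqrt m) ^ 2 * α := by gcongr
        _ = _ := by ring
    have h4 : |rad (pos h κ a)| ≤ 2 ^ k * (c * (1 + α)) := by
      rw [h1]
      refine (abs_add_le _ _).trans ?_
      have h8 : 2 * ‖pos h κ a - p‖ ≤ 2 * (2 ^ k * ((1 + 2 * Real.sqrt m) ^ 2 * α)) := by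
        linarith
      have h9 : 2 * (2 : ℝ) ^ k + 2 * (2 ^ k * ((1 + 2 * Real.sqrt m) ^ 2 * α)) ≤
          2 ^ k * (c * (1 + α)) := by
        have h10 : 2 + 2 * ((1 + 2 * Real.sqrt m) ^ 2 * α) ≤ c * (1 + α) := by
          rw [hc]
          nlinarith [sq_nonneg (1 + 2 * Real.sqrt m)]
        nlinarith
      linarith
    rw [hQ]
    have h11 : |s0| ≤ 2 ^ k * (c * (1 + α) * |s0|) := by
      have h12 : 1 ≤ c * (1 + α) := by nlinarith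
      have h13 : 1 ≤ 2 ^ k * (c * (1 + α)) := by nlinarith
      calc |s0| = 1 * |s0| := by ring
        _ ≤ (2 ^ k * (c * (1 + α))) * |s0| := by gcongr
        _ = _ := by ring
    calc |rad (pos h κ a)| + |s0| ≤ 2 ^ k * (c * (1 + α)) + 2 ^ k * (c * (1 + α) * |s0|) := by
          linarith
      _ = _ := by ring
  -- the scale
  obtain ⟨n, hn1, hn2⟩ := exists_nat_pow_near hQ2 (by norm_num : (1 : ℝ) < 4)
  have hk2 : (4 : ℝ) ^ (k / 2) ≤ 2 ^ k := by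
    have e : (4 : ℝ) ^ (k / 2) = 2 ^ (2 * (k / 2)) := by rw [pow_mul]; norm_num
    rw [e]
    exact pow_le_pow_right₀ (by norm_num) (by omega)
  have hk3 : (2 : ℝ) ^ k ≤ 2 * 4 ^ (k / 2) := by
    have e : 2 * (4 : ℝ) ^ (k / 2) = 2 ^ (2 * (k / 2) + 1) := by
      rw [pow_succ, pow_mul]; norm_num; ring
    rw [e]
    exact pow_le_pow_right₀ (by norm_num) (by omega)
  have hkn : k / 2 ≤ n + 1 := by
    have h1 : (4 : ℝ) ^ (k / 2) < 4 ^ (n + 1) := lt_of_le_of_lt (hk2.trans hQ1) hn2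
    exact ((pow_lt_pow_iff_right₀ (by norm_num : (1 : ℝ) < 4)).1 h1).le
  have hκ : κ ≤ k / 2 := by
    have h1 : (2 : ℝ) ^ (2 * κ) ≤ 2 ^ k := by
      rw [pow_mul]
      norm_num
      exact hk
    have h2 := (pow_le_pow_iff_right₀ (by norm_num : (1 : ℝ) < 2)).1 h1
    omega
  obtain ⟨d, hd⟩ : ∃ d, n + 1 = k / 2 + d := ⟨n + 1 - k / 2, by omega⟩
  have hmono : (2 : ℝ) ^ (k / 2) ≤ 2 ^ (n + 1) := pow_le_pow_right₀ (by norm_num) hkn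
  have h1 := hL κ (n + 1) (hκ.trans hkn) a.1 ha Ψ
    (Sy_mono hK (by positivity) hmono hΨ) (pos h κ a) s0 (hrad.trans hn2.le)
  refine h1.trans (ENNReal.ofReal_le_ofReal ?_)
  have h2 := L1T_fine (k / 2) d (fun ω => χ ((2 : ℝ) ^ κ • ω - iv a.1) * Ψ ω)
  rw [← hd] at h2
  have h3 : (L1T_c (n + 1) (fun ω => χ ((2 : ℝ) ^ κ • ω - iv a.1) * Ψ ω) : ℝ) ≤
      (5 * 2 ^ d) ^ m * (L1T_c (k / 2) (fun ω => χ ((2 : ℝ) ^ κ • ω - iv a.1) * Ψ ω) : ℝ) := by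
    exact_mod_cast h2
  have h4 : ((2 : ℝ) ^ d) ^ m ≤ (8 * c) ^ ((m : ℝ) / 2) *
      ((1 + |s0|) ^ ((m : ℝ) / 2) * (1 + α) ^ m) := by
    have h5 : (4 : ℝ) ^ d ≤ 8 * c * ((1 + |s0|) * (1 + α)) := by
      have h6 : (4 : ℝ) ^ (k / 2) * 4 ^ d ≤ 4 ^ (k / 2) * (8 * c * ((1 + |s0|) * (1 + α))) := by
        rw [← pow_add, ← hd, pow_succ]
        calc (4 : ℝ) ^ n * 4 ≤ Q * 4 := by gcongr
          _ = 4 * c * ((1 + |s0|) * (1 + α)) * 2 ^ k := by rw [hQ]; ring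
          _ ≤ 4 * c * ((1 + |s0|) * (1 + α)) * (2 * 4 ^ (k / 2)) := by gcongr
          _ = _ := by ring
      exact le_of_mul_le_mul_left h6 (by positivity)
    have h7 : ((2 : ℝ) ^ d) ^ m = ((4 : ℝ) ^ d) ^ ((m : ℝ) / 2) := by
      have h8 : (4 : ℝ) ^ d = ((2 : ℝ) ^ d) ^ (2 : ℝ) := by
        rw [Real.rpow_two, ← pow_mul, mul_comm, pow_mul]
        norm_num
      rw [h8, ← Real.rpow_mul (by positivity), ← Real.rpow_natCast _ m]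
      congr 1
      ring
    rw [h7]
    refine (Real.rpow_le_rpow (by positivity) h5 (by positivity)).trans ?_
    rw [Real.mul_rpow (x := 8 * c) (by positivity) (by positivity),
      Real.mul_rpow (x := 1 + |s0|) (by positivity) (by positivity)]
    have h9 : (1 + α) ^ ((m : ℝ) / 2) ≤ (1 + α) ^ m := by
      rw [← Real.rpow_natCast (1 + α) m]
      refine Real.rpow_le_rpow_of_exponent_le (by linarith) ?_
      have h0 : (0 : ℝ) ≤ m := Nat.cast_nonneg _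
      linarith
    gcongr
  have h0 : (0 : ℝ) ≤ (L1T_c (k / 2) (fun ω => χ ((2 : ℝ) ^ κ • ω - iv a.1) * Ψ ω) : ℝ) :=
    Nat.cast_nonneg _
  calc C1 * (L1T_c (n + 1) (fun ω => χ ((2 : ℝ) ^ κ • ω - iv a.1) * Ψ ω) : ℝ)
      ≤ C1 * ((5 * 2 ^ d) ^ m *
        (L1T_c (k / 2) (fun ω => χ ((2 : ℝ) ^ κ • ω - iv a.1) * Ψ ω) : ℝ)) := by gcongr
    _ = C1 * 5 ^ m * ((2 : ℝ) ^ d) ^ m *
        (L1T_c (k / 2) (fun ω => χ ((2 : ℝ) ^ κ • ω - iv a.1) * Ψ ω) : ℝ) := by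
        rw [mul_pow]; ring
    _ ≤ C1 * 5 ^ m * ((8 * c) ^ ((m : ℝ) / 2) *
      ((1 + |s0|) ^ ((m : ℝ) / 2) * (1 + α) ^ m)) *
        (L1T_c (k / 2) (fun ω => χ ((2 : ℝ) ^ κ • ω - iv a.1) * Ψ ω) : ℝ) := by gcongr
    _ = _ := by rw [hα]; ring

/-- one packet with its coefficient -/
private theorem L1T_term {m : ℕ} (hm : 1 ≤ m) {h v0 v1 ρ R : ℝ} {Φ Φh : X m → ℂ}
    (hR : Rp h v0 v1 ρ R Φ Φh) {χ : E m → ℝ} (hχ : Pu χ) {b : V m → ℂ} (hb : Sb v0 v1 1 b)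
    (K : ℕ → ℝ) (hK : ∀ n, 0 ≤ K n) (M : ℕ) : ∃ C : ℝ, 0 < C ∧
    ∀ (κ k : ℕ), (4 : ℝ) ^ κ ≤ 2 ^ k → ∀ S : Finset (X m),
    (∀ p ∈ S, (2 : ℝ) ^ k ≤ rad p ∧ rad p ≤ 2 ^ (k + 1)) → ∀ γ : X m → ℂ, (∀ p, ‖γ p‖ ≤ 1) →
    ∀ a : Pk m, a.1 ∈ J m κ → ∀ Ψ : E m → ℝ,
    Sy K ((2 : ℝ) ^ (k / 2)) Ψ → ∀ s0 : ℝ,
    ENNReal.ofReal ((2 : ℝ) ^ ((k : ℝ) * ((m : ℝ) / 2))) * (‖cf Φ h κ S γ a‖ₑ *
      ∫⁻ x : E (m + 1), ‖Kb (cu χ b κ Ψ a.1) (Lam (x, -s0) - pos h κ a)‖ₑ) ≤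
      ENNReal.ofReal (C * (1 + |s0|) ^ ((m : ℝ) / 2) *
        ((2 : ℝ) ^ ((k : ℝ) * ((m : ℝ) / 2)) * ∑ p ∈ S,
        (L1T_c (k / 2) (fun ω => χ ((2 : ℝ) ^ κ • ω - iv a.1) * Ψ ω) : ℝ) *
          (1 / (1 + ‖nd h a.2 - Lk κ (w κ a.1) p‖) ^ M))) := by
  obtain ⟨C1, hC1, hP⟩ := L1T_pk hm hχ hb K hK
  obtain ⟨C2, hC2, hD⟩ := hR.dec (M + m)
  refine ⟨C1 * C2, by positivity, ?_⟩
  intro κ k hk S hS γ hγ a ha Ψ hΨ s0
  obtain ⟨I, hI⟩ : ∃ I, I = ∫⁻ x : E (m + 1),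
    ‖Kb (cu χ b κ Ψ a.1) (Lam (x, -s0) - pos h κ a)‖ₑ := ⟨_, rfl⟩
  obtain ⟨c, hc⟩ : ∃ c : ℝ, c =
    (L1T_c (k / 2) (fun ω => χ ((2 : ℝ) ^ κ • ω - iv a.1) * Ψ ω) : ℝ) := ⟨_, rfl⟩
  have hc0 : 0 ≤ c := by rw [hc]; exact Nat.cast_nonneg _
  have hs := abs_nonneg s0
  rw [← hI, ← hc]
  have h1 : ‖cf Φ h κ S γ a‖ₑ ≤ ∑ p ∈ S,
      ENNReal.ofReal (C2 / (1 + ‖nd h a.2 - Lk κ (w κ a.1) p‖) ^ (M + m)) := by
    unfold cf
    refine (enorm_sum_le _ _).trans (Finset.sum_le_sum fun p _ => ?_)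
    rw [← ofReal_norm]
    refine ENNReal.ofReal_le_ofReal ?_
    rw [norm_mul]
    calc ‖γ p‖ * ‖Φ (nd h a.2 - Lk κ (w κ a.1) p)‖
        ≤ 1 * ‖Φ (nd h a.2 - Lk κ (w κ a.1) p)‖ := by
          gcongr
          exact hγ p
      _ ≤ _ := by
          rw [one_mul]
          exact hD _
  have h2 : ‖cf Φ h κ S γ a‖ₑ * I ≤ ∑ p ∈ S, ENNReal.ofReal (C1 * C2 *
      (1 + |s0|) ^ ((m : ℝ) / 2) * (c * (1 / (1 + ‖nd h a.2 - Lk κ (w κ a.1) p‖) ^ M))) := by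
    refine (mul_le_mul' h1 le_rfl).trans ?_
    rw [Finset.sum_mul]
    refine Finset.sum_le_sum fun p hp => ?_
    have h3 := hP h κ k hk p (hS p hp).1 (hS p hp).2 a ha Ψ hΨ s0
    rw [← hI, ← hc] at h3
    refine (mul_le_mul' le_rfl h3).trans ?_
    rw [← ENNReal.ofReal_mul (by positivity)]
    refine ENNReal.ofReal_le_ofReal (le_of_eq ?_)
    have h4 : 0 < 1 + ‖nd h a.2 - Lk κ (w κ a.1) p‖ := by positivity
    rw [pow_add]
    field_simp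
  refine (mul_le_mul' le_rfl h2).trans ?_
  rw [← ENNReal.ofReal_sum_of_nonneg (fun p _ => by positivity),
    ← ENNReal.ofReal_mul (by positivity)]
  refine ENNReal.ofReal_le_ofReal (le_of_eq ?_)
  rw [← Finset.mul_sum]
  ring

open scoped Classical in
/-- L1 bound by the number of fine cells in the support of the symbols -/
theorem L1T {m : ℕ} (hm : 1 ≤ m) {h v0 v1 ρ R : ℝ} {Φ Φh : X m → ℂ}
    (hR : Rp h v0 v1 ρ R Φ Φh) {χ : E m → ℝ} (hχ : Pu χ) {b : V m → ℂ} (hb : Sb v0 v1 1 b)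
    (K : ℕ → ℝ) (hK : ∀ n, 0 ≤ K n) : ∃ C : ℝ, 0 < C ∧ ∀ (κ : ℕ) (β : Type) (B : Finset β)
    (k : β → ℕ) (S : β → Finset (X m)), Bk κ B k S → ∀ γ : β → X m → ℂ,
    (∀ i p, ‖γ i p‖ ≤ 1) → ∀ G : β → Finset (Pk m), (∀ i, ∀ a ∈ G i, a.1 ∈ J m κ) →
    ∀ Ψ : β → E m → ℝ, (∀ i ∈ B, Sy K ((2 : ℝ) ^ (k i / 2)) (Ψ i)) → ∀ s0 : ℝ,
    ∫⁻ x, ‖Fh χ b Φ h κ s0 B k S γ G Ψ x‖ₑ ≤
      ENNReal.ofReal (C * (1 + |s0|) ^ ((m : ℝ) / 2) * ∑ i ∈ B, ((S i).card : ℝ) *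
        (2 : ℝ) ^ ((k i : ℝ) * ((m : ℝ) / 2)) *
        (((J m (k i / 2)).filter (fun j => tch (k i / 2) (Ψ i) j)).card : ℝ)) := by
  obtain ⟨C1, hC1, hT⟩ := L1T_term hm hR hχ hb K hK (m + 3)
  obtain ⟨C5, hC5, hsum⟩ := sum_nd m h hR.hpos
  refine ⟨C1 * (C5 * 5 ^ m), by positivity, ?_⟩
  intro κ β B k S hBk γ hγ G hG Ψ hΨ s0
  have hs := abs_nonneg s0
  refine (L1T_lint hχ hb Φ h κ s0 B k S γ G Ψ hΨ).trans ?_
  have hcell : ∀ i, (((J m (k i / 2)).filter (fun j => tch (k i / 2) (Ψ i) j)).card : ℝ) =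
      (L1T_c (k i / 2) (Ψ i) : ℝ) := fun i => rfl
  simp only [hcell]
  calc ∑ i ∈ B, ∑ a ∈ G i,
      ENNReal.ofReal ((2 : ℝ) ^ ((k i : ℝ) * ((m : ℝ) / 2))) *
        (‖cf Φ h κ (S i) (γ i) a‖ₑ *
          ∫⁻ x : E (m + 1), ‖Kb (cu χ b κ (Ψ i) a.1) (Lam (x, -s0) - pos h κ a)‖ₑ)
      ≤ ∑ i ∈ B, ∑ a ∈ G i, ENNReal.ofReal (C1 * (1 + |s0|) ^ ((m : ℝ) / 2) *
        ((2 : ℝ) ^ ((k i : ℝ) * ((m : ℝ) / 2)) * ∑ p ∈ S i,
        (L1T_c (k i / 2) (fun ω => χ ((2 : ℝ) ^ κ • ω - iv a.1) * Ψ i ω) : ℝ) *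
          (1 / (1 + ‖nd h a.2 - Lk κ (w κ a.1) p‖) ^ (m + 3)))) := by
        refine Finset.sum_le_sum fun i hi => Finset.sum_le_sum fun a ha => ?_
        exact hT κ (k i) (hBk.le i hi) (S i) (hBk.rad i hi) (γ i) (hγ i) a (hG i a ha) (Ψ i)
          (hΨ i hi) s0
    _ = ENNReal.ofReal (∑ i ∈ B, ∑ a ∈ G i, C1 * (1 + |s0|) ^ ((m : ℝ) / 2) *
        ((2 : ℝ) ^ ((k i : ℝ) * ((m : ℝ) / 2)) * ∑ p ∈ S i,
        (L1T_c (k i / 2) (fun ω => χ ((2 : ℝ) ^ κ • ω - iv a.1) * Ψ i ω) : ℝ) *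
          (1 / (1 + ‖nd h a.2 - Lk κ (w κ a.1) p‖) ^ (m + 3)))) := by
        rw [ENNReal.ofReal_sum_of_nonneg (fun i _ => by positivity)]
        refine Finset.sum_congr rfl fun i _ => ?_
        rw [ENNReal.ofReal_sum_of_nonneg (fun a _ => by positivity)]
    _ ≤ _ := by
        refine ENNReal.ofReal_le_ofReal ?_
        rw [Finset.mul_sum]
        refine Finset.sum_le_sum fun i hi => ?_
        have hκ : κ ≤ k i / 2 := by
          have h1 : (2 : ℝ) ^ (2 * κ) ≤ 2 ^ (k i) := by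
            rw [pow_mul]
            norm_num
            exact hBk.le i hi
          have h2 := (pow_le_pow_iff_right₀ (by norm_num : (1 : ℝ) < 2)).1 h1
          omega
        obtain ⟨d, hd⟩ : ∃ d, k i / 2 = κ + d := ⟨k i / 2 - κ, by omega⟩
        have hin : ∀ p : X m, ∑ a ∈ G i,
            (L1T_c (k i / 2) (fun ω => χ ((2 : ℝ) ^ κ • ω - iv a.1) * Ψ i ω) : ℝ) *
              (1 / (1 + ‖nd h a.2 - Lk κ (w κ a.1) p‖) ^ (m + 3)) ≤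
            (C5 * 5 ^ m) * (L1T_c (k i / 2) (Ψ i) : ℝ) := by
          intro p
          have h1 : ∑ a ∈ G i,
              (L1T_c (k i / 2) (fun ω => χ ((2 : ℝ) ^ κ • ω - iv a.1) * Ψ i ω) : ℝ) *
                (1 / (1 + ‖nd h a.2 - Lk κ (w κ a.1) p‖) ^ (m + 3)) ≤
              ∑ a ∈ ((G i).image Prod.fst) ×ˢ ((G i).image Prod.snd),
              (L1T_c (k i / 2) (fun ω => χ ((2 : ℝ) ^ κ • ω - iv a.1) * Ψ i ω) : ℝ) *
                (1 / (1 + ‖nd h a.2 - Lk κ (w κ a.1) p‖) ^ (m + 3)) := by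
            apply Finset.sum_le_sum_of_subset_of_nonneg Finset.subset_product
            intro a _ _
            positivity
          refine h1.trans ?_
          rw [Finset.sum_product]
          have h2 : ∀ j ∈ (G i).image Prod.fst, ∑ n ∈ (G i).image Prod.snd,
              (L1T_c (k i / 2) (fun ω => χ ((2 : ℝ) ^ κ • ω - iv j) * Ψ i ω) : ℝ) *
                (1 / (1 + ‖nd h n - Lk κ (w κ j) p‖) ^ (m + 3)) ≤
              C5 * (L1T_c (k i / 2) (fun ω => χ ((2 : ℝ) ^ κ • ω - iv j) * Ψ i ω) : ℝ) := by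
            intro j _
            rw [← Finset.mul_sum, mul_comm]
            exact mul_le_mul_of_nonneg_right (hsum _ _) (Nat.cast_nonneg _)
          refine (Finset.sum_le_sum h2).trans ?_
          rw [← Finset.mul_sum, mul_assoc]
          refine mul_le_mul_of_nonneg_left ?_ hC5.le
          have h3 := L1T_lab hχ κ d ((G i).image Prod.fst) (Ψ i)
          rw [← hd] at h3
          exact_mod_cast h3
        calc ∑ a ∈ G i, C1 * (1 + |s0|) ^ ((m : ℝ) / 2) *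
            ((2 : ℝ) ^ ((k i : ℝ) * ((m : ℝ) / 2)) * ∑ p ∈ S i,
            (L1T_c (k i / 2) (fun ω => χ ((2 : ℝ) ^ κ • ω - iv a.1) * Ψ i ω) : ℝ) *
              (1 / (1 + ‖nd h a.2 - Lk κ (w κ a.1) p‖) ^ (m + 3)))
            = C1 * (1 + |s0|) ^ ((m : ℝ) / 2) *
            ((2 : ℝ) ^ ((k i : ℝ) * ((m : ℝ) / 2)) * ∑ p ∈ S i, ∑ a ∈ G i,
            (L1T_c (k i / 2) (fun ω => χ ((2 : ℝ) ^ κ • ω - iv a.1) * Ψ i ω) : ℝ) *
              (1 / (1 + ‖nd h a.2 - Lk κ (w κ a.1) p‖) ^ (m + 3))) := by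
              rw [← Finset.mul_sum, ← Finset.mul_sum, Finset.sum_comm]
          _ ≤ C1 * (1 + |s0|) ^ ((m : ℝ) / 2) *
            ((2 : ℝ) ^ ((k i : ℝ) * ((m : ℝ) / 2)) * ∑ _p ∈ S i,
              (C5 * 5 ^ m) * (L1T_c (k i / 2) (Ψ i) : ℝ)) := by
              gcongr with p _
              exact hin p
          _ = _ := by
              rw [Finset.sum_const, nsmul_eq_mul]
              ring

/-- L1 bound by the packets -/
theorem L1P {m : ℕ} (hm : 1 ≤ m) {h v0 v1 ρ R : ℝ} {Φ Φh : X m → ℂ}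
    (hR : Rp h v0 v1 ρ R Φ Φh) {χ : E m → ℝ} (hχ : Pu χ) {b : V m → ℂ} (hb : Sb v0 v1 1 b)
    (K : ℕ → ℝ) (hK : ∀ n, 0 ≤ K n) (M : ℕ) : ∃ C : ℝ, 0 < C ∧ ∀ (κ : ℕ) (β : Type)
    (B : Finset β) (k : β → ℕ) (S : β → Finset (X m)), Bk κ B k S → ∀ γ : β → X m → ℂ,
    (∀ i p, ‖γ i p‖ ≤ 1) → ∀ G : β → Finset (Pk m), (∀ i, ∀ a ∈ G i, a.1 ∈ J m κ) →
    ∀ Ψ : β → E m → ℝ, (∀ i ∈ B, Sy K ((2 : ℝ) ^ (k i / 2)) (Ψ i)) → ∀ s0 : ℝ,
    ∫⁻ x, ‖Fh χ b Φ h κ s0 B k S γ G Ψ x‖ₑ ≤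
      ENNReal.ofReal (C * (1 + |s0|) ^ ((m : ℝ) / 2) * (2 : ℝ)⁻¹ ^ (κ * m) *
        ∑ i ∈ B, (2 : ℝ) ^ (k i * m) * ∑ p ∈ S i, ∑ a ∈ G i,
          1 / (1 + ‖nd h a.2 - Lk κ (w κ a.1) p‖) ^ M) := by
  obtain ⟨C1, hC1, hT⟩ := L1T_term hm hR hχ hb K hK M
  refine ⟨C1 * 5 ^ m, by positivity, ?_⟩
  intro κ β B k S hBk γ hγ G hG Ψ hΨ s0
  have hs := abs_nonneg s0
  refine (L1T_lint hχ hb Φ h κ s0 B k S γ G Ψ hΨ).trans ?_
  calc ∑ i ∈ B, ∑ a ∈ G i,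
      ENNReal.ofReal ((2 : ℝ) ^ ((k i : ℝ) * ((m : ℝ) / 2))) *
        (‖cf Φ h κ (S i) (γ i) a‖ₑ *
          ∫⁻ x : E (m + 1), ‖Kb (cu χ b κ (Ψ i) a.1) (Lam (x, -s0) - pos h κ a)‖ₑ)
      ≤ ∑ i ∈ B, ∑ a ∈ G i, ENNReal.ofReal (C1 * (1 + |s0|) ^ ((m : ℝ) / 2) *
        ((2 : ℝ) ^ ((k i : ℝ) * ((m : ℝ) / 2)) * ∑ p ∈ S i,
        (L1T_c (k i / 2) (fun ω => χ ((2 : ℝ) ^ κ • ω - iv a.1) * Ψ i ω) : ℝ) *
          (1 / (1 + ‖nd h a.2 - Lk κ (w κ a.1) p‖) ^ M))) := by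
        refine Finset.sum_le_sum fun i hi => Finset.sum_le_sum fun a ha => ?_
        exact hT κ (k i) (hBk.le i hi) (S i) (hBk.rad i hi) (γ i) (hγ i) a (hG i a ha) (Ψ i)
          (hΨ i hi) s0
    _ = ENNReal.ofReal (∑ i ∈ B, ∑ a ∈ G i, C1 * (1 + |s0|) ^ ((m : ℝ) / 2) *
        ((2 : ℝ) ^ ((k i : ℝ) * ((m : ℝ) / 2)) * ∑ p ∈ S i,
        (L1T_c (k i / 2) (fun ω => χ ((2 : ℝ) ^ κ • ω - iv a.1) * Ψ i ω) : ℝ) *
          (1 / (1 + ‖nd h a.2 - Lk κ (w κ a.1) p‖) ^ M))) := by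
        rw [ENNReal.ofReal_sum_of_nonneg (fun i _ => by positivity)]
        refine Finset.sum_congr rfl fun i _ => ?_
        rw [ENNReal.ofReal_sum_of_nonneg (fun a _ => by positivity)]
    _ ≤ _ := by
        refine ENNReal.ofReal_le_ofReal ?_
        rw [Finset.mul_sum]
        refine Finset.sum_le_sum fun i hi => ?_
        have hκ : 2 * κ ≤ k i := by
          have h1 : (2 : ℝ) ^ (2 * κ) ≤ 2 ^ (k i) := by
            rw [pow_mul]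
            norm_num
            exact hBk.le i hi
          exact (pow_le_pow_iff_right₀ (by norm_num : (1 : ℝ) < 2)).1 h1
        obtain ⟨d, hd⟩ : ∃ d, k i / 2 = κ + d := ⟨k i / 2 - κ, by omega⟩
        have hcell : ∀ j : Fin m → ℤ, (2 : ℝ) ^ ((k i : ℝ) * ((m : ℝ) / 2)) *
            (L1T_c (k i / 2) (fun ω => χ ((2 : ℝ) ^ κ • ω - iv j) * Ψ i ω) : ℝ) ≤
            5 ^ m * ((2 : ℝ)⁻¹ ^ (κ * m) * 2 ^ (k i * m)) := by
          intro j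
          have h1 := L1T_one hχ κ d j (Ψ i)
          rw [← hd] at h1
          have h2 : (L1T_c (k i / 2) (fun ω => χ ((2 : ℝ) ^ κ • ω - iv j) * Ψ i ω) : ℝ) ≤
              (5 * 2 ^ d) ^ m := by exact_mod_cast h1
          have h3 : ((2 : ℝ) ^ d) ^ m ≤ (2 : ℝ)⁻¹ ^ (κ * m) *
              (2 : ℝ) ^ ((k i : ℝ) * ((m : ℝ) / 2)) := by
            rw [inv_pow, ← Real.rpow_natCast 2 (κ * m), ← Real.rpow_neg (by norm_num),
              ← Real.rpow_add (by norm_num), ← pow_mul, ← Real.rpow_natCast 2 (d * m)]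
            refine Real.rpow_le_rpow_of_exponent_le (by norm_num) ?_
            have h4 : 2 * (κ + d) ≤ k i := by omega
            have h5 : 2 * ((κ : ℝ) + d) ≤ k i := by exact_mod_cast h4
            have h0 : (0 : ℝ) ≤ m := Nat.cast_nonneg _
            push_cast
            nlinarith
          have h6 : (2 : ℝ) ^ ((k i : ℝ) * ((m : ℝ) / 2)) *
              (2 : ℝ) ^ ((k i : ℝ) * ((m : ℝ) / 2)) = 2 ^ (k i * m) := by
            rw [← Real.rpow_add (by norm_num), ← Real.rpow_natCast]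
            congr 1
            push_cast
            ring
          calc (2 : ℝ) ^ ((k i : ℝ) * ((m : ℝ) / 2)) *
            (L1T_c (k i / 2) (fun ω => χ ((2 : ℝ) ^ κ • ω - iv j) * Ψ i ω) : ℝ)
              ≤ (2 : ℝ) ^ ((k i : ℝ) * ((m : ℝ) / 2)) * ((5 * 2 ^ d) ^ m) := by gcongr
            _ = 5 ^ m * ((2 : ℝ) ^ ((k i : ℝ) * ((m : ℝ) / 2)) * ((2 : ℝ) ^ d) ^ m) := by
                rw [mul_pow]; ring
            _ ≤ 5 ^ m * ((2 : ℝ) ^ ((k i : ℝ) * ((m : ℝ) / 2)) * ((2 : ℝ)⁻¹ ^ (κ * m) *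
              (2 : ℝ) ^ ((k i : ℝ) * ((m : ℝ) / 2)))) := by gcongr
            _ = 5 ^ m * ((2 : ℝ)⁻¹ ^ (κ * m) * ((2 : ℝ) ^ ((k i : ℝ) * ((m : ℝ) / 2)) *
              (2 : ℝ) ^ ((k i : ℝ) * ((m : ℝ) / 2)))) := by ring
            _ = _ := by rw [h6]
        rw [Finset.sum_comm, Finset.mul_sum, Finset.mul_sum]
        refine Finset.sum_le_sum fun a _ => ?_
        calc C1 * (1 + |s0|) ^ ((m : ℝ) / 2) *
            ((2 : ℝ) ^ ((k i : ℝ) * ((m : ℝ) / 2)) * ∑ p ∈ S i,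
            (L1T_c (k i / 2) (fun ω => χ ((2 : ℝ) ^ κ • ω - iv a.1) * Ψ i ω) : ℝ) *
              (1 / (1 + ‖nd h a.2 - Lk κ (w κ a.1) p‖) ^ M))
            = C1 * (1 + |s0|) ^ ((m : ℝ) / 2) *
            (((2 : ℝ) ^ ((k i : ℝ) * ((m : ℝ) / 2)) *
            (L1T_c (k i / 2) (fun ω => χ ((2 : ℝ) ^ κ • ω - iv a.1) * Ψ i ω) : ℝ)) *
            ∑ p ∈ S i, 1 / (1 + ‖nd h a.2 - Lk κ (w κ a.1) p‖) ^ M) := by
              rw [← Finset.mul_sum]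
              ring
          _ ≤ C1 * (1 + |s0|) ^ ((m : ℝ) / 2) *
            ((5 ^ m * ((2 : ℝ)⁻¹ ^ (κ * m) * 2 ^ (k i * m))) *
            ∑ p ∈ S i, 1 / (1 + ‖nd h a.2 - Lk κ (w κ a.1) p‖) ^ M) := by
              have := hcell a.1
              have h9 : 0 ≤ ∑ p ∈ S i, 1 / (1 + ‖nd h a.2 - Lk κ (w κ a.1) p‖) ^ M :=
                Finset.sum_nonneg fun p _ => by positivity
              gcongr
          _ = _ := by ring

end Pool.LibCA93
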