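import Pool.Agent.LibCA93.B1U
import Pool.Agent.LibCA93.L1T

/-
PLAN (B4U, MEDIUM). strong_blk of LibST49 (proof: store ST49_B4.lean; adapt it): layer cake from weak_finU for lam >= 1 and the L1 bound for lam <= 1. L1 bound: L1T, number of cells in J m (k i/2) is <= 5^m 2^((k i/2) m)
(card_J_le), so <= C (1+|s0|)^(m/2) SUM #S i 2^(k i m) = C .. Wt.
-/

set_option autoImplicit false

noncomputable section

open MeasureTheory Metric Set Filter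

namespace Pool.LibCA93

open Pool.LibSR53 Pool.LibST49

private theorem B4U_layer {α : Type*} [MeasurableSpace α] (μ : Measure α) (f : α → ℝ)
    (hf : Measurable f) (hf0 : ∀ x, 0 ≤ f x) (p q1 : ℝ) (h1 : 1 < q1) (h2 : q1 < p)
    (A W : ENNReal) (hA : ∫⁻ x, ENNReal.ofReal (f x) ∂μ ≤ A)
    (hW : ∀ t : ℝ, 1 ≤ t → ENNReal.ofReal (t ^ p) * μ {x | t < f x} ≤ W) :
    ∫⁻ x, ENNReal.ofReal (f x ^ q1) ∂μ ≤ ENNReal.ofReal q1 *
      (A * ENNReal.ofReal (1 / (q1 - 1)) + W * ENNReal.ofReal (1 / (p - q1))) := by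
  have hq0 : 0 < q1 := by linarith
  rw [lintegral_rpow_eq_lintegral_meas_lt_mul μ (Filter.Eventually.of_forall hf0)
    hf.aemeasurable hq0]
  refine mul_le_mul_right ?_ _
  have hsplit : Ioi (0 : ℝ) = Ioc 0 1 ∪ Ioi 1 := (Ioc_union_Ioi_eq_Ioi zero_le_one).symm
  rw [hsplit]
  refine (lintegral_union_le _ _ _).trans ?_
  refine add_le_add ?_ ?_
  · have hp : ∀ t ∈ Ioc (0 : ℝ) 1, μ {a | t < f a} * ENNReal.ofReal (t ^ (q1 - 1)) ≤
        A * ENNReal.ofReal (t ^ (q1 - 2)) := by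
      intro t ht
      have e1 : t ^ (q1 - 1) = t * t ^ (q1 - 2) := by
        have : q1 - 1 = 1 + (q1 - 2) := by ring
        rw [this, Real.rpow_add ht.1, Real.rpow_one]
      rw [e1, ENNReal.ofReal_mul ht.1.le, ← mul_assoc]
      refine mul_le_mul_left ?_ _
      refine le_trans ?_ hA
      have h3 : μ {a | t < f a} ≤ μ {a | ENNReal.ofReal t ≤ ENNReal.ofReal (f a)} := by
        apply measure_mono
        intro a ha
        exact ENNReal.ofReal_le_ofReal (le_of_lt ha)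
      calc μ {a | t < f a} * ENNReal.ofReal t
          ≤ μ {a | ENNReal.ofReal t ≤ ENNReal.ofReal (f a)} * ENNReal.ofReal t :=
            mul_le_mul_left h3 _
        _ = ENNReal.ofReal t * μ {a | ENNReal.ofReal t ≤ ENNReal.ofReal (f a)} := mul_comm _ _
        _ ≤ ∫⁻ x, ENNReal.ofReal (f x) ∂μ :=
            mul_meas_ge_le_lintegral (ENNReal.measurable_ofReal.comp hf) _
    refine (setLIntegral_mono' measurableSet_Ioc hp).trans ?_
    rw [lintegral_const_mul _ (by fun_prop)]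
    refine mul_le_mul_right ?_ _
    have hint : IntegrableOn (fun t : ℝ => t ^ (q1 - 2)) (Ioc 0 1) volume := by
      have := intervalIntegral.intervalIntegrable_rpow' (a := 0) (b := 1) (r := q1 - 2)
        (by linarith)
      rwa [intervalIntegrable_iff_integrableOn_Ioc_of_le zero_le_one] at this
    rw [← ofReal_integral_eq_lintegral_ofReal hint]
    · apply ENNReal.ofReal_le_ofReal
      rw [← intervalIntegral.integral_of_le zero_le_one, integral_rpow (Or.inl (by linarith))]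
      have h4 : q1 - 2 + 1 = q1 - 1 := by ring
      rw [h4, Real.one_rpow, Real.zero_rpow (by linarith), sub_zero]
    · exact (ae_restrict_mem measurableSet_Ioc).mono fun t ht => Real.rpow_nonneg ht.1.le _
  · have hp : ∀ t ∈ Ioi (1 : ℝ), μ {a | t < f a} * ENNReal.ofReal (t ^ (q1 - 1)) ≤
        W * ENNReal.ofReal (t ^ (q1 - 1 - p)) := by
      intro t ht
      have ht0 : 0 < t := lt_trans zero_lt_one ht
      have e1 : t ^ (q1 - 1) = t ^ p * t ^ (q1 - 1 - p) := by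
        rw [← Real.rpow_add ht0]
        congr 1
        ring
      rw [e1, ENNReal.ofReal_mul (Real.rpow_nonneg ht0.le _), ← mul_assoc]
      refine mul_le_mul_left ?_ _
      rw [mul_comm]
      exact hW t (le_of_lt ht)
    refine (setLIntegral_mono' measurableSet_Ioi hp).trans ?_
    rw [lintegral_const_mul _ (by fun_prop)]
    refine mul_le_mul_right ?_ _
    have hint : IntegrableOn (fun t : ℝ => t ^ (q1 - 1 - p)) (Ioi 1) volume :=
      integrableOn_Ioi_rpow_of_lt (by linarith) zero_lt_one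
    rw [← ofReal_integral_eq_lintegral_ofReal hint]
    · apply ENNReal.ofReal_le_ofReal
      rw [integral_Ioi_rpow_of_lt (by linarith) zero_lt_one, Real.one_rpow]
      apply le_of_eq
      have h5 : q1 - 1 - p + 1 = -(p - q1) := by ring
      rw [h5, neg_div_neg_eq]
    · exact (ae_restrict_mem measurableSet_Ioi).mono fun t ht =>
        Real.rpow_nonneg (lt_trans zero_lt_one ht).le _

private theorem B4U_Sb {m : ℕ} {v0 v1 : ℝ} {χ : E m → ℝ} (hχ : Pu χ) {b : V m → ℂ}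
    (hb : Sb v0 v1 1 b) (κ : ℕ) {Ψ : E m → ℝ} (hΨ : ContDiff ℝ (⊤ : ℕ∞) Ψ) (j : Fin m → ℤ) :
    Sb v0 v1 1 (cu χ b κ Ψ j) := by
  refine ⟨hb.pos, hb.le, ?_, ?_⟩
  · unfold cu
    have h1 : ContDiff ℝ (⊤ : ℕ∞) fun z : V m => χ ((2 : ℝ) ^ κ • z.1 - iv j) :=
      hχ.smooth.comp ((contDiff_fst.const_smul _).sub contDiff_const)
    have h2 : ContDiff ℝ (⊤ : ℕ∞) fun z : V m => Ψ z.1 := hΨ.comp contDiff_fst
    exact (Complex.ofRealCLM.contDiff.comp h1).mul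
      ((Complex.ofRealCLM.contDiff.comp h2).mul hb.smooth)
  · intro z hz
    apply hb.supp
    intro h0
    apply hz
    unfold cu
    rw [h0, mul_zero, mul_zero]

private theorem B4U_cont {m : ℕ} {v0 v1 : ℝ} {χ : E m → ℝ} (hχ : Pu χ) {b : V m → ℂ}
    (hb : Sb v0 v1 1 b) (Φ : X m → ℂ) (h : ℝ) (κ : ℕ) (s0 : ℝ) {β : Type} (B : Finset β)
    (k : β → ℕ) (S : β → Finset (X m)) (γ : β → X m → ℂ) (G : β → Finset (Pk m))
    (Ψ : β → E m → ℝ) (hΨ : ∀ i ∈ B, ContDiff ℝ (⊤ : ℕ∞) (Ψ i)) :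
    Continuous (Fh χ b Φ h κ s0 B k S γ G Ψ) := by
  unfold Fh
  refine continuous_finsetSum _ fun i hi => ?_
  refine continuous_const.mul ?_
  refine continuous_finsetSum _ fun a _ => ?_
  refine continuous_const.mul ?_
  refine (Kb_cont (B4U_Sb hχ hb κ (hΨ i hi) a.1)).1.comp ?_
  refine Continuous.sub ?_ continuous_const
  exact continuous_Lam.comp (by fun_prop)

/-- the number of cells is at most 5^m 2^(km) -/
private theorem B4U_sum {m : ℕ} {β : Type} (B : Finset β) (k : β → ℕ)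
    (S : β → Finset (X m)) (f : β → ℝ) (hf : ∀ i ∈ B, f i ≤ ((J m (k i / 2)).card : ℝ)) :
    ∑ i ∈ B, ((S i).card : ℝ) * (2 : ℝ) ^ ((k i : ℝ) * ((m : ℝ) / 2)) * f i ≤
      5 ^ m * Wt B k S := by
  unfold Wt
  rw [Finset.mul_sum]
  refine Finset.sum_le_sum fun i hi => ?_
  have h1 : f i ≤ 5 ^ m * (2 : ℝ) ^ (k i / 2 * m) := (hf i hi).trans (card_J_le m (k i / 2))
  have h2 : (2 : ℝ) ^ (k i / 2 * m) ≤ (2 : ℝ) ^ ((k i : ℝ) * ((m : ℝ) / 2)) := by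
    rw [← Real.rpow_natCast]
    apply Real.rpow_le_rpow_of_exponent_le (by norm_num)
    push_cast
    have h3 : (((k i / 2 : ℕ) : ℝ)) ≤ (k i : ℝ) / 2 := Nat.cast_div_le
    have h4 : (0 : ℝ) ≤ m := Nat.cast_nonneg m
    nlinarith
  have h5 : (2 : ℝ) ^ ((k i : ℝ) * ((m : ℝ) / 2)) * (2 : ℝ) ^ ((k i : ℝ) * ((m : ℝ) / 2)) =
      (2 : ℝ) ^ (k i * m) := by
    rw [← Real.rpow_add (by norm_num), ← Real.rpow_natCast]
    congr 1
    push_cast
    ring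
  have h6 : (0 : ℝ) ≤ (2 : ℝ) ^ ((k i : ℝ) * ((m : ℝ) / 2)) := by positivity
  have h7 : (0 : ℝ) ≤ ((S i).card : ℝ) := Nat.cast_nonneg _
  calc ((S i).card : ℝ) * (2 : ℝ) ^ ((k i : ℝ) * ((m : ℝ) / 2)) * f i
      ≤ ((S i).card : ℝ) * (2 : ℝ) ^ ((k i : ℝ) * ((m : ℝ) / 2)) *
        (5 ^ m * (2 : ℝ) ^ ((k i : ℝ) * ((m : ℝ) / 2))) := by
        refine mul_le_mul_of_nonneg_left (h1.trans ?_) (by positivity)
        exact mul_le_mul_of_nonneg_left h2 (by positivity)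
    _ = 5 ^ m * (((2 : ℝ) ^ ((k i : ℝ) * ((m : ℝ) / 2)) *
        (2 : ℝ) ^ ((k i : ℝ) * ((m : ℝ) / 2))) * ((S i).card : ℝ)) := by ring
    _ = 5 ^ m * ((2 : ℝ) ^ (k i * m) * ((S i).card : ℝ)) := by rw [h5]

private theorem B4U_core {m : ℕ} (F : E (m + 1) → ℂ) (hF : Continuous F) (p q1 : ℝ)
    (h1 : 1 < q1) (h2 : q1 < p) (Ca Cw Xv : ℝ) (hCa : 0 < Ca) (hCw : 0 < Cw) (hX0 : 0 ≤ Xv)
    (hA : ∫⁻ x, ‖F x‖ₑ ≤ ENNReal.ofReal (Ca * Xv))
    (hW : ∀ t : ℝ, 1 ≤ t → ENNReal.ofReal (t ^ p) *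
      volume {x | t < ‖F x‖} ≤ ENNReal.ofReal (Cw * Xv)) :
    ∫⁻ x, ‖F x‖ₑ ^ q1 ≤
      ENNReal.ofReal (q1 * (Ca * (1 / (q1 - 1)) + Cw * (1 / (p - q1))) * Xv) := by
  have hq0 : 0 < q1 := by linarith
  have hp1 : 0 < p - q1 := by linarith
  have hq11 : 0 < q1 - 1 := by linarith
  have hA' : ∫⁻ x, ENNReal.ofReal ‖F x‖ ≤ ENNReal.ofReal (Ca * Xv) := by
    have e : ∀ x, ENNReal.ofReal ‖F x‖ = ‖F x‖ₑ := fun x => ofReal_norm _
    simp only [e]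
    exact hA
  have key := B4U_layer volume (fun x => ‖F x‖) hF.norm.measurable
    (fun x => norm_nonneg _) p q1 h1 h2 _ _ hA' hW
  have e : ∀ x, ‖F x‖ₑ ^ q1 = ENNReal.ofReal (‖F x‖ ^ q1) := by
    intro x
    rw [← ofReal_norm, ENNReal.ofReal_rpow_of_nonneg (norm_nonneg _) hq0.le]
  simp only [e]
  refine key.trans (le_of_eq ?_)
  rw [← ENNReal.ofReal_mul (by positivity), ← ENNReal.ofReal_mul (by positivity),
    ← ENNReal.ofReal_add (by positivity) (by positivity), ← ENNReal.ofReal_mul hq0.le]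
  congr 1
  ring

private theorem B4U_L1 {m : ℕ} (A : ℝ) (Ca' C1 G P W T : ℝ) (hCa' : 0 < Ca') (hC1 : 0 ≤ C1)
    (hG : 0 ≤ G) (hP : 1 ≤ P) (hW : 0 ≤ W) (hT : T ≤ 5 ^ m * W) (hA : A = Ca' * G * T) :
    A ≤ Ca' * 5 ^ m * ((1 + C1) * G * P * W) := by
  rw [hA]
  have g0 : 0 ≤ Ca' * G := by positivity
  refine (mul_le_mul_of_nonneg_left hT g0).trans ?_
  have g3 : G ≤ (1 + C1) * G := by nlinarith
  have g4 : G ≤ (1 + C1) * G * P := g3.trans (le_mul_of_one_le_right (by positivity) hP)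
  have hCa : 0 < Ca' * 5 ^ m := by positivity
  calc Ca' * G * (5 ^ m * W) = Ca' * 5 ^ m * (G * W) := by ring
    _ ≤ Ca' * 5 ^ m * ((1 + C1) * G * P * W) :=
      mul_le_mul_of_nonneg_left (mul_le_mul_of_nonneg_right g4 hW) hCa.le

/-- strong type bound for finite sums of packets with symbols -/
theorem strongU {m : ℕ} (hm : 1 ≤ m) {h v0 v1 ρ R : ℝ} {Φ Φh : X m → ℂ}
    (hR : Rp h v0 v1 ρ R Φ Φh) {χ : E m → ℝ} (hχ : Pu χ) {b : V m → ℂ} (hb : Sb v0 v1 1 b)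
    (q : ℝ) (hq : 2 < q) (hq2 : q * m ≤ 2 * ((m : ℝ) + 2)) (hC : CDec m q) (ε : ℝ)
    (hε : 0 < ε) (K : ℕ → ℝ) (hK : ∀ n, 0 ≤ K n) (q1 : ℝ) (h1 : 1 < q1)
    (h2 : q1 < q / (q - 1)) : ∃ C : ℝ, 0 < C ∧ ∀ (C1 : ℝ), 0 ≤ C1 →
    ∀ (κ : ℕ) (β c : Type) [DecidableEq β] (B : Finset β) (k : β → ℕ)
    (S : β → Finset (X m)), Bk κ B k S → ∀ γ : β → X m → ℂ, (∀ i p, ‖γ i p‖ ≤ 1) →
    ∀ G : β → Finset (Pk m), (∀ i, ∀ a ∈ G i, a.1 ∈ J m κ) →
    ∀ (J' : ℕ) (π : ℕ → β → c) (sp : β → β → ℕ), Hi B J' π sp → ∀ A : ℕ → c → E m → ℝ,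
    (∀ l i, ContDiff ℝ (⊤ : ℕ∞) (A l i)) → (∀ l i ω, |A l i ω| ≤ 1) →
    (∀ i ∈ B, Sy K ((2 : ℝ) ^ (k i / 2)) (Pr (fun l => A l (π l i)) J')) →
    Cr χ b Φ h κ B k S G π sp A ≤ C1 * Wt B k S → ∀ s0 : ℝ,
    ∫⁻ x, ‖Fh χ b Φ h κ s0 B k S γ G (fun i => Pr (fun l => A l (π l i)) J') x‖ₑ ^ q1 ≤
      ENNReal.ofReal (C * (1 + C1) * (1 + |s0|) ^ ((m : ℝ) / 2) *
        (2 : ℝ) ^ ((κ : ℝ) * (ex0 m q + ε)) * Wt B k S) := by
  obtain ⟨Ca', hCa', HA⟩ := L1T hm hR hχ hb K hK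
  obtain ⟨Cw, hCw, HW⟩ := weak_finU hm hR hχ hb q hq hq2 hC ε hε K hK
  have hp1 : 0 < q / (q - 1) - q1 := by linarith
  have hq11 : 0 < q1 - 1 := by linarith
  have hex : 0 ≤ ex0 m q := by
    unfold ex0
    have hm0 : (0 : ℝ) ≤ m := Nat.cast_nonneg m
    have hq1' : 0 < q - 1 := by linarith
    have : (m : ℝ) ≤ ((m : ℝ) * q / 2 + 2) / (q - 1) := by
      rw [le_div_iff₀ hq1']
      nlinarith
    linarith
  refine ⟨q1 * (Ca' * 5 ^ m * (1 / (q1 - 1)) + Cw * (1 / (q / (q - 1) - q1))),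
    by positivity, ?_⟩
  intro C1 hC1 κ β c _ B k S hBk γ hγ G hG J' π sp hHi A hA1 hA2 hA3 hCr s0
  have hsm : ∀ i ∈ B, ContDiff ℝ (⊤ : ℕ∞) (Pr (fun l => A l (π l i)) J') :=
    fun i hi => (hA3 i hi).smooth
  have hcont := B4U_cont hχ hb Φ h κ s0 B k S γ G (fun i => Pr (fun l => A l (π l i)) J') hsm
  have hA := HA κ β B k S hBk γ hγ G hG (fun i => Pr (fun l => A l (π l i)) J') hA3 s0
  have hW := HW C1 hC1 κ β c B k S hBk γ hγ G hG J' π sp hHi A hA1 hA2 hA3 hCr s0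
  classical
  have hs := B4U_sum B k S (fun i => (((J m (k i / 2)).filter
      (fun j => tch (k i / 2) (Pr (fun l => A l (π l i)) J') j)).card : ℝ))
      (fun i _ => by exact_mod_cast Finset.card_filter_le _ _)
  have hWt : 0 ≤ Wt B k S := by
    unfold Wt
    positivity
  have g1 : (1 : ℝ) ≤ (2 : ℝ) ^ ((κ : ℝ) * (ex0 m q + ε)) := by
    apply Real.one_le_rpow (by norm_num)
    positivity
  have g2 : 0 ≤ (1 + |s0|) ^ ((m : ℝ) / 2) := by positivity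
  have hX0 : 0 ≤ (1 + C1) * (1 + |s0|) ^ ((m : ℝ) / 2) *
      (2 : ℝ) ^ ((κ : ℝ) * (ex0 m q + ε)) * Wt B k S := by positivity
  refine (B4U_core _ hcont (q / (q - 1)) q1 h1 h2 (Ca' * 5 ^ m) Cw _ (by positivity) hCw hX0
    (hA.trans (ENNReal.ofReal_le_ofReal (B4U_L1 _ Ca' C1 _ _ _ _ hCa' hC1 g2 g1 hWt hs rfl)))
    (fun t ht => (hW t (by linarith)).trans (le_of_eq ?_))).trans (le_of_eq ?_)
  · congr 1
    ring
  · congr 1
    ring

end Pool.LibCA93
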