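import Pool.Agent.LibCA93.CG1

/-
PLAN (BA, SHORT/MEDIUM, algebra). Z = (x,s,t). b(Z,Z') = <x,x'> - 2(s t' + s' t), qf(Z - Z') = qf Z + qf Z' - 2 b. With ω = om Z: x = -2 s ω, t = ap Z + s|ω|^2, qf Z = -4 s ap Z.
E3: substitute x = -2sω, x' = -2s'ω', t, t' and expand (real_inner, norm_sub_sq_real): qf (Z - Z') = 4 s s'|ω-ω'|^2 - 4 (s-s')(ap - ap').
E1: Z' = Z - h: 4 s Av ω h = -qf h + 4 s' (ap Z - ap Z') (Av is linear in the point, Av ω Z = ap Z (Av_eq), and qf (Z - h) = qf Z + qf h - 2 b(Z,h), b(Z,h) = -2 s Av ω h - 2 ap Z h_s; s' = s - h_s).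
E4: qf (α • h - β • h'') with α = qf h'', β = qf h: = α^2 β + β^2 α - 2αβ b(h,h'') = αβ qf (h'' - h). |qf| <= 5‖.‖^2. Av_small: from E1 for h and h'': 4 s Av ω v = 4 (qf h'' s'(ap-ap') - qf h s''(ap-ap'')), |s'| <= |s| + 4t <= 41|s| (|s| >= ‖Z‖/10 >= t/10),
|qf| <= 80 t^2, |ap - ap'| <= 2τ: |Av ω v| <= 2 80 t^2 41 2 τ. norm_om: ‖om Z‖ = ‖x‖/(2|s|) <= 5.
-/

set_option autoImplicit false

noncomputable section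

open MeasureTheory Metric Set Filter

namespace Pool.LibCA93

open Pool.LibSR53 Pool.LibST49

private theorem ba_x (Z : X 2) : ‖Z.1‖ ≤ ‖Z‖ := norm_fst_le Z

private theorem ba_s (Z : X 2) : |Z.2.1| ≤ ‖Z‖ :=
  (norm_fst_le Z.2).trans (norm_snd_le Z)

private theorem ba_t (Z : X 2) : |Z.2.2| ≤ ‖Z‖ :=
  (norm_snd_le Z.2).trans (norm_snd_le Z)

private theorem ba_ap (Z : X 2) : ap Z = Z.2.2 - ‖Z.1‖ ^ 2 / (4 * Z.2.1) := rfl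

private theorem ba_om_sq (Z : X 2) (h : Z.2.1 ≠ 0) : ‖om Z‖ ^ 2 = ‖Z.1‖ ^ 2 / (4 * Z.2.1 ^ 2) := by
  unfold om
  rw [norm_smul, mul_pow, Real.norm_eq_abs, sq_abs]
  field_simp
  ring

theorem norm_om {Z : X 2} (h : ‖Z‖ ≤ 10 * |Z.2.1|) : ‖om Z‖ ≤ 5 := by
  have h1 := ba_x Z
  unfold om
  rw [norm_smul, Real.norm_eq_abs, abs_neg, abs_div, abs_one, abs_mul, abs_two]
  rcases eq_or_lt_of_le (abs_nonneg Z.2.1) with h0 | h0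
  · rw [← h0]
    norm_num
  · rw [one_div, inv_mul_le_iff₀ (by positivity)]
    linarith

theorem abs_qf_le (Z : X 2) : |qf Z| ≤ 5 * ‖Z‖ ^ 2 := by
  have h1 := ba_x Z
  have h2 := ba_s Z
  have h3 := ba_t Z
  have h0 : 0 ≤ ‖Z‖ := norm_nonneg _
  have h4 : ‖Z.1‖ ^ 2 ≤ ‖Z‖ ^ 2 := pow_le_pow_left₀ (norm_nonneg _) h1 2
  have h5 : |Z.2.1 * Z.2.2| ≤ ‖Z‖ ^ 2 := by
    rw [abs_mul, sq]
    exact mul_le_mul h2 h3 (abs_nonneg _) h0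
  have h6 := abs_le.1 h5
  have h7 : 0 ≤ ‖Z.1‖ ^ 2 := by positivity
  have h8 : 0 ≤ ‖Z‖ ^ 2 := by positivity
  unfold qf
  rw [abs_le]
  constructor <;> linarith [h6.1, h6.2]

theorem abs_Av_le (ω : E 2) (Z : X 2) : |Av ω Z| ≤ (1 + ‖ω‖) ^ 2 * ‖Z‖ := by
  have h1 := ba_x Z
  have h2 := ba_s Z
  have h3 := ba_t Z
  have h0 : 0 ≤ ‖Z‖ := norm_nonneg _
  have hω : 0 ≤ ‖ω‖ := norm_nonneg _
  have h4 : |inner ℝ Z.1 ω| ≤ ‖Z‖ * ‖ω‖ :=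
    (abs_real_inner_le_norm Z.1 ω).trans (mul_le_mul_of_nonneg_right h1 hω)
  have h5 : |Z.2.1 * ‖ω‖ ^ 2| ≤ ‖Z‖ * ‖ω‖ ^ 2 := by
    rw [abs_mul, abs_of_nonneg (by positivity : (0 : ℝ) ≤ ‖ω‖ ^ 2)]
    exact mul_le_mul_of_nonneg_right h2 (by positivity)
  have h6 : |Av ω Z| ≤ |Z.2.2| + |inner ℝ Z.1 ω| + |Z.2.1 * ‖ω‖ ^ 2| := by
    unfold Av
    exact (abs_add_le _ _).trans (add_le_add_left (abs_add_le _ _) _)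
  have h7 : 0 ≤ ‖Z‖ * ‖ω‖ := by positivity
  have h8 : (1 + ‖ω‖) ^ 2 * ‖Z‖ = ‖Z‖ + 2 * (‖Z‖ * ‖ω‖) + ‖Z‖ * ‖ω‖ ^ 2 := by ring
  rw [h8]
  linarith

theorem Av_sub_le (ω ω' : E 2) (Z : X 2) :
    |Av ω Z - Av ω' Z| ≤ (1 + ‖ω‖ + ‖ω'‖) * ‖ω - ω'‖ * ‖Z‖ := by
  have h1 := ba_x Z
  have h2 := ba_s Z
  have h0 : 0 ≤ ‖Z‖ := norm_nonneg _
  have hd : 0 ≤ ‖ω - ω'‖ := norm_nonneg _
  have e1 : Av ω Z - Av ω' Z = inner ℝ Z.1 (ω - ω') + Z.2.1 * (‖ω‖ ^ 2 - ‖ω'‖ ^ 2) := by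
    unfold Av
    rw [inner_sub_right]
    ring
  have h4 : |inner ℝ Z.1 (ω - ω')| ≤ ‖Z‖ * ‖ω - ω'‖ :=
    (abs_real_inner_le_norm Z.1 _).trans (mul_le_mul_of_nonneg_right h1 hd)
  have h5 : |‖ω‖ ^ 2 - ‖ω'‖ ^ 2| ≤ ‖ω - ω'‖ * (‖ω‖ + ‖ω'‖) := by
    have h6 : ‖ω‖ ^ 2 - ‖ω'‖ ^ 2 = (‖ω‖ - ‖ω'‖) * (‖ω‖ + ‖ω'‖) := by ring
    rw [h6, abs_mul, abs_of_nonneg (by positivity : (0 : ℝ) ≤ ‖ω‖ + ‖ω'‖)]
    exact mul_le_mul_of_nonneg_right (abs_norm_sub_norm_le _ _) (by positivity)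
  have h7 : |Z.2.1 * (‖ω‖ ^ 2 - ‖ω'‖ ^ 2)| ≤ ‖Z‖ * (‖ω - ω'‖ * (‖ω‖ + ‖ω'‖)) := by
    rw [abs_mul]
    exact mul_le_mul h2 h5 (abs_nonneg _) h0
  rw [e1]
  refine (abs_add_le _ _).trans ((add_le_add h4 h7).trans (le_of_eq ?_))
  ring

theorem Av_smul (ω : E 2) (a : ℝ) (Z : X 2) : Av ω (a • Z) = a * Av ω Z := by
  unfold Av
  simp only [Prod.smul_fst, Prod.smul_snd, inner_smul_left, smul_eq_mul]
  simp only [conj_trivial]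
  ring

private theorem ba_Av_sub (ω : E 2) (Z Z' : X 2) : Av ω (Z - Z') = Av ω Z - Av ω Z' := by
  unfold Av
  simp only [Prod.fst_sub, Prod.snd_sub, inner_sub_left]
  ring

/-- (E3) -/
theorem qf_sub {Z Z' : X 2} (h : Z.2.1 ≠ 0) (h' : Z'.2.1 ≠ 0) :
    qf (Z - Z') = 4 * (Z.2.1 * Z'.2.1) * ‖om Z - om Z'‖ ^ 2 -
      4 * (Z.2.1 - Z'.2.1) * (ap Z - ap Z') := by
  have h1 : ‖om Z - om Z'‖ ^ 2 = ‖Z.1‖ ^ 2 / (4 * Z.2.1 ^ 2) -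
      2 * (1 / (2 * Z.2.1) * (1 / (2 * Z'.2.1)) * inner ℝ Z.1 Z'.1) +
        ‖Z'.1‖ ^ 2 / (4 * Z'.2.1 ^ 2) := by
    rw [norm_sub_sq_real, ba_om_sq Z h, ba_om_sq Z' h']
    unfold om
    rw [inner_smul_left, inner_smul_right]
    simp only [conj_trivial]
    ring
  have h2 : qf (Z - Z') = ‖Z.1‖ ^ 2 - 2 * inner ℝ Z.1 Z'.1 + ‖Z'.1‖ ^ 2 -
      4 * (Z.2.1 - Z'.2.1) * (Z.2.2 - Z'.2.2) := by
    unfold qf
    simp only [Prod.fst_sub, Prod.snd_sub]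
    rw [norm_sub_sq_real]
  rw [h1, h2, ba_ap, ba_ap]
  field_simp
  ring

/-- (E1) -/
theorem Av_diff {Z Z' : X 2} (h : Z.2.1 ≠ 0) (h' : Z'.2.1 ≠ 0) :
    4 * Z.2.1 * Av (om Z) (Z - Z') = -qf (Z - Z') + 4 * Z'.2.1 * (ap Z - ap Z') := by
  have h2 : qf (Z - Z') = ‖Z.1‖ ^ 2 - 2 * inner ℝ Z.1 Z'.1 + ‖Z'.1‖ ^ 2 -
      4 * (Z.2.1 - Z'.2.1) * (Z.2.2 - Z'.2.2) := by
    unfold qf
    simp only [Prod.fst_sub, Prod.snd_sub]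
    rw [norm_sub_sq_real]
  have h3 : Av (om Z) (Z - Z') = (Z.2.2 - Z'.2.2) -
      1 / (2 * Z.2.1) * (‖Z.1‖ ^ 2 - inner ℝ Z.1 Z'.1) +
        (Z.2.1 - Z'.2.1) * (‖Z.1‖ ^ 2 / (4 * Z.2.1 ^ 2)) := by
    unfold Av
    rw [ba_om_sq Z h]
    unfold om
    simp only [Prod.fst_sub, Prod.snd_sub]
    rw [inner_smul_right, inner_sub_left, real_inner_self_eq_norm_sq, real_inner_comm]
    ring
  rw [h2, h3, ba_ap, ba_ap]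
  field_simp
  ring

/-- (E4) -/
theorem qf_comb (h h' : X 2) :
    qf (qf h' • h - qf h • h') = qf h * qf h' * qf (h' - h) := by
  have e : ∀ a b : ℝ, qf (a • h - b • h') = a ^ 2 * ‖h.1‖ ^ 2 - 2 * (a * b * inner ℝ h.1 h'.1) +
      b ^ 2 * ‖h'.1‖ ^ 2 - 4 * (a * h.2.1 - b * h'.2.1) * (a * h.2.2 - b * h'.2.2) := by
    intro a b
    unfold qf
    simp only [Prod.fst_sub, Prod.snd_sub, Prod.smul_fst, Prod.smul_snd, smul_eq_mul]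
    rw [norm_sub_sq_real, norm_smul, norm_smul, inner_smul_left, inner_smul_right, mul_pow, mul_pow,
      Real.norm_eq_abs, Real.norm_eq_abs, sq_abs, sq_abs]
    simp only [conj_trivial]
    ring
  have e1 := e (-1) (-1)
  have e2 : (-1 : ℝ) • h - (-1 : ℝ) • h' = h' - h := by
    rw [neg_one_smul, neg_one_smul]
    abel
  rw [e2] at e1
  rw [e, e1]
  unfold qf
  ring

/-- all three points: the combination v is almost orthogonal to the direction -/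
theorem Av_small {Z Z' Z'' : X 2} {t τ : ℝ} (ht : 0 < t) (hτ : 0 ≤ τ) (h0 : t ≤ ‖Z‖)
    (h1 : ‖Z‖ ≤ 10 * |Z.2.1|) (h1' : Z'.2.1 ≠ 0) (h1'' : Z''.2.1 ≠ 0) (ha : |ap Z| ≤ τ)
    (ha' : |ap Z'| ≤ τ) (ha'' : |ap Z''| ≤ τ) (hd' : ‖Z - Z'‖ ≤ 4 * t)
    (hd'' : ‖Z - Z''‖ ≤ 4 * t) :
    |Av (om Z) (qf (Z - Z'') • (Z - Z') - qf (Z - Z') • (Z - Z''))| ≤ 20000 * τ * t ^ 2 := by
  have hs : 0 < |Z.2.1| := by linarith
  have hs0 : Z.2.1 ≠ 0 := abs_pos.1 hs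
  have e1 := Av_diff hs0 h1'
  have e2 := Av_diff hs0 h1''
  have e3 : 4 * Z.2.1 * Av (om Z) (qf (Z - Z'') • (Z - Z') - qf (Z - Z') • (Z - Z'')) =
      4 * (qf (Z - Z'') * (Z'.2.1 * (ap Z - ap Z')) - qf (Z - Z') * (Z''.2.1 * (ap Z - ap Z''))) := by
    rw [ba_Av_sub, Av_smul, Av_smul]
    linear_combination qf (Z - Z'') * e1 - qf (Z - Z') * e2
  have q1 : |qf (Z - Z')| ≤ 80 * t ^ 2 := by
    refine (abs_qf_le _).trans ?_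
    have := pow_le_pow_left₀ (norm_nonneg _) hd' 2
    nlinarith
  have q2 : |qf (Z - Z'')| ≤ 80 * t ^ 2 := by
    refine (abs_qf_le _).trans ?_
    have := pow_le_pow_left₀ (norm_nonneg _) hd'' 2
    nlinarith
  have s1 : |Z'.2.1| ≤ 41 * |Z.2.1| := by
    have h2 := ba_s (Z - Z')
    have h3 : |Z'.2.1| ≤ |Z.2.1| + |(Z - Z').2.1| := by
      have h4 : Z'.2.1 = Z.2.1 - (Z - Z').2.1 := by
        simp only [Prod.fst_sub, Prod.snd_sub]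
        ring
      conv_lhs => rw [h4]
      exact abs_sub _ _
    linarith
  have s2 : |Z''.2.1| ≤ 41 * |Z.2.1| := by
    have h2 := ba_s (Z - Z'')
    have h3 : |Z''.2.1| ≤ |Z.2.1| + |(Z - Z'').2.1| := by
      have h4 : Z''.2.1 = Z.2.1 - (Z - Z'').2.1 := by
        simp only [Prod.fst_sub, Prod.snd_sub]
        ring
      conv_lhs => rw [h4]
      exact abs_sub _ _
    linarith
  have a1 : |ap Z - ap Z'| ≤ 2 * τ := (abs_sub _ _).trans (by linarith)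
  have a2 : |ap Z - ap Z''| ≤ 2 * τ := (abs_sub _ _).trans (by linarith)
  have b1 : |qf (Z - Z'') * (Z'.2.1 * (ap Z - ap Z'))| ≤ 80 * t ^ 2 * (41 * |Z.2.1| * (2 * τ)) := by
    rw [abs_mul, abs_mul]
    exact mul_le_mul q2 (mul_le_mul s1 a1 (abs_nonneg _) (by positivity)) (by positivity)
      (by positivity)
  have b2 : |qf (Z - Z') * (Z''.2.1 * (ap Z - ap Z''))| ≤ 80 * t ^ 2 * (41 * |Z.2.1| * (2 * τ)) := by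
    rw [abs_mul, abs_mul]
    exact mul_le_mul q1 (mul_le_mul s2 a2 (abs_nonneg _) (by positivity)) (by positivity)
      (by positivity)
  have c1 : 4 * |Z.2.1| * |Av (om Z) (qf (Z - Z'') • (Z - Z') - qf (Z - Z') • (Z - Z''))| ≤
      4 * (80 * t ^ 2 * (41 * |Z.2.1| * (2 * τ)) + 80 * t ^ 2 * (41 * |Z.2.1| * (2 * τ))) := by
    have c2 := congrArg abs e3
    rw [abs_mul, abs_mul, abs_mul, abs_of_nonneg (by norm_num : (0 : ℝ) ≤ 4)] at c2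
    rw [c2]
    refine mul_le_mul_of_nonneg_left ((abs_sub _ _).trans (add_le_add b1 b2)) (by norm_num)
  have c3 : 4 * (80 * t ^ 2 * (41 * |Z.2.1| * (2 * τ)) + 80 * t ^ 2 * (41 * |Z.2.1| * (2 * τ))) =
      4 * |Z.2.1| * (13120 * (τ * t ^ 2)) := by ring
  rw [c3] at c1
  have c4 := le_of_mul_le_mul_left c1 (by positivity)
  have c5 : 0 ≤ τ * t ^ 2 := by positivity
  linarith

/-- two points: the difference is almost orthogonal to the direction -/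
theorem Av_two {Z Z' : X 2} {t τ R : ℝ} (ht : 0 < t) (hτ : 0 ≤ τ) (hR : t ≤ R) (h0 : R ≤ ‖Z‖)
    (h1 : ‖Z‖ ≤ 10 * |Z.2.1|) (h1' : Z'.2.1 ≠ 0) (ha : |ap Z| ≤ τ) (ha' : |ap Z'| ≤ τ)
    (hd' : ‖Z - Z'‖ ≤ 4 * t) :
    |Av (om Z) (Z - Z')| ≤ 200 * (t ^ 2 / R + τ) := by
  have hR0 : 0 < R := by linarith
  have hs : 0 < |Z.2.1| := by linarith
  have hs0 : Z.2.1 ≠ 0 := abs_pos.1 hs
  have e1 := Av_diff hs0 h1'
  have q1 : |qf (Z - Z')| ≤ 80 * t ^ 2 := by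
    refine (abs_qf_le _).trans ?_
    have := pow_le_pow_left₀ (norm_nonneg _) hd' 2
    nlinarith
  have s1 : |Z'.2.1| ≤ 41 * |Z.2.1| := by
    have h2 := ba_s (Z - Z')
    have h3 : |Z'.2.1| ≤ |Z.2.1| + |(Z - Z').2.1| := by
      have h4 : Z'.2.1 = Z.2.1 - (Z - Z').2.1 := by
        simp only [Prod.fst_sub, Prod.snd_sub]
        ring
      conv_lhs => rw [h4]
      exact abs_sub _ _
    linarith
  have a1 : |ap Z - ap Z'| ≤ 2 * τ := (abs_sub _ _).trans (by linarith)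
  have b1 : |4 * Z'.2.1 * (ap Z - ap Z')| ≤ 4 * (41 * |Z.2.1|) * (2 * τ) := by
    rw [abs_mul, abs_mul, abs_of_nonneg (by norm_num : (0 : ℝ) ≤ 4)]
    exact mul_le_mul (mul_le_mul_of_nonneg_left s1 (by norm_num)) a1 (abs_nonneg _) (by positivity)
  have c1 : 4 * |Z.2.1| * |Av (om Z) (Z - Z')| ≤ 80 * t ^ 2 + 4 * (41 * |Z.2.1|) * (2 * τ) := by
    have c2 := congrArg abs e1
    rw [abs_mul, abs_mul, abs_of_nonneg (by norm_num : (0 : ℝ) ≤ 4)] at c2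
    rw [c2]
    refine (abs_add_le _ _).trans (add_le_add ?_ b1)
    rw [abs_neg]
    exact q1
  have c3 : 80 * t ^ 2 ≤ 4 * |Z.2.1| * (200 * (t ^ 2 / R)) := by
    have c4 : R ≤ 10 * |Z.2.1| := h0.trans h1
    have c5 : 4 * |Z.2.1| * (200 * (t ^ 2 / R)) = (80 * t ^ 2) * ((10 * |Z.2.1|) / R) := by
      ring
    rw [c5]
    have c6 : 1 ≤ (10 * |Z.2.1|) / R := by
      rw [le_div_iff₀ hR0]
      linarith
    calc 80 * t ^ 2 = (80 * t ^ 2) * 1 := by ring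
      _ ≤ _ := mul_le_mul_of_nonneg_left c6 (by positivity)
  have c7 : 80 * t ^ 2 + 4 * (41 * |Z.2.1|) * (2 * τ) ≤
      4 * |Z.2.1| * (200 * (t ^ 2 / R + τ)) := by
    have c8 : 0 ≤ |Z.2.1| * τ := by positivity
    have c9 : 4 * |Z.2.1| * (200 * (t ^ 2 / R + τ)) =
        4 * |Z.2.1| * (200 * (t ^ 2 / R)) + 800 * (|Z.2.1| * τ) := by ring
    rw [c9]
    nlinarith
  exact le_of_mul_le_mul_left (c1.trans c7) (by positivity)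

private theorem ba_qf_big {Z Z' : X 2} {t τ φ : ℝ} (ht : 0 < t) (hτ : 0 ≤ τ) (hφ : 0 < φ)
    (hτ2 : τ ≤ 1 / 4000 * φ ^ 2 * t)
    (h0 : t ≤ ‖Z‖) (h1 : ‖Z‖ ≤ 10 * |Z.2.1|) (ha : |ap Z| ≤ τ)
    (h0' : t ≤ ‖Z'‖) (h1' : ‖Z'‖ ≤ 10 * |Z'.2.1|) (ha' : |ap Z'| ≤ τ)
    (hd : ‖Z - Z'‖ ≤ 8 * t) (hω : φ < ‖om Z - om Z'‖) :
    φ ^ 2 * t ^ 2 / 50 ≤ |qf (Z - Z')| := by
  have hs : t / 10 ≤ |Z.2.1| := by linarith
  have hs' : t / 10 ≤ |Z'.2.1| := by linarith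
  have hs0 : Z.2.1 ≠ 0 := abs_pos.1 (by linarith)
  have hs0' : Z'.2.1 ≠ 0 := abs_pos.1 (by linarith)
  have e := qf_sub hs0 hs0'
  have p1 : φ ^ 2 * t ^ 2 / 25 ≤ |4 * (Z.2.1 * Z'.2.1) * ‖om Z - om Z'‖ ^ 2| := by
    rw [abs_mul, abs_mul, abs_mul, abs_of_nonneg (by norm_num : (0 : ℝ) ≤ 4),
      abs_of_nonneg (by positivity : (0 : ℝ) ≤ ‖om Z - om Z'‖ ^ 2)]
    have p2 : t / 10 * (t / 10) ≤ |Z.2.1| * |Z'.2.1| :=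
      mul_le_mul hs hs' (by positivity) (by positivity)
    have p3 : φ ^ 2 ≤ ‖om Z - om Z'‖ ^ 2 := pow_le_pow_left₀ hφ.le hω.le 2
    have p4 : 4 * (t / 10 * (t / 10)) * φ ^ 2 ≤
        4 * (|Z.2.1| * |Z'.2.1|) * ‖om Z - om Z'‖ ^ 2 :=
      mul_le_mul (mul_le_mul_of_nonneg_left p2 (by norm_num)) p3 (by positivity) (by positivity)
    refine le_trans (le_of_eq ?_) p4
    ring
  have p5 : |4 * (Z.2.1 - Z'.2.1) * (ap Z - ap Z')| ≤ 64 * t * τ := by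
    have h2 := ba_s (Z - Z')
    have h3 : |Z.2.1 - Z'.2.1| ≤ 8 * t := h2.trans hd
    have a1 : |ap Z - ap Z'| ≤ 2 * τ := (abs_sub _ _).trans (by linarith)
    rw [abs_mul, abs_mul, abs_of_nonneg (by norm_num : (0 : ℝ) ≤ 4)]
    refine (mul_le_mul (mul_le_mul_of_nonneg_left h3 (by norm_num)) a1 (abs_nonneg _)
      (by positivity)).trans (le_of_eq ?_)
    ring
  have p6 : 64 * t * τ ≤ φ ^ 2 * t ^ 2 / 50 := by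
    have p7 : 64 * t * τ ≤ 64 * t * (1 / 4000 * φ ^ 2 * t) :=
      mul_le_mul_of_nonneg_left hτ2 (by positivity)
    have p8 : 0 ≤ φ ^ 2 * t ^ 2 := by positivity
    nlinarith
  rw [e]
  have p9 := abs_sub_abs_le_abs_sub (4 * (Z.2.1 * Z'.2.1) * ‖om Z - om Z'‖ ^ 2)
    (4 * (Z.2.1 - Z'.2.1) * (ap Z - ap Z'))
  linarith

/-- small v: two of the three directions are close -/
theorem dir_close : ∃ c1 c2 : ℝ, 0 < c1 ∧ 0 < c2 ∧ ∀ (Z Z' Z'' : X 2) (t τ φ : ℝ), 0 < t → 0 ≤ τ →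
    0 < φ → φ ≤ 1 → τ ≤ c2 * φ ^ 2 * t →
    t ≤ ‖Z‖ → ‖Z‖ ≤ 10 * |Z.2.1| → |ap Z| ≤ τ →
    t ≤ ‖Z'‖ → ‖Z'‖ ≤ 10 * |Z'.2.1| → |ap Z'| ≤ τ →
    t ≤ ‖Z''‖ → ‖Z''‖ ≤ 10 * |Z''.2.1| → |ap Z''| ≤ τ →
    ‖Z - Z'‖ ≤ 4 * t → ‖Z - Z''‖ ≤ 4 * t → ‖Z' - Z''‖ ≤ 8 * t →
    ‖qf (Z - Z'') • (Z - Z') - qf (Z - Z') • (Z - Z'')‖ < c1 * φ ^ 3 * t ^ 3 →
    ‖om Z - om Z'‖ ≤ φ ∨ ‖om Z - om Z''‖ ≤ φ ∨ ‖om Z' - om Z''‖ ≤ φ := by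
  refine ⟨1 / 1000, 1 / 4000, by norm_num, by norm_num, ?_⟩
  intro Z Z' Z'' t τ φ ht hτ hφ hφ1 hτ2 h0 h1 ha h0' h1' ha' h0'' h1'' ha'' hd hd'' hd3 hv
  by_contra hcon
  push Not at hcon
  obtain ⟨w1, w2, w3⟩ := hcon
  have q1 := ba_qf_big ht hτ hφ hτ2 h0 h1 ha h0' h1' ha' (by linarith) w1
  have q2 := ba_qf_big ht hτ hφ hτ2 h0 h1 ha h0'' h1'' ha'' (by linarith) w2
  have q3 := ba_qf_big ht hτ hφ hτ2 h0' h1' ha' h0'' h1'' ha'' hd3 w3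
  have e := qf_comb (Z - Z') (Z - Z'')
  have e1 : Z - Z'' - (Z - Z') = Z' - Z'' := by abel
  rw [e1] at e
  have hpos : 0 ≤ φ ^ 2 * t ^ 2 / 50 := by positivity
  have b1 : (φ ^ 2 * t ^ 2 / 50) * (φ ^ 2 * t ^ 2 / 50) * (φ ^ 2 * t ^ 2 / 50) ≤
      |qf (Z - Z')| * |qf (Z - Z'')| * |qf (Z' - Z'')| :=
    mul_le_mul (mul_le_mul q1 q2 hpos (abs_nonneg _)) q3 hpos (by positivity)
  rw [← abs_mul, ← abs_mul, ← e] at b1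
  have b2 := abs_qf_le (qf (Z - Z'') • (Z - Z') - qf (Z - Z') • (Z - Z''))
  have b3 : ‖qf (Z - Z'') • (Z - Z') - qf (Z - Z') • (Z - Z'')‖ ^ 2 ≤
      (1 / 1000 * φ ^ 3 * t ^ 3) ^ 2 := pow_le_pow_left₀ (norm_nonneg _) hv.le 2
  have b4 : 0 < φ ^ 6 * t ^ 6 := by positivity
  have b5 : (φ ^ 2 * t ^ 2 / 50) * (φ ^ 2 * t ^ 2 / 50) * (φ ^ 2 * t ^ 2 / 50) =
      φ ^ 6 * t ^ 6 / 125000 := by ring
  have b6 : (1 / 1000 * φ ^ 3 * t ^ 3) ^ 2 = φ ^ 6 * t ^ 6 / 1000000 := by ring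
  rw [b5] at b1
  rw [b6] at b3
  linarith

end Pool.LibCA93
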