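import Pool.Agent.LibCA93.CG1

/-
PLAN (BB, MEDIUM). Area of the sublevel set of the quadratic polynomial f(ω) = Av ω v = t + <x,ω> + s|ω|^2 on ‖ω‖ <= 6, ‖v‖ = max(‖x‖,|s|,|t|). By homogeneity (Av ω (a v) = a Av ω v) assume ‖v‖ = 1 (or carry the factor).
Case |s| >= 1/1000: for fixed ω_2, f is quadratic in ω_1 with leading coefficient s: |s (ω_1 - a)^2 - b| <= δ; the measure of {ω_1} is <= 2 sqrt(2 δ/|s|) (the set {|y^2 - b'| <= δ'} has measure <= 4 sqrt δ': if 0 <= y_1 <= y_2 both in it then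
(y_2 - y_1)^2 <= y_2^2 - y_1^2 <= 2 δ'). Fubini over ω_2 in [-6,6].
Case |s| < 1/1000, ‖x‖ >= 1/20: one coordinate |x_i| >= 1/30, df/dω_i = x_i + 2 s ω_i >= 1/60 in absolute value, constant sign on [-6,6]: f is strictly monotone in ω_i with slope >= 1/60: measure <= 120 δ <= 120 sqrt δ.
Case |s| < 1/1000, ‖x‖ < 1/20: |t| = 1, |f| >= 1 - 6/20 - 36/1000 > 1/2: empty for δ < 1/2; for δ >= 1/2 the bound is trivial in all cases (area of the ball <= 144 <= C sqrt δ).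
-/

set_option autoImplicit false

noncomputable section

open MeasureTheory Metric Set Filter

namespace Pool.LibCA93

open Pool.LibSR53 Pool.LibST49

/-- sets of small diameter -/
private theorem bb_diam (s : Set ℝ) (D : ℝ) (h : ∀ x ∈ s, ∀ y ∈ s, x ≤ y → y - x ≤ D) :
    volume s ≤ ENNReal.ofReal D := by
  refine (Real.volume_le_diam s).trans (Metric.ediam_le fun x hx y hy => ?_)
  rw [edist_dist, Real.dist_eq]
  refine ENNReal.ofReal_le_ofReal ?_
  rcases le_total x y with hxy | hxy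
  · rw [abs_sub_comm, abs_of_nonneg (by linarith)]
    exact h x hx y hy hxy
  · rw [abs_of_nonneg (by linarith)]
    exact h y hy x hx hxy

/-- one variable: sublevel sets of quadratic polynomials -/
theorem quad_line {a b c δ : ℝ} (ha : a ≠ 0) (hδ : 0 ≤ δ) :
    volume {y : ℝ | |a * y ^ 2 + b * y + c| ≤ δ} ≤
      ENNReal.ofReal (4 * Real.sqrt (2 * δ / |a|)) := by
  have ha0 : 0 < |a| := abs_pos.2 ha
  set e : ℝ := -b / (2 * a) with he
  have hD : 0 ≤ 2 * δ / |a| := by positivity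
  set S : Set ℝ := {y : ℝ | |a * y ^ 2 + b * y + c| ≤ δ} with hS
  have hb : b = -(2 * a * e) := by rw [he]; field_simp
  have key : ∀ x ∈ S, ∀ y ∈ S, |(y - e) ^ 2 - (x - e) ^ 2| ≤ 2 * δ / |a| := by
    intro x hx y hy
    have hx' : |a * x ^ 2 + b * x + c| ≤ δ := hx
    have hy' : |a * y ^ 2 + b * y + c| ≤ δ := hy
    rw [le_div_iff₀ ha0, ← abs_mul]
    have h1 : ((y - e) ^ 2 - (x - e) ^ 2) * a =
        (a * y ^ 2 + b * y + c) - (a * x ^ 2 + b * x + c) := by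
      rw [hb]; ring
    rw [h1]
    rw [abs_le] at hx' hy' ⊢
    constructor <;> linarith [hx'.1, hx'.2, hy'.1, hy'.2]
  have h1 : volume (S ∩ {y | e ≤ y}) ≤ ENNReal.ofReal (Real.sqrt (2 * δ / |a|)) := by
    refine bb_diam _ _ ?_
    rintro x ⟨hx, hx2⟩ y ⟨hy, hy2⟩ hxy
    have hx3 : e ≤ x := hx2
    refine Real.le_sqrt_of_sq_le ?_
    have h2 := (abs_le.1 (key x hx y hy)).2
    nlinarith
  have h2 : volume (S ∩ {y | y ≤ e}) ≤ ENNReal.ofReal (Real.sqrt (2 * δ / |a|)) := by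
    refine bb_diam _ _ ?_
    rintro x ⟨hx, hx2⟩ y ⟨hy, hy2⟩ hxy
    have hy3 : y ≤ e := hy2
    refine Real.le_sqrt_of_sq_le ?_
    have h2 := (abs_le.1 (key y hy x hx)).2
    nlinarith
  have h3 : S ⊆ (S ∩ {y | e ≤ y}) ∪ (S ∩ {y | y ≤ e}) := by
    intro y hy
    rcases le_total e y with h | h
    · exact Or.inl ⟨hy, h⟩
    · exact Or.inr ⟨hy, h⟩
  calc volume S ≤ volume ((S ∩ {y | e ≤ y}) ∪ (S ∩ {y | y ≤ e})) := measure_mono h3
    _ ≤ volume (S ∩ {y | e ≤ y}) + volume (S ∩ {y | y ≤ e}) := measure_union_le _ _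
    _ ≤ ENNReal.ofReal (Real.sqrt (2 * δ / |a|)) + ENNReal.ofReal (Real.sqrt (2 * δ / |a|)) :=
        add_le_add h1 h2
    _ = ENNReal.ofReal (Real.sqrt (2 * δ / |a|) + Real.sqrt (2 * δ / |a|)) :=
        (ENNReal.ofReal_add (Real.sqrt_nonneg _) (Real.sqrt_nonneg _)).symm
    _ ≤ ENNReal.ofReal (4 * Real.sqrt (2 * δ / |a|)) := by
        refine ENNReal.ofReal_le_ofReal ?_
        have := Real.sqrt_nonneg (2 * δ / |a|)
        linarith

private theorem bb_mp : MeasurePreserving (fun ω : E 2 => ((ω 0, ω 1) : ℝ × ℝ)) volume volume :=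
  (volume_preserving_finTwoArrow ℝ).comp (PiLp.volume_preserving_ofLp (Fin 2))

/-- Fubini -/
private theorem bb_fub (T : Set (ℝ × ℝ)) (hT : MeasurableSet T) (K : ℝ) (hK : 0 ≤ K)
    (h : (∀ x y, (x, y) ∈ T → |x| ≤ 6) ∧ (∀ x, volume {y | (x, y) ∈ T} ≤ ENNReal.ofReal K) ∨
      (∀ x y, (x, y) ∈ T → |y| ≤ 6) ∧ (∀ y, volume {x | (x, y) ∈ T} ≤ ENNReal.ofReal K)) :
    volume T ≤ ENNReal.ofReal (12 * K) := by
  have hI : volume (Icc (-6 : ℝ) 6) = ENNReal.ofReal 12 := by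
    rw [Real.volume_Icc]
    norm_num
  have hfin : ∀ f : ℝ → ENNReal, (∀ x, f x ≤ (Icc (-6 : ℝ) 6).indicator (fun _ => ENNReal.ofReal K) x) →
      ∫⁻ x, f x ≤ ENNReal.ofReal (12 * K) := by
    intro f hf
    refine (lintegral_mono hf).trans ?_
    rw [lintegral_indicator measurableSet_Icc, lintegral_const, Measure.restrict_apply_univ, hI,
      ← ENNReal.ofReal_mul hK, mul_comm]
  rcases h with ⟨h1, h2⟩ | ⟨h1, h2⟩
  · rw [show (volume : Measure (ℝ × ℝ)) = (volume : Measure ℝ).prod volume from rfl,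
      Measure.prod_apply hT]
    refine hfin _ fun x => ?_
    by_cases hx : x ∈ Icc (-6 : ℝ) 6
    · rw [indicator_of_mem hx]
      exact h2 x
    · rw [indicator_of_notMem hx]
      have : Prod.mk x ⁻¹' T = ∅ := by
        ext y
        simp only [mem_preimage, mem_empty_iff_false, iff_false]
        exact fun hy => hx (abs_le.1 (h1 x y hy))
      rw [this, measure_empty]
  · rw [show (volume : Measure (ℝ × ℝ)) = (volume : Measure ℝ).prod volume from rfl,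
      Measure.prod_apply_symm hT]
    refine hfin _ fun y => ?_
    by_cases hy : y ∈ Icc (-6 : ℝ) 6
    · rw [indicator_of_mem hy]
      exact h2 y
    · rw [indicator_of_notMem hy]
      have : (fun x => (x, y)) ⁻¹' T = ∅ := by
        ext x
        simp only [mem_preimage, mem_empty_iff_false, iff_false]
        exact fun hx => hy (abs_le.1 (h1 x y hx))
      rw [this, measure_empty]

/-- one line -/
private theorem bb_slice {s b N δ : ℝ} (hN : 0 < N) (hδ : 0 < δ)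
    (h : N / 1000 ≤ |s| ∨ (|s| ≤ N / 1000 ∧ N / 30 ≤ |b|) ∨ 1 / 2 ≤ δ) (c : ℝ) :
    volume {y : ℝ | |y| ≤ 6 ∧ |s * y ^ 2 + b * y + c| ≤ δ * N} ≤
      ENNReal.ofReal (200 * Real.sqrt δ) := by
  have hsq : 0 < Real.sqrt δ := Real.sqrt_pos.2 hδ
  have hbig : 1 / 2 ≤ δ → volume {y : ℝ | |y| ≤ 6 ∧ |s * y ^ 2 + b * y + c| ≤ δ * N} ≤
      ENNReal.ofReal (200 * Real.sqrt δ) := by
    intro h2
    refine bb_diam _ _ ?_
    rintro x ⟨hx, -⟩ y ⟨hy, -⟩ -
    have h3 : 1 / 2 ≤ Real.sqrt δ := Real.le_sqrt_of_sq_le (by linarith)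
    have := abs_le.1 hx
    have := abs_le.1 hy
    linarith [this.1, this.2, (abs_le.1 hx).1]
  rcases h with h | ⟨h, h'⟩ | h
  · have hs0 : 0 < |s| := lt_of_lt_of_le (by positivity) h
    have hs : s ≠ 0 := abs_pos.1 hs0
    refine (measure_mono (fun y hy => hy.2)).trans ((quad_line hs (by positivity)).trans ?_)
    refine ENNReal.ofReal_le_ofReal ?_
    have h3 : 2 * (δ * N) / |s| ≤ 2500 * δ := by
      rw [div_le_iff₀ hs0]
      nlinarith
    calc 4 * Real.sqrt (2 * (δ * N) / |s|) ≤ 4 * Real.sqrt (2500 * δ) := by gcongr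
      _ = 4 * (50 * Real.sqrt δ) := by
          rw [Real.sqrt_mul (by norm_num), show (2500 : ℝ) = 50 ^ 2 by norm_num,
            Real.sqrt_sq (by norm_num)]
      _ = 200 * Real.sqrt δ := by ring
  · by_cases h2 : 1 / 2 ≤ δ
    · exact hbig h2
    · refine bb_diam _ _ ?_
      rintro x ⟨hx, hx2⟩ y ⟨hy, hy2⟩ hxy
      have h3 : |(s * y ^ 2 + b * y + c) - (s * x ^ 2 + b * x + c)| ≤ 2 * (δ * N) := by
        rw [abs_le] at hx2 hy2 ⊢
        constructor <;> linarith [hx2.1, hx2.2, hy2.1, hy2.2]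
      have h4 : (s * y ^ 2 + b * y + c) - (s * x ^ 2 + b * x + c) = (y - x) * (b + s * (x + y)) := by
        ring
      rw [h4, abs_mul, abs_of_nonneg (by linarith : 0 ≤ y - x)] at h3
      have h5 : N / 60 ≤ |b + s * (x + y)| := by
        have h6 : |s * (x + y)| ≤ N / 1000 * 12 := by
          rw [abs_mul]
          have h7 : |x + y| ≤ 12 := (abs_add_le x y).trans (by linarith)
          exact mul_le_mul h h7 (abs_nonneg _) (by positivity)
        have h8 := abs_sub_abs_le_abs_sub b (-(s * (x + y)))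
        rw [abs_neg, sub_neg_eq_add] at h8
        linarith
      have h9 : (y - x) * (N / 60) ≤ 2 * (δ * N) :=
        (mul_le_mul_of_nonneg_left h5 (by linarith)).trans h3
      have h10 : y - x ≤ 120 * δ := by
        have : (y - x) * N ≤ 120 * δ * N := by nlinarith
        exact le_of_mul_le_mul_right this hN
      have h11 : δ ≤ Real.sqrt δ := by
        refine Real.le_sqrt_of_sq_le ?_
        push Not at h2
        nlinarith
      linarith
  · exact hbig h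

/-- area of the neighbourhood of a conic -/
theorem conic_area : ∃ C : ℝ, 0 < C ∧ ∀ (v : X 2) (δ : ℝ), v ≠ 0 → 0 < δ →
    volume {ω : E 2 | ‖ω‖ ≤ 6 ∧ |Av ω v| ≤ δ * ‖v‖} ≤ ENNReal.ofReal (C * Real.sqrt δ) := by
  refine ⟨2400, by norm_num, fun v δ hv hδ => ?_⟩
  set N := ‖v‖ with hNdef
  have hN : 0 < N := norm_pos_iff.2 hv
  set s := v.2.1 with hs
  set x0 := v.1 0 with hx0
  set x1 := v.1 1 with hx1
  set t := v.2.2 with ht
  have hf : ∀ ω : E 2, Av ω v = t + (x0 * ω 0 + x1 * ω 1) + s * (ω 0 ^ 2 + ω 1 ^ 2) := by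
    intro ω
    have h1 : ‖ω‖ ^ 2 = ω 0 ^ 2 + ω 1 ^ 2 := by
      rw [EuclideanSpace.norm_sq_eq, Fin.sum_univ_two]
      simp only [Real.norm_eq_abs, sq_abs]
    have h2 : inner ℝ v.1 ω = x0 * ω 0 + x1 * ω 1 := by
      simp only [PiLp.inner_apply, Fin.sum_univ_two, hx0, hx1]
      simp [mul_comm]
    simp only [Av, h1, h2, hs, ht]
  set T : Set (ℝ × ℝ) := {z | |z.1| ≤ 6 ∧ |z.2| ≤ 6 ∧
    |t + (x0 * z.1 + x1 * z.2) + s * (z.1 ^ 2 + z.2 ^ 2)| ≤ δ * N} with hT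
  have hTm : MeasurableSet T := by
    refine IsClosed.measurableSet ?_
    have c1 : IsClosed {z : ℝ × ℝ | |z.1| ≤ 6} := isClosed_le (by fun_prop) (by fun_prop)
    have c2 : IsClosed {z : ℝ × ℝ | |z.2| ≤ 6} := isClosed_le (by fun_prop) (by fun_prop)
    have c3 : IsClosed {z : ℝ × ℝ | |t + (x0 * z.1 + x1 * z.2) + s * (z.1 ^ 2 + z.2 ^ 2)| ≤ δ * N} :=
      isClosed_le (by fun_prop) (by fun_prop)
    exact c1.inter (c2.inter c3)
  have hsub : {ω : E 2 | ‖ω‖ ≤ 6 ∧ |Av ω v| ≤ δ * N} ⊆ (fun ω : E 2 => ((ω 0, ω 1) : ℝ × ℝ)) ⁻¹' T := by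
    rintro ω ⟨h1, h2⟩
    refine ⟨?_, ?_, ?_⟩
    · exact (PiLp.norm_apply_le ω 0).trans h1
    · exact (PiLp.norm_apply_le ω 1).trans h1
    · rw [← hf ω]
      exact h2
  refine (measure_mono hsub).trans ?_
  rw [bb_mp.measure_preimage hTm.nullMeasurableSet]
  have hfub : (∀ x, volume {y | (x, y) ∈ T} ≤ ENNReal.ofReal (200 * Real.sqrt δ)) ∨
      (∀ y, volume {x | (x, y) ∈ T} ≤ ENNReal.ofReal (200 * Real.sqrt δ)) →
      volume T ≤ ENNReal.ofReal (2400 * Real.sqrt δ) := by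
    intro h
    have h2 := bb_fub T hTm (200 * Real.sqrt δ) (by positivity) (by
      rcases h with h | h
      · exact Or.inl ⟨fun x y hxy => hxy.1, h⟩
      · exact Or.inr ⟨fun x y hxy => hxy.2.1, h⟩)
    refine h2.trans_eq ?_
    congr 1
    ring
  -- second variable free
  have hsl1 : (N / 1000 ≤ |s| ∨ (|s| ≤ N / 1000 ∧ N / 30 ≤ |x1|) ∨ 1 / 2 ≤ δ) →
      ∀ x, volume {y | (x, y) ∈ T} ≤ ENNReal.ofReal (200 * Real.sqrt δ) := by
    intro h x
    refine (measure_mono ?_).trans (bb_slice hN hδ h (t + x0 * x + s * x ^ 2))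
    rintro y ⟨-, h1, h2⟩
    refine ⟨h1, ?_⟩
    have h3 : s * y ^ 2 + x1 * y + (t + x0 * x + s * x ^ 2) =
      t + (x0 * x + x1 * y) + s * (x ^ 2 + y ^ 2) := by ring
    rw [h3]
    exact h2
  have hsl0 : (N / 1000 ≤ |s| ∨ (|s| ≤ N / 1000 ∧ N / 30 ≤ |x0|) ∨ 1 / 2 ≤ δ) →
      ∀ y, volume {x | (x, y) ∈ T} ≤ ENNReal.ofReal (200 * Real.sqrt δ) := by
    intro h y
    refine (measure_mono ?_).trans (bb_slice hN hδ h (t + x1 * y + s * y ^ 2))
    rintro x ⟨h1, -, h2⟩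
    refine ⟨h1, ?_⟩
    have h3 : s * x ^ 2 + x0 * x + (t + x1 * y + s * y ^ 2) =
      t + (x0 * x + x1 * y) + s * (x ^ 2 + y ^ 2) := by ring
    rw [h3]
    exact h2
  rcases le_or_gt (N / 1000) |s| with h1 | h1
  · exact hfub (Or.inl (hsl1 (Or.inl h1)))
  rcases le_or_gt (1 / 2) δ with h2 | h2
  · exact hfub (Or.inl (hsl1 (Or.inr (Or.inr h2))))
  rcases le_or_gt (N / 30) |x1| with h3 | h3
  · exact hfub (Or.inl (hsl1 (Or.inr (Or.inl ⟨h1.le, h3⟩))))
  rcases le_or_gt (N / 30) |x0| with h4 | h4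
  · exact hfub (Or.inr (hsl0 (Or.inr (Or.inl ⟨h1.le, h4⟩))))
  -- the set is empty
  have hx : ‖v.1‖ < N := by
    have h5 : ‖v.1‖ ^ 2 = x0 ^ 2 + x1 ^ 2 := by
      rw [EuclideanSpace.norm_sq_eq, Fin.sum_univ_two]
      simp only [Real.norm_eq_abs, sq_abs, hx0, hx1]
    have h6 : x0 ^ 2 ≤ (N / 30) ^ 2 := by
      rw [← sq_abs]
      gcongr
    have h7 : x1 ^ 2 ≤ (N / 30) ^ 2 := by
      rw [← sq_abs]
      gcongr
    have h8 : ‖v.1‖ ^ 2 < N ^ 2 := by nlinarith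
    exact lt_of_pow_lt_pow_left₀ 2 hN.le h8
  have hNt : N = |t| := by
    have h5 : N = max ‖v.1‖ (max |s| |t|) := rfl
    rcases le_total ‖v.1‖ (max |s| |t|) with h6 | h6
    · rw [max_eq_right h6] at h5
      rcases le_total |s| |t| with h7 | h7
      · rw [max_eq_right h7] at h5
        exact h5
      · rw [max_eq_left h7] at h5
        linarith
    · rw [max_eq_left h6] at h5
      linarith
  have hTe : T = ∅ := by
    ext z
    simp only [mem_empty_iff_false, iff_false]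
    rintro ⟨h5, h6, h7⟩
    have h8 : |x0 * z.1| ≤ N / 30 * 6 := by
      rw [abs_mul]
      exact mul_le_mul h4.le h5 (abs_nonneg _) (by positivity)
    have h9 : |x1 * z.2| ≤ N / 30 * 6 := by
      rw [abs_mul]
      exact mul_le_mul h3.le h6 (abs_nonneg _) (by positivity)
    have h10 : |s * (z.1 ^ 2 + z.2 ^ 2)| ≤ N / 1000 * 72 := by
      rw [abs_mul]
      refine mul_le_mul h1.le ?_ (abs_nonneg _) (by positivity)
      rw [abs_of_nonneg (by positivity), ← sq_abs z.1, ← sq_abs z.2]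
      have h11 : |z.1| ^ 2 ≤ 6 ^ 2 := by gcongr
      have h12 : |z.2| ^ 2 ≤ 6 ^ 2 := by gcongr
      linarith
    have h13 : |t| ≤ |t + (x0 * z.1 + x1 * z.2) + s * (z.1 ^ 2 + z.2 ^ 2)| + |x0 * z.1| +
        |x1 * z.2| + |s * (z.1 ^ 2 + z.2 ^ 2)| := by
      have h14 : t = (t + (x0 * z.1 + x1 * z.2) + s * (z.1 ^ 2 + z.2 ^ 2)) + -(x0 * z.1) +
        -(x1 * z.2) + -(s * (z.1 ^ 2 + z.2 ^ 2)) := by ring
      calc |t| = |(t + (x0 * z.1 + x1 * z.2) + s * (z.1 ^ 2 + z.2 ^ 2)) + -(x0 * z.1) +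
        -(x1 * z.2) + -(s * (z.1 ^ 2 + z.2 ^ 2))| := by rw [← h14]
        _ ≤ |(t + (x0 * z.1 + x1 * z.2) + s * (z.1 ^ 2 + z.2 ^ 2)) + -(x0 * z.1) +
        -(x1 * z.2)| + |-(s * (z.1 ^ 2 + z.2 ^ 2))| := abs_add_le _ _
        _ ≤ |(t + (x0 * z.1 + x1 * z.2) + s * (z.1 ^ 2 + z.2 ^ 2)) + -(x0 * z.1)| +
        |-(x1 * z.2)| + |-(s * (z.1 ^ 2 + z.2 ^ 2))| := by gcongr; exact abs_add_le _ _
        _ ≤ |t + (x0 * z.1 + x1 * z.2) + s * (z.1 ^ 2 + z.2 ^ 2)| + |-(x0 * z.1)| +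
        |-(x1 * z.2)| + |-(s * (z.1 ^ 2 + z.2 ^ 2))| := by gcongr; exact abs_add_le _ _
        _ = _ := by rw [abs_neg, abs_neg, abs_neg]
    rw [← hNt] at h13
    nlinarith
  rw [hTe, measure_empty]
  exact bot_le

end Pool.LibCA93
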