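import Pool.Agent.LibCA93.BA
import Pool.Agent.LibCA93.BB
import Pool.Agent.LibSR53.C2

/-
PLAN (BC, MEDIUM). Points p in T with directions g p, ‖g p‖ <= 5, |Av (g p) v| <= η ‖v‖. Take a maximal φ-separated subset T' of T (distances of the g; exists_sep_C2 of LibSR53.C2 for the image of g, or strong induction: remove the φ-ball of one point);
#T <= Λ #T'. The balls of radius φ/2 around g p, p in T', are disjoint, contained in {‖ω‖ <= 6, |Av ω v| <= (η + 12 φ/2)‖v‖} (Av_sub_le), contained in the set of conic_area with δ = 7 η (φ <= η; 1 + 5 + 5.5 <= 12), area of each = π φ^2/4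
(EuclideanSpace.volume_ball, or compare with a square of side φ/2). So #T' φ^2 <= C sqrt η.
-/

set_option autoImplicit false

noncomputable section

open MeasureTheory Metric Set Filter

namespace Pool.LibCA93

open Pool.LibSR53 Pool.LibST49

open scoped Classical in
/-- number of points with directions near a conic -/
theorem conic_count : ∃ C : ℝ, 0 < C ∧ ∀ (v : X 2) (φ η Λ : ℝ) (T : Finset (X 2)) (g : X 2 → E 2),
    v ≠ 0 → 0 < φ → φ ≤ η → η ≤ 1 → 0 ≤ Λ → (∀ p ∈ T, ‖g p‖ ≤ 5) →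
    (∀ p ∈ T, |Av (g p) v| ≤ η * ‖v‖) →
    (∀ p ∈ T, ((T.filter (fun p' => ‖g p' - g p‖ ≤ φ)).card : ℝ) ≤ Λ) →
    (T.card : ℝ) ≤ C * Real.sqrt η / φ ^ 2 * Λ := by
  obtain ⟨C0, hC0, harea⟩ := conic_area
  have hc : 0 < c0_C2 2 := c0_pos_C2 2
  refine ⟨C0 * Real.sqrt 7 * 4 / c0_C2 2, by positivity, ?_⟩
  intro v φ η Λ T g hv hφ hφη hη1 hΛ hg hAv hcell
  have hη : 0 < η := lt_of_lt_of_le hφ hφη
  obtain ⟨T', hT'sub, hsep, hcov⟩ := exists_sep_C2 (T.image g) hφ
  -- counting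
  have hcard : (T.card : ℝ) ≤ Λ * (T'.card : ℝ) := by
    have h1 : T ⊆ T'.biUnion (fun a => T.filter (fun p => dist (g p) a < φ)) := by
      intro p hp
      obtain ⟨a, ha, hd⟩ := hcov (g p) (Finset.mem_image_of_mem g hp)
      rw [Finset.mem_biUnion]
      exact ⟨a, ha, Finset.mem_filter.mpr ⟨hp, hd⟩⟩
    have h2 : (T.card : ℝ) ≤ ∑ a ∈ T', ((T.filter (fun p => dist (g p) a < φ)).card : ℝ) := by
      have h3 := (Finset.card_le_card h1).trans Finset.card_biUnion_le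
      exact_mod_cast h3
    refine h2.trans ?_
    have h4 : ∀ a ∈ T', ((T.filter (fun p => dist (g p) a < φ)).card : ℝ) ≤ Λ := by
      intro a ha
      obtain ⟨p0, hp0, rfl⟩ := Finset.mem_image.mp (hT'sub ha)
      refine le_trans ?_ (hcell p0 hp0)
      have h5 : T.filter (fun p => dist (g p) (g p0) < φ) ⊆
          T.filter (fun p' => ‖g p' - g p0‖ ≤ φ) := by
        intro p hp
        rw [Finset.mem_filter] at hp ⊢
        refine ⟨hp.1, ?_⟩
        rw [← dist_eq_norm]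
        exact hp.2.le
      exact_mod_cast Finset.card_le_card h5
    calc ∑ a ∈ T', ((T.filter (fun p => dist (g p) a < φ)).card : ℝ) ≤ ∑ _a ∈ T', Λ :=
          Finset.sum_le_sum h4
      _ = Λ * (T'.card : ℝ) := by
          rw [Finset.sum_const, nsmul_eq_mul]
          ring
  -- volume
  have hsub : (⋃ a ∈ T', ball a (φ / 2)) ⊆
      {ω : E 2 | ‖ω‖ ≤ 6 ∧ |Av ω v| ≤ (7 * η) * ‖v‖} := by
    intro ω hω
    rw [mem_iUnion₂] at hω
    obtain ⟨a, ha, hωa⟩ := hω
    obtain ⟨p0, hp0, rfl⟩ := Finset.mem_image.mp (hT'sub ha)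
    have hd : ‖ω - g p0‖ < φ / 2 := by
      rw [← dist_eq_norm]
      exact hωa
    have hn : ‖ω‖ ≤ 5 + φ / 2 := by
      have := norm_add_le (ω - g p0) (g p0)
      rw [sub_add_cancel] at this
      linarith [hg p0 hp0]
    have hφ1 : φ ≤ 1 := hφη.trans hη1
    refine ⟨by linarith, ?_⟩
    have h6 := Av_sub_le ω (g p0) v
    have h7 := hAv p0 hp0
    have hv0 : 0 ≤ ‖v‖ := norm_nonneg v
    have h8 : (1 + ‖ω‖ + ‖g p0‖) * ‖ω - g p0‖ ≤ 12 * (φ / 2) := by
      have := hg p0 hp0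
      apply mul_le_mul (by linarith) hd.le (norm_nonneg _) (by norm_num)
    have h9 : (1 + ‖ω‖ + ‖g p0‖) * ‖ω - g p0‖ * ‖v‖ ≤ 12 * (φ / 2) * ‖v‖ :=
      mul_le_mul_of_nonneg_right h8 hv0
    have h10 : |Av ω v| ≤ |Av ω v - Av (g p0) v| + |Av (g p0) v| := by
      have := abs_add_le (Av ω v - Av (g p0) v) (Av (g p0) v)
      rwa [sub_add_cancel] at this
    have h11 : φ * ‖v‖ ≤ η * ‖v‖ := mul_le_mul_of_nonneg_right hφη hv0
    nlinarith
  have hdisj : (T' : Set (E 2)).PairwiseDisjoint (fun a => ball a (φ / 2)) := by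
    intro a ha b hb hab
    apply ball_disjoint_ball
    have := hsep a ha b hb hab
    linarith
  have hvol : (T'.card : ℝ) * ((φ / 2) ^ 2 * c0_C2 2) ≤ C0 * Real.sqrt (7 * η) := by
    have h1 : volume (⋃ a ∈ T', ball a (φ / 2)) =
        ∑ a ∈ T', volume (ball a (φ / 2)) :=
      measure_biUnion_finset hdisj (fun a _ => measurableSet_ball)
    have h2 : ∑ a ∈ T', volume (ball (a : E 2) (φ / 2)) =
        ENNReal.ofReal ((T'.card : ℝ) * ((φ / 2) ^ 2 * c0_C2 2)) := by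
      have h3 : ∀ a ∈ T', volume (ball (a : E 2) (φ / 2)) =
          ENNReal.ofReal ((φ / 2) ^ 2 * c0_C2 2) :=
        fun a _ => vol_ball_C2 2 a (by positivity) (by norm_num)
      rw [Finset.sum_congr rfl h3, Finset.sum_const, nsmul_eq_mul,
        ENNReal.ofReal_mul (p := (T'.card : ℝ)) (by positivity), ENNReal.ofReal_natCast]
    have h4 := (measure_mono hsub).trans (harea v (7 * η) hv (by positivity))
    rw [h1, h2] at h4
    exact (ENNReal.ofReal_le_ofReal_iff (by positivity)).mp h4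
  have hsq : Real.sqrt (7 * η) = Real.sqrt 7 * Real.sqrt η := Real.sqrt_mul (by norm_num) η
  have hT' : (T'.card : ℝ) ≤ C0 * Real.sqrt 7 * 4 / c0_C2 2 * Real.sqrt η / φ ^ 2 := by
    rw [hsq] at hvol
    rw [le_div_iff₀ (by positivity)]
    have : (T'.card : ℝ) * φ ^ 2 = (T'.card : ℝ) * ((φ / 2) ^ 2 * c0_C2 2) * (4 / c0_C2 2) := by
      field_simp
      ring
    rw [this]
    calc (T'.card : ℝ) * ((φ / 2) ^ 2 * c0_C2 2) * (4 / c0_C2 2) ≤
          C0 * (Real.sqrt 7 * Real.sqrt η) * (4 / c0_C2 2) :=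
          mul_le_mul_of_nonneg_right hvol (by positivity)
      _ = C0 * Real.sqrt 7 * 4 / c0_C2 2 * Real.sqrt η := by ring
  calc (T.card : ℝ) ≤ Λ * (T'.card : ℝ) := hcard
    _ ≤ Λ * (C0 * Real.sqrt 7 * 4 / c0_C2 2 * Real.sqrt η / φ ^ 2) :=
        mul_le_mul_of_nonneg_left hT' hΛ
    _ = C0 * Real.sqrt 7 * 4 / c0_C2 2 * Real.sqrt η / φ ^ 2 * Λ := by ring

end Pool.LibCA93
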