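import Mathlib

/-
PLAN (BD, SHORT; only Mathlib). cube_sum: points with d <= 2 C Λ contribute at most 2 C Λ #P. For the others C Λ d^2 <= d^3/2, so SUM_big d^3 <= 2 SUM_big (d^3 - CΛ d^2) <= 2 (C A + SUM_small CΛ d^2) <= 2 C A + 8 C^3 Λ^3 #P (the hypothesis
SUM (d^3 - CΛ d^2) <= C A over all). SUM_big d <= (#P)^(2/3) (SUM_big d^3)^(1/3) (Hoelder: Real.inner_le_Lp_mul_Lq or inner_le_nnorm_mul_nnorm; or the power mean (SUM d)^3 <= (#P)^2 SUM d^3), (a+b)^(1/3) <= a^(1/3) + b^(1/3).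
square_sum: (SUM d)^2 <= #P SUM d^2 <= #P (n SUM d + B): SUM d <= n #P + sqrt(#P B) (if x^2 <= a x + b^2 then x <= a + b).
-/

set_option autoImplicit false

noncomputable section

namespace Pool.LibCA93

theorem cube_sum {ι : Type} (P : Finset ι) (d : ι → ℝ) (C A Λ : ℝ) (hd : ∀ i ∈ P, 0 ≤ d i)
    (hC : 0 ≤ C) (hA : 0 ≤ A) (hΛ : 0 ≤ Λ)
    (h : ∑ i ∈ P, d i ^ 3 ≤ C * (A + Λ * ∑ i ∈ P, d i ^ 2)) :
    ∑ i ∈ P, d i ≤ (4 * C + 2) * (Λ * (P.card : ℝ)) +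
      (2 * C + 2) * ((P.card : ℝ) ^ ((2 : ℝ) / 3) * A ^ ((1 : ℝ) / 3)) := by
  classical
  set N : ℝ := (P.card : ℝ) with hN
  have hN0 : 0 ≤ N := Nat.cast_nonneg _
  set w : ℝ := N ^ ((2 : ℝ) / 3) * A ^ ((1 : ℝ) / 3) with hw
  have hw0 : 0 ≤ w := by positivity
  have hw3 : w ^ 3 = N ^ 2 * A := by
    rw [hw, mul_pow, ← Real.rpow_natCast (N ^ ((2 : ℝ) / 3)), ← Real.rpow_natCast (A ^ ((1 : ℝ) / 3)),
      ← Real.rpow_mul hN0, ← Real.rpow_mul hA]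
    norm_num
  set T := P.filter (fun i => 2 * C * Λ < d i) with hT
  set U := P.filter (fun i => ¬ 2 * C * Λ < d i) with hU
  have hsplit : ∀ f : ι → ℝ, ∑ i ∈ P, f i = ∑ i ∈ T, f i + ∑ i ∈ U, f i := fun f =>
    (Finset.sum_filter_add_sum_filter_not P (fun i => 2 * C * Λ < d i) f).symm
  have hUc : (U.card : ℝ) ≤ N := by
    rw [hN]
    exact_mod_cast Finset.card_filter_le _ _
  have hTc : (T.card : ℝ) ≤ N := by
    rw [hN]
    exact_mod_cast Finset.card_filter_le _ _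
  have hθ : 0 ≤ 2 * C * Λ := by positivity
  have hU1 : ∑ i ∈ U, d i ≤ 2 * C * Λ * N := by
    calc ∑ i ∈ U, d i ≤ ∑ _i ∈ U, 2 * C * Λ :=
          Finset.sum_le_sum fun i hi => not_lt.1 (Finset.mem_filter.1 hi).2
      _ = U.card * (2 * C * Λ) := by rw [Finset.sum_const, nsmul_eq_mul]
      _ ≤ N * (2 * C * Λ) := by gcongr
      _ = 2 * C * Λ * N := by ring
  have hU2 : ∑ i ∈ U, d i ^ 2 ≤ (2 * C * Λ) ^ 2 * N := by
    calc ∑ i ∈ U, d i ^ 2 ≤ ∑ _i ∈ U, (2 * C * Λ) ^ 2 :=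
          Finset.sum_le_sum fun i hi =>
            pow_le_pow_left₀ (hd i (Finset.mem_filter.1 hi).1) (not_lt.1 (Finset.mem_filter.1 hi).2) 2
      _ = U.card * (2 * C * Λ) ^ 2 := by rw [Finset.sum_const, nsmul_eq_mul]
      _ ≤ N * (2 * C * Λ) ^ 2 := by gcongr
      _ = (2 * C * Λ) ^ 2 * N := by ring
  have hU3 : 0 ≤ ∑ i ∈ U, d i ^ 3 :=
    Finset.sum_nonneg fun i hi => pow_nonneg (hd i (Finset.mem_filter.1 hi).1) 3
  have hT2 : 2 * (C * Λ * ∑ i ∈ T, d i ^ 2) ≤ ∑ i ∈ T, d i ^ 3 := by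
    rw [Finset.mul_sum, Finset.mul_sum]
    refine Finset.sum_le_sum fun i hi => ?_
    have h1 := (Finset.mem_filter.1 hi).2
    have h2 : 0 ≤ d i ^ 2 := sq_nonneg _
    nlinarith
  have hT3 : ∑ i ∈ T, d i ^ 3 ≤ 2 * C * A + 8 * C ^ 3 * Λ ^ 3 * N := by
    rw [hsplit, hsplit (fun i => d i ^ 2)] at h
    have h3 : C * Λ * ∑ i ∈ U, d i ^ 2 ≤ C * Λ * ((2 * C * Λ) ^ 2 * N) := by gcongr
    nlinarith
  have hTd : ∀ i ∈ T, 0 ≤ d i := fun i hi => hd i (Finset.mem_filter.1 hi).1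
  have hS0 : 0 ≤ ∑ i ∈ T, d i := Finset.sum_nonneg hTd
  have hpm : (∑ i ∈ T, d i) ^ 3 ≤ N ^ 2 * ∑ i ∈ T, d i ^ 3 := by
    rcases Finset.eq_empty_or_nonempty T with hTe | hTn
    · rw [hTe]
      simp
    · have hc : (0 : ℝ) < T.card := by exact_mod_cast hTn.card_pos
      have h1 := pow_sum_div_card_le_sum_pow (s := T) (f := d) hTd 2
      rw [div_le_iff₀ (by positivity)] at h1
      refine h1.trans ?_
      have h2 : 0 ≤ ∑ i ∈ T, d i ^ 3 := Finset.sum_nonneg fun i hi => pow_nonneg (hTd i hi) 3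
      rw [mul_comm]
      gcongr
  have hfin : ∑ i ∈ T, d i ≤ 2 * C * Λ * N + (2 * C + 2) * w := by
    refine le_of_pow_le_pow_left₀ (n := 3) (by norm_num) (by positivity) ?_
    have h1 : N ^ 2 * ∑ i ∈ T, d i ^ 3 ≤ N ^ 2 * (2 * C * A + 8 * C ^ 3 * Λ ^ 3 * N) := by gcongr
    have h2 : 0 ≤ 2 * C * Λ * N := by positivity
    have h3 : 0 ≤ (2 * C + 2) * w := by positivity
    have h4 : (2 * C * Λ * N) ^ 3 + ((2 * C + 2) * w) ^ 3 ≤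
        (2 * C * Λ * N + (2 * C + 2) * w) ^ 3 := by
      have h5 : 0 ≤ 3 * (2 * C * Λ * N) ^ 2 * ((2 * C + 2) * w) := by positivity
      have h6 : 0 ≤ 3 * (2 * C * Λ * N) * ((2 * C + 2) * w) ^ 2 := by positivity
      nlinarith
    have h7 : N ^ 2 * (2 * C * A) ≤ ((2 * C + 2) * w) ^ 3 := by
      rw [mul_pow, hw3]
      have h8 : 2 * C ≤ (2 * C + 2) ^ 3 := by nlinarith [sq_nonneg C, mul_nonneg hC (sq_nonneg C)]
      have h9 : 0 ≤ N ^ 2 * A := by positivity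
      nlinarith
    have h10 : N ^ 2 * (8 * C ^ 3 * Λ ^ 3 * N) = (2 * C * Λ * N) ^ 3 := by ring
    linarith
  rw [hsplit]
  have h11 : 0 ≤ Λ * N := by positivity
  nlinarith

theorem square_sum {ι : Type} (P : Finset ι) (d : ι → ℝ) (n B : ℝ) (hd : ∀ i ∈ P, 0 ≤ d i)
    (hn : 0 ≤ n) (hB : 0 ≤ B) (h : ∑ i ∈ P, d i ^ 2 ≤ n * ∑ i ∈ P, d i + B) :
    ∑ i ∈ P, d i ≤ n * (P.card : ℝ) + ((P.card : ℝ) * B) ^ ((1 : ℝ) / 2) := by
  have h1 : (∑ i ∈ P, d i) ^ 2 ≤ (P.card : ℝ) * ∑ i ∈ P, d i ^ 2 := sq_sum_le_card_mul_sum_sq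
  set N : ℝ := (P.card : ℝ) with hN
  have hN0 : 0 ≤ N := Nat.cast_nonneg _
  set S := ∑ i ∈ P, d i with hS
  have hS0 : 0 ≤ S := Finset.sum_nonneg hd
  set r : ℝ := (N * B) ^ ((1 : ℝ) / 2) with hr
  have hNB : 0 ≤ N * B := by positivity
  have hr0 : 0 ≤ r := by positivity
  have hr2 : r ^ 2 = N * B := by
    rw [hr, ← Real.rpow_natCast, ← Real.rpow_mul hNB]
    norm_num
  have h2 : S ^ 2 ≤ n * N * S + r ^ 2 := by
    have h3 : N * ∑ i ∈ P, d i ^ 2 ≤ N * (n * S + B) := by gcongr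
    nlinarith
  by_contra h4
  push Not at h4
  have h5 : 0 ≤ n * N := by positivity
  nlinarith

end Pool.LibCA93
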