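import Pool.Agent.LibCA93.BC
import Pool.Agent.LibCA93.BD

/-
PLAN (BE, MEDIUM). D p := Q.filter (N p), d p := #(D p). SUM_p d^3 = number of (p; q,q',q'') with all three in D p (card of D p x D p x D p). Let v := qf (q''-q) • (q'-q) - qf (q'-q) • (q''-q) (with Z = p - q, Z' = p - q', Z'' = p - q'':
Z - Z' = q' - q, Z - Z'' = q'' - q). c1, c2 from dir_close. Small v (‖v‖ < c1 φ^3 t^3): for fixed p two of the three directions are within φ (dir_close: ‖Z' - Z''‖ <= 4t by the hypothesis): at most 3 Λp d^2 triples (hypothesis on P side).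
Big v: for fixed (q,q',q''), ‖q-q'‖, ‖q-q''‖ <= 4t (at most #Q n^2 triples): T := {p in P : N p q, N p q', N p q''}, g p := om (p - q): ‖g p‖ <= 5 (norm_om), |Av (g p) v| <= 20000 τ t^2 <= φ c1 φ^3 t^3 <= φ ‖v‖ (τ <= c φ^12 t, φ <= 1):
conic_count with η = φ: #T <= C φ^(1/2)/φ^2 Λq (hypothesis on Q side, N p' q). So SUM d^3 <= C (φ^(-3/2) Λq #Q n^2 + Λp SUM d^2); cube_sum.
-/

set_option autoImplicit false

noncomputable section

open MeasureTheory Metric Set Filter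

namespace Pool.LibCA93

open Pool.LibSR53 Pool.LibST49

/-! ### Auxiliary lemmas -/

open scoped Classical in
private theorem be_cube_le {α : Type} (D : Finset α) (r : α → α → Prop) (big : α → α → α → Prop)
    (Λ : ℝ) (hΛ : ∀ q ∈ D, ((D.filter (fun q' => r q q')).card : ℝ) ≤ Λ)
    (h : ∀ q ∈ D, ∀ q' ∈ D, ∀ q'' ∈ D, big q q' q'' ∨ r q q' ∨ r q q'' ∨ r q' q'') :
    (D.card : ℝ) ^ 3 ≤ 3 * Λ * (D.card : ℝ) ^ 2 +
      ∑ q ∈ D, ∑ q' ∈ D, ∑ q'' ∈ D, (if big q q' q'' then (1 : ℝ) else 0) := by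
  have hb : ∀ q ∈ D, ∑ q' ∈ D, (if r q q' then (1 : ℝ) else 0) ≤ Λ := by
    intro q hq
    rw [Finset.sum_boole]
    exact hΛ q hq
  have e0 : (D.card : ℝ) ^ 3 = ∑ q ∈ D, ∑ q' ∈ D, ∑ q'' ∈ D, (1 : ℝ) := by
    simp only [Finset.sum_const, nsmul_eq_mul, mul_one]
    ring
  have e1 : ∑ q ∈ D, ∑ q' ∈ D, ∑ q'' ∈ D, (if r q q' then (1 : ℝ) else 0) ≤
      Λ * (D.card : ℝ) ^ 2 := by
    calc ∑ q ∈ D, ∑ q' ∈ D, ∑ q'' ∈ D, (if r q q' then (1 : ℝ) else 0)
        = ∑ q ∈ D, (D.card : ℝ) * ∑ q' ∈ D, (if r q q' then (1 : ℝ) else 0) := by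
          refine Finset.sum_congr rfl fun q _ => ?_
          rw [Finset.mul_sum]
          refine Finset.sum_congr rfl fun q' _ => ?_
          rw [Finset.sum_const, nsmul_eq_mul]
      _ ≤ ∑ q ∈ D, (D.card : ℝ) * Λ :=
          Finset.sum_le_sum fun q hq => mul_le_mul_of_nonneg_left (hb q hq) (Nat.cast_nonneg _)
      _ = Λ * (D.card : ℝ) ^ 2 := by
          rw [Finset.sum_const, nsmul_eq_mul]
          ring
  have e2 : ∑ q ∈ D, ∑ q' ∈ D, ∑ q'' ∈ D, (if r q q'' then (1 : ℝ) else 0) ≤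
      Λ * (D.card : ℝ) ^ 2 := by
    calc ∑ q ∈ D, ∑ q' ∈ D, ∑ q'' ∈ D, (if r q q'' then (1 : ℝ) else 0)
        ≤ ∑ q ∈ D, ∑ q' ∈ D, Λ :=
          Finset.sum_le_sum fun q hq => Finset.sum_le_sum fun q' _ => hb q hq
      _ = Λ * (D.card : ℝ) ^ 2 := by
          rw [Finset.sum_const, Finset.sum_const, nsmul_eq_mul, nsmul_eq_mul]
          ring
  have e3 : ∑ q ∈ D, ∑ q' ∈ D, ∑ q'' ∈ D, (if r q' q'' then (1 : ℝ) else 0) ≤
      Λ * (D.card : ℝ) ^ 2 := by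
    calc ∑ q ∈ D, ∑ q' ∈ D, ∑ q'' ∈ D, (if r q' q'' then (1 : ℝ) else 0)
        ≤ ∑ q ∈ D, ∑ q' ∈ D, Λ :=
          Finset.sum_le_sum fun q _ => Finset.sum_le_sum fun q' hq' => hb q' hq'
      _ = Λ * (D.card : ℝ) ^ 2 := by
          rw [Finset.sum_const, Finset.sum_const, nsmul_eq_mul, nsmul_eq_mul]
          ring
  have e4 : ∑ q ∈ D, ∑ q' ∈ D, ∑ q'' ∈ D, (1 : ℝ) ≤
      ∑ q ∈ D, ∑ q' ∈ D, ∑ q'' ∈ D, ((if big q q' q'' then (1 : ℝ) else 0) +
        (if r q q' then (1 : ℝ) else 0) + (if r q q'' then (1 : ℝ) else 0) +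
        (if r q' q'' then (1 : ℝ) else 0)) := by
    refine Finset.sum_le_sum fun q hq => Finset.sum_le_sum fun q' hq' =>
      Finset.sum_le_sum fun q'' hq'' => ?_
    rcases h q hq q' hq' q'' hq'' with h | h | h | h
    · rw [if_pos h]
      have a1 : (0 : ℝ) ≤ if r q q' then (1 : ℝ) else 0 := by split_ifs <;> norm_num
      have a2 : (0 : ℝ) ≤ if r q q'' then (1 : ℝ) else 0 := by split_ifs <;> norm_num
      have a3 : (0 : ℝ) ≤ if r q' q'' then (1 : ℝ) else 0 := by split_ifs <;> norm_num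
      linarith
    · rw [if_pos h]
      have a1 : (0 : ℝ) ≤ if big q q' q'' then (1 : ℝ) else 0 := by split_ifs <;> norm_num
      have a2 : (0 : ℝ) ≤ if r q q'' then (1 : ℝ) else 0 := by split_ifs <;> norm_num
      have a3 : (0 : ℝ) ≤ if r q' q'' then (1 : ℝ) else 0 := by split_ifs <;> norm_num
      linarith
    · rw [if_pos h]
      have a1 : (0 : ℝ) ≤ if big q q' q'' then (1 : ℝ) else 0 := by split_ifs <;> norm_num
      have a2 : (0 : ℝ) ≤ if r q q' then (1 : ℝ) else 0 := by split_ifs <;> norm_num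
      have a3 : (0 : ℝ) ≤ if r q' q'' then (1 : ℝ) else 0 := by split_ifs <;> norm_num
      linarith
    · rw [if_pos h]
      have a1 : (0 : ℝ) ≤ if big q q' q'' then (1 : ℝ) else 0 := by split_ifs <;> norm_num
      have a2 : (0 : ℝ) ≤ if r q q' then (1 : ℝ) else 0 := by split_ifs <;> norm_num
      have a3 : (0 : ℝ) ≤ if r q q'' then (1 : ℝ) else 0 := by split_ifs <;> norm_num
      linarith
  simp only [Finset.sum_add_distrib] at e4
  rw [e0]
  linarith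

open scoped Classical in
/-- swapping the sums -/
private theorem be_big_le {α β : Type} (P : Finset β) (Q : Finset α) (N : β → α → Prop)
    (big : α → α → α → Prop) (cl : α → α → Prop) (M n : ℝ) (hM : 0 ≤ M) (hn : 0 ≤ n)
    (hcl : ∀ p ∈ P, ∀ q ∈ Q, ∀ q' ∈ Q, N p q → N p q' → cl q q')
    (hcn : ∀ q ∈ Q, ((Q.filter (fun q' => cl q q')).card : ℝ) ≤ n)
    (hT : ∀ q ∈ Q, ∀ q' ∈ Q, ∀ q'' ∈ Q, big q q' q'' →
      ((P.filter (fun p => N p q ∧ N p q' ∧ N p q'')).card : ℝ) ≤ M) :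
    ∑ p ∈ P, ∑ q ∈ Q.filter (fun q => N p q), ∑ q' ∈ Q.filter (fun q => N p q),
      ∑ q'' ∈ Q.filter (fun q => N p q), (if big q q' q'' then (1 : ℝ) else 0) ≤
      M * (Q.card : ℝ) * n ^ 2 := by
  have e1 : ∀ p ∈ P, ∑ q ∈ Q.filter (fun q => N p q), ∑ q' ∈ Q.filter (fun q => N p q),
      ∑ q'' ∈ Q.filter (fun q => N p q), (if big q q' q'' then (1 : ℝ) else 0) =
      ∑ q ∈ Q, ∑ q' ∈ Q, ∑ q'' ∈ Q,
        (if N p q ∧ N p q' ∧ N p q'' then (if big q q' q'' then (1 : ℝ) else 0) else 0) := by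
    intro p _
    rw [Finset.sum_filter]
    refine Finset.sum_congr rfl fun q _ => ?_
    by_cases h1 : N p q
    · rw [if_pos h1, Finset.sum_filter]
      refine Finset.sum_congr rfl fun q' _ => ?_
      by_cases h2 : N p q'
      · rw [if_pos h2, Finset.sum_filter]
        refine Finset.sum_congr rfl fun q'' _ => ?_
        by_cases h3 : N p q''
        · rw [if_pos h3]
          rw [if_pos (show N p q ∧ N p q' ∧ N p q'' from ⟨h1, h2, h3⟩)]
        · rw [if_neg h3, if_neg (fun h => h3 h.2.2)]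
      · rw [if_neg h2]
        symm
        refine Finset.sum_eq_zero fun q'' _ => ?_
        rw [if_neg (fun h => h2 h.2.1)]
    · rw [if_neg h1]
      symm
      refine Finset.sum_eq_zero fun q' _ => Finset.sum_eq_zero fun q'' _ => ?_
      rw [if_neg (fun h => h1 h.1)]
  rw [Finset.sum_congr rfl e1, Finset.sum_comm]
  have e2 : ∀ q ∈ Q, ∑ p ∈ P, ∑ q' ∈ Q, ∑ q'' ∈ Q,
      (if N p q ∧ N p q' ∧ N p q'' then (if big q q' q'' then (1 : ℝ) else 0) else 0) ≤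
      M * n ^ 2 := by
    intro q hq
    rw [Finset.sum_comm]
    have e3 : ∀ q' ∈ Q, ∑ p ∈ P, ∑ q'' ∈ Q,
        (if N p q ∧ N p q' ∧ N p q'' then (if big q q' q'' then (1 : ℝ) else 0) else 0) ≤
        (if cl q q' then (1 : ℝ) else 0) * (M * n) := by
      intro q' hq'
      rw [Finset.sum_comm]
      have e4 : ∀ q'' ∈ Q, ∑ p ∈ P,
          (if N p q ∧ N p q' ∧ N p q'' then (if big q q' q'' then (1 : ℝ) else 0) else 0) ≤
          (if cl q q' then (1 : ℝ) else 0) * ((if cl q q'' then (1 : ℝ) else 0) * M) := by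
        intro q'' hq''
        have hz : (0 : ℝ) ≤ (if cl q q' then (1 : ℝ) else 0) *
            ((if cl q q'' then (1 : ℝ) else 0) * M) := by
          refine mul_nonneg ?_ (mul_nonneg ?_ hM) <;> split_ifs <;> norm_num
        by_cases hbig : big q q' q''
        · simp only [if_pos hbig]
          by_cases hex : ∃ p ∈ P, N p q ∧ N p q' ∧ N p q''
          · obtain ⟨p, hp, h1, h2, h3⟩ := hex
            rw [if_pos (hcl p hp q hq q' hq' h1 h2), if_pos (hcl p hp q hq q'' hq'' h1 h3),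
              one_mul, one_mul, Finset.sum_boole]
            exact hT q hq q' hq' q'' hq'' hbig
          · rw [Finset.sum_eq_zero]
            · exact hz
            · intro p hp
              rw [if_neg (fun h => hex ⟨p, hp, h⟩)]
        · rw [Finset.sum_eq_zero]
          · exact hz
          · intro p _
            rw [if_neg hbig, ite_self]
      calc ∑ q'' ∈ Q, ∑ p ∈ P,
          (if N p q ∧ N p q' ∧ N p q'' then (if big q q' q'' then (1 : ℝ) else 0) else 0)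
          ≤ ∑ q'' ∈ Q, (if cl q q' then (1 : ℝ) else 0) *
              ((if cl q q'' then (1 : ℝ) else 0) * M) := Finset.sum_le_sum e4
        _ = (if cl q q' then (1 : ℝ) else 0) *
              ((∑ q'' ∈ Q, (if cl q q'' then (1 : ℝ) else 0)) * M) := by
            rw [← Finset.mul_sum, Finset.sum_mul]
        _ ≤ (if cl q q' then (1 : ℝ) else 0) * (M * n) := by
            refine mul_le_mul_of_nonneg_left ?_ (by split_ifs <;> norm_num)
            rw [Finset.sum_boole, mul_comm]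
            exact mul_le_mul_of_nonneg_left (hcn q hq) hM
    calc ∑ q' ∈ Q, ∑ p ∈ P, ∑ q'' ∈ Q,
        (if N p q ∧ N p q' ∧ N p q'' then (if big q q' q'' then (1 : ℝ) else 0) else 0)
        ≤ ∑ q' ∈ Q, (if cl q q' then (1 : ℝ) else 0) * (M * n) := Finset.sum_le_sum e3
      _ = (∑ q' ∈ Q, (if cl q q' then (1 : ℝ) else 0)) * (M * n) := by rw [Finset.sum_mul]
      _ ≤ n * (M * n) := by
          refine mul_le_mul_of_nonneg_right ?_ (mul_nonneg hM hn)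
          rw [Finset.sum_boole]
          exact hcn q hq
      _ = M * n ^ 2 := by ring
  calc ∑ q ∈ Q, ∑ p ∈ P, ∑ q' ∈ Q, ∑ q'' ∈ Q,
      (if N p q ∧ N p q' ∧ N p q'' then (if big q q' q'' then (1 : ℝ) else 0) else 0)
      ≤ ∑ q ∈ Q, M * n ^ 2 := Finset.sum_le_sum e2
    _ = M * (Q.card : ℝ) * n ^ 2 := by
        rw [Finset.sum_const, nsmul_eq_mul]
        ring

private theorem be_arith (x L s C A B : ℝ) (hC : 0 ≤ C) (hS : x ≤ 3 * L * s + B)
    (hB : B ≤ C * A) (p1 : 0 ≤ A) (p2 : 0 ≤ L * s) : x ≤ (C + 3) * (A + L * s) := by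
  have h1 : 0 ≤ C * (L * s) := mul_nonneg hC p2
  have e : (C + 3) * (A + L * s) = C * A + C * (L * s) + 3 * A + 3 * (L * s) := by ring
  rw [e]
  linarith

private theorem be_arith2 (C x y z : ℝ) (hC : 0 ≤ C) (p1 : 0 ≤ x) (p2 : 0 ≤ y)
    (h : z ≤ (4 * C + 2) * x + (2 * C + 2) * y) : z ≤ (6 * C + 4) * (x + y) := by
  have h1 : 0 ≤ C * x := mul_nonneg hC p1
  have h2 : 0 ≤ C * y := mul_nonneg hC p2
  have e : (6 * C + 4) * (x + y) = (4 * C + 2) * x + (2 * C + 2) * y + 2 * (C * x) + 2 * x +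
    4 * (C * y) + 2 * y := by ring
  rw [e]
  linarith

open scoped Classical in
/-- the cubic inequality -/
theorem three_cube : ∃ C c : ℝ, 0 < C ∧ 0 < c ∧ c ≤ 1 ∧ ∀ (φ τ t Λp Λq n : ℝ)
    (P Q : Finset (X 2)) (N : X 2 → X 2 → Prop), 0 < φ → φ ≤ c → 0 ≤ τ → τ ≤ c * φ ^ 12 * t →
    0 < t → 0 ≤ Λp → 0 ≤ Λq → 0 ≤ n →
    (∀ p ∈ P, ∀ q ∈ Q, N p q →
      t ≤ ‖p - q‖ ∧ ‖p - q‖ ≤ 10 * |(p - q).2.1| ∧ |ap (p - q)| ≤ τ) →
    (∀ p ∈ P, ∀ q ∈ Q, ∀ q' ∈ Q, N p q → N p q' → ‖q - q'‖ ≤ 4 * t) →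
    (∀ q ∈ Q, ((Q.filter (fun q' => ‖q - q'‖ ≤ 4 * t)).card : ℝ) ≤ n) →
    (∀ p ∈ P, ∀ q ∈ Q, N p q →
      ((Q.filter (fun q' => N p q' ∧ ‖om (p - q') - om (p - q)‖ ≤ φ)).card : ℝ) ≤ Λp) →
    (∀ p ∈ P, ∀ q ∈ Q, N p q →
      ((P.filter (fun p' => N p' q ∧ ‖om (p' - q) - om (p - q)‖ ≤ φ)).card : ℝ) ≤ Λq) →
    ∑ p ∈ P, ((Q.filter (fun q => N p q)).card : ℝ) ^ 3 ≤
      C * (φ ^ (-((3 : ℝ) / 2)) * Λq * (Q.card : ℝ) * n ^ 2 +
        Λp * ∑ p ∈ P, ((Q.filter (fun q => N p q)).card : ℝ) ^ 2) := by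
  obtain ⟨C, hC, hcc⟩ := conic_count
  obtain ⟨c1, c2, hc1, hc2, hdc⟩ := dir_close
  have hcpos : 0 < min 1 (min c2 (c1 / 20000)) := by positivity
  refine ⟨C + 3, min 1 (min c2 (c1 / 20000)), by positivity, hcpos, min_le_left _ _, ?_⟩
  intro φ τ t Λp Λq n P Q N hφ hφc hτ hτc ht hΛp hΛq hn hZ h4 hnn hPp hQq
  set c : ℝ := min 1 (min c2 (c1 / 20000)) with hc
  have hcc2 : c ≤ c2 := (min_le_right _ _).trans (min_le_left _ _)
  have hcc1 : c ≤ c1 / 20000 := (min_le_right _ _).trans (min_le_right _ _)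
  have hφ1 : φ ≤ 1 := hφc.trans (min_le_left _ _)
  -- the vector
  set v : X 2 → X 2 → X 2 → X 2 := fun q q' q'' =>
    qf (q'' - q) • (q' - q) - qf (q' - q) • (q'' - q) with hv
  set big : X 2 → X 2 → X 2 → Prop := fun q q' q'' => c1 * φ ^ 3 * t ^ 3 ≤ ‖v q q' q''‖ with hbig
  have hτ2 : τ ≤ c2 * φ ^ 2 * t := by
    refine hτc.trans ?_
    have h1 : φ ^ 12 ≤ φ ^ 2 := pow_le_pow_of_le_one hφ.le hφ1 (by norm_num)
    have h2 : c * φ ^ 12 ≤ c2 * φ ^ 2 := mul_le_mul hcc2 h1 (by positivity) hc2.le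
    exact mul_le_mul_of_nonneg_right h2 ht.le
  have hsub : ∀ p q q' : X 2, (p - q) - (p - q') = q' - q := by intro p q q'; abel
  -- pointwise
  have hP : ∀ p ∈ P, ((Q.filter (fun q => N p q)).card : ℝ) ^ 3 ≤
      3 * Λp * ((Q.filter (fun q => N p q)).card : ℝ) ^ 2 +
      ∑ q ∈ Q.filter (fun q => N p q), ∑ q' ∈ Q.filter (fun q => N p q),
        ∑ q'' ∈ Q.filter (fun q => N p q), (if big q q' q'' then (1 : ℝ) else 0) := by
    intro p hp
    refine be_cube_le (Q.filter (fun q => N p q)) (fun q q' => ‖om (p - q') - om (p - q)‖ ≤ φ)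
      big Λp ?_ ?_
    · intro q hq
      rw [Finset.mem_filter] at hq
      rw [Finset.filter_filter]
      exact hPp p hp q hq.1 hq.2
    · intro q hq q' hq' q'' hq''
      rw [Finset.mem_filter] at hq hq' hq''
      by_cases hb : big q q' q''
      · exact Or.inl hb
      · right
        have hb' : ‖v q q' q''‖ < c1 * φ ^ 3 * t ^ 3 := not_le.mp hb
        obtain ⟨a1, a2, a3⟩ := hZ p hp q hq.1 hq.2
        obtain ⟨b1, b2, b3⟩ := hZ p hp q' hq'.1 hq'.2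
        obtain ⟨d1, d2, d3⟩ := hZ p hp q'' hq''.1 hq''.2
        have key := hdc (p - q) (p - q') (p - q'') t τ φ ht hτ hφ hφ1 hτ2 a1 a2 a3 b1 b2 b3 d1 d2 d3
          (by rw [hsub, norm_sub_rev]; exact h4 p hp q hq.1 q' hq'.1 hq.2 hq'.2)
          (by rw [hsub, norm_sub_rev]; exact h4 p hp q hq.1 q'' hq''.1 hq.2 hq''.2)
          (by
            rw [hsub, norm_sub_rev]
            refine (h4 p hp q' hq'.1 q'' hq''.1 hq'.2 hq''.2).trans ?_
            linarith)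
          (by rw [hsub, hsub]; exact hb')
        rcases key with h | h | h
        · left; rw [norm_sub_rev]; exact h
        · right; left; rw [norm_sub_rev]; exact h
        · right; right; rw [norm_sub_rev]; exact h
  -- big triples
  have hM0 : 0 ≤ C * Real.sqrt φ / φ ^ 2 * Λq := by positivity
  have hB := be_big_le P Q N big (fun q q' => ‖q - q'‖ ≤ 4 * t) (C * Real.sqrt φ / φ ^ 2 * Λq) n
    hM0 hn h4 hnn (by
      intro q hq q' hq' q'' hq'' hb
      have hvpos : 0 < ‖v q q' q''‖ := lt_of_lt_of_le (by positivity) hb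
      refine hcc (v q q' q'') φ φ Λq _ (fun p => om (p - q)) (norm_pos_iff.mp hvpos) hφ le_rfl hφ1
        hΛq ?_ ?_ ?_
      · intro p hp
        rw [Finset.mem_filter] at hp
        exact norm_om (hZ p hp.1 q hq hp.2.1).2.1
      · intro p hp
        rw [Finset.mem_filter] at hp
        obtain ⟨hpP, hN, hN', hN''⟩ := hp
        obtain ⟨a1, a2, a3⟩ := hZ p hpP q hq hN
        obtain ⟨b1, b2, b3⟩ := hZ p hpP q' hq' hN'
        obtain ⟨d1, d2, d3⟩ := hZ p hpP q'' hq'' hN''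
        have n1 : (p - q').2.1 ≠ 0 := by
          intro h0
          rw [h0, abs_zero, mul_zero] at b2
          linarith
        have n2 : (p - q'').2.1 ≠ 0 := by
          intro h0
          rw [h0, abs_zero, mul_zero] at d2
          linarith
        have key := Av_small (Z := p - q) (Z' := p - q') (Z'' := p - q'') ht hτ a1 a2 n1 n2 a3 b3 d3
          (by rw [hsub, norm_sub_rev]; exact h4 p hpP q hq q' hq' hN hN')
          (by rw [hsub, norm_sub_rev]; exact h4 p hpP q hq q'' hq'' hN hN'')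
        rw [hsub, hsub] at key
        refine key.trans ?_
        calc 20000 * τ * t ^ 2 ≤ 20000 * (c1 / 20000 * φ ^ 12 * t) * t ^ 2 := by
              have : τ ≤ c1 / 20000 * φ ^ 12 * t := by
                refine hτc.trans ?_
                have := mul_le_mul_of_nonneg_right hcc1 (by positivity : 0 ≤ φ ^ 12 * t)
                nlinarith [this]
              gcongr
          _ = c1 * t ^ 3 * φ ^ 12 := by ring
          _ ≤ c1 * t ^ 3 * φ ^ 4 := by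
              have : φ ^ 12 ≤ φ ^ 4 := pow_le_pow_of_le_one hφ.le hφ1 (by norm_num)
              gcongr
          _ = φ * (c1 * φ ^ 3 * t ^ 3) := by ring
          _ ≤ φ * ‖v q q' q''‖ := mul_le_mul_of_nonneg_left hb hφ.le
      · intro p hp
        have hp' := hp
        rw [Finset.mem_filter] at hp'
        refine le_trans ?_ (hQq p hp'.1 q hq hp'.2.1)
        have : (P.filter (fun p => N p q ∧ N p q' ∧ N p q'')).filter
            (fun p' => ‖om (p' - q) - om (p - q)‖ ≤ φ) ⊆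
            P.filter (fun p' => N p' q ∧ ‖om (p' - q) - om (p - q)‖ ≤ φ) := by
          intro x hx
          rw [Finset.mem_filter, Finset.mem_filter] at hx
          rw [Finset.mem_filter]
          exact ⟨hx.1.1, hx.1.2.1, hx.2⟩
        exact_mod_cast Finset.card_le_card this)
  have hpw : Real.sqrt φ / φ ^ 2 = φ ^ (-((3 : ℝ) / 2)) := by
    rw [Real.sqrt_eq_rpow, ← Real.rpow_natCast φ 2, ← Real.rpow_sub hφ]
    norm_num
  have hS := Finset.sum_le_sum hP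
  rw [Finset.sum_add_distrib, ← Finset.mul_sum] at hS
  have hM1 : C * Real.sqrt φ / φ ^ 2 * Λq * (Q.card : ℝ) * n ^ 2 =
      C * (φ ^ (-((3 : ℝ) / 2)) * Λq * (Q.card : ℝ) * n ^ 2) := by
    rw [← hpw]; ring
  rw [hM1] at hB
  have p1 : 0 ≤ φ ^ (-((3 : ℝ) / 2)) * Λq * (Q.card : ℝ) * n ^ 2 := by positivity
  have p2 : 0 ≤ Λp * ∑ p ∈ P, ((Q.filter (fun q => N p q)).card : ℝ) ^ 2 :=
    mul_nonneg hΛp (Finset.sum_nonneg fun p _ => sq_nonneg _)
  exact be_arith _ _ _ C _ _ hC.le hS hB p1 p2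

open scoped Classical in
/-- boundary theorem three_count -/
theorem three_count' : ∃ C c : ℝ, 0 < C ∧ 0 < c ∧ ∀ (φ τ t Λp Λq n : ℝ) (P Q : Finset (X 2))
    (N : X 2 → X 2 → Prop), 0 < φ → φ ≤ c → 0 ≤ τ → τ ≤ c * φ ^ 12 * t → 0 < t →
    0 ≤ Λp → 0 ≤ Λq → 0 ≤ n →
    (∀ p ∈ P, ∀ q ∈ Q, N p q →
      t ≤ ‖p - q‖ ∧ ‖p - q‖ ≤ 10 * |(p - q).2.1| ∧ |ap (p - q)| ≤ τ) →
    (∀ p ∈ P, ∀ q ∈ Q, ∀ q' ∈ Q, N p q → N p q' → ‖q - q'‖ ≤ 4 * t) →
    (∀ q ∈ Q, ((Q.filter (fun q' => ‖q - q'‖ ≤ 4 * t)).card : ℝ) ≤ n) →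
    (∀ p ∈ P, ∀ q ∈ Q, N p q →
      ((Q.filter (fun q' => N p q' ∧ ‖om (p - q') - om (p - q)‖ ≤ φ)).card : ℝ) ≤ Λp) →
    (∀ p ∈ P, ∀ q ∈ Q, N p q →
      ((P.filter (fun p' => N p' q ∧ ‖om (p' - q) - om (p - q)‖ ≤ φ)).card : ℝ) ≤ Λq) →
    ∑ p ∈ P, ((Q.filter (fun q => N p q)).card : ℝ) ≤
      C * (Λp * (P.card : ℝ) + (P.card : ℝ) ^ ((2 : ℝ) / 3) *
        (φ ^ (-((3 : ℝ) / 2)) * Λq * (Q.card : ℝ) * n ^ 2) ^ ((1 : ℝ) / 3)) := by
  obtain ⟨C, c, hC, hc, hc1, h3⟩ := three_cube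
  refine ⟨6 * C + 4, c, by positivity, hc, ?_⟩
  intro φ τ t Λp Λq n P Q N hφ hφc hτ hτc ht hΛp hΛq hn hZ h4 hnn hPp hQq
  have h := h3 φ τ t Λp Λq n P Q N hφ hφc hτ hτc ht hΛp hΛq hn hZ h4 hnn hPp hQq
  have hA : 0 ≤ φ ^ (-((3 : ℝ) / 2)) * Λq * (Q.card : ℝ) * n ^ 2 := by positivity
  have key := cube_sum P (fun p => ((Q.filter (fun q => N p q)).card : ℝ)) C _ Λp
    (fun i _ => Nat.cast_nonneg _) hC.le hA hΛp h
  have p1 : 0 ≤ Λp * (P.card : ℝ) := by positivity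
  have p2 : 0 ≤ (P.card : ℝ) ^ ((2 : ℝ) / 3) *
        (φ ^ (-((3 : ℝ) / 2)) * Λq * (Q.card : ℝ) * n ^ 2) ^ ((1 : ℝ) / 3) := by positivity
  exact be_arith2 C _ _ _ hC.le p1 p2 key

end Pool.LibCA93
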