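import Pool.Agent.LibCA93.BC
import Pool.Agent.LibCA93.BD

/-
PLAN (BF, MEDIUM). D p := Q.filter (N p), d p := #(D p). SUM_p d^2 = number of (p; q,q'), both in D p. Pairs with ‖q-q'‖ <= ρ t: for fixed p and q at most n: n SUM d. Pairs with ‖q-q'‖ > ρ t: for fixed (q,q') (at most #Q^2) T := {p in P : N p q, N p q'}, g p := om (p - q),
v := q' - q = (p-q) - (p-q'): |Av (g p) v| <= 200 (t^2/R0 + τ) <= η ρ t <= η ‖v‖ (Av_two, C0 = 200): conic_count: #T <= C sqrt η/φ^2 Λq. So SUM d^2 <= n SUM d + C φ^(-2) η^(1/2) Λq #Q^2; square_sum.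
-/

set_option autoImplicit false

noncomputable section

open MeasureTheory Metric Set Filter

namespace Pool.LibCA93

open Pool.LibSR53 Pool.LibST49

open scoped Classical in
/-- boundary theorem two_count -/
theorem two_count' : ∃ C C0 : ℝ, 0 < C ∧ 0 < C0 ∧ ∀ (φ η ρ τ t R0 Λq n : ℝ)
    (P Q : Finset (X 2)) (N : X 2 → X 2 → Prop), 0 < φ → φ ≤ η → η ≤ 1 → 0 < ρ → 0 ≤ τ →
    0 < t → t ≤ R0 → C0 * (t ^ 2 / R0 + τ) ≤ η * ρ * t → 0 ≤ Λq → 0 ≤ n →
    (∀ p ∈ P, ∀ q ∈ Q, N p q →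
      R0 ≤ ‖p - q‖ ∧ ‖p - q‖ ≤ 10 * |(p - q).2.1| ∧ |ap (p - q)| ≤ τ) →
    (∀ q ∈ Q, ∀ q' ∈ Q, ‖q - q'‖ ≤ 4 * t) →
    (∀ q ∈ Q, ((Q.filter (fun q' => ‖q - q'‖ ≤ ρ * t)).card : ℝ) ≤ n) →
    (∀ p ∈ P, ∀ q ∈ Q, N p q →
      ((P.filter (fun p' => N p' q ∧ ‖om (p' - q) - om (p - q)‖ ≤ φ)).card : ℝ) ≤ Λq) →
    ∑ p ∈ P, ((Q.filter (fun q => N p q)).card : ℝ) ≤
      C * ((P.card : ℝ) * n + (P.card : ℝ) ^ ((1 : ℝ) / 2) * (Q.card : ℝ) *
        (φ ^ (-(2 : ℝ)) * η ^ ((1 : ℝ) / 2) * Λq) ^ ((1 : ℝ) / 2)) := by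
  obtain ⟨Cc, hCc, hconic⟩ := conic_count
  refine ⟨1 + Cc ^ ((1 : ℝ) / 2), 200, by positivity, by norm_num, ?_⟩
  intro φ η ρ τ t R0 Λq n P Q N hφ hφη hη1 hρ hτ ht htR hC0 hΛ hn hN hQ hnear hcell
  have hη : 0 < η := lt_of_lt_of_le hφ hφη
  have hR0 : 0 < R0 := lt_of_lt_of_le ht htR
  set d : X 2 → ℝ := fun p => ((Q.filter (fun q => N p q)).card : ℝ) with hd
  -- the bound for pairs
  set K : ℝ := Cc * Real.sqrt η / φ ^ 2 * Λq with hK
  have hK0 : 0 ≤ K := by
    rw [hK]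
    positivity
  have hsq : ∀ p ∈ P, d p ^ 2 ≤ n * d p +
      ∑ q ∈ Q, ∑ q' ∈ Q, (if N p q ∧ N p q' ∧ ρ * t < ‖q - q'‖ then (1 : ℝ) else 0) := by
    intro p hp
    have e1 : d p = ∑ q ∈ Q, (if N p q then (1 : ℝ) else 0) := by
      rw [hd]
      simp only [Finset.sum_boole]
    have e2 : d p ^ 2 = ∑ q ∈ Q, ∑ q' ∈ Q,
        (if N p q then (1 : ℝ) else 0) * (if N p q' then (1 : ℝ) else 0) := by
      rw [sq, e1, Finset.sum_mul_sum]
    rw [e2]
    have e3 : ∀ q ∈ Q, ∑ q' ∈ Q, (if N p q then (1 : ℝ) else 0) * (if N p q' then (1 : ℝ) else 0) ≤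
        (if N p q then (1 : ℝ) else 0) * n +
        ∑ q' ∈ Q, (if N p q ∧ N p q' ∧ ρ * t < ‖q - q'‖ then (1 : ℝ) else 0) := by
      intro q hq
      by_cases h1 : N p q
      · simp only [h1, if_true, one_mul, true_and]
        have h2 : ∑ q' ∈ Q, (if N p q' then (1 : ℝ) else 0) ≤
            ∑ q' ∈ Q, ((if ‖q - q'‖ ≤ ρ * t then (1 : ℝ) else 0) +
              (if N p q' ∧ ρ * t < ‖q - q'‖ then (1 : ℝ) else 0)) := by
          apply Finset.sum_le_sum
          intro q' _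
          by_cases h3 : N p q'
          · rcases le_or_gt ‖q - q'‖ (ρ * t) with h4 | h4
            · simp only [h3, if_true, h4]
              split_ifs <;> norm_num
            · simp only [h3, if_true, h4, true_and]
              split_ifs <;> norm_num
          · simp only [h3, if_false, false_and]
            split_ifs <;> norm_num
        refine h2.trans ?_
        rw [Finset.sum_add_distrib]
        have h5 := hnear q hq
        rw [← Finset.sum_boole] at h5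
        linarith
      · simp only [h1, if_false, zero_mul, false_and, Finset.sum_const_zero]
        norm_num
    refine (Finset.sum_le_sum e3).trans ?_
    rw [Finset.sum_add_distrib, ← Finset.sum_mul, ← e1]
    linarith [mul_comm n (d p)]
  have hpairs : ∀ q ∈ Q, ∀ q' ∈ Q,
      ∑ p ∈ P, (if N p q ∧ N p q' ∧ ρ * t < ‖q - q'‖ then (1 : ℝ) else 0) ≤ K := by
    intro q hq q' hq'
    by_cases hfar : ρ * t < ‖q - q'‖
    · simp only [hfar, and_true]
      rw [Finset.sum_boole]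
      have hv : q' - q ≠ 0 := by
        intro h0
        rw [← norm_eq_zero, norm_sub_rev] at h0
        have : 0 < ρ * t := by positivity
        linarith
      have hvn : ρ * t < ‖q' - q‖ := by
        rw [norm_sub_rev]
        exact hfar
      refine hconic (q' - q) φ η Λq (P.filter (fun p => N p q ∧ N p q')) (fun p => om (p - q))
        hv hφ hφη hη1 hΛ ?_ ?_ ?_
      · intro p hp
        rw [Finset.mem_filter] at hp
        exact norm_om (hN p hp.1 q hq hp.2.1).2.1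
      · intro p hp
        rw [Finset.mem_filter] at hp
        obtain ⟨a1, a2, a3⟩ := hN p hp.1 q hq hp.2.1
        obtain ⟨b1, b2, b3⟩ := hN p hp.1 q' hq' hp.2.2
        have hs' : (p - q').2.1 ≠ 0 := by
          intro h0
          rw [h0, abs_zero, mul_zero] at b2
          linarith
        have hdiff : (p - q) - (p - q') = q' - q := by abel
        have hdd : ‖(p - q) - (p - q')‖ ≤ 4 * t := by
          rw [hdiff]
          exact hQ q' hq' q hq
        have key := Av_two (Z := p - q) (Z' := p - q') (t := t) (τ := τ) (R := R0) ht hτ htR a1 a2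
          hs' a3 b3 hdd
        rw [hdiff] at key
        have h6 : η * ρ * t ≤ η * ‖q' - q‖ := by
          have := mul_le_mul_of_nonneg_left hvn.le hη.le
          linarith
        linarith
      · intro p hp
        have hp' := hp
        rw [Finset.mem_filter] at hp'
        refine le_trans ?_ (hcell p hp'.1 q hq hp'.2.1)
        have h7 : (P.filter (fun p => N p q ∧ N p q')).filter
            (fun p' => ‖om (p' - q) - om (p - q)‖ ≤ φ) ⊆
            P.filter (fun p' => N p' q ∧ ‖om (p' - q) - om (p - q)‖ ≤ φ) := by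
          intro x hx
          rw [Finset.mem_filter, Finset.mem_filter] at hx
          rw [Finset.mem_filter]
          exact ⟨hx.1.1, hx.1.2.1, hx.2⟩
        exact_mod_cast Finset.card_le_card h7
    · simp only [hfar, and_false, if_false, Finset.sum_const_zero]
      exact hK0
  have hmain : ∑ p ∈ P, d p ^ 2 ≤ n * ∑ p ∈ P, d p + K * (Q.card : ℝ) ^ 2 := by
    refine (Finset.sum_le_sum hsq).trans ?_
    rw [Finset.sum_add_distrib, ← Finset.mul_sum]
    have h8 : ∑ p ∈ P, ∑ q ∈ Q, ∑ q' ∈ Q,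
        (if N p q ∧ N p q' ∧ ρ * t < ‖q - q'‖ then (1 : ℝ) else 0) ≤ K * (Q.card : ℝ) ^ 2 := by
      rw [Finset.sum_comm]
      have h9 : ∀ q ∈ Q, ∑ p ∈ P, ∑ q' ∈ Q,
          (if N p q ∧ N p q' ∧ ρ * t < ‖q - q'‖ then (1 : ℝ) else 0) ≤ K * (Q.card : ℝ) := by
        intro q hq
        rw [Finset.sum_comm]
        refine (Finset.sum_le_sum (fun q' hq' => hpairs q hq q' hq')).trans (le_of_eq ?_)
        rw [Finset.sum_const, nsmul_eq_mul]
        ring
      refine (Finset.sum_le_sum h9).trans (le_of_eq ?_)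
      rw [Finset.sum_const, nsmul_eq_mul]
      ring
    linarith
  have hfin := square_sum P d n (K * (Q.card : ℝ) ^ 2) (fun i _ => by positivity) hn
    (by positivity) hmain
  refine hfin.trans ?_
  have hφ2 : φ ^ (-(2 : ℝ)) = 1 / φ ^ 2 := by
    rw [Real.rpow_neg hφ.le, one_div]
    congr 1
    exact_mod_cast Real.rpow_natCast φ 2
  have hKe : K = Cc * (φ ^ (-(2 : ℝ)) * η ^ ((1 : ℝ) / 2) * Λq) := by
    rw [hK, hφ2, Real.sqrt_eq_rpow]
    ring
  set A : ℝ := φ ^ (-(2 : ℝ)) * η ^ ((1 : ℝ) / 2) * Λq with hA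
  have hA0 : 0 ≤ A := by
    rw [hA]
    positivity
  have hP0 : (0 : ℝ) ≤ (P.card : ℝ) := by positivity
  have hQ0 : (0 : ℝ) ≤ (Q.card : ℝ) := by positivity
  have e5 : ((P.card : ℝ) * (K * (Q.card : ℝ) ^ 2)) ^ ((1 : ℝ) / 2) =
      Cc ^ ((1 : ℝ) / 2) * ((P.card : ℝ) ^ ((1 : ℝ) / 2) * (Q.card : ℝ) * A ^ ((1 : ℝ) / 2)) := by
    rw [hKe, Real.mul_rpow hP0 (by positivity), Real.mul_rpow (by positivity) (by positivity),
      Real.mul_rpow hCc.le hA0]
    have e6 : ((Q.card : ℝ) ^ 2) ^ ((1 : ℝ) / 2) = (Q.card : ℝ) := by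
      rw [← Real.sqrt_eq_rpow, Real.sqrt_sq hQ0]
    rw [e6]
    ring
  rw [e5]
  have g1 : 0 ≤ (P.card : ℝ) * n := by positivity
  have g2 : 0 ≤ (P.card : ℝ) ^ ((1 : ℝ) / 2) * (Q.card : ℝ) * A ^ ((1 : ℝ) / 2) := by positivity
  have g3 : 0 ≤ Cc ^ ((1 : ℝ) / 2) := by positivity
  nlinarith [mul_nonneg g3 g1]

end Pool.LibCA93
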