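import Pool.Agent.LibCA93.BE
import Pool.Agent.LibCA93.BF

/-
BOUNDARY B (counting, abstract). Relation N between finite sets P and Q of points, N p q implies p - q almost null. Page CAUSTIC (6), (7).
-/

set_option autoImplicit false

noncomputable section

open MeasureTheory Metric Set Filter

namespace Pool.LibCA93

open Pool.LibSR53 Pool.LibST49

open scoped Classical in
theorem three_count : ∃ C c : ℝ, 0 < C ∧ 0 < c ∧ ∀ (φ τ t Λp Λq n : ℝ) (P Q : Finset (X 2))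
    (N : X 2 → X 2 → Prop), 0 < φ → φ ≤ c → 0 ≤ τ → τ ≤ c * φ ^ 12 * t → 0 < t →
    0 ≤ Λp → 0 ≤ Λq → 0 ≤ n →
    (∀ p ∈ P, ∀ q ∈ Q, N p q →
      t ≤ ‖p - q‖ ∧ ‖p - q‖ ≤ 10 * |(p - q).2.1| ∧ |ap (p - q)| ≤ τ) →
    (∀ p ∈ P, ∀ q ∈ Q, ∀ q' ∈ Q, N p q → N p q' → ‖q - q'‖ ≤ 4 * t) →
    (∀ q ∈ Q, ((Q.filter (fun q' => ‖q - q'‖ ≤ 4 * t)).card : ℝ) ≤ n) →
    (∀ p ∈ P, ∀ q ∈ Q, N p q →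
      ((Q.filter (fun q' => N p q' ∧ ‖om (p - q') - om (p - q)‖ ≤ φ)).card : ℝ) ≤ Λp) →
    (∀ p ∈ P, ∀ q ∈ Q, N p q →
      ((P.filter (fun p' => N p' q ∧ ‖om (p' - q) - om (p - q)‖ ≤ φ)).card : ℝ) ≤ Λq) →
    ∑ p ∈ P, ((Q.filter (fun q => N p q)).card : ℝ) ≤
      C * (Λp * (P.card : ℝ) + (P.card : ℝ) ^ ((2 : ℝ) / 3) *
        (φ ^ (-((3 : ℝ) / 2)) * Λq * (Q.card : ℝ) * n ^ 2) ^ ((1 : ℝ) / 3)) :=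
  three_count'

open scoped Classical in
theorem two_count : ∃ C C0 : ℝ, 0 < C ∧ 0 < C0 ∧ ∀ (φ η ρ τ t R0 Λq n : ℝ)
    (P Q : Finset (X 2)) (N : X 2 → X 2 → Prop), 0 < φ → φ ≤ η → η ≤ 1 → 0 < ρ → 0 ≤ τ →
    0 < t → t ≤ R0 → C0 * (t ^ 2 / R0 + τ) ≤ η * ρ * t → 0 ≤ Λq → 0 ≤ n →
    (∀ p ∈ P, ∀ q ∈ Q, N p q →
      R0 ≤ ‖p - q‖ ∧ ‖p - q‖ ≤ 10 * |(p - q).2.1| ∧ |ap (p - q)| ≤ τ) →
    (∀ q ∈ Q, ∀ q' ∈ Q, ‖q - q'‖ ≤ 4 * t) →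
    (∀ q ∈ Q, ((Q.filter (fun q' => ‖q - q'‖ ≤ ρ * t)).card : ℝ) ≤ n) →
    (∀ p ∈ P, ∀ q ∈ Q, N p q →
      ((P.filter (fun p' => N p' q ∧ ‖om (p' - q) - om (p - q)‖ ≤ φ)).card : ℝ) ≤ Λq) →
    ∑ p ∈ P, ((Q.filter (fun q => N p q)).card : ℝ) ≤
      C * ((P.card : ℝ) * n + (P.card : ℝ) ^ ((1 : ℝ) / 2) * (Q.card : ℝ) *
        (φ ^ (-(2 : ℝ)) * η ^ ((1 : ℝ) / 2) * Λq) ^ ((1 : ℝ) / 2)) :=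
  two_count'

end Pool.LibCA93
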