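import Pool.Agent.LibCA93.CG3

/-
PLAN (CG4, MEDIUM). PB_sum: exchange the sums: number of pairs (c, p), p in PB c. For fixed p (kp p =: l >= k+3) choose for every c with p in PB c a point z_c of scX k S in the cube c with ee (p - z_c) <= 2^(k+6). The z_c lie in different
cubes of side 2^k (k - 2 kap >= 0 because scX k S nonempty implies k >= 40300 ν), so a ball of radius 2^k (norm of X 2) contains at most 3^4 of them; take a maximal 2^k-separated subset (exists_sep_C2 of LibSR53.C2, in P 3 via un).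
sep_shell: as the second half of count_shell (LibSR53.C2, annulus_volume and vol_ball_C2 with d = 3): for p in T': |‖p.1-q.1‖ - q.2| <= 2^(k+j). With q = un p, z = un z_c: |‖y_p - y_z‖ - r_p| <= ee + r_z <= 2^(k+6) + 2^(k+1), j = 7.
-/

set_option autoImplicit false

noncomputable section

open MeasureTheory Metric Set Filter

namespace Pool.LibCA93

open Pool.LibSR53 Pool.LibST49

/-- number of separated points near a sphere -/
theorem sep_shell : ∃ C : ℝ, 0 < C ∧ ∀ (k l j : ℕ), k ≤ l → ∀ q : P 3, 0 ≤ q.2 →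
    q.2 ≤ 2 ^ (l + 1) → ∀ T : Finset (P 3), (∀ a ∈ T, (2 : ℝ) ^ k ≤ a.2 ∧ a.2 < 2 ^ (k + 1)) →
    (∀ a ∈ T, ∀ b ∈ T, a ≠ b → (2 : ℝ) ^ k ≤ dist a b) →
    (∀ a ∈ T, |‖a.1 - q.1‖ - q.2| ≤ 2 ^ (k + j)) →
    (T.card : ℝ) * 2 ^ (2 * k) ≤ C * 2 ^ (3 * j) * 2 ^ (2 * l) := by
  obtain ⟨C, hC, hann⟩ := annulus_volume 3 (by norm_num)
  have hc := c0_pos_C2 3
  refine ⟨C / c0_C2 3 * 256, by positivity, ?_⟩
  intro k l j hkl q hq0 hq T hsc hsep hTq
  have hdist : ∀ a ∈ T, ∀ b ∈ T, a ≠ b → (2 : ℝ) ^ k ≤ dist a.1 b.1 := by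
    intro a ha b hb hab
    have h2 := hsep a ha b hb hab
    rw [Prod.dist_eq, le_max_iff] at h2
    rcases h2 with h2 | h2
    · exact h2
    · exfalso
      have h3 := hsc a ha
      have h4 := hsc b hb
      rw [Real.dist_eq] at h2
      have h5 : |a.2 - b.2| < 2 ^ k := by
        rw [abs_lt]
        rw [pow_succ] at h3 h4
        constructor <;> linarith [h3.1, h3.2, h4.1, h4.2]
      linarith
  have hr : (0 : ℝ) ≤ 2 ^ k / 2 := by positivity
  have h2 : (T.card : ℝ) * ((2 ^ k / 2) ^ 3 * c0_C2 3) ≤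
      C * (q.2 + 2 ^ (k + j + 1)) ^ 2 * 2 ^ (k + j + 1) := by
    have h3 : volume (⋃ a ∈ T, ball a.1 ((2 : ℝ) ^ k / 2)) =
        ∑ a ∈ T, volume (ball a.1 ((2 : ℝ) ^ k / 2)) := by
      apply measure_biUnion_finset
      · intro a ha b hb hab
        apply ball_disjoint_ball
        rw [add_halves]
        exact hdist a ha b hb hab
      · intro a _
        exact measurableSet_ball
    have h4 : (⋃ a ∈ T, ball a.1 ((2 : ℝ) ^ k / 2)) ⊆
        {x : E 3 | |‖x - q.1‖ - q.2| ≤ 2 ^ (k + j + 1)} := by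
      intro x hx
      rw [mem_iUnion₂] at hx
      obtain ⟨a, ha, hxa⟩ := hx
      rw [mem_ball, dist_eq_norm] at hxa
      have h5 := hTq a ha
      have h6 : |‖x - q.1‖ - ‖a.1 - q.1‖| ≤ ‖x - a.1‖ := by
        have := abs_norm_sub_norm_le (x - q.1) (a.1 - q.1)
        rwa [sub_sub_sub_cancel_right] at this
      have h7 : (2 : ℝ) ^ k / 2 ≤ 2 ^ (k + j) := by
        have : (2 : ℝ) ^ k ≤ 2 ^ (k + j) := pow_le_pow_right₀ (by norm_num) (by omega)
        have h8 : (0 : ℝ) < 2 ^ k := by positivity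
        linarith
      show |‖x - q.1‖ - q.2| ≤ 2 ^ (k + j + 1)
      calc |‖x - q.1‖ - q.2| = |(‖x - q.1‖ - ‖a.1 - q.1‖) + (‖a.1 - q.1‖ - q.2)| := by ring_nf
        _ ≤ |‖x - q.1‖ - ‖a.1 - q.1‖| + |‖a.1 - q.1‖ - q.2| := abs_add_le _ _
        _ ≤ 2 ^ (k + j) + 2 ^ (k + j) := by linarith
        _ = 2 ^ (k + j + 1) := by ring
    have h5 := (measure_mono h4).trans (hann q.1 q.2 (2 ^ (k + j + 1)) hq0 (by positivity))
    rw [h3] at h5
    have h6 : ∀ a ∈ T, volume (ball a.1 ((2 : ℝ) ^ k / 2)) =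
        ENNReal.ofReal ((2 ^ k / 2) ^ 3 * c0_C2 3) :=
      fun a _ => vol_ball_C2 3 a.1 hr (by norm_num)
    rw [Finset.sum_congr rfl h6, Finset.sum_const, ← ENNReal.ofReal_nsmul,
      ENNReal.ofReal_le_ofReal_iff (by positivity), nsmul_eq_mul] at h5
    exact h5
  have h3 : q.2 + 2 ^ (k + j + 1) ≤ 2 ^ (l + j + 2) := by
    have h4 : (2 : ℝ) ^ (l + 1) ≤ 2 ^ (l + j + 1) := pow_le_pow_right₀ (by norm_num) (by omega)
    have h5 : (2 : ℝ) ^ (k + j + 1) ≤ 2 ^ (l + j + 1) :=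
      pow_le_pow_right₀ (by norm_num) (by omega)
    have h6 : (2 : ℝ) ^ (l + j + 2) = 2 ^ (l + j + 1) + 2 ^ (l + j + 1) := by ring
    linarith
  have h4 : (T.card : ℝ) * ((2 ^ k / 2) ^ 3 * c0_C2 3) ≤
      C * (2 ^ (l + j + 2)) ^ 2 * 2 ^ (k + j + 1) := by
    refine h2.trans ?_
    apply mul_le_mul_of_nonneg_right _ (by positivity)
    apply mul_le_mul_of_nonneg_left _ hC.le
    exact pow_le_pow_left₀ (by positivity) h3 _
  have h6 : (0 : ℝ) < (2 ^ k / 2) ^ 3 * c0_C2 3 := by positivity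
  rw [← le_div_iff₀ h6] at h4
  have e1 : ((2 : ℝ) ^ k / 2) ^ 3 = 2 ^ (2 * k) * 2 ^ k / 8 := by
    rw [div_pow, ← pow_mul, ← pow_add]
    congr 2
    · ring
    · norm_num
  have e2 : ((2 : ℝ) ^ (l + j + 2)) ^ 2 = 2 ^ (2 * l) * 2 ^ (2 * j) * 16 := by
    rw [← pow_mul, ← pow_add, show (16 : ℝ) = 2 ^ 4 by norm_num, ← pow_add]
    congr 1
    ring
  have e3 : (2 : ℝ) ^ (k + j + 1) = 2 ^ k * 2 ^ j * 2 := by
    rw [pow_succ, pow_add]
  have e4 : (2 : ℝ) ^ (3 * j) = 2 ^ (2 * j) * 2 ^ j := by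
    rw [← pow_add]; congr 1; ring
  calc (T.card : ℝ) * 2 ^ (2 * k) ≤ (C * (2 ^ (l + j + 2)) ^ 2 * 2 ^ (k + j + 1) /
        ((2 ^ k / 2) ^ 3 * c0_C2 3)) * 2 ^ (2 * k) :=
        mul_le_mul_of_nonneg_right h4 (by positivity)
    _ = C / c0_C2 3 * 256 * 2 ^ (3 * j) * 2 ^ (2 * l) := by
        rw [e1, e2, e3, e4]
        field_simp
        ring

private theorem cg4_ny (z p : X 2) : ‖(un z).1 - (un p).1‖ = ny (p - z) := by
  unfold un ny
  rw [EuclideanSpace.norm_eq, EuclideanSpace.norm_sq_eq]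
  congr 1
  simp [Fin.sum_univ_succ]
  ring

private theorem cg4_crd {z z' : X 2} {h : ℝ} (h1 : dist (un z) (un z') < h) (i : Fin 4) :
    |crd z i - crd z' i| < h := by
  rw [Prod.dist_eq, max_lt_iff] at h1
  obtain ⟨h2, h3⟩ := h1
  rw [dist_eq_norm] at h2
  have h4 : ∀ i : Fin 3, |(un z).1 i - (un z').1 i| < h := by
    intro i
    have h5 := PiLp.norm_apply_le ((un z).1 - (un z').1) i
    rw [PiLp.sub_apply, Real.norm_eq_abs] at h5
    exact h5.trans_lt h2
  have h5 := h4 0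
  have h6 := h4 1
  have h7 := h4 2
  rw [Real.dist_eq] at h3
  simp only [un, crd] at *
  simp at h5 h6 h7
  rw [abs_lt] at h5 h6 h7 h3 ⊢
  fin_cases i
  · simp
    constructor <;> linarith [h5.1, h5.2]
  · simp
    constructor <;> linarith [h6.1, h6.2]
  · simp
    constructor <;> linarith [h7.1, h7.2, h3.1, h3.2]
  · simp
    constructor <;> linarith [h7.1, h7.2, h3.1, h3.2]

private theorem cg4_div {n n' v N : ℤ} (hN : 0 < N) (h : n ≤ n' + N) :
    (n + v) / N ≤ (n' + v) / N + 1 := by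
  have h1 : (n + v) / N ≤ ((n' + v) + 1 * N) / N := Int.ediv_le_ediv hN (by linarith)
  rw [Int.add_mul_ediv_right _ _ hN.ne'] at h1
  exact h1

private theorem cg4_idx {ν k : ℕ} (hk : 40000 * ν ≤ k) {z z' : X 2} (i : Fin 4)
    (h : |crd z i - crd z' i| < 2 ^ k) : bi ν z i ≤ bi ν z' i + 2 ^ (k - 2 * kap ν) := by
  have h4 : (0 : ℝ) < 4 ^ kap ν := by positivity
  have h5 : (2 : ℝ) ^ k = 4 ^ kap ν * 2 ^ (k - 2 * kap ν) := by
    rw [show (4 : ℝ) = 2 ^ 2 by norm_num, ← pow_mul, ← pow_add]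
    congr 1
    unfold kap
    omega
  have h6 : crd z i / 4 ^ kap ν < crd z' i / 4 ^ kap ν + 2 ^ (k - 2 * kap ν) := by
    rw [div_add' _ _ _ h4.ne', div_lt_div_iff_of_pos_right h4]
    have := (abs_lt.1 h).2
    rw [h5] at this
    linarith
  have h7 : (bi ν z i : ℝ) ≤ crd z i / 4 ^ kap ν := Int.floor_le _
  have h8 : crd z' i / 4 ^ kap ν < (bi ν z' i : ℝ) + 1 := Int.lt_floor_add_one _
  have h9 : (bi ν z i : ℝ) < bi ν z' i + 2 ^ (k - 2 * kap ν) + 1 := by linarith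
  have h10 : bi ν z i < bi ν z' i + 2 ^ (k - 2 * kap ν) + 1 := by exact_mod_cast h9
  omega

open scoped Classical in
/-- number of cubes of a family of points with one point of T for each class -/
private theorem cg4_mult {ν k : ℕ} (hk : 40000 * ν ≤ k) (v : Fin 4 → ℤ)
    (I : Finset (ℕ × (Fin 4 → ℤ))) (f : ℕ × (Fin 4 → ℤ) → X 2)
    (hf : ∀ c ∈ I, grd v (k - 2 * kap ν) (blk ν (f c)) = c) (hkp : ∀ c ∈ I, kp (f c) = k)
    (a : ℕ × (Fin 4 → ℤ)) (ha : a ∈ I) :
    (I.filter (fun c => dist (un (f c)) (un (f a)) < 2 ^ k)).card ≤ 81 := by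
  have h1 : (I.filter (fun c => dist (un (f c)) (un (f a)) < 2 ^ k)).card ≤
      (Fintype.piFinset (fun i : Fin 4 => Finset.Icc (a.2 i - 1) (a.2 i + 1))).card := by
    apply Finset.card_le_card_of_injOn (fun c => c.2)
    · intro c hc
      rw [Finset.mem_coe, Finset.mem_filter] at hc
      rw [Finset.mem_coe, Fintype.mem_piFinset]
      intro i
      rw [Finset.mem_Icc]
      have h2 := cg4_crd hc.2 i
      have h3 : |crd (f a) i - crd (f c) i| < 2 ^ k := by rw [abs_sub_comm]; exact h2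
      have h4 := cg4_idx hk i h2
      have h5 := cg4_idx hk i h3
      have hN : (0 : ℤ) < 2 ^ (k - 2 * kap ν) := by positivity
      have h6 := cg4_div (v := v i) hN h4
      have h7 := cg4_div (v := v i) hN h5
      have h8 : c.2 i = (bi ν (f c) i + v i) / 2 ^ (k - 2 * kap ν) := by
        conv_lhs => rw [← hf c hc.1]
        rfl
      have h9 : a.2 i = (bi ν (f a) i + v i) / 2 ^ (k - 2 * kap ν) := by
        conv_lhs => rw [← hf a ha]
        rfl
      dsimp only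
      rw [h8, h9]
      omega
    · intro c hc c' hc' hcc
      rw [Finset.mem_coe, Finset.mem_filter] at hc hc'
      have h2 : c.1 = k := by
        rw [← hf c hc.1]
        exact hkp c hc.1
      have h3 : c'.1 = k := by
        rw [← hf c' hc'.1]
        exact hkp c' hc'.1
      exact Prod.ext (h2.trans h3.symm) hcc
  refine h1.trans ?_
  rw [Fintype.card_piFinset]
  have h2 : ∀ i : Fin 4, (Finset.Icc (a.2 i - 1) (a.2 i + 1)).card = 3 := by
    intro i
    rw [Int.card_Icc]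
    have : a.2 i + 1 + 1 - (a.2 i - 1) = 3 := by ring
    rw [this]
    rfl
  rw [Finset.prod_congr rfl (fun i _ => h2 i)]
  simp

open scoped Classical in
/-- the number of cubes whose PB contains a given point -/
private theorem cg4_row : ∃ C : ℝ, 0 < C ∧ ∀ (ν : ℕ) (u : ℝ) (S : Finset (X 2)) (v : Fin 4 → ℤ)
    (J : ℕ), Cf ν u S v J → ∀ (k : ℕ) (p : X 2), p ∈ S → k + 3 ≤ kp p →
    ∀ I : Finset (ℕ × (Fin 4 → ℤ)),
    (∀ c ∈ I, ∃ z ∈ scX k S, grd v (k - 2 * kap ν) (blk ν z) = c ∧ ee (p - z) ≤ 2 ^ (k + 6)) →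
    (I.card : ℝ) * 2 ^ (2 * k) ≤ C * 2 ^ (2 * kp p) := by
  obtain ⟨C, hC, hsh⟩ := sep_shell
  refine ⟨81 * (C * 2 ^ (3 * 7)), by positivity, ?_⟩
  intro ν u S v J hCf k p hp hkp I hI
  rcases I.eq_empty_or_nonempty with rfl | hne
  · rw [Finset.card_empty, Nat.cast_zero, zero_mul]
    positivity
  have hf' : ∀ c : ℕ × (Fin 4 → ℤ), ∃ z : X 2, c ∈ I → z ∈ scX k S ∧
      grd v (k - 2 * kap ν) (blk ν z) = c ∧ ee (p - z) ≤ 2 ^ (k + 6) := by
    intro c
    by_cases hc : c ∈ I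
    · obtain ⟨z, h1, h2, h3⟩ := hI c hc
      exact ⟨z, fun _ => ⟨h1, h2, h3⟩⟩
    · exact ⟨0, fun h => absurd h hc⟩
  choose f hf using hf'
  have hS : ∀ c ∈ I, f c ∈ S ∧ kp (f c) = k := by
    intro c hc
    have h1 := (hf c hc).1
    unfold scX at h1
    rw [Finset.mem_filter] at h1
    exact h1
  have hk : 40000 * ν ≤ k := by
    obtain ⟨c, hc⟩ := hne
    have h1 := kp_ge hCf (hS c hc).1
    rw [(hS c hc).2] at h1
    omega
  obtain ⟨T', hT', hsep, hcov⟩ := exists_sep_C2 (I.image (fun c => un (f c)))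
    (h := (2 : ℝ) ^ k) (by positivity)
  have hcard : I.card ≤ T'.card * 81 := by
    have h1 : I ⊆ T'.biUnion (fun t => I.filter (fun c => dist (un (f c)) t < 2 ^ k)) := by
      intro c hc
      obtain ⟨t, ht, htc⟩ := hcov (un (f c)) (Finset.mem_image_of_mem _ hc)
      rw [Finset.mem_biUnion]
      exact ⟨t, ht, Finset.mem_filter.2 ⟨hc, htc⟩⟩
    refine (Finset.card_le_card h1).trans (Finset.card_biUnion_le_card_mul _ _ _ ?_)
    intro t ht
    obtain ⟨a, ha, rfl⟩ := Finset.mem_image.1 (hT' ht)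
    exact cg4_mult hk v I f (fun c hc => (hf c hc).2.1) (fun c hc => (hS c hc).2) a ha
  have hpr := kp_spec (one_le_rad hCf hp)
  have hsc : ∀ a ∈ T', (2 : ℝ) ^ k ≤ a.2 ∧ a.2 < 2 ^ (k + 1) := by
    intro a ha
    obtain ⟨c, hc, rfl⟩ := Finset.mem_image.1 (hT' ha)
    have h1 := kp_spec (one_le_rad hCf (hS c hc).1)
    rw [(hS c hc).2] at h1
    exact h1
  have hq0 : (0 : ℝ) ≤ (un p).2 := by
    have : (0 : ℝ) ≤ rad p := zero_le_one.trans (one_le_rad hCf hp)
    exact this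
  have hT : (T'.card : ℝ) * 2 ^ (2 * k) ≤ C * 2 ^ (3 * 7) * 2 ^ (2 * kp p) := by
    apply hsh k (kp p) 7 (by omega) (un p) hq0 hpr.2.le T' hsc hsep
    intro a ha
    obtain ⟨c, hc, rfl⟩ := Finset.mem_image.1 (hT' ha)
    rw [cg4_ny]
    have h1 := (hf c hc).2.2
    have h2 := kp_spec (one_le_rad hCf (hS c hc).1)
    rw [(hS c hc).2] at h2
    have h3 : (2 : ℝ) ^ (k + 3) ≤ 2 ^ kp p := pow_le_pow_right₀ (by norm_num) hkp
    have h4 : rad (p - f c) = rad p - rad (f c) := by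
      simp only [rad, Prod.fst_sub, Prod.snd_sub]
      ring
    have h5 : (0 : ℝ) < 2 ^ k := by positivity
    have h6 : (2 : ℝ) ^ (k + 3) = 8 * 2 ^ k := by ring
    have h7 : (2 : ℝ) ^ (k + 1) = 2 * 2 ^ k := by ring
    have h8 : (2 : ℝ) ^ (k + 6) = 64 * 2 ^ k := by ring
    have h9 : (2 : ℝ) ^ (k + 7) = 128 * 2 ^ k := by ring
    have h10 : 0 ≤ rad p - rad (f c) := by linarith [h2.2, hpr.1]
    unfold ee at h1
    rw [h4, abs_of_nonneg h10, h8, abs_le] at h1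
    have h11 : (un p).2 = rad p := rfl
    rw [h11, h9, abs_le]
    constructor <;> linarith [h1.1, h1.2, h2.1, h2.2]
  have hcard' : (I.card : ℝ) ≤ T'.card * 81 := by exact_mod_cast hcard
  calc (I.card : ℝ) * 2 ^ (2 * k) ≤ (T'.card * 81) * 2 ^ (2 * k) :=
        mul_le_mul_of_nonneg_right hcard' (by positivity)
    _ = 81 * (T'.card * 2 ^ (2 * k)) := by ring
    _ ≤ 81 * (C * 2 ^ (3 * 7) * 2 ^ (2 * kp p)) := by
        apply mul_le_mul_of_nonneg_left hT (by norm_num)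
    _ = _ := by ring

open scoped Classical in
/-- total number of large points in the sets PB -/
theorem PB_sum : ∃ C : ℝ, 0 < C ∧ ∀ (ν : ℕ) (u : ℝ) (S : Finset (X 2)) (v : Fin 4 → ℤ) (J : ℕ),
    Cf ν u S v J → ∀ k : ℕ,
    ∑ c ∈ (scX k S).image (fun z => grd v (k - 2 * kap ν) (blk ν z)),
      (2 : ℝ) ^ (2 * k) * ((PB ν S v k c).card : ℝ) ≤ C * WX S := by
  obtain ⟨C, hC, hrow⟩ := cg4_row
  refine ⟨C, hC, ?_⟩
  intro ν u S v J hCf k
  set A := (scX k S).image (fun z => grd v (k - 2 * kap ν) (blk ν z)) with hA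
  have h1 : ∀ c ∈ A, (2 : ℝ) ^ (2 * k) * ((PB ν S v k c).card : ℝ) =
      ∑ p ∈ S, if p ∈ PB ν S v k c then (2 : ℝ) ^ (2 * k) else 0 := by
    intro c _
    rw [← Finset.sum_filter, Finset.sum_const, nsmul_eq_mul, mul_comm]
    congr 3
    ext p
    rw [Finset.mem_filter]
    constructor
    · intro h
      refine ⟨?_, h⟩
      unfold PB at h
      exact (Finset.mem_filter.1 h).1
    · exact fun h => h.2
  rw [Finset.sum_congr rfl h1, Finset.sum_comm]
  unfold WX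
  rw [Finset.mul_sum]
  apply Finset.sum_le_sum
  intro p hp
  rw [← Finset.sum_filter, Finset.sum_const, nsmul_eq_mul]
  by_cases hk : k + 3 ≤ kp p
  · apply hrow ν u S v J hCf k p hp hk
    intro c hc
    have h2 := (Finset.mem_filter.1 hc).2
    unfold PB at h2
    exact (Finset.mem_filter.1 h2).2.2
  · have h2 : A.filter (fun c => p ∈ PB ν S v k c) = ∅ := by
      apply Finset.filter_eq_empty_iff.2
      intro c _ h3
      unfold PB at h3
      exact hk (Finset.mem_filter.1 h3).2.1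
    rw [h2]
    simp
    positivity

end Pool.LibCA93
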