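import Pool.Agent.LibCA93.CM3
import Pool.Agent.LibCA93.BdB

/-
PLAN (CX2, MEDIUM). As CX1 with P := B.filter (k + 25 a < kp p) and two_count: R0 = 2^(k + 25 a - 1) (cross_norm: ‖p-q‖ >= 2^(kp p)/4 >= 2^(k+25a-1)), φ = 2^(-100a), η = ρ = 2^(-12a), t = 2^k, τ = C 4^a: C0 (t^2/R0 + τ) = C0 (2 2^(-25a) + τ/t) t <= 2^(-24a) t
for ν >= ν0. n = u ρ t = V 2^(-12a) (DX, ρ t >= 1), V = u 2^k, #Q <= 4V, Λq = (#B + V)/2^(199a) (lam_X). #P n <= 2^(-12a) V #B. (#P)^(1/2) #Q (φ^(-2) η^(1/2) Λq)^(1/2) = 2^(-5a/2) (#P)^(1/2) #Q (#B + V)^(1/2)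
<= 2^(-5a/2) (#B #Q + (#B)^(1/2) #Q V^(1/2)) <= C 2^(-5a/2) V (#B + #Q). u <= 2^a.
-/

set_option autoImplicit false

noncomputable section

open MeasureTheory Metric Set Filter

namespace Pool.LibCA93

open Pool.LibSR53 Pool.LibST49

open scoped Classical in
/-- far cross scales -/
theorem far_pairs (K : ℝ) : ∃ (C : ℝ) (ν0 : ℕ), 0 < C ∧ ∀ (ν : ℕ) (u : ℝ) (S : Finset (X 2))
    (v : Fin 4 → ℤ) (J' : ℕ), ν0 ≤ ν → Cf ν u S v J' → ∀ (k l : ℕ), inW ν l k →
    ∀ c : ℕ × (Fin 4 → ℤ),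
    ∑ p ∈ (PB ν S v k c).filter (fun p => k + 25 * aL ν l < kp p),
      (((scX k S).filter (fun q => grd v (k - 2 * kap ν) (blk ν q) = c ∧
        LT ν u S v K p q)).card : ℝ) ≤
      C * 2 ^ k / 2 ^ aL ν l * (((PB ν S v k c).card : ℝ) +
        (((scX k S).filter (fun q => grd v (k - 2 * kap ν) (blk ν q) = c)).card : ℝ)) := by
  obtain ⟨C1, C0, hC1, hC0, htc⟩ := two_count
  obtain ⟨Cg, ν1, hCg, hgeo⟩ := pair_geo K
  obtain ⟨ν2, hlam⟩ := lam_X K
  obtain ⟨ν3, hν3⟩ := pow_unbounded_of_one_lt (max (4 * C0) (2 * C0 * Cg)) (one_lt_two (α := ℝ))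
  refine ⟨3 * C1, max ν1 (max ν2 ν3), by positivity, ?_⟩
  intro ν u S v J' hν hCf k l hin c
  have hνa : ν1 ≤ ν := le_trans (le_max_left _ _) hν
  have hνb : ν2 ≤ ν := le_trans (le_trans (le_max_left _ _) (le_max_right _ _)) hν
  have hνc : ν3 ≤ ν := le_trans (le_trans (le_max_right _ _) (le_max_right _ _)) hν
  have hν1 := hCf.nu1
  have haν : ν ≤ aL ν l := by
    unfold aL
    exact Nat.le_mul_of_pos_right ν (by positivity)
  have hk0 : 40300 * aL ν l ≤ k := hin.1
  have hA0 : (2 : ℝ) ^ ν ≤ 2 ^ aL ν l := pow_le_pow_right₀ (by norm_num) haν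
  have hA3 : (2 : ℝ) ^ ν3 ≤ 2 ^ aL ν l :=
    pow_le_pow_right₀ (by norm_num) (le_trans hνc haν)
  have hAu : u ≤ 2 ^ aL ν l := le_trans hCf.u2 hA0
  have hu1 := hCf.u1
  have haI : aI ν k = aL ν l := aI_inW hν1 hin
  have h4a : (4 : ℝ) ^ aL ν l = (2 ^ aL ν l) ^ 2 := by
    rw [← pow_mul, mul_comm, pow_mul]; norm_num
  have hpow : ∀ n : ℕ, (2 : ℝ) ^ (n * aL ν l) = (2 ^ aL ν l) ^ n := by
    intro n; rw [mul_comm, pow_mul]
  have hA2 : (2 : ℝ) ≤ 2 ^ aL ν l := by
    calc (2 : ℝ) = 2 ^ 1 := by norm_num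
      _ ≤ 2 ^ aL ν l := pow_le_pow_right₀ (by norm_num) (le_trans hν1 haν)
  have hkA : ((2 : ℝ) ^ aL ν l) ^ 40300 ≤ 2 ^ k := by
    rw [← hpow]; exact pow_le_pow_right₀ (by norm_num) hk0
  have hc1 : 4 * C0 ≤ 2 ^ aL ν l :=
    le_trans (le_trans (le_max_left _ _) hν3.le) hA3
  have hc2 : 2 * C0 * Cg ≤ 2 ^ aL ν l :=
    le_trans (le_trans (le_max_right _ _) hν3.le) hA3
  have ha1 : 1 ≤ aL ν l := le_trans hν1 haν
  generalize hadef : aL ν l = a at *
  generalize hAdef : (2 : ℝ) ^ a = A at *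
  have hA1 : 1 ≤ A := by linarith
  have hApos : 0 < A := by linarith
  generalize htdef : (2 : ℝ) ^ k = t at *
  have htpos : 0 < t := by rw [← htdef]; positivity
  have hupos : 0 < u := by linarith
  -- the sets
  set B := PB ν S v k c with hBdef
  set P := B.filter (fun p => k + 25 * a < kp p) with hPdef
  set Q := (scX k S).filter (fun q => grd v (k - 2 * kap ν) (blk ν q) = c) with hQdef
  have hPS : ∀ p ∈ P, p ∈ S ∧ k + 25 * a < kp p := by
    intro p hp
    rw [hPdef, Finset.mem_filter, hBdef] at hp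
    unfold PB at hp
    rw [Finset.mem_filter] at hp
    exact ⟨hp.1.1, hp.2⟩
  have hQS : ∀ q ∈ Q, q ∈ S ∧ kp q = k ∧ q ∈ scX k S ∧
      grd v (k - 2 * kap ν) (blk ν q) = c := by
    intro q hq
    rw [hQdef, Finset.mem_filter] at hq
    have h2 := hq.1
    unfold scX at h2
    rw [Finset.mem_filter] at h2
    exact ⟨h2.1, h2.2, hq.1, hq.2⟩
  have hPB : P ⊆ B := Finset.filter_subset _ _
  have hxb : (P.card : ℝ) ≤ B.card := by exact_mod_cast Finset.card_le_card hPB
  -- cubes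
  have hcube : ∀ q ∈ Q, ∀ q' ∈ Q, ‖q - q'‖ ≤ 2 * t := by
    intro q hq q' hq'
    have h1 := (hQS q hq).2.2.2
    have h2 := (hQS q' hq').2.2.2
    have h3 := grd_close (h1.trans h2.symm)
    have h4 : 40000 * ν + (k - 2 * kap ν) = k := by
      unfold kap
      omega
    rw [h4, htdef] at h3
    exact h3
  have hρt : 1 ≤ 1 / A ^ 12 * t := by
    rw [one_div, inv_mul_eq_div, le_div_iff₀ (by positivity), one_mul]
    exact le_trans (pow_le_pow_right₀ hA1 (by norm_num)) hkA
  have hV : 0 < u * t := by positivity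
  have hQV : (Q.card : ℝ) ≤ 2 * (u * t) := by
    rcases Q.eq_empty_or_nonempty with h | ⟨q0, hq0⟩
    · rw [h]; simp only [Finset.card_empty, Nat.cast_zero]; positivity
    · have h1 := hCf.dens k q0 (hQS q0 hq0).2.2.1 (2 * t) (by
        have := le_trans hρt (show 1 / A ^ 12 * t ≤ 2 * t by
          have : 1 / A ^ 12 ≤ 1 := by
            rw [div_le_one (by positivity)]; exact one_le_pow₀ hA1
          nlinarith)
        exact this) (by
        rw [pow_add, htdef]; nlinarith)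
      refine le_trans ?_ (le_trans h1 (by linarith))
      have h2 : Q ⊆ (scX k S).filter (fun q => ‖q - q0‖ ≤ 2 * t) := by
        intro q hq
        rw [Finset.mem_filter]
        exact ⟨(hQS q hq).2.2.1, hcube q hq q0 hq0⟩
      exact_mod_cast Finset.card_le_card h2
  have hmain := htc (1 / A ^ 100) (1 / A ^ 12) (1 / A ^ 12) (Cg * A ^ 2) t (t * A ^ 25 / 2)
    (((B.card : ℝ) + u * t) / A ^ 199) (u * (1 / A ^ 12 * t)) P Q
    (fun p q => LT ν u S v K p q) (by positivity)
    (by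
      apply one_div_le_one_div_of_le (by positivity)
      exact pow_le_pow_right₀ hA1 (by norm_num))
    (by
      rw [div_le_one (by positivity)]; exact one_le_pow₀ hA1)
    (by positivity) (by positivity) htpos
    (by
      have : (2 : ℝ) ≤ A ^ 25 := le_trans hA2 (le_self_pow₀ hA1 (by norm_num))
      nlinarith)
    (by
      have e1 : t ^ 2 / (t * A ^ 25 / 2) = 2 * t / A ^ 25 := by
        field_simp
      have e2 : 1 / A ^ 12 * (1 / A ^ 12) * t = t / A ^ 24 := by
        field_simp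
      rw [e1, e2, le_div_iff₀ (by positivity)]
      have e3 : C0 * (2 * t / A ^ 25 + Cg * A ^ 2) * A ^ 24 =
          2 * C0 * t / A + C0 * Cg * A ^ 26 := by
        field_simp
      rw [e3]
      have e4 : 2 * C0 * t / A ≤ t / 2 := by
        rw [div_le_div_iff₀ hApos (by norm_num)]
        nlinarith
      have e5 : C0 * Cg * A ^ 26 ≤ t / 2 := by
        have e6 : A * A ^ 26 ≤ t := by
          calc A * A ^ 26 = A ^ 27 := by ring
            _ ≤ A ^ 40300 := pow_le_pow_right₀ hA1 (by norm_num)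
            _ ≤ t := hkA
        have e7 : 2 * C0 * Cg * A ^ 26 ≤ A * A ^ 26 :=
          mul_le_mul_of_nonneg_right hc2 (by positivity)
        linarith
      linarith)
    (by positivity) (by positivity)
    (by
      intro p hp q hq hN
      obtain ⟨hpS, hpk⟩ := hPS p hp
      obtain ⟨hqS, hqk, -, -⟩ := hQS q hq
      have hlt : kp q + 3 ≤ kp p := by rw [hqk]; omega
      have hne : kp p ≠ kp q := by omega
      have hb : blk ν q ≠ blk ν p := by
        intro h
        have : kp q = kp p := by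
          have := congrArg Prod.fst h
          exact this
        omega
      have hidx : idx p q = k := by
        unfold idx
        rw [if_neg hne, min_eq_right (by omega), hqk]
      obtain ⟨ω, hω, hL, -, -⟩ := hN
      have hg := hgeo ν u S v J' hνa hCf p hpS q hqS hb ω hω hL
      rw [hidx, haI, h4a] at hg
      refine ⟨?_, ?_, hg.2.2.1⟩
      · have h1 := cross_norm hCf hpS hqS hlt
        have h2 : (2 : ℝ) ^ (k + 25 * a + 1) ≤ 2 ^ kp p :=
          pow_le_pow_right₀ (by norm_num) (by omega)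
        have h3 : (2 : ℝ) ^ (k + 25 * a + 1) = t * A ^ 25 * 2 := by
          rw [pow_add, pow_add, htdef, hpow]; norm_num
        rw [h3] at h2
        linarith
      · have h1 := hg.1
        have h2 := abs_nonneg (p - q).2.1
        linarith)
    (by
      intro q hq q' hq'
      have := hcube q hq q' hq'
      linarith)
    (by
      intro q hq
      have h1 := hCf.dens k q (hQS q hq).2.2.1 (1 / A ^ 12 * t) hρt (by
        rw [pow_add, htdef]
        have : 1 / A ^ 12 ≤ 1 := by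
          rw [div_le_one (by positivity)]; exact one_le_pow₀ hA1
        nlinarith)
      refine le_trans ?_ h1
      have h2 : Q.filter (fun q' => ‖q - q'‖ ≤ 1 / A ^ 12 * t) ⊆
          (scX k S).filter (fun q' => ‖q' - q‖ ≤ 1 / A ^ 12 * t) := by
        intro q' hq'
        rw [Finset.mem_filter] at hq' ⊢
        refine ⟨(hQS q' hq'.1).2.2.1, ?_⟩
        rw [norm_sub_rev]
        exact hq'.2
      exact_mod_cast Finset.card_le_card h2)
    (by
      intro p hp q hq hN
      obtain ⟨hpS, hpk⟩ := hPS p hp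
      obtain ⟨hqS, hqk, -, hqc⟩ := hQS q hq
      have hlt : kp q + 3 ≤ kp p := by rw [hqk]; omega
      have h1 := hlam ν u S v J' hνb hCf p hpS q hqS hlt hN l (by rw [hqk]; exact hin)
      rw [hqk, hqc, hadef, hpow, hpow, htdef, ← hBdef] at h1
      refine le_trans ?_ h1
      have h2 : P.filter (fun p' => LT ν u S v K p' q ∧
          ‖om (p' - q) - om (p - q)‖ ≤ 1 / A ^ 100) ⊆
          B.filter (fun p' => LT ν u S v K p' q ∧
          ‖om (p' - q) - om (p - q)‖ ≤ 1 / A ^ 100) :=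
        Finset.filter_subset_filter _ hPB
      exact_mod_cast Finset.card_le_card h2)
  have hLHS : ∑ p ∈ P, (((scX k S).filter (fun q => grd v (k - 2 * kap ν) (blk ν q) = c ∧
        LT ν u S v K p q)).card : ℝ) = ∑ p ∈ P, ((Q.filter (fun q => LT ν u S v K p q)).card : ℝ) := by
    refine Finset.sum_congr rfl fun p _ => ?_
    rw [hQdef, Finset.filter_filter]
  rw [hLHS]
  refine le_trans hmain ?_
  -- arithmetic
  have hb0 : (0 : ℝ) ≤ B.card := Nat.cast_nonneg _
  have hs0 : (0 : ℝ) ≤ Q.card := Nat.cast_nonneg _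
  have hx0 : (0 : ℝ) ≤ P.card := Nat.cast_nonneg _
  generalize (B.card : ℝ) = b at *
  generalize (Q.card : ℝ) = s at *
  generalize (P.card : ℝ) = x at *
  have f1 : (1 / A ^ 100 : ℝ) ^ (-(2 : ℝ)) = A ^ 200 := by
    rw [Real.rpow_neg (by positivity), Real.rpow_two]
    field_simp
  have f2 : (1 / A ^ 12 : ℝ) ^ ((1 : ℝ) / 2) = 1 / A ^ 6 := by
    rw [← Real.sqrt_eq_rpow, show (1 / A ^ 12 : ℝ) = (1 / A ^ 6) ^ 2 by field_simp]
    exact Real.sqrt_sq (by positivity)
  have f3 : A ^ 200 * (1 / A ^ 6) * ((b + u * t) / A ^ 199) = (b + u * t) / A ^ 5 := by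
    field_simp
  have f4 : ((b + u * t) / A ^ 5) ^ ((1 : ℝ) / 2) * x ^ ((1 : ℝ) / 2) ≤ (b + u * t) / A ^ 2 := by
    rw [← Real.mul_rpow (by positivity) hx0, ← Real.sqrt_eq_rpow]
    apply Real.sqrt_le_iff.2
    refine ⟨by positivity, ?_⟩
    have g1 : (b + u * t) / A ^ 5 ≤ (b + u * t) / A ^ 4 := by
      apply div_le_div_of_nonneg_left (by positivity) (by positivity)
      exact pow_le_pow_right₀ hA1 (by norm_num)
    calc (b + u * t) / A ^ 5 * x ≤ (b + u * t) / A ^ 4 * (b + u * t) := by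
          apply mul_le_mul g1 (by linarith) hx0 (by positivity)
      _ = ((b + u * t) / A ^ 2) ^ 2 := by
          field_simp
  rw [f1, f2, f3]
  have f5 : x ^ ((1 : ℝ) / 2) * s * ((b + u * t) / A ^ 5) ^ ((1 : ℝ) / 2) ≤
      s * ((b + u * t) / A ^ 2) := by
    calc x ^ ((1 : ℝ) / 2) * s * ((b + u * t) / A ^ 5) ^ ((1 : ℝ) / 2) =
          s * (((b + u * t) / A ^ 5) ^ ((1 : ℝ) / 2) * x ^ ((1 : ℝ) / 2)) := by ring
      _ ≤ _ := mul_le_mul_of_nonneg_left f4 hs0
  have f6 : x * (u * (1 / A ^ 12 * t)) ≤ b * (u * t) / A ^ 2 := by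
    have g1 : 1 / A ^ 12 ≤ 1 / A ^ 2 := by
      apply one_div_le_one_div_of_le (by positivity)
      exact pow_le_pow_right₀ hA1 (by norm_num)
    calc x * (u * (1 / A ^ 12 * t)) = x * (u * t) * (1 / A ^ 12) := by ring
      _ ≤ b * (u * t) * (1 / A ^ 2) := by
          apply mul_le_mul (mul_le_mul_of_nonneg_right hxb hV.le) g1 (by positivity)
            (by positivity)
      _ = _ := by ring
  have f7 : s * ((b + u * t) / A ^ 2) ≤ 2 * (u * t) * (b + s) / A ^ 2 := by
    rw [← mul_div_assoc]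
    apply div_le_div_of_nonneg_right _ (by positivity)
    nlinarith
  have f8 : (3 : ℝ) * ((u * t) * (b + s)) / A ^ 2 ≤ 3 * (t * (b + s)) / A := by
    rw [div_le_div_iff₀ (by positivity) hApos]
    have g1 : u * (t * (b + s) * A) ≤ A * (t * (b + s) * A) :=
      mul_le_mul_of_nonneg_right hAu (by positivity)
    nlinarith
  calc C1 * (x * (u * (1 / A ^ 12 * t)) +
        x ^ ((1 : ℝ) / 2) * s * ((b + u * t) / A ^ 5) ^ ((1 : ℝ) / 2)) ≤
      C1 * (b * (u * t) / A ^ 2 + 2 * (u * t) * (b + s) / A ^ 2) :=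
        mul_le_mul_of_nonneg_left (by linarith) hC1.le
    _ ≤ C1 * (3 * ((u * t) * (b + s)) / A ^ 2) := by
        apply mul_le_mul_of_nonneg_left _ hC1.le
        rw [← add_div]
        apply div_le_div_of_nonneg_right _ (by positivity)
        nlinarith [mul_nonneg hV.le hs0]
    _ ≤ C1 * (3 * (t * (b + s)) / A) := mul_le_mul_of_nonneg_left f8 hC1.le
    _ = 3 * C1 * t / A * (b + s) := by ring

end Pool.LibCA93
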