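import Pool.Agent.LibCA93.CX1
import Pool.Agent.LibCA93.CX2
import Pool.Agent.LibCA93.CG4

/-
PLAN (CX, SHORT to MEDIUM). Sum over p with kp p >= k + 3 and q in scX k S with LT p q. Weight: Mk <= 1/‖p-q‖ <= 4/2^(kp p) (cross_norm), so 2^(kp p + kp q) Mk <= 4 2^k. Group the q by the class c = grd v (k - 2 kap) (blk q); p is in PB ν S v k c (mem_PB).
near_pairs + far_pairs: sum over c of 4 2^k C 2^k/2^a (#PB c + #Q c); PB_sum and SUM_c #Q c 4^k = 4^k #scX k S <= WX S.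
-/

set_option autoImplicit false

noncomputable section

open MeasureTheory Metric Set Filter

namespace Pool.LibCA93

open Pool.LibSR53 Pool.LibST49

private theorem cx_Mk (N : ℕ) (Z : X 2) (hZ : 0 < ‖Z‖) : 0 ≤ Mk N Z ∧ Mk N Z ≤ 1 / ‖Z‖ := by
  have e1 : (1 + ‖Z‖) ^ (-(((2 : ℕ) : ℝ) / 2)) = (1 + ‖Z‖)⁻¹ := by
    rw [show (-(((2 : ℕ) : ℝ) / 2)) = (-1 : ℝ) by norm_num, Real.rpow_neg_one]
  have e2 : (1 : ℝ) ≤ (1 + abs (ny Z - |rad Z|)) ^ N :=
    one_le_pow₀ (by linarith [abs_nonneg (ny Z - |rad Z|)])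
  have e3 : (0 : ℝ) ≤ (1 + ‖Z‖)⁻¹ := by positivity
  unfold Mk
  rw [e1]
  refine ⟨div_nonneg e3 (by linarith), ?_⟩
  calc (1 + ‖Z‖)⁻¹ / (1 + abs (ny Z - |rad Z|)) ^ N ≤ (1 + ‖Z‖)⁻¹ := div_le_self e3 e2
    _ ≤ 1 / ‖Z‖ := by
      rw [one_div]
      exact inv_anti₀ hZ (by linarith)

open scoped Classical in
/-- tangent pairs with smaller scale k -/
theorem cross_LT (K : ℝ) (N : ℕ) : ∃ (C : ℝ) (ν0 : ℕ), 0 < C ∧ ∀ (ν : ℕ) (u : ℝ)
    (S : Finset (X 2)) (v : Fin 4 → ℤ) (J' : ℕ), ν0 ≤ ν → Cf ν u S v J' → ∀ k : ℕ,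
    ∑ p ∈ S.filter (fun p => k + 3 ≤ kp p), ∑ q ∈ (scX k S).filter (fun q => LT ν u S v K p q),
      (2 : ℝ) ^ (kp p + kp q) * Mk N (p - q) ≤ C / th ν k * WX S := by
  obtain ⟨C1, ν1, hC1, h1⟩ := near_pairs K
  obtain ⟨C2, ν2, hC2, h2⟩ := far_pairs K
  obtain ⟨ν3, h3⟩ := mem_PB K
  obtain ⟨C4, hC4, h4⟩ := PB_sum
  refine ⟨4 * (C1 + C2) * (C4 + 1), max ν1 (max ν2 ν3), by positivity, ?_⟩
  intro ν u S v J' hν hCf k
  have hν1 : ν1 ≤ ν := le_trans (le_max_left _ _) hν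
  have hν2 : ν2 ≤ ν := le_trans (le_trans (le_max_left _ _) (le_max_right _ _)) hν
  have hν3 : ν3 ≤ ν := le_trans (le_trans (le_max_right _ _) (le_max_right _ _)) hν
  have hW : 0 ≤ WX S := Finset.sum_nonneg fun p _ => by positivity
  have hth : 0 < th ν k := by unfold th; positivity
  rcases (scX k S).eq_empty_or_nonempty with hemp | ⟨q0, hq0⟩
  · rw [hemp]
    simp only [Finset.filter_empty, Finset.sum_empty, Finset.sum_const_zero]
    positivity
  have hmem : ∀ q ∈ scX k S, q ∈ S ∧ kp q = k := fun q hq => Finset.mem_filter.1 hq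
  have hk : 40300 * ν ≤ k := by
    rw [← (hmem q0 hq0).2]
    exact kp_ge hCf (hmem q0 hq0).1
  obtain ⟨l, hl⟩ := exists_inW hCf.nu1 hk
  have hthk : th ν k = 2 ^ aL ν l := by rw [th_eq, aI_inW hCf.nu1 hl]
  set f : X 2 → ℕ × (Fin 4 → ℤ) := fun z => grd v (k - 2 * kap ν) (blk ν z) with hf
  set Im := (scX k S).image f with hIm
  -- step A
  have hA : ∀ p ∈ S.filter (fun p => k + 3 ≤ kp p),
      ∑ q ∈ (scX k S).filter (fun q => LT ν u S v K p q), (2 : ℝ) ^ (kp p + kp q) * Mk N (p - q) ≤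
        4 * 2 ^ k * ∑ c ∈ Im, (((scX k S).filter (fun q => f q = c ∧ LT ν u S v K p q)).card : ℝ) := by
    intro p hp
    obtain ⟨hpS, hpk⟩ := Finset.mem_filter.1 hp
    have e1 : ∑ q ∈ (scX k S).filter (fun q => LT ν u S v K p q),
        (2 : ℝ) ^ (kp p + kp q) * Mk N (p - q) ≤
        ((scX k S).filter (fun q => LT ν u S v K p q)).card • (4 * 2 ^ k : ℝ) := by
      apply Finset.sum_le_card_nsmul
      intro q hq
      obtain ⟨hqS, hqk⟩ := hmem q (Finset.mem_filter.1 hq).1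
      have h5 := cross_norm hCf hpS hqS (by rw [hqk]; exact hpk)
      have h6 : 0 < ‖p - q‖ := by
        have : (0 : ℝ) < 2 ^ kp p := by positivity
        linarith
      obtain ⟨h7, h8⟩ := cx_Mk N (p - q) h6
      rw [hqk, pow_add]
      calc (2 : ℝ) ^ kp p * 2 ^ k * Mk N (p - q) ≤ (4 * ‖p - q‖) * 2 ^ k * (1 / ‖p - q‖) := by
            gcongr
        _ = 4 * 2 ^ k := by field_simp
    refine e1.trans (le_of_eq ?_)
    rw [nsmul_eq_mul, mul_comm]
    congr 1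
    rw [Finset.card_eq_sum_card_fiberwise (f := f) (t := Im) (fun q hq =>
      Finset.mem_image_of_mem f (Finset.mem_filter.1 hq).1)]
    push_cast
    refine Finset.sum_congr rfl fun c _ => ?_
    rw [Finset.filter_filter]
    congr 2
    ext q
    simp only [Finset.mem_filter]
    tauto
  -- step C
  have hC : ∀ c ∈ Im, ∑ p ∈ S.filter (fun p => k + 3 ≤ kp p),
      (((scX k S).filter (fun q => f q = c ∧ LT ν u S v K p q)).card : ℝ) ≤
        (C1 + C2) * 2 ^ k / 2 ^ aL ν l * (((PB ν S v k c).card : ℝ) +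
          (((scX k S).filter (fun q => f q = c)).card : ℝ)) := by
    intro c _
    have hsub : PB ν S v k c ⊆ S.filter (fun p => k + 3 ≤ kp p) := by
      intro p hp
      obtain ⟨hp1, hp2, -⟩ := Finset.mem_filter.1 hp
      exact Finset.mem_filter.2 ⟨hp1, hp2⟩
    rw [← Finset.sum_subset hsub (fun p hp hp' => by
      obtain ⟨hpS, hpk⟩ := Finset.mem_filter.1 hp
      rw [Nat.cast_eq_zero, Finset.card_eq_zero, Finset.filter_eq_empty_iff]
      rintro q hq ⟨hqc, hqL⟩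
      obtain ⟨hqS, hqk⟩ := hmem q hq
      apply hp'
      have h5 := h3 ν u S v J' hν3 hCf p hpS q hqS (by rw [hqk]; exact hpk) hqL
      rw [hqk] at h5
      rw [← hqc]
      exact h5)]
    rw [← Finset.sum_filter_add_sum_filter_not (PB ν S v k c) (fun p => kp p ≤ k + 25 * aL ν l)]
    have e1 := h1 ν u S v J' hν1 hCf k l hl c
    have e2 := h2 ν u S v J' hν2 hCf k l hl c
    have e3 : (PB ν S v k c).filter (fun p => ¬ kp p ≤ k + 25 * aL ν l) =
        (PB ν S v k c).filter (fun p => k + 25 * aL ν l < kp p) :=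
      Finset.filter_congr fun p _ => not_le
    rw [e3]
    refine (add_le_add e1 e2).trans (le_of_eq ?_)
    ring
  -- step E
  have hE1 := h4 ν u S v J' hCf k
  have hE2 : ∑ c ∈ Im, (2 : ℝ) ^ (2 * k) * (((scX k S).filter (fun q => f q = c)).card : ℝ) ≤ WX S := by
    rw [← Finset.mul_sum, ← Nat.cast_sum, ← Finset.card_eq_sum_card_fiberwise (f := f) (t := Im)
      (fun q hq => Finset.mem_image_of_mem f hq)]
    have e1 : (2 : ℝ) ^ (2 * k) * ((scX k S).card : ℝ) = ∑ q ∈ scX k S, (2 : ℝ) ^ (2 * kp q) := by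
      rw [Finset.sum_congr rfl (fun q hq => by rw [(hmem q hq).2]), Finset.sum_const, nsmul_eq_mul,
        mul_comm]
    rw [e1]
    exact Finset.sum_le_sum_of_subset_of_nonneg (Finset.filter_subset _ _) fun p _ _ => by positivity
  calc ∑ p ∈ S.filter (fun p => k + 3 ≤ kp p), ∑ q ∈ (scX k S).filter (fun q => LT ν u S v K p q),
        (2 : ℝ) ^ (kp p + kp q) * Mk N (p - q)
      ≤ ∑ p ∈ S.filter (fun p => k + 3 ≤ kp p), 4 * 2 ^ k *
          ∑ c ∈ Im, (((scX k S).filter (fun q => f q = c ∧ LT ν u S v K p q)).card : ℝ) :=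
        Finset.sum_le_sum hA
    _ = 4 * 2 ^ k * ∑ c ∈ Im, ∑ p ∈ S.filter (fun p => k + 3 ≤ kp p),
          (((scX k S).filter (fun q => f q = c ∧ LT ν u S v K p q)).card : ℝ) := by
        rw [← Finset.mul_sum, Finset.sum_comm]
    _ ≤ 4 * 2 ^ k * ∑ c ∈ Im, (C1 + C2) * 2 ^ k / 2 ^ aL ν l * (((PB ν S v k c).card : ℝ) +
          (((scX k S).filter (fun q => f q = c)).card : ℝ)) := by
        gcongr with c hc
        exact hC c hc
    _ = 4 * (C1 + C2) / 2 ^ aL ν l * (∑ c ∈ Im, (2 : ℝ) ^ (2 * k) * ((PB ν S v k c).card : ℝ) +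
          ∑ c ∈ Im, (2 : ℝ) ^ (2 * k) * (((scX k S).filter (fun q => f q = c)).card : ℝ)) := by
        rw [← Finset.sum_add_distrib, Finset.mul_sum, Finset.mul_sum]
        refine Finset.sum_congr rfl fun c _ => ?_
        rw [show (2 : ℝ) ^ (2 * k) = 2 ^ k * 2 ^ k by rw [two_mul, pow_add]]
        ring
    _ ≤ 4 * (C1 + C2) / 2 ^ aL ν l * (C4 * WX S + WX S) := by
        gcongr
    _ = 4 * (C1 + C2) * (C4 + 1) / th ν k * WX S := by
        rw [hthk]
        ring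

end Pool.LibCA93
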