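import Pool.Agent.LibCA93.CE1
import Pool.Agent.LibCA93.CX

/-
PLAN (CE3, MEDIUM). As CE2. For kp q + 3 <= kp p: idx p q = kp q =: k (min). Absolute part: for p fixed and k with k + 3 <= kp p: row_cone (p, l = kp p, kp_spec): SUM_(q in scX k S) 2^(kp p + k) Mk <= C u 2^(2 kp p), times (if k < i0 then 1 else 0) + 1/th^4;
k < n: i0 + C. LT part: sum over k < n of cross_LT: C/th ν k WX, CE1. (Split the sum over q by kp q = k: Finset.sum_fiberwise_of_maps_to; exchange the sums over p and k for the LT part.)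
-/

set_option autoImplicit false

noncomputable section

open MeasureTheory Metric Set Filter

namespace Pool.LibCA93

open Pool.LibSR53 Pool.LibST49

open scoped Classical in
private theorem ce3_fib (S : Finset (X 2)) (p : X 2) (n : ℕ) (hn : ∀ q ∈ S, kp q < n)
    (F : X 2 → ℝ) :
    ∑ q ∈ S.filter (fun q => kp q + 3 ≤ kp p), F q =
      ∑ k ∈ Finset.range n, if k + 3 ≤ kp p then ∑ q ∈ scX k S, F q else 0 := by
  rw [← Finset.sum_fiberwise_of_maps_to (g := kp) (t := Finset.range n)]
  · refine Finset.sum_congr rfl fun k _ => ?_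
    split_ifs with h
    · refine Finset.sum_congr ?_ fun _ _ => rfl
      ext q
      simp only [scX, Finset.mem_filter]
      constructor
      · rintro ⟨⟨h1, _⟩, h3⟩
        exact ⟨h1, h3⟩
      · rintro ⟨h1, h3⟩
        exact ⟨⟨h1, by omega⟩, h3⟩
    · refine Finset.sum_eq_zero fun q hq => ?_
      simp only [Finset.mem_filter] at hq
      exfalso
      omega
  · intro q hq
    simp only [Finset.mem_filter] at hq
    exact Finset.mem_range.2 (hn q hq.1)

private theorem ce3_th_one (ν i : ℕ) : 1 ≤ th ν i := by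
  rw [th_eq]
  exact one_le_pow₀ (by norm_num)

open scoped Classical in
/-- different scales, the second one is smaller -/
theorem en_cross (K : ℝ) (M N : ℕ) (hM : 4 ≤ M) (hN : 10 ≤ N) : ∃ (C : ℝ) (ν0 : ℕ), 0 < C ∧
    ∀ (ν : ℕ) (u : ℝ) (S : Finset (X 2)) (v : Fin 4 → ℤ) (J' : ℕ), ν0 ≤ ν → Cf ν u S v J' →
    ∀ i0 : ℕ, ∑ p ∈ S, ∑ q ∈ S.filter (fun q => kp q + 3 ≤ kp p),
      (2 : ℝ) ^ (kp p + kp q) * (Mk N (p - q) *
        ((if idx p q < i0 ∨ LT ν u S v K p q then 1 else 0) + 1 / (th ν (idx p q)) ^ M)) ≤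
      C * (1 + u * i0) * WX S := by
  obtain ⟨C1, hC1, H1⟩ := row_cone N (by omega)
  obtain ⟨C2, ν0, hC2, H2⟩ := cross_LT K N
  obtain ⟨C3, hC3, H3⟩ := th_sum
  refine ⟨C1 + C1 * C3 + C2 * C3, ν0, by positivity, ?_⟩
  intro ν u S v J' hν hCf i0
  have hν1 : 1 ≤ ν := hCf.nu1
  have hu1 : 1 ≤ u := hCf.u1
  have hu0 : 0 ≤ u := by linarith
  have hrad : ∀ p ∈ S, 1 ≤ rad p := fun p hp => one_le_rad hCf hp
  obtain ⟨n, hn⟩ : ∃ n : ℕ, ∀ q ∈ S, kp q < n :=
    ⟨S.sup kp + 1, fun q hq => Nat.lt_succ_of_le (Finset.le_sup (f := kp) hq)⟩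
  have hWX : 0 ≤ WX S := Finset.sum_nonneg fun p _ => by positivity
  have hth1 : ∀ k, 1 ≤ th ν k := ce3_th_one ν
  have huth : ∀ k, u ≤ th ν k := fun k => hCf.u2.trans (by
    rw [th_eq]
    exact pow_le_pow_right₀ (by norm_num) (aI_ge ν k))
  -- pointwise bound
  have hpt : ∀ p ∈ S, ∀ q ∈ S.filter (fun q => kp q + 3 ≤ kp p),
      (2 : ℝ) ^ (kp p + kp q) * (Mk N (p - q) *
        ((if idx p q < i0 ∨ LT ν u S v K p q then 1 else 0) + 1 / (th ν (idx p q)) ^ M)) ≤
      (2 : ℝ) ^ (kp p + kp q) * Mk N (p - q) *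
        ((if kp q < i0 then 1 else 0) + 1 / (th ν (kp q)) ^ 2) +
      (if LT ν u S v K p q then (2 : ℝ) ^ (kp p + kp q) * Mk N (p - q) else 0) := by
    intro p hp q hq
    simp only [Finset.mem_filter] at hq
    have hid : idx p q = kp q := by
      unfold idx
      rw [if_neg (by omega), min_eq_right (by omega)]
    rw [hid]
    have hMk := Mk_nonneg N (p - q)
    have hW : 0 ≤ (2 : ℝ) ^ (kp p + kp q) * Mk N (p - q) := by positivity
    have hthp : 0 < th ν (kp q) := by linarith [hth1 (kp q)]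
    have h1 : 1 / (th ν (kp q)) ^ M ≤ 1 / (th ν (kp q)) ^ 2 :=
      one_div_le_one_div_of_le (by positivity)
        (pow_le_pow_right₀ (hth1 _) (by omega))
    have h2 : ((if kp q < i0 ∨ LT ν u S v K p q then 1 else 0) : ℝ) ≤
        (if kp q < i0 then 1 else 0) + (if LT ν u S v K p q then 1 else 0) := by
      by_cases ha : kp q < i0 <;> by_cases hb : LT ν u S v K p q <;> simp [ha, hb]
    calc (2 : ℝ) ^ (kp p + kp q) * (Mk N (p - q) *
        ((if kp q < i0 ∨ LT ν u S v K p q then 1 else 0) + 1 / (th ν (kp q)) ^ M))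
        = (2 : ℝ) ^ (kp p + kp q) * Mk N (p - q) *
          ((if kp q < i0 ∨ LT ν u S v K p q then 1 else 0) + 1 / (th ν (kp q)) ^ M) := by ring
      _ ≤ (2 : ℝ) ^ (kp p + kp q) * Mk N (p - q) *
          (((if kp q < i0 then 1 else 0) + (if LT ν u S v K p q then 1 else 0)) +
            1 / (th ν (kp q)) ^ 2) := by
          refine mul_le_mul_of_nonneg_left ?_ hW
          linarith
      _ = _ := by
          split_ifs <;> ring
  -- absolute part
  have hA : ∀ p ∈ S, ∑ q ∈ S.filter (fun q => kp q + 3 ≤ kp p),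
      (2 : ℝ) ^ (kp p + kp q) * Mk N (p - q) *
        ((if kp q < i0 then 1 else 0) + 1 / (th ν (kp q)) ^ 2) ≤
      C1 * (u * i0 + C3) * (2 : ℝ) ^ (2 * kp p) := by
    intro p hp
    rw [ce3_fib S p n hn]
    have hstep : ∀ k ∈ Finset.range n,
        (if k + 3 ≤ kp p then ∑ q ∈ scX k S, (2 : ℝ) ^ (kp p + kp q) * Mk N (p - q) *
          ((if kp q < i0 then 1 else 0) + 1 / (th ν (kp q)) ^ 2) else 0) ≤
        C1 * (2 : ℝ) ^ (2 * kp p) * ((if k < i0 then u else 0) + 1 / th ν k) := by
      intro k _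
      have hthp : 0 < th ν k := by linarith [hth1 k]
      have hr : 0 ≤ (if k < i0 then u else 0) + 1 / th ν k := by
        have : (0:ℝ) ≤ if k < i0 then u else 0 := by split_ifs <;> linarith
        positivity
      by_cases h : k + 3 ≤ kp p
      swap
      · rw [if_neg h]
        exact mul_nonneg (by positivity) hr
      rw [if_pos h]
      have hrc := H1 u S hrad hu0 hCf.dens k (kp p) h p (kp_spec (hrad p hp)).1
        (kp_spec (hrad p hp)).2
      have hc0 : (0:ℝ) ≤ (if k < i0 then 1 else 0) + 1 / (th ν k) ^ 2 := by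
        have : (0:ℝ) ≤ if k < i0 then 1 else 0 := by split_ifs <;> norm_num
        positivity
      have huu : u * (1 / (th ν k) ^ 2) ≤ 1 / th ν k := by
        rw [mul_one_div, div_le_div_iff₀ (by positivity) hthp]
        have := huth k
        nlinarith
      calc ∑ q ∈ scX k S, (2 : ℝ) ^ (kp p + kp q) * Mk N (p - q) *
            ((if kp q < i0 then 1 else 0) + 1 / (th ν (kp q)) ^ 2)
          = (∑ q ∈ scX k S, (2 : ℝ) ^ (kp p + k) * Mk N (p - q)) *
            ((if k < i0 then 1 else 0) + 1 / (th ν k) ^ 2) := by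
            rw [Finset.sum_mul]
            refine Finset.sum_congr rfl fun q hq => ?_
            have hk : kp q = k := by
              simp only [scX, Finset.mem_filter] at hq
              exact hq.2
            rw [hk]
        _ ≤ (C1 * u * (2 : ℝ) ^ (2 * kp p)) * ((if k < i0 then 1 else 0) + 1 / (th ν k) ^ 2) :=
            mul_le_mul_of_nonneg_right hrc hc0
        _ = C1 * (2 : ℝ) ^ (2 * kp p) *
            ((if k < i0 then u else 0) + u * (1 / (th ν k) ^ 2)) := by
            split_ifs <;> ring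
        _ ≤ _ := by
            refine mul_le_mul_of_nonneg_left ?_ (by positivity)
            linarith
    refine (Finset.sum_le_sum hstep).trans ?_
    rw [← Finset.mul_sum, Finset.sum_add_distrib]
    have hs1 : ∑ k ∈ Finset.range n, (if k < i0 then u else 0) ≤ u * i0 := by
      rw [← Finset.sum_filter, Finset.sum_const, nsmul_eq_mul, mul_comm]
      refine mul_le_mul_of_nonneg_left ?_ hu0
      have : ((Finset.range n).filter (fun k => k < i0)).card ≤ (Finset.range i0).card := by
        refine Finset.card_le_card fun k hk => ?_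
        simp only [Finset.mem_filter] at hk
        exact Finset.mem_range.2 hk.2
      rw [Finset.card_range] at this
      exact_mod_cast this
    have hs2 := H3 ν hν1 n
    have hp2 : 0 ≤ C1 * (2 : ℝ) ^ (2 * kp p) := by positivity
    calc C1 * (2 : ℝ) ^ (2 * kp p) * (∑ k ∈ Finset.range n, (if k < i0 then u else 0) +
          ∑ k ∈ Finset.range n, 1 / th ν k)
        ≤ C1 * (2 : ℝ) ^ (2 * kp p) * (u * i0 + C3) :=
          mul_le_mul_of_nonneg_left (by linarith) hp2
      _ = _ := by ring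
  -- tangent part
  have hB : ∑ p ∈ S, ∑ q ∈ S.filter (fun q => kp q + 3 ≤ kp p),
      (if LT ν u S v K p q then (2 : ℝ) ^ (kp p + kp q) * Mk N (p - q) else 0) ≤
      C2 * C3 * WX S := by
    have e1 : ∑ p ∈ S, ∑ q ∈ S.filter (fun q => kp q + 3 ≤ kp p),
        (if LT ν u S v K p q then (2 : ℝ) ^ (kp p + kp q) * Mk N (p - q) else 0) =
        ∑ k ∈ Finset.range n, ∑ p ∈ S.filter (fun p => k + 3 ≤ kp p),
          ∑ q ∈ (scX k S).filter (fun q => LT ν u S v K p q),
            (2 : ℝ) ^ (kp p + kp q) * Mk N (p - q) := by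
      rw [Finset.sum_congr rfl fun p _ => ce3_fib S p n hn _, Finset.sum_comm]
      refine Finset.sum_congr rfl fun k _ => ?_
      rw [Finset.sum_filter]
      refine Finset.sum_congr rfl fun p _ => ?_
      split_ifs with h
      · rw [Finset.sum_filter]
      · rfl
    rw [e1]
    calc ∑ k ∈ Finset.range n, ∑ p ∈ S.filter (fun p => k + 3 ≤ kp p),
          ∑ q ∈ (scX k S).filter (fun q => LT ν u S v K p q),
            (2 : ℝ) ^ (kp p + kp q) * Mk N (p - q)
        ≤ ∑ k ∈ Finset.range n, C2 / th ν k * WX S :=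
          Finset.sum_le_sum fun k _ => H2 ν u S v J' hν hCf k
      _ = C2 * (∑ k ∈ Finset.range n, 1 / th ν k) * WX S := by
          rw [Finset.mul_sum, Finset.sum_mul]
          refine Finset.sum_congr rfl fun k _ => ?_
          ring
      _ ≤ C2 * C3 * WX S := by
          refine mul_le_mul_of_nonneg_right ?_ hWX
          exact mul_le_mul_of_nonneg_left (H3 ν hν1 n) hC2.le
  calc ∑ p ∈ S, ∑ q ∈ S.filter (fun q => kp q + 3 ≤ kp p),
      (2 : ℝ) ^ (kp p + kp q) * (Mk N (p - q) *
        ((if idx p q < i0 ∨ LT ν u S v K p q then 1 else 0) + 1 / (th ν (idx p q)) ^ M))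
      ≤ ∑ p ∈ S, ∑ q ∈ S.filter (fun q => kp q + 3 ≤ kp p),
        ((2 : ℝ) ^ (kp p + kp q) * Mk N (p - q) *
          ((if kp q < i0 then 1 else 0) + 1 / (th ν (kp q)) ^ 2) +
        (if LT ν u S v K p q then (2 : ℝ) ^ (kp p + kp q) * Mk N (p - q) else 0)) :=
        Finset.sum_le_sum fun p hp => Finset.sum_le_sum fun q hq => hpt p hp q hq
    _ = (∑ p ∈ S, ∑ q ∈ S.filter (fun q => kp q + 3 ≤ kp p),
        (2 : ℝ) ^ (kp p + kp q) * Mk N (p - q) *
          ((if kp q < i0 then 1 else 0) + 1 / (th ν (kp q)) ^ 2)) +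
        ∑ p ∈ S, ∑ q ∈ S.filter (fun q => kp q + 3 ≤ kp p),
        (if LT ν u S v K p q then (2 : ℝ) ^ (kp p + kp q) * Mk N (p - q) else 0) := by
        rw [← Finset.sum_add_distrib]
        refine Finset.sum_congr rfl fun p _ => ?_
        rw [← Finset.sum_add_distrib]
    _ ≤ (∑ p ∈ S, C1 * (u * i0 + C3) * (2 : ℝ) ^ (2 * kp p)) + C2 * C3 * WX S :=
        add_le_add (Finset.sum_le_sum hA) hB
    _ = (C1 * (u * i0 + C3) + C2 * C3) * WX S := by
        rw [← Finset.mul_sum]
        unfold WX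
        ring
    _ ≤ (C1 + C1 * C3 + C2 * C3) * (1 + u * i0) * WX S := by
        refine mul_le_mul_of_nonneg_right ?_ hWX
        have hui : 0 ≤ u * (i0 : ℝ) := by positivity
        have h1 : 0 ≤ C1 * C3 * (u * i0) := by positivity
        have h2 : 0 ≤ C2 * C3 * (u * i0) := by positivity
        nlinarith

end Pool.LibCA93
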