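import Pool.Agent.LibCA93.CE2
import Pool.Agent.LibCA93.CE3

/-
PLAN (CE, SHORT). blk q <> blk p: kp q = kp p, or kp q + 3 <= kp p, or kp p + 3 <= kp q (kp_sep). The last sum equals the second one after exchanging p and q (Finset.sum_comm, Mk_neg, idx_symm, LT_symm). en_same + 2 en_cross.
-/

set_option autoImplicit false

noncomputable section

open MeasureTheory Metric Set Filter

namespace Pool.LibCA93

open Pool.LibSR53 Pool.LibST49

open scoped Classical in
/-- the contribution of a pair -/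
def ce_f (ν : ℕ) (u : ℝ) (S : Finset (X 2)) (v : Fin 4 → ℤ) (K : ℝ) (M N i0 : ℕ) (p q : X 2) : ℝ :=
  (2 : ℝ) ^ (kp p + kp q) * (Mk N (p - q) *
    ((if idx p q < i0 ∨ LT ν u S v K p q then 1 else 0) + 1 / (th ν (idx p q)) ^ M))

theorem ce_nonneg (ν : ℕ) (u : ℝ) (S : Finset (X 2)) (v : Fin 4 → ℤ) (K : ℝ) (M N i0 : ℕ)
    (p q : X 2) : 0 ≤ ce_f ν u S v K M N i0 p q := by
  unfold ce_f
  have h1 := Mk_nonneg N (p - q)
  have h2 : 0 ≤ th ν (idx p q) := by
    unfold th; positivity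
  have h3 : (0 : ℝ) ≤ 1 / (th ν (idx p q)) ^ M := by positivity
  split_ifs <;> positivity

theorem ce_symm (ν : ℕ) (u : ℝ) (S : Finset (X 2)) (v : Fin 4 → ℤ) (K : ℝ) (M N i0 : ℕ)
    (p q : X 2) : ce_f ν u S v K M N i0 p q = ce_f ν u S v K M N i0 q p := by
  unfold ce_f
  have h1 : Mk N (p - q) = Mk N (q - p) := by
    rw [← neg_sub q p, Mk_neg]
  have h2 : LT ν u S v K p q ↔ LT ν u S v K q p := ⟨LT_symm, LT_symm⟩
  rw [h1, idx_symm p q, add_comm (kp p)]
  by_cases h3 : LT ν u S v K p q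
  · have h4 := h2.mp h3
    rw [if_pos (Or.inr h3), if_pos (Or.inr h4)]
  · have h4 := fun h => h3 (h2.mpr h)
    by_cases h5 : idx q p < i0
    · rw [if_pos (Or.inl h5), if_pos (Or.inl h5)]
    · rw [if_neg (by rintro (h | h); exacts [h5 h, h3 h]),
        if_neg (by rintro (h | h); exacts [h5 h, h4 h])]

/-- the energy (boundary theorem energy) -/
theorem energy' (K : ℝ) (M N : ℕ) (hM : 4 ≤ M) (hN : 10 ≤ N) : ∃ (C : ℝ) (ν0 : ℕ), 0 < C ∧
    ∀ (ν : ℕ) (u : ℝ) (S : Finset (X 2)) (v : Fin 4 → ℤ) (J : ℕ), ν0 ≤ ν → Cf ν u S v J →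
    ∀ i0 : ℕ, En ν u S v K M N i0 ≤ C * (1 + u * i0) * WX S := by
  classical
  obtain ⟨C1, n1, hC1, h1⟩ := en_same K M N hM hN
  obtain ⟨C2, n2, hC2, h2⟩ := en_cross K M N hM hN
  refine ⟨C1 + 2 * C2, max n1 n2, by positivity, ?_⟩
  intro ν u S v J hν hC i0
  have e1 := h1 ν u S v J ((le_max_left _ _).trans hν) hC i0
  have e2 := h2 ν u S v J ((le_max_right _ _).trans hν) hC i0
  have e1' : ∑ p ∈ S, ∑ q ∈ S, (if blk ν q ≠ blk ν p ∧ kp q = kp p then
      ce_f ν u S v K M N i0 p q else 0) ≤ C1 * (1 + u * i0) * WX S := by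
    refine le_of_eq_of_le ?_ e1
    refine Finset.sum_congr rfl fun p _ => ?_
    rw [Finset.sum_filter]
    refine Finset.sum_congr rfl fun q _ => ?_
    unfold ce_f
    congr
  have e2' : ∑ p ∈ S, ∑ q ∈ S, (if kp q + 3 ≤ kp p then
      ce_f ν u S v K M N i0 p q else 0) ≤ C2 * (1 + u * i0) * WX S := by
    refine le_of_eq_of_le ?_ e2
    refine Finset.sum_congr rfl fun p _ => ?_
    rw [Finset.sum_filter]
    refine Finset.sum_congr rfl fun q _ => ?_
    unfold ce_f
    congr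
  have e3' : ∑ p ∈ S, ∑ q ∈ S, (if kp p + 3 ≤ kp q then
      ce_f ν u S v K M N i0 p q else 0) ≤ C2 * (1 + u * i0) * WX S := by
    refine le_of_eq_of_le ?_ e2'
    rw [Finset.sum_comm]
    refine Finset.sum_congr rfl fun p _ => Finset.sum_congr rfl fun q _ => ?_
    rw [ce_symm]
  have e4 : En ν u S v K M N i0 = ∑ p ∈ S, ∑ q ∈ S, (if blk ν q ≠ blk ν p then
      ce_f ν u S v K M N i0 p q else 0) := by
    unfold En
    refine Finset.sum_congr rfl fun p _ => ?_
    rw [Finset.sum_filter]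
    refine Finset.sum_congr rfl fun q _ => ?_
    unfold ce_f
    congr
  have e5 : ∑ p ∈ S, ∑ q ∈ S, (if blk ν q ≠ blk ν p then ce_f ν u S v K M N i0 p q else 0) ≤
      ∑ p ∈ S, ∑ q ∈ S, ((if blk ν q ≠ blk ν p ∧ kp q = kp p then
        ce_f ν u S v K M N i0 p q else 0) + (if kp q + 3 ≤ kp p then
        ce_f ν u S v K M N i0 p q else 0) + (if kp p + 3 ≤ kp q then
        ce_f ν u S v K M N i0 p q else 0)) := by
    refine Finset.sum_le_sum fun p hp => Finset.sum_le_sum fun q hq => ?_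
    have h0 := ce_nonneg ν u S v K M N i0 p q
    by_cases hb : blk ν q ≠ blk ν p
    · rw [if_pos hb]
      by_cases hk : kp q = kp p
      · rw [if_pos ⟨hb, hk⟩, if_neg (by omega), if_neg (by omega)]
        linarith
      · rcases kp_sep hC hp hq (fun h => hk h.symm) with h | h
        · rw [if_neg (fun h' => hk h'.2), if_neg (by omega), if_pos h]
          linarith
        · rw [if_neg (fun h' => hk h'.2), if_pos h, if_neg (by omega)]
          linarith
    · rw [if_neg hb]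
      have a1 : ∀ (P : Prop) [Decidable P], 0 ≤ if P then ce_f ν u S v K M N i0 p q else 0 := by
        intro P _
        split_ifs
        · exact h0
        · exact le_rfl
      have b1 := a1 (blk ν q ≠ blk ν p ∧ kp q = kp p)
      have b2 := a1 (kp q + 3 ≤ kp p)
      have b3 := a1 (kp p + 3 ≤ kp q)
      linarith
  rw [e4]
  refine e5.trans ?_
  simp only [Finset.sum_add_distrib]
  have e6 : (C1 + 2 * C2) * (1 + u * i0) * WX S = C1 * (1 + u * i0) * WX S +
      C2 * (1 + u * i0) * WX S + C2 * (1 + u * i0) * WX S := by ring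
  rw [e6]
  exact add_le_add (add_le_add e1' e2') e3'

end Pool.LibCA93
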