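import Pool.Agent.LibCA93.CG1

/-
PLAN (CL, SHORT). near_cel: w k j = 2^(-k) iv j, each coordinate |ω_i - 2^(-k) j_i| < 2^(-k), norm <= sqrt 2 2^(-k). card_near: |j_i - 2^k ω_i| <= 2^k r for both i: each j_i in an interval of length 2 2^k r, at most 2 2^k r + 1
integers (Int.card_Icc, floor and ceil); piFinset / image into a product. label_count: double counting (Finset.sum_card_bipartiteAbove_eq_sum_card_bipartiteBelow or sum_comm): n #B <= SUM_(p in T) #{j : ‖om (p - z0) - w k j‖ <= 9/2^k} <= 361 #T.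
-/

set_option autoImplicit false

noncomputable section

open MeasureTheory Metric Set Filter

namespace Pool.LibCA93

open Pool.LibSR53 Pool.LibST49

private theorem cl_coord (k : ℕ) (j : Fin 2 → ℤ) (ω : E 2) (i : Fin 2) :
    (ω - w k j) i = (2 : ℝ)⁻¹ ^ k * ((2 : ℝ) ^ k * ω i - j i) := by
  have h2 : (2 : ℝ)⁻¹ ^ k * (2 : ℝ) ^ k = 1 := by
    rw [← mul_pow]
    norm_num
  have h3 : (ω - w k j) i = ω i - (2 : ℝ)⁻¹ ^ k * (j i : ℝ) := rfl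
  rw [h3]
  linear_combination (-(ω i)) * h2

private theorem cl_inv (k : ℕ) : (2 : ℝ)⁻¹ ^ k = 1 / 2 ^ k := by
  rw [inv_pow, one_div]

theorem near_cel {k : ℕ} {j : Fin 2 → ℤ} {ω : E 2} (h : cel k j ω) : ‖ω - w k j‖ ≤ 2 / 2 ^ k := by
  have hpos : (0 : ℝ) < 2 ^ k := pow_pos two_pos k
  have hc : ∀ i : Fin 2, ‖(ω - w k j) i‖ ^ 2 ≤ (1 / 2 ^ k : ℝ) ^ 2 := by
    intro i
    refine pow_le_pow_left₀ (norm_nonneg _) ?_ 2
    rw [cl_coord, norm_mul, Real.norm_eq_abs, Real.norm_eq_abs, cl_inv, abs_of_pos (by positivity)]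
    have h1 := (h i).le
    calc (1 / 2 ^ k : ℝ) * |(2 : ℝ) ^ k * ω i - j i| ≤ (1 / 2 ^ k : ℝ) * 1 :=
          mul_le_mul_of_nonneg_left h1 (by positivity)
      _ = 1 / 2 ^ k := mul_one _
  rw [EuclideanSpace.norm_eq]
  refine Real.sqrt_le_iff.2 ⟨by positivity, ?_⟩
  rw [Fin.sum_univ_two]
  have e : (2 / 2 ^ k : ℝ) ^ 2 = 4 * (1 / 2 ^ k : ℝ) ^ 2 := by ring
  rw [e]
  have h0 := hc 0
  have h1 := hc 1
  have hq : (0 : ℝ) ≤ (1 / 2 ^ k : ℝ) ^ 2 := sq_nonneg _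
  linarith

private theorem cl_Icc (x ρ : ℝ) (hρ : 0 ≤ ρ) :
    ((Finset.Icc ⌈x - ρ⌉ ⌊x + ρ⌋).card : ℝ) ≤ 2 * ρ + 1 := by
  rw [Int.card_Icc]
  have h1 : ((⌊x + ρ⌋ + 1 - ⌈x - ρ⌉ : ℤ) : ℝ) ≤ 2 * ρ + 1 := by
    push_cast
    have h2 := Int.floor_le (x + ρ)
    have h3 := Int.le_ceil (x - ρ)
    linarith
  by_cases h : 0 ≤ ⌊x + ρ⌋ + 1 - ⌈x - ρ⌉
  · have h4 : (((⌊x + ρ⌋ + 1 - ⌈x - ρ⌉).toNat : ℕ) : ℝ) = ((⌊x + ρ⌋ + 1 - ⌈x - ρ⌉ : ℤ) : ℝ) := by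
      have := Int.toNat_of_nonneg h
      exact_mod_cast this
    rw [h4]
    exact h1
  · rw [Int.toNat_of_nonpos (by omega)]
    push_cast
    linarith

open scoped Classical in
theorem card_near (k : ℕ) (B : Finset (Fin 2 → ℤ)) (ω : E 2) (r : ℝ) (hr : 0 ≤ r) :
    ((B.filter (fun j => ‖ω - w k j‖ ≤ r)).card : ℝ) ≤ (2 * 2 ^ k * r + 1) ^ 2 := by
  have hpos : (0 : ℝ) < 2 ^ k := pow_pos two_pos k
  have hsub : B.filter (fun j => ‖ω - w k j‖ ≤ r) ⊆ Fintype.piFinset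
      (fun i : Fin 2 => Finset.Icc ⌈(2 : ℝ) ^ k * ω i - 2 ^ k * r⌉ ⌊(2 : ℝ) ^ k * ω i + 2 ^ k * r⌋) := by
    intro j hj
    rw [Finset.mem_filter] at hj
    rw [Fintype.mem_piFinset]
    intro i
    have h1 : ‖(ω - w k j) i‖ ≤ r := (PiLp.norm_apply_le (ω - w k j) i).trans hj.2
    rw [cl_coord, norm_mul, Real.norm_eq_abs, Real.norm_eq_abs, cl_inv,
      abs_of_pos (by positivity), one_div, inv_mul_le_iff₀ hpos] at h1
    have h2 := abs_le.1 h1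
    rw [Finset.mem_Icc]
    refine ⟨Int.ceil_le.2 ?_, Int.le_floor.2 ?_⟩
    · linarith [h2.2]
    · linarith [h2.1]
  have h3 : ((B.filter (fun j => ‖ω - w k j‖ ≤ r)).card : ℝ) ≤ ((Fintype.piFinset
      (fun i : Fin 2 => Finset.Icc ⌈(2 : ℝ) ^ k * ω i - 2 ^ k * r⌉
        ⌊(2 : ℝ) ^ k * ω i + 2 ^ k * r⌋)).card : ℝ) := by
    exact_mod_cast Finset.card_le_card hsub
  refine h3.trans ?_
  rw [Fintype.card_piFinset, Fin.prod_univ_two]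
  push_cast
  have h4 := fun i : Fin 2 => cl_Icc ((2 : ℝ) ^ k * ω i) (2 ^ k * r) (by positivity)
  have h5 : 2 * (2 ^ k * r) + 1 = 2 * 2 ^ k * r + 1 := by ring
  rw [sq, ← h5]
  exact mul_le_mul (h4 0) (h4 1) (Nat.cast_nonneg _) (by positivity)

open scoped Classical in
theorem label_count (k : ℕ) (T : Finset (X 2)) (z0 : X 2) (n : ℝ) (B : Finset (Fin 2 → ℤ))
    (h : ∀ j ∈ B, n ≤ ((T.filter (fun p => ‖om (p - z0) - w k j‖ ≤ 9 / 2 ^ k)).card : ℝ)) :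
    n * (B.card : ℝ) ≤ 361 * (T.card : ℝ) := by
  have hpos : (0 : ℝ) < 2 ^ k := pow_pos two_pos k
  have h1 : n * (B.card : ℝ) ≤
      ∑ j ∈ B, ((T.filter (fun p => ‖om (p - z0) - w k j‖ ≤ 9 / 2 ^ k)).card : ℝ) := by
    have h2 := Finset.card_nsmul_le_sum B
      (fun j => ((T.filter (fun p => ‖om (p - z0) - w k j‖ ≤ 9 / 2 ^ k)).card : ℝ)) n h
    rw [nsmul_eq_mul, mul_comm] at h2
    exact h2
  have h3 : ∑ j ∈ B, ((T.filter (fun p => ‖om (p - z0) - w k j‖ ≤ 9 / 2 ^ k)).card : ℝ) =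
      ∑ p ∈ T, ((B.filter (fun j => ‖om (p - z0) - w k j‖ ≤ 9 / 2 ^ k)).card : ℝ) := by
    have h4 := Finset.sum_card_bipartiteAbove_eq_sum_card_bipartiteBelow
      (s := B) (t := T) (fun (j : Fin 2 → ℤ) (p : X 2) => ‖om (p - z0) - w k j‖ ≤ 9 / 2 ^ k)
    unfold Finset.bipartiteAbove Finset.bipartiteBelow at h4
    exact_mod_cast h4
  rw [h3] at h1
  refine h1.trans ?_
  have h5 : ∀ p ∈ T, ((B.filter (fun j => ‖om (p - z0) - w k j‖ ≤ 9 / 2 ^ k)).card : ℝ) ≤ 361 := by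
    intro p _
    refine (card_near k B (om (p - z0)) (9 / 2 ^ k) (by positivity)).trans ?_
    have h6 : 2 * 2 ^ k * (9 / 2 ^ k : ℝ) + 1 = 19 := by
      field_simp
      norm_num
    rw [h6]
    norm_num
  have h7 := Finset.sum_le_card_nsmul T _ 361 h5
  rw [nsmul_eq_mul, mul_comm] at h7
  exact h7

end Pool.LibCA93
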