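import Pool.Agent.LibCA93.CG3
import Pool.Agent.LibCA93.CL

/-
PLAN (CH, MEDIUM to STRONG). H := 2^(34300 ν + 8), k := kp p, B := the set of labels in the statement. (1) For j in B with p': ‖Lk (3000ν) (w j) (p - p')‖ <= 2^(34001 ν + 1) <= H (compare the components of Lk (3000 ν) and Lk (kap ν): factors
2^(17000 ν), 2^(34000 ν), 1), so every q counted in Nb p' j H satisfies ‖Lk (3000 ν) (w j) (p - q)‖ <= 2 H (Lk_add / Lk_sub): u 2^(34901 ν) <= #{q in T : ‖Lk (3000ν) (w j) (p-q)‖ <= 2H}, T := {q in scX k S : blk q <> blk p} (blk p' = blk p).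
(2) one_q: q in T, Z = p - q, ‖Z‖ >= 2^(40000 ν + 1) (far_same); if ‖Lk (3000ν) (w j) Z‖ <= 2H: |s| <= 2^(40300 ν + 9), ‖x + 2 s w_j‖ <= 2^(37300 ν + 9), ‖w_j‖ <= 4 or so (norm_w_le), |t| <= 2H + ‖x‖‖w_j‖ + |s|‖w_j‖^2: ‖Z‖ <= C|s| + 2^(37300ν+20),
so ‖Z‖ <= C |s|, ‖Z‖ <= C 2^(40300 ν) and ‖om Z - w_j‖ = ‖x + 2 s w_j‖/(2|s|) <= C 2^(37300 ν)/‖Z‖. card_near: number of such j <= C (2^(20000ν) 2^(37300ν)/‖Z‖)^2 = C 2^(114600 ν)/‖Z‖^2 (>= 1 because ‖Z‖ <= C 2^(40300ν)).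
(3) sum over q in dyadic shells 2^i <= ‖Z‖ < 2^(i+1), 40000 ν <= i <= 40300 ν + 20 <= k + 20: DX gives u 2^(i+1) points: total <= C u 2^(114600 ν - 40000 ν). (4) double counting: #B u 2^(34901 ν) <= C u 2^(74600 ν), so #B <= C 2^(39699 ν) <= C 2^(2 kap)/2^ν.
-/

set_option autoImplicit false

noncomputable section

open MeasureTheory Metric Set Filter

namespace Pool.LibCA93

open Pool.LibSR53 Pool.LibST49

private theorem ch_norm_w {k : ℕ} {j : Fin 2 → ℤ} (hj : j ∈ J 2 k) : ‖w k j‖ ≤ 3 := by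
  unfold J at hj
  rw [Fintype.mem_piFinset] at hj
  have h2 : ∀ i, |(w k j) i| ≤ 2 := by
    intro i
    have h := hj i
    rw [Finset.mem_Icc] at h
    have e : (w k j) i = (2 : ℝ)⁻¹ ^ k * (j i : ℝ) := by simp [w, iv]
    rw [e, abs_mul, abs_of_pos (by positivity : (0 : ℝ) < (2 : ℝ)⁻¹ ^ k)]
    have hb : |(j i : ℝ)| ≤ 2 ^ (k + 1) := by
      rw [abs_le]
      constructor
      · exact_mod_cast h.1
      · exact_mod_cast h.2
    calc (2 : ℝ)⁻¹ ^ k * |(j i : ℝ)| ≤ (2 : ℝ)⁻¹ ^ k * 2 ^ (k + 1) := by gcongr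
      _ = 2 := by
        rw [pow_succ, ← mul_assoc, ← mul_pow]
        norm_num
  have h3 : ‖w k j‖ ^ 2 ≤ 3 ^ 2 := by
    rw [EuclideanSpace.norm_sq_eq, Fin.sum_univ_two, Real.norm_eq_abs, Real.norm_eq_abs]
    have a0 := h2 0
    have a1 := h2 1
    nlinarith [abs_nonneg ((w k j) 0), abs_nonneg ((w k j) 1)]
  exact le_of_sq_le_sq h3 (by norm_num)

private theorem ch_comp {k : ℕ} {c : E 2} {Z : X 2} {H : ℝ} (h : ‖Lk k c Z‖ ≤ H) :
    ‖Z.1 + (2 * Z.2.1) • c‖ ≤ 2 ^ k * H ∧ |Z.2.1| ≤ 4 ^ k * H ∧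
      |Z.2.2 + inner ℝ Z.1 c + Z.2.1 * ‖c‖ ^ 2| ≤ H := by
  have h1 : ‖(Lk k c Z).1‖ ≤ H := (norm_fst_le _).trans h
  have h2 : ‖(Lk k c Z).2.1‖ ≤ H := (norm_fst_le _).trans ((norm_snd_le _).trans h)
  have h3 : ‖(Lk k c Z).2.2‖ ≤ H := (norm_snd_le _).trans ((norm_snd_le _).trans h)
  have p2 : (0 : ℝ) < 2 ^ k := by positivity
  have p4 : (0 : ℝ) < 4 ^ k := by positivity
  refine ⟨?_, ?_, h3⟩
  · have e : ‖(Lk k c Z).1‖ = (2 ^ k)⁻¹ * ‖Z.1 + (2 * Z.2.1) • c‖ := by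
      simp only [Lk]
      rw [norm_smul, Real.norm_of_nonneg (by positivity), inv_pow]
    rw [e] at h1
    rwa [inv_mul_le_iff₀ p2] at h1
  · have e : ‖(Lk k c Z).2.1‖ = (4 ^ k)⁻¹ * |Z.2.1| := by
      simp only [Lk]
      rw [norm_mul, Real.norm_of_nonneg (by positivity), inv_pow, Real.norm_eq_abs]
    rw [e] at h2
    rwa [inv_mul_le_iff₀ p4] at h2

private theorem ch_of_comp {k : ℕ} {c : E 2} {Z : X 2} {H : ℝ}
    (h1 : ‖Z.1 + (2 * Z.2.1) • c‖ ≤ 2 ^ k * H) (h2 : |Z.2.1| ≤ 4 ^ k * H)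
    (h3 : |Z.2.2 + inner ℝ Z.1 c + Z.2.1 * ‖c‖ ^ 2| ≤ H) : ‖Lk k c Z‖ ≤ H := by
  have p2 : (0 : ℝ) < 2 ^ k := by positivity
  have p4 : (0 : ℝ) < 4 ^ k := by positivity
  rw [Prod.norm_def, Prod.norm_def]
  refine max_le ?_ (max_le ?_ h3)
  · simp only [Lk]
    rw [norm_smul, Real.norm_of_nonneg (by positivity), inv_pow, inv_mul_le_iff₀ p2]
    exact h1
  · simp only [Lk]
    rw [norm_mul, Real.norm_of_nonneg (by positivity), inv_pow, Real.norm_eq_abs,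
      inv_mul_le_iff₀ p4]
    exact h2

private theorem ch_four (n : ℕ) : (4 : ℝ) ^ n = 2 ^ (2 * n) := by
  rw [pow_mul]
  norm_num

private theorem ch_geo {ν : ℕ} (hν : 1 ≤ ν) {j : Fin 2 → ℤ} (hj : j ∈ J 2 (kap ν)) {Z : X 2}
    (hZ : (2 : ℝ) ^ (40000 * ν) ≤ ‖Z‖)
    (h : ‖Lk (3000 * ν) (w (kap ν) j) Z‖ ≤ 2 * 2 ^ (34300 * ν + 8)) :
    ‖Z‖ ≤ 2 ^ (40300 * ν + 15) ∧
      ‖om Z - w (kap ν) j‖ ≤ 27 * 2 ^ (37300 * ν + 9) / ‖Z‖ := by
  set c := w (kap ν) j with hc0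
  have hc : ‖c‖ ≤ 3 := ch_norm_w hj
  have hc1 : 0 ≤ ‖c‖ := norm_nonneg c
  obtain ⟨h1, h2, h3⟩ := ch_comp h
  have e1 : (2 : ℝ) ^ (3000 * ν) * (2 * 2 ^ (34300 * ν + 8)) = 2 ^ (37300 * ν + 9) := by
    rw [← pow_succ', ← pow_add]
    congr 1
    ring
  have e2 : (4 : ℝ) ^ (3000 * ν) * (2 * 2 ^ (34300 * ν + 8)) = 2 ^ (40300 * ν + 9) := by
    rw [ch_four, ← pow_succ', ← pow_add]
    congr 1
    ring
  rw [e1] at h1
  rw [e2] at h2
  have hQ : (2 : ℝ) * 2 ^ (34300 * ν + 8) ≤ 2 ^ (37300 * ν + 9) := by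
    rw [← pow_succ']
    exact pow_le_pow_right₀ (by norm_num) (by omega)
  set P : ℝ := 2 ^ (37300 * ν + 9) with hP
  have hPpos : 0 < P := by positivity
  have hs : ‖(2 * Z.2.1) • c‖ ≤ 6 * |Z.2.1| := by
    rw [norm_smul, Real.norm_eq_abs, abs_mul, abs_two]
    nlinarith [abs_nonneg Z.2.1]
  have hx : ‖Z.1‖ ≤ P + 6 * |Z.2.1| := by
    have a1 : Z.1 = (Z.1 + (2 * Z.2.1) • c) - (2 * Z.2.1) • c := by abel
    have a2 := norm_sub_le (Z.1 + (2 * Z.2.1) • c) ((2 * Z.2.1) • c)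
    rw [← a1] at a2
    linarith
  have hin : |inner ℝ Z.1 c| ≤ 3 * ‖Z.1‖ := by
    have a1 := abs_real_inner_le_norm Z.1 c
    nlinarith [norm_nonneg Z.1]
  have hsc : |Z.2.1 * ‖c‖ ^ 2| ≤ 9 * |Z.2.1| := by
    rw [abs_mul, abs_of_nonneg (by positivity : (0 : ℝ) ≤ ‖c‖ ^ 2)]
    have a1 : ‖c‖ ^ 2 ≤ 9 := by nlinarith
    nlinarith [abs_nonneg Z.2.1]
  have ht : |Z.2.2| ≤ 4 * P + 27 * |Z.2.1| := by
    have a1 : Z.2.2 = (Z.2.2 + inner ℝ Z.1 c + Z.2.1 * ‖c‖ ^ 2) - inner ℝ Z.1 c -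
        Z.2.1 * ‖c‖ ^ 2 := by ring
    have a2 : |Z.2.2| ≤ |Z.2.2 + inner ℝ Z.1 c + Z.2.1 * ‖c‖ ^ 2| + |inner ℝ Z.1 c| +
        |Z.2.1 * ‖c‖ ^ 2| := by
      calc |Z.2.2| = |(Z.2.2 + inner ℝ Z.1 c + Z.2.1 * ‖c‖ ^ 2) - inner ℝ Z.1 c -
            Z.2.1 * ‖c‖ ^ 2| := by rw [← a1]
        _ ≤ |(Z.2.2 + inner ℝ Z.1 c + Z.2.1 * ‖c‖ ^ 2) - inner ℝ Z.1 c| +
            |Z.2.1 * ‖c‖ ^ 2| := abs_sub _ _
        _ ≤ _ := by
            have := abs_sub (Z.2.2 + inner ℝ Z.1 c + Z.2.1 * ‖c‖ ^ 2) (inner ℝ Z.1 c)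
            linarith
    linarith
  have hn : ‖Z‖ ≤ 4 * P + 27 * |Z.2.1| := by
    rw [Prod.norm_def, Prod.norm_def]
    have := abs_nonneg Z.2.1
    refine max_le (by linarith) (max_le ?_ ht)
    rw [Real.norm_eq_abs]
    linarith
  have hP2 : 8 * P ≤ ‖Z‖ := by
    refine le_trans ?_ hZ
    have e3 : 8 * P = (2 : ℝ) ^ (37300 * ν + 12) := by
      rw [hP, pow_add, pow_add]
      norm_num
      ring
    rw [e3]
    exact pow_le_pow_right₀ (by norm_num) (by omega)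
  have hZs : ‖Z‖ ≤ 54 * |Z.2.1| := by linarith
  have hZpos : 0 < ‖Z‖ := lt_of_lt_of_le (by positivity) hZ
  have hspos : 0 < |Z.2.1| := by linarith
  refine ⟨?_, ?_⟩
  · have e4 : (2 : ℝ) ^ (40300 * ν + 15) = 64 * 2 ^ (40300 * ν + 9) := by
      rw [pow_add, pow_add]
      norm_num
      ring
    rw [e4]
    have : (0 : ℝ) < 2 ^ (40300 * ν + 9) := by positivity
    linarith
  · have hs0 : Z.2.1 ≠ 0 := abs_pos.mp hspos
    have e5 : om Z - c = (-(1 / (2 * Z.2.1))) • (Z.1 + (2 * Z.2.1) • c) := by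
      unfold om
      rw [smul_add, smul_smul]
      have : -(1 / (2 * Z.2.1)) * (2 * Z.2.1) = -1 := by
        field_simp
      rw [this, neg_one_smul]
      abel
    rw [e5, norm_smul, norm_neg, Real.norm_eq_abs, abs_div, abs_one, abs_mul, abs_two]
    rw [le_div_iff₀ hZpos]
    have e6 : 1 / (2 * |Z.2.1|) * ‖Z.1 + (2 * Z.2.1) • c‖ ≤ 1 / (2 * |Z.2.1|) * P := by
      gcongr
    calc 1 / (2 * |Z.2.1|) * ‖Z.1 + (2 * Z.2.1) • c‖ * ‖Z‖
        ≤ 1 / (2 * |Z.2.1|) * P * (54 * |Z.2.1|) := by gcongr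
      _ = 27 * P := by
        field_simp
        ring

open scoped Classical in
/-- labels of one far point -/
theorem one_q : ∃ (C : ℝ) (ν0 : ℕ), 0 < C ∧ ∀ (ν : ℕ), ν0 ≤ ν → ∀ Z : X 2,
    (2 : ℝ) ^ (40000 * ν) ≤ ‖Z‖ →
    ((((J 2 (kap ν)).filter (fun j =>
      ‖Lk (3000 * ν) (w (kap ν) j) Z‖ ≤ 2 * 2 ^ (34300 * ν + 8))).card : ℝ) ≤
        C * 2 ^ (114600 * ν) / ‖Z‖ ^ 2) ∧
    (((J 2 (kap ν)).filter (fun j =>
      ‖Lk (3000 * ν) (w (kap ν) j) Z‖ ≤ 2 * 2 ^ (34300 * ν + 8))).Nonempty →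
        ‖Z‖ ≤ 2 ^ (40300 * ν + 18)) := by
  refine ⟨6561 * 2 ^ 18, 1, by positivity, ?_⟩
  intro ν hν Z hZ
  have hZpos : 0 < ‖Z‖ := lt_of_lt_of_le (by positivity) hZ
  refine ⟨?_, ?_⟩
  · rcases Finset.eq_empty_or_nonempty ((J 2 (kap ν)).filter (fun j =>
      ‖Lk (3000 * ν) (w (kap ν) j) Z‖ ≤ 2 * 2 ^ (34300 * ν + 8))) with h0 | h0
    · rw [h0]
      simp only [Finset.card_empty, Nat.cast_zero]
      positivity
    · obtain ⟨j0, hj0⟩ := h0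
      rw [Finset.mem_filter] at hj0
      have hup := (ch_geo hν hj0.1 hZ hj0.2).1
      have hsub : (J 2 (kap ν)).filter (fun j =>
          ‖Lk (3000 * ν) (w (kap ν) j) Z‖ ≤ 2 * 2 ^ (34300 * ν + 8)) ⊆
          (J 2 (kap ν)).filter (fun j => ‖om Z - w (kap ν) j‖ ≤
            27 * 2 ^ (37300 * ν + 9) / ‖Z‖) := by
        intro j hj
        rw [Finset.mem_filter] at hj ⊢
        exact ⟨hj.1, (ch_geo hν hj.1 hZ hj.2).2⟩
      have hcard : (((J 2 (kap ν)).filter (fun j =>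
          ‖Lk (3000 * ν) (w (kap ν) j) Z‖ ≤ 2 * 2 ^ (34300 * ν + 8))).card : ℝ) ≤
          (((J 2 (kap ν)).filter (fun j => ‖om Z - w (kap ν) j‖ ≤
            27 * 2 ^ (37300 * ν + 9) / ‖Z‖)).card : ℝ) := by
        exact_mod_cast Finset.card_le_card hsub
      refine hcard.trans ((card_near (kap ν) _ _ _ (by positivity)).trans ?_)
      set A : ℝ := 27 * 2 ^ (57300 * ν + 9) / ‖Z‖ with hA
      have eA : 2 * 2 ^ kap ν * (27 * 2 ^ (37300 * ν + 9) / ‖Z‖) = 2 * A := by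
        rw [hA]
        have : (2 : ℝ) ^ kap ν * 2 ^ (37300 * ν + 9) = 2 ^ (57300 * ν + 9) := by
          rw [← pow_add]
          congr 1
          unfold kap
          ring
        rw [← this]
        ring
      rw [eA]
      have hA1 : 1 ≤ A := by
        rw [hA, le_div_iff₀ hZpos, one_mul]
        refine hup.trans ?_
        have b1 : (2 : ℝ) ^ (40300 * ν + 15) ≤ 2 ^ (57300 * ν + 9) :=
          pow_le_pow_right₀ (by norm_num) (by omega)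
        have b2 : (0 : ℝ) < 2 ^ (57300 * ν + 9) := by positivity
        linarith
      calc (2 * A + 1) ^ 2 ≤ (3 * A) ^ 2 := by
            apply pow_le_pow_left₀ (by positivity)
            linarith
        _ = 6561 * 2 ^ 18 * 2 ^ (114600 * ν) / ‖Z‖ ^ 2 := by
            rw [hA]
            have : ((2 : ℝ) ^ (57300 * ν + 9)) ^ 2 = 2 ^ 18 * 2 ^ (114600 * ν) := by
              rw [← pow_mul, ← pow_add]
              congr 1
              ring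
            rw [mul_div_assoc', div_pow, mul_pow, mul_pow, this]
            ring
  · intro h0
    obtain ⟨j0, hj0⟩ := h0
    rw [Finset.mem_filter] at hj0
    refine (ch_geo hν hj0.1 hZ hj0.2).1.trans ?_
    exact pow_le_pow_right₀ (by norm_num) (by omega)

open scoped Classical in
private theorem ch_heavy {ν : ℕ} {u : ℝ} {S : Finset (X 2)} {p : X 2} {j : Fin 2 → ℤ}
    (hν : 1 ≤ ν) {p' : X 2} (hb : blk ν p' = blk ν p)
    (h1 : ‖Lk (kap ν) (w (kap ν) j) (p - p')‖ ≤ 2 ^ (ν + 1)) (h2 : Hv ν u S p' j) :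
    u * 2 ^ (34901 * ν) ≤ ((((scX (kp p) S).filter (fun q => blk ν q ≠ blk ν p)).filter
      (fun q => ‖Lk (3000 * ν) (w (kap ν) j) (p - q)‖ ≤ 2 * 2 ^ (34300 * ν + 8))).card : ℝ) := by
  unfold Hv Nb at h2
  refine h2.le.trans ?_
  have hk : kp p' = kp p := congrArg Prod.fst hb
  have hH : ‖Lk (3000 * ν) (w (kap ν) j) (p - p')‖ ≤ 2 ^ (34300 * ν + 8) := by
    obtain ⟨a1, a2, a3⟩ := ch_comp h1
    refine ch_of_comp (a1.trans ?_) (a2.trans ?_) (a3.trans ?_)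
    · rw [← pow_add, ← pow_add]
      refine pow_le_pow_right₀ (by norm_num) ?_
      unfold kap
      omega
    · rw [ch_four, ch_four, ← pow_add, ← pow_add]
      refine pow_le_pow_right₀ (by norm_num) ?_
      unfold kap
      omega
    · refine pow_le_pow_right₀ (by norm_num) ?_
      omega
  norm_cast
  apply Finset.card_le_card
  intro q hq
  rw [Finset.mem_filter] at hq
  rw [Finset.mem_filter, Finset.mem_filter]
  obtain ⟨hq1, hq2, hq3⟩ := hq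
  rw [hk] at hq1
  rw [hb] at hq2
  refine ⟨⟨hq1, hq2⟩, ?_⟩
  have e : p - q = (p - p') + (p' - q) := by abel
  rw [e, Lk_add]
  refine (norm_add_le _ _).trans ?_
  have := add_le_add hH hq3
  push_cast at this ⊢
  linarith

private theorem ch_geom (a b : ℕ) : ∑ i ∈ Finset.Icc a b, (1 / (2 : ℝ)) ^ i ≤
    2 * (1 / (2 : ℝ)) ^ a := by
  have e : Finset.Icc a b = Finset.Ico a (b + 1) := by
    ext x
    simp only [Finset.mem_Icc, Finset.mem_Ico]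
    omega
  rw [e, Finset.sum_Ico_eq_sum_range]
  have h := sum_geometric_two_le (b + 1 - a)
  calc ∑ k ∈ Finset.range (b + 1 - a), (1 / (2 : ℝ)) ^ (a + k)
      = (1 / (2 : ℝ)) ^ a * ∑ k ∈ Finset.range (b + 1 - a), (1 / (2 : ℝ)) ^ k := by
        rw [Finset.mul_sum]
        refine Finset.sum_congr rfl fun k _ => ?_
        rw [pow_add]
    _ ≤ (1 / (2 : ℝ)) ^ a * 2 := by gcongr
    _ = 2 * (1 / (2 : ℝ)) ^ a := by ring

private theorem ch_log {x : ℝ} (hx : 1 ≤ x) :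
    (2 : ℝ) ^ Nat.log 2 ⌊x⌋₊ ≤ x ∧ x < 2 ^ (Nat.log 2 ⌊x⌋₊ + 1) := by
  have h0 : ⌊x⌋₊ ≠ 0 := by
    have : 1 ≤ ⌊x⌋₊ := Nat.le_floor (by simpa using hx)
    omega
  have h1 := Nat.pow_log_le_self 2 h0
  have h2 := Nat.lt_pow_succ_log_self (b := 2) (by norm_num) ⌊x⌋₊
  refine ⟨?_, ?_⟩
  · refine le_trans ?_ (Nat.floor_le (by linarith))
    exact_mod_cast h1
  · refine lt_of_lt_of_le (Nat.lt_floor_add_one x) ?_
    have : ⌊x⌋₊ + 1 ≤ 2 ^ (Nat.log 2 ⌊x⌋₊ + 1) := h2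
    exact_mod_cast this

open scoped Classical in
private theorem ch_sum {ν : ℕ} {u : ℝ} {S : Finset (X 2)} {v : Fin 4 → ℤ} {J' : ℕ}
    (hC : Cf ν u S v J') {p : X 2} (hp : p ∈ S) {C1 : ℝ} (hC1 : 0 < C1)
    (N : X 2 → ℝ) (hN : ∀ q ∈ (scX (kp p) S).filter (fun q => blk ν q ≠ blk ν p),
      N q ≤ C1 * 2 ^ (114600 * ν) / ‖p - q‖ ^ 2)
    (hN2 : ∀ q ∈ (scX (kp p) S).filter (fun q => blk ν q ≠ blk ν p), N q ≠ 0 →
      ‖p - q‖ ≤ 2 ^ (40300 * ν + 18)) :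
    ∑ q ∈ (scX (kp p) S).filter (fun q => blk ν q ≠ blk ν p), N q ≤
      4 * u * C1 * 2 ^ (74600 * ν) := by
  set T := (scX (kp p) S).filter (fun q => blk ν q ≠ blk ν p) with hT
  have hu : 0 < u := lt_of_lt_of_le one_pos hC.u1
  set T' := T.filter (fun q => N q ≠ 0) with hT'
  have e1 : ∑ q ∈ T, N q = ∑ q ∈ T', N q := by
    rw [hT', Finset.sum_filter_ne_zero]
  rw [e1]
  have hfar : ∀ q ∈ T, (2 : ℝ) ^ (40000 * ν + 1) ≤ ‖p - q‖ := by
    intro q hq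
    rw [hT, Finset.mem_filter] at hq
    obtain ⟨hq1, hq2⟩ := hq
    unfold scX at hq1
    rw [Finset.mem_filter] at hq1
    exact far_same hC hp hq1.1 hq1.2.symm hq2
  have hone : ∀ q ∈ T, 1 ≤ ‖p - q‖ := by
    intro q hq
    exact le_trans (one_le_pow₀ (by norm_num)) (hfar q hq)
  have hmap : ∀ q ∈ T', Nat.log 2 ⌊‖p - q‖⌋₊ ∈ Finset.Icc (40000 * ν) (40300 * ν + 18) := by
    intro q hq
    rw [hT', Finset.mem_filter] at hq
    obtain ⟨hq1, hq2⟩ := hq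
    obtain ⟨a1, a2⟩ := ch_log (hone q hq1)
    have a3 := hfar q hq1
    have a4 := hN2 q hq1 hq2
    rw [Finset.mem_Icc]
    constructor
    · have b1 := lt_of_le_of_lt a3 a2
      have b2 := (pow_lt_pow_iff_right₀ (by norm_num : (1 : ℝ) < 2)).mp b1
      omega
    · have b1 := le_trans a1 a4
      exact (pow_le_pow_iff_right₀ (by norm_num : (1 : ℝ) < 2)).mp b1
  rw [← Finset.sum_fiberwise_of_maps_to hmap]
  have hin : ∀ i ∈ Finset.Icc (40000 * ν) (40300 * ν + 18),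
      ∑ q ∈ T'.filter (fun q => Nat.log 2 ⌊‖p - q‖⌋₊ = i), N q ≤
        2 * u * C1 * 2 ^ (114600 * ν) * (1 / (2 : ℝ)) ^ i := by
    intro i hi
    rw [Finset.mem_Icc] at hi
    have hpt : ∀ q ∈ T'.filter (fun q => Nat.log 2 ⌊‖p - q‖⌋₊ = i),
        N q ≤ C1 * 2 ^ (114600 * ν) / (2 ^ i) ^ 2 := by
      intro q hq
      rw [Finset.mem_filter, hT', Finset.mem_filter] at hq
      obtain ⟨⟨hq1, hq2⟩, hq3⟩ := hq
      obtain ⟨a1, a2⟩ := ch_log (hone q hq1)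
      rw [hq3] at a1
      refine (hN q hq1).trans ?_
      gcongr
    have hcard : ((T'.filter (fun q => Nat.log 2 ⌊‖p - q‖⌋₊ = i)).card : ℝ) ≤
        u * 2 ^ (i + 1) := by
      have hpm : p ∈ scX (kp p) S := by
        unfold scX
        rw [Finset.mem_filter]
        exact ⟨hp, rfl⟩
      have hk := kp_ge hC hp
      have hd := hC.dens (kp p) p hpm (2 ^ (i + 1)) (one_le_pow₀ (by norm_num))
        (pow_le_pow_right₀ (by norm_num) (by omega))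
      refine le_trans ?_ hd
      norm_cast
      apply Finset.card_le_card
      intro q hq
      rw [Finset.mem_filter, hT', Finset.mem_filter] at hq
      obtain ⟨⟨hq1, hq2⟩, hq3⟩ := hq
      obtain ⟨a1, a2⟩ := ch_log (hone q hq1)
      rw [hq3] at a2
      rw [Finset.mem_filter]
      have hq1' := hq1
      rw [hT, Finset.mem_filter] at hq1'
      refine ⟨hq1'.1, ?_⟩
      rw [norm_sub_rev]
      push_cast
      exact a2.le
    calc ∑ q ∈ T'.filter (fun q => Nat.log 2 ⌊‖p - q‖⌋₊ = i), N q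
        ≤ ∑ _q ∈ T'.filter (fun q => Nat.log 2 ⌊‖p - q‖⌋₊ = i),
            C1 * 2 ^ (114600 * ν) / (2 ^ i) ^ 2 := Finset.sum_le_sum hpt
      _ = ((T'.filter (fun q => Nat.log 2 ⌊‖p - q‖⌋₊ = i)).card : ℝ) *
            (C1 * 2 ^ (114600 * ν) / (2 ^ i) ^ 2) := by
          rw [Finset.sum_const, nsmul_eq_mul]
      _ ≤ u * 2 ^ (i + 1) * (C1 * 2 ^ (114600 * ν) / (2 ^ i) ^ 2) := by gcongr
      _ = 2 * u * C1 * 2 ^ (114600 * ν) * (1 / (2 : ℝ)) ^ i := by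
          rw [one_div, inv_pow, pow_succ]
          have : (2 : ℝ) ^ i ≠ 0 := by positivity
          field_simp
  refine (Finset.sum_le_sum hin).trans ?_
  rw [← Finset.mul_sum]
  have hg := ch_geom (40000 * ν) (40300 * ν + 18)
  calc 2 * u * C1 * 2 ^ (114600 * ν) * ∑ i ∈ Finset.Icc (40000 * ν) (40300 * ν + 18),
        (1 / (2 : ℝ)) ^ i
      ≤ 2 * u * C1 * 2 ^ (114600 * ν) * (2 * (1 / (2 : ℝ)) ^ (40000 * ν)) := by gcongr
    _ = 4 * u * C1 * 2 ^ (74600 * ν) := by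
        have e2 : (2 : ℝ) ^ (114600 * ν) = 2 ^ (74600 * ν) * 2 ^ (40000 * ν) := by
          rw [← pow_add]
          congr 1
          ring
        rw [e2, one_div, inv_pow]
        have : (2 : ℝ) ^ (40000 * ν) ≠ 0 := by positivity
        field_simp
        ring

open scoped Classical in
/-- few heavy labels (boundary theorem card_Hv) -/
theorem card_Hv' : ∃ (C : ℝ) (ν0 : ℕ), 0 < C ∧ ∀ (ν : ℕ) (u : ℝ) (S : Finset (X 2))
    (v : Fin 4 → ℤ) (J' : ℕ), ν0 ≤ ν → Cf ν u S v J' → ∀ p ∈ S,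
    (((J 2 (kap ν)).filter (fun j => ∃ p' ∈ S, blk ν p' = blk ν p ∧
      ‖Lk (kap ν) (w (kap ν) j) (p - p')‖ ≤ 2 ^ (ν + 1) ∧ Hv ν u S p' j)).card : ℝ) ≤
      C * 2 ^ (2 * kap ν) / 2 ^ ν := by
  obtain ⟨C1, ν1, hC1, hq⟩ := one_q
  refine ⟨4 * C1, max ν1 1, by positivity, ?_⟩
  intro ν u S v J' hν hC p hp
  have hν1 : ν1 ≤ ν := (le_max_left _ _).trans hν
  have hν' : 1 ≤ ν := (le_max_right _ _).trans hν
  set B := (J 2 (kap ν)).filter (fun j => ∃ p' ∈ S, blk ν p' = blk ν p ∧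
      ‖Lk (kap ν) (w (kap ν) j) (p - p')‖ ≤ 2 ^ (ν + 1) ∧ Hv ν u S p' j) with hB
  set T := (scX (kp p) S).filter (fun q => blk ν q ≠ blk ν p) with hT
  have hu : 0 < u := lt_of_lt_of_le one_pos hC.u1
  have hfar : ∀ q ∈ T, (2 : ℝ) ^ (40000 * ν) ≤ ‖p - q‖ := by
    intro q hq'
    rw [hT, Finset.mem_filter] at hq'
    obtain ⟨hq1, hq2⟩ := hq'
    unfold scX at hq1
    rw [Finset.mem_filter] at hq1
    refine le_trans ?_ (far_same hC hp hq1.1 hq1.2.symm hq2)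
    exact pow_le_pow_right₀ (by norm_num) (by omega)
  have s1 : ∀ j ∈ B, u * 2 ^ (34901 * ν) ≤ ((T.filter
      (fun q => ‖Lk (3000 * ν) (w (kap ν) j) (p - q)‖ ≤ 2 * 2 ^ (34300 * ν + 8))).card : ℝ) := by
    intro j hj
    rw [hB, Finset.mem_filter] at hj
    obtain ⟨hj1, p', hp', hb, h1, h2⟩ := hj
    exact ch_heavy hν' hb h1 h2
  have s2 : (B.card : ℝ) * (u * 2 ^ (34901 * ν)) ≤ ∑ q ∈ T, (((J 2 (kap ν)).filter
      (fun j => ‖Lk (3000 * ν) (w (kap ν) j) (p - q)‖ ≤ 2 * 2 ^ (34300 * ν + 8))).card : ℝ) := by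
    calc (B.card : ℝ) * (u * 2 ^ (34901 * ν)) = ∑ _j ∈ B, (u * 2 ^ (34901 * ν)) := by
          rw [Finset.sum_const, nsmul_eq_mul]
      _ ≤ ∑ j ∈ B, ((T.filter (fun q => ‖Lk (3000 * ν) (w (kap ν) j) (p - q)‖ ≤
            2 * 2 ^ (34300 * ν + 8))).card : ℝ) := Finset.sum_le_sum s1
      _ ≤ ∑ j ∈ J 2 (kap ν), ((T.filter (fun q => ‖Lk (3000 * ν) (w (kap ν) j) (p - q)‖ ≤
            2 * 2 ^ (34300 * ν + 8))).card : ℝ) :=
          Finset.sum_le_sum_of_subset_of_nonneg (Finset.filter_subset _ _)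
            (fun _ _ _ => by positivity)
      _ = _ := by
          simp only [Finset.card_filter]
          push_cast
          exact Finset.sum_comm
  have s3 := ch_sum hC hp hC1 (fun q => (((J 2 (kap ν)).filter
      (fun j => ‖Lk (3000 * ν) (w (kap ν) j) (p - q)‖ ≤ 2 * 2 ^ (34300 * ν + 8))).card : ℝ))
      (fun q hq' => (hq ν hν1 (p - q) (hfar q hq')).1)
      (fun q hq' hne => (hq ν hν1 (p - q) (hfar q hq')).2 (by
        rw [← Finset.card_pos]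
        apply Nat.pos_of_ne_zero
        intro h0
        apply hne
        rw [h0, Nat.cast_zero]))
  have s4 := s2.trans s3
  rw [le_div_iff₀ (by positivity)]
  have hpos : (0 : ℝ) < u * 2 ^ (34900 * ν) := by positivity
  refine le_of_mul_le_mul_right ?_ hpos
  have e1 : (B.card : ℝ) * 2 ^ ν * (u * 2 ^ (34900 * ν)) = (B.card : ℝ) * (u * 2 ^ (34901 * ν)) := by
    have : (2 : ℝ) ^ (34901 * ν) = 2 ^ ν * 2 ^ (34900 * ν) := by
      rw [← pow_add]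
      congr 1
      ring
    rw [this]
    ring
  rw [e1]
  refine s4.trans ?_
  have e2 : 4 * C1 * 2 ^ (2 * kap ν) * (u * 2 ^ (34900 * ν)) =
      4 * u * C1 * 2 ^ (74900 * ν) := by
    have : (2 : ℝ) ^ (74900 * ν) = 2 ^ (2 * kap ν) * 2 ^ (34900 * ν) := by
      rw [← pow_add]
      congr 1
      unfold kap
      ring
    rw [this]
    ring
  rw [e2]
  have : (2 : ℝ) ^ (74600 * ν) ≤ 2 ^ (74900 * ν) := pow_le_pow_right₀ (by norm_num) (by omega)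
  gcongr

end Pool.LibCA93
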