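import Pool.Agent.LibCA93.CB
import Pool.Agent.LibCA93.CH
import Pool.Agent.LibCA93.CE

/-
BOUNDARY C (flags and energy). Geometry of the configuration Cf: fractions of bad cells and of heavy labels, and the energy sum En.
-/

set_option autoImplicit false

noncomputable section

open MeasureTheory Metric Set Filter

namespace Pool.LibCA93

open Pool.LibSR53 Pool.LibST49

/-- every class has few bad cells -/
theorem card_Bad : ∃ (C : ℝ) (ν0 : ℕ), 0 < C ∧ ∀ (ν : ℕ) (u : ℝ) (S : Finset (X 2))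
    (v : Fin 4 → ℤ) (J : ℕ), ν0 ≤ ν → Cf ν u S v J → ∀ l < J, ∀ c : ℕ × (Fin 4 → ℤ),
    ((Bad ν u S v l c).card : ℝ) ≤ C * (aL ν l : ℝ) * 2 ^ (199 * aL ν l) := by
  obtain ⟨C, ν0, hC, h⟩ := card_Bad'
  exact ⟨C, ν0, hC, fun ν u S v J hν hCf l _ c => h ν u S v J hν hCf l c⟩

open scoped Classical in
/-- every point has few labels which are heavy for some point of its block close to it in plank
coordinates -/
theorem card_Hv : ∃ (C : ℝ) (ν0 : ℕ), 0 < C ∧ ∀ (ν : ℕ) (u : ℝ) (S : Finset (X 2))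
    (v : Fin 4 → ℤ) (J' : ℕ), ν0 ≤ ν → Cf ν u S v J' → ∀ p ∈ S,
    (((J 2 (kap ν)).filter (fun j => ∃ p' ∈ S, blk ν p' = blk ν p ∧
      ‖Lk (kap ν) (w (kap ν) j) (p - p')‖ ≤ 2 ^ (ν + 1) ∧ Hv ν u S p' j)).card : ℝ) ≤
      C * 2 ^ (2 * kap ν) / 2 ^ ν :=
  card_Hv'

/-- the energy -/
theorem energy (K : ℝ) (M N : ℕ) (hM : 4 ≤ M) (hN : 10 ≤ N) : ∃ (C : ℝ) (ν0 : ℕ), 0 < C ∧
    ∀ (ν : ℕ) (u : ℝ) (S : Finset (X 2)) (v : Fin 4 → ℤ) (J : ℕ), ν0 ≤ ν → Cf ν u S v J →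
    ∀ i0 : ℕ, En ν u S v K M N i0 ≤ C * (1 + u * i0) * WX S :=
  energy' K M N hM hN

end Pool.LibCA93
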