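import Pool.Agent.LibCA93.CG3
import Pool.Agent.LibCA93.CL

/-
PLAN (CB2, MEDIUM). Like CB1. (X): k := kp z0, k in window l, k >= 40300 a. eL ν l <= k - 2 kap ν (40000 a - 40000 ν <= k - 40000 ν), so by grd_nest all z of the class c lie in the same cube of side 2^k:
PB ν S v (kp z) (grd v (kp z - 2 kap) (blk z)) =: P is one set. p in P: kp p >= k + 3, so ‖p - z‖ >= 2^(kp p)/4 >= 2^(k+1) (cross_norm), ‖z - z0‖ <= 2 2^(40000 a): om_close as in CB1. label_count with T := P, n := (#P + u 2^k)/2^(199 a) > 0: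
#B <= 361 #P 2^(199a)/(#P + u 2^k) <= 361 2^(199 a).
(N): k := kp z0 (= kp z), p in TN S k k' z: p in scX k' S, ‖p - z‖ <= 2^(k+4), k' + 3 <= k so ‖p - z‖ >= 2^(k-2) >= 2^(k'+1) >= 2^(40300 a): om_close as before; ‖p - z0‖ <= 2^(k+5). T := {p in scX k' S : ‖p - z0‖ <= 2^(k+5)}:
count_big with k', j = k + 5 - k' <= 25 a + 5: #T <= C u 2^k' 2^(100 a + 20); n := u 2^k'/2^(99 a): #B <= C 2^(199 a).
-/

set_option autoImplicit false

noncomputable section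

open MeasureTheory Metric Set Filter

namespace Pool.LibCA93

open Pool.LibSR53 Pool.LibST49

private lemma cb2_move {ν l : ℕ} (hν : 1 ≤ ν) {p z z0 : X 2} {w0 : E 2}
    (h1 : ‖p - z‖ ≤ 10 * |(p - z).2.1|) (h2 : ‖om (p - z) - w0‖ ≤ 8 / 2 ^ (kl ν l))
    (h3 : ‖z - z0‖ ≤ 2 * 2 ^ (40000 * aL ν l)) (h4 : (2 : ℝ) ^ (40300 * aL ν l) ≤ ‖p - z‖) :
    ‖om (p - z0) - w0‖ ≤ 9 / 2 ^ (kl ν l) := by
  have ha : 1 ≤ aL ν l := Nat.mul_pos hν (pow_pos (by norm_num) l)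
  obtain ⟨a, haa⟩ : ∃ a, a = aL ν l := ⟨_, rfl⟩
  have hkl : kl ν l = 100 * a := by rw [haa]; rfl
  rw [hkl] at h2 ⊢
  rw [← haa] at ha h3 h4
  have hZ : 0 < ‖p - z‖ := lt_of_lt_of_le (by positivity) h4
  have h0 : (p - z).2.1 ≠ 0 := by
    intro h
    rw [h, abs_zero, mul_zero] at h1
    linarith
  have hP : (0 : ℝ) < 2 ^ (300 * a) := by positivity
  have hbig : (200 : ℝ) ≤ 2 ^ (200 * a) := by
    calc (200 : ℝ) ≤ 2 ^ 8 := by norm_num
      _ ≤ 2 ^ (200 * a) := pow_le_pow_right₀ (by norm_num) (by omega)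
  have hbig3 : (200 : ℝ) ≤ 2 ^ (300 * a) :=
    hbig.trans (pow_le_pow_right₀ (by norm_num) (by omega))
  have hδ1 : 2 / (2 : ℝ) ^ (300 * a) ≤ 1 / 100 := by
    rw [div_le_div_iff₀ hP (by norm_num)]
    linarith
  have hd : ‖(p - z) - (p - z0)‖ ≤ 2 / (2 : ℝ) ^ (300 * a) * ‖p - z‖ := by
    have e1 : (p - z) - (p - z0) = -(z - z0) := by abel
    rw [e1, norm_neg]
    refine h3.trans ?_
    have e2 : (2 : ℝ) ^ (40300 * a) = 2 ^ (300 * a) * 2 ^ (40000 * a) := by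
      rw [← pow_add]
      congr 1
      ring
    calc 2 * (2 : ℝ) ^ (40000 * a) = 2 / (2 : ℝ) ^ (300 * a) * 2 ^ (40300 * a) := by
          rw [e2]
          field_simp
      _ ≤ _ := mul_le_mul_of_nonneg_left h4 (by positivity)
  have h5 := om_close h1 h0 (by positivity) hδ1 hd
  have h6 : 100 * (2 / (2 : ℝ) ^ (300 * a)) ≤ 1 / 2 ^ (100 * a) := by
    have e3 : (2 : ℝ) ^ (300 * a) = 2 ^ (200 * a) * 2 ^ (100 * a) := by
      rw [← pow_add]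
      congr 1
      ring
    rw [e3, ← mul_div_assoc, div_le_div_iff₀ (by positivity) (by positivity)]
    have : (0 : ℝ) < 2 ^ (100 * a) := by positivity
    nlinarith
  have h7 : om (p - z0) - w0 = -(om (p - z) - om (p - z0)) + (om (p - z) - w0) := by abel
  rw [h7]
  refine (norm_add_le _ _).trans ?_
  rw [norm_neg]
  have h8 : (9 : ℝ) / 2 ^ (100 * a) = 1 / 2 ^ (100 * a) + 8 / 2 ^ (100 * a) := by ring
  rw [h8]
  exact add_le_add (h5.trans h6) h2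

private lemma cb2_cls {ν l : ℕ} {v : Fin 4 → ℤ} {z z0 : X 2} {c : ℕ × (Fin 4 → ℤ)}
    (h : pil ν v l (blk ν z) = c) (h0 : pil ν v l (blk ν z0) = c) :
    kp z = kp z0 ∧ ‖z - z0‖ ≤ 2 * 2 ^ (40000 * aL ν l) ∧
      grd v (eL ν l) (blk ν z) = grd v (eL ν l) (blk ν z0) := by
  have h1 : grd v (eL ν l) (blk ν z) = grd v (eL ν l) (blk ν z0) := h.trans h0.symm
  refine ⟨congrArg Prod.fst h1, ?_, h1⟩
  have h2 := grd_close h1
  have h3 : 40000 * ν + eL ν l = 40000 * aL ν l := by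
    unfold eL aL
    have : 1 ≤ 2 ^ l := Nat.one_le_two_pow
    obtain ⟨n, hn⟩ : ∃ n, 2 ^ l = n + 1 := ⟨2 ^ l - 1, by omega⟩
    rw [hn, Nat.add_sub_cancel]
    ring
  rwa [h3] at h2

private lemma cb2_fin {x D c b : ℝ} (hx : 0 < x) (hD : 0 < D) (h : x / D * b ≤ c * x) :
    b ≤ c * D := by
  have h1 : x / D * b = x * (b / D) := by ring
  rw [h1, mul_comm c x] at h
  have h2 := le_of_mul_le_mul_left h hx
  rwa [div_le_iff₀ hD] at h2

/-- bad cells of type (X) -/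
theorem bad_X : ∃ (C : ℝ) (ν0 : ℕ), 0 < C ∧ ∀ (ν : ℕ) (u : ℝ) (S : Finset (X 2))
    (v : Fin 4 → ℤ) (J' : ℕ), ν0 ≤ ν → Cf ν u S v J' → ∀ (l : ℕ) (c : ℕ × (Fin 4 → ℤ)),
    ∀ B : Finset (Fin 2 → ℤ),
    (∀ j ∈ B, ∃ z ∈ S, pil ν v l (blk ν z) = c ∧ inW ν l (kp z) ∧
      (((PB ν S v (kp z) (grd v (kp z - 2 * kap ν) (blk ν z))).card : ℝ) + u * 2 ^ (kp z)) /
            2 ^ (199 * aL ν l) <
          (Cn (PB ν S v (kp z) (grd v (kp z - 2 * kap ν) (blk ν z))) z (w (kl ν l) j)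
            (8 / 2 ^ (kl ν l)) : ℝ)) →
    (B.card : ℝ) ≤ C * 2 ^ (199 * aL ν l) := by
  classical
  refine ⟨361, 1, by norm_num, fun ν u S v J' hν hC l c B hB => ?_⟩
  have hpos : (0 : ℝ) < 2 ^ (199 * aL ν l) := by positivity
  rcases B.eq_empty_or_nonempty with hBe | ⟨j0, hj0⟩
  · rw [hBe, Finset.card_empty, Nat.cast_zero]
    positivity
  obtain ⟨z0, hz0, hc0, hi0, -⟩ := hB j0 hj0
  have hu : 0 < u := lt_of_lt_of_le one_pos hC.u1
  obtain ⟨P, hP⟩ : ∃ P : Finset (X 2),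
      P = PB ν S v (kp z0) (grd v (kp z0 - 2 * kap ν) (blk ν z0)) := ⟨_, rfl⟩
  have hle : eL ν l ≤ kp z0 - 2 * kap ν := by
    have h1 := hi0.1
    have h2 : 40000 * ν + eL ν l = 40000 * aL ν l := by
      unfold eL aL
      have : 1 ≤ 2 ^ l := Nat.one_le_two_pow
      obtain ⟨n, hn⟩ : ∃ n, 2 ^ l = n + 1 := ⟨2 ^ l - 1, by omega⟩
      rw [hn, Nat.add_sub_cancel]
      ring
    unfold kap
    omega
  have h := label_count (kl ν l) P z0 ((((P.card : ℝ)) + u * 2 ^ (kp z0)) /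
      2 ^ (199 * aL ν l)) B (fun j hj => by
    obtain ⟨z, hz, hc, hik, hn⟩ := hB j hj
    obtain ⟨hk, hzz, hgr⟩ := cb2_cls hc hc0
    have hPz : PB ν S v (kp z) (grd v (kp z - 2 * kap ν) (blk ν z)) = P := by
      rw [hP, hk, grd_nest hle hgr]
    rw [hPz, hk] at hn
    refine hn.le.trans ?_
    rw [Cn]
    refine Nat.cast_le.2 (Finset.card_le_card fun p hp => ?_)
    rw [Finset.mem_filter] at hp
    obtain ⟨hp1, hp4, hp5⟩ := hp
    have hp1' := hp1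
    rw [hP, PB, Finset.mem_filter] at hp1'
    obtain ⟨hpS, hkp, -⟩ := hp1'
    have hcn := cross_norm hC hpS hz (by rw [hk]; exact hkp)
    have h4 : (2 : ℝ) ^ (40300 * aL ν l) ≤ ‖p - z‖ := by
      have e1 : (2 : ℝ) ^ (40300 * aL ν l) ≤ 2 ^ kp z0 :=
        pow_le_pow_right₀ (by norm_num) hi0.1
      have e2 : (2 : ℝ) ^ (kp z0 + 3) ≤ 2 ^ kp p := pow_le_pow_right₀ (by norm_num) hkp
      have e3 : (2 : ℝ) ^ (kp z0 + 3) = 8 * 2 ^ kp z0 := by ring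
      have e4 : (0 : ℝ) < 2 ^ kp z0 := by positivity
      linarith
    rw [Finset.mem_filter]
    exact ⟨hp1, cb2_move hC.nu1 hp4 hp5 hzz h4⟩)
  have hxx : 0 < (P.card : ℝ) + u * 2 ^ (kp z0) := by positivity
  refine cb2_fin (x := (P.card : ℝ) + u * 2 ^ (kp z0)) hxx hpos (h.trans ?_)
  have : 0 < u * 2 ^ (kp z0) := by positivity
  linarith

/-- bad cells of type (N) for one small scale -/
theorem bad_N : ∃ (C : ℝ) (ν0 : ℕ), 0 < C ∧ ∀ (ν : ℕ) (u : ℝ) (S : Finset (X 2))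
    (v : Fin 4 → ℤ) (J' : ℕ), ν0 ≤ ν → Cf ν u S v J' → ∀ (l k' : ℕ) (c : ℕ × (Fin 4 → ℤ)),
    inW ν l k' → ∀ B : Finset (Fin 2 → ℤ),
    (∀ j ∈ B, ∃ z ∈ S, pil ν v l (blk ν z) = c ∧ k' + 3 ≤ kp z ∧ kp z ≤ k' + 25 * aL ν l ∧
        u * 2 ^ k' / 2 ^ (99 * aL ν l) <
          (Cn (TN S (kp z) k' z) z (w (kl ν l) j) (8 / 2 ^ (kl ν l)) : ℝ)) →
    (B.card : ℝ) ≤ C * 2 ^ (199 * aL ν l) := by
  classical
  obtain ⟨C, hCp, hcb⟩ := count_big
  refine ⟨361 * C * 2 ^ 20, 1, by positivity, fun ν u S v J' hν hC l k' c hi B hB => ?_⟩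
  have hpos : (0 : ℝ) < 2 ^ (99 * aL ν l) := by positivity
  rcases B.eq_empty_or_nonempty with hBe | ⟨j0, hj0⟩
  · rw [hBe, Finset.card_empty, Nat.cast_zero]
    positivity
  obtain ⟨z0, hz0, hc0, hk1, hk2, -⟩ := hB j0 hj0
  have hu : 0 < u := lt_of_lt_of_le one_pos hC.u1
  obtain ⟨T, hT⟩ : ∃ T : Finset (X 2),
      T = (scX k' S).filter (fun p => ‖p - z0‖ ≤ 2 ^ (k' + (kp z0 + 5 - k'))) := ⟨_, rfl⟩
  have hTc : (T.card : ℝ) ≤ C * u * 2 ^ k' * (2 ^ 20 * 2 ^ (100 * aL ν l)) := by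
    rw [hT]
    refine (hcb u S (fun p hp => one_le_rad hC hp) hu.le hC.dens k' (kp z0 + 5 - k') z0).trans ?_
    refine mul_le_mul_of_nonneg_left ?_ (by positivity)
    rw [← pow_add]
    exact pow_le_pow_right₀ (by norm_num) (by omega)
  have h := label_count (kl ν l) T z0 (u * 2 ^ k' / 2 ^ (99 * aL ν l)) B (fun j hj => by
    obtain ⟨z, hz, hc, hk3, hk4, hn⟩ := hB j hj
    refine hn.le.trans ?_
    obtain ⟨hk, hzz, -⟩ := cb2_cls hc hc0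
    rw [Cn]
    refine Nat.cast_le.2 (Finset.card_le_card fun p hp => ?_)
    rw [Finset.mem_filter, TN, Finset.mem_filter] at hp
    obtain ⟨⟨hp1, hp2⟩, hp4, hp5⟩ := hp
    have hp1' := hp1
    rw [scX, Finset.mem_filter] at hp1'
    have hcn := cross_norm hC hz hp1'.1 (by rw [hp1'.2]; exact hk3)
    rw [norm_sub_rev] at hcn
    have e0 : (2 : ℝ) ^ (k' + 3) ≤ 2 ^ kp z := pow_le_pow_right₀ (by norm_num) hk3
    have e1 : (2 : ℝ) ^ (k' + 3) = 8 * 2 ^ k' := by ring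
    have e2 : (0 : ℝ) < 2 ^ k' := by positivity
    have h4 : (2 : ℝ) ^ (40300 * aL ν l) ≤ ‖p - z‖ := by
      have e3 : (2 : ℝ) ^ (40300 * aL ν l) ≤ 2 ^ k' := pow_le_pow_right₀ (by norm_num) hi.1
      linarith
    rw [Finset.mem_filter, hT, Finset.mem_filter]
    refine ⟨⟨hp1, ?_⟩, cb2_move hC.nu1 hp4 hp5 hzz h4⟩
    have e5 : k' + (kp z0 + 5 - k') = kp z + 5 := by omega
    rw [e5]
    have e6 : p - z0 = (p - z) + (z - z0) := by abel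
    rw [e6]
    refine (norm_add_le _ _).trans ?_
    have e7 : (2 : ℝ) ^ (40000 * aL ν l) ≤ 2 ^ k' :=
      pow_le_pow_right₀ (by norm_num) ((Nat.mul_le_mul_right _ (by norm_num)).trans hi.1)
    have e8 : (2 : ℝ) ^ (kp z + 4) = 16 * 2 ^ kp z := by ring
    have e9 : (2 : ℝ) ^ (kp z + 5) = 32 * 2 ^ kp z := by ring
    rw [e9]
    rw [e8] at hp2
    linarith)
  have e10 : (2 : ℝ) ^ (199 * aL ν l) = 2 ^ (100 * aL ν l) * 2 ^ (99 * aL ν l) := by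
    rw [← pow_add]
    congr 1
    ring
  rw [e10, ← mul_assoc]
  refine cb2_fin (x := u * 2 ^ k') (by positivity) hpos (h.trans ?_)
  calc 361 * (T.card : ℝ) ≤ 361 * (C * u * 2 ^ k' * (2 ^ 20 * 2 ^ (100 * aL ν l))) :=
        mul_le_mul_of_nonneg_left hTc (by norm_num)
    _ = 361 * C * 2 ^ 20 * 2 ^ (100 * aL ν l) * (u * 2 ^ k') := by ring

end Pool.LibCA93
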