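import Pool.Agent.LibCA93.CB1
import Pool.Agent.LibCA93.CB2

/-
PLAN (CB, SHORT). Bad is contained in the union over i in Finset.Ico (40300 a) (40300 a') (a = aL ν l, a' = aL ν (l+1) = 2 a) of the type (S) cells with i, the type (X) cells, and the union over k' in the same Ico of the type (N) cells.
card_biUnion_le, 40300 a values each, a >= 1.
-/

set_option autoImplicit false

noncomputable section

open MeasureTheory Metric Set Filter

namespace Pool.LibCA93

open Pool.LibSR53 Pool.LibST49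

/-- every class has few bad cells (boundary theorem card_Bad; holds for all l) -/
theorem card_Bad' : ∃ (C : ℝ) (ν0 : ℕ), 0 < C ∧ ∀ (ν : ℕ) (u : ℝ) (S : Finset (X 2))
    (v : Fin 4 → ℤ) (J' : ℕ), ν0 ≤ ν → Cf ν u S v J' → ∀ (l : ℕ) (c : ℕ × (Fin 4 → ℤ)),
    ((Bad ν u S v l c).card : ℝ) ≤ C * (aL ν l : ℝ) * 2 ^ (199 * aL ν l) := by
  classical
  obtain ⟨C1, n1, hC1, h1⟩ := bad_S
  obtain ⟨C2, n2, hC2, h2⟩ := bad_X
  obtain ⟨C3, n3, hC3, h3⟩ := bad_N
  refine ⟨40300 * C1 + C2 + 40300 * C3, max n1 (max n2 n3), by positivity, ?_⟩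
  intro ν u S v J' hν hCf l c
  have hν1 : n1 ≤ ν := le_trans (le_max_left _ _) hν
  have hν2 : n2 ≤ ν := le_trans (le_trans (le_max_left _ _) (le_max_right _ _)) hν
  have hν3 : n3 ≤ ν := le_trans (le_trans (le_max_right _ _) (le_max_right _ _)) hν
  set P1 : ℕ → (Fin 2 → ℤ) → Prop := fun i j => ∃ z ∈ S, pil ν v l (blk ν z) = c ∧
      i ≤ kp z + 5 ∧ u * 2 ^ i / 2 ^ (199 * aL ν l) <
        (Cn (TS S (kp z) i z) z (w (kl ν l) j) (8 / 2 ^ (kl ν l)) : ℝ) with hP1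
  set P2 : (Fin 2 → ℤ) → Prop := fun j => ∃ z ∈ S, pil ν v l (blk ν z) = c ∧ inW ν l (kp z) ∧
      (((PB ν S v (kp z) (grd v (kp z - 2 * kap ν) (blk ν z))).card : ℝ) + u * 2 ^ (kp z)) /
            2 ^ (199 * aL ν l) <
          (Cn (PB ν S v (kp z) (grd v (kp z - 2 * kap ν) (blk ν z))) z (w (kl ν l) j)
            (8 / 2 ^ (kl ν l)) : ℝ) with hP2
  set P3 : ℕ → (Fin 2 → ℤ) → Prop := fun k' j => ∃ z ∈ S, pil ν v l (blk ν z) = c ∧
      k' + 3 ≤ kp z ∧ kp z ≤ k' + 25 * aL ν l ∧ u * 2 ^ k' / 2 ^ (99 * aL ν l) <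
          (Cn (TN S (kp z) k' z) z (w (kl ν l) j) (8 / 2 ^ (kl ν l)) : ℝ) with hP3
  set I : Finset ℕ := Finset.Ico (40300 * aL ν l) (40300 * aL ν (l + 1)) with hI
  set B := Bad ν u S v l c with hB
  have hsub : B ⊆ (I.biUnion (fun i => B.filter (P1 i)) ∪ B.filter P2) ∪
      I.biUnion (fun k' => B.filter (P3 k')) := by
    intro j hj
    have hj' := hj
    rw [hB] at hj'
    unfold Bad at hj'
    rw [Finset.mem_filter] at hj'
    obtain ⟨_, z, hz, hc, hcase⟩ := hj'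
    rcases hcase with ⟨i, hi, hi5, hlt⟩ | ⟨hk, hlt⟩ | ⟨k', hk', h4, h5, hlt⟩
    · apply Finset.mem_union_left
      apply Finset.mem_union_left
      rw [Finset.mem_biUnion]
      refine ⟨i, ?_, ?_⟩
      · rw [hI, Finset.mem_Ico]; exact hi
      · rw [Finset.mem_filter]
        exact ⟨hj, z, hz, hc, hi5, hlt⟩
    · apply Finset.mem_union_left
      apply Finset.mem_union_right
      rw [Finset.mem_filter]
      exact ⟨hj, z, hz, hc, hk, hlt⟩
    · apply Finset.mem_union_right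
      rw [Finset.mem_biUnion]
      refine ⟨k', ?_, ?_⟩
      · rw [hI, Finset.mem_Ico]; exact hk'
      · rw [Finset.mem_filter]
        exact ⟨hj, z, hz, hc, h4, h5, hlt⟩
  have ha1 : 1 ≤ aL ν l := by
    have h0 := hCf.nu1
    unfold aL
    exact Nat.one_le_iff_ne_zero.mpr (Nat.mul_ne_zero (by omega) (by positivity))
  have ha2 : aL ν (l + 1) = 2 * aL ν l := by
    unfold aL
    rw [pow_succ]; ring
  have hIc : I.card = 40300 * aL ν l := by
    rw [hI, Nat.card_Ico, ha2]; omega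
  have b1 : ∀ i ∈ I, ((B.filter (P1 i)).card : ℝ) ≤ C1 * 2 ^ (199 * aL ν l) := by
    intro i hi
    rw [hI, Finset.mem_Ico] at hi
    apply h1 ν u S v J' hν1 hCf l i c hi
    intro j hj
    exact (Finset.mem_filter.mp hj).2
  have b2 : ((B.filter P2).card : ℝ) ≤ C2 * 2 ^ (199 * aL ν l) := by
    apply h2 ν u S v J' hν2 hCf l c
    intro j hj
    exact (Finset.mem_filter.mp hj).2
  have b3 : ∀ k' ∈ I, ((B.filter (P3 k')).card : ℝ) ≤ C3 * 2 ^ (199 * aL ν l) := by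
    intro k' hk'
    rw [hI, Finset.mem_Ico] at hk'
    apply h3 ν u S v J' hν3 hCf l k' c hk'
    intro j hj
    exact (Finset.mem_filter.mp hj).2
  have c1 : ((I.biUnion (fun i => B.filter (P1 i))).card : ℝ) ≤
      (40300 * (aL ν l : ℝ)) * (C1 * 2 ^ (199 * aL ν l)) := by
    calc ((I.biUnion (fun i => B.filter (P1 i))).card : ℝ)
        ≤ ((∑ i ∈ I, (B.filter (P1 i)).card : ℕ) : ℝ) := by
          exact_mod_cast Finset.card_biUnion_le
      _ = ∑ i ∈ I, ((B.filter (P1 i)).card : ℝ) := by push_cast; rfl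
      _ ≤ ∑ i ∈ I, C1 * 2 ^ (199 * aL ν l) := Finset.sum_le_sum b1
      _ = (40300 * (aL ν l : ℝ)) * (C1 * 2 ^ (199 * aL ν l)) := by
          rw [Finset.sum_const, hIc, nsmul_eq_mul]; push_cast; ring
  have c3 : ((I.biUnion (fun k' => B.filter (P3 k'))).card : ℝ) ≤
      (40300 * (aL ν l : ℝ)) * (C3 * 2 ^ (199 * aL ν l)) := by
    calc ((I.biUnion (fun k' => B.filter (P3 k'))).card : ℝ)
        ≤ ((∑ i ∈ I, (B.filter (P3 i)).card : ℕ) : ℝ) := by
          exact_mod_cast Finset.card_biUnion_le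
      _ = ∑ i ∈ I, ((B.filter (P3 i)).card : ℝ) := by push_cast; rfl
      _ ≤ ∑ i ∈ I, C3 * 2 ^ (199 * aL ν l) := Finset.sum_le_sum b3
      _ = (40300 * (aL ν l : ℝ)) * (C3 * 2 ^ (199 * aL ν l)) := by
          rw [Finset.sum_const, hIc, nsmul_eq_mul]; push_cast; ring
  have c0 : (B.card : ℝ) ≤ ((I.biUnion (fun i => B.filter (P1 i))).card : ℝ) +
      ((B.filter P2).card : ℝ) + ((I.biUnion (fun k' => B.filter (P3 k'))).card : ℝ) := by
    have e1 := Finset.card_le_card hsub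
    have e2 := Finset.card_union_le (I.biUnion (fun i => B.filter (P1 i)) ∪ B.filter P2)
      (I.biUnion (fun k' => B.filter (P3 k')))
    have e3 := Finset.card_union_le (I.biUnion (fun i => B.filter (P1 i))) (B.filter P2)
    have e4 : B.card ≤ (I.biUnion (fun i => B.filter (P1 i))).card + (B.filter P2).card +
        (I.biUnion (fun k' => B.filter (P3 k'))).card := by omega
    exact_mod_cast e4
  have ha1' : (1 : ℝ) ≤ (aL ν l : ℝ) := by exact_mod_cast ha1
  have hpow : (0 : ℝ) < 2 ^ (199 * aL ν l) := by positivity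
  have b2' : C2 * 2 ^ (199 * aL ν l) ≤ (aL ν l : ℝ) * (C2 * 2 ^ (199 * aL ν l)) := by
    have : 0 ≤ C2 * (2 : ℝ) ^ (199 * aL ν l) := by positivity
    nlinarith
  calc (B.card : ℝ) ≤ _ := c0
    _ ≤ (40300 * (aL ν l : ℝ)) * (C1 * 2 ^ (199 * aL ν l)) +
        (aL ν l : ℝ) * (C2 * 2 ^ (199 * aL ν l)) +
        (40300 * (aL ν l : ℝ)) * (C3 * 2 ^ (199 * aL ν l)) := by
        linarith
    _ = (40300 * C1 + C2 + 40300 * C3) * (aL ν l : ℝ) * 2 ^ (199 * aL ν l) := by ring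

end Pool.LibCA93
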