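import Pool.Agent.LibCA93.CG3
import Pool.Agent.LibCA93.CL

/-
PLAN (CB1, MEDIUM). a := aL ν l, φ = 2^(-100 a) = 1/2^(kl ν l). If B is empty nothing to prove; otherwise z0 := the z of some j in B (k := kp z0 = c.1 = kp z for all z of the class: pil, grd keep the first component).
For j in B with its z: ‖z - z0‖ <= 2 2^(40000 ν + eL ν l) = 2 2^(40000 a) (grd_close). Every p counted in Cn (TS S k i z) z (w j) (8φ): 2^i <= ‖p - z‖ < 2^(i+1), ‖p-z‖ <= 10|(p-z).2.1|, i >= 40300 a, so ‖(p-z) - (p-z0)‖ <= δ ‖p-z‖ with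
δ = 2 2^(-300 a) <= 1/100 and 100 δ <= 2^(-100a) (ν >= ν0): om_close gives ‖om (p-z0) - w j‖ <= 9 φ; and ‖p - z0‖ <= 2^(i+2). label_count with T := {p in scX k S : ‖p - z0‖ <= 2^(i+2)}, #T <= u 2^(i+2) by DX (z0 in scX k S, i + 2 <= k + 20),
n := u 2^i/2^(199 a): #B <= 361 4 2^(199 a). (u >= 1 > 0.)
-/

set_option autoImplicit false

noncomputable section

open MeasureTheory Metric Set Filter

namespace Pool.LibCA93

open Pool.LibSR53 Pool.LibST49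

private lemma cb1_move {ν l : ℕ} (hν : 1 ≤ ν) {p z z0 : X 2} {w0 : E 2}
    (h1 : ‖p - z‖ ≤ 10 * |(p - z).2.1|) (h2 : ‖om (p - z) - w0‖ ≤ 8 / 2 ^ (kl ν l))
    (h3 : ‖z - z0‖ ≤ 2 * 2 ^ (40000 * aL ν l)) (h4 : (2 : ℝ) ^ (40300 * aL ν l) ≤ ‖p - z‖) :
    ‖om (p - z0) - w0‖ ≤ 9 / 2 ^ (kl ν l) := by
  have ha : 1 ≤ aL ν l := Nat.mul_pos hν (pow_pos (by norm_num) l)
  obtain ⟨a, haa⟩ : ∃ a, a = aL ν l := ⟨_, rfl⟩
  have hkl : kl ν l = 100 * a := by rw [haa]; rfl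
  rw [hkl] at h2 ⊢
  rw [← haa] at ha h3 h4
  have hZ : 0 < ‖p - z‖ := lt_of_lt_of_le (by positivity) h4
  have h0 : (p - z).2.1 ≠ 0 := by
    intro h
    rw [h, abs_zero, mul_zero] at h1
    linarith
  have hP : (0 : ℝ) < 2 ^ (300 * a) := by positivity
  have hbig : (200 : ℝ) ≤ 2 ^ (200 * a) := by
    calc (200 : ℝ) ≤ 2 ^ 8 := by norm_num
      _ ≤ 2 ^ (200 * a) := pow_le_pow_right₀ (by norm_num) (by omega)
  have hbig3 : (200 : ℝ) ≤ 2 ^ (300 * a) :=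
    hbig.trans (pow_le_pow_right₀ (by norm_num) (by omega))
  have hδ1 : 2 / (2 : ℝ) ^ (300 * a) ≤ 1 / 100 := by
    rw [div_le_div_iff₀ hP (by norm_num)]
    linarith
  have hd : ‖(p - z) - (p - z0)‖ ≤ 2 / (2 : ℝ) ^ (300 * a) * ‖p - z‖ := by
    have e1 : (p - z) - (p - z0) = -(z - z0) := by abel
    rw [e1, norm_neg]
    refine h3.trans ?_
    have e2 : (2 : ℝ) ^ (40300 * a) = 2 ^ (300 * a) * 2 ^ (40000 * a) := by
      rw [← pow_add]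
      congr 1
      ring
    calc 2 * (2 : ℝ) ^ (40000 * a) = 2 / (2 : ℝ) ^ (300 * a) * 2 ^ (40300 * a) := by
          rw [e2]
          field_simp
      _ ≤ _ := mul_le_mul_of_nonneg_left h4 (by positivity)
  have h5 := om_close h1 h0 (by positivity) hδ1 hd
  have h6 : 100 * (2 / (2 : ℝ) ^ (300 * a)) ≤ 1 / 2 ^ (100 * a) := by
    have e3 : (2 : ℝ) ^ (300 * a) = 2 ^ (200 * a) * 2 ^ (100 * a) := by
      rw [← pow_add]
      congr 1
      ring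
    rw [e3, ← mul_div_assoc, div_le_div_iff₀ (by positivity) (by positivity)]
    have : (0 : ℝ) < 2 ^ (100 * a) := by positivity
    nlinarith
  have h7 : om (p - z0) - w0 = -(om (p - z) - om (p - z0)) + (om (p - z) - w0) := by abel
  rw [h7]
  refine (norm_add_le _ _).trans ?_
  rw [norm_neg]
  have h8 : (9 : ℝ) / 2 ^ (100 * a) = 1 / 2 ^ (100 * a) + 8 / 2 ^ (100 * a) := by ring
  rw [h8]
  exact add_le_add (h5.trans h6) h2

private lemma cb1_cls {ν l : ℕ} {v : Fin 4 → ℤ} {z z0 : X 2} {c : ℕ × (Fin 4 → ℤ)}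
    (h : pil ν v l (blk ν z) = c) (h0 : pil ν v l (blk ν z0) = c) :
    kp z = kp z0 ∧ ‖z - z0‖ ≤ 2 * 2 ^ (40000 * aL ν l) ∧
      grd v (eL ν l) (blk ν z) = grd v (eL ν l) (blk ν z0) := by
  have h1 : grd v (eL ν l) (blk ν z) = grd v (eL ν l) (blk ν z0) := h.trans h0.symm
  refine ⟨congrArg Prod.fst h1, ?_, h1⟩
  have h2 := grd_close h1
  have h3 : 40000 * ν + eL ν l = 40000 * aL ν l := by
    unfold eL aL
    have : 1 ≤ 2 ^ l := Nat.one_le_two_pow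
    obtain ⟨n, hn⟩ : ∃ n, 2 ^ l = n + 1 := ⟨2 ^ l - 1, by omega⟩
    rw [hn, Nat.add_sub_cancel]
    ring
  rwa [h3] at h2

private lemma cb1_fin {x D c b : ℝ} (hx : 0 < x) (hD : 0 < D) (h : x / D * b ≤ c * x) :
    b ≤ c * D := by
  have h1 : x / D * b = x * (b / D) := by ring
  rw [h1, mul_comm c x] at h
  have h2 := le_of_mul_le_mul_left h hx
  rwa [div_le_iff₀ hD] at h2

/-- bad cells of type (S) for one dyadic distance -/
theorem bad_S : ∃ (C : ℝ) (ν0 : ℕ), 0 < C ∧ ∀ (ν : ℕ) (u : ℝ) (S : Finset (X 2))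
    (v : Fin 4 → ℤ) (J' : ℕ), ν0 ≤ ν → Cf ν u S v J' → ∀ (l i : ℕ) (c : ℕ × (Fin 4 → ℤ)),
    inW ν l i → ∀ B : Finset (Fin 2 → ℤ),
    (∀ j ∈ B, ∃ z ∈ S, pil ν v l (blk ν z) = c ∧ i ≤ kp z + 5 ∧
      u * 2 ^ i / 2 ^ (199 * aL ν l) <
        (Cn (TS S (kp z) i z) z (w (kl ν l) j) (8 / 2 ^ (kl ν l)) : ℝ)) →
    (B.card : ℝ) ≤ C * 2 ^ (199 * aL ν l) := by
  classical
  refine ⟨361 * 4, 1, by norm_num, fun ν u S v J' hν hC l i c hi B hB => ?_⟩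
  have hpos : (0 : ℝ) < 2 ^ (199 * aL ν l) := by positivity
  rcases B.eq_empty_or_nonempty with hBe | ⟨j0, hj0⟩
  · rw [hBe, Finset.card_empty, Nat.cast_zero]
    positivity
  obtain ⟨z0, hz0, hc0, hi0, -⟩ := hB j0 hj0
  have hu : 0 < u := lt_of_lt_of_le one_pos hC.u1
  obtain ⟨T, hT⟩ : ∃ T : Finset (X 2),
      T = (scX (kp z0) S).filter (fun p => ‖p - z0‖ ≤ 2 ^ (i + 2)) := ⟨_, rfl⟩
  have hTc : (T.card : ℝ) ≤ u * 2 ^ (i + 2) := by
    rw [hT]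
    refine hC.dens (kp z0) z0 ?_ (2 ^ (i + 2)) (one_le_pow₀ (by norm_num))
      (pow_le_pow_right₀ (by norm_num) (by omega))
    rw [scX, Finset.mem_filter]
    exact ⟨hz0, rfl⟩
  have h := label_count (kl ν l) T z0 (u * 2 ^ i / 2 ^ (199 * aL ν l)) B (fun j hj => by
    obtain ⟨z, hz, hc, hik, hn⟩ := hB j hj
    refine hn.le.trans ?_
    obtain ⟨hk, hzz, -⟩ := cb1_cls hc hc0
    rw [Cn]
    refine Nat.cast_le.2 (Finset.card_le_card fun p hp => ?_)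
    rw [Finset.mem_filter, TS, Finset.mem_filter] at hp
    obtain ⟨⟨hp1, hp2, hp3⟩, hp4, hp5⟩ := hp
    have h4 : (2 : ℝ) ^ (40300 * aL ν l) ≤ ‖p - z‖ :=
      (pow_le_pow_right₀ (by norm_num) hi.1).trans hp2
    rw [Finset.mem_filter, hT, Finset.mem_filter]
    refine ⟨⟨by rwa [← hk], ?_⟩, cb1_move hC.nu1 hp4 hp5 hzz h4⟩
    have e1 : p - z0 = (p - z) + (z - z0) := by abel
    rw [e1]
    refine (norm_add_le _ _).trans ?_
    have e2 : (2 : ℝ) ^ (40000 * aL ν l) ≤ 2 ^ i :=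
      pow_le_pow_right₀ (by norm_num) ((Nat.mul_le_mul_right _ (by norm_num)).trans hi.1)
    have e3 : (2 : ℝ) ^ (i + 1) = 2 * 2 ^ i := by ring
    have e4 : (2 : ℝ) ^ (i + 2) = 4 * 2 ^ i := by ring
    rw [e4]
    rw [e3] at hp3
    linarith)
  refine cb1_fin (x := u * 2 ^ i) (by positivity) hpos (h.trans ?_)
  have e4 : (2 : ℝ) ^ (i + 2) = 4 * 2 ^ i := by ring
  rw [e4] at hTc
  linarith

end Pool.LibCA93
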