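import Pool.Agent.LibCA93.CG2

/-
PLAN (CE1, SHORT). i < 40300 ν: aI = ν, at most 40300 ν terms 2^(-ν), ν 2^(-ν) <= 1. i >= 40300 ν: n := i/(40300 ν) (Nat division), 2^(log2 n + 1) > n, i.e. 2^(log2 n) >= (n+1)/2, and (n+1) 40300 ν > i, so aI ν i >= i/80600 (real):
1/th <= (2^(-1/80600))^i, geometric series (rpow; or group the i by i/80600: at most 80600 indices i for each value b of i/80600 (Nat division), each term <= 2^(-b)).
-/

set_option autoImplicit false

noncomputable section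

open MeasureTheory Metric Set Filter

namespace Pool.LibCA93

open Pool.LibSR53 Pool.LibST49

private theorem ce1_aI {ν : ℕ} (hν : 1 ≤ ν) (i : ℕ) : i < 80600 * aI ν i := by
  unfold aI
  have h1 : i / (40300 * ν) < 2 ^ (Nat.log 2 (i / (40300 * ν)) + 1) :=
    Nat.lt_pow_succ_log_self (by norm_num) _
  have h2 : i < 40300 * ν * (i / (40300 * ν) + 1) := by
    have := Nat.lt_mul_div_succ i (show 0 < 40300 * ν by omega)
    simpa using this
  have h3 : i / (40300 * ν) + 1 ≤ 2 * 2 ^ (Nat.log 2 (i / (40300 * ν))) := by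
    rw [pow_succ] at h1; omega
  calc i < 40300 * ν * (i / (40300 * ν) + 1) := h2
    _ ≤ 40300 * ν * (2 * 2 ^ (Nat.log 2 (i / (40300 * ν)))) := Nat.mul_le_mul_left _ h3
    _ = 80600 * (ν * 2 ^ (Nat.log 2 (i / (40300 * ν)))) := by ring

private theorem ce1_blk (N : ℕ) (hN : 0 < N) (m : ℕ) :
    ∑ i ∈ Finset.range (N * m), ((1 : ℝ) / 2) ^ (i / N) =
      N * ∑ b ∈ Finset.range m, ((1 : ℝ) / 2) ^ b := by
  induction m with
  | zero => simp
  | succ m ih =>
    rw [Nat.mul_succ, Finset.sum_range_add, ih, Finset.sum_range_succ, mul_add]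
    congr 1
    rw [Finset.sum_congr rfl (g := fun _ => ((1 : ℝ) / 2) ^ m)]
    · simp
    · intro x hx
      have hx' := Finset.mem_range.1 hx
      rw [Nat.mul_add_div hN, Nat.div_eq_of_lt hx', add_zero]

theorem th_sum : ∃ C : ℝ, 0 < C ∧ ∀ ν : ℕ, 1 ≤ ν → ∀ n : ℕ,
    ∑ i ∈ Finset.range n, 1 / th ν i ≤ C := by
  refine ⟨(80600 : ℕ) * 2, by norm_num, fun ν hν n => ?_⟩
  have h1 : ∀ i ∈ Finset.range n, 1 / th ν i ≤ ((1 : ℝ) / 2) ^ (i / 80600) := by
    intro i _
    have h := ce1_aI hν i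
    have h2 : i / 80600 ≤ aI ν i := by omega
    rw [th_eq, one_div, one_div, inv_pow]
    exact inv_anti₀ (by positivity) (pow_le_pow_right₀ (by norm_num) h2)
  have h2 : Finset.range n ⊆ Finset.range (80600 * n) := by
    intro i hi
    rw [Finset.mem_range] at *
    omega
  calc ∑ i ∈ Finset.range n, 1 / th ν i
      ≤ ∑ i ∈ Finset.range n, ((1 : ℝ) / 2) ^ (i / 80600) := Finset.sum_le_sum h1
    _ ≤ ∑ i ∈ Finset.range (80600 * n), ((1 : ℝ) / 2) ^ (i / 80600) :=
        Finset.sum_le_sum_of_subset_of_nonneg h2 (fun i _ _ => by positivity)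
    _ = (80600 : ℕ) * ∑ b ∈ Finset.range n, ((1 : ℝ) / 2) ^ b := ce1_blk 80600 (by norm_num) n
    _ ≤ (80600 : ℕ) * 2 := by
        refine mul_le_mul_of_nonneg_left ?_ (by norm_num)
        have h3 := Summable.sum_le_tsum (f := fun b : ℕ => ((1 : ℝ) / 2) ^ b) (Finset.range n)
          (fun b _ => by positivity) summable_geometric_two
        rw [tsum_geometric_two] at h3
        exact h3

end Pool.LibCA93
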