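import Pool.Agent.LibCA93.CM2
import Pool.Agent.LibCA93.BdB

/-
PLAN (CS, MEDIUM). P = Q = scX k S, N p q := blk q <> blk p, LT p q, idx p q = i. three_count (constants C3, c3) with t = 2^i, n = 4 u 2^i (DX, 4 2^i <= 2^(k+20) because i <= k+5 by pair_up if there is any pair; if there is none the sum is 0).
Hypotheses: idx_spec, pair_geo (|ap| <= C 4^a =: τ; τ <= c3 φ^12 2^i for ν >= ν0), ‖q - q'‖ <= ‖p-q‖ + ‖p-q'‖ <= 4 2^i. Λp = Λq = Λ (LT_symm, idx_symm, om_neg for the second). N p q' and q' in scX k S.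
Window l (i >= 40300 ν, exists_inW): φ = 2^(-100a), Λ = u 2^i/2^(199a), 16 φ^(-3/2) Λ u^2 4^i = 16 u^3 8^i 2^(-49 a): third root <= 3 u 2^i 2^(-16 a) <= 3 2^i 2^(-15a) (u <= 2^ν <= 2^a); Λ <= 2^i 2^(-198a).
Base window (40000 ν <= i < 40300 ν): φ = 2^(-3000 ν), Λ = u 2^(34901 ν): 16 φ^(-3/2) Λ u^2 4^i = 16 u^3 4^i 2^(39401 ν) <= 16 8^i 2^(-596 ν); Λ <= 2^i 2^(-5098ν). i < 40000 ν: no pairs (idx_spec).
-/

set_option autoImplicit false

noncomputable section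

open MeasureTheory Metric Set Filter

namespace Pool.LibCA93

open Pool.LibSR53 Pool.LibST49

private theorem cs_pow {X Z W : ℝ} (hX : 0 ≤ X) (hZ : 0 ≤ Z) (hW : 0 ≤ W)
    (h : X ^ 2 * Z ≤ W ^ 3) : X ^ ((2 : ℝ) / 3) * Z ^ ((1 : ℝ) / 3) ≤ W := by
  have h1 : X ^ ((2 : ℝ) / 3) = (X ^ 2) ^ ((1 : ℝ) / 3) := by
    rw [← Real.rpow_natCast X 2, ← Real.rpow_mul hX]
    norm_num
  rw [h1, ← Real.mul_rpow (by positivity) hZ]
  calc (X ^ 2 * Z) ^ ((1 : ℝ) / 3) ≤ (W ^ 3) ^ ((1 : ℝ) / 3) :=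
        Real.rpow_le_rpow (by positivity) h (by norm_num)
    _ = W := by
        rw [← Real.rpow_natCast W 3, ← Real.rpow_mul hW]
        norm_num

private theorem cs_phi (m : ℕ) : ((1 : ℝ) / 2 ^ (2 * m)) ^ (-((3 : ℝ) / 2)) = 2 ^ (3 * m) := by
  have h1 : ((1 : ℝ) / 2 ^ (2 * m)) = (2 : ℝ) ^ (-(2 * (m : ℝ))) := by
    rw [Real.rpow_neg (by norm_num), one_div]
    congr 1
    have := Real.rpow_natCast (2 : ℝ) (2 * m)
    push_cast at this
    rw [this]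
  rw [h1, ← Real.rpow_mul (by norm_num), ← Real.rpow_natCast (2 : ℝ) (3 * m)]
  congr 1
  push_cast
  ring

private theorem cs_large (x : ℝ) : ∃ n : ℕ, ∀ m ≥ n, x ≤ 2 ^ m := by
  obtain ⟨n, hn⟩ := pow_unbounded_of_one_lt x (by norm_num : (1 : ℝ) < 2)
  exact ⟨n, fun m hm => hn.le.trans (pow_le_pow_right₀ (by norm_num) hm)⟩

open scoped Classical in
private theorem cs_gen (K : ℝ) : ∃ (C c : ℝ) (ν0 : ℕ), 0 < C ∧ 0 < c ∧
    ∀ (ν : ℕ) (u : ℝ) (S : Finset (X 2))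
    (v : Fin 4 → ℤ) (J' : ℕ), ν0 ≤ ν → Cf ν u S v J' → ∀ (k i m : ℕ) (Λ D : ℝ),
    (1 : ℝ) / 2 ^ (2 * m) ≤ c →
    (4 : ℝ) ^ aI ν i ≤ c * (1 / 2 ^ (2 * m)) ^ 12 * 2 ^ i → 0 ≤ Λ → 0 ≤ D → Λ ≤ D →
    2 ^ (3 * m) * Λ * (4 * u * 2 ^ i) ^ 2 ≤ (3 * D) ^ 3 →
    (∀ p ∈ scX k S, ∀ q ∈ scX k S, (blk ν q ≠ blk ν p ∧ LT ν u S v K p q ∧ idx p q = i) →
      (((scX k S).filter (fun q' => (blk ν q' ≠ blk ν p ∧ LT ν u S v K p q' ∧ idx p q' = i) ∧
        ‖om (p - q') - om (p - q)‖ ≤ 1 / 2 ^ (2 * m))).card : ℝ) ≤ Λ) →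
    ∑ p ∈ scX k S, (((scX k S).filter (fun q => blk ν q ≠ blk ν p ∧ LT ν u S v K p q ∧
      idx p q = i)).card : ℝ) ≤ C * D * ((scX k S).card : ℝ) := by
  obtain ⟨C3, c3, hC3, hc3, h3⟩ := three_count
  obtain ⟨C1, ν1, hC1, h1⟩ := pair_geo K
  obtain ⟨ν2, h2⟩ := pair_up K
  refine ⟨4 * C3, min c3 (c3 / C1), max ν1 ν2, by positivity, by positivity, ?_⟩
  intro ν u S v J' hν hCf k i m Λ D hφ hτ hΛ hD hΛD hW hL
  have hν1 : ν1 ≤ ν := le_trans (le_max_left _ _) hν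
  have hν2 : ν2 ≤ ν := le_trans (le_max_right _ _) hν
  have hu : 1 ≤ u := hCf.u1
  have hu0 : 0 ≤ u := by linarith
  have hmS : ∀ p ∈ scX k S, p ∈ S ∧ kp p = k := fun p hp => Finset.mem_filter.1 hp
  have hX0 : (0 : ℝ) ≤ ((scX k S).card : ℝ) := Nat.cast_nonneg _
  by_cases hik : i ≤ k + 5
  · have key := h3 (1 / 2 ^ (2 * m)) (C1 * 4 ^ aI ν i) (2 ^ i) Λ Λ (4 * u * 2 ^ i)
      (scX k S) (scX k S) (fun p q => blk ν q ≠ blk ν p ∧ LT ν u S v K p q ∧ idx p q = i)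
      (by positivity) (hφ.trans (min_le_left _ _)) (by positivity) ?_ (by positivity) hΛ hΛ
      (by positivity) ?_ ?_ ?_ (fun p hp q hq h => by convert hL p hp q hq h) ?_
    · refine le_trans (le_trans (le_of_eq ?_) key) ?_
      · refine Finset.sum_congr rfl fun p _ => ?_
        congr!
      have h5 : ((scX k S).card : ℝ) ^ ((2 : ℝ) / 3) *
          ((1 / 2 ^ (2 * m)) ^ (-((3 : ℝ) / 2)) * Λ * ((scX k S).card : ℝ) *
            (4 * u * 2 ^ i) ^ 2) ^ ((1 : ℝ) / 3) ≤ 3 * D * ((scX k S).card : ℝ) := by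
        apply cs_pow hX0 _ (by positivity)
        · rw [cs_phi]
          calc ((scX k S).card : ℝ) ^ 2 * (2 ^ (3 * m) * Λ * ((scX k S).card : ℝ) *
                (4 * u * 2 ^ i) ^ 2)
              = (2 ^ (3 * m) * Λ * (4 * u * 2 ^ i) ^ 2) * ((scX k S).card : ℝ) ^ 3 := by ring
            _ ≤ (3 * D) ^ 3 * ((scX k S).card : ℝ) ^ 3 :=
                mul_le_mul_of_nonneg_right hW (by positivity)
            _ = (3 * D * ((scX k S).card : ℝ)) ^ 3 := by ring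
        · positivity
      have h6 : Λ * ((scX k S).card : ℝ) ≤ D * ((scX k S).card : ℝ) :=
        mul_le_mul_of_nonneg_right hΛD hX0
      calc C3 * (Λ * ((scX k S).card : ℝ) + ((scX k S).card : ℝ) ^ ((2 : ℝ) / 3) *
          ((1 / 2 ^ (2 * m)) ^ (-((3 : ℝ) / 2)) * Λ * ((scX k S).card : ℝ) *
            (4 * u * 2 ^ i) ^ 2) ^ ((1 : ℝ) / 3))
          ≤ C3 * (D * ((scX k S).card : ℝ) + 3 * D * ((scX k S).card : ℝ)) :=
            mul_le_mul_of_nonneg_left (add_le_add h6 h5) hC3.le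
        _ = 4 * C3 * D * ((scX k S).card : ℝ) := by ring
    · have h7 : (4 : ℝ) ^ aI ν i ≤ c3 / C1 * (1 / 2 ^ (2 * m)) ^ 12 * 2 ^ i :=
        hτ.trans (mul_le_mul_of_nonneg_right (mul_le_mul_of_nonneg_right (min_le_right _ _)
          (by positivity)) (by positivity))
      calc C1 * 4 ^ aI ν i ≤ C1 * (c3 / C1 * (1 / 2 ^ (2 * m)) ^ 12 * 2 ^ i) :=
            mul_le_mul_of_nonneg_left h7 hC1.le
        _ = c3 * (1 / 2 ^ (2 * m)) ^ 12 * 2 ^ i := by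
            field_simp
    · rintro p hp q hq ⟨hb, ⟨ω, hω, hLk, -⟩, hi⟩
      obtain ⟨hpS, hpk⟩ := hmS p hp
      obtain ⟨hqS, hqk⟩ := hmS q hq
      have hs := idx_spec hCf hpS hqS hb
      have hg := h1 ν u S v J' hν1 hCf p hpS q hqS hb ω hω hLk
      rw [hi] at hs hg
      refine ⟨hs.2.1, hg.1.trans ?_, hg.2.2.1⟩
      have := abs_nonneg (p - q).2.1
      linarith
    · rintro p hp q hq q' hq' ⟨hb, -, hi⟩ ⟨hb', -, hi'⟩
      obtain ⟨hpS, hpk⟩ := hmS p hp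
      obtain ⟨hqS, hqk⟩ := hmS q hq
      obtain ⟨hqS', hqk'⟩ := hmS q' hq'
      have hs := (idx_spec hCf hpS hqS hb).2.2 (by rw [hpk, hqk])
      have hs' := (idx_spec hCf hpS hqS' hb').2.2 (by rw [hpk, hqk'])
      rw [hi] at hs
      rw [hi'] at hs'
      have e : q - q' = (p - q') - (p - q) := by abel
      calc ‖q - q'‖ ≤ ‖p - q'‖ + ‖p - q‖ := by rw [e]; exact norm_sub_le _ _
        _ ≤ 2 ^ (i + 1) + 2 ^ (i + 1) := by linarith
        _ = 4 * 2 ^ i := by rw [pow_succ]; ring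
    · intro q hq
      have hd := hCf.dens k q hq (4 * 2 ^ i) (by
        have : (1 : ℝ) ≤ 2 ^ i := one_le_pow₀ (by norm_num)
        linarith) (by
        calc (4 : ℝ) * 2 ^ i = 2 ^ (i + 2) := by rw [pow_add]; ring
          _ ≤ 2 ^ (k + 20) := pow_le_pow_right₀ (by norm_num) (by omega))
      have e : (scX k S).filter (fun q' => ‖q - q'‖ ≤ 4 * 2 ^ i) =
          (scX k S).filter (fun q' => ‖q' - q‖ ≤ 4 * 2 ^ i) := by
        apply Finset.filter_congr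
        intro x _
        rw [norm_sub_rev]
      rw [e]
      calc _ ≤ u * (4 * 2 ^ i) := hd
        _ = 4 * u * 2 ^ i := by ring
    · rintro p hp q hq ⟨hb, hLT, hi⟩
      have := hL q hq p hp ⟨hb.symm, LT_symm hLT, by rw [idx_symm, hi]⟩
      refine le_trans ?_ this
      have hsub : (scX k S).filter (fun p' => (blk ν q ≠ blk ν p' ∧ LT ν u S v K p' q ∧
          idx p' q = i) ∧ ‖om (p' - q) - om (p - q)‖ ≤ 1 / 2 ^ (2 * m)) ⊆
          (scX k S).filter (fun p' => (blk ν p' ≠ blk ν q ∧ LT ν u S v K q p' ∧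
          idx q p' = i) ∧ ‖om (q - p') - om (q - p)‖ ≤ 1 / 2 ^ (2 * m)) := by
        intro x hx
        rw [Finset.mem_filter] at hx ⊢
        obtain ⟨hx0, ⟨hx1, hx2, hx3⟩, hx4⟩ := hx
        refine ⟨hx0, ⟨hx1.symm, LT_symm hx2, by rw [idx_symm, hx3]⟩, ?_⟩
        rw [← neg_sub x q, ← neg_sub p q, om_neg, om_neg]
        exact hx4
      exact_mod_cast Finset.card_le_card hsub
  · have hz : ∀ p ∈ scX k S, (((scX k S).filter (fun q => blk ν q ≠ blk ν p ∧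
        LT ν u S v K p q ∧ idx p q = i)).card : ℝ) = 0 := by
      intro p hp
      obtain ⟨hpS, hpk⟩ := hmS p hp
      have : (scX k S).filter (fun q => blk ν q ≠ blk ν p ∧
          LT ν u S v K p q ∧ idx p q = i) = ∅ := by
        rw [Finset.filter_eq_empty_iff]
        rintro q hq ⟨hb, hLT, hi⟩
        obtain ⟨hqS, hqk⟩ := hmS q hq
        have := (h2 ν u S v J' hν2 hCf p hpS q hqS hb hLT).1 (by rw [hpk, hqk])
        omega
      rw [this]
      simp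
    rw [Finset.sum_eq_zero hz]
    positivity

open scoped Classical in
/-- number of tangent pairs of equal scale k and index i in window l -/
theorem same_win (K : ℝ) : ∃ (C : ℝ) (ν0 : ℕ), 0 < C ∧ ∀ (ν : ℕ) (u : ℝ) (S : Finset (X 2))
    (v : Fin 4 → ℤ) (J' : ℕ), ν0 ≤ ν → Cf ν u S v J' → ∀ (k l i : ℕ), inW ν l i →
    ∑ p ∈ scX k S, (((scX k S).filter (fun q => blk ν q ≠ blk ν p ∧ LT ν u S v K p q ∧
      idx p q = i)).card : ℝ) ≤ C * 2 ^ i / 2 ^ aL ν l * ((scX k S).card : ℝ) := by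
  obtain ⟨C, c, ν1, hC, hc, h⟩ := cs_gen K
  obtain ⟨ν2, h2⟩ := lam_S K
  obtain ⟨n0, hn0⟩ := cs_large (1 / c)
  refine ⟨C, max (max ν1 ν2) n0, hC, ?_⟩
  intro ν u S v J' hν hCf k l i hW
  have hν1 : ν1 ≤ ν := le_trans (le_trans (le_max_left _ _) (le_max_left _ _)) hν
  have hν2 : ν2 ≤ ν := le_trans (le_trans (le_max_right _ _) (le_max_left _ _)) hν
  have hν3 : n0 ≤ ν := le_trans (le_max_right _ _) hν
  have hν0 : 1 ≤ ν := hCf.nu1
  have ha : aI ν i = aL ν l := aI_inW hν0 hW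
  have hνa : ν ≤ aL ν l := by rw [← ha]; exact aI_ge ν i
  have hi : 40300 * aL ν l ≤ i := hW.1
  have hu : 1 ≤ u := hCf.u1
  have hu0 : 0 ≤ u := by linarith
  set a := aL ν l with hadef
  have hua : u ≤ 2 ^ a := hCf.u2.trans (pow_le_pow_right₀ (by norm_num) hνa)
  have hca : 1 / c ≤ 2 ^ a := hn0 a (hν3.trans hνa)
  have hca' : 1 ≤ c * 2 ^ a := by
    rw [div_le_iff₀ hc] at hca
    linarith
  have h50 : 2 * (50 * a) = 100 * a := by ring
  have hp2 : (0 : ℝ) < 2 ^ a := by positivity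
  have key := h ν u S v J' hν1 hCf k i (50 * a) (u * 2 ^ i / 2 ^ (199 * a)) (2 ^ i / 2 ^ a)
    ?_ ?_ (by positivity) (by positivity) ?_ ?_ ?_
  · refine key.trans (le_of_eq ?_)
    ring
  · rw [h50, div_le_iff₀ (by positivity)]
    calc (1 : ℝ) ≤ c * 2 ^ a := hca'
      _ ≤ c * 2 ^ (100 * a) := by
          apply mul_le_mul_of_nonneg_left _ hc.le
          exact pow_le_pow_right₀ (by norm_num) (by omega)
  · rw [ha, h50, div_pow, one_pow, ← pow_mul]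
    have e4 : (4 : ℝ) ^ a = 2 ^ (2 * a) := by rw [pow_mul]; norm_num
    rw [e4, mul_one_div, div_mul_eq_mul_div, le_div_iff₀ (by positivity)]
    calc (2 : ℝ) ^ (2 * a) * 2 ^ (100 * a * 12) = 1 * 2 ^ (1202 * a) := by
          rw [← pow_add, one_mul]; congr 1; ring
      _ ≤ c * 2 ^ a * 2 ^ (1202 * a) := by
          apply mul_le_mul_of_nonneg_right hca' (by positivity)
      _ = c * 2 ^ (1203 * a) := by
          rw [mul_assoc, ← pow_add]; congr 2; ring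
      _ ≤ c * 2 ^ i := by
          apply mul_le_mul_of_nonneg_left _ hc.le
          exact pow_le_pow_right₀ (by norm_num) (by omega)
  · rw [div_le_div_iff₀ (by positivity) (by positivity)]
    calc u * 2 ^ i * 2 ^ a ≤ 2 ^ a * 2 ^ i * 2 ^ a := by gcongr
      _ = 2 ^ i * 2 ^ (2 * a) := by rw [two_mul, pow_add]; ring
      _ ≤ 2 ^ i * 2 ^ (199 * a) := by
          apply mul_le_mul_of_nonneg_left _ (by positivity)
          exact pow_le_pow_right₀ (by norm_num) (by omega)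
  · have e1 : (2 : ℝ) ^ (3 * (50 * a)) * (u * 2 ^ i / 2 ^ (199 * a)) * (4 * u * 2 ^ i) ^ 2 =
        16 * u ^ 3 * (2 ^ i) ^ 3 * (2 ^ (150 * a) / 2 ^ (199 * a)) := by
      have : 3 * (50 * a) = 150 * a := by ring
      rw [this]
      ring
    have e2 : (2 : ℝ) ^ (150 * a) / 2 ^ (199 * a) = 1 / 2 ^ (49 * a) := by
      rw [div_eq_div_iff (by positivity) (by positivity), ← pow_add, one_mul]
      congr 1
      ring
    rw [e1, e2]
    calc 16 * u ^ 3 * (2 ^ i) ^ 3 * (1 / 2 ^ (49 * a))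
        ≤ 27 * (2 ^ a) ^ 3 * (2 ^ i) ^ 3 * (1 / (2 ^ (6 * a))) := by
          have h9 : (2 : ℝ) ^ (6 * a) ≤ 2 ^ (49 * a) :=
            pow_le_pow_right₀ (by norm_num) (by omega)
          gcongr
          norm_num
      _ = (3 * (2 ^ i / 2 ^ a)) ^ 3 := by
          have : (2 : ℝ) ^ (6 * a) = (2 ^ a) ^ 6 := by rw [← pow_mul]; congr 1; ring
          rw [this]
          field_simp
          norm_num
  · rintro p hp q hq ⟨hb, hLT, hi'⟩
    have hpS := Finset.mem_filter.1 hp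
    have hqS := Finset.mem_filter.1 hq
    have := h2 ν u S v J' hν2 hCf p hpS.1 q hqS.1 hb (by rw [hpS.2, hqS.2]) hLT l
      (by rw [hi']; exact hW)
    rw [hpS.2, hi'] at this
    refine le_trans (le_of_eq ?_) this
    congr 2
    ext x
    rw [Finset.mem_filter, Finset.mem_filter, h50]
    tauto

open scoped Classical in
/-- number of tangent pairs of equal scale k and index i in the base window -/
theorem same_base (K : ℝ) : ∃ (C : ℝ) (ν0 : ℕ), 0 < C ∧ ∀ (ν : ℕ) (u : ℝ) (S : Finset (X 2))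
    (v : Fin 4 → ℤ) (J' : ℕ), ν0 ≤ ν → Cf ν u S v J' → ∀ (k i : ℕ), 40000 * ν ≤ i →
    i < 40300 * ν →
    ∑ p ∈ scX k S, (((scX k S).filter (fun q => blk ν q ≠ blk ν p ∧ LT ν u S v K p q ∧
      idx p q = i)).card : ℝ) ≤ C * 2 ^ i / 2 ^ ν * ((scX k S).card : ℝ) := by
  obtain ⟨C, c, ν1, hC, hc, h⟩ := cs_gen K
  obtain ⟨ν2, h2⟩ := lam_B K
  obtain ⟨n0, hn0⟩ := cs_large (1 / c)
  refine ⟨C, max (max ν1 ν2) n0, hC, ?_⟩
  intro ν u S v J' hν hCf k i hi1 hi2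
  have hν1 : ν1 ≤ ν := le_trans (le_trans (le_max_left _ _) (le_max_left _ _)) hν
  have hν2 : ν2 ≤ ν := le_trans (le_trans (le_max_right _ _) (le_max_left _ _)) hν
  have hν3 : n0 ≤ ν := le_trans (le_max_right _ _) hν
  have hν0 : 1 ≤ ν := hCf.nu1
  have ha : aI ν i = ν := aI_low hν0 hi2
  have hu : 1 ≤ u := hCf.u1
  have hu0 : 0 ≤ u := by linarith
  have hua : u ≤ 2 ^ ν := hCf.u2
  have hca : 1 / c ≤ 2 ^ ν := hn0 ν hν3
  have hca' : 1 ≤ c * 2 ^ ν := by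
    rw [div_le_iff₀ hc] at hca
    linarith
  have h50 : 2 * (1500 * ν) = 3000 * ν := by ring
  have hp2 : (0 : ℝ) < 2 ^ ν := by positivity
  have key := h ν u S v J' hν1 hCf k i (1500 * ν) (u * 2 ^ (34901 * ν)) (2 ^ i / 2 ^ ν)
    ?_ ?_ (by positivity) (by positivity) ?_ ?_ ?_
  · refine key.trans (le_of_eq ?_)
    ring
  · rw [h50, div_le_iff₀ (by positivity)]
    calc (1 : ℝ) ≤ c * 2 ^ ν := hca'
      _ ≤ c * 2 ^ (3000 * ν) := by
          apply mul_le_mul_of_nonneg_left _ hc.le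
          exact pow_le_pow_right₀ (by norm_num) (by omega)
  · rw [ha, h50, div_pow, one_pow, ← pow_mul]
    have e4 : (4 : ℝ) ^ ν = 2 ^ (2 * ν) := by rw [pow_mul]; norm_num
    rw [e4, mul_one_div, div_mul_eq_mul_div, le_div_iff₀ (by positivity)]
    calc (2 : ℝ) ^ (2 * ν) * 2 ^ (3000 * ν * 12) = 1 * 2 ^ (36002 * ν) := by
          rw [← pow_add, one_mul]; congr 1; ring
      _ ≤ c * 2 ^ ν * 2 ^ (36002 * ν) := by
          apply mul_le_mul_of_nonneg_right hca' (by positivity)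
      _ = c * 2 ^ (36003 * ν) := by
          rw [mul_assoc, ← pow_add]; congr 2; ring
      _ ≤ c * 2 ^ i := by
          apply mul_le_mul_of_nonneg_left _ hc.le
          exact pow_le_pow_right₀ (by norm_num) (by omega)
  · rw [le_div_iff₀ (by positivity)]
    calc u * 2 ^ (34901 * ν) * 2 ^ ν ≤ 2 ^ ν * 2 ^ (34901 * ν) * 2 ^ ν := by gcongr
      _ = 2 ^ (34903 * ν) := by rw [← pow_add, ← pow_add]; congr 1; ring
      _ ≤ 2 ^ i := pow_le_pow_right₀ (by norm_num) (by omega)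
  · have e1 : (2 : ℝ) ^ (3 * (1500 * ν)) * (u * 2 ^ (34901 * ν)) * (4 * u * 2 ^ i) ^ 2 =
        16 * u ^ 3 * (2 ^ i) ^ 2 * (2 ^ (4500 * ν) * 2 ^ (34901 * ν)) := by
      have : 3 * (1500 * ν) = 4500 * ν := by ring
      rw [this]
      ring
    have e2 : (2 : ℝ) ^ (4500 * ν) * 2 ^ (34901 * ν) * 2 ^ (6 * ν) ≤ 2 ^ i := by
      rw [← pow_add, ← pow_add]
      exact pow_le_pow_right₀ (by norm_num) (by omega)
    have e3 : (2 : ℝ) ^ (4500 * ν) * 2 ^ (34901 * ν) ≤ 2 ^ i / 2 ^ (6 * ν) := by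
      rw [le_div_iff₀ (by positivity)]
      exact e2
    rw [e1]
    calc 16 * u ^ 3 * (2 ^ i) ^ 2 * (2 ^ (4500 * ν) * 2 ^ (34901 * ν))
        ≤ 27 * (2 ^ ν) ^ 3 * (2 ^ i) ^ 2 * (2 ^ i / 2 ^ (6 * ν)) := by
          gcongr
          norm_num
      _ = (3 * (2 ^ i / 2 ^ ν)) ^ 3 := by
          have : (2 : ℝ) ^ (6 * ν) = (2 ^ ν) ^ 6 := by rw [← pow_mul]; congr 1; ring
          rw [this]
          field_simp
          norm_num
  · rintro p hp q hq ⟨hb, hLT, hi'⟩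
    have hpS := Finset.mem_filter.1 hp
    have hqS := Finset.mem_filter.1 hq
    have := h2 ν u S v J' hν2 hCf p hpS.1 q hqS.1 hb (by rw [hpS.2, hqS.2]) hLT
      (by rw [hi']; exact hi2)
    rw [hpS.2] at this
    refine le_trans ?_ this
    have hsub : (scX k S).filter (fun q' => (blk ν q' ≠ blk ν p ∧ LT ν u S v K p q' ∧
        idx p q' = i) ∧ ‖om (p - q') - om (p - q)‖ ≤ 1 / 2 ^ (2 * (1500 * ν))) ⊆
        (scX k S).filter (fun q' => blk ν q' ≠ blk ν p ∧ LT ν u S v K p q' ∧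
        idx p q' < 40300 * ν ∧ ‖om (p - q') - om (p - q)‖ ≤ 1 / 2 ^ (3000 * ν)) := by
      intro x hx
      rw [Finset.mem_filter] at hx ⊢
      obtain ⟨hx0, ⟨hx1, hx2, hx3⟩, hx4⟩ := hx
      rw [h50] at hx4
      exact ⟨hx0, hx1, hx2, by omega, hx4⟩
    exact_mod_cast Finset.card_le_card hsub

end Pool.LibCA93
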