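import Pool.Agent.LibCA93.CE1
import Pool.Agent.LibCA93.CS

/-
PLAN (CE2, MEDIUM to STRONG). (if idx < i0 or LT then 1 else 0) <= (if idx < i0 then 1 else 0) + (if LT then 1 else 0); 1/th^M <= 1/th^4, u/th^4 <= 1/th (u <= 2^ν <= th = 2^aI, aI_ge, th >= 1). Let n be larger than all idx p q (p, q in S).
Absolute part: for p in S and i < n: the q with kp q = kp p, blk <> and idx p q = i lie in the shell 2^i <= ‖p-q‖ < 2^(i+1) (idx_spec), same_abs: 2^(2 kp p) C u. Sum over i < n: of (if i < i0 then 1 else 0): <= i0; of 1/th^4: CE1.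
LT part: for k and i < n: SUM_(p in scX k S) 2^(2k) SUM Mk (p-q) <= 2^(2k) 2^(-i) #{pairs} (Mk N Z <= 1/‖Z‖ for m = 2) <= C/th ν i 2^(2k) #scX k S: same_win if 40300 ν <= i (exists_inW, aI_inW), same_base if 40000 ν <= i < 40300 ν (aI_low),
no pair if i < 40000 ν (idx_spec). Sum over i: CE1; sum over k: SUM_k 2^(2k) #scX k S = WX S (fiberwise).
-/

set_option autoImplicit false

noncomputable section

open MeasureTheory Metric Set Filter

namespace Pool.LibCA93

open Pool.LibSR53 Pool.LibST49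

private theorem ce2_th1 (ν i : ℕ) : 1 ≤ th ν i := by
  rw [th_eq]
  exact one_le_pow₀ (by norm_num)

private theorem ce2_Mk {N : ℕ} {Z : X 2} {i : ℕ} (h : (2 : ℝ) ^ i ≤ ‖Z‖) : Mk N Z ≤ 1 / 2 ^ i := by
  unfold Mk
  have h1 : (1 + ‖Z‖) ^ (-(((2 : ℕ) : ℝ) / 2)) = 1 / (1 + ‖Z‖) := by
    rw [show (-(((2 : ℕ) : ℝ) / 2)) = -1 by norm_num, Real.rpow_neg_one, one_div]
  have h0 : (0 : ℝ) < 2 ^ i := by positivity
  have hn : 0 ≤ ‖Z‖ := norm_nonneg _
  rw [h1]
  have h2 : (1 : ℝ) ≤ (1 + abs (ny Z - |rad Z|)) ^ N :=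
    one_le_pow₀ (by linarith [abs_nonneg (ny Z - |rad Z|)])
  calc 1 / (1 + ‖Z‖) / (1 + abs (ny Z - |rad Z|)) ^ N ≤ 1 / (1 + ‖Z‖) :=
        div_le_self (by positivity) h2
    _ ≤ 1 / 2 ^ i := one_div_le_one_div_of_le h0 (by linarith)

open scoped Classical in
private theorem ce2_mem {ν : ℕ} {S : Finset (X 2)} {p q : X 2}
    (h : q ∈ S.filter (fun q => blk ν q ≠ blk ν p ∧ kp q = kp p)) :
    q ∈ S ∧ blk ν q ≠ blk ν p ∧ kp q = kp p := by
  rw [Finset.mem_filter] at h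
  exact ⟨h.1, h.2.1, h.2.2⟩

open scoped Classical in
/-- one point, absolute values -/
private theorem ce2_row (N : ℕ) (hN : 5 ≤ N) : ∃ C : ℝ, 0 < C ∧ ∀ (ν : ℕ) (u : ℝ)
    (S : Finset (X 2)) (v : Fin 4 → ℤ) (J' : ℕ), Cf ν u S v J' → ∀ p ∈ S, ∀ (n : ℕ)
    (f : ℕ → ℝ), (∀ i, 0 ≤ f i) →
    (∀ q ∈ S.filter (fun q => blk ν q ≠ blk ν p ∧ kp q = kp p), idx p q < n) →
    ∑ q ∈ S.filter (fun q => blk ν q ≠ blk ν p ∧ kp q = kp p), Mk N (p - q) * f (idx p q) ≤
      C * u * ∑ i ∈ Finset.range n, f i := by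
  obtain ⟨C, hC, h⟩ := same_abs N hN
  refine ⟨C, hC, ?_⟩
  intro ν u S v J' hCf p hp n f hf hn
  have hu : 0 ≤ u := by linarith [hCf.u1]
  have h1 : ∀ p ∈ S, 1 ≤ rad p := fun p hp => one_le_rad hCf hp
  rw [← Finset.sum_fiberwise_of_maps_to (g := fun q => idx p q) (t := Finset.range n)
    (fun q hq => Finset.mem_range.mpr (hn q hq)), Finset.mul_sum]
  refine Finset.sum_le_sum (fun i _ => ?_)
  have h2 : ∀ q ∈ (S.filter (fun q => blk ν q ≠ blk ν p ∧ kp q = kp p)).filter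
      (fun q => idx p q = i), Mk N (p - q) * f (idx p q) = f i * Mk N (p - q) := by
    intro q hq
    rw [(Finset.mem_filter.mp hq).2]
    ring
  rw [Finset.sum_congr rfl h2, ← Finset.mul_sum]
  have h3 : ∑ q ∈ (S.filter (fun q => blk ν q ≠ blk ν p ∧ kp q = kp p)).filter
      (fun q => idx p q = i), Mk N (p - q) ≤
      ∑ q ∈ (scX (kp p) S).filter (fun q => (2 : ℝ) ^ i ≤ ‖p - q‖ ∧ ‖p - q‖ < 2 ^ (i + 1)),
        Mk N (p - q) := by
    refine Finset.sum_le_sum_of_subset_of_nonneg ?_ (fun q _ _ => Mk_nonneg N _)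
    intro q hq
    obtain ⟨hq1, hq2⟩ := Finset.mem_filter.mp hq
    obtain ⟨hqS, hqb, hqk⟩ := ce2_mem hq1
    obtain ⟨_, hi1, hi2⟩ := idx_spec hCf hp hqS hqb
    rw [hq2] at hi1 hi2
    rw [Finset.mem_filter]
    refine ⟨?_, hi1, hi2 hqk.symm⟩
    unfold scX
    rw [Finset.mem_filter]
    exact ⟨hqS, hqk⟩
  have h4 := mul_le_mul_of_nonneg_left (h3.trans (h u S h1 hu hCf.dens p hp i)) (hf i)
  refine h4.trans (le_of_eq ?_)
  ring

open scoped Classical in
/-- number of tangent pairs of equal scale and index i -/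
private theorem ce2_pairs (K : ℝ) : ∃ (C : ℝ) (ν0 : ℕ), 0 < C ∧ ∀ (ν : ℕ) (u : ℝ)
    (S : Finset (X 2)) (v : Fin 4 → ℤ) (J' : ℕ), ν0 ≤ ν → Cf ν u S v J' → ∀ (k i : ℕ),
    ∑ p ∈ scX k S, (((scX k S).filter (fun q => blk ν q ≠ blk ν p ∧ LT ν u S v K p q ∧
      idx p q = i)).card : ℝ) ≤ C * (2 ^ i / th ν i) * ((scX k S).card : ℝ) := by
  obtain ⟨C1, ν1, hC1, h1⟩ := same_win K
  obtain ⟨C2, ν2, hC2, h2⟩ := same_base K
  refine ⟨C1 + C2, max ν1 ν2, by positivity, ?_⟩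
  intro ν u S v J' hν hCf k i
  have hν1 : ν1 ≤ ν := (le_max_left _ _).trans hν
  have hν2 : ν2 ≤ ν := (le_max_right _ _).trans hν
  have hth : 0 < th ν i := lt_of_lt_of_le one_pos (ce2_th1 ν i)
  have hX : 0 ≤ (2 : ℝ) ^ i / th ν i * ((scX k S).card : ℝ) := by positivity
  rcases lt_or_ge i (40000 * ν) with hi | hi
  · have h0 : ∀ p ∈ scX k S, (((scX k S).filter (fun q => blk ν q ≠ blk ν p ∧
        LT ν u S v K p q ∧ idx p q = i)).card : ℝ) = 0 := by
      intro p hp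
      rw [Nat.cast_eq_zero, Finset.card_eq_zero, Finset.filter_eq_empty_iff]
      rintro q hq ⟨hb, _, hiq⟩
      have hpS : p ∈ S := (Finset.mem_filter.mp hp).1
      have hqS : q ∈ S := (Finset.mem_filter.mp hq).1
      have := (idx_spec hCf hpS hqS hb).1
      omega
    rw [Finset.sum_eq_zero h0]
    positivity
  rcases lt_or_ge i (40300 * ν) with hi' | hi'
  · refine (h2 ν u S v J' hν2 hCf k i hi hi').trans ?_
    have h3 : th ν i = 2 ^ ν := by rw [th_eq, aI_low hCf.nu1 hi']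
    rw [← h3]
    have h4 : C2 * 2 ^ i / th ν i * ((scX k S).card : ℝ) =
      C2 * ((2 : ℝ) ^ i / th ν i * ((scX k S).card : ℝ)) := by ring
    rw [h4, mul_assoc]
    exact mul_le_mul_of_nonneg_right (by linarith) hX
  · obtain ⟨l, hl⟩ := exists_inW hCf.nu1 hi'
    refine (h1 ν u S v J' hν1 hCf k l i hl).trans ?_
    have h3 : th ν i = 2 ^ aL ν l := by rw [th_eq, aI_inW hCf.nu1 hl]
    rw [← h3]
    have h4 : C1 * 2 ^ i / th ν i * ((scX k S).card : ℝ) =
      C1 * ((2 : ℝ) ^ i / th ν i * ((scX k S).card : ℝ)) := by ring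
    rw [h4, mul_assoc]
    exact mul_le_mul_of_nonneg_right (by linarith) hX

open scoped Classical in
private theorem ce2_WX (S : Finset (X 2)) (f : X 2 → ℝ) (C : ℝ)
    (h : ∀ k : ℕ, ∑ p ∈ scX k S, f p ≤ C * (2 ^ (2 * k) * ((scX k S).card : ℝ))) :
    ∑ p ∈ S, f p ≤ C * WX S := by
  have h1 : ∑ p ∈ S, f p = ∑ k ∈ S.image kp, ∑ p ∈ scX k S, f p :=
    (Finset.sum_fiberwise_of_maps_to (fun p hp => Finset.mem_image_of_mem kp hp) f).symm
  have h2 : WX S = ∑ k ∈ S.image kp, ∑ p ∈ scX k S, (2 : ℝ) ^ (2 * kp p) :=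
    (Finset.sum_fiberwise_of_maps_to (fun p hp => Finset.mem_image_of_mem kp hp)
      (fun p => (2 : ℝ) ^ (2 * kp p))).symm
  rw [h1, h2, Finset.mul_sum]
  refine Finset.sum_le_sum (fun k _ => (h k).trans (le_of_eq ?_))
  have h3 : ∀ p ∈ scX k S, (2 : ℝ) ^ (2 * kp p) = 2 ^ (2 * k) := by
    intro p hp
    rw [(Finset.mem_filter.mp hp).2]
  rw [Finset.sum_congr rfl h3, Finset.sum_const, nsmul_eq_mul]
  ring

open scoped Classical in
/-- equal scales -/
theorem en_same (K : ℝ) (M N : ℕ) (hM : 4 ≤ M) (hN : 10 ≤ N) : ∃ (C : ℝ) (ν0 : ℕ), 0 < C ∧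
    ∀ (ν : ℕ) (u : ℝ) (S : Finset (X 2)) (v : Fin 4 → ℤ) (J' : ℕ), ν0 ≤ ν → Cf ν u S v J' →
    ∀ i0 : ℕ, ∑ p ∈ S, ∑ q ∈ S.filter (fun q => blk ν q ≠ blk ν p ∧ kp q = kp p),
      (2 : ℝ) ^ (kp p + kp q) * (Mk N (p - q) *
        ((if idx p q < i0 ∨ LT ν u S v K p q then 1 else 0) + 1 / (th ν (idx p q)) ^ M)) ≤
      C * (1 + u * i0) * WX S := by
  obtain ⟨C0, hC0, h0⟩ := ce2_row N (by omega)
  obtain ⟨C1, ν1, hC1, h1⟩ := ce2_pairs K
  obtain ⟨Ct, hCt, ht⟩ := th_sum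
  refine ⟨C0 + C0 * Ct + C1 * Ct, ν1, by positivity, ?_⟩
  intro ν u S v J' hν hCf i0
  have hu1 : 1 ≤ u := hCf.u1
  have hu0 : 0 ≤ u := by linarith
  have hnu1 : 1 ≤ ν := hCf.nu1
  have hWX : 0 ≤ WX S := Finset.sum_nonneg (fun p _ => by positivity)
  have hthp : ∀ i, 0 < th ν i := fun i => lt_of_lt_of_le one_pos (ce2_th1 ν i)
  set n : ℕ := (S ×ˢ S).sup (fun pq : X 2 × X 2 => idx pq.1 pq.2) + 1 with hn
  have hidx : ∀ p ∈ S, ∀ q ∈ S, idx p q < n := by
    intro p hp q hq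
    have : idx p q ≤ (S ×ˢ S).sup (fun pq : X 2 × X 2 => idx pq.1 pq.2) :=
      Finset.le_sup (f := fun pq : X 2 × X 2 => idx pq.1 pq.2)
        (Finset.mem_product.mpr ⟨hp, hq⟩ : ((p, q) : X 2 × X 2) ∈ S ×ˢ S)
    omega
  -- splitting
  have hsplit : ∀ p ∈ S, ∑ q ∈ S.filter (fun q => blk ν q ≠ blk ν p ∧ kp q = kp p),
      (2 : ℝ) ^ (kp p + kp q) * (Mk N (p - q) *
        ((if idx p q < i0 ∨ LT ν u S v K p q then 1 else 0) + 1 / (th ν (idx p q)) ^ M)) ≤
      2 ^ (2 * kp p) * (∑ q ∈ S.filter (fun q => blk ν q ≠ blk ν p ∧ kp q = kp p),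
        Mk N (p - q) * (if idx p q < i0 then 1 else 0)) +
      2 ^ (2 * kp p) * (∑ q ∈ S.filter (fun q => blk ν q ≠ blk ν p ∧ kp q = kp p),
        Mk N (p - q) * (1 / (th ν (idx p q)) ^ 4)) +
      2 ^ (2 * kp p) * (∑ q ∈ S.filter (fun q => blk ν q ≠ blk ν p ∧ kp q = kp p),
        Mk N (p - q) * (if LT ν u S v K p q then 1 else 0)) := by
    intro p hp
    rw [← mul_add, ← mul_add, ← Finset.sum_add_distrib, ← Finset.sum_add_distrib, Finset.mul_sum]
    refine Finset.sum_le_sum (fun q hq => ?_)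
    obtain ⟨hqS, hqb, hqk⟩ := ce2_mem hq
    rw [hqk, ← two_mul]
    refine mul_le_mul_of_nonneg_left ?_ (by positivity)
    rw [← mul_add, ← mul_add]
    refine mul_le_mul_of_nonneg_left ?_ (Mk_nonneg N _)
    have e1 : (if idx p q < i0 ∨ LT ν u S v K p q then (1 : ℝ) else 0) ≤
        (if idx p q < i0 then 1 else 0) + (if LT ν u S v K p q then 1 else 0) := by
      by_cases a : idx p q < i0 <;> by_cases b : LT ν u S v K p q <;> simp [a, b]
    have e2 : 1 / (th ν (idx p q)) ^ M ≤ 1 / (th ν (idx p q)) ^ 4 :=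
      one_div_le_one_div_of_le (by have := hthp (idx p q); positivity)
        (pow_le_pow_right₀ (ce2_th1 ν _) hM)
    linarith
  refine (Finset.sum_le_sum hsplit).trans ?_
  rw [Finset.sum_add_distrib, Finset.sum_add_distrib]
  -- part A
  have hA : ∑ p ∈ S, (2 : ℝ) ^ (2 * kp p) *
      (∑ q ∈ S.filter (fun q => blk ν q ≠ blk ν p ∧ kp q = kp p),
        Mk N (p - q) * (if idx p q < i0 then 1 else 0)) ≤ C0 * (u * i0) * WX S := by
    unfold WX
    rw [Finset.mul_sum]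
    refine Finset.sum_le_sum (fun p hp => ?_)
    have e1 := h0 ν u S v J' hCf p hp n (fun i => if i < i0 then 1 else 0)
      (fun i => by positivity) (fun q hq => hidx p hp q (ce2_mem hq).1)
    have e2 : ∑ i ∈ Finset.range n, (if i < i0 then (1 : ℝ) else 0) ≤ i0 := by
      rw [← Finset.sum_filter, Finset.sum_const, nsmul_eq_mul, mul_one]
      have : (Finset.range n).filter (fun i => i < i0) ⊆ Finset.range i0 := by
        intro i hi
        exact Finset.mem_range.mpr (Finset.mem_filter.mp hi).2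
      have h3 := Finset.card_le_card this
      rw [Finset.card_range] at h3
      exact_mod_cast h3
    have e3 := mul_le_mul_of_nonneg_left e2 (by positivity : 0 ≤ C0 * u)
    have e4 := mul_le_mul_of_nonneg_left (e1.trans e3) (by positivity : 0 ≤ (2 : ℝ) ^ (2 * kp p))
    refine e4.trans (le_of_eq ?_)
    ring
  -- part B
  have hB : ∑ p ∈ S, (2 : ℝ) ^ (2 * kp p) *
      (∑ q ∈ S.filter (fun q => blk ν q ≠ blk ν p ∧ kp q = kp p),
        Mk N (p - q) * (1 / (th ν (idx p q)) ^ 4)) ≤ C0 * Ct * WX S := by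
    unfold WX
    rw [Finset.mul_sum]
    refine Finset.sum_le_sum (fun p hp => ?_)
    have e1 := h0 ν u S v J' hCf p hp n (fun i => 1 / (th ν i) ^ 4)
      (fun i => by have := hthp i; positivity) (fun q hq => hidx p hp q (ce2_mem hq).1)
    have e2 : u * ∑ i ∈ Finset.range n, 1 / (th ν i) ^ 4 ≤ Ct := by
      refine le_trans ?_ (ht ν hnu1 n)
      rw [Finset.mul_sum]
      refine Finset.sum_le_sum (fun i _ => ?_)
      have g1 : u ≤ th ν i := by
        refine hCf.u2.trans ?_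
        rw [th_eq]
        exact pow_le_pow_right₀ (by norm_num) (aI_ge ν i)
      have g2 := ce2_th1 ν i
      have g0 := hthp i
      rw [mul_one_div, div_le_div_iff₀ (by positivity) g0, one_mul]
      have g3 : (1 : ℝ) ≤ th ν i ^ 2 := one_le_pow₀ g2
      calc u * th ν i ≤ th ν i * th ν i := mul_le_mul_of_nonneg_right g1 g0.le
        _ = th ν i ^ 2 * 1 := by ring
        _ ≤ th ν i ^ 2 * th ν i ^ 2 := mul_le_mul_of_nonneg_left g3 (by positivity)
        _ = th ν i ^ 4 := by ring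
    have e3 := mul_le_mul_of_nonneg_left e2 hC0.le
    have e4 : C0 * u * ∑ i ∈ Finset.range n, 1 / (th ν i) ^ 4 ≤ C0 * Ct := by
      rw [mul_assoc]
      exact e3
    have e5 := mul_le_mul_of_nonneg_left (e1.trans e4) (by positivity : 0 ≤ (2 : ℝ) ^ (2 * kp p))
    refine e5.trans (le_of_eq ?_)
    ring
  -- part C
  have hD : ∑ p ∈ S, (2 : ℝ) ^ (2 * kp p) *
      (∑ q ∈ S.filter (fun q => blk ν q ≠ blk ν p ∧ kp q = kp p),
        Mk N (p - q) * (if LT ν u S v K p q then 1 else 0)) ≤ C1 * Ct * WX S := by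
    refine ce2_WX S _ _ (fun k => ?_)
    have e1 : ∀ p ∈ scX k S, (2 : ℝ) ^ (2 * kp p) *
        (∑ q ∈ S.filter (fun q => blk ν q ≠ blk ν p ∧ kp q = kp p),
          Mk N (p - q) * (if LT ν u S v K p q then 1 else 0)) ≤
        ∑ i ∈ Finset.range n, (2 : ℝ) ^ (2 * k) * (1 / 2 ^ i *
          (((scX k S).filter (fun q => blk ν q ≠ blk ν p ∧ LT ν u S v K p q ∧
            idx p q = i)).card : ℝ)) := by
      intro p hp
      obtain ⟨hpS, hpk⟩ := Finset.mem_filter.mp hp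
      rw [← Finset.mul_sum, hpk]
      refine mul_le_mul_of_nonneg_left ?_ (by positivity)
      have g1 : ∑ q ∈ S.filter (fun q => blk ν q ≠ blk ν p ∧ kp q = k),
          Mk N (p - q) * (if LT ν u S v K p q then 1 else 0) =
          ∑ q ∈ (scX k S).filter (fun q => blk ν q ≠ blk ν p ∧ LT ν u S v K p q),
            Mk N (p - q) := by
        have g2 : ∀ q ∈ S.filter (fun q => blk ν q ≠ blk ν p ∧ kp q = k),
            Mk N (p - q) * (if LT ν u S v K p q then 1 else 0) =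
            if LT ν u S v K p q then Mk N (p - q) else 0 := by
          intro q _
          split_ifs <;> simp
        rw [Finset.sum_congr rfl g2, ← Finset.sum_filter]
        refine Finset.sum_congr ?_ (fun _ _ => rfl)
        ext q
        simp only [Finset.mem_filter, scX]
        tauto
      have g4 : ∀ q ∈ (scX k S).filter (fun q => blk ν q ≠ blk ν p ∧ LT ν u S v K p q),
          idx p q ∈ Finset.range n := by
        intro q hq
        have hq1 : q ∈ scX k S := (Finset.mem_filter.mp hq).1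
        exact Finset.mem_range.mpr (hidx p hpS q (Finset.mem_filter.mp hq1).1)
      rw [g1, ← Finset.sum_fiberwise_of_maps_to g4]
      refine Finset.sum_le_sum (fun i _ => ?_)
      rw [Finset.filter_filter]
      have g3 : ∀ q ∈ (scX k S).filter (fun q => (blk ν q ≠ blk ν p ∧ LT ν u S v K p q) ∧
          idx p q = i), Mk N (p - q) ≤ 1 / 2 ^ i := by
        intro q hq
        obtain ⟨hq1, ⟨hqb, _⟩, hqi⟩ := Finset.mem_filter.mp hq
        have hqS : q ∈ S := (Finset.mem_filter.mp hq1).1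
        have := (idx_spec hCf hpS hqS hqb).2.1
        rw [hqi] at this
        exact ce2_Mk this
      refine (Finset.sum_le_sum g3).trans (le_of_eq ?_)
      rw [Finset.sum_const, nsmul_eq_mul, mul_comm]
      simp only [and_assoc]
    refine (Finset.sum_le_sum e1).trans ?_
    rw [Finset.sum_comm]
    have e2 : ∀ i ∈ Finset.range n, ∑ p ∈ scX k S, (2 : ℝ) ^ (2 * k) * (1 / 2 ^ i *
          (((scX k S).filter (fun q => blk ν q ≠ blk ν p ∧ LT ν u S v K p q ∧
            idx p q = i)).card : ℝ)) ≤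
        C1 * (2 ^ (2 * k) * ((scX k S).card : ℝ)) * (1 / th ν i) := by
      intro i _
      rw [← Finset.mul_sum, ← Finset.mul_sum]
      have g1 := h1 ν u S v J' hν hCf k i
      have g2 := mul_le_mul_of_nonneg_left g1 (by positivity : (0 : ℝ) ≤ 1 / 2 ^ i)
      have g3 := mul_le_mul_of_nonneg_left g2 (by positivity : (0 : ℝ) ≤ 2 ^ (2 * k))
      refine g3.trans (le_of_eq ?_)
      have h2i : (2 : ℝ) ^ i ≠ 0 := by positivity
      have hti : th ν i ≠ 0 := (hthp i).ne'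
      field_simp
    refine (Finset.sum_le_sum e2).trans ?_
    rw [← Finset.mul_sum]
    have e3 := mul_le_mul_of_nonneg_left (ht ν hnu1 n)
      (by positivity : 0 ≤ C1 * ((2 : ℝ) ^ (2 * k) * ((scX k S).card : ℝ)))
    refine e3.trans (le_of_eq ?_)
    ring
  refine (add_le_add (add_le_add hA hB) hD).trans ?_
  have hx : 0 ≤ u * (i0 : ℝ) := by positivity
  have k1 : 0 ≤ C0 * WX S := by positivity
  have k2 : 0 ≤ (C0 * Ct + C1 * Ct) * (u * (i0 : ℝ)) * WX S := by positivity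
  nlinarith [k1, k2]

end Pool.LibCA93
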