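import Pool.Agent.LibCA93.Defs
import Pool.Agent.LibST49.A1

/-
PLAN (CG1, SHORT). Algebra of point differences Z = (x, s, t), om Z = -x/(2s), ap Z = t - |x|^2/(4s), Av ω Z = t + <x,ω> + s|ω|^2.
Av_eq: expand |ω - om Z|^2 = |ω|^2 + <x,ω>/s + |x|^2/(4s^2).
ee_le: ny^2 - rad^2 = qf Z = -4 s ap Z; ny + |rad| >= |t-s| + |t+s| >= 2|s|; so ee = |ny^2 - rad^2|/(ny+|rad|) <= 2|ap Z|.
tan_geo: k = kz Z, 4^k <= ‖Z‖ < 4^(k+1) (Nat.log, floor), x0 := x + 2 s ω, ‖x0‖ <= 2^k L <= sqrt‖Z‖ L, |Av ω Z| <= L, so ‖x‖ <= sqrt‖Z‖ L + 2|s|, |t| <= L + ‖x‖ + |s|, hence ‖Z‖ <= 3|s| + 2 L sqrt‖Z‖ <= 3|s| + ‖Z‖/4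
(64 L^2 <= ‖Z‖), ‖Z‖ <= 4|s|. om Z - ω = -x0/(2s): norm <= sqrt‖Z‖ L/(‖Z‖/2). |s||ω - om Z|^2 = ‖x0‖^2/(4|s|) <= L^2, so |ap Z| <= L + L^2 <= 2L^2 (Av_eq). ee: ee_le.
om_close: with s, s0: |s - s0| <= δ‖Z‖ <= 10 δ|s|, |s0| >= 0.9|s|; om Z - om Z0 = ((x0 - x) s + x (s - s0))/(2 s s0).
-/

set_option autoImplicit false

noncomputable section

open MeasureTheory Metric Set Filter

namespace Pool.LibCA93

open Pool.LibSR53 Pool.LibST49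

private theorem cg1_n1 (Z : X 2) : ‖Z.1‖ ≤ ‖Z‖ := norm_fst_le Z

private theorem cg1_n2 (Z : X 2) : |Z.2.1| ≤ ‖Z‖ :=
  (norm_fst_le Z.2).trans (norm_snd_le Z)

private theorem cg1_n3 (Z : X 2) : |Z.2.2| ≤ ‖Z‖ :=
  (norm_snd_le Z.2).trans (norm_snd_le Z)

private theorem cg1_le (Z : X 2) {r : ℝ} (h1 : ‖Z.1‖ ≤ r) (h2 : |Z.2.1| ≤ r)
    (h3 : |Z.2.2| ≤ r) : ‖Z‖ ≤ r := by
  rw [Prod.norm_def, Prod.norm_def]
  exact max_le h1 (max_le h2 h3)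

theorem om_neg (Z : X 2) : om (-Z) = om Z := by
  unfold om
  simp only [Prod.fst_neg, Prod.snd_neg, smul_neg, mul_neg, div_neg, neg_neg, neg_smul]

theorem ee_neg (Z : X 2) : ee (-Z) = ee Z := by
  unfold ee ny rad
  have h1 : (-Z).1 = -Z.1 := rfl
  have h2 : (-Z).2.1 = -Z.2.1 := rfl
  have h3 : (-Z).2.2 = -Z.2.2 := rfl
  rw [h1, h2, h3, norm_neg]
  have h4 : (-Z.2.2 - -Z.2.1) ^ 2 = (Z.2.2 - Z.2.1) ^ 2 := by ring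
  have h5 : -Z.2.1 + -Z.2.2 = -(Z.2.1 + Z.2.2) := by ring
  rw [h4, h5, abs_neg]

theorem abs_ap_neg (Z : X 2) : |ap (-Z)| = |ap Z| := by
  unfold ap
  have h1 : (-Z).1 = -Z.1 := rfl
  have h2 : (-Z).2.1 = -Z.2.1 := rfl
  have h3 : (-Z).2.2 = -Z.2.2 := rfl
  rw [h1, h2, h3, norm_neg]
  have h5 : -Z.2.2 - ‖Z.1‖ ^ 2 / (4 * -Z.2.1) = -(Z.2.2 - ‖Z.1‖ ^ 2 / (4 * Z.2.1)) := by
    rw [mul_neg, div_neg]
    ring
  rw [h5, abs_neg]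

theorem norm_Lk_neg (k : ℕ) (ω : E 2) (Z : X 2) : ‖Lk k ω (-Z)‖ = ‖Lk k ω Z‖ := by
  have h : Lk k ω (-Z) = -Lk k ω Z := by
    unfold Lk
    have h1 : (-Z).1 = -Z.1 := rfl
    have h2 : (-Z).2.1 = -Z.2.1 := rfl
    have h3 : (-Z).2.2 = -Z.2.2 := rfl
    rw [h1, h2, h3]
    refine Prod.ext ?_ (Prod.ext ?_ ?_)
    · simp only [Prod.fst_neg]
      module
    · simp only [Prod.fst_neg, Prod.snd_neg]
      ring
    · simp only [Prod.snd_neg, inner_neg_left]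
      ring
  rw [h, norm_neg]

theorem Av_eq (ω : E 2) (Z : X 2) (h : Z.2.1 ≠ 0) :
    Av ω Z = ap Z + Z.2.1 * ‖ω - om Z‖ ^ 2 := by
  unfold Av ap om
  rw [norm_sub_sq_real, norm_smul, mul_pow, Real.norm_eq_abs, sq_abs, real_inner_smul_right,
    real_inner_comm ω Z.1]
  field_simp
  ring

theorem ee_le (Z : X 2) (h : Z.2.1 ≠ 0) : ee Z ≤ 2 * |ap Z| := by
  have hs : 0 < |Z.2.1| := abs_pos.mpr h
  have hny : 0 ≤ ny Z := Real.sqrt_nonneg _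
  have hny2 : ny Z ^ 2 = ‖Z.1‖ ^ 2 + (Z.2.2 - Z.2.1) ^ 2 :=
    Real.sq_sqrt (by positivity)
  have hge : |Z.2.2 - Z.2.1| ≤ ny Z := by
    refine Real.abs_le_sqrt ?_
    nlinarith [sq_nonneg ‖Z.1‖]
  have hsum : 2 * |Z.2.1| ≤ ny Z + |rad Z| := by
    have h1 : 2 * |Z.2.1| = |(Z.2.1 + Z.2.2) - (Z.2.2 - Z.2.1)| := by
      rw [show (Z.2.1 + Z.2.2) - (Z.2.2 - Z.2.1) = 2 * Z.2.1 by ring, abs_mul, abs_two]
    have h2 : |(Z.2.1 + Z.2.2) - (Z.2.2 - Z.2.1)| ≤ |Z.2.1 + Z.2.2| + |Z.2.2 - Z.2.1| :=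
      abs_sub _ _
    have h3 : rad Z = Z.2.1 + Z.2.2 := rfl
    rw [h3]
    linarith
  have hprod : ee Z * (ny Z + |rad Z|) = 4 * |Z.2.1| * |ap Z| := by
    have h0 : 0 ≤ ny Z + |rad Z| := by positivity
    have h00 : ee Z * (ny Z + |rad Z|) = |(ny Z - |rad Z|) * (ny Z + |rad Z|)| := by
      rw [abs_mul, abs_of_nonneg h0]
      rfl
    rw [h00]
    have h1 : (ny Z - |rad Z|) * (ny Z + |rad Z|) = -(4 * Z.2.1 * ap Z) := by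
      have h2 : (ny Z - |rad Z|) * (ny Z + |rad Z|) = ny Z ^ 2 - rad Z ^ 2 := by
        rw [← sq_abs (rad Z)]; ring
      rw [h2, hny2]
      unfold rad ap
      field_simp
      ring
    rw [h1, abs_neg, abs_mul, abs_mul, abs_of_pos (by norm_num : (0 : ℝ) < 4)]
  have hee : 0 ≤ ee Z := abs_nonneg _
  have h4 : ee Z * (2 * |Z.2.1|) ≤ 4 * |Z.2.1| * |ap Z| := by
    rw [← hprod]
    exact mul_le_mul_of_nonneg_left hsum hee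
  have h5 : (2 * |Z.2.1|) * ee Z ≤ (2 * |Z.2.1|) * (2 * |ap Z|) := by linarith
  exact le_of_mul_le_mul_left h5 (by positivity)

/-- small plank coordinates at the tangential scale: the point difference is almost null -/
theorem tan_geo {Z : X 2} {ω : E 2} {L : ℝ} (hω : ‖ω‖ ≤ 1) (hL : 1 ≤ L)
    (h : ‖Lk (kz Z) ω Z‖ ≤ L) (hZ : 64 * L ^ 2 ≤ ‖Z‖) :
    ‖Z‖ ≤ 4 * |Z.2.1| ∧ ‖om Z - ω‖ ≤ 2 * L / Real.sqrt ‖Z‖ ∧ |ap Z| ≤ 2 * L ^ 2 ∧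
      ee Z ≤ 4 * L ^ 2 := by
  set R : ℝ := Real.sqrt ‖Z‖ with hR
  have hZ0 : 0 ≤ ‖Z‖ := norm_nonneg _
  have hRR : R * R = ‖Z‖ := Real.mul_self_sqrt hZ0
  have hR8 : 8 * L ≤ R := by
    refine Real.le_sqrt_of_sq_le ?_
    nlinarith
  have hR0 : 0 < R := by linarith
  have hZ64 : 64 ≤ ‖Z‖ := by nlinarith
  -- the scale
  have hk : (4 : ℝ) ^ (kz Z) ≤ ‖Z‖ := by
    have h1 : 4 ^ (Nat.log 4 ⌊‖Z‖⌋₊) ≤ ⌊‖Z‖⌋₊ := by
      refine Nat.pow_log_le_self 4 ?_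
      have : 64 ≤ ⌊‖Z‖⌋₊ := Nat.le_floor (by exact_mod_cast hZ64)
      omega
    have h2 : ((4 ^ (Nat.log 4 ⌊‖Z‖⌋₊) : ℕ) : ℝ) ≤ (⌊‖Z‖⌋₊ : ℝ) := by exact_mod_cast h1
    have h3 : (⌊‖Z‖⌋₊ : ℝ) ≤ ‖Z‖ := Nat.floor_le hZ0
    unfold kz
    push_cast at h2
    linarith
  have hk2 : (2 : ℝ) ^ (kz Z) ≤ R := by
    refine Real.le_sqrt_of_sq_le ?_
    rw [← pow_mul, mul_comm, pow_mul]
    norm_num
    exact hk
  -- components of the plank coordinates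
  have hc1 : ‖Z.1 + (2 * Z.2.1) • ω‖ ≤ R * L := by
    have h1 : ‖(Lk (kz Z) ω Z).1‖ ≤ L := (cg1_n1 _).trans h
    have h2 : ‖(2 : ℝ)⁻¹ ^ (kz Z) • (Z.1 + (2 * Z.2.1) • ω)‖ ≤ L := h1
    rw [norm_smul, Real.norm_of_nonneg (by positivity), inv_pow,
      inv_mul_le_iff₀ (by positivity)] at h2
    exact h2.trans (mul_le_mul_of_nonneg_right hk2 (by linarith))
  have hc3 : |Av ω Z| ≤ L := by
    have h1 : |(Lk (kz Z) ω Z).2.2| ≤ L := (cg1_n3 _).trans h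
    exact h1
  have hx : ‖Z.1‖ ≤ R * L + 2 * |Z.2.1| := by
    have h1 : Z.1 = (Z.1 + (2 * Z.2.1) • ω) - (2 * Z.2.1) • ω := by abel
    have h2 : ‖(2 * Z.2.1) • ω‖ ≤ 2 * |Z.2.1| := by
      rw [norm_smul, Real.norm_eq_abs, abs_mul, abs_two]
      have := abs_nonneg Z.2.1
      nlinarith [norm_nonneg ω]
    rw [h1]
    exact (norm_sub_le _ _).trans (add_le_add hc1 h2)
  have ht : |Z.2.2| ≤ L + ‖Z.1‖ + |Z.2.1| := by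
    have h1 : Z.2.2 = Av ω Z - inner ℝ Z.1 ω - Z.2.1 * ‖ω‖ ^ 2 := by
      unfold Av; ring
    have h2 : |inner ℝ Z.1 ω| ≤ ‖Z.1‖ := by
      refine (abs_real_inner_le_norm _ _).trans ?_
      nlinarith [norm_nonneg Z.1]
    have h3 : |Z.2.1 * ‖ω‖ ^ 2| ≤ |Z.2.1| := by
      rw [abs_mul, abs_of_nonneg (by positivity : 0 ≤ ‖ω‖ ^ 2)]
      have h4 : ‖ω‖ ^ 2 ≤ 1 := pow_le_one₀ (norm_nonneg _) hω
      nlinarith [abs_nonneg Z.2.1]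
    rw [h1]
    have h5 := abs_sub (Av ω Z - inner ℝ Z.1 ω) (Z.2.1 * ‖ω‖ ^ 2)
    have h6 := abs_sub (Av ω Z) (inner ℝ Z.1 ω)
    linarith
  have hs0 : 0 ≤ |Z.2.1| := abs_nonneg _
  have hRL : 0 ≤ R * L := by positivity
  have hmain : ‖Z‖ ≤ 4 * |Z.2.1| := by
    have h1 : ‖Z‖ ≤ 3 * |Z.2.1| + L + R * L := by
      refine cg1_le Z ?_ ?_ ?_
      · linarith
      · linarith
      · linarith
    have h2 : L ≤ R * L := by nlinarith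
    have h3 : 8 * L * R ≤ ‖Z‖ := by nlinarith
    nlinarith
  have hspos : 0 < |Z.2.1| := by linarith
  have hsne : Z.2.1 ≠ 0 := abs_pos.mp hspos
  -- the direction
  have hom : ‖om Z - ω‖ * (2 * |Z.2.1|) = ‖Z.1 + (2 * Z.2.1) • ω‖ := by
    have h1 : om Z - ω = (-(1 / (2 * Z.2.1))) • (Z.1 + (2 * Z.2.1) • ω) := by
      unfold om
      rw [smul_add, smul_smul]
      have h2 : -(1 / (2 * Z.2.1)) * (2 * Z.2.1) = -1 := by field_simp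
      rw [h2, neg_one_smul, sub_eq_add_neg]
    rw [h1, norm_smul, Real.norm_eq_abs, abs_neg, abs_div, abs_one, abs_mul, abs_two]
    field_simp
  have hom2 : ‖om Z - ω‖ ≤ 2 * L / R := by
    rw [le_div_iff₀ hR0]
    have h1 : ‖om Z - ω‖ * (‖Z‖ / 2) ≤ R * L := by
      refine le_trans ?_ (hom.le.trans hc1)
      refine mul_le_mul_of_nonneg_left ?_ (norm_nonneg _)
      linarith
    rw [← hRR] at h1
    have h2 : R * (‖om Z - ω‖ * R) ≤ R * (2 * L) := by nlinarith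
    exact le_of_mul_le_mul_left h2 hR0
  have hap : |ap Z| ≤ 2 * L ^ 2 := by
    have h1 := Av_eq ω Z hsne
    have h2 : ap Z = Av ω Z - Z.2.1 * ‖ω - om Z‖ ^ 2 := by linarith
    have h3 : |Z.2.1 * ‖ω - om Z‖ ^ 2| ≤ L ^ 2 := by
      rw [abs_mul, abs_of_nonneg (by positivity : 0 ≤ ‖ω - om Z‖ ^ 2), norm_sub_rev]
      have h4 : (‖om Z - ω‖ * (2 * |Z.2.1|)) ^ 2 ≤ (R * L) ^ 2 := by
        rw [hom]
        exact pow_le_pow_left₀ (norm_nonneg _) hc1 2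
      have h5 : (R * L) ^ 2 ≤ 4 * |Z.2.1| * L ^ 2 := by
        have h6 : (R * L) ^ 2 = ‖Z‖ * L ^ 2 := by rw [← hRR]; ring
        rw [h6]
        exact mul_le_mul_of_nonneg_right hmain (by positivity)
      have h7 : (4 * |Z.2.1|) * (|Z.2.1| * ‖om Z - ω‖ ^ 2) ≤ (4 * |Z.2.1|) * L ^ 2 := by
        nlinarith
      exact le_of_mul_le_mul_left h7 (by positivity)
    rw [h2]
    have h8 := abs_sub (Av ω Z) (Z.2.1 * ‖ω - om Z‖ ^ 2)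
    nlinarith
  exact ⟨hmain, hom2, hap, (ee_le Z hsne).trans (by linarith)⟩

/-- the direction of a point difference is stable -/
theorem om_close {Z Z0 : X 2} {δ : ℝ} (h1 : ‖Z‖ ≤ 10 * |Z.2.1|) (h0 : Z.2.1 ≠ 0) (hδ : 0 ≤ δ)
    (hδ1 : δ ≤ 1 / 100) (h : ‖Z - Z0‖ ≤ δ * ‖Z‖) : ‖om Z - om Z0‖ ≤ 100 * δ := by
  have hs : 0 < |Z.2.1| := abs_pos.mpr h0
  have hx : ‖Z.1 - Z0.1‖ ≤ 10 * δ * |Z.2.1| := by
    have h2 : ‖Z.1 - Z0.1‖ ≤ ‖Z - Z0‖ := cg1_n1 (Z - Z0)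
    nlinarith
  have hss : |Z.2.1 - Z0.2.1| ≤ 10 * δ * |Z.2.1| := by
    have h2 : |Z.2.1 - Z0.2.1| ≤ ‖Z - Z0‖ := cg1_n2 (Z - Z0)
    nlinarith
  have hs1 : 9 / 10 * |Z.2.1| ≤ |Z0.2.1| := by
    have h2 := abs_sub_abs_le_abs_sub Z.2.1 Z0.2.1
    nlinarith
  have hs0 : 0 < |Z0.2.1| := by linarith
  have hs0' : Z0.2.1 ≠ 0 := abs_pos.mp hs0
  have hX : ‖Z.1‖ ≤ 10 * |Z.2.1| := (cg1_n1 Z).trans h1
  have he : om Z - om Z0 = (1 / (2 * Z.2.1 * Z0.2.1)) •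
      (Z.2.1 • (Z0.1 - Z.1) + (Z.2.1 - Z0.2.1) • Z.1) := by
    unfold om
    have e1 : -(1 / (2 * Z.2.1)) = (1 / (2 * Z.2.1 * Z0.2.1)) * (-Z0.2.1) := by field_simp
    have e2 : -(1 / (2 * Z0.2.1)) = (1 / (2 * Z.2.1 * Z0.2.1)) * (-Z.2.1) := by field_simp
    rw [e1, e2]
    module
  have hn : ‖Z.2.1 • (Z0.1 - Z.1) + (Z.2.1 - Z0.2.1) • Z.1‖ ≤ 110 * δ * |Z.2.1| ^ 2 := by
    refine (norm_add_le _ _).trans ?_
    rw [norm_smul, norm_smul, Real.norm_eq_abs, Real.norm_eq_abs, norm_sub_rev Z0.1]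
    have h2 : |Z.2.1| * ‖Z.1 - Z0.1‖ ≤ |Z.2.1| * (10 * δ * |Z.2.1|) :=
      mul_le_mul_of_nonneg_left hx hs.le
    have h3 : |Z.2.1 - Z0.2.1| * ‖Z.1‖ ≤ (10 * δ * |Z.2.1|) * (10 * |Z.2.1|) :=
      mul_le_mul hss hX (norm_nonneg _) (by positivity)
    nlinarith
  rw [he, norm_smul, Real.norm_eq_abs, abs_div, abs_one, abs_mul, abs_mul, abs_two,
    one_div, inv_mul_le_iff₀ (by positivity)]
  refine hn.trans ?_
  have h4 : |Z.2.1| * (9 / 10 * |Z.2.1|) ≤ |Z.2.1| * |Z0.2.1| :=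
    mul_le_mul_of_nonneg_left hs1 hs.le
  have h5 : 110 * δ * |Z.2.1| ^ 2 ≤ (2 * (|Z.2.1| * (9 / 10 * |Z.2.1|))) * (100 * δ) := by
    nlinarith [mul_nonneg hδ (sq_nonneg |Z.2.1|)]
  refine h5.trans ?_
  have h6 : (2 * (|Z.2.1| * (9 / 10 * |Z.2.1|))) * (100 * δ) ≤
      (2 * (|Z.2.1| * |Z0.2.1|)) * (100 * δ) := by
    refine mul_le_mul_of_nonneg_right ?_ (by positivity)
    linarith
  refine h6.trans (le_of_eq ?_)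
  ring

end Pool.LibCA93
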