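import Pool.Agent.LibCA93.CG1

/-
PLAN (CG2, SHORT to MEDIUM). Scales, blocks, windows. kp p = Nat.log 2 ⌊rad p⌋₊ (Nat.pow_log_le_self, Nat.lt_pow_succ_log_self, Nat.floor_le, Nat.lt_floor_add_one).
far_same: blk = (kp, bi); the bi differ in one coordinate i and both are c i mod 3, so |bi p i - bi q i| >= 3 and |crd p i - crd q i| > 2 4^kap = 2 2^(40000 ν); |crd p i - crd q i| = |crd (p - q) i| <= ‖p - q‖.
cross_norm: rad p - rad q >= 2^(kp p) - 2^(kp q + 1) >= (3/4) 2^(kp p), |rad Z| <= 2‖Z‖ (LibST49 abs_rad_le, rad_sub).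
grd_close: (bi p i + v i)/2^e = (bi q i + v i)/2^e gives |bi p i - bi q i| <= 2^e - 1, |crd p i - crd q i| < 2^e 4^kap; ‖x‖ <= sqrt 2 max |x_i|. grd_nest: Int.ediv_ediv_eq_ediv_mul (2^e' = 2^e 2^(e'-e)).
inW_iff: Nat.log 2 n = l iff 2^l <= n < 2^(l+1) for n >= 1 (Nat.log_eq_iff), Nat.le_div_iff_mul_le. idx_spec: same scale: far_same, floor; other scale: cross_norm, kp >= 40300 ν.
-/

set_option autoImplicit false

noncomputable section

open MeasureTheory Metric Set Filter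

namespace Pool.LibCA93

open Pool.LibSR53 Pool.LibST49

/-- the exponent of the tolerance -/
def aI (ν i : ℕ) : ℕ := ν * 2 ^ (Nat.log 2 (i / (40300 * ν)))

theorem th_eq (ν i : ℕ) : th ν i = 2 ^ aI ν i := rfl

theorem aI_ge (ν i : ℕ) : ν ≤ aI ν i := by
  unfold aI
  exact Nat.le_mul_of_pos_right _ (by positivity)

theorem aI_low {ν i : ℕ} (hν : 1 ≤ ν) (h : i < 40300 * ν) : aI ν i = ν := by
  have h1 : i / (40300 * ν) = 0 := Nat.div_eq_of_lt h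
  unfold aI
  rw [h1]
  simp

theorem aI_inW {ν l i : ℕ} (hν : 1 ≤ ν) (h : inW ν l i) : aI ν i = aL ν l := by
  unfold inW aL at h
  have h1 : Nat.log 2 (i / (40300 * ν)) = l := by
    have hpos : 0 < 40300 * ν := by omega
    have h2 : 2 ^ l ≤ i / (40300 * ν) := by
      rw [Nat.le_div_iff_mul_le hpos]
      have e : 2 ^ l * (40300 * ν) = 40300 * (ν * 2 ^ l) := by ring
      rw [e]; exact h.1
    have h3 : i / (40300 * ν) < 2 ^ (l + 1) := by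
      rw [Nat.div_lt_iff_lt_mul hpos]
      have e : 2 ^ (l + 1) * (40300 * ν) = 40300 * (ν * 2 ^ (l + 1)) := by ring
      rw [e]; exact h.2
    exact Nat.log_eq_of_pow_le_of_lt_pow h2 h3
  unfold aI aL
  rw [h1]

theorem exists_inW {ν i : ℕ} (hν : 1 ≤ ν) (h : 40300 * ν ≤ i) : ∃ l, inW ν l i := by
  have hpos : 0 < 40300 * ν := by omega
  have h0 : i / (40300 * ν) ≠ 0 := by
    have : 1 ≤ i / (40300 * ν) := by
      rw [Nat.le_div_iff_mul_le hpos]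
      omega
    omega
  refine ⟨Nat.log 2 (i / (40300 * ν)), ?_, ?_⟩
  · have h2 := Nat.pow_log_le_self 2 h0
    rw [Nat.le_div_iff_mul_le hpos] at h2
    unfold aL
    have e : 2 ^ Nat.log 2 (i / (40300 * ν)) * (40300 * ν) =
      40300 * (ν * 2 ^ Nat.log 2 (i / (40300 * ν))) := by ring
    rw [← e]; exact h2
  · have h3 := Nat.lt_pow_succ_log_self (b := 2) (by norm_num) (i / (40300 * ν))
    rw [Nat.div_lt_iff_lt_mul hpos] at h3
    unfold aL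
    have e : 2 ^ (Nat.log 2 (i / (40300 * ν))).succ * (40300 * ν) =
      40300 * (ν * 2 ^ (Nat.log 2 (i / (40300 * ν)) + 1)) := by
      rw [Nat.succ_eq_add_one]; ring
    rw [← e]; exact h3

theorem aI_le {ν i : ℕ} (hν : 1 ≤ ν) (h : 40000 * ν ≤ i) : 40000 * aI ν i ≤ i := by
  by_cases h1 : i < 40300 * ν
  · rw [aI_low hν h1]; exact h
  · obtain ⟨l, hl⟩ := exists_inW hν (not_lt.1 h1)
    rw [aI_inW hν hl]
    have := hl.1
    omega

theorem kp_spec {p : X 2} (h : 1 ≤ rad p) : (2 : ℝ) ^ kp p ≤ rad p ∧ rad p < 2 ^ (kp p + 1) := by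
  have h1 : 1 ≤ ⌊rad p⌋₊ := Nat.le_floor (by exact_mod_cast h)
  have h2 : (2 : ℝ) ^ kp p ≤ (⌊rad p⌋₊ : ℝ) := by
    exact_mod_cast Nat.pow_log_le_self 2 (by omega)
  have h3 : (⌊rad p⌋₊ : ℝ) ≤ rad p := Nat.floor_le (by linarith)
  have h4 : ⌊rad p⌋₊ + 1 ≤ 2 ^ (kp p + 1) := Nat.lt_pow_succ_log_self (b := 2) (by norm_num) _
  have h5 : ((⌊rad p⌋₊ : ℝ) + 1) ≤ (2 : ℝ) ^ (kp p + 1) := by exact_mod_cast h4
  have h6 := Nat.lt_floor_add_one (rad p)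
  exact ⟨h2.trans h3, by linarith⟩

theorem one_le_rad {ν : ℕ} {u : ℝ} {S : Finset (X 2)} {v : Fin 4 → ℤ} {J : ℕ}
    (hC : Cf ν u S v J) {p : X 2} (hp : p ∈ S) : 1 ≤ rad p := by
  have h1 := hC.rd p hp
  have h2 : (1 : ℝ) ≤ 2 ^ (40300 * ν) := one_le_pow₀ (by norm_num)
  linarith

theorem kp_ge {ν : ℕ} {u : ℝ} {S : Finset (X 2)} {v : Fin 4 → ℤ} {J : ℕ}
    (hC : Cf ν u S v J) {p : X 2} (hp : p ∈ S) : 40300 * ν ≤ kp p := by
  have h1 := hC.rd p hp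
  have h2 := (kp_spec (one_le_rad hC hp)).2
  have h3 : (2 : ℝ) ^ (40300 * ν) < 2 ^ (kp p + 1) := lt_of_le_of_lt h1 h2
  have h4 := (pow_lt_pow_iff_right₀ (by norm_num : (1 : ℝ) < 2)).1 h3
  omega

theorem kp_sep {ν : ℕ} {u : ℝ} {S : Finset (X 2)} {v : Fin 4 → ℤ} {J : ℕ}
    (hC : Cf ν u S v J) {p q : X 2} (hp : p ∈ S) (hq : q ∈ S) (h : kp p ≠ kp q) :
    kp p + 3 ≤ kp q ∨ kp q + 3 ≤ kp p := by
  obtain ⟨c, hc⟩ := hC.scl
  have h1 := hc p hp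
  have h2 := hc q hq
  omega

private theorem cg2_n1 (Z : X 2) : ‖Z.1‖ ≤ ‖Z‖ := norm_fst_le Z

private theorem cg2_n2 (Z : X 2) : |Z.2.1| ≤ ‖Z‖ :=
  (norm_fst_le Z.2).trans (norm_snd_le Z)

private theorem cg2_n3 (Z : X 2) : |Z.2.2| ≤ ‖Z‖ :=
  (norm_snd_le Z.2).trans (norm_snd_le Z)

private theorem cg2_le (Z : X 2) {r : ℝ} (h1 : ‖Z.1‖ ≤ r) (h2 : |Z.2.1| ≤ r)
    (h3 : |Z.2.2| ≤ r) : ‖Z‖ ≤ r := by
  rw [Prod.norm_def, Prod.norm_def]
  exact max_le h1 (max_le h2 h3)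

private theorem cg2_co (x : E 2) (i : Fin 2) : |x i| ≤ ‖x‖ := by
  have h := EuclideanSpace.norm_sq_eq x
  rw [Fin.sum_univ_two] at h
  simp only [Real.norm_eq_abs, sq_abs] at h
  apply abs_le_of_sq_le_sq _ (norm_nonneg x)
  fin_cases i
  · simp only [Fin.zero_eta]; nlinarith [sq_nonneg (x 1)]
  · simp only [Fin.mk_one]; nlinarith [sq_nonneg (x 0)]

private theorem cg2_crd (p q : X 2) (i : Fin 4) : |crd p i - crd q i| ≤ ‖p - q‖ := by
  fin_cases i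
  · simp only [crd]
    exact (cg2_co (p - q).1 0).trans (cg2_n1 _)
  · simp only [crd]
    exact (cg2_co (p - q).1 1).trans (cg2_n1 _)
  · simp only [crd]
    exact cg2_n2 (p - q)
  · simp only [crd]
    exact cg2_n3 (p - q)

private theorem cg2_four (ν : ℕ) : (4 : ℝ) ^ kap ν = 2 ^ (40000 * ν) := by
  unfold kap
  rw [show (4 : ℝ) = 2 ^ 2 by norm_num, ← pow_mul]
  congr 1
  ring

private theorem cg2_bi (ν : ℕ) (p : X 2) (i : Fin 4) :
    (bi ν p i : ℝ) * 4 ^ kap ν ≤ crd p i ∧ crd p i < ((bi ν p i : ℝ) + 1) * 4 ^ kap ν := by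
  have hpos : (0 : ℝ) < 4 ^ kap ν := by positivity
  have h1 : (bi ν p i : ℝ) ≤ crd p i / 4 ^ kap ν := Int.floor_le _
  have h2 : crd p i / 4 ^ kap ν < (bi ν p i : ℝ) + 1 := Int.lt_floor_add_one _
  exact ⟨(le_div_iff₀ hpos).1 h1, (div_lt_iff₀ hpos).1 h2⟩

theorem far_same {ν : ℕ} {u : ℝ} {S : Finset (X 2)} {v : Fin 4 → ℤ} {J : ℕ}
    (hC : Cf ν u S v J) {p q : X 2} (hp : p ∈ S) (hq : q ∈ S) (h : kp p = kp q)
    (hb : blk ν q ≠ blk ν p) : (2 : ℝ) ^ (40000 * ν + 1) ≤ ‖p - q‖ := by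
  have hne : bi ν q ≠ bi ν p := by
    intro h1
    apply hb
    unfold blk
    rw [h, h1]
  obtain ⟨i, hi⟩ := Function.ne_iff.1 hne
  obtain ⟨c, hc⟩ := hC.col
  have h1 := hc p hp i
  have h2 := hc q hq i
  have h3 : bi ν p i + 3 ≤ bi ν q i ∨ bi ν q i + 3 ≤ bi ν p i := by omega
  have hpos : (0 : ℝ) < 4 ^ kap ν := by positivity
  have b1 := cg2_bi ν p i
  have b2 := cg2_bi ν q i
  have h4 := cg2_crd p q i
  have h5 : 2 * (4 : ℝ) ^ kap ν ≤ |crd p i - crd q i| := by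
    rcases h3 with h3 | h3
    · have h6 : (bi ν p i : ℝ) + 3 ≤ bi ν q i := by exact_mod_cast h3
      have h7 : ((bi ν p i : ℝ) + 3) * 4 ^ kap ν ≤ (bi ν q i : ℝ) * 4 ^ kap ν :=
        mul_le_mul_of_nonneg_right h6 hpos.le
      have h8 := neg_le_abs (crd p i - crd q i)
      linarith [b1.2, b2.1]
    · have h6 : (bi ν q i : ℝ) + 3 ≤ bi ν p i := by exact_mod_cast h3
      have h7 : ((bi ν q i : ℝ) + 3) * 4 ^ kap ν ≤ (bi ν p i : ℝ) * 4 ^ kap ν :=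
        mul_le_mul_of_nonneg_right h6 hpos.le
      have h8 := le_abs_self (crd p i - crd q i)
      linarith [b2.2, b1.1]
  rw [cg2_four] at h5
  have h6 : (2 : ℝ) ^ (40000 * ν + 1) = 2 * 2 ^ (40000 * ν) := by rw [pow_succ]; ring
  rw [h6]
  exact h5.trans h4

theorem cross_norm {ν : ℕ} {u : ℝ} {S : Finset (X 2)} {v : Fin 4 → ℤ} {J : ℕ}
    (hC : Cf ν u S v J) {p q : X 2} (hp : p ∈ S) (hq : q ∈ S) (h : kp q + 3 ≤ kp p) :
    (2 : ℝ) ^ kp p ≤ 4 * ‖p - q‖ := by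
  have h1 := (kp_spec (one_le_rad hC hp)).1
  have h2 := (kp_spec (one_le_rad hC hq)).2
  have h3 : (2 : ℝ) ^ (kp q + 1) * 4 ≤ 2 ^ kp p := by
    have e : (2 : ℝ) ^ (kp q + 1) * 4 = 2 ^ (kp q + 3) := by
      rw [show (4 : ℝ) = 2 ^ 2 by norm_num, ← pow_add]
    rw [e]
    exact pow_le_pow_right₀ (by norm_num) h
  have h4 := abs_rad_le (p - q)
  rw [rad_sub] at h4
  have h5 := le_abs_self (rad p - rad q)
  have h6 : (0 : ℝ) < 2 ^ kp p := by positivity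
  linarith

theorem grd_close {ν : ℕ} {v : Fin 4 → ℤ} {e : ℕ} {p q : X 2}
    (h : grd v e (blk ν p) = grd v e (blk ν q)) : ‖p - q‖ ≤ 2 * 2 ^ (40000 * ν + e) := by
  have hpos : (0 : ℝ) < 4 ^ kap ν := by positivity
  have hcl : ∀ i, |crd p i - crd q i| ≤ 2 ^ e * 4 ^ kap ν := by
    intro i
    have h1 : (bi ν p i + v i) / 2 ^ e = (bi ν q i + v i) / 2 ^ e :=
      congrFun (congrArg Prod.snd h) i
    have he : (0 : ℤ) < 2 ^ e := by positivity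
    have a1 := Int.emod_add_mul_ediv (bi ν p i + v i) (2 ^ e)
    have a2 := Int.emod_add_mul_ediv (bi ν q i + v i) (2 ^ e)
    have a3 := Int.emod_nonneg (bi ν p i + v i) he.ne'
    have a4 := Int.emod_nonneg (bi ν q i + v i) he.ne'
    have a5 := Int.emod_lt_of_pos (bi ν p i + v i) he
    have a6 := Int.emod_lt_of_pos (bi ν q i + v i) he
    rw [h1] at a1
    have c1 : bi ν p i + 1 ≤ bi ν q i + 2 ^ e := by linarith
    have c2 : bi ν q i + 1 ≤ bi ν p i + 2 ^ e := by linarith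
    have d1 : (bi ν p i : ℝ) + 1 ≤ bi ν q i + 2 ^ e := by exact_mod_cast c1
    have d2 : (bi ν q i : ℝ) + 1 ≤ bi ν p i + 2 ^ e := by exact_mod_cast c2
    have b1 := cg2_bi ν p i
    have b2 := cg2_bi ν q i
    have f1 := mul_le_mul_of_nonneg_right d1 hpos.le
    have f2 := mul_le_mul_of_nonneg_right d2 hpos.le
    rw [abs_le]
    constructor
    · linarith [b1.1, b2.2, add_mul (bi ν p i : ℝ) (2 ^ e) (4 ^ kap ν)]
    · linarith [b2.1, b1.2, add_mul (bi ν q i : ℝ) (2 ^ e) (4 ^ kap ν)]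
  have hr : (2 : ℝ) ^ e * 4 ^ kap ν = 2 ^ (40000 * ν + e) := by
    rw [cg2_four, pow_add]; ring
  rw [hr] at hcl
  have hR : (0 : ℝ) < 2 ^ (40000 * ν + e) := by positivity
  have k0 : |(p - q).1 0| ≤ 2 ^ (40000 * ν + e) := hcl 0
  have k1 : |(p - q).1 1| ≤ 2 ^ (40000 * ν + e) := hcl 1
  have k2 : |(p - q).2.1| ≤ 2 ^ (40000 * ν + e) := hcl 2
  have k3 : |(p - q).2.2| ≤ 2 ^ (40000 * ν + e) := hcl 3
  apply cg2_le
  · have h := EuclideanSpace.norm_sq_eq (p - q).1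
    rw [Fin.sum_univ_two] at h
    simp only [Real.norm_eq_abs] at h
    have m0 : |(p - q).1 0| ^ 2 ≤ (2 ^ (40000 * ν + e)) ^ 2 := pow_le_pow_left₀ (abs_nonneg _) k0 2
    have m1 : |(p - q).1 1| ^ 2 ≤ (2 ^ (40000 * ν + e)) ^ 2 := pow_le_pow_left₀ (abs_nonneg _) k1 2
    apply le_of_sq_le_sq _ (by positivity)
    rw [h, mul_pow]
    nlinarith [sq_nonneg ((2 : ℝ) ^ (40000 * ν + e))]
  · linarith
  · linarith

theorem grd_nest {v : Fin 4 → ℤ} {e e' : ℕ} {c c' : ℕ × (Fin 4 → ℤ)} (he : e ≤ e')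
    (h : grd v e c = grd v e c') : grd v e' c = grd v e' c' := by
  unfold grd at h ⊢
  have h1 : c.1 = c'.1 := (Prod.mk.inj h).1
  have h2 : ∀ i, (c.2 i + v i) / 2 ^ e = (c'.2 i + v i) / 2 ^ e := fun i =>
    congrFun (Prod.mk.inj h).2 i
  refine Prod.ext h1 (funext fun i => ?_)
  have e1 : (2 : ℤ) ^ e' = 2 ^ e * 2 ^ (e' - e) := by rw [← pow_add, Nat.add_sub_cancel' he]
  show (c.2 i + v i) / 2 ^ e' = (c'.2 i + v i) / 2 ^ e'
  rw [e1, ← Int.ediv_ediv_of_nonneg (by positivity), ← Int.ediv_ediv_of_nonneg (by positivity), h2 i]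

theorem idx_symm (p q : X 2) : idx p q = idx q p := by
  unfold idx
  by_cases h : kp p = kp q
  · rw [if_pos h, if_pos h.symm, norm_sub_rev]
  · rw [if_neg h, if_neg (fun h' => h h'.symm), min_comm]

theorem LT_symm {ν : ℕ} {u : ℝ} {S : Finset (X 2)} {v : Fin 4 → ℤ} {K : ℝ} {p q : X 2}
    (h : LT ν u S v K p q) : LT ν u S v K q p := by
  obtain ⟨ω, h1, h2, h3, h4⟩ := h
  have e1 : q - p = -(p - q) := by abel
  have e2 : kz (q - p) = kz (p - q) := by unfold kz; rw [norm_sub_rev]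
  refine ⟨ω, h1, ?_, ?_, ?_⟩
  · rw [e2, idx_symm q p, e1, norm_Lk_neg]
    exact h2
  · rw [idx_symm q p]
    exact fun h l hl => (h3 h l hl).symm
  · rw [idx_symm q p]
    exact fun h => (h4 h).symm

theorem idx_spec {ν : ℕ} {u : ℝ} {S : Finset (X 2)} {v : Fin 4 → ℤ} {J : ℕ}
    (hC : Cf ν u S v J) {p q : X 2} (hp : p ∈ S) (hq : q ∈ S) (hb : blk ν q ≠ blk ν p) :
    40000 * ν ≤ idx p q ∧ (2 : ℝ) ^ idx p q ≤ ‖p - q‖ ∧
      (kp p = kp q → ‖p - q‖ < 2 ^ (idx p q + 1)) := by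
  by_cases h : kp p = kp q
  · have h1 := far_same hC hp hq h hb
    have e : idx p q = Nat.log 2 ⌊‖p - q‖⌋₊ := by unfold idx; rw [if_pos h]
    rw [e]
    have h2 : 2 ^ (40000 * ν + 1) ≤ ⌊‖p - q‖⌋₊ := Nat.le_floor (by push_cast; exact h1)
    have h3 : 0 < ⌊‖p - q‖⌋₊ := lt_of_lt_of_le (by positivity) h2
    have h4 : 40000 * ν + 1 ≤ Nat.log 2 ⌊‖p - q‖⌋₊ :=
      (Nat.le_log_iff_pow_le (by norm_num) h3.ne').2 h2
    have h5 : (2 : ℝ) ^ Nat.log 2 ⌊‖p - q‖⌋₊ ≤ (⌊‖p - q‖⌋₊ : ℝ) := by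
      exact_mod_cast Nat.pow_log_le_self 2 h3.ne'
    have h6 : (⌊‖p - q‖⌋₊ : ℝ) ≤ ‖p - q‖ := Nat.floor_le (norm_nonneg _)
    have h7 : ⌊‖p - q‖⌋₊ + 1 ≤ 2 ^ (Nat.log 2 ⌊‖p - q‖⌋₊ + 1) :=
      Nat.lt_pow_succ_log_self (b := 2) (by norm_num) _
    have h8 : ((⌊‖p - q‖⌋₊ : ℝ) + 1) ≤ (2 : ℝ) ^ (Nat.log 2 ⌊‖p - q‖⌋₊ + 1) := by
      exact_mod_cast h7
    have h9 := Nat.lt_floor_add_one ‖p - q‖
    exact ⟨by omega, h5.trans h6, fun _ => by linarith⟩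
  · have e : idx p q = min (kp p) (kp q) := by unfold idx; rw [if_neg h]
    have k1 := kp_ge hC hp
    have k2 := kp_ge hC hq
    have k3 := hC.nu1
    rw [e]
    refine ⟨by omega, ?_, fun h' => absurd h' h⟩
    rcases kp_sep hC hp hq h with h1 | h1
    · have h2 := cross_norm hC hq hp h1
      rw [norm_sub_rev] at h2
      have h3 : (2 : ℝ) ^ (min (kp p) (kp q)) * 8 ≤ 2 ^ kp q := by
        rw [show (8 : ℝ) = 2 ^ 3 by norm_num, ← pow_add]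
        exact pow_le_pow_right₀ (by norm_num) (by omega)
      have h4 : (0 : ℝ) ≤ ‖p - q‖ := norm_nonneg _
      linarith
    · have h2 := cross_norm hC hp hq h1
      have h3 : (2 : ℝ) ^ (min (kp p) (kp q)) * 8 ≤ 2 ^ kp p := by
        rw [show (8 : ℝ) = 2 ^ 3 by norm_num, ← pow_add]
        exact pow_le_pow_right₀ (by norm_num) (by omega)
      have h4 : (0 : ℝ) ≤ ‖p - q‖ := norm_nonneg _
      linarith

end Pool.LibCA93
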