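import Pool.Agent.LibCA93.CG2
import Pool.Agent.LibST49.S0
import Pool.Agent.LibSR53.C1
import Pool.Agent.LibSR53.L3

/-
PLAN (CG3, MEDIUM). Transport to P 3 = E 3 x R: un Z = (WithLp.toLp 2 ![x_0, x_1, t - s], s + t), Lam (un Z) = Z, (un Z).2 = rad Z. With S' = S.image un: sc k S' = (scX k S).image un (kp_spec, rad >= 1),
Dens u S' (dist (un p) (un q) >= ‖p - q‖: prove this directly, |s|,|t| <= max(|t-s|,|s+t|), and DX with t = 2^i). Then
 count_big: count_ball 3 (dist_le_Lam: dist <= 3‖.‖ <= 2^(k+j+2)). row_cone: Mk_cross 2 N (k small, l large; Mk_neg) and row_L3 (d = 3, C1 from count_shell 3): C 2^(-l) u 2^k 2^(2l)/2^(2k).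
 same_abs: i <= kp p + 5: DX with t = 2^(i+1), Mk <= 1/‖Z‖ <= 2^(-i). i > kp p + 5: Mk_same 2 N: Mk <= C 2^(-i) 2^(5(k-i)), count_big with j = i+1-k: C u 2^k 2^(4(i+1-k)).
-/

set_option autoImplicit false

noncomputable section

open MeasureTheory Metric Set Filter

namespace Pool.LibCA93

open Pool.LibSR53 Pool.LibST49

/-- the inverse of Lam -/
def un (Z : X 2) : P 3 := (WithLp.toLp 2 ![Z.1 0, Z.1 1, Z.2.2 - Z.2.1], Z.2.1 + Z.2.2)

theorem Lam_un (Z : X 2) : (Lam (un Z) : X 2) = Z := by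
  have h2 : las (un Z).1 = Z.2.2 - Z.2.1 := rfl
  have h3 : (un Z).2 = Z.2.1 + Z.2.2 := rfl
  unfold Lam
  refine Prod.ext ?_ (Prod.ext ?_ ?_)
  · ext i
    fin_cases i <;> rfl
  · show ((un Z).2 - las (un Z).1) / 2 = Z.2.1
    rw [h2, h3]
    ring
  · show ((un Z).2 + las (un Z).1) / 2 = Z.2.2
    rw [h2, h3]
    ring

private theorem cg3_inj : Function.Injective un := by
  intro p q h
  rw [← Lam_un p, ← Lam_un q, h]

private theorem cg3_un2 (Z : X 2) : (un Z).2 = rad Z := rfl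

open scoped Classical in
private theorem cg3_mem {S : Finset (X 2)} {k : ℕ} {p : X 2} :
    p ∈ scX k S ↔ p ∈ S ∧ kp p = k := by
  unfold scX
  rw [Finset.mem_filter]

private theorem cg3_kp {p : X 2} (h : 1 ≤ rad p) (k : ℕ) :
    kp p = k ↔ (2 : ℝ) ^ k ≤ rad p ∧ rad p < 2 ^ (k + 1) := by
  obtain ⟨h1, h2⟩ := kp_spec h
  constructor
  · rintro rfl
    exact ⟨h1, h2⟩
  · rintro ⟨h3, h4⟩
    have h5 : (2 : ℝ) ^ kp p < 2 ^ (k + 1) := lt_of_le_of_lt h1 h4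
    have h6 : (2 : ℝ) ^ k < 2 ^ (kp p + 1) := lt_of_le_of_lt h3 h2
    rw [pow_lt_pow_iff_right₀ (by norm_num)] at h5 h6
    omega

open scoped Classical in
theorem sc_un {S : Finset (X 2)} (h1 : ∀ p ∈ S, 1 ≤ rad p) (k : ℕ) :
    sc k (S.image un) = (scX k S).image un := by
  ext x
  unfold sc
  rw [Finset.mem_filter, Finset.mem_image, Finset.mem_image]
  constructor
  · rintro ⟨⟨p, hp, rfl⟩, h2, h3⟩
    rw [cg3_un2] at h2 h3
    exact ⟨p, cg3_mem.2 ⟨hp, (cg3_kp (h1 p hp) k).2 ⟨h2, h3⟩⟩, rfl⟩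
  · rintro ⟨p, hp, rfl⟩
    obtain ⟨hp1, hp2⟩ := cg3_mem.1 hp
    obtain ⟨h2, h3⟩ := (cg3_kp (h1 p hp1) k).1 hp2
    exact ⟨⟨p, hp1, rfl⟩, h2, h3⟩

private theorem cg3_un_sub (p q : X 2) : un p - un q = un (p - q) := by
  unfold un
  refine Prod.ext ?_ ?_
  · ext i
    fin_cases i
    · rfl
    · rfl
    · show (p.2.2 - p.2.1) - (q.2.2 - q.2.1) = (p.2.2 - q.2.2) - (p.2.1 - q.2.1)
      ring
  · show (p.2.1 + p.2.2) - (q.2.1 + q.2.2) = (p.2.1 - q.2.1) + (p.2.2 - q.2.2)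
    ring

private theorem cg3_norm (Z : X 2) : ‖Z‖ ≤ ‖un Z‖ := by
  have h1 : ‖(un Z).1‖ ≤ ‖un Z‖ := norm_fst_le _
  have h2 : |Z.2.1 + Z.2.2| ≤ ‖un Z‖ := norm_snd_le (un Z)
  have h3 : ‖(un Z).1‖ ^ 2 = ‖Z.1‖ ^ 2 + (Z.2.2 - Z.2.1) ^ 2 := by
    rw [EuclideanSpace.norm_sq_eq, EuclideanSpace.norm_sq_eq, Fin.sum_univ_three,
      Fin.sum_univ_two]
    show ‖Z.1 0‖ ^ 2 + ‖Z.1 1‖ ^ 2 + ‖Z.2.2 - Z.2.1‖ ^ 2 = _
    rw [Real.norm_eq_abs (Z.2.2 - Z.2.1), sq_abs]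
  have h4 : ‖Z.1‖ ≤ ‖(un Z).1‖ := by
    apply le_of_sq_le_sq _ (norm_nonneg _)
    rw [h3]
    nlinarith [sq_nonneg (Z.2.2 - Z.2.1)]
  have h5 : |Z.2.2 - Z.2.1| ≤ ‖(un Z).1‖ := by
    apply abs_le_of_sq_le_sq _ (norm_nonneg _)
    rw [h3]
    nlinarith [sq_nonneg ‖Z.1‖]
  have h6 := abs_le.1 h2
  have h7 := abs_le.1 (h5.trans h1)
  rw [Prod.norm_def, Prod.norm_def]
  refine max_le (h4.trans h1) (max_le ?_ ?_)
  · rw [Real.norm_eq_abs, abs_le]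
    constructor <;> linarith
  · rw [Real.norm_eq_abs, abs_le]
    constructor <;> linarith

private theorem cg3_dist (p q : X 2) : ‖p - q‖ ≤ dist (un p) (un q) := by
  rw [dist_eq_norm, cg3_un_sub]
  exact cg3_norm _

private theorem cg3_dist_le (p q : X 2) : dist (un p) (un q) ≤ 3 * ‖p - q‖ := by
  have h := dist_le_Lam (m := 2) (un p) (un q)
  rw [Lam_un, Lam_un] at h
  exact h

open scoped Classical in
theorem dens_un {S : Finset (X 2)} {u : ℝ} (h1 : ∀ p ∈ S, 1 ≤ rad p) (hD : DX u S) :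
    Dens u (S.image un) := by
  intro k P hP i hi
  rw [sc_un h1] at hP ⊢
  obtain ⟨p, hp, rfl⟩ := Finset.mem_image.1 hP
  have h2 := hD k p hp ((2 : ℝ) ^ i) (one_le_pow₀ (by norm_num))
    (pow_le_pow_right₀ (by norm_num) (by omega))
  refine le_trans ?_ h2
  have h3 : nb ((scX k S).image un) (un p) ((2 : ℝ) ^ i) ⊆
      ((scX k S).filter (fun q => ‖q - p‖ ≤ (2 : ℝ) ^ i)).image un := by
    intro x hx
    unfold nb at hx
    rw [Finset.mem_filter, Finset.mem_image] at hx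
    obtain ⟨⟨q, hq, rfl⟩, hx2⟩ := hx
    exact Finset.mem_image.2 ⟨q, Finset.mem_filter.2 ⟨hq, (cg3_dist q p).trans hx2⟩, rfl⟩
  have h4 := (Finset.card_le_card h3).trans Finset.card_image_le
  exact_mod_cast h4

open scoped Classical in
theorem count_big : ∃ C : ℝ, 0 < C ∧ ∀ (u : ℝ) (S : Finset (X 2)), (∀ p ∈ S, 1 ≤ rad p) →
    0 ≤ u → DX u S → ∀ (k j : ℕ) (z : X 2),
    (((scX k S).filter (fun p => ‖p - z‖ ≤ 2 ^ (k + j))).card : ℝ) ≤ C * u * 2 ^ k * 2 ^ (4 * j) := by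
  obtain ⟨C, hC, hcb⟩ := count_ball 3
  refine ⟨C * 2 ^ 8, by positivity, ?_⟩
  intro u S h1 hu hD k j z
  have h2 := hcb k u (S.image un) hu (dens_un h1 hD) (un z) (j + 2)
  rw [sc_un h1] at h2
  have h3 : ((scX k S).filter (fun p => ‖p - z‖ ≤ 2 ^ (k + j))).image un ⊆
      nb ((scX k S).image un) (un z) ((2 : ℝ) ^ (k + (j + 2))) := by
    intro x hx
    obtain ⟨p, hp, rfl⟩ := Finset.mem_image.1 hx
    rw [Finset.mem_filter] at hp
    unfold nb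
    rw [Finset.mem_filter]
    refine ⟨Finset.mem_image.2 ⟨p, hp.1, rfl⟩, ?_⟩
    have h4 := cg3_dist_le p z
    have h5 : (2 : ℝ) ^ (k + (j + 2)) = 4 * 2 ^ (k + j) := by ring
    have h6 : (0 : ℝ) < 2 ^ (k + j) := by positivity
    rw [h5]
    linarith [hp.2]
  have h4 := Finset.card_le_card h3
  rw [Finset.card_image_of_injective _ cg3_inj] at h4
  have h5 : (((scX k S).filter (fun p => ‖p - z‖ ≤ 2 ^ (k + j))).card : ℝ) ≤
      ((nb ((scX k S).image un) (un z) ((2 : ℝ) ^ (k + (j + 2)))).card : ℝ) := by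
    exact_mod_cast h4
  refine (h5.trans h2).trans (le_of_eq ?_)
  have h6 : (2 : ℝ) ^ ((j + 2) * (3 + 1)) = 2 ^ (4 * j) * 2 ^ 8 := by
    rw [← pow_add]
    congr 1
    ring
  rw [h6]
  ring

/-- one point of the larger scale against all points of a smaller scale -/
theorem row_cone (N : ℕ) (hN : 5 ≤ N) : ∃ C : ℝ, 0 < C ∧ ∀ (u : ℝ) (S : Finset (X 2)),
    (∀ p ∈ S, 1 ≤ rad p) → 0 ≤ u → DX u S → ∀ (k l : ℕ), k + 3 ≤ l → ∀ p : X 2,
    (2 : ℝ) ^ l ≤ rad p → rad p < 2 ^ (l + 1) →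
    ∑ q ∈ scX k S, (2 : ℝ) ^ (l + k) * Mk N (p - q) ≤ C * u * 2 ^ (2 * l) := by
  classical
  obtain ⟨C, hC, hMk⟩ := Mk_cross 2 N (by omega)
  obtain ⟨C1, hC1, hcount⟩ := count_shell 3 (by norm_num)
  refine ⟨C * (2 * (C1 * 4 ^ 4)), by positivity, ?_⟩
  intro u S h1 hu hD k l hkl p hp1 hp2
  have hp0 : 0 ≤ (un p).2 := by
    rw [cg3_un2]
    exact le_trans (by positivity) hp1
  have hrow := row_L3 (d := 3) (by norm_num) hC1 hcount (k := k) (l := l) (S := S.image un)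
    (by omega) hu (dens_un h1 hD) (un p) hp0 (by rw [cg3_un2]; exact hp2.le)
  rw [sc_un h1, Finset.sum_image (fun _ _ _ _ h => cg3_inj h)] at hrow
  have h2 : ∀ q ∈ scX k S, (2 : ℝ) ^ (l + k) * Mk N (p - q) ≤
      (2 : ℝ) ^ k * C * (1 / (1 + |‖(un q).1 - (un p).1‖ - (un p).2| / 2 ^ (k + 1)) ^ (3 + 1)) := by
    intro q hq
    obtain ⟨hq1, hq2⟩ := cg3_mem.1 hq
    obtain ⟨hq3, hq4⟩ := (cg3_kp (h1 q hq1) k).1 hq2
    have h3 := hMk k l hkl (un q) (un p) hq3 hq4 hp1 hp2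
    rw [Lam_un, Lam_un, ← neg_sub, Mk_neg] at h3
    have h4 : (2 : ℝ) ^ (-((l : ℝ) * (((2 : ℕ) : ℝ) / 2))) = ((2 : ℝ) ^ l)⁻¹ := by
      rw [← Real.rpow_natCast, ← Real.rpow_neg (by norm_num)]
      congr 1
      push_cast
      ring
    rw [h4] at h3
    calc (2 : ℝ) ^ (l + k) * Mk N (p - q) ≤ (2 : ℝ) ^ (l + k) * (C * ((2 : ℝ) ^ l)⁻¹ *
          (1 / (1 + |‖(un q).1 - (un p).1‖ - (un p).2| / 2 ^ (k + 1)) ^ (2 + 1 + 1))) :=
          mul_le_mul_of_nonneg_left h3 (by positivity)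
      _ = _ := by
          rw [pow_add]
          field_simp
  refine (Finset.sum_le_sum h2).trans ?_
  rw [← Finset.mul_sum]
  refine (mul_le_mul_of_nonneg_left hrow (by positivity)).trans (le_of_eq ?_)
  have e1 : (2 : ℝ) ^ (k * (3 - 1)) = 2 ^ k * 2 ^ k := by
    rw [← pow_add]
    congr 1
    omega
  have e2 : (2 : ℝ) ^ (l * (3 - 1)) = 2 ^ (2 * l) := by
    congr 1
    omega
  rw [e1, e2]
  field_simp

open scoped Classical in
/-- one point against the points of its scale in a dyadic shell -/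
theorem same_abs (N : ℕ) (hN : 5 ≤ N) : ∃ C : ℝ, 0 < C ∧ ∀ (u : ℝ) (S : Finset (X 2)),
    (∀ p ∈ S, 1 ≤ rad p) → 0 ≤ u → DX u S → ∀ p ∈ S, ∀ i : ℕ,
    ∑ q ∈ (scX (kp p) S).filter (fun q => (2 : ℝ) ^ i ≤ ‖p - q‖ ∧ ‖p - q‖ < 2 ^ (i + 1)),
      Mk N (p - q) ≤ C * u := by
  obtain ⟨C, hC, hMk⟩ := Mk_same 2 N (by omega)
  obtain ⟨C', hC', hcb⟩ := count_big
  refine ⟨2 + C * C' * 16, by positivity, ?_⟩
  intro u S h1 hu hD p hp i
  set k := kp p with hk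
  set F := (scX k S).filter (fun q => (2 : ℝ) ^ i ≤ ‖p - q‖ ∧ ‖p - q‖ < 2 ^ (i + 1)) with hF
  have h2i : (0 : ℝ) < 2 ^ i := by positivity
  have h2k : (0 : ℝ) < 2 ^ k := by positivity
  have hFsub : F ⊆ (scX k S).filter (fun q => ‖q - p‖ ≤ (2 : ℝ) ^ (i + 1)) := by
    intro q hq
    rw [hF, Finset.mem_filter] at hq
    rw [Finset.mem_filter]
    refine ⟨hq.1, ?_⟩
    rw [norm_sub_rev]
    exact hq.2.2.le
  have hCu : 0 ≤ C * C' * 16 * u := by positivity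
  rcases le_or_gt i (k + 5) with hi | hi
  · have h2 : ∀ q ∈ F, Mk N (p - q) ≤ ((2 : ℝ) ^ i)⁻¹ := by
      intro q hq
      rw [hF, Finset.mem_filter] at hq
      have h3 := hq.2.1
      unfold Mk
      have h4 : (1 + ‖p - q‖) ^ (-(((2 : ℕ) : ℝ) / 2)) = (1 + ‖p - q‖)⁻¹ := by
        rw [← Real.rpow_neg_one]
        congr 1
        push_cast
        norm_num
      rw [h4]
      have h5 : (1 + ‖p - q‖)⁻¹ ≤ ((2 : ℝ) ^ i)⁻¹ := inv_anti₀ h2i (by linarith)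
      refine le_trans (div_le_self (by positivity) ?_) h5
      apply one_le_pow₀
      linarith [abs_nonneg (ny (p - q) - |rad (p - q)|)]
    have h3 := Finset.sum_le_card_nsmul _ _ _ h2
    rw [nsmul_eq_mul] at h3
    have h4 := hD k p (cg3_mem.2 ⟨hp, hk.symm⟩) ((2 : ℝ) ^ (i + 1)) (one_le_pow₀ (by norm_num))
      (pow_le_pow_right₀ (by norm_num) (by omega))
    have h5 : (F.card : ℝ) ≤ u * 2 ^ (i + 1) := by
      refine le_trans ?_ h4
      exact_mod_cast Finset.card_le_card hFsub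
    calc _ ≤ _ := h3
      _ ≤ (u * 2 ^ (i + 1)) * ((2 : ℝ) ^ i)⁻¹ := mul_le_mul_of_nonneg_right h5 (by positivity)
      _ = 2 * u := by
          rw [pow_succ]
          field_simp
      _ ≤ _ := by linarith
  · obtain ⟨n, hn⟩ : ∃ n, i = k + n := ⟨i - k, by omega⟩
    have h2 : ∀ q ∈ F, Mk N (p - q) ≤ C * (((2 : ℝ) ^ i)⁻¹ * ((2 : ℝ) ^ (5 * n))⁻¹) := by
      intro q hq
      rw [hF, Finset.mem_filter] at hq
      obtain ⟨hqS, hq3, _⟩ := hq
      obtain ⟨hq1, hq2⟩ := cg3_mem.1 hqS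
      obtain ⟨hq4, hq5⟩ := (cg3_kp (h1 q hq1) k).1 hq2
      obtain ⟨hp4, hp5⟩ := (cg3_kp (h1 p hp) k).1 hk.symm
      have h3 := hMk k (un p) (un q) hp4 hp5 hq4 hq5
      rw [Lam_un, Lam_un] at h3
      refine h3.trans (mul_le_mul_of_nonneg_left ?_ hC.le)
      have hd : (2 : ℝ) ^ i ≤ dist (un p) (un q) := hq3.trans (cg3_dist p q)
      have h4 : (1 + dist (un p) (un q)) ^ (-nu (2 + 1)) = (1 + dist (un p) (un q))⁻¹ := by
        rw [← Real.rpow_neg_one]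
        congr 1
        unfold nu
        push_cast
        norm_num
      rw [h4, div_eq_mul_inv]
      have h5 : (1 + dist (un p) (un q))⁻¹ ≤ ((2 : ℝ) ^ i)⁻¹ := inv_anti₀ h2i (by linarith)
      have h6 : (2 : ℝ) ^ n ≤ 1 + dist (un p) (un q) / 2 ^ k := by
        have h7 : (2 : ℝ) ^ n ≤ dist (un p) (un q) / 2 ^ k := by
          rw [le_div_iff₀ h2k, ← pow_add, add_comm n k, ← hn]
          exact hd
        linarith
      have h8 : ((1 + dist (un p) (un q) / 2 ^ k) ^ (2 + 1 + 2))⁻¹ ≤ ((2 : ℝ) ^ (5 * n))⁻¹ := by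
        apply inv_anti₀ (by positivity)
        rw [mul_comm 5 n, pow_mul]
        exact pow_le_pow_left₀ (by positivity) h6 _
      exact mul_le_mul h5 h8 (by positivity) (by positivity)
    have h3 := Finset.sum_le_card_nsmul _ _ _ h2
    rw [nsmul_eq_mul] at h3
    have h4 := hcb u S h1 hu hD k (n + 1) p
    have h5 : (F.card : ℝ) ≤ C' * u * 2 ^ k * 2 ^ (4 * (n + 1)) := by
      refine le_trans ?_ h4
      have h6 : k + (n + 1) = i + 1 := by omega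
      rw [h6]
      exact_mod_cast Finset.card_le_card hFsub
    have h6 : (1 : ℝ) ≤ 2 ^ n := one_le_pow₀ (by norm_num)
    calc _ ≤ _ := h3
      _ ≤ (C' * u * 2 ^ k * 2 ^ (4 * (n + 1))) * (C * (((2 : ℝ) ^ i)⁻¹ * ((2 : ℝ) ^ (5 * n))⁻¹)) :=
          mul_le_mul_of_nonneg_right h5 (by positivity)
      _ = C * C' * 16 * u * ((2 : ℝ) ^ n * 2 ^ n)⁻¹ := by
          rw [hn, pow_add, mul_comm 4 (n + 1), pow_mul, mul_comm 5 n, pow_mul]
          field_simp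
          ring
      _ ≤ C * C' * 16 * u * 1 := by
          apply mul_le_mul_of_nonneg_left _ hCu
          apply inv_le_one_of_one_le₀
          nlinarith
      _ ≤ _ := by linarith

end Pool.LibCA93
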