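import Pool.Agent.LibCA93.CG3
import Pool.Agent.LibCA93.CL

/-
PLAN (CM1, SHORT to MEDIUM). Geometry of one tangent pair. a := aI ν (idx p q), th = 2^a, L := max 1 K * 2^a, Z = p - q. ‖Z‖ >= 2^(idx) >= 2^(40000 a) (idx_spec, aI_le), so 64 L^2 <= ‖Z‖ for ν >= ν0(K) (a >= ν): tan_geo.
2 L/sqrt ‖Z‖ <= 2 K' 2^a 2^(-20000 a) <= 2^(-19000 a). Upper bounds: ‖Z‖ <= ny + |rad| <= 2 |rad Z| + ee Z (norm_le_ny), ee <= 4 L^2 <= ‖Z‖/8; same scale: |rad Z| <= 2^k; other scale kp q + 3 <= kp p: |rad Z| <= rad p <= 2^(kp p + 1).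
-/

set_option autoImplicit false

noncomputable section

open MeasureTheory Metric Set Filter

namespace Pool.LibCA93

open Pool.LibSR53 Pool.LibST49

/-- the threshold absorbs a constant -/
private theorem cm1_abs {c : ℝ} {ν0 : ℕ} (h : c ≤ 2 ^ ν0) {a : ℕ} (ha : ν0 ≤ a) :
    c ≤ 2 ^ a := h.trans (pow_le_pow_right₀ (by norm_num) ha)

private theorem cm1_exp (c : ℝ) : ∃ ν0 : ℕ, 1 ≤ ν0 ∧ c ≤ 2 ^ ν0 := by
  obtain ⟨n, hn⟩ := pow_unbounded_of_one_lt c (by norm_num : (1 : ℝ) < 2)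
  exact ⟨n + 1, by omega, hn.le.trans (pow_le_pow_right₀ (by norm_num) (by omega))⟩

private theorem cm1_low {ν : ℕ} {u : ℝ} {S : Finset (X 2)} {v : Fin 4 → ℤ} {J' : ℕ}
    (hC : Cf ν u S v J') {p q : X 2} (hp : p ∈ S) (hq : q ∈ S) (hb : blk ν q ≠ blk ν p) :
    (2 : ℝ) ^ (40000 * aI ν (idx p q)) ≤ 2 ^ idx p q ∧ (2 : ℝ) ^ idx p q ≤ ‖p - q‖ := by
  obtain ⟨h1, h2, _⟩ := idx_spec hC hp hq hb
  exact ⟨pow_le_pow_right₀ (by norm_num) (aI_le hC.nu1 h1), h2⟩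

private theorem cm1_four (a : ℕ) : (4 : ℝ) ^ a = 2 ^ (2 * a) := by
  rw [pow_mul]
  norm_num

/-- a multiple of 4^a is at most 2^(idx) -/
private theorem cm1_small {ν : ℕ} {u : ℝ} {S : Finset (X 2)} {v : Fin 4 → ℤ} {J' : ℕ}
    (hC : Cf ν u S v J') {p q : X 2} (hp : p ∈ S) (hq : q ∈ S) (hb : blk ν q ≠ blk ν p)
    {c : ℝ} {ν0 : ℕ} (hc : c ≤ 2 ^ ν0) (hν : ν0 ≤ ν) :
    c * 4 ^ aI ν (idx p q) ≤ 2 ^ idx p q := by
  have h1 := (cm1_low hC hp hq hb).1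
  have h2 : c ≤ 2 ^ aI ν (idx p q) := cm1_abs hc (hν.trans (aI_ge ν _))
  calc c * 4 ^ aI ν (idx p q) ≤ 2 ^ aI ν (idx p q) * 4 ^ aI ν (idx p q) := by gcongr
    _ = 2 ^ (3 * aI ν (idx p q)) := by
        rw [cm1_four, ← pow_add]
        congr 1
        ring
    _ ≤ 2 ^ (40000 * aI ν (idx p q)) := by
        refine pow_le_pow_right₀ (by norm_num) ?_
        omega
    _ ≤ _ := h1

theorem pair_geo (K : ℝ) : ∃ (C : ℝ) (ν0 : ℕ), 0 < C ∧ ∀ (ν : ℕ) (u : ℝ) (S : Finset (X 2))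
    (v : Fin 4 → ℤ) (J' : ℕ), ν0 ≤ ν → Cf ν u S v J' → ∀ p ∈ S, ∀ q ∈ S, blk ν q ≠ blk ν p →
    ∀ ω : E 2, ‖ω‖ ≤ 1 → ‖Lk (kz (p - q)) ω (p - q)‖ ≤ K * th ν (idx p q) →
    ‖p - q‖ ≤ 4 * |(p - q).2.1| ∧ ‖om (p - q) - ω‖ ≤ 1 / 2 ^ (19000 * aI ν (idx p q)) ∧
      |ap (p - q)| ≤ C * 4 ^ aI ν (idx p q) ∧ ee (p - q) ≤ C * 4 ^ aI ν (idx p q) := by
  obtain ⟨L0, hL0⟩ : ∃ L0 : ℝ, L0 = max 1 K := ⟨_, rfl⟩
  have hL1 : 1 ≤ L0 := by rw [hL0]; exact le_max_left _ _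
  have hLK : K ≤ L0 := by rw [hL0]; exact le_max_right _ _
  obtain ⟨ν0, hν1, hν0⟩ := cm1_exp (64 * L0 ^ 2)
  refine ⟨4 * L0 ^ 2, ν0, by positivity, ?_⟩
  intro ν u S v J' hν hCf p hp q hq hb ω hω hLk
  obtain ⟨a, ha⟩ : ∃ a : ℕ, a = aI ν (idx p q) := ⟨_, rfl⟩
  rw [th_eq] at hLk
  have hsm := cm1_small hCf hp hq hb hν0 hν
  obtain ⟨hlow1, hlow2⟩ := cm1_low hCf hp hq hb
  have haν : ν0 ≤ a := by rw [ha]; exact hν.trans (aI_ge ν _)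
  rw [← ha] at hLk hsm hlow1 ⊢
  have hpa : (1 : ℝ) ≤ 2 ^ a := one_le_pow₀ (by norm_num)
  have hLL : (L0 * 2 ^ a) ^ 2 = L0 ^ 2 * 4 ^ a := by
    rw [mul_pow, cm1_four, ← pow_mul, mul_comm a 2]
  have hL : 1 ≤ L0 * 2 ^ a := one_le_mul_of_one_le_of_one_le hL1 hpa
  have h64 : 64 * (L0 * 2 ^ a) ^ 2 ≤ ‖p - q‖ := by
    rw [hLL]
    linarith
  have hZ : ‖Lk (kz (p - q)) ω (p - q)‖ ≤ L0 * 2 ^ a := hLk.trans (by gcongr)
  obtain ⟨g1, g2, g3, g4⟩ := tan_geo hω hL hZ h64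
  refine ⟨g1, g2.trans ?_, g3.trans ?_, g4.trans ?_⟩
  · have hs : (2 : ℝ) ^ (20000 * a) ≤ Real.sqrt ‖p - q‖ := by
      refine Real.le_sqrt_of_sq_le ?_
      rw [← pow_mul]
      refine le_trans (le_of_eq ?_) (hlow1.trans hlow2)
      congr 1
      ring
    have h2 : 2 * L0 ≤ 2 ^ a := by
      refine le_trans ?_ (cm1_abs hν0 haν)
      nlinarith
    rw [div_le_div_iff₀ (lt_of_lt_of_le (by positivity) hs) (by positivity), one_mul]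
    refine le_trans ?_ hs
    calc 2 * (L0 * 2 ^ a) * 2 ^ (19000 * a) = (2 * L0) * 2 ^ a * 2 ^ (19000 * a) := by ring
      _ ≤ 2 ^ a * 2 ^ a * 2 ^ (19000 * a) := by gcongr
      _ = 2 ^ (a + a + 19000 * a) := by rw [pow_add, pow_add]
      _ ≤ 2 ^ (20000 * a) := pow_le_pow_right₀ (by norm_num) (by omega)
  · rw [hLL]
    have : 0 ≤ L0 ^ 2 * 4 ^ a := by positivity
    linarith
  · rw [hLL]
    exact le_of_eq (by ring)

theorem pair_up (K : ℝ) : ∃ ν0 : ℕ, ∀ (ν : ℕ) (u : ℝ) (S : Finset (X 2))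
    (v : Fin 4 → ℤ) (J' : ℕ), ν0 ≤ ν → Cf ν u S v J' → ∀ p ∈ S, ∀ q ∈ S, blk ν q ≠ blk ν p →
    LT ν u S v K p q →
    (kp p = kp q → idx p q ≤ kp p + 5) ∧ (kp q + 3 ≤ kp p → ‖p - q‖ ≤ 2 ^ (kp p + 3)) := by
  obtain ⟨C, ν1, hC0, hgeo⟩ := pair_geo K
  obtain ⟨ν2, _, hν2⟩ := cm1_exp (8 * C)
  refine ⟨max ν1 ν2, ?_⟩
  intro ν u S v J' hν hCf p hp q hq hb hLT
  obtain ⟨ω, hω, hLk, _⟩ := hLT
  obtain ⟨_, _, _, g4⟩ := hgeo ν u S v J' ((le_max_left _ _).trans hν) hCf p hp q hq hb ω hω hLk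
  have hsm := cm1_small hCf hp hq hb hν2 ((le_max_right _ _).trans hν)
  have hlow := (cm1_low hCf hp hq hb).2
  have hn := norm_le_ny (p - q)
  have hee : ny (p - q) ≤ |rad (p - q)| + ee (p - q) := by
    unfold ee
    have := le_abs_self (ny (p - q) - |rad (p - q)|)
    linarith
  have hZ : 7 * ‖p - q‖ ≤ 16 * |rad (p - q)| := by linarith
  obtain ⟨hp1, hp2⟩ := kp_spec (one_le_rad hCf hp)
  obtain ⟨hq1, hq2⟩ := kp_spec (one_le_rad hCf hq)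
  rw [rad_sub] at hZ
  refine ⟨fun hk => ?_, fun _ => ?_⟩
  · rw [← hk] at hq1 hq2
    have h1 : |rad p - rad q| ≤ 2 ^ kp p := by
      rw [abs_le]
      rw [pow_succ] at hp2 hq2
      constructor <;> linarith
    have h2 : (2 : ℝ) ^ idx p q ≤ 2 ^ (kp p + 5) := by
      rw [pow_add]
      have h3 : (0 : ℝ) < 2 ^ kp p := by positivity
      norm_num
      linarith
    exact (pow_le_pow_iff_right₀ (by norm_num : (1 : ℝ) < 2)).1 h2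
  · have h1 : |rad p - rad q| ≤ 2 ^ (kp p + 1) := by
      have h3 : (0 : ℝ) < 2 ^ kp q := by positivity
      have h4 := one_le_rad hCf hq
      have h5 := one_le_rad hCf hp
      have h6 : rad q < 2 ^ (kp p + 1) := by
        refine hq2.trans_le (pow_le_pow_right₀ (by norm_num) ?_)
        omega
      rw [abs_le]
      constructor <;> linarith
    have h7 : (2 : ℝ) ^ (kp p + 3) = 4 * 2 ^ (kp p + 1) := by
      rw [pow_add, pow_add]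
      norm_num
      ring
    rw [h7]
    have h8 : (0 : ℝ) < 2 ^ (kp p + 1) := by positivity
    linarith

open scoped Classical in
/-- a tangent pair of different scales: the larger point belongs to PB -/
theorem mem_PB (K : ℝ) : ∃ ν0 : ℕ, ∀ (ν : ℕ) (u : ℝ) (S : Finset (X 2))
    (v : Fin 4 → ℤ) (J' : ℕ), ν0 ≤ ν → Cf ν u S v J' → ∀ p ∈ S, ∀ q ∈ S, kp q + 3 ≤ kp p →
    LT ν u S v K p q → p ∈ PB ν S v (kp q) (grd v (kp q - 2 * kap ν) (blk ν q)) := by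
  obtain ⟨C, ν1, hC0, hgeo⟩ := pair_geo K
  obtain ⟨ν2, _, hν2⟩ := cm1_exp C
  refine ⟨max ν1 ν2, ?_⟩
  intro ν u S v J' hν hCf p hp q hq hk hLT
  have hb : blk ν q ≠ blk ν p := by
    intro h
    have h1 : kp q = kp p := congrArg Prod.fst h
    omega
  obtain ⟨ω, hω, hLk, _⟩ := hLT
  obtain ⟨_, _, _, g4⟩ := hgeo ν u S v J' ((le_max_left _ _).trans hν) hCf p hp q hq hb ω hω hLk
  have hsm := cm1_small hCf hp hq hb hν2 ((le_max_right _ _).trans hν)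
  have hidx : idx p q = kp q := by
    unfold idx
    rw [if_neg (by omega)]
    omega
  unfold PB
  rw [Finset.mem_filter]
  refine ⟨hp, hk, q, ?_, rfl, ?_⟩
  · unfold scX
    rw [Finset.mem_filter]
    exact ⟨hq, rfl⟩
  · refine g4.trans (hsm.trans ?_)
    rw [hidx]
    exact pow_le_pow_right₀ (by norm_num) (by omega)

end Pool.LibCA93
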