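import Pool.Agent.LibCA93.CM1

/-
PLAN (CM2, MEDIUM). Directional density of unremoved directions. lam_S: LT p q gives ω with LG p ω: a cell j of J 2 (kl ν l) with cel j ω and j not in Bad (pil (blk p)). Not bad, z := p, type (S): Cn (TS S (kp p) i p) p (w j) (8φ) <= u 2^i/2^(199 a)
(i = idx p q; push the negation through mem_filter). Every q' of the set on the left is counted: q' in TS (idx_spec: 2^i <= ‖p - q'‖ < 2^(i+1); note ‖q' - p‖), ‖q' - p‖ <= 4|..| <= 10 |(q'-p).2.1| (pair_geo for q'), and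
‖om (q' - p) - w j‖ <= ‖om (p - q') - om (p - q)‖ + ‖om (p - q) - ω‖ + ‖ω - w j‖ <= φ + 2^(-19000a) + 2φ <= 8 φ (om_neg, pair_geo, near_cel). aI = aL ν l (aI_inW).
lam_B: ω and LB p ω: a label j of J 2 (kap ν), cel j ω, not Hv: Nb p j H <= u 2^(34901ν), H = 2^(34300 ν + 8). For q': Z' = p - q', |Z'| < 2^(40300 ν), ‖w j - om Z'‖ <= 2 2^(-3000 ν) (near_cel, pair_geo for q (a = ν), the hypothesis), so
‖Lk (3000 ν) (w j) Z'‖ <= H: first component 2^(-3000ν) 2|s'|‖w j - om Z'‖ <= 4 2^(34300 ν), second 2^(34300 ν), third |Av| <= |ap Z'| + |s'|‖w j - om Z'‖^2 <= C 4^ν + 4 2^(34300ν) (Av_eq, pair_geo for q').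
-/

set_option autoImplicit false

noncomputable section

open MeasureTheory Metric Set Filter

namespace Pool.LibCA93

open Pool.LibSR53 Pool.LibST49

theorem cm2_inv {a b : ℕ} (h : a ≤ b) : (1 : ℝ) / 2 ^ b ≤ 1 / 2 ^ a :=
  one_div_le_one_div_of_le (by positivity) (pow_le_pow_right₀ one_le_two h)

theorem cm2_mem {k : ℕ} {S : Finset (X 2)} {q : X 2} (h : q ∈ scX k S) : q ∈ S ∧ kp q = k := by
  unfold scX at h
  exact Finset.mem_filter.mp h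

theorem cm2_Lk {k : ℕ} {c : E 2} {Z : X 2} {H : ℝ} (hs : Z.2.1 ≠ 0)
    (h1 : 2 * |Z.2.1| * ‖c - om Z‖ ≤ H * 2 ^ k) (h2 : |Z.2.1| ≤ H * 4 ^ k)
    (h3 : |ap Z| + |Z.2.1| * ‖c - om Z‖ ^ 2 ≤ H) : ‖Lk k c Z‖ ≤ H := by
  have e1 : Z.1 + (2 * Z.2.1) • c = (2 * Z.2.1) • (c - om Z) := by
    unfold om
    rw [smul_sub, smul_smul]
    have e : 2 * Z.2.1 * -(1 / (2 * Z.2.1)) = -1 := by
      field_simp
    rw [e, neg_one_smul, sub_neg_eq_add, add_comm]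
  have a1 : ‖(2 : ℝ)⁻¹ ^ k • (Z.1 + (2 * Z.2.1) • c)‖ ≤ H := by
    rw [e1, norm_smul, norm_smul, Real.norm_eq_abs, Real.norm_eq_abs, abs_mul, abs_two,
      abs_of_pos (by positivity : (0 : ℝ) < 2⁻¹ ^ k), inv_pow, inv_mul_le_iff₀ (by positivity)]
    linarith
  have a2 : ‖(4 : ℝ)⁻¹ ^ k * Z.2.1‖ ≤ H := by
    rw [norm_mul, Real.norm_eq_abs, Real.norm_eq_abs,
      abs_of_pos (by positivity : (0 : ℝ) < 4⁻¹ ^ k), inv_pow, inv_mul_le_iff₀ (by positivity)]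
    linarith
  have a3 : ‖Z.2.2 + inner ℝ Z.1 c + Z.2.1 * ‖c‖ ^ 2‖ ≤ H := by
    have e3 : Z.2.2 + inner ℝ Z.1 c + Z.2.1 * ‖c‖ ^ 2 = ap Z + Z.2.1 * ‖c - om Z‖ ^ 2 :=
      Av_eq c Z hs
    rw [e3, Real.norm_eq_abs]
    refine (abs_add_le _ _).trans ?_
    rw [abs_mul, abs_of_nonneg (by positivity : (0 : ℝ) ≤ ‖c - om Z‖ ^ 2)]
    exact h3
  unfold Lk
  rw [Prod.norm_mk, Prod.norm_mk]
  exact max_le a1 (max_le a2 a3)

open scoped Classical in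
theorem lam_S (K : ℝ) : ∃ ν0 : ℕ, ∀ (ν : ℕ) (u : ℝ) (S : Finset (X 2))
    (v : Fin 4 → ℤ) (J' : ℕ), ν0 ≤ ν → Cf ν u S v J' → ∀ p ∈ S, ∀ q ∈ S, blk ν q ≠ blk ν p →
    kp p = kp q → LT ν u S v K p q → ∀ l, inW ν l (idx p q) →
    (((scX (kp p) S).filter (fun q' => blk ν q' ≠ blk ν p ∧ LT ν u S v K p q' ∧
      idx p q' = idx p q ∧ ‖om (p - q') - om (p - q)‖ ≤ 1 / 2 ^ (100 * aL ν l))).card : ℝ) ≤
      u * 2 ^ idx p q / 2 ^ (199 * aL ν l) := by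
  obtain ⟨C, n1, hC0, hgeo⟩ := pair_geo K
  obtain ⟨n2, hup⟩ := pair_up K
  refine ⟨max n1 n2, ?_⟩
  intro ν u S v J' hν hC p hp q hq hb hk hLT l hl
  have hn1 : n1 ≤ ν := (le_max_left _ _).trans hν
  have hn2 : n2 ≤ ν := (le_max_right _ _).trans hν
  have hi5 := (hup ν u S v J' hn2 hC p hp q hq hb hLT).1 hk
  obtain ⟨ω, hω, hLk, hLG, -⟩ := hLT
  have h1 : 40300 * ν ≤ idx p q := by
    have h2 := hl.1
    have h3 : ν ≤ aL ν l := Nat.le_mul_of_pos_right ν (by positivity)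
    omega
  obtain ⟨j, hjJ, hjc, hjB⟩ := (hLG h1 l hl).1
  have hgq := hgeo ν u S v J' hn1 hC p hp q hq hb ω hω hLk
  have hcn : (Cn (TS S (kp p) (idx p q) p) p (w (kl ν l) j) (8 / 2 ^ (kl ν l)) : ℝ) ≤
      u * 2 ^ idx p q / 2 ^ (199 * aL ν l) := by
    by_contra hlt
    refine hjB ?_
    unfold Bad
    exact Finset.mem_filter.mpr ⟨hjJ, p, hp, rfl, Or.inl ⟨idx p q, hl, hi5, not_le.mp hlt⟩⟩
  refine le_trans ?_ hcn
  unfold Cn
  refine Nat.cast_le.mpr (Finset.card_le_card fun q' hq' => ?_)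
  obtain ⟨hq'S, hb', hLT', hid, hom⟩ := Finset.mem_filter.mp hq'
  obtain ⟨hq'1, hq'2⟩ := cm2_mem hq'S
  obtain ⟨-, hs1, hs2⟩ := idx_spec hC hp hq'1 hb'
  obtain ⟨ω', hω', hLk', -, -⟩ := hLT'
  have hgq' := hgeo ν u S v J' hn1 hC p hp q' hq'1 hb' ω' hω' hLk'
  have hrev : q' - p = -(p - q') := (neg_sub p q').symm
  have hs2' := hs2 hq'2.symm
  rw [hid] at hs1 hs2'
  refine Finset.mem_filter.mpr ⟨?_, ?_, ?_⟩
  · unfold TS
    refine Finset.mem_filter.mpr ⟨hq'S, ?_, ?_⟩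
    · rw [norm_sub_rev]; exact hs1
    · rw [norm_sub_rev]; exact hs2'
  · rw [hrev, norm_neg]
    have e1 : |(-(p - q')).2.1| = |(p - q').2.1| := by
      show |-(p - q').2.1| = |(p - q').2.1|
      exact abs_neg _
    rw [e1]
    have := abs_nonneg (p - q').2.1
    linarith [hgq'.1]
  · rw [hrev, om_neg]
    have e1 : om (p - q') - w (kl ν l) j = (om (p - q') - om (p - q)) + (om (p - q) - ω) +
        (ω - w (kl ν l) j) := by abel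
    rw [e1]
    refine (norm_add₃_le).trans ?_
    have e2 := hgq.2.1
    rw [aI_inW hC.nu1 hl] at e2
    have e3 := near_cel hjc
    have e4 : (1 : ℝ) / 2 ^ (19000 * aL ν l) ≤ 1 / 2 ^ (kl ν l) := cm2_inv (by unfold kl; omega)
    have e5 : (1 : ℝ) / 2 ^ (100 * aL ν l) = 1 / 2 ^ (kl ν l) := rfl
    rw [e5] at hom
    have e6 : (2 : ℝ) / 2 ^ (kl ν l) = 2 * (1 / 2 ^ (kl ν l)) := by ring
    have e7 : (8 : ℝ) / 2 ^ (kl ν l) = 8 * (1 / 2 ^ (kl ν l)) := by ring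
    rw [e6] at e3
    rw [e7]
    have e8 : (0 : ℝ) ≤ 1 / 2 ^ (kl ν l) := by positivity
    linarith

open scoped Classical in
theorem lam_B (K : ℝ) : ∃ ν0 : ℕ, ∀ (ν : ℕ) (u : ℝ) (S : Finset (X 2))
    (v : Fin 4 → ℤ) (J' : ℕ), ν0 ≤ ν → Cf ν u S v J' → ∀ p ∈ S, ∀ q ∈ S, blk ν q ≠ blk ν p →
    kp p = kp q → LT ν u S v K p q → idx p q < 40300 * ν →
    (((scX (kp p) S).filter (fun q' => blk ν q' ≠ blk ν p ∧ LT ν u S v K p q' ∧
      idx p q' < 40300 * ν ∧ ‖om (p - q') - om (p - q)‖ ≤ 1 / 2 ^ (3000 * ν))).card : ℝ) ≤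
      u * 2 ^ (34901 * ν) := by
  obtain ⟨C, n1, hC0, hgeo⟩ := pair_geo K
  obtain ⟨n2, hn2⟩ := pow_unbounded_of_one_lt C (one_lt_two : (1 : ℝ) < 2)
  refine ⟨max n1 n2, ?_⟩
  intro ν u S v J' hν hC p hp q hq hb hk hLT hidx
  have hn1 : n1 ≤ ν := (le_max_left _ _).trans hν
  have hν1 := hC.nu1
  have hCν : C ≤ 2 ^ ν := hn2.le.trans (pow_le_pow_right₀ one_le_two ((le_max_right _ _).trans hν))
  obtain ⟨ω, hω, hLk, -, hLB⟩ := hLT
  obtain ⟨j, hjJ, hjc, hjH⟩ := (hLB hidx).1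
  have hgq := hgeo ν u S v J' hn1 hC p hp q hq hb ω hω hLk
  rw [aI_low hν1 hidx] at hgq
  unfold Hv at hjH
  refine le_trans ?_ (not_lt.mp hjH)
  unfold Nb
  refine Nat.cast_le.mpr (Finset.card_le_card fun q' hq' => ?_)
  obtain ⟨hq'S, hb', hLT', hid, hom⟩ := Finset.mem_filter.mp hq'
  obtain ⟨hq'1, hq'2⟩ := cm2_mem hq'S
  obtain ⟨-, hs1, hs2⟩ := idx_spec hC hp hq'1 hb'
  obtain ⟨ω', hω', hLk', -, -⟩ := hLT'
  have hgq' := hgeo ν u S v J' hn1 hC p hp q' hq'1 hb' ω' hω' hLk'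
  rw [aI_low hν1 hid] at hgq'
  have hs2' := hs2 hq'2.symm
  refine Finset.mem_filter.mpr ⟨hq'S, hb', ?_⟩
  have hnorm : ‖p - q'‖ ≤ 2 ^ (40300 * ν) :=
    hs2'.le.trans (pow_le_pow_right₀ one_le_two (by omega))
  have hpos : 0 < ‖p - q'‖ := lt_of_lt_of_le (by positivity) hs1
  have hs0 : (p - q').2.1 ≠ 0 := by
    intro h0
    have := hgq'.1
    rw [h0, abs_zero, mul_zero] at this
    linarith
  have hsle : |(p - q').2.1| ≤ 2 ^ (40300 * ν) := by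
    have h1 : ‖(p - q').2.1‖ ≤ ‖p - q'‖ := (norm_fst_le (p - q').2).trans (norm_snd_le (p - q'))
    exact h1.trans hnorm
  have hwom : ‖w (kap ν) j - om (p - q')‖ ≤ 2 / 2 ^ (3000 * ν) := by
    have e1 : w (kap ν) j - om (p - q') = (w (kap ν) j - ω) + (ω - om (p - q)) +
        (om (p - q) - om (p - q')) := by abel
    rw [e1]
    refine (norm_add₃_le).trans ?_
    rw [norm_sub_rev (w (kap ν) j) ω, norm_sub_rev ω (om (p - q)),
      norm_sub_rev (om (p - q)) (om (p - q'))]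
    have e2 := hgq.2.1
    have e3 := near_cel hjc
    have e4 : (1 : ℝ) / 2 ^ (19000 * ν) ≤ 1 / 2 ^ (3000 * ν + 1) := cm2_inv (by omega)
    have e5 : (1 : ℝ) / 2 ^ (kap ν) ≤ 1 / 2 ^ (3000 * ν + 2) := cm2_inv (by unfold kap; omega)
    have e6 : (1 : ℝ) / 2 ^ (3000 * ν + 1) = (1 / 2 ^ (3000 * ν)) / 2 := by
      rw [pow_succ]; field_simp
    have e7 : (1 : ℝ) / 2 ^ (3000 * ν + 2) = (1 / 2 ^ (3000 * ν)) / 4 := by
      rw [pow_add]; field_simp; norm_num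
    have e8 : (2 : ℝ) / 2 ^ (kap ν) = 2 * (1 / 2 ^ (kap ν)) := by ring
    have e9 : (2 : ℝ) / 2 ^ (3000 * ν) = 2 * (1 / 2 ^ (3000 * ν)) := by ring
    rw [e8] at e3
    rw [e9]
    rw [e6] at e4
    rw [e7] at e5
    linarith
  have hP : (0 : ℝ) < 2 ^ (3000 * ν) := by positivity
  have h40 : (2 : ℝ) ^ (40300 * ν) = 2 ^ (34300 * ν) * 2 ^ (3000 * ν) * 2 ^ (3000 * ν) := by
    rw [← pow_add, ← pow_add]; congr 1; ring
  have hH : (2 : ℝ) ^ (34300 * ν + 8) = 2 ^ (34300 * ν) * 256 := by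
    rw [pow_add]; norm_num
  have hw0 : 0 ≤ ‖w (kap ν) j - om (p - q')‖ := norm_nonneg _
  have hA : (0 : ℝ) < 2 ^ (34300 * ν) := by positivity
  refine cm2_Lk hs0 ?_ ?_ ?_
  · calc 2 * |(p - q').2.1| * ‖w (kap ν) j - om (p - q')‖
        ≤ 2 * 2 ^ (40300 * ν) * (2 / 2 ^ (3000 * ν)) := by gcongr
      _ = 4 * (2 ^ (34300 * ν) * 2 ^ (3000 * ν)) := by
          rw [h40]; field_simp; norm_num
      _ ≤ 2 ^ (34300 * ν + 8) * 2 ^ (3000 * ν) := by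
          rw [hH]
          have := mul_pos hA hP
          nlinarith
  · have h4 : (4 : ℝ) ^ (3000 * ν) = 2 ^ (3000 * ν) * 2 ^ (3000 * ν) := by
      rw [← mul_pow]; norm_num
    rw [h4, hH]
    calc |(p - q').2.1| ≤ 2 ^ (40300 * ν) := hsle
      _ = 2 ^ (34300 * ν) * 1 * (2 ^ (3000 * ν) * 2 ^ (3000 * ν)) := by rw [h40]; ring
      _ ≤ 2 ^ (34300 * ν) * 256 * (2 ^ (3000 * ν) * 2 ^ (3000 * ν)) := by
          gcongr; norm_num
  · have h5 : |ap (p - q')| ≤ 2 ^ (34300 * ν) := by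
      calc |ap (p - q')| ≤ C * 4 ^ ν := hgq'.2.2.1
        _ ≤ 2 ^ ν * 4 ^ ν := by gcongr
        _ = 2 ^ (3 * ν) := by
            rw [pow_mul, ← mul_pow]; norm_num
        _ ≤ 2 ^ (34300 * ν) := pow_le_pow_right₀ one_le_two (by omega)
    have h6 : |(p - q').2.1| * ‖w (kap ν) j - om (p - q')‖ ^ 2 ≤ 4 * 2 ^ (34300 * ν) := by
      calc |(p - q').2.1| * ‖w (kap ν) j - om (p - q')‖ ^ 2
          ≤ 2 ^ (40300 * ν) * (2 / 2 ^ (3000 * ν)) ^ 2 := by gcongr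
        _ = 4 * 2 ^ (34300 * ν) := by
            rw [h40]; field_simp; norm_num
    rw [hH]
    linarith

end Pool.LibCA93
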