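import Pool.Agent.LibCA93.CM1

/-
PLAN (CM3, MEDIUM). As lam_S in CM2, with the types (N) and (X). kp p <> kp q, so blk p <> blk q and idx p q = kp q =: k'. lam_N: z := p, kp p <= k' + 25 a: Cn (TN S (kp p) k' p) p (w j) (8φ) <= u 2^k'/2^(99 a); q' in TN by pair_up
(‖p - q'‖ <= 2^(kp p + 3)). lam_X: z := q, LG q ω, type (X) with inW ν l (kp q): Cn (PB ..) q (w j) (8 φ) <= (#PB + u 2^k')/2^(199 a); here the differences are p' - q, no sign.
-/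

set_option autoImplicit false

noncomputable section

open MeasureTheory Metric Set Filter

namespace Pool.LibCA93

open Pool.LibSR53 Pool.LibST49

private theorem cm3_idx {p q : X 2} (h : kp q + 3 ≤ kp p) : idx p q = kp q := by
  unfold idx
  rw [if_neg (by omega), min_eq_right (by omega)]

private theorem cm3_blk {ν : ℕ} {p q : X 2} (h : kp q + 3 ≤ kp p) : blk ν q ≠ blk ν p := by
  intro h1
  have h2 : kp q = kp p := congrArg Prod.fst h1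
  omega

private theorem cm3_tri {a : ℕ} (x y z t : E 2) (h1 : ‖x - y‖ ≤ 1 / 2 ^ (100 * a))
    (h2 : ‖y - z‖ ≤ 1 / 2 ^ (19000 * a)) (h3 : ‖z - t‖ ≤ 2 / 2 ^ (100 * a)) :
    ‖x - t‖ ≤ 8 / 2 ^ (100 * a) := by
  have h4 : ‖x - t‖ ≤ ‖x - y‖ + ‖y - z‖ + ‖z - t‖ := by
    have : x - t = (x - y) + (y - z) + (z - t) := by abel
    rw [this]
    exact (norm_add_le _ _).trans (add_le_add_left (norm_add_le _ _) _)
  have h5 : (1 : ℝ) / 2 ^ (19000 * a) ≤ 1 / 2 ^ (100 * a) :=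
    one_div_le_one_div_of_le (by positivity)
      (pow_le_pow_right₀ (by norm_num) (by omega))
  have h6 : (0 : ℝ) ≤ 1 / 2 ^ (100 * a) := by positivity
  have h7 : (2 : ℝ) / 2 ^ (100 * a) = 2 * (1 / 2 ^ (100 * a)) := by ring
  have h8 : (8 : ℝ) / 2 ^ (100 * a) = 8 * (1 / 2 ^ (100 * a)) := by ring
  rw [h7] at h3
  rw [h8]
  linarith

open scoped Classical in
theorem lam_N (K : ℝ) : ∃ ν0 : ℕ, ∀ (ν : ℕ) (u : ℝ) (S : Finset (X 2))
    (v : Fin 4 → ℤ) (J' : ℕ), ν0 ≤ ν → Cf ν u S v J' → ∀ p ∈ S, ∀ q ∈ S, kp q + 3 ≤ kp p →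
    LT ν u S v K p q → ∀ l, inW ν l (kp q) → kp p ≤ kp q + 25 * aL ν l →
    (((scX (kp q) S).filter (fun q' => LT ν u S v K p q' ∧
      ‖om (p - q') - om (p - q)‖ ≤ 1 / 2 ^ (100 * aL ν l))).card : ℝ) ≤
      u * 2 ^ kp q / 2 ^ (99 * aL ν l) := by
  obtain ⟨C, ν1, hC, hg⟩ := pair_geo K
  obtain ⟨ν2, hu⟩ := pair_up K
  refine ⟨max ν1 ν2, ?_⟩
  intro ν u S v J' hν hCf p hp q hq hpq hLT l hl hkp
  have hν1 : ν1 ≤ ν := (le_max_left _ _).trans hν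
  have hν2 : ν2 ≤ ν := (le_max_right _ _).trans hν
  obtain ⟨ω, hω, hLk, hLG, -⟩ := hLT
  have hi : idx p q = kp q := cm3_idx hpq
  have ha : aI ν (idx p q) = aL ν l := by rw [hi]; exact aI_inW hCf.nu1 hl
  have hLG1 := (hLG (by rw [hi]; exact kp_ge hCf hq) l (by rw [hi]; exact hl)).1
  obtain ⟨j, hj, hcel, hbad⟩ := hLG1
  have h1 := (hg ν u S v J' hν1 hCf p hp q hq (cm3_blk hpq) ω hω hLk).2.1
  rw [ha] at h1
  have hnb : ¬ (u * 2 ^ kp q / 2 ^ (99 * aL ν l) <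
      (Cn (TN S (kp p) (kp q) p) p (w (kl ν l) j) (8 / 2 ^ (kl ν l)) : ℝ)) := by
    intro hlt
    apply hbad
    unfold Bad
    rw [Finset.mem_filter]
    exact ⟨hj, p, hp, rfl, Or.inr (Or.inr ⟨kp q, hl, hpq, hkp, hlt⟩)⟩
  refine le_trans ?_ (not_lt.mp hnb)
  have hsub : (scX (kp q) S).filter (fun q' => LT ν u S v K p q' ∧
      ‖om (p - q') - om (p - q)‖ ≤ 1 / 2 ^ (100 * aL ν l)) ⊆
      (TN S (kp p) (kp q) p).filter (fun p' => ‖p' - p‖ ≤ 10 * |(p' - p).2.1| ∧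
        ‖om (p' - p) - w (kl ν l) j‖ ≤ 8 / 2 ^ (kl ν l)) := by
    intro q' hq'
    rw [Finset.mem_filter] at hq'
    obtain ⟨hq'1, hLT', hom⟩ := hq'
    have hq'2 : q' ∈ S ∧ kp q' = kp q := by
      unfold scX at hq'1
      exact Finset.mem_filter.mp hq'1
    have hk' : kp q' + 3 ≤ kp p := by rw [hq'2.2]; exact hpq
    have hup := (hu ν u S v J' hν2 hCf p hp q' hq'2.1 (cm3_blk hk') hLT').2 hk'
    obtain ⟨ω', hω', hLk', -, -⟩ := hLT'
    have hg' := (hg ν u S v J' hν1 hCf p hp q' hq'2.1 (cm3_blk hk') ω' hω' hLk').1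
    have hneg : q' - p = -(p - q') := by abel
    rw [Finset.mem_filter]
    refine ⟨?_, ?_, ?_⟩
    · unfold TN
      rw [Finset.mem_filter]
      refine ⟨hq'1, ?_⟩
      rw [norm_sub_rev]
      exact hup.trans (pow_le_pow_right₀ (by norm_num) (by omega))
    · rw [hneg, norm_neg]
      have h2 : |(-(p - q')).2.1| = |(p - q').2.1| := by
        rw [Prod.snd_neg, Prod.fst_neg, abs_neg]
      rw [h2]
      have := abs_nonneg (p - q').2.1
      linarith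
    · rw [hneg, om_neg]
      exact cm3_tri _ _ _ _ hom h1 (near_cel hcel)
  exact_mod_cast Finset.card_le_card hsub

open scoped Classical in
theorem lam_X (K : ℝ) : ∃ ν0 : ℕ, ∀ (ν : ℕ) (u : ℝ) (S : Finset (X 2))
    (v : Fin 4 → ℤ) (J' : ℕ), ν0 ≤ ν → Cf ν u S v J' → ∀ p ∈ S, ∀ q ∈ S, kp q + 3 ≤ kp p →
    LT ν u S v K p q → ∀ l, inW ν l (kp q) →
    (((PB ν S v (kp q) (grd v (kp q - 2 * kap ν) (blk ν q))).filter (fun p' =>
      LT ν u S v K p' q ∧ ‖om (p' - q) - om (p - q)‖ ≤ 1 / 2 ^ (100 * aL ν l))).card : ℝ) ≤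
      (((PB ν S v (kp q) (grd v (kp q - 2 * kap ν) (blk ν q))).card : ℝ) + u * 2 ^ kp q) /
        2 ^ (199 * aL ν l) := by
  obtain ⟨C, ν1, hC, hg⟩ := pair_geo K
  refine ⟨ν1, ?_⟩
  intro ν u S v J' hν1 hCf p hp q hq hpq hLT l hl
  obtain ⟨ω, hω, hLk, hLG, -⟩ := hLT
  have hi : idx p q = kp q := cm3_idx hpq
  have ha : aI ν (idx p q) = aL ν l := by rw [hi]; exact aI_inW hCf.nu1 hl
  have hLG1 := (hLG (by rw [hi]; exact kp_ge hCf hq) l (by rw [hi]; exact hl)).2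
  obtain ⟨j, hj, hcel, hbad⟩ := hLG1
  have h1 := (hg ν u S v J' hν1 hCf p hp q hq (cm3_blk hpq) ω hω hLk).2.1
  rw [ha] at h1
  have hnb : ¬ ((((PB ν S v (kp q) (grd v (kp q - 2 * kap ν) (blk ν q))).card : ℝ) +
      u * 2 ^ kp q) / 2 ^ (199 * aL ν l) <
      (Cn (PB ν S v (kp q) (grd v (kp q - 2 * kap ν) (blk ν q))) q (w (kl ν l) j)
        (8 / 2 ^ (kl ν l)) : ℝ)) := by
    intro hlt
    apply hbad
    unfold Bad
    rw [Finset.mem_filter]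
    exact ⟨hj, q, hq, rfl, Or.inr (Or.inl ⟨hl, hlt⟩)⟩
  refine le_trans ?_ (not_lt.mp hnb)
  have hsub : (PB ν S v (kp q) (grd v (kp q - 2 * kap ν) (blk ν q))).filter (fun p' =>
      LT ν u S v K p' q ∧ ‖om (p' - q) - om (p - q)‖ ≤ 1 / 2 ^ (100 * aL ν l)) ⊆
      (PB ν S v (kp q) (grd v (kp q - 2 * kap ν) (blk ν q))).filter
        (fun p' => ‖p' - q‖ ≤ 10 * |(p' - q).2.1| ∧
        ‖om (p' - q) - w (kl ν l) j‖ ≤ 8 / 2 ^ (kl ν l)) := by
    intro p' hp'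
    rw [Finset.mem_filter] at hp'
    obtain ⟨hp'1, hLT', hom⟩ := hp'
    have hp'2 : p' ∈ S ∧ kp q + 3 ≤ kp p' := by
      unfold PB at hp'1
      have := Finset.mem_filter.mp hp'1
      exact ⟨this.1, this.2.1⟩
    obtain ⟨ω', hω', hLk', -, -⟩ := hLT'
    have hg' := (hg ν u S v J' hν1 hCf p' hp'2.1 q hq (cm3_blk hp'2.2) ω' hω' hLk').1
    rw [Finset.mem_filter]
    refine ⟨hp'1, ?_, ?_⟩
    · have := abs_nonneg (p' - q).2.1
      linarith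
    · exact cm3_tri _ _ _ _ hom h1 (near_cel hcel)
  exact_mod_cast Finset.card_le_card hsub

end Pool.LibCA93
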