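import Pool.Agent.LibCA93.Defs
import Pool.Agent.LibST49.G1

/-
PLAN (CT, MEDIUM). Both sides by gram (LibST49.G1): INT |SUM_i c_i Kb (b_i)(Lam(x,-s0) - Z_i)|^2 = SUM_(i,i') conj(c_i) c_i' Kb (gb b_i b_i') (Z_i - Z_i') = INT over V m of |SUM_i c_i e1(-ph Z_i z) b_i z|^2 / Jac z dz (Kb is an
integral over z, ph_sub, e1 (ph Z - ph Z') = conj(e1(-ph Z)) .. check signs; Jac z > 0 where the b_i are nonzero, z.2 >= v0). With A: b_i replaced by A(z.1) b_i, the integrand is multiplied by A(z.1)^2 <= 1. The new symbols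
are Sb too. lintegral of ‖.‖ₑ^2 = ofReal of the integral of the square (MemLp 2 from gram).
-/

set_option autoImplicit false

noncomputable section

open MeasureTheory Metric Set Filter

namespace Pool.LibCA93

open Pool.LibSR53 Pool.LibST49

private theorem CT_e1_add (s t : ℝ) : e1 (s + t) = e1 s * e1 t := by
  unfold e1
  rw [← Complex.exp_add]
  congr 1
  push_cast
  ring

private theorem CT_e1_norm (t : ℝ) : ‖e1 t‖ = 1 := by
  unfold e1
  have h : 2 * (Real.pi : ℂ) * Complex.I * (t : ℂ) = ((2 * Real.pi * t : ℝ) : ℂ) * Complex.I := by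
    push_cast
    ring
  rw [h, Complex.norm_exp_ofReal_mul_I]

private theorem CT_e1_conj (t : ℝ) : (starRingEnd ℂ) (e1 t) = e1 (-t) := by
  unfold e1
  rw [← Complex.exp_conj]
  congr 1
  simp only [map_mul, Complex.conj_I, Complex.conj_ofReal, Complex.ofReal_neg, map_ofNat]
  ring

private theorem CT_tw {m : ℕ} {v0 v1 ρ : ℝ} {b : V m → ℂ} (hb : Sb v0 v1 ρ b) (Z : X m) :
    Integrable (fun z : V m => e1 (ph Z z) * b z) := by
  have hc : HasCompactSupport b := by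
    refine HasCompactSupport.intro
      ((isCompact_closedBall (0 : E m) ρ).prod (isCompact_Icc (a := v0) (b := v1))) ?_
    intro z hz
    by_contra h
    obtain ⟨h1, h2, h3⟩ := hb.supp z h
    exact hz ⟨mem_closedBall_zero_iff.2 h3, h1, h2⟩
  have hi : Integrable b := hb.smooth.continuous.integrable_of_hasCompactSupport hc
  refine hi.bdd_mul (f := fun z : V m => e1 (ph Z z)) ?_ (c := 1)
    (Eventually.of_forall fun z => (CT_e1_norm _).le)
  have : Continuous (fun z : V m => e1 (ph Z z)) := by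
    unfold e1 ph
    fun_prop
  exact this.aestronglyMeasurable

private theorem CT_lint {m : ℕ} (F : E m → ℂ) (hF : MemLp F 2 volume) :
    ∫⁻ x, ‖F x‖ₑ ^ (2 : ℝ) = ENNReal.ofReal (∫ x, ‖F x‖ ^ 2) := by
  have hi : Integrable (fun x => ‖F x‖ ^ 2) := hF.norm.integrable_sq
  rw [ofReal_integral_eq_lintegral_ofReal hi (Eventually.of_forall fun x => by positivity)]
  refine lintegral_congr fun x => ?_
  rw [← ofReal_norm, ENNReal.ofReal_rpow_of_nonneg (norm_nonneg _) (by norm_num)]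
  congr 1
  exact_mod_cast Real.rpow_natCast ‖F x‖ 2

/-- the square of the norm as an integral over the frequencies -/
private theorem CT_main {m : ℕ} (hm : 1 ≤ m) {v0 v1 : ℝ} {ι : Type} (I : Finset ι) (c : ι → ℂ)
    (bb : ι → V m → ℂ) (hb : ∀ i ∈ I, Sb v0 v1 1 (bb i)) (Z : ι → X m) (s0 : ℝ) :
    MemLp (fun x : E (m + 1) => ∑ i ∈ I, c i * Kb (bb i) (Lam (x, -s0) - Z i)) 2 volume ∧
    Integrable (fun z : V m => ‖∑ i ∈ I, c i * (e1 (-ph (Z i) z) * bb i z)‖ ^ 2 / Jac z) ∧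
    ∫ x : E (m + 1), ‖∑ i ∈ I, c i * Kb (bb i) (Lam (x, -s0) - Z i)‖ ^ 2 =
      ∫ z : V m, ‖∑ i ∈ I, c i * (e1 (-ph (Z i) z) * bb i z)‖ ^ 2 / Jac z := by
  have hK : ∀ i ∈ I, MemLp (fun x : E (m + 1) => Kb (bb i) (Lam (x, -s0) - Z i)) 2 volume :=
    fun i hi => (gram hm (hb i hi) (hb i hi) s0 (Z i) (Z i)).1
  have hF : MemLp (fun x : E (m + 1) => ∑ i ∈ I, c i * Kb (bb i) (Lam (x, -s0) - Z i))
      2 volume := memLp_finsetSum I fun i hi => (hK i hi).const_mul (c i)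
  have hpt : ∀ z : V m,
      ((‖∑ i ∈ I, c i * (e1 (-ph (Z i) z) * bb i z)‖ ^ 2 / Jac z : ℝ) : ℂ) =
      ∑ i ∈ I, ∑ i' ∈ I, (starRingEnd ℂ) (c i) * c i' *
        (e1 (ph (Z i - Z i') z) * gb (bb i) (bb i') z) := by
    intro z
    rw [Complex.ofReal_div, Complex.ofReal_pow, ← Complex.conj_mul', map_sum,
      Finset.sum_mul_sum, Finset.sum_div]
    refine Finset.sum_congr rfl fun i _ => ?_
    rw [Finset.sum_div]
    refine Finset.sum_congr rfl fun i' _ => ?_
    rw [ph_sub, sub_eq_add_neg, CT_e1_add, map_mul, map_mul, CT_e1_conj, neg_neg]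
    unfold gb
    ring
  have hfi : ∀ i ∈ I, ∀ i' ∈ I, Integrable (fun z : V m => (starRingEnd ℂ) (c i) * c i' *
      (e1 (ph (Z i - Z i') z) * gb (bb i) (bb i') z)) := by
    intro i hi i' hi'
    exact (CT_tw (gb_sb (hb i hi) (hb i' hi')) (Z i - Z i')).const_mul _
  have hint : Integrable (fun z : V m => ((‖∑ i ∈ I, c i * (e1 (-ph (Z i) z) * bb i z)‖ ^ 2 /
      Jac z : ℝ) : ℂ)) := by
    simp_rw [hpt]
    exact integrable_finsetSum I fun i hi => integrable_finsetSum I fun i' hi' => hfi i hi i' hi'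
  refine ⟨hF, ?_, ?_⟩
  · exact hint.re
  · have hpx : ∀ x : E (m + 1),
        ((‖∑ i ∈ I, c i * Kb (bb i) (Lam (x, -s0) - Z i)‖ ^ 2 : ℝ) : ℂ) =
        ∑ i ∈ I, ∑ i' ∈ I, (starRingEnd ℂ) (c i) * c i' *
          ((starRingEnd ℂ) (Kb (bb i) (Lam (x, -s0) - Z i)) *
            Kb (bb i') (Lam (x, -s0) - Z i')) := by
      intro x
      rw [Complex.ofReal_pow, ← Complex.conj_mul', map_sum, Finset.sum_mul_sum]
      refine Finset.sum_congr rfl fun i _ => ?_
      refine Finset.sum_congr rfl fun i' _ => ?_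
      rw [map_mul]
      ring
    have hxi : ∀ i ∈ I, ∀ i' ∈ I, Integrable (fun x : E (m + 1) =>
        (starRingEnd ℂ) (c i) * c i' * ((starRingEnd ℂ) (Kb (bb i) (Lam (x, -s0) - Z i)) *
            Kb (bb i') (Lam (x, -s0) - Z i'))) := by
      intro i hi i' hi'
      exact ((hK i hi).star.integrable_mul (hK i' hi')).const_mul _
    have h1 : ((∫ x : E (m + 1), ‖∑ i ∈ I, c i * Kb (bb i) (Lam (x, -s0) - Z i)‖ ^ 2 : ℝ) : ℂ) =
        ((∫ z : V m, ‖∑ i ∈ I, c i * (e1 (-ph (Z i) z) * bb i z)‖ ^ 2 / Jac z : ℝ) : ℂ) := by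
      rw [← integral_complex_ofReal, ← integral_complex_ofReal]
      simp_rw [hpx, hpt]
      rw [integral_finsetSum I fun i hi => integrable_finsetSum I fun i' hi' => hxi i hi i' hi',
        integral_finsetSum I fun i hi => integrable_finsetSum I fun i' hi' => hfi i hi i' hi']
      refine Finset.sum_congr rfl fun i hi => ?_
      rw [integral_finsetSum I fun i' hi' => hxi i hi i' hi',
        integral_finsetSum I fun i' hi' => hfi i hi i' hi']
      refine Finset.sum_congr rfl fun i' hi' => ?_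
      rw [integral_const_mul, integral_const_mul,
        (gram hm (hb i hi) (hb i' hi') s0 (Z i) (Z i')).2]
      rfl
    exact_mod_cast h1

/-- multiplication of the symbols by a common function of the direction bounded by one is a
contraction of L2 -/
theorem contr {m : ℕ} (hm : 1 ≤ m) {v0 v1 : ℝ} {ι : Type} (I : Finset ι) (c : ι → ℂ)
    (bb : ι → V m → ℂ) (hb : ∀ i ∈ I, Sb v0 v1 1 (bb i)) (Z : ι → X m) (s0 : ℝ) (A : E m → ℝ)
    (hA : ContDiff ℝ (⊤ : ℕ∞) A) (hA1 : ∀ ω, |A ω| ≤ 1) :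
    ∫⁻ x : E (m + 1), ‖∑ i ∈ I, c i * Kb (fun z => (A z.1 : ℂ) * bb i z)
        (Lam (x, -s0) - Z i)‖ₑ ^ (2 : ℝ) ≤
      ∫⁻ x : E (m + 1), ‖∑ i ∈ I, c i * Kb (bb i) (Lam (x, -s0) - Z i)‖ₑ ^ (2 : ℝ) := by
  have hbA : ∀ i ∈ I, Sb v0 v1 1 (fun z : V m => (A z.1 : ℂ) * bb i z) := by
    intro i hi
    refine ⟨(hb i hi).pos, (hb i hi).le, ?_, ?_⟩
    · exact (Complex.ofRealCLM.contDiff.comp (hA.comp contDiff_fst)).mul (hb i hi).smooth
    · intro z hz
      exact (hb i hi).supp z (right_ne_zero_of_mul hz)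
  obtain ⟨m1, i1, e1'⟩ := CT_main hm I c bb hb Z s0
  obtain ⟨m2, i2, e2'⟩ := CT_main hm I c (fun i z => (A z.1 : ℂ) * bb i z) hbA Z s0
  rw [CT_lint _ m1, CT_lint _ m2]
  refine ENNReal.ofReal_le_ofReal ?_
  rw [e1', e2']
  refine integral_mono i2 i1 fun z => ?_
  have h1 : ∑ i ∈ I, c i * (e1 (-ph (Z i) z) * ((A z.1 : ℂ) * bb i z)) =
      (A z.1 : ℂ) * ∑ i ∈ I, c i * (e1 (-ph (Z i) z) * bb i z) := by
    rw [Finset.mul_sum]
    refine Finset.sum_congr rfl fun i _ => ?_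
    ring
  beta_reduce
  rw [h1, norm_mul, Complex.norm_real, Real.norm_eq_abs, mul_pow]
  by_cases hz : ∑ i ∈ I, c i * (e1 (-ph (Z i) z) * bb i z) = 0
  · rw [hz]
    simp
  · obtain ⟨i, hi, hne⟩ := Finset.exists_ne_zero_of_sum_ne_zero hz
    have hbi : bb i z ≠ 0 := right_ne_zero_of_mul (right_ne_zero_of_mul hne)
    have hz2 : 0 < z.2 := lt_of_lt_of_le (hb i hi).pos ((hb i hi).supp z hbi).1
    have hJ : 0 < Jac z := by
      unfold Jac
      positivity
    rw [div_le_div_iff_of_pos_right hJ]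
    refine mul_le_of_le_one_left (by positivity) ?_
    exact pow_le_one₀ (abs_nonneg _) (hA1 z.1)

end Pool.LibCA93
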