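import Pool.Agent.LibCA93.CM3
import Pool.Agent.LibCA93.BdB

/-
PLAN (CX1, MEDIUM). k := k', t = 2^k, a = aL ν l, B := PB ν S v k c, Q := the small points of the cube. If Q is empty the sum is 0. P := B.filter (kp p <= k + 25 a), N p q := LT p q. three_count with φ = 2^(-100a), τ = C 4^a, n = 4 u 2^k (DX),
t <= ‖p - q‖ (cross_norm: >= 2^(kp p)/4 >= 2^(k+1)); idx p q = k and blk p <> blk q because kp p >= k + 3; ‖q - q'‖ <= 2 2^k <= 4t (grd_close with e = k - 2 kap ν: 40000 ν + e = k); Λp = u 2^k/2^(99a) (lam_N; the q' of Q are in scX k S),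
Λq = (#B + u 2^k)/2^(199a) (lam_X; P is contained in B and c = grd v (k - 2 kap) (blk q)). #Q <= 4 u 2^k. Then with V = u 2^k: Λp #P <= 2^(-99a) V #B; (#P)^(2/3) (16 φ^(-3/2) Λq #Q V^2)^(1/3)
<= 3 2^(-49a/3) (#B)^(2/3) ((#B + V) #Q)^(1/3) V^(2/3), and (#B)^(2/3) (#B #Q)^(1/3) V^(2/3) <= 2 #B V, (#B)^(2/3) (V #Q)^(1/3) V^(2/3) <= V (#B + #Q). Finally u <= 2^a.
-/

set_option autoImplicit false

noncomputable section

open MeasureTheory Metric Set Filter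

namespace Pool.LibCA93

open Pool.LibSR53 Pool.LibST49

private theorem cx1_pow {X Z W : ℝ} (hX : 0 ≤ X) (hZ : 0 ≤ Z) (hW : 0 ≤ W)
    (h : X ^ 2 * Z ≤ W ^ 3) : X ^ ((2 : ℝ) / 3) * Z ^ ((1 : ℝ) / 3) ≤ W := by
  have h1 : X ^ ((2 : ℝ) / 3) = (X ^ 2) ^ ((1 : ℝ) / 3) := by
    rw [← Real.rpow_natCast X 2, ← Real.rpow_mul hX]
    norm_num
  rw [h1, ← Real.mul_rpow (by positivity) hZ]
  calc (X ^ 2 * Z) ^ ((1 : ℝ) / 3) ≤ (W ^ 3) ^ ((1 : ℝ) / 3) :=
        Real.rpow_le_rpow (by positivity) h (by norm_num)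
    _ = W := by
        rw [← Real.rpow_natCast W 3, ← Real.rpow_mul hW]
        norm_num

private theorem cx1_phi (m : ℕ) : ((1 : ℝ) / 2 ^ (2 * m)) ^ (-((3 : ℝ) / 2)) = 2 ^ (3 * m) := by
  have h1 : ((1 : ℝ) / 2 ^ (2 * m)) = (2 : ℝ) ^ (-(2 * (m : ℝ))) := by
    rw [Real.rpow_neg (by norm_num), one_div]
    congr 1
    have := Real.rpow_natCast (2 : ℝ) (2 * m)
    push_cast at this
    rw [this]
  rw [h1, ← Real.rpow_mul (by norm_num), ← Real.rpow_natCast (2 : ℝ) (3 * m)]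
  congr 1
  push_cast
  ring

private theorem cx1_large (x : ℝ) : ∃ n : ℕ, ∀ m ≥ n, x ≤ 2 ^ m := by
  obtain ⟨n, hn⟩ := pow_unbounded_of_one_lt x (by norm_num : (1 : ℝ) < 2)
  exact ⟨n, fun m hm => hn.le.trans (pow_le_pow_right₀ (by norm_num) hm)⟩

/-- b^2 (b + V) q V^2 is at most 5 V^3 (b + q)^3 if q is at most 4 V -/
private theorem cx1_alg {b q V : ℝ} (hb : 0 ≤ b) (hq : 0 ≤ q) (hV : 0 ≤ V) (h : q ≤ 4 * V) :
    b ^ 2 * ((b + V) * q * V ^ 2) ≤ 5 * (V * (b + q)) ^ 3 := by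
  have h1 : b ^ 3 * q * V ^ 2 ≤ b ^ 3 * (4 * V) * V ^ 2 := by gcongr
  have h2 : b ^ 3 ≤ (b + q) ^ 3 := by gcongr; linarith
  have h3 : b ^ 2 * q ≤ (b + q) ^ 3 := by
    have : (b + q) ^ 3 = b ^ 3 + 3 * b ^ 2 * q + 3 * b * q ^ 2 + q ^ 3 := by ring
    rw [this]
    have h4 : 0 ≤ b ^ 3 := by positivity
    have h5 : 0 ≤ b ^ 2 * q := by positivity
    have h6 : 0 ≤ b * q ^ 2 := by positivity
    have h7 : 0 ≤ q ^ 3 := by positivity
    nlinarith
  have hV3 : 0 ≤ V ^ 3 := by positivity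
  calc b ^ 2 * ((b + V) * q * V ^ 2) = b ^ 3 * q * V ^ 2 + V ^ 3 * (b ^ 2 * q) := by ring
    _ ≤ b ^ 3 * (4 * V) * V ^ 2 + V ^ 3 * (b ^ 2 * q) := by linarith
    _ = 4 * (V ^ 3 * b ^ 3) + V ^ 3 * (b ^ 2 * q) := by ring
    _ ≤ 4 * (V ^ 3 * (b + q) ^ 3) + V ^ 3 * (b + q) ^ 3 := by
        have h8 := mul_le_mul_of_nonneg_left h2 hV3
        have h9 := mul_le_mul_of_nonneg_left h3 hV3
        linarith
    _ = 5 * (V * (b + q)) ^ 3 := by ring

open scoped Classical in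
/-- near cross scales -/
theorem near_pairs (K : ℝ) : ∃ (C : ℝ) (ν0 : ℕ), 0 < C ∧ ∀ (ν : ℕ) (u : ℝ) (S : Finset (X 2))
    (v : Fin 4 → ℤ) (J' : ℕ), ν0 ≤ ν → Cf ν u S v J' → ∀ (k l : ℕ), inW ν l k →
    ∀ c : ℕ × (Fin 4 → ℤ),
    ∑ p ∈ (PB ν S v k c).filter (fun p => kp p ≤ k + 25 * aL ν l),
      (((scX k S).filter (fun q => grd v (k - 2 * kap ν) (blk ν q) = c ∧
        LT ν u S v K p q)).card : ℝ) ≤
      C * 2 ^ k / 2 ^ aL ν l * (((PB ν S v k c).card : ℝ) +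
        (((scX k S).filter (fun q => grd v (k - 2 * kap ν) (blk ν q) = c)).card : ℝ)) := by
  obtain ⟨C3, c3, hC3, hc3, h3⟩ := three_count
  obtain ⟨C1, ν1, hC1, h1⟩ := pair_geo K
  obtain ⟨ν2, h2⟩ := lam_N K
  obtain ⟨ν4, h4⟩ := lam_X K
  obtain ⟨n0, hn0⟩ := cx1_large (1 / c3)
  obtain ⟨n1, hn1⟩ := cx1_large (C1 / c3)
  refine ⟨6 * C3, max (max ν1 ν2) (max (max n0 n1) ν4), by positivity, ?_⟩
  intro ν u S v J' hν hCf k l hW c
  have hν1 : ν1 ≤ ν := le_trans (le_trans (le_max_left _ _) (le_max_left _ _)) hν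
  have hν2 : ν2 ≤ ν := le_trans (le_trans (le_max_right _ _) (le_max_left _ _)) hν
  have hνn0 : n0 ≤ ν := le_trans (le_trans (le_trans (le_max_left _ _) (le_max_left _ _))
    (le_max_right _ _)) hν
  have hνn1 : n1 ≤ ν := le_trans (le_trans (le_trans (le_max_right _ _) (le_max_left _ _))
    (le_max_right _ _)) hν
  have hν4 : ν4 ≤ ν := le_trans (le_trans (le_max_right _ _) (le_max_right _ _)) hν
  have hν0 : 1 ≤ ν := hCf.nu1
  have ha : aI ν k = aL ν l := aI_inW hν0 hW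
  have hνa : ν ≤ aL ν l := by rw [← ha]; exact aI_ge ν k
  have hi : 40300 * aL ν l ≤ k := hW.1
  have hu : 1 ≤ u := hCf.u1
  have hu0 : 0 ≤ u := by linarith
  set a := aL ν l with hadef
  have hua : u ≤ 2 ^ a := hCf.u2.trans (pow_le_pow_right₀ (by norm_num) hνa)
  have hca : 1 / c3 ≤ 2 ^ a := hn0 a (hνn0.trans hνa)
  have hca' : 1 ≤ c3 * 2 ^ a := by
    rw [div_le_iff₀ hc3] at hca
    linarith
  have hcb : C1 / c3 ≤ 2 ^ a := hn1 a (hνn1.trans hνa)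
  have hcb' : C1 ≤ c3 * 2 ^ a := by
    rw [div_le_iff₀ hc3] at hcb
    linarith
  have hk2 : 40000 * ν + (k - 2 * kap ν) = k := by
    unfold kap
    omega
  have h50 : 2 * (50 * a) = 100 * a := by ring
  set B := PB ν S v k c with hB
  set Q := (scX k S).filter (fun q => grd v (k - 2 * kap ν) (blk ν q) = c) with hQ
  set P := B.filter (fun p => kp p ≤ k + 25 * a) with hP
  set V : ℝ := u * 2 ^ k with hVdef
  have hV0 : 0 ≤ V := by positivity
  have hmQ : ∀ q ∈ Q, q ∈ scX k S ∧ q ∈ S ∧ kp q = k ∧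
      grd v (k - 2 * kap ν) (blk ν q) = c := by
    intro q hq
    have h5 := Finset.mem_filter.1 hq
    have h6 := Finset.mem_filter.1 h5.1
    exact ⟨h5.1, h6.1, h6.2, h5.2⟩
  have hmP : ∀ p ∈ P, p ∈ B ∧ p ∈ S ∧ k + 3 ≤ kp p ∧ kp p ≤ k + 25 * a := by
    intro p hp
    have h5 := Finset.mem_filter.1 hp
    have h6 := Finset.mem_filter.1 h5.1
    exact ⟨h5.1, h6.1, h6.2.1, h5.2⟩
  have hclose : ∀ q ∈ Q, ∀ q' ∈ Q, ‖q - q'‖ ≤ 4 * 2 ^ k := by
    intro q hq q' hq'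
    have h5 := grd_close (ν := ν) (v := v) (e := k - 2 * kap ν) (p := q) (q := q')
      (by rw [(hmQ q hq).2.2.2, (hmQ q' hq').2.2.2])
    rw [hk2] at h5
    have : (0 : ℝ) ≤ 2 ^ k := by positivity
    linarith
  have hball : ∀ q ∈ Q, ((Q.filter (fun q' => ‖q - q'‖ ≤ 4 * 2 ^ k)).card : ℝ) ≤ 4 * V := by
    intro q hq
    have hd := hCf.dens k q (hmQ q hq).1 (4 * 2 ^ k) (by
      have : (1 : ℝ) ≤ 2 ^ k := one_le_pow₀ (by norm_num)
      linarith) (by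
      calc (4 : ℝ) * 2 ^ k = 2 ^ (k + 2) := by rw [pow_add]; ring
        _ ≤ 2 ^ (k + 20) := pow_le_pow_right₀ (by norm_num) (by omega))
    have hsub : Q.filter (fun q' => ‖q - q'‖ ≤ 4 * 2 ^ k) ⊆
        (scX k S).filter (fun q' => ‖q' - q‖ ≤ 4 * 2 ^ k) := by
      intro x hx
      rw [Finset.mem_filter] at hx ⊢
      rw [norm_sub_rev]
      exact ⟨(hmQ x hx.1).1, hx.2⟩
    have h5 : ((Q.filter (fun q' => ‖q - q'‖ ≤ 4 * 2 ^ k)).card : ℝ) ≤
        (((scX k S).filter (fun q' => ‖q' - q‖ ≤ 4 * 2 ^ k)).card : ℝ) := by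
      exact_mod_cast Finset.card_le_card hsub
    calc _ ≤ _ := h5
      _ ≤ u * (4 * 2 ^ k) := hd
      _ = 4 * V := by rw [hVdef]; ring
  have hQV : (Q.card : ℝ) ≤ 4 * V := by
    by_cases hne : Q.Nonempty
    · obtain ⟨q0, hq0⟩ := hne
      have h5 : Q.filter (fun q' => ‖q0 - q'‖ ≤ 4 * 2 ^ k) = Q :=
        Finset.filter_true_of_mem fun x hx => hclose q0 hq0 x hx
      have := hball q0 hq0
      rwa [h5] at this
    · rw [Finset.not_nonempty_iff_eq_empty] at hne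
      rw [hne]
      simpa using hV0
  have hPB : (P.card : ℝ) ≤ (B.card : ℝ) := by
    exact_mod_cast Finset.card_le_card (Finset.filter_subset _ _)
  have hb0 : (0 : ℝ) ≤ (B.card : ℝ) := Nat.cast_nonneg _
  have hq0 : (0 : ℝ) ≤ (Q.card : ℝ) := Nat.cast_nonneg _
  have hP0 : (0 : ℝ) ≤ (P.card : ℝ) := Nat.cast_nonneg _
  have hgeo : ∀ p ∈ P, ∀ q ∈ Q, LT ν u S v K p q →
      (2 : ℝ) ^ k ≤ ‖p - q‖ ∧ ‖p - q‖ ≤ 10 * |(p - q).2.1| ∧ |ap (p - q)| ≤ C1 * 4 ^ a := by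
    rintro p hp q hq ⟨ω, hω, hLk, -⟩
    obtain ⟨hpB, hpS, hpk, hpk'⟩ := hmP p hp
    obtain ⟨hqX, hqS, hqk, hqc⟩ := hmQ q hq
    have hb : blk ν q ≠ blk ν p := by
      intro h5
      have h6 : kp q = kp p := congrArg Prod.fst h5
      omega
    have hidx : idx p q = k := by
      unfold idx
      rw [if_neg (by omega), min_eq_right (by omega), hqk]
    have hg := h1 ν u S v J' hν1 hCf p hpS q hqS hb ω hω hLk
    rw [hidx, ha] at hg
    refine ⟨?_, hg.1.trans ?_, hg.2.2.1⟩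
    · have h5 := cross_norm hCf hpS hqS (by omega)
      have h6 : (2 : ℝ) ^ (k + 3) ≤ 2 ^ kp p := pow_le_pow_right₀ (by norm_num) hpk
      rw [pow_add] at h6
      have : (0 : ℝ) ≤ 2 ^ k := by positivity
      linarith
    · have := abs_nonneg (p - q).2.1
      linarith
  have key := h3 (1 / 2 ^ (2 * (50 * a))) (C1 * 4 ^ a) (2 ^ k) (V / 2 ^ (99 * a))
    (((B.card : ℝ) + V) / 2 ^ (199 * a)) (4 * V)
    P Q (fun p q => LT ν u S v K p q)
    (by positivity) ?_ (by positivity) ?_ (by positivity) (by positivity) (by positivity)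
    (by positivity) hgeo (fun p _ q hq q' hq' _ _ => hclose q hq q' hq') ?_ ?_ ?_
  · have h5 : (P.card : ℝ) ^ ((2 : ℝ) / 3) *
        ((1 / 2 ^ (2 * (50 * a))) ^ (-((3 : ℝ) / 2)) * (((B.card : ℝ) + V) / 2 ^ (199 * a)) *
          (Q.card : ℝ) * (4 * V) ^ 2) ^ ((1 : ℝ) / 3) ≤
        5 / 2 ^ (16 * a) * (V * ((B.card : ℝ) + (Q.card : ℝ))) := by
      apply cx1_pow hP0 (by positivity) (by positivity)
      rw [cx1_phi]
      have e3 : 3 * (50 * a) = 150 * a := by ring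
      rw [e3]
      have e1 : (P.card : ℝ) ^ 2 * (2 ^ (150 * a) * (((B.card : ℝ) + V) / 2 ^ (199 * a)) *
          (Q.card : ℝ) * (4 * V) ^ 2) = 16 * (2 ^ (150 * a) / 2 ^ (199 * a)) *
          ((P.card : ℝ) ^ 2 * (((B.card : ℝ) + V) * (Q.card : ℝ) * V ^ 2)) := by
        ring
      have e2 : (2 : ℝ) ^ (150 * a) / 2 ^ (199 * a) = 1 / 2 ^ (49 * a) := by
        rw [div_eq_div_iff (by positivity) (by positivity), ← pow_add, one_mul]
        congr 1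
        ring
      rw [e1, e2]
      have h9 : (2 : ℝ) ^ (48 * a) ≤ 2 ^ (49 * a) := pow_le_pow_right₀ (by norm_num) (by omega)
      have h10 : (1 : ℝ) / 2 ^ (49 * a) ≤ 1 / 2 ^ (48 * a) :=
        one_div_le_one_div_of_le (by positivity) h9
      calc 16 * (1 / 2 ^ (49 * a)) *
          ((P.card : ℝ) ^ 2 * (((B.card : ℝ) + V) * (Q.card : ℝ) * V ^ 2))
          ≤ 16 * (1 / 2 ^ (48 * a)) *
            ((B.card : ℝ) ^ 2 * (((B.card : ℝ) + V) * (Q.card : ℝ) * V ^ 2)) := by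
            gcongr
        _ ≤ 16 * (1 / 2 ^ (48 * a)) * (5 * (V * ((B.card : ℝ) + (Q.card : ℝ))) ^ 3) := by
            apply mul_le_mul_of_nonneg_left (cx1_alg hb0 hq0 hV0 hQV) (by positivity)
        _ ≤ (5 / 2 ^ (16 * a) * (V * ((B.card : ℝ) + (Q.card : ℝ)))) ^ 3 := by
            have e4 : (2 : ℝ) ^ (48 * a) = (2 ^ (16 * a)) ^ 3 := by
              rw [← pow_mul]; congr 1; ring
            rw [e4]
            have e5 : (5 / 2 ^ (16 * a) * (V * ((B.card : ℝ) + (Q.card : ℝ)))) ^ 3 =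
              125 * ((1 / (2 ^ (16 * a)) ^ 3) * (V * ((B.card : ℝ) + (Q.card : ℝ))) ^ 3) := by
              rw [mul_pow, div_pow]
              ring
            rw [e5]
            have h11 : 0 ≤ (1 / ((2 : ℝ) ^ (16 * a)) ^ 3) *
                (V * ((B.card : ℝ) + (Q.card : ℝ))) ^ 3 := by positivity
            have e6 : 16 * (1 / ((2 : ℝ) ^ (16 * a)) ^ 3) *
                (5 * (V * ((B.card : ℝ) + (Q.card : ℝ))) ^ 3) =
                80 * ((1 / ((2 : ℝ) ^ (16 * a)) ^ 3) *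
                (V * ((B.card : ℝ) + (Q.card : ℝ))) ^ 3) := by ring
            rw [e6]
            exact mul_le_mul_of_nonneg_right (by norm_num) h11
    have h6 : V / 2 ^ (99 * a) * (P.card : ℝ) ≤
        1 / 2 ^ (16 * a) * (V * ((B.card : ℝ) + (Q.card : ℝ))) := by
      have h9 : (2 : ℝ) ^ (16 * a) ≤ 2 ^ (99 * a) := pow_le_pow_right₀ (by norm_num) (by omega)
      have h10 : (1 : ℝ) / 2 ^ (99 * a) ≤ 1 / 2 ^ (16 * a) :=
        one_div_le_one_div_of_le (by positivity) h9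
      calc V / 2 ^ (99 * a) * (P.card : ℝ) = 1 / 2 ^ (99 * a) * (V * (P.card : ℝ)) := by ring
        _ ≤ 1 / 2 ^ (16 * a) * (V * ((B.card : ℝ) + (Q.card : ℝ))) := by
            gcongr
            linarith
    have h7 : V ≤ 2 ^ a * 2 ^ k := by
      rw [hVdef]
      gcongr
    have h8 : 1 / 2 ^ (16 * a) * V ≤ (2 : ℝ) ^ k / 2 ^ a := by
      have h9 : (2 : ℝ) ^ a * 2 ^ a ≤ 2 ^ (16 * a) := by
        rw [← pow_add]
        exact pow_le_pow_right₀ (by norm_num) (by omega)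
      rw [one_div_mul_eq_div, div_le_div_iff₀ (by positivity) (by positivity)]
      calc V * 2 ^ a ≤ 2 ^ a * 2 ^ k * 2 ^ a := by gcongr
        _ = 2 ^ k * (2 ^ a * 2 ^ a) := by ring
        _ ≤ 2 ^ k * 2 ^ (16 * a) := mul_le_mul_of_nonneg_left h9 (by positivity)
    refine le_trans (le_trans (le_of_eq ?_) key) ?_
    · refine Finset.sum_congr rfl fun p _ => ?_
      congr 1
      rw [hQ, Finset.filter_filter]
    · calc C3 * (V / 2 ^ (99 * a) * (P.card : ℝ) + (P.card : ℝ) ^ ((2 : ℝ) / 3) *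
        ((1 / 2 ^ (2 * (50 * a))) ^ (-((3 : ℝ) / 2)) * (((B.card : ℝ) + V) / 2 ^ (199 * a)) *
          (Q.card : ℝ) * (4 * V) ^ 2) ^ ((1 : ℝ) / 3))
          ≤ C3 * (1 / 2 ^ (16 * a) * (V * ((B.card : ℝ) + (Q.card : ℝ))) +
            5 / 2 ^ (16 * a) * (V * ((B.card : ℝ) + (Q.card : ℝ)))) :=
            mul_le_mul_of_nonneg_left (add_le_add h6 h5) hC3.le
        _ = 6 * C3 * (1 / 2 ^ (16 * a) * V) * ((B.card : ℝ) + (Q.card : ℝ)) := by ring
        _ ≤ 6 * C3 * (2 ^ k / 2 ^ a) * ((B.card : ℝ) + (Q.card : ℝ)) := by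
            gcongr
        _ = 6 * C3 * 2 ^ k / 2 ^ a * ((B.card : ℝ) + (Q.card : ℝ)) := by ring
  · rw [h50, div_le_iff₀ (by positivity)]
    calc (1 : ℝ) ≤ c3 * 2 ^ a := hca'
      _ ≤ c3 * 2 ^ (100 * a) := by
          apply mul_le_mul_of_nonneg_left _ hc3.le
          exact pow_le_pow_right₀ (by norm_num) (by omega)
  · rw [h50, div_pow, one_pow, ← pow_mul]
    have e4 : (4 : ℝ) ^ a = 2 ^ (2 * a) := by rw [pow_mul]; norm_num
    rw [e4, mul_one_div, div_mul_eq_mul_div, le_div_iff₀ (by positivity)]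
    calc C1 * (2 : ℝ) ^ (2 * a) * 2 ^ (100 * a * 12) = C1 * 2 ^ (1202 * a) := by
          rw [mul_assoc, ← pow_add]; congr 2; ring
      _ ≤ c3 * 2 ^ a * 2 ^ (1202 * a) := by
          apply mul_le_mul_of_nonneg_right hcb' (by positivity)
      _ = c3 * 2 ^ (1203 * a) := by
          rw [mul_assoc, ← pow_add]; congr 2; ring
      _ ≤ c3 * 2 ^ k := by
          apply mul_le_mul_of_nonneg_left _ hc3.le
          exact pow_le_pow_right₀ (by norm_num) (by omega)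
  · intro q hq
    convert hball q hq
  · intro p hp q hq hLT
    obtain ⟨hpB, hpS, hpk, hpk'⟩ := hmP p hp
    obtain ⟨hqX, hqS, hqk, hqc⟩ := hmQ q hq
    have h5 := h2 ν u S v J' hν2 hCf p hpS q hqS (by omega) hLT l (by rw [hqk]; exact hW)
      (by rw [hqk]; exact hpk')
    rw [hqk] at h5
    refine le_trans ?_ h5
    have hsub : Q.filter (fun q' => LT ν u S v K p q' ∧
        ‖om (p - q') - om (p - q)‖ ≤ 1 / 2 ^ (2 * (50 * a))) ⊆
        (scX k S).filter (fun q' => LT ν u S v K p q' ∧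
        ‖om (p - q') - om (p - q)‖ ≤ 1 / 2 ^ (100 * aL ν l)) := by
      intro x hx
      rw [Finset.mem_filter] at hx ⊢
      obtain ⟨hx0, hx2, hx4⟩ := hx
      rw [h50] at hx4
      exact ⟨(hmQ x hx0).1, hx2, hx4⟩
    convert (Nat.cast_le (α := ℝ)).2 (Finset.card_le_card hsub)
  · intro p hp q hq hLT
    obtain ⟨hpB, hpS, hpk, hpk'⟩ := hmP p hp
    obtain ⟨hqX, hqS, hqk, hqc⟩ := hmQ q hq
    have h5 := h4 ν u S v J' hν4 hCf p hpS q hqS (by omega) hLT l (by rw [hqk]; exact hW)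
    rw [hqk, hqc, ← hB] at h5
    refine le_trans ?_ h5
    have hsub : P.filter (fun p' => LT ν u S v K p' q ∧
        ‖om (p' - q) - om (p - q)‖ ≤ 1 / 2 ^ (2 * (50 * a))) ⊆
        B.filter (fun p' => LT ν u S v K p' q ∧
        ‖om (p' - q) - om (p - q)‖ ≤ 1 / 2 ^ (100 * aL ν l)) := by
      intro x hx
      rw [Finset.mem_filter] at hx ⊢
      obtain ⟨hx0, hx2, hx4⟩ := hx
      rw [h50] at hx4
      exact ⟨(hmP x hx0).1, hx2, hx4⟩
    convert (Nat.cast_le (α := ℝ)).2 (Finset.card_le_card hsub)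

end Pool.LibCA93
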