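import Pool.Agent.LibCA93.Defs2
import Pool.Agent.LibST49.A1

/-
PLAN (D1, MEDIUM/STRONG, elementary geometry of the grids. kpD_spec: rad p >= 1 gives 2^kp <= rad p < 2^(kp+1) (Nat.log of the floor). sep_blk: if kp p = kp q then bi ν p i /= bi ν q i for some i, both = c i mod 3, so they differ
by at least 3 and |crd p i - crd q i| >= 2 4^kap; |crd p i - crd q i| <= ‖p - q‖ (sup norm, EuclideanSpace coordinates). If kp p /= kp q they differ by at least 3 (mod 3) and ‖p - q‖ >= |rad p - rad q|/2 (abs_rad_le) >=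
(2^(kp+3) - 2^(kp+1))/2 >= 2^(40300 ν). cross_dist: kp q + 3 <= kp p gives ‖p - q‖ >= 2^(kp p - 2). kz_spec: 4^kz <= ‖Z‖ < 4^(kz+1) for ‖Z‖ >= 1. blk_slab: same floor. hi_spl: nestedness: pil ν v l c = pil ν v l c' implies the
same at l+1 because eL ν l <= eL ν (l+1) and (a / 2^e) / 2^(e'-e) = a / 2^e' (Int.ediv_ediv_of_nonneg ..): {l < J' : pil l c /= pil l c'} = range (spl).
lev_sep: same radius exponent: pil equal at level l gives |crd p i - crd q i| <= 4^kap 2^(eL l) for all i (base indices differ by less than 2^eL: <= 2^eL base cubes), so ‖p - q‖ <= 2 2^(40000 a_l) (‖x‖ <= sqrt 2 max; 2^(2 kap) 2^(eL) =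
2^(40000 a_l)) < 2^(40300 a_l) <= 2^(idx) <= ‖p - q‖, contradiction. idx <= kp p + 5 (from ‖p-q‖ <= 2^(kp+5)) and rad p <= 2^(10000 ν 2^J) give 40300 a_l <= 10000 ν 2^J + 5, hence l < J. If kp p /= kp q: pil l (blk p) /= pil l (blk q) for all l (first
component), so spl = J; l < J as before.
-/

set_option autoImplicit false

noncomputable section

open MeasureTheory Metric Set Filter

namespace Pool.LibCA93

open Pool.LibSR53 Pool.LibST49

private theorem D1_log {b : ℕ} (hb : 1 < b) {r : ℝ} (hr : 1 ≤ r) :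
    ((b : ℝ) ^ Nat.log b ⌊r⌋₊ ≤ r) ∧ r < (b : ℝ) ^ (Nat.log b ⌊r⌋₊ + 1) := by
  have h0 : (0 : ℝ) ≤ r := by linarith
  have h1 : 1 ≤ ⌊r⌋₊ := (Nat.one_le_floor_iff r).2 hr
  constructor
  · have h2 : b ^ Nat.log b ⌊r⌋₊ ≤ ⌊r⌋₊ := Nat.pow_log_le_self b (by omega)
    have h3 : ((b ^ Nat.log b ⌊r⌋₊ : ℕ) : ℝ) ≤ ((⌊r⌋₊ : ℕ) : ℝ) := by exact_mod_cast h2
    rw [Nat.cast_pow] at h3
    exact h3.trans (Nat.floor_le h0)
  · have h2 : ⌊r⌋₊ < b ^ (Nat.log b ⌊r⌋₊ + 1) := Nat.lt_pow_succ_log_self hb _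
    have h3 : ((⌊r⌋₊ + 1 : ℕ) : ℝ) ≤ ((b ^ (Nat.log b ⌊r⌋₊ + 1) : ℕ) : ℝ) := by
      exact_mod_cast h2
    rw [Nat.cast_pow, Nat.cast_add, Nat.cast_one] at h3
    exact (Nat.lt_floor_add_one r).trans_le h3

private theorem D1_crd (p q : X 2) (i : Fin 4) : |crd p i - crd q i| ≤ ‖p - q‖ := by
  have h1 : ‖(p - q).1‖ ≤ ‖p - q‖ := norm_fst_le _
  have h2 : |(p - q).2.1| ≤ ‖p - q‖ := (norm_fst_le (p - q).2).trans (norm_snd_le _)
  have h3 : |(p - q).2.2| ≤ ‖p - q‖ := (norm_snd_le (p - q).2).trans (norm_snd_le _)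
  have h4 : ∀ j : Fin 2, |p.1 j - q.1 j| ≤ ‖p - q‖ := by
    intro j
    have h5 : ‖(p - q).1 j‖ ≤ ‖(p - q).1‖ := PiLp.norm_apply_le _ j
    have h6 : (p - q).1 j = p.1 j - q.1 j := rfl
    rw [h6, Real.norm_eq_abs] at h5
    exact h5.trans h1
  fin_cases i
  · exact h4 0
  · exact h4 1
  · exact h2
  · exact h3

private theorem D1_norm_lt {p q : X 2} {r : ℝ} (h : ∀ i, |crd p i - crd q i| < r) :
    ‖p - q‖ < 2 * r := by
  have h0 : |p.1 0 - q.1 0| < r := h 0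
  have h1 : |p.1 1 - q.1 1| < r := h 1
  have h2 : |p.2.1 - q.2.1| < r := h 2
  have h3 : |p.2.2 - q.2.2| < r := h 3
  have hr : 0 < r := (abs_nonneg _).trans_lt h0
  have h4 : ‖(p - q).1‖ ≤ |p.1 0 - q.1 0| + |p.1 1 - q.1 1| := by
    rw [← pow_le_pow_iff_left₀ (norm_nonneg _) (by positivity) two_ne_zero,
      EuclideanSpace.norm_sq_eq, Fin.sum_univ_two]
    have e0 : (p - q).1 0 = p.1 0 - q.1 0 := rfl
    have e1 : (p - q).1 1 = p.1 1 - q.1 1 := rfl
    rw [e0, e1, Real.norm_eq_abs, Real.norm_eq_abs]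
    nlinarith [abs_nonneg (p.1 0 - q.1 0), abs_nonneg (p.1 1 - q.1 1)]
  rw [Prod.norm_def, Prod.norm_def]
  refine max_lt (by linarith) (max_lt ?_ ?_)
  · have e2 : (p - q).2.1 = p.2.1 - q.2.1 := rfl
    rw [e2, Real.norm_eq_abs]
    linarith
  · have e3 : (p - q).2.2 = p.2.2 - q.2.2 := rfl
    rw [e3, Real.norm_eq_abs]
    linarith

private theorem D1_kap (ν : ℕ) : (4 : ℝ) ^ kap ν = 2 ^ (40000 * ν) := by
  unfold kap
  rw [show (4 : ℝ) = 2 ^ 2 by norm_num, ← pow_mul]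
  congr 1
  ring

private theorem D1_rad {ν : ℕ} {p : X 2} (h : (2 : ℝ) ^ (40300 * ν) ≤ rad p) : 1 ≤ rad p :=
  (one_le_pow₀ (by norm_num)).trans h

private theorem D1_kp_ge {p : X 2} {n : ℕ} (h : (2 : ℝ) ^ n ≤ rad p) : n ≤ kp p := by
  have h1 : 1 ≤ rad p := (one_le_pow₀ (by norm_num)).trans h
  have h2 := (D1_log (b := 2) (by norm_num) h1).2
  have h3 : (2 : ℝ) ^ n < 2 ^ (kp p + 1) := by
    have h4 : rad p < (2 : ℝ) ^ (kp p + 1) := by exact_mod_cast h2
    linarith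
  have h5 := (pow_lt_pow_iff_right₀ (by norm_num : (1 : ℝ) < 2)).1 h3
  omega

private theorem D1_kp_le {p : X 2} {n : ℕ} (h1 : 1 ≤ rad p) (h : rad p ≤ (2 : ℝ) ^ n) :
    kp p ≤ n := by
  have h2 := (D1_log (b := 2) (by norm_num) h1).1
  have h3 : (2 : ℝ) ^ kp p ≤ 2 ^ n := by
    have h4 : (2 : ℝ) ^ (kp p) ≤ rad p := by exact_mod_cast h2
    linarith
  exact (pow_le_pow_iff_right₀ (by norm_num : (1 : ℝ) < 2)).1 h3

private theorem D1_eL_mono {ν l l' : ℕ} (h : l ≤ l') : eL ν l ≤ eL ν l' := by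
  unfold eL
  have h1 : 2 ^ l ≤ 2 ^ l' := Nat.pow_le_pow_right (by norm_num) h
  exact Nat.mul_le_mul_left _ (by omega)

private theorem D1_pil_mono {ν : ℕ} {v : Fin 4 → ℤ} {c c' : ℕ × (Fin 4 → ℤ)} {l l' : ℕ}
    (hl : l ≤ l') (h : pil ν v l c = pil ν v l c') : pil ν v l' c = pil ν v l' c' := by
  unfold pil grd at h ⊢
  rw [Prod.mk.injEq] at h ⊢
  refine ⟨h.1, ?_⟩
  funext i
  have h2 : (c.2 i + v i) / 2 ^ eL ν l = (c'.2 i + v i) / 2 ^ eL ν l := congrFun h.2 i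
  obtain ⟨d, hd⟩ := Nat.exists_eq_add_of_le (D1_eL_mono (ν := ν) hl)
  rw [hd, pow_add, ← Int.ediv_ediv_of_nonneg (by positivity), ←
    Int.ediv_ediv_of_nonneg (by positivity)]
  rw [h2]

private theorem D1_floor {x y a : ℝ} (ha : 0 < a) {n : ℤ} (h : |⌊x / a⌋ - ⌊y / a⌋| ≤ n) :
    |x - y| < (n + 1) * a := by
  have h1 := Int.floor_le (x / a)
  have h2 := Int.lt_floor_add_one (x / a)
  have h3 := Int.floor_le (y / a)
  have h4 := Int.lt_floor_add_one (y / a)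
  have h5 : |((⌊x / a⌋ : ℤ) : ℝ) - ((⌊y / a⌋ : ℤ) : ℝ)| ≤ n := by exact_mod_cast h
  rw [abs_le] at h5
  have e : x - y = (x / a - y / a) * a := by field_simp
  have h6 : |x / a - y / a| < n + 1 := by
    rw [abs_lt]
    constructor <;> linarith [h5.1, h5.2]
  rw [e, abs_mul, abs_of_pos ha]
  exact mul_lt_mul_of_pos_right h6 ha

private theorem D1_floor' {x y a : ℝ} (ha : 0 < a) (h : 3 ≤ |⌊x / a⌋ - ⌊y / a⌋|) :
    2 * a ≤ |x - y| := by
  have h1 := Int.floor_le (x / a)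
  have h2 := Int.lt_floor_add_one (x / a)
  have h3 := Int.floor_le (y / a)
  have h4 := Int.lt_floor_add_one (y / a)
  have h5 : (3 : ℝ) ≤ |((⌊x / a⌋ : ℤ) : ℝ) - ((⌊y / a⌋ : ℤ) : ℝ)| := by exact_mod_cast h
  have e : x - y = (x / a - y / a) * a := by field_simp
  have h6 : 2 ≤ |x / a - y / a| := by
    rcases le_abs.1 h5 with h7 | h7
    · exact le_abs.2 (Or.inl (by linarith))
    · exact le_abs.2 (Or.inr (by linarith))
  rw [e, abs_mul, abs_of_pos ha]
  exact mul_le_mul_of_nonneg_right h6 ha.le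

theorem kpD_spec (p : X 2) (hp : 1 ≤ rad p) : (2 : ℝ) ^ kp p ≤ rad p ∧ rad p < 2 ^ (kp p + 1) := by
  have h := D1_log (b := 2) (by norm_num) hp
  exact_mod_cast h

theorem kz_spec (Z : X 2) (hZ : 1 ≤ ‖Z‖) : (4 : ℝ) ^ kz Z ≤ ‖Z‖ ∧ ‖Z‖ < 4 ^ (kz Z + 1) := by
  have h := D1_log (b := 4) (by norm_num) hZ
  exact_mod_cast h

private theorem D1_cross {ν : ℕ} {u : ℝ} {S : Finset (X 2)} {J' : ℕ} (hS : Cg ν u S J') (p : X 2)
    (hp : p ∈ S) (q : X 2) (hq : q ∈ S) (hpq : kp q < kp p) :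
    kp q + 3 ≤ kp p ∧ (2 : ℝ) ^ kp p ≤ 4 * ‖p - q‖ := by
  obtain ⟨c, hc⟩ := hS.scl
  have h1 := hc p hp
  have h2 := hc q hq
  have h3 : kp q + 3 ≤ kp p := by omega
  refine ⟨h3, ?_⟩
  have h4 := (kpD_spec p (D1_rad (hS.rd p hp))).1
  have h5 := (kpD_spec q (D1_rad (hS.rd q hq))).2
  have h6 : (2 : ℝ) ^ (kp q + 1) * 4 ≤ 2 ^ kp p := by
    rw [show (4 : ℝ) = 2 ^ 2 by norm_num, ← pow_add]
    exact pow_le_pow_right₀ (by norm_num) (by omega)
  have h7 := abs_rad_le (p - q)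
  rw [rad_sub] at h7
  have h8 := le_abs_self (rad p - rad q)
  have h9 : (0 : ℝ) < 2 ^ kp p := by positivity
  linarith

theorem sep_blk {ν : ℕ} {u : ℝ} {S : Finset (X 2)} {J' : ℕ} (hS : Cg ν u S J') (p : X 2)
    (hp : p ∈ S) (q : X 2) (hq : q ∈ S) (hpq : blk ν p ≠ blk ν q) :
    (4 : ℝ) ^ kap ν ≤ ‖p - q‖ := by
  have hν := hS.nu1
  have hfar : ∀ p ∈ S, ∀ q ∈ S, kp q < kp p → (4 : ℝ) ^ kap ν ≤ ‖p - q‖ := by
    intro p hp q hq hlt
    have h1 := (D1_cross hS p hp q hq hlt).2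
    have h2 := D1_kp_ge (hS.rd p hp)
    rw [D1_kap]
    have h3 : (2 : ℝ) ^ (40000 * ν) * 4 ≤ 2 ^ kp p := by
      rw [show (4 : ℝ) = 2 ^ 2 by norm_num, ← pow_add]
      exact pow_le_pow_right₀ (by norm_num) (by omega)
    linarith
  rcases lt_trichotomy (kp p) (kp q) with hlt | heq | hgt
  · rw [norm_sub_rev]
    exact hfar q hq p hp hlt
  · obtain ⟨c, hc⟩ := hS.col
    have h1 : bi ν p ≠ bi ν q := by
      intro h
      exact hpq (Prod.ext heq h)
    obtain ⟨i, hi⟩ := Function.ne_iff.1 h1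
    have h2 := hc p hp i
    have h3 := hc q hq i
    have h4 : 3 ≤ |bi ν p i - bi ν q i| := by
      rw [le_abs]
      omega
    have h5 := D1_floor' (a := (4 : ℝ) ^ kap ν) (by positivity) h4
    have h6 := D1_crd p q i
    have h7 : (0 : ℝ) < 4 ^ kap ν := by positivity
    linarith
  · exact hfar p hp q hq hgt

theorem cross_dist {ν : ℕ} {u : ℝ} {S : Finset (X 2)} {J' : ℕ} (hS : Cg ν u S J') (p : X 2)
    (hp : p ∈ S) (q : X 2) (hq : q ∈ S) (hpq : kp q < kp p) :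
    kp q + 3 ≤ kp p ∧ (2 : ℝ) ^ kp p ≤ 4 * ‖p - q‖ := by
  exact D1_cross hS p hp q hq hpq

theorem cg_of_cf {ν : ℕ} {u : ℝ} {S : Finset (X 2)} {v : Fin 4 → ℤ} {J' : ℕ}
    (hS : Cf ν u S v J') : Cg ν u S J' := by
  exact ⟨hS.nu1, hS.u1, hS.u2, hS.sep, hS.rd, hS.scl, hS.col, hS.dens, hS.top, hS.J1⟩

theorem blk_bk {ν : ℕ} {u : ℝ} {S : Finset (X 2)} {J' : ℕ} (hS : Cg ν u S J') :
    Bk (kap ν) (Bs ν S) (fun c => c.1) (Sc ν S) := by
  classical
  have hmem : ∀ {c : ℕ × (Fin 4 → ℤ)} {p : X 2}, p ∈ Sc ν S c → p ∈ S ∧ blk ν p = c := by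
    intro c p hp
    unfold Sc at hp
    rwa [Finset.mem_filter] at hp
  refine ⟨?_, ?_, ?_, ?_⟩
  · intro c hc
    unfold Bs at hc
    rw [Finset.mem_image] at hc
    obtain ⟨p, hp, rfl⟩ := hc
    have h1 := D1_kp_ge (hS.rd p hp)
    rw [D1_kap]
    exact pow_le_pow_right₀ (by norm_num) (by show 40000 * ν ≤ kp p; omega)
  · intro c hc p hp
    obtain ⟨h1, rfl⟩ := hmem hp
    have h2 := kpD_spec p (D1_rad (hS.rd p h1))
    exact ⟨h2.1, h2.2.le⟩
  · intro c hc p hp q hq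
    obtain ⟨h1, h2⟩ := hmem hp
    obtain ⟨h3, h4⟩ := hmem hq
    have h5 : bi ν p 2 = bi ν q 2 := by
      have h6 := h2.trans h4.symm
      unfold blk at h6
      rw [Prod.mk.injEq] at h6
      exact congrFun h6.2 2
    have h7 : |bi ν p 2 - bi ν q 2| ≤ 0 := by rw [h5, sub_self, abs_zero]
    have h8 := D1_floor (a := (4 : ℝ) ^ kap ν) (by positivity) h7
    have h9 : |p.2.1 - q.2.1| < (((0 : ℤ) : ℝ) + 1) * 4 ^ kap ν := h8
    rw [Int.cast_zero, zero_add, one_mul] at h9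
    exact h9.le
  · intro c hc p hp q hq hpq
    exact hS.sep p (hmem hp).1 q (hmem hq).1 hpq

theorem wt_bk (ν : ℕ) (S : Finset (X 2)) : Wt (Bs ν S) (fun c => c.1) (Sc ν S) = WX S := by
  classical
  unfold Wt WX
  have h1 : ∀ p ∈ S, blk ν p ∈ Bs ν S := by
    intro p hp
    unfold Bs
    exact Finset.mem_image_of_mem _ hp
  rw [← Finset.sum_fiberwise_of_maps_to h1]
  refine Finset.sum_congr rfl fun c _ => ?_
  have h2 : Sc ν S c = S.filter (fun p => blk ν p = c) := by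
    unfold Sc
    congr
  rw [h2, Finset.sum_congr rfl (g := fun _ => (2 : ℝ) ^ (c.1 * 2))]
  · rw [Finset.sum_const, nsmul_eq_mul, mul_comm]
  · intro p hp
    rw [Finset.mem_filter] at hp
    rw [← hp.2, mul_comm]
    rfl

theorem hi_spl (ν : ℕ) (v : Fin 4 → ℤ) (J' : ℕ) (B : Finset (ℕ × (Fin 4 → ℤ))) :
    Hi B J' (pil ν v) (spl ν v J') := by
  classical
  refine ⟨?_, ?_⟩
  · intro i _ i' _ _
    unfold spl
    exact (Finset.card_filter_le _ _).trans_eq (Finset.card_range J')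
  · intro i _ i' _ _ l hl
    constructor
    · intro h
      unfold spl
      have h1 : (Finset.range J').filter (fun l => pil ν v l i ≠ pil ν v l i') ⊆
          Finset.range l := by
        intro l' hl'
        rw [Finset.mem_filter] at hl'
        rw [Finset.mem_range]
        by_contra h2
        exact hl'.2 (D1_pil_mono (not_lt.1 h2) h)
      have h2 := Finset.card_le_card h1
      rw [Finset.card_range] at h2
      convert h2 using 2
    · intro h
      by_contra h1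
      have h2 : Finset.range (l + 1) ⊆
          (Finset.range J').filter (fun l => pil ν v l i ≠ pil ν v l i') := by
        intro l' hl'
        rw [Finset.mem_range] at hl'
        rw [Finset.mem_filter, Finset.mem_range]
        refine ⟨by omega, fun h3 => h1 (D1_pil_mono (by omega) h3)⟩
      have h3 := Finset.card_le_card h2
      rw [Finset.card_range] at h3
      have h4 : l + 1 ≤ spl ν v J' i i' := by
        unfold spl
        convert h3 using 2
      omega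

theorem lev_sep {ν : ℕ} {u : ℝ} {S : Finset (X 2)} {v : Fin 4 → ℤ} {J' : ℕ}
    (hS : Cf ν u S v J') (p : X 2) (hp : p ∈ S) (q : X 2) (hq : q ∈ S)
    (hpq : blk ν p ≠ blk ν q) (hd : kp p = kp q → ‖p - q‖ < 2 ^ (kp p + 5)) (l : ℕ)
    (hl : inW ν l (idx p q)) : l < spl ν v J' (blk ν p) (blk ν q) := by
  classical
  have hν := hS.nu1
  obtain ⟨hl1, -⟩ := hl
  have ha1 : 1 ≤ aL ν l := by
    unfold aL
    exact Nat.mul_pos hν (Nat.two_pow_pos l)
  have hradp := D1_rad (hS.rd p hp)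
  have hkp := D1_kp_le hradp (hS.top p hp)
  -- the index is at most `kp p + 5`
  have hidx : idx p q ≤ kp p + 5 := by
    unfold idx
    split_ifs with h
    · have h1 := hd h
      by_contra h2
      have h3 : 2 ^ (kp p + 5) ≤ ⌊‖p - q‖⌋₊ := Nat.pow_le_of_le_log (by
        intro h4
        rw [h4] at h2
        simp at h2) (by omega)
      have h4 : ((2 ^ (kp p + 5) : ℕ) : ℝ) ≤ ((⌊‖p - q‖⌋₊ : ℕ) : ℝ) := by exact_mod_cast h3
      rw [Nat.cast_pow, Nat.cast_ofNat] at h4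
      have h5 := h4.trans (Nat.floor_le (norm_nonneg _))
      linarith
    · have := min_le_left (kp p) (kp q)
      omega
  have hlJ : l < J' := by
    by_contra h
    have h1 : 2 ^ J' ≤ 2 ^ l := Nat.pow_le_pow_right (by norm_num) (not_lt.1 h)
    have h2 : ν * 2 ^ J' ≤ aL ν l := Nat.mul_le_mul_left ν h1
    have h3 : 10000 * ν * 2 ^ J' = 10000 * (ν * 2 ^ J') := by ring
    omega
  -- the classes at level `l` are different
  have hne : pil ν v l (blk ν p) ≠ pil ν v l (blk ν q) := by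
    intro heq
    unfold pil grd blk at heq
    rw [Prod.mk.injEq] at heq
    obtain ⟨h1, h2⟩ := heq
    have h3 : ∀ i, |bi ν p i - bi ν q i| ≤ (2 : ℤ) ^ eL ν l - 1 := by
      intro i
      have h4 : (bi ν p i + v i) / 2 ^ eL ν l = (bi ν q i + v i) / 2 ^ eL ν l :=
        congrFun h2 i
      have h5 := Int.emod_add_mul_ediv (bi ν p i + v i) (2 ^ eL ν l)
      have h6 := Int.emod_add_mul_ediv (bi ν q i + v i) (2 ^ eL ν l)
      have hpos : (0 : ℤ) < 2 ^ eL ν l := by positivity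
      have h7 := Int.emod_nonneg (bi ν p i + v i) hpos.ne'
      have h8 := Int.emod_lt_of_pos (bi ν p i + v i) hpos
      have h9 := Int.emod_nonneg (bi ν q i + v i) hpos.ne'
      have h10 := Int.emod_lt_of_pos (bi ν q i + v i) hpos
      rw [h4] at h5
      rw [abs_le]
      constructor <;> linarith
    have h4 : ∀ i, |crd p i - crd q i| < (2 : ℝ) ^ (40000 * aL ν l) := by
      intro i
      have h5 := D1_floor (a := (4 : ℝ) ^ kap ν) (by positivity) (h3 i)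
      have h6 : (((2 : ℤ) ^ eL ν l - 1 : ℤ) : ℝ) + 1 = 2 ^ eL ν l := by
        push_cast
        ring
      rw [h6, D1_kap, ← pow_add] at h5
      have h7 : eL ν l + 40000 * ν = 40000 * aL ν l := by
        unfold eL aL
        have h8 : 1 ≤ 2 ^ l := Nat.one_le_two_pow
        obtain ⟨t, ht⟩ := Nat.exists_eq_add_of_le h8
        rw [ht, Nat.add_sub_cancel_left]
        ring
      rw [h7] at h5
      exact h5
    have h5 := D1_norm_lt h4
    have h6 : idx p q = Nat.log 2 ⌊‖p - q‖⌋₊ := by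
      unfold idx
      rw [if_pos h1]
    rw [h6] at hl1
    have h7 : 2 ^ (40300 * aL ν l) ≤ ⌊‖p - q‖⌋₊ := Nat.pow_le_of_le_log (by
      intro h8
      rw [h8] at hl1
      simp at hl1
      omega) hl1
    have h8 : ((2 ^ (40300 * aL ν l) : ℕ) : ℝ) ≤ ((⌊‖p - q‖⌋₊ : ℕ) : ℝ) := by exact_mod_cast h7
    rw [Nat.cast_pow, Nat.cast_ofNat] at h8
    have h9 := h8.trans (Nat.floor_le (norm_nonneg _))
    have h10 : (2 : ℝ) * 2 ^ (40000 * aL ν l) ≤ 2 ^ (40300 * aL ν l) := by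
      rw [← pow_succ']
      exact pow_le_pow_right₀ (by norm_num) (by omega)
    linarith
  have h2 : Finset.range (l + 1) ⊆
      (Finset.range J').filter (fun l => pil ν v l (blk ν p) ≠ pil ν v l (blk ν q)) := by
    intro l' hl'
    rw [Finset.mem_range] at hl'
    rw [Finset.mem_filter, Finset.mem_range]
    exact ⟨by omega, fun h3 => hne (D1_pil_mono (by omega) h3)⟩
  have h3 := Finset.card_le_card h2
  rw [Finset.card_range] at h3
  have h4 : l + 1 ≤ spl ν v J' (blk ν p) (blk ν q) := by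
    unfold spl
    convert h3 using 2
  omega

end Pool.LibCA93
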