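import Pool.Agent.LibCA93.Defs2

/-
PLAN (D10, MEDIUM/STRONG, only Mathlib. J <= 1: every p is gd. Let E := eL ν (J-1) and average over v in V := (Fin 4 → Finset.range (2^E)) (as integers; Fintype.piFinset). For fixed p, l (1 <= l < J), i: the number of v_i in [0,2^E) with (bi + v_i) % 2^e < 2^(e/2) or
>= 2^e - 2^(e/2), e = eL ν l <= E, is 2 2^(e/2) 2^(E-e) (v_i -> bi + v_i permutes residues mod 2^e, 2^(E-e) full periods): fraction 2 2^(-e/2) <= 2 2^(-20000 ν (2^l - 1)) <= 2 (2^(-20000 ν))^l (2^l - 1 >= l). Number of v in V for which p is not gd <=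
#V 8 SUM_(l >= 1) (2^(-20000ν))^l <= #V 16 2^(-20000 ν) <= #V θ for ν >= ν0. So SUM_v SUM_(p bad for v) W p <= θ #V SUM W p; some v is at most the average (Finset.exists_le_of_sum_le).
-/

set_option autoImplicit false

noncomputable section

open MeasureTheory Metric Set Filter

namespace Pool.LibCA93

open Pool.LibSR53 Pool.LibST49

private theorem D10_count (r : ℤ) (hr : 0 < r) (k : ℕ) (a : ℤ) (B : Finset ℤ) :
    ((Finset.Ico (0:ℤ) (r * k)).filter (fun t => (a + t) % r ∈ B)).card ≤ B.card * k := by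
  have h1 : (Finset.Ico (0:ℤ) (r * k)).filter (fun t => (a + t) % r ∈ B) ⊆
      B.biUnion (fun c => (Finset.Ico (0:ℤ) (r * k)).filter (fun t => t ≡ c - a [ZMOD r])) := by
    intro t ht
    rw [Finset.mem_filter] at ht
    rw [Finset.mem_biUnion]
    refine ⟨_, ht.2, Finset.mem_filter.2 ⟨ht.1, ?_⟩⟩
    have h2 : (a + t) % r ≡ a + t [ZMOD r] := Int.mod_modEq _ _
    have h3 := h2.symm.sub_right a
    simpa using h3
  have h2 : ∀ c ∈ B, ((Finset.Ico (0:ℤ) (r * k)).filter (fun t => t ≡ c - a [ZMOD r])).card ≤ k := by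
    intro c _
    have h3 := Int.Ico_filter_modEq_card 0 (r * k) hr (c - a)
    have hr' : (r : ℚ) ≠ 0 := by exact_mod_cast hr.ne'
    have h4 : (((r * k : ℤ) : ℚ) - ((c - a : ℤ) : ℚ)) / (r : ℚ) =
        (((0 : ℤ) : ℚ) - ((c - a : ℤ) : ℚ)) / (r : ℚ) + (k : ℤ) := by
      push_cast
      field_simp
      ring
    rw [h4, Int.ceil_add_intCast, add_sub_cancel_left] at h3
    have h5 : max (k : ℤ) 0 = k := max_eq_left (by positivity)
    rw [h5] at h3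
    exact_mod_cast h3.le
  calc _ ≤ _ := Finset.card_le_card h1
    _ ≤ _ := Finset.card_biUnion_le
    _ ≤ ∑ c ∈ B, k := Finset.sum_le_sum h2
    _ = _ := by rw [Finset.sum_const, smul_eq_mul]

private theorem D10_eL (ν l J' : ℕ) (h : l < J') : eL ν l ≤ eL ν J' := by
  unfold eL
  have : 2 ^ l ≤ 2 ^ J' := Nat.pow_le_pow_right (by norm_num) h.le
  exact Nat.mul_le_mul_left _ (by omega)

private theorem D10_half (ν l : ℕ) : ν * l + eL ν l / 2 ≤ eL ν l := by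
  unfold eL
  have h1 : l + 1 ≤ 2 ^ l := Nat.lt_two_pow_self
  have h2 : ν * l ≤ ν * (2 ^ l - 1) := Nat.mul_le_mul_left _ (by omega)
  have h3 : 40000 * ν * (2 ^ l - 1) = 40000 * (ν * (2 ^ l - 1)) := by ring
  rw [h3]
  omega

open scoped Classical in
private theorem D10_bad (ν J' : ℕ) (hν : 1 ≤ ν) (p : X 2) :
    (((Finset.Ico (0:ℤ) (2 ^ (eL ν J'))).filter (fun t => ¬ gd ν (fun _ => t) J' p)).card : ℝ) ≤
      16 * (1 / 2) ^ ν * 2 ^ (eL ν J') := by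
  set T := Finset.Ico (0:ℤ) (2 ^ (eL ν J')) with hT
  set B : ℕ → Finset ℤ := fun l => Finset.Ico (0:ℤ) (2 ^ (eL ν l / 2)) ∪
    Finset.Ico ((2:ℤ) ^ (eL ν l) - 2 ^ (eL ν l / 2)) (2 ^ (eL ν l)) with hB
  have h1 : T.filter (fun t => ¬ gd ν (fun _ => t) J' p) ⊆
      (Finset.Ico 1 J').biUnion (fun l => (Finset.univ : Finset (Fin 4)).biUnion
        (fun i => T.filter (fun t => (bi ν p i + t) % 2 ^ (eL ν l) ∈ B l))) := by
    intro t ht
    rw [Finset.mem_filter] at ht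
    obtain ⟨htT, hbad⟩ := ht
    unfold gd at hbad
    push Not at hbad
    obtain ⟨l, hl1, hl2, i, hi⟩ := hbad
    rw [Finset.mem_biUnion]
    refine ⟨l, Finset.mem_Ico.2 ⟨hl1, hl2⟩, ?_⟩
    rw [Finset.mem_biUnion]
    refine ⟨i, Finset.mem_univ _, Finset.mem_filter.2 ⟨htT, ?_⟩⟩
    have hpos : (0:ℤ) < 2 ^ (eL ν l) := by positivity
    have h0 := Int.emod_nonneg (bi ν p i + t) hpos.ne'
    have h2 := Int.emod_lt_of_pos (bi ν p i + t) hpos
    rw [hB, Finset.mem_union, Finset.mem_Ico, Finset.mem_Ico]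
    by_cases h3 : (2:ℤ) ^ (eL ν l / 2) ≤ (bi ν p i + t) % 2 ^ (eL ν l)
    · exact Or.inr ⟨hi h3, h2⟩
    · exact Or.inl ⟨h0, not_le.1 h3⟩
  have hBc : ∀ l, (B l).card ≤ 2 * 2 ^ (eL ν l / 2) := by
    intro l
    refine (Finset.card_union_le _ _).trans ?_
    rw [Int.card_Ico, Int.card_Ico]
    have e1 : ((2:ℤ) ^ (eL ν l / 2) - 0).toNat = 2 ^ (eL ν l / 2) := by
      rw [sub_zero]
      exact Int.toNat_natCast (2 ^ (eL ν l / 2)) |>.symm ▸ by simp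
    have e2 : ((2:ℤ) ^ (eL ν l) - ((2:ℤ) ^ (eL ν l) - 2 ^ (eL ν l / 2))) =
        (2:ℤ) ^ (eL ν l / 2) - 0 := by ring
    rw [e2, e1]
    omega
  have h2 : (T.filter (fun t => ¬ gd ν (fun _ => t) J' p)).card ≤
      ∑ l ∈ Finset.Ico 1 J', 4 * (2 * 2 ^ (eL ν l / 2) * 2 ^ (eL ν J' - eL ν l)) := by
    refine (Finset.card_le_card h1).trans (Finset.card_biUnion_le.trans (Finset.sum_le_sum ?_))
    intro l hl
    rw [Finset.mem_Ico] at hl
    refine Finset.card_biUnion_le.trans ?_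
    have h3 : ∀ i ∈ (Finset.univ : Finset (Fin 4)),
        (T.filter (fun t => (bi ν p i + t) % 2 ^ (eL ν l) ∈ B l)).card ≤
          2 * 2 ^ (eL ν l / 2) * 2 ^ (eL ν J' - eL ν l) := by
      intro i _
      have h4 := D10_count (2 ^ (eL ν l)) (by positivity) (2 ^ (eL ν J' - eL ν l)) (bi ν p i) (B l)
      have h5 : ((2:ℤ) ^ (eL ν l)) * ((2 ^ (eL ν J' - eL ν l) : ℕ) : ℤ) = 2 ^ (eL ν J') := by
        push_cast
        rw [← pow_add]
        congr 1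
        have := D10_eL ν l J' hl.2
        omega
      rw [h5] at h4
      exact h4.trans (Nat.mul_le_mul_right _ (hBc l))
    refine (Finset.sum_le_sum h3).trans ?_
    rw [Finset.sum_const, Finset.card_univ, Fintype.card_fin, smul_eq_mul]
  have h3 : ((T.filter (fun t => ¬ gd ν (fun _ => t) J' p)).card : ℝ) ≤
      ∑ l ∈ Finset.Ico 1 J', 8 * 2 ^ (eL ν J') * ((1 / 2 : ℝ) ^ ν) ^ l := by
    have h4 : ((T.filter (fun t => ¬ gd ν (fun _ => t) J' p)).card : ℝ) ≤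
      ((∑ l ∈ Finset.Ico 1 J', 4 * (2 * 2 ^ (eL ν l / 2) * 2 ^ (eL ν J' - eL ν l)) : ℕ) : ℝ) := by
      exact_mod_cast h2
    refine h4.trans ?_
    push_cast
    refine Finset.sum_le_sum fun l hl => ?_
    rw [Finset.mem_Ico] at hl
    have h5 : (2:ℝ) ^ (eL ν l / 2) * 2 ^ (eL ν J' - eL ν l) ≤ 2 ^ (eL ν J') * ((1 / 2 : ℝ) ^ ν) ^ l := by
      rw [← pow_mul, one_div, inv_pow, ← div_eq_mul_inv, le_div_iff₀ (by positivity), ← pow_add,
        ← pow_add]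
      refine pow_le_pow_right₀ (by norm_num) ?_
      have h6 := D10_half ν l
      have h7 := D10_eL ν l J' hl.2
      omega
    nlinarith [h5]
  refine h3.trans ?_
  rw [← Finset.mul_sum]
  have hx0 : (0:ℝ) ≤ (1 / 2) ^ ν := by positivity
  have hx1 : ((1:ℝ) / 2) ^ ν ≤ 1 / 2 := by
    calc ((1:ℝ) / 2) ^ ν ≤ (1 / 2) ^ 1 := pow_le_pow_of_le_one (by norm_num) (by norm_num) hν
      _ = 1 / 2 := pow_one _
  have h4 := geom_sum_Ico_le_of_lt_one (m := 1) (n := J') hx0 (by linarith)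
  have h5 : ((1:ℝ) / 2) ^ ν ^ 1 = (1 / 2) ^ ν := by rw [pow_one]
  have h6 : (((1:ℝ) / 2) ^ ν) ^ 1 / (1 - (1 / 2) ^ ν) ≤ 2 * (1 / 2) ^ ν := by
    rw [pow_one, div_le_iff₀ (by linarith)]
    nlinarith
  have h7 : (0:ℝ) < 2 ^ (eL ν J') := by positivity
  calc 8 * (2:ℝ) ^ (eL ν J') * ∑ l ∈ Finset.Ico 1 J', ((1 / 2 : ℝ) ^ ν) ^ l
      ≤ 8 * (2:ℝ) ^ (eL ν J') * (2 * (1 / 2) ^ ν) :=
        mul_le_mul_of_nonneg_left (h4.trans h6) (by positivity)
    _ = 16 * (1 / 2) ^ ν * 2 ^ (eL ν J') := by ring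

open scoped Classical in
/-- a good shift of the grids -/
theorem shift (θ : ℝ) (hθ : 0 < θ) : ∃ ν0 : ℕ, ∀ (ν J' : ℕ) (S : Finset (X 2))
    (W : X 2 → ℝ), ν0 ≤ ν → 1 ≤ ν → (∀ p, 0 ≤ W p) → ∃ v : Fin 4 → ℤ,
    ∑ p ∈ S.filter (fun p => ¬ gd ν v J' p), W p ≤ θ * ∑ p ∈ S, W p := by
  obtain ⟨ν0, hν0⟩ := exists_pow_lt_of_lt_one (show (0:ℝ) < θ / 16 by positivity)
    (show (1 / 2 : ℝ) < 1 by norm_num)
  refine ⟨ν0, fun ν J' S W hν hν1 hW => ?_⟩
  set T := Finset.Ico (0:ℤ) (2 ^ (eL ν J')) with hT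
  have hTc : (T.card : ℝ) = 2 ^ (eL ν J') := by
    have h1 : ((2:ℤ) ^ (eL ν J') - 0).toNat = 2 ^ (eL ν J') := by
      rw [sub_zero]
      exact Int.toNat_natCast (2 ^ (eL ν J')) |>.symm ▸ by simp
    rw [hT, Int.card_Ico, h1]
    push_cast
    rfl
  have hTne : T.Nonempty := by
    rw [← Finset.card_pos]
    have : (0:ℝ) < T.card := by rw [hTc]; positivity
    exact_mod_cast this
  have hx : 16 * ((1:ℝ) / 2) ^ ν ≤ θ := by
    have h1 : ((1:ℝ) / 2) ^ ν ≤ (1 / 2) ^ ν0 := pow_le_pow_of_le_one (by norm_num) (by norm_num) hν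
    linarith
  have key : ∑ t ∈ T, ∑ p ∈ S.filter (fun p => ¬ gd ν (fun _ => t) J' p), W p ≤
      ∑ t ∈ T, θ * ∑ p ∈ S, W p := by
    have h1 : ∑ t ∈ T, ∑ p ∈ S.filter (fun p => ¬ gd ν (fun _ => t) J' p), W p =
        ∑ p ∈ S, ((T.filter (fun t => ¬ gd ν (fun _ => t) J' p)).card : ℝ) * W p := by
      simp_rw [Finset.sum_filter]
      rw [Finset.sum_comm]
      refine Finset.sum_congr rfl fun p _ => ?_
      rw [← Finset.sum_filter, Finset.sum_const, nsmul_eq_mul]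
    rw [h1, Finset.sum_const, nsmul_eq_mul, hTc, Finset.mul_sum, Finset.mul_sum]
    refine Finset.sum_le_sum fun p _ => ?_
    have h2 := D10_bad ν J' hν1 p
    have h3 : (0:ℝ) < 2 ^ (eL ν J') := by positivity
    calc ((T.filter (fun t => ¬ gd ν (fun _ => t) J' p)).card : ℝ) * W p
        ≤ (16 * (1 / 2) ^ ν * 2 ^ (eL ν J')) * W p := mul_le_mul_of_nonneg_right h2 (hW p)
      _ ≤ (θ * 2 ^ (eL ν J')) * W p :=
        mul_le_mul_of_nonneg_right (mul_le_mul_of_nonneg_right hx h3.le) (hW p)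
      _ = 2 ^ (eL ν J') * (θ * W p) := by ring
  obtain ⟨t, -, ht⟩ := Finset.exists_le_of_sum_le hTne key
  exact ⟨fun _ => t, ht⟩

end Pool.LibCA93
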