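import Pool.Agent.LibCA93.D9
import Pool.Agent.LibCA93.D10
import Pool.Agent.LibCA93.D1

/-
PLAN (D11, MEDIUM). Strong induction on the number of points. θ := 2^(-q1) (or smaller), ν0 from shift and conf_strong. Claim with constant M := 2^q1 C (C of conf_strong): S given; v from shift with W p = 2^(2 kp p): S = Sg + Sb (gd or not), WX Sb <= θ WX S < WX S if S is nonempty
(WX S > 0), so #Sb < #S. Sg satisfies Cf (all fields pass to subsets; DX too; mar = gd). FX S = FX Sg + FX Sb; Minkowski: ‖FX S‖_q1 <= (C.. WX S)^(1/q1) + (M .. θ WX S)^(1/q1) <= (M .. WX S)^(1/q1) (1/2 + 1/2).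
-/

set_option autoImplicit false

noncomputable section

open MeasureTheory Metric Set Filter

namespace Pool.LibCA93

open Pool.LibSR53 Pool.LibST49

private theorem D11_WX_nonneg (S : Finset (X 2)) : 0 ≤ WX S := by
  unfold WX
  exact Finset.sum_nonneg fun p _ => by positivity

private theorem D11_WX_mono {S T : Finset (X 2)} (h : S ⊆ T) : WX S ≤ WX T := by
  unfold WX
  exact Finset.sum_le_sum_of_subset_of_nonneg h fun p _ _ => by positivity

private theorem D11_DX {u : ℝ} {S T : Finset (X 2)} (h : S ⊆ T) (hT : DX u T) : DX u S := by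
  classical
  intro k p hp t ht1 ht2
  have hsub : scX k S ⊆ scX k T := by
    unfold scX
    exact Finset.filter_subset_filter _ h
  refine le_trans ?_ (hT k p (hsub hp) t ht1 ht2)
  have h1 := Finset.card_le_card (Finset.filter_subset_filter (fun q => ‖q - p‖ ≤ t) hsub)
  exact_mod_cast (by convert h1)

private theorem D11_Cg {ν : ℕ} {u : ℝ} {S T : Finset (X 2)} {J' : ℕ} (h : S ⊆ T)
    (hT : Cg ν u T J') : Cg ν u S J' where
  nu1 := hT.nu1
  u1 := hT.u1
  u2 := hT.u2
  sep := fun p hp q hq => hT.sep p (h hp) q (h hq)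
  rd := fun p hp => hT.rd p (h hp)
  scl := by
    obtain ⟨c, hc⟩ := hT.scl
    exact ⟨c, fun p hp => hc p (h hp)⟩
  col := by
    obtain ⟨c, hc⟩ := hT.col
    exact ⟨c, fun p hp => hc p (h hp)⟩
  dens := D11_DX h hT.dens
  top := fun p hp => hT.top p (h hp)
  J1 := hT.J1

private theorem D11_memLp {v0 v1 : ℝ} {b : V 2 → ℂ} (hb : Sb v0 v1 1 b) (s0 : ℝ)
    (S : Finset (X 2)) (γ : X 2 → ℂ) : MemLp (FX b s0 S γ) 2 volume := by
  unfold FX
  exact memLp_finsetSum S fun p _ =>
    ((gram (by norm_num) hb hb s0 p p).1.const_mul ((2 : ℂ) ^ (kp p))).const_mul (γ p)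

theorem cg_strong {v0 v1 : ℝ} {b : V 2 → ℂ} (hb : Sb v0 v1 1 b)
    (hC : ∀ q : ℝ, 2 < q → q < 4 → CDec 2 q) (q1 : ℝ) (h1 : 1 < q1) (h2 : q1 < 4 / 3) :
    ∃ δ : ℝ, 0 < δ ∧ ∀ ε : ℝ, 0 < ε → ∃ (C : ℝ) (ν0 : ℕ), 0 < C ∧
    ∀ (ν : ℕ) (u : ℝ) (S : Finset (X 2)) (J' : ℕ), ν0 ≤ ν → u ≤ (2 : ℝ) ^ (δ * ν) →
    Cg ν u S J' → ∀ γ : X 2 → ℂ, (∀ p, ‖γ p‖ ≤ 1) → ∀ s0 : ℝ,
    ∫⁻ x, ‖FX b s0 S γ x‖ₑ ^ q1 ≤ ENNReal.ofReal (C * (1 + |s0|) * 2 ^ (ε * ν) * WX S) := by
  classical
  obtain ⟨δ, hδ, hconf⟩ := conf_strong hb hC q1 h1 h2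
  refine ⟨δ, hδ, fun ε hε => ?_⟩
  obtain ⟨C, ν0, hC0, H⟩ := hconf ε hε
  obtain ⟨ν1, Hs⟩ := shift (1 / 4) (by norm_num)
  refine ⟨4 * C, max ν0 ν1, by positivity, ?_⟩
  intro ν u S J' hν hu hS γ hγ s0
  have hν0 : ν0 ≤ ν := (le_max_left _ _).trans hν
  have hν1 : ν1 ≤ ν := (le_max_right _ _).trans hν
  induction S using Finset.strongInduction with
  | H S ih =>
    set D : ℝ := (1 + |s0|) * 2 ^ (ε * ν) with hD
    have hD0 : 0 < D := by positivity
    have hpos : 0 < q1 := by linarith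
    rcases S.eq_empty_or_nonempty with hE | hne
    · subst hE
      have h0 : ∀ x, FX b s0 ∅ γ x = 0 := fun x => by simp [FX]
      simp only [h0, enorm_zero, ENNReal.zero_rpow_of_pos hpos, lintegral_zero]
      exact zero_le
    · have hW : 0 < WX S := Finset.sum_pos (fun p _ => by positivity) hne
      obtain ⟨v, hv⟩ := Hs ν J' S (fun p => (2 : ℝ) ^ (2 * kp p)) hν1 hS.nu1
        (fun p => by positivity)
      set Sg : Finset (X 2) := S.filter (fun p => gd ν v J' p) with hSg
      set Sd : Finset (X 2) := S.filter (fun p => ¬ gd ν v J' p) with hSd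
      have hv' : WX Sd ≤ 1 / 4 * WX S := hv
      have hgs : Sg ⊆ S := Finset.filter_subset _ _
      have hds : Sd ⊆ S := Finset.filter_subset _ _
      have hss : Sd ⊂ S := by
        refine lt_of_le_of_ne hds ?_
        intro e
        rw [e] at hv'
        linarith
      have hI := ih Sd hss (D11_Cg hds hS)
      have hCg := D11_Cg hgs hS
      have hG := H ν u Sg v J' hν0 hu
        { nu1 := hCg.nu1, u1 := hCg.u1, u2 := hCg.u2, sep := hCg.sep, rd := hCg.rd,
          scl := hCg.scl, col := hCg.col, dens := hCg.dens, top := hCg.top, J1 := hCg.J1,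
          mar := fun p hp => (Finset.mem_filter.1 hp).2 } γ hγ s0
      have hsplit : ∀ x, FX b s0 S γ x = FX b s0 Sg γ x + FX b s0 Sd γ x := by
        intro x
        unfold FX
        rw [hSg, hSd, Finset.sum_filter_add_sum_filter_not]
      have hm : AEMeasurable (fun x => ‖FX b s0 Sg γ x‖ₑ ^ q1) volume :=
        (D11_memLp hb s0 Sg γ).aestronglyMeasurable.enorm.pow_const _
      have h2q : (2 : ENNReal) ^ (q1 - 1) = ENNReal.ofReal ((2 : ℝ) ^ (q1 - 1)) := by
        rw [← ENNReal.ofReal_rpow_of_pos (by norm_num)]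
        norm_num
      calc ∫⁻ x, ‖FX b s0 S γ x‖ₑ ^ q1
          ≤ ∫⁻ x, (2 : ENNReal) ^ (q1 - 1) *
              (‖FX b s0 Sg γ x‖ₑ ^ q1 + ‖FX b s0 Sd γ x‖ₑ ^ q1) := by
            refine lintegral_mono fun x => ?_
            rw [hsplit x]
            exact (ENNReal.rpow_le_rpow (enorm_add_le _ _) hpos.le).trans
              (ENNReal.rpow_add_le_mul_rpow_add_rpow _ _ h1.le)
        _ = (2 : ENNReal) ^ (q1 - 1) * ((∫⁻ x, ‖FX b s0 Sg γ x‖ₑ ^ q1) +
              (∫⁻ x, ‖FX b s0 Sd γ x‖ₑ ^ q1)) := by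
            rw [lintegral_const_mul' _ _ (by rw [h2q]; exact ENNReal.ofReal_ne_top),
              lintegral_add_left' hm]
        _ ≤ (2 : ENNReal) ^ (q1 - 1) * (ENNReal.ofReal (C * D * WX S) +
              ENNReal.ofReal (C * D * WX S)) := by
            refine mul_le_mul_right (add_le_add ?_ ?_) _
            · refine hG.trans (ENNReal.ofReal_le_ofReal ?_)
              have := D11_WX_mono hgs
              rw [hD]
              have h3 : C * (1 + |s0|) * 2 ^ (ε * ν) * WX Sg =
                C * ((1 + |s0|) * 2 ^ (ε * ν)) * WX Sg := by ring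
              rw [h3]
              exact mul_le_mul_of_nonneg_left this (by positivity)
            · refine hI.trans (ENNReal.ofReal_le_ofReal ?_)
              have h3 : 4 * C * (1 + |s0|) * 2 ^ (ε * ν) * WX Sd = 4 * (C * D) * WX Sd := by
                rw [hD]
                ring
              rw [h3]
              nlinarith [mul_pos hC0 hD0]
        _ ≤ ENNReal.ofReal (4 * C * (1 + |s0|) * 2 ^ (ε * ν) * WX S) := by
            rw [h2q, ← ENNReal.ofReal_add (by positivity) (by positivity),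
              ← ENNReal.ofReal_mul (by positivity)]
            refine ENNReal.ofReal_le_ofReal ?_
            have h4 : (2 : ℝ) ^ (q1 - 1) ≤ 2 := by
              calc (2 : ℝ) ^ (q1 - 1) ≤ 2 ^ (1 : ℝ) :=
                    Real.rpow_le_rpow_of_exponent_le (by norm_num) (by linarith)
                _ = 2 := Real.rpow_one 2
            have h5 : 4 * C * (1 + |s0|) * 2 ^ (ε * ν) * WX S = 2 * (C * D * WX S + C * D * WX S) := by
              rw [hD]
              ring
            rw [h5]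
            exact mul_le_mul_of_nonneg_right h4 (by positivity)

end Pool.LibCA93
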