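import Pool.Agent.LibCA93.D11
import Pool.Agent.LibST49.A1
import Pool.Agent.LibSR53.C1

/-
PLAN (D12, MEDIUM/STRONG). dx_of_dens: S2 = S.image Lam; rad (Lam p) = p.2, so kp (Lam p) is the k with p in sc k S (p.2 >= 1). For p in sc k S and t <= 2^(k+20): ‖Lam q - Lam p‖ <= t gives dist q p <= 3t; i with 2^(i-1) < 3t <= 2^i: if i <= k then Dens gives <= u 2^i <= 6 u t; else
count_ball with j = i - k <= 23: <= C u 2^k 2^(4 j) <= C' u t. (Lam is injective: dist_le_Lam.) large2: split S into the classes of (kp mod 3, bi mod 3 in each coordinate): at most 243 classes (Int.emod in {0,1,2}); each class T, T2 = T.image Lam, satisfies Cg ν (C_d u) T2 J'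
with J' large (2^(10000 ν 2^J') >= all radii; J' >= 1; ν >= 1), sep: dist_le_Lam gives ‖Lam p - Lam q‖ >= 1/3. C_d u <= 2^(δν) is assumed in the form u <= c 2^(δν) and 1 <= u; also C_d u <= 2^ν (δ <= 1 may be assumed; Cg.u1: C_d >= 1). Fb b s0 p = p.2^(nu 3) Kb b (Lam(x,-s0) - Lam p),
nu 3 = 1: = 2 γ' 2^kp Kb, γ' = p.2/(2 2^kp) <= 1. So SUM_(p in T) γ p Fb b s0 p = 2 FX b s0 T2 γ'' (γ'' (Lam p) = γ p p.2/2^(kp+1), through an inverse of Lam). WX T2 = SUM 2^(2 kp) <= SUM p.2^2 = wt T. |SUM over 243 classes|^q1 <= 243^(q1-1) SUM.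
-/

set_option autoImplicit false

noncomputable section

open MeasureTheory Metric Set Filter

namespace Pool.LibCA93

open Pool.LibSR53 Pool.LibST49

private theorem D12_kp {p : P 3} (h : 1 ≤ p.2) (k : ℕ) :
    kp (Lam p) = k ↔ (2 : ℝ) ^ k ≤ p.2 ∧ p.2 < 2 ^ (k + 1) := by
  unfold kp
  rw [rad_Lam]
  have hf : ⌊p.2⌋₊ ≠ 0 := by
    have h1 : 1 ≤ ⌊p.2⌋₊ := by
      rw [Nat.le_floor_iff (by linarith)]
      simpa using h
    omega
  rw [Nat.log_eq_iff (Or.inr ⟨by norm_num, hf⟩)]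
  rw [Nat.le_floor_iff (by linarith), Nat.floor_lt (by linarith)]
  push_cast
  rfl

private theorem D12_inj : Function.Injective (Lam : P 3 → X 2) := by
  intro p q h
  have h1 := dist_le_Lam (m := 2) p q
  rw [h, sub_self, norm_zero, mul_zero] at h1
  exact dist_le_zero.1 h1

theorem dx_of_dens : ∃ C : ℝ, 1 ≤ C ∧ ∀ (u : ℝ) (S : Finset (P 3)), 0 ≤ u → Sp S → Dens u S →
    DX (C * u) (open scoped Classical in S.image Lam) := by
  classical
  obtain ⟨C, hC, H⟩ := count_ball 3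
  have hC88 : 0 < 6 * C * 2 ^ 88 := by positivity
  refine ⟨6 + 6 * C * 2 ^ 88, by linarith, ?_⟩
  intro u S hu hS hD k p' hp' t ht1 ht2
  have hp'' := Finset.mem_filter.1 hp'
  obtain ⟨p, hpS, rfl⟩ := Finset.mem_image.1 hp''.1
  have hp1 := hS.one_le p hpS
  have hk := (D12_kp hp1 k).1 hp''.2
  have hpk : p ∈ sc k S := Finset.mem_filter.2 ⟨hpS, hk⟩
  obtain ⟨n, hn1, hn2⟩ := exists_nat_pow_near (x := 3 * t) (y := (2 : ℝ)) (by linarith)
    (by norm_num)
  have hsub : ((scX k (S.image Lam)).filter (fun q => ‖q - Lam p‖ ≤ t)) ⊆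
      (nb (sc k S) p ((2 : ℝ) ^ (n + 1))).image Lam := by
    intro q' hq'
    obtain ⟨h1, h2⟩ := Finset.mem_filter.1 hq'
    obtain ⟨h3, h4⟩ := Finset.mem_filter.1 h1
    obtain ⟨q, hqS, rfl⟩ := Finset.mem_image.1 h3
    refine Finset.mem_image.2 ⟨q, ?_, rfl⟩
    refine Finset.mem_filter.2 ⟨Finset.mem_filter.2 ⟨hqS, (D12_kp (hS.one_le q hqS) k).1 h4⟩, ?_⟩
    exact (dist_le_Lam q p).trans (by linarith)
  have hcard : (((scX k (S.image Lam)).filter (fun q => ‖q - Lam p‖ ≤ t)).card : ℝ) ≤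
      ((nb (sc k S) p ((2 : ℝ) ^ (n + 1))).card : ℝ) := by
    exact_mod_cast (Finset.card_le_card hsub).trans Finset.card_image_le
  have h6 : (2 : ℝ) ^ (n + 1) ≤ 6 * t := by
    rw [pow_succ]
    linarith
  have hut : 0 ≤ u * t := mul_nonneg hu (by linarith)
  have hn3 : n < k + 22 := by
    have h7 : (2 : ℝ) ^ n < 2 ^ (k + 22) := by
      calc (2 : ℝ) ^ n ≤ 3 * t := hn1
        _ ≤ 3 * 2 ^ (k + 20) := by linarith
        _ < 4 * 2 ^ (k + 20) := by
            have : (0 : ℝ) < 2 ^ (k + 20) := by positivity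
            linarith
        _ = 2 ^ (k + 22) := by
            rw [show k + 22 = (k + 20) + 2 from rfl, pow_add _ (k + 20) 2]
            ring
    exact (pow_lt_pow_iff_right₀ (by norm_num : (1 : ℝ) < 2)).1 h7
  refine hcard.trans ?_
  by_cases hik : n + 1 ≤ k
  · calc ((nb (sc k S) p ((2 : ℝ) ^ (n + 1))).card : ℝ) ≤ u * 2 ^ (n + 1) :=
          hD k p hpk (n + 1) hik
      _ ≤ u * (6 * t) := mul_le_mul_of_nonneg_left h6 hu
      _ = 6 * (u * t) := by ring
      _ ≤ (6 + 6 * C * 2 ^ 88) * (u * t) := by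
          refine mul_le_mul_of_nonneg_right ?_ hut
          linarith
      _ = _ := by ring
  · obtain ⟨j, hj⟩ := Nat.exists_eq_add_of_le (show k ≤ n + 1 by omega)
    have hj22 : j ≤ 22 := by omega
    rw [hj]
    rw [hj] at h6
    calc ((nb (sc k S) p ((2 : ℝ) ^ (k + j))).card : ℝ) ≤ C * u * 2 ^ k * 2 ^ (j * (3 + 1)) :=
          H k u S hu hD p j
      _ ≤ C * u * 2 ^ (k + j) * 2 ^ 88 := by
          have h8 : (2 : ℝ) ^ k ≤ 2 ^ (k + j) := pow_le_pow_right₀ (by norm_num) (by omega)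
          have h9 : (2 : ℝ) ^ (j * (3 + 1)) ≤ 2 ^ 88 := pow_le_pow_right₀ (by norm_num) (by omega)
          have h10 : 0 ≤ C * u := by positivity
          gcongr
      _ ≤ C * u * (6 * t) * 2 ^ 88 := by
          have h10 : 0 ≤ C * u := by positivity
          gcongr
      _ = (6 * C * 2 ^ 88) * (u * t) := by ring
      _ ≤ (6 + 6 * C * 2 ^ 88) * (u * t) := by
          refine mul_le_mul_of_nonneg_right ?_ hut
          linarith
      _ = _ := by ring

/-- residue class of a point -/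
private def D12_cls (ν : ℕ) (p : P 3) : ℕ × (Fin 4 → ℤ) :=
  (kp (Lam p) % 3, fun i => bi ν (Lam p) i % 3)

private def D12_F : Finset (ℕ × (Fin 4 → ℤ)) :=
  Finset.range 3 ×ˢ Fintype.piFinset (fun _ => Finset.Ico (0 : ℤ) 3)

private theorem D12_cls_mem (ν : ℕ) (p : P 3) : D12_cls ν p ∈ D12_F := by
  unfold D12_cls D12_F
  refine Finset.mem_product.2 ⟨Finset.mem_range.2 (Nat.mod_lt _ (by norm_num)), ?_⟩
  refine Fintype.mem_piFinset.2 fun i => ?_
  exact Finset.mem_Ico.2 ⟨Int.emod_nonneg _ (by norm_num), Int.emod_lt_of_pos _ (by norm_num)⟩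

private theorem D12_F_card : D12_F.card = 243 := by
  unfold D12_F
  rw [Finset.card_product, Fintype.card_piFinset]
  simp

/-- coefficients for the points Lam p -/
private def D12_gam (T : Finset (P 3)) (γ : P 3 → ℂ) (Z : X 2) : ℂ :=
  open scoped Classical in
  if Z ∈ T.image Lam then
    γ (Function.invFun (Lam : P 3 → X 2) Z) * ((rad Z / 2 ^ (kp Z + 1) : ℝ) : ℂ) else 0

private theorem D12_gam_le {T : Finset (P 3)} (hT : ∀ p ∈ T, 1 ≤ p.2) {γ : P 3 → ℂ}
    (hγ : ∀ p, ‖γ p‖ ≤ 1) (Z : X 2) : ‖D12_gam T γ Z‖ ≤ 1 := by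
  classical
  unfold D12_gam
  split_ifs with h
  · obtain ⟨p, hp, rfl⟩ := Finset.mem_image.1 h
    have h1 := hT p hp
    have h2 := (D12_kp h1 (kp (Lam p))).1 rfl
    rw [norm_mul, Complex.norm_real, Real.norm_eq_abs, rad_Lam, abs_of_nonneg (by positivity)]
    have h3 : p.2 / 2 ^ (kp (Lam p) + 1) ≤ 1 := by
      rw [div_le_one (by positivity)]
      exact h2.2.le
    have h4 : 0 ≤ p.2 / 2 ^ (kp (Lam p) + 1) := by positivity
    calc _ ≤ 1 * (1 : ℝ) := mul_le_mul (hγ _) h3 h4 zero_le_one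
      _ = 1 := one_mul 1
  · simp

private theorem D12_nu : nu (2 + 1) = 1 := by
  unfold nu
  norm_num

private theorem D12_sum {T : Finset (P 3)} (b : V 2 → ℂ) (s0 : ℝ) (γ : P 3 → ℂ) (x : E 3) :
    ∑ p ∈ T, γ p * Fb b s0 p x =
      2 * FX b s0 (open scoped Classical in T.image Lam) (D12_gam T γ) x := by
  classical
  unfold FX
  rw [Finset.sum_image (fun p _ q _ h => D12_inj h), Finset.mul_sum]
  refine Finset.sum_congr rfl fun p hp => ?_
  unfold Fb D12_gam
  rw [if_pos (Finset.mem_image_of_mem _ hp), Function.leftInverse_invFun D12_inj p, rad_Lam,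
    D12_nu, Real.rpow_one]
  have h2 : (2 : ℂ) ^ (kp (Lam p) + 1) = 2 * 2 ^ (kp (Lam p)) := by ring
  have h3 : (2 : ℂ) ^ (kp (Lam p)) ≠ 0 := pow_ne_zero _ two_ne_zero
  push_cast
  rw [h2]
  field_simp

private theorem D12_wt {T : Finset (P 3)} (hT : ∀ p ∈ T, 1 ≤ p.2) :
    WX (open scoped Classical in T.image Lam) ≤ wt T := by
  classical
  unfold WX wt
  rw [Finset.sum_image (fun p _ q _ h => D12_inj h)]
  refine Finset.sum_le_sum fun p hp => ?_
  have h2 := (D12_kp (hT p hp) (kp (Lam p))).1 rfl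
  rw [mul_comm 2, pow_mul]
  exact pow_le_pow_left₀ (by positivity) h2.1 2

/-- the sum over the classes -/
private theorem D12_rpow {ι : Type} (F : Finset ι) (f : ι → ENNReal) {q : ℝ} (hq : 1 ≤ q) :
    (∑ i ∈ F, f i) ^ q ≤ (F.card : ENNReal) ^ (q - 1) * ∑ i ∈ F, f i ^ q :=
  ENNReal.rpow_sum_le_const_mul_sum_rpow F f hq

theorem large2 {v0 v1 : ℝ} {b : V 2 → ℂ} (hb : Sb v0 v1 1 b)
    (hC : ∀ q : ℝ, 2 < q → q < 4 → CDec 2 q) (q1 : ℝ) (h1 : 1 < q1) (h2 : q1 < 4 / 3) :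
    ∃ δ : ℝ, 0 < δ ∧ ∀ ε : ℝ, 0 < ε → ∃ (C c : ℝ) (ν0 : ℕ), 0 < C ∧ 0 < c ∧
    ∀ (ν : ℕ) (u : ℝ) (S : Finset (P 3)), ν0 ≤ ν → 1 ≤ u → u ≤ c * (2 : ℝ) ^ (δ * ν) →
    Sp S → Dens u S → (∀ p ∈ S, (2 : ℝ) ^ (40300 * ν) ≤ p.2) →
    ∀ γ : P 3 → ℂ, (∀ p, ‖γ p‖ ≤ 1) → ∀ s0 : ℝ,
    ∫⁻ x, ‖∑ p ∈ S, γ p * Fb b s0 p x‖ₑ ^ q1 ≤
      ENNReal.ofReal (C * (1 + |s0|) * 2 ^ (ε * ν) * wt S) := by
  classical
  obtain ⟨δ, hδ, hcg⟩ := cg_strong hb hC q1 h1 h2
  refine ⟨min δ 1, lt_min hδ one_pos, fun ε hε => ?_⟩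
  obtain ⟨C, ν0, hC0, H⟩ := hcg ε hε
  obtain ⟨Cd, hCd, hdx⟩ := dx_of_dens
  have hCd0 : 0 < Cd := by linarith
  refine ⟨243 ^ (q1 - 1) * 2 ^ q1 * C, 1 / Cd, max ν0 1, by positivity, by positivity, ?_⟩
  intro ν u S hν hu1 hu2 hS hD hr γ hγ s0
  have hν0 : ν0 ≤ ν := (le_max_left _ _).trans hν
  have hν1 : 1 ≤ ν := (le_max_right _ _).trans hν
  have hν1' : (1 : ℝ) ≤ ν := by exact_mod_cast hν1
  have huC : Cd * u ≤ (2 : ℝ) ^ (min δ 1 * ν) := by
    have h3 := mul_le_mul_of_nonneg_left hu2 hCd0.le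
    calc Cd * u ≤ Cd * (1 / Cd * (2 : ℝ) ^ (min δ 1 * ν)) := h3
      _ = _ := by field_simp
  have huδ : Cd * u ≤ (2 : ℝ) ^ (δ * ν) := by
    refine huC.trans (Real.rpow_le_rpow_of_exponent_le (by norm_num) ?_)
    exact mul_le_mul_of_nonneg_right (min_le_left _ _) (by linarith)
  have huν : Cd * u ≤ (2 : ℝ) ^ ν := by
    refine huC.trans ?_
    rw [← Real.rpow_natCast]
    refine Real.rpow_le_rpow_of_exponent_le (by norm_num) ?_
    calc min δ 1 * (ν : ℝ) ≤ 1 * ν := mul_le_mul_of_nonneg_right (min_le_right _ _) (by linarith)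
      _ = ν := one_mul _
  -- radii are bounded
  obtain ⟨N, hN⟩ : ∃ N : ℕ, ∀ p ∈ S, p.2 ≤ (2 : ℝ) ^ N := by
    obtain ⟨M, hM⟩ : ∃ M : ℝ, ∀ p ∈ S, p.2 ≤ M := by
      obtain ⟨M, hM⟩ := (S.image Prod.snd).bddAbove
      refine ⟨M, fun p hp => hM ?_⟩
      exact_mod_cast Finset.mem_image_of_mem Prod.snd hp
    obtain ⟨N, hN⟩ := pow_unbounded_of_one_lt M (by norm_num : (1 : ℝ) < 2)
    exact ⟨N, fun p hp => (hM p hp).trans hN.le⟩
  have hCg : ∀ c : ℕ × (Fin 4 → ℤ),
      Cg ν (Cd * u) ((S.filter (fun p => D12_cls ν p = c)).image Lam) (N + 1) := by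
    intro c
    set T := S.filter (fun p => D12_cls ν p = c) with hTdef
    have hTS : ∀ p ∈ T, p ∈ S := fun p hp => (Finset.mem_filter.1 hp).1
    have hTS' : T ⊆ S := Finset.filter_subset _ _
    refine ⟨hν1, ?_, huν, ?_, ?_, ?_, ?_, ?_, ?_, by omega⟩
    · nlinarith
    · intro p' hp' q' hq' hpq
      obtain ⟨p, hp, rfl⟩ := Finset.mem_image.1 hp'
      obtain ⟨q, hq, rfl⟩ := Finset.mem_image.1 hq'
      have h3 : p ≠ q := fun h => hpq (by rw [h])
      have h4 := hS.sep p (hTS p hp) q (hTS q hq) h3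
      have h5 := dist_le_Lam (m := 2) p q
      linarith
    · intro p' hp'
      obtain ⟨p, hp, rfl⟩ := Finset.mem_image.1 hp'
      rw [rad_Lam]
      exact hr p (hTS p hp)
    · refine ⟨c.1, fun p' hp' => ?_⟩
      obtain ⟨p, hp, rfl⟩ := Finset.mem_image.1 hp'
      have h3 := (Finset.mem_filter.1 hp).2
      exact congrArg Prod.fst h3
    · refine ⟨c.2, fun p' hp' i => ?_⟩
      obtain ⟨p, hp, rfl⟩ := Finset.mem_image.1 hp'
      have h3 := (Finset.mem_filter.1 hp).2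
      exact congrFun (congrArg Prod.snd h3) i
    · refine hdx u T (by linarith) ⟨fun p hp => hS.one_le p (hTS p hp),
        fun p hp q hq h => hS.sep p (hTS p hp) q (hTS q hq) h⟩ ?_
      intro k p hp i hik
      have hp' : p ∈ sc k S := by
        have h3 := Finset.mem_filter.1 hp
        exact Finset.mem_filter.2 ⟨hTS p h3.1, h3.2⟩
      refine le_trans ?_ (hD k p hp' i hik)
      have h4 : nb (sc k T) p ((2 : ℝ) ^ i) ⊆ nb (sc k S) p ((2 : ℝ) ^ i) := by
        intro q hq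
        have h5 := Finset.mem_filter.1 hq
        have h6 := Finset.mem_filter.1 h5.1
        exact Finset.mem_filter.2 ⟨Finset.mem_filter.2 ⟨hTS q h6.1, h6.2⟩, h5.2⟩
      exact_mod_cast Finset.card_le_card h4
    · intro p' hp'
      obtain ⟨p, hp, rfl⟩ := Finset.mem_image.1 hp'
      rw [rad_Lam]
      refine (hN p (hTS p hp)).trans ?_
      refine pow_le_pow_right₀ (by norm_num) ?_
      have h3 : N + 1 < 2 ^ (N + 1) := Nat.lt_two_pow_self
      nlinarith
  have hmeas : ∀ (T : Finset (X 2)) (g : X 2 → ℂ),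
      Continuous (fun x : E 3 => FX b s0 T g x) := by
    intro T g
    unfold FX
    refine continuous_finsetSum _ fun p _ => ?_
    refine continuous_const.mul (continuous_const.mul ?_)
    have h3 : Continuous (fun x : E 3 => (Lam (x, -s0) : X 2) - p) :=
      (continuous_Lam.comp (continuous_id.prodMk continuous_const)).sub continuous_const
    exact (Kb_cont hb).1.comp h3
  have hwt : ∑ c ∈ D12_F, WX ((S.filter (fun p => D12_cls ν p = c)).image Lam) ≤ wt S := by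
    calc ∑ c ∈ D12_F, WX ((S.filter (fun p => D12_cls ν p = c)).image Lam)
        ≤ ∑ c ∈ D12_F, wt (S.filter (fun p => D12_cls ν p = c)) := by
          refine Finset.sum_le_sum fun c _ => ?_
          exact D12_wt fun p hp => hS.one_le p (Finset.mem_filter.1 hp).1
      _ = wt S := by
          unfold wt
          exact Finset.sum_fiberwise_of_maps_to (fun p _ => D12_cls_mem ν p) _
  have hsplit : ∀ x : E 3, ∑ p ∈ S, γ p * Fb b s0 p x =
      ∑ c ∈ D12_F, 2 * FX b s0 ((S.filter (fun p => D12_cls ν p = c)).image Lam)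
        (D12_gam (S.filter (fun p => D12_cls ν p = c)) γ) x := by
    intro x
    rw [← Finset.sum_fiberwise_of_maps_to (fun p (_ : p ∈ S) => D12_cls_mem ν p)]
    refine Finset.sum_congr rfl fun c _ => ?_
    exact D12_sum b s0 γ x
  have hq0 : 0 < q1 := by linarith
  have hq1 : 1 ≤ q1 := h1.le
  calc ∫⁻ x, ‖∑ p ∈ S, γ p * Fb b s0 p x‖ₑ ^ q1
      ≤ ∫⁻ x, (243 : ENNReal) ^ (q1 - 1) * ∑ c ∈ D12_F, (2 : ENNReal) ^ q1 *
          ‖FX b s0 ((S.filter (fun p => D12_cls ν p = c)).image Lam)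
            (D12_gam (S.filter (fun p => D12_cls ν p = c)) γ) x‖ₑ ^ q1 := by
        refine lintegral_mono fun x => ?_
        rw [hsplit x]
        refine (ENNReal.rpow_le_rpow (enorm_sum_le _ _) hq0.le).trans ?_
        refine (D12_rpow _ _ hq1).trans ?_
        rw [D12_F_card]
        refine mul_le_mul' (le_of_eq (by norm_num)) (Finset.sum_le_sum fun c _ => ?_)
        rw [enorm_mul, ENNReal.mul_rpow_of_nonneg _ _ hq0.le]
        refine mul_le_mul' (le_of_eq ?_) le_rfl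
        congr 1
        rw [← ofReal_norm]
        simp
    _ = (243 : ENNReal) ^ (q1 - 1) * ∑ c ∈ D12_F, (2 : ENNReal) ^ q1 *
          ∫⁻ x, ‖FX b s0 ((S.filter (fun p => D12_cls ν p = c)).image Lam)
            (D12_gam (S.filter (fun p => D12_cls ν p = c)) γ) x‖ₑ ^ q1 := by
        have hm : ∀ c : ℕ × (Fin 4 → ℤ), Measurable (fun x : E 3 =>
            ‖FX b s0 ((S.filter (fun p => D12_cls ν p = c)).image Lam)
              (D12_gam (S.filter (fun p => D12_cls ν p = c)) γ) x‖ₑ ^ q1) := fun c =>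
          (hmeas _ _).measurable.enorm.pow_const q1
        rw [lintegral_const_mul _ (Finset.measurable_fun_sum _ fun c _ => (hm c).const_mul _),
          lintegral_finsetSum _ (fun c _ => (hm c).const_mul _)]
        congr 1
        refine Finset.sum_congr rfl fun c _ => ?_
        rw [lintegral_const_mul _ (hm c)]
    _ ≤ (243 : ENNReal) ^ (q1 - 1) * ∑ c ∈ D12_F, (2 : ENNReal) ^ q1 *
          ENNReal.ofReal (C * (1 + |s0|) * 2 ^ (ε * ν) *
            WX ((S.filter (fun p => D12_cls ν p = c)).image Lam)) := by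
        refine mul_le_mul' le_rfl (Finset.sum_le_sum fun c _ => mul_le_mul' le_rfl ?_)
        exact H ν (Cd * u) _ (N + 1) hν0 huδ (hCg c) _
          (D12_gam_le (fun p hp => hS.one_le p (Finset.mem_filter.1 hp).1) hγ) s0
    _ = ENNReal.ofReal (243 ^ (q1 - 1) * 2 ^ q1 * (C * (1 + |s0|) * 2 ^ (ε * ν) *
          ∑ c ∈ D12_F, WX ((S.filter (fun p => D12_cls ν p = c)).image Lam))) := by
        have hWX : ∀ T : Finset (X 2), 0 ≤ WX T := fun T => by
          unfold WX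
          exact Finset.sum_nonneg fun _ _ => by positivity
        have e1 : (243 : ENNReal) ^ (q1 - 1) = ENNReal.ofReal (243 ^ (q1 - 1)) := by
          rw [← ENNReal.ofReal_rpow_of_pos (by norm_num)]
          norm_num
        have e2 : (2 : ENNReal) ^ q1 = ENNReal.ofReal (2 ^ q1) := by
          rw [← ENNReal.ofReal_rpow_of_pos (by norm_num)]
          norm_num
        rw [← Finset.mul_sum, ← ENNReal.ofReal_sum_of_nonneg
          (fun c _ => mul_nonneg (by positivity) (hWX _)), ← Finset.mul_sum, e1, e2,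
          ← ENNReal.ofReal_mul (by positivity), ← ENNReal.ofReal_mul (by positivity), ← mul_assoc]
    _ ≤ ENNReal.ofReal (243 ^ (q1 - 1) * 2 ^ q1 * C * (1 + |s0|) * 2 ^ (ε * ν) * wt S) := by
        refine ENNReal.ofReal_le_ofReal ?_
        calc 243 ^ (q1 - 1) * 2 ^ q1 * (C * (1 + |s0|) * 2 ^ (ε * ν) *
              ∑ c ∈ D12_F, WX ((S.filter (fun p => D12_cls ν p = c)).image Lam))
            = (243 ^ (q1 - 1) * 2 ^ q1 * C * (1 + |s0|) * 2 ^ (ε * ν)) *
              ∑ c ∈ D12_F, WX ((S.filter (fun p => D12_cls ν p = c)).image Lam) := by ring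
          _ ≤ _ := mul_le_mul_of_nonneg_left hwt (by positivity)

end Pool.LibCA93
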