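import Pool.Agent.LibCA93.D12
import Pool.Agent.LibST49.S1

/-
PLAN (D13, MEDIUM). pS 2 = 4/3. Given q1 in (1, 4/3), ε. Let δ, c, ν0 from large2 with ε' := small (ε' 2/δ <= ε/4). q' in (2,4) with q1 < q'/(q'-1) and 40300 (ex0 2 q' + ε') 2/δ <= ε/4 (as in ST49_S4). Given u >= 1 let ν be the least natural number >= ν0, 1 with u <= c 2^(δν); then
2^(δν) <= C u, so 2^ν <= C u^(1/δ). S = {p.2 >= 2^(40300 ν)} + SUM_(k < 40300 ν) sc k S (p.2 >= 1). large2 for the first set (Sp, Dens pass to subsets), one_scale for the others: |SUM of (40300 ν + 1) terms|^q1 <= (40300ν+1)^(q1-1) SUM; everything <= C (1+|s0|)^(m/2 = 1)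
(40300ν+1)^q1 2^(ν 40300 (ex0+ε')) .. wt S <= C (1+|s0|) u^ε wt S. N = 1.
-/

set_option autoImplicit false

noncomputable section

open MeasureTheory Metric Set Filter

namespace Pool.LibCA93

open Pool.LibSR53 Pool.LibST49

private theorem D13_sc {d : ℕ} {k : ℕ} {S : Finset (P d)} {p : P d} :
    p ∈ sc k S ↔ p ∈ S ∧ ((2 : ℝ) ^ k ≤ p.2 ∧ p.2 < (2 : ℝ) ^ (k + 1)) := by
  unfold sc
  simp only [Finset.mem_filter]

open scoped Classical in
private theorem D13_split {d : ℕ} (S : Finset (P d)) (hS : ∀ p ∈ S, 1 ≤ p.2) (κ : ℕ)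
    {M : Type*} [AddCommMonoid M] (f : P d → M) :
    ∑ p ∈ S, f p = ∑ p ∈ S.filter (fun p => (4 : ℝ) ^ κ ≤ p.2), f p +
      ∑ k ∈ Finset.range (2 * κ), ∑ p ∈ sc k S, f p := by
  rw [← Finset.sum_filter_add_sum_filter_not S (fun p => (4 : ℝ) ^ κ ≤ p.2)]
  congr 1
  have h4 : (4 : ℝ) ^ κ = 2 ^ (2 * κ) := by
    rw [pow_mul]
    norm_num
  rw [← Finset.sum_biUnion]
  · refine Finset.sum_congr ?_ fun _ _ => rfl
    ext p
    simp only [Finset.mem_filter, Finset.mem_biUnion, Finset.mem_range, D13_sc, not_le]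
    constructor
    · rintro ⟨hp, hlt⟩
      obtain ⟨k, hk1, hk2⟩ := exists_nat_pow_near (hS p hp) (one_lt_two : (1 : ℝ) < 2)
      refine ⟨k, ?_, hp, hk1, hk2⟩
      rw [h4] at hlt
      exact (pow_lt_pow_iff_right₀ (one_lt_two : (1 : ℝ) < 2)).1 (hk1.trans_lt hlt)
    · rintro ⟨k, hk, hp, hk1, hk2⟩
      refine ⟨hp, hk2.trans_le ?_⟩
      rw [h4]
      exact pow_le_pow_right₀ one_le_two hk
  · intro i _ j _ hij
    rw [Function.onFun, Finset.disjoint_left]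
    intro p hp hq
    rw [D13_sc] at hp hq
    apply hij
    have h1 : i < j + 1 :=
      (pow_lt_pow_iff_right₀ (one_lt_two : (1 : ℝ) < 2)).1 (hp.2.1.trans_lt hq.2.2)
    have h2 : j < i + 1 :=
      (pow_lt_pow_iff_right₀ (one_lt_two : (1 : ℝ) < 2)).1 (hq.2.1.trans_lt hp.2.2)
    omega

private theorem D13_lin (ε q : ℝ) (hε : 0 < ε) (hq : 1 < q) : ∃ D : ℝ, 0 < D ∧ ∀ κ : ℕ,
    (2 * (κ : ℝ) + 1) ^ (q - 1) ≤ D * (2 : ℝ) ^ ((κ : ℝ) * (ε / 2)) := by
  set δ := ε / 2 / (q - 1) with hδ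
  have hq1 : 0 < q - 1 := by linarith
  have hδ0 : 0 < δ := by positivity
  have hr : (1 : ℝ) < 2 ^ δ := Real.one_lt_rpow one_lt_two hδ0
  set r := (2 : ℝ) ^ δ with hrd
  have hr1 : 0 < r - 1 := by linarith
  refine ⟨(1 + 2 / (r - 1)) ^ (q - 1), by positivity, fun κ => ?_⟩
  have h1 : 2 * (κ : ℝ) + 1 ≤ (1 + 2 / (r - 1)) * r ^ κ := by
    have h2 : 1 + (κ : ℝ) * (r - 1) ≤ r ^ κ := by
      have := one_add_mul_le_pow (show (-2 : ℝ) ≤ r - 1 by linarith) κ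
      simpa using this
    have h3 : (1 + 2 / (r - 1)) * (1 + (κ : ℝ) * (r - 1)) =
        1 + (κ : ℝ) * (r - 1) + 2 / (r - 1) + 2 * κ := by
      field_simp
      ring
    have h4 : (1 + 2 / (r - 1)) * (1 + (κ : ℝ) * (r - 1)) ≤ (1 + 2 / (r - 1)) * r ^ κ :=
      mul_le_mul_of_nonneg_left h2 (by positivity)
    have h5 : 0 ≤ (κ : ℝ) * (r - 1) := by positivity
    have h6 : 0 ≤ 2 / (r - 1) := by positivity
    linarith
  calc (2 * (κ : ℝ) + 1) ^ (q - 1) ≤ ((1 + 2 / (r - 1)) * r ^ κ) ^ (q - 1) :=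
        Real.rpow_le_rpow (by positivity) h1 hq1.le
    _ = (1 + 2 / (r - 1)) ^ (q - 1) * (2 : ℝ) ^ ((κ : ℝ) * (ε / 2)) := by
        rw [Real.mul_rpow (by positivity) (by positivity)]
        congr 1
        rw [hrd, ← Real.rpow_natCast, ← Real.rpow_mul (by positivity), ← Real.rpow_mul (by positivity)]
        congr 1
        rw [hδ]
        field_simp

private theorem D13_exp (q1 ε : ℝ) (h1 : q1 < 4 / 3) (hε : 0 < ε) :
    ∃ q : ℝ, 2 < q ∧ q < 4 ∧ q1 < q / (q - 1) ∧ ex0 2 q ≤ ε := by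
  have hc1 : ContinuousAt (fun q : ℝ => q / (q - 1)) 4 :=
    continuousAt_id.div (continuousAt_id.sub continuousAt_const) (by norm_num)
  have hc2 : ContinuousAt (fun q : ℝ => ex0 2 q) 4 := by
    unfold ex0
    exact continuousAt_const.add (((((continuousAt_const.mul continuousAt_id).div_const 2).add
      continuousAt_const)).div (continuousAt_id.sub continuousAt_const) (by norm_num))
  have hv2 : ex0 2 4 = 0 := by
    unfold ex0
    norm_num
  have e1 : ∀ᶠ q in nhds (4 : ℝ), q1 < q / (q - 1) :=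
    hc1.eventually (lt_mem_nhds (by change q1 < 4 / (4 - 1); linarith))
  have e2 : ∀ᶠ q in nhds (4 : ℝ), ex0 2 q < ε :=
    hc2.eventually (gt_mem_nhds (by change ex0 2 4 < ε; rw [hv2]; exact hε))
  have e3 : ∀ᶠ q in nhds (4 : ℝ), 2 < q := lt_mem_nhds (by norm_num)
  have e : ∀ᶠ q in nhdsWithin (4 : ℝ) (Iio 4), (q1 < q / (q - 1) ∧ ex0 2 q < ε ∧ 2 < q) ∧ q < 4 :=
    ((e1.and (e2.and e3)).filter_mono nhdsWithin_le_nhds).and self_mem_nhdsWithin
  obtain ⟨q, ⟨h1, h2, h3⟩, h4⟩ := e.exists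
  exact ⟨q, h3, h4, h1, h2.le⟩

private theorem D13_nu (δ c : ℝ) (ν0 : ℕ) (hδ : 0 < δ) (hc : 0 < c) : ∃ B : ℝ, 0 < B ∧
    ∀ u : ℝ, 1 ≤ u → ∃ ν : ℕ, ν0 ≤ ν ∧ u ≤ c * (2 : ℝ) ^ (δ * ν) ∧ (2 : ℝ) ^ (δ * ν) ≤ B * u := by
  obtain ⟨r, hr⟩ : ∃ r : ℝ, r = (2 : ℝ) ^ δ := ⟨_, rfl⟩
  have hr1 : 1 < r := by
    rw [hr]
    exact Real.one_lt_rpow one_lt_two hδ
  have hpw : ∀ n : ℕ, (2 : ℝ) ^ (δ * n) = r ^ n := fun n => by
    rw [hr, Real.rpow_mul (by norm_num), Real.rpow_natCast]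
  obtain ⟨M, hM⟩ : ∃ M : ℝ, M = max 1 (1 / c) := ⟨_, rfl⟩
  have hM1 : 1 ≤ M := by rw [hM]; exact le_max_left _ _
  have hMc : 1 / c ≤ M := by rw [hM]; exact le_max_right _ _
  have hM0 : 0 < M := by linarith
  have hr0 : 0 < r := by linarith
  refine ⟨r * (M * r ^ ν0), by positivity, fun u hu => ?_⟩
  have hu0 : 0 < u := by linarith
  have hp1 : 1 ≤ r ^ ν0 := one_le_pow₀ hr1.le
  have hx1 : r ^ ν0 ≤ M * r ^ ν0 * u := by
    have : 1 * r ^ ν0 * 1 ≤ M * r ^ ν0 * u := by gcongr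
    linarith
  obtain ⟨n, hn1, hn2⟩ := exists_nat_pow_near (hp1.trans hx1) hr1
  refine ⟨n + 1, ?_, ?_, ?_⟩
  · exact ((pow_lt_pow_iff_right₀ hr1).1 (hx1.trans_lt hn2)).le
  · rw [hpw]
    have h3 : u / c ≤ M * r ^ ν0 * u := by
      have : 1 / c * 1 * u ≤ M * r ^ ν0 * u := by gcongr
      calc u / c = 1 / c * 1 * u := by ring
        _ ≤ _ := this
    have h4 : u / c ≤ r ^ (n + 1) := h3.trans hn2.le
    rw [div_le_iff₀ hc] at h4
    linarith
  · rw [hpw, pow_succ]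
    calc r ^ n * r ≤ M * r ^ ν0 * u * r := mul_le_mul_of_nonneg_right hn1 hr0.le
      _ = r * (M * r ^ ν0) * u := by ring

private theorem D13_dens {d : ℕ} {u : ℝ} {S T : Finset (P d)} (hT : T ⊆ S) (h : Dens u S) :
    Dens u T := by
  classical
  intro k p hp i hi
  have h1 : sc k T ⊆ sc k S := by
    intro q hq
    rw [D13_sc] at hq ⊢
    exact ⟨hT hq.1, hq.2⟩
  have h2 : nb (sc k T) p ((2 : ℝ) ^ i) ⊆ nb (sc k S) p ((2 : ℝ) ^ i) := by
    intro q hq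
    unfold nb at hq ⊢
    rw [Finset.mem_filter] at hq ⊢
    exact ⟨h1 hq.1, hq.2⟩
  refine le_trans ?_ (h k p (h1 hp) i hi)
  exact_mod_cast Finset.card_le_card h2

/-- strong type bounds for half wave atoms in R^3 in the whole Stein-Tomas range -/
theorem hst_two (hC : ∀ q : ℝ, 2 < q → q < 4 → CDec 2 q) : HST 2 := by
  classical
  intro v0 v1 b hb q1 hq1 hq1' ε hε
  have hpS : pS 2 = 4 / 3 := by
    unfold pS
    norm_num
  rw [hpS] at hq1'
  obtain ⟨δ, hδ, HL⟩ := large2 hb hC q1 hq1 hq1'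
  obtain ⟨C1, c, ν0, hC1, hc, H1⟩ := HL (ε * δ / 2) (by positivity)
  obtain ⟨q, hq2, hq4, hq1q, hex⟩ := D13_exp q1 (ε * δ / 161200) hq1' (by positivity)
  have hqm : q * ((2 : ℕ) : ℝ) ≤ 2 * (((2 : ℕ) : ℝ) + 2) := by
    push_cast
    linarith
  obtain ⟨C2, hC2, H2⟩ := one_scale (m := 2) (by norm_num) hb q hq2 hqm (hC q hq2 hq4)
    (ε * δ / 161200) (by positivity) q1 hq1 hq1q
  obtain ⟨D, hD, HD⟩ := D13_lin (ε * δ / 20150) q1 (by positivity) hq1
  obtain ⟨B, hB, HB⟩ := D13_nu δ c ν0 hδ hc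
  obtain ⟨e0, he0⟩ : ∃ e0 : ℝ, e0 = ex0 2 q + ε * δ / 161200 := ⟨_, rfl⟩
  rw [← he0] at H2
  have he : e0 ≤ ε * δ / 80600 := by rw [he0]; linarith
  refine ⟨D * (C1 + C2) * B ^ ε, 1, by positivity, by positivity, fun s0 S u hS hu hd γ hγ => ?_⟩
  obtain ⟨ν, hν0, hν1, hν2⟩ := HB u hu
  obtain ⟨κ, hκ⟩ : ∃ κ : ℕ, κ = 20150 * ν := ⟨_, rfl⟩
  have hκν : (κ : ℝ) = 20150 * ν := by rw [hκ]; push_cast; ring
  have hu0 : 0 < u := by linarith
  have hcont : ∀ p : P (2 + 1), Continuous (Fb b s0 p) := by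
    intro p
    unfold Fb
    refine continuous_const.mul ((Kb_cont hb).1.comp ?_)
    exact (continuous_Lam.comp (continuous_id.prodMk continuous_const)).sub continuous_const
  have hmeas : ∀ T : Finset (P (2 + 1)),
      Measurable (fun x => ‖∑ p ∈ T, γ p * Fb b s0 p x‖ₑ ^ q1) := by
    intro T
    have : Continuous (fun x => ∑ p ∈ T, γ p * Fb b s0 p x) :=
      continuous_finsetSum _ fun p _ => continuous_const.mul (hcont p)
    exact this.measurable.enorm.pow_const q1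
  obtain ⟨F, hF⟩ : ∃ F : Finset (P (2 + 1)), F = S.filter (fun p => (4 : ℝ) ^ κ ≤ p.2) :=
    ⟨_, rfl⟩
  obtain ⟨G, hG⟩ : ∃ G : ℕ → Finset (P (2 + 1)), G = fun k => if k < 2 * κ then sc k S else F :=
    ⟨_, rfl⟩
  have hsplit : ∀ x, ∑ p ∈ S, γ p * Fb b s0 p x =
      ∑ k ∈ Finset.range (2 * κ + 1), ∑ p ∈ G k, γ p * Fb b s0 p x := by
    intro x
    rw [D13_split S hS.one_le κ, Finset.sum_range_succ, add_comm, ← hF]
    congr 1
    · refine Finset.sum_congr rfl fun k hk => ?_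
      rw [hG]
      simp only [if_pos (Finset.mem_range.1 hk)]
    · rw [hG]
      simp only [lt_irrefl, if_false]
  have hE : ∀ k : ℕ, k ≤ 2 * κ → (2 : ℝ) ^ ((k : ℝ) * e0) ≤ 2 ^ ((ν : ℝ) * (ε * δ / 2)) := by
    intro k hk
    refine Real.rpow_le_rpow_of_exponent_le one_le_two ?_
    have hk' : (k : ℝ) ≤ 2 * κ := by exact_mod_cast hk
    calc (k : ℝ) * e0 ≤ k * (ε * δ / 80600) := mul_le_mul_of_nonneg_left he (by positivity)
      _ ≤ 2 * κ * (ε * δ / 80600) := mul_le_mul_of_nonneg_right hk' (by positivity)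
      _ = ν * (ε * δ / 2) := by rw [hκν]; ring
  obtain ⟨W, hW⟩ : ∃ W : ℝ, W = (C1 + C2) * (1 + |s0|) * (2 : ℝ) ^ ((ν : ℝ) * (ε * δ / 2)) :=
    ⟨_, rfl⟩
  have hs : (0 : ℝ) < 1 + |s0| := by positivity
  have hwt0 : ∀ T ⊆ S, 0 ≤ wt T := by
    intro T hT
    unfold wt
    exact Finset.sum_nonneg fun p hp => pow_nonneg (zero_le_one.trans (hS.one_le p (hT hp))) _
  have hFS : F ⊆ S := by rw [hF]; exact Finset.filter_subset _ _
  have hwt1 : wt S = wt F + ∑ k ∈ Finset.range (2 * κ), wt (sc k S) := by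
    rw [hF]
    exact D13_split S hS.one_le κ (fun p => p.2 ^ (2 + 1 - 1))
  have hscS : ∀ k, sc k S ⊆ S := fun k p hp => (D13_sc.1 hp).1
  have hwts0 : 0 ≤ ∑ k ∈ Finset.range (2 * κ), wt (sc k S) :=
    Finset.sum_nonneg fun k _ => hwt0 _ (hscS k)
  have hwtF : wt F ≤ wt S := by linarith
  have hwts : ∑ k ∈ Finset.range (2 * κ), wt (sc k S) ≤ wt S := by
    have := hwt0 F hFS
    linarith
  have hA : ∫⁻ x, ‖∑ p ∈ F, γ p * Fb b s0 p x‖ₑ ^ q1 ≤
      ENNReal.ofReal (C1 * (1 + |s0|) * 2 ^ ((ν : ℝ) * (ε * δ / 2)) * wt S) := by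
    have hSF : Sp F := ⟨fun p hp => hS.one_le p (hFS hp),
      fun p hp p' hp' => hS.sep p (hFS hp) p' (hFS hp')⟩
    have hrad : ∀ p ∈ F, (2 : ℝ) ^ (40300 * ν) ≤ p.2 := by
      intro p hp
      rw [hF, Finset.mem_filter] at hp
      refine le_trans (le_of_eq ?_) hp.2
      rw [hκ, show (40300 * ν) = 2 * (20150 * ν) by ring, pow_mul]
      norm_num
    have h3 := H1 ν u F hν0 hu hν1 hSF (D13_dens hFS hd) hrad γ hγ s0
    refine le_trans h3 (ENNReal.ofReal_le_ofReal ?_)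
    rw [mul_comm (ε * δ / 2) (ν : ℝ)]
    exact mul_le_mul_of_nonneg_left hwtF (by positivity)
  have hB' : ∀ k < 2 * κ, ∫⁻ x, ‖∑ p ∈ sc k S, γ p * Fb b s0 p x‖ₑ ^ q1 ≤
      ENNReal.ofReal (C2 * (1 + |s0|) * 2 ^ ((ν : ℝ) * (ε * δ / 2)) * wt (sc k S)) := by
    intro k hk
    refine (H2 k S hS γ hγ s0).trans (ENNReal.ofReal_le_ofReal ?_)
    have e1 : ((2 : ℕ) : ℝ) / 2 = 1 := by norm_num
    rw [e1, Real.rpow_one]
    refine mul_le_mul_of_nonneg_right ?_ (hwt0 _ (hscS k))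
    exact mul_le_mul_of_nonneg_left (hE k hk.le) (by positivity)
  have hsum : ∑ k ∈ Finset.range (2 * κ + 1), ∫⁻ x, ‖∑ p ∈ G k, γ p * Fb b s0 p x‖ₑ ^ q1 ≤
      ENNReal.ofReal (W * wt S) := by
    rw [Finset.sum_range_succ]
    have hG1 : G (2 * κ) = F := by
      rw [hG]
      simp only [lt_irrefl, if_false]
    rw [hG1]
    have hG2 : ∑ k ∈ Finset.range (2 * κ), ∫⁻ x, ‖∑ p ∈ G k, γ p * Fb b s0 p x‖ₑ ^ q1 ≤
        ENNReal.ofReal (C2 * (1 + |s0|) * 2 ^ ((ν : ℝ) * (ε * δ / 2)) * wt S) := by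
      calc ∑ k ∈ Finset.range (2 * κ), ∫⁻ x, ‖∑ p ∈ G k, γ p * Fb b s0 p x‖ₑ ^ q1
          ≤ ∑ k ∈ Finset.range (2 * κ), ENNReal.ofReal (C2 * (1 + |s0|) *
            2 ^ ((ν : ℝ) * (ε * δ / 2)) * wt (sc k S)) := by
            refine Finset.sum_le_sum fun k hk => ?_
            have hk' := Finset.mem_range.1 hk
            have : G k = sc k S := by
              rw [hG]
              simp only [if_pos hk']
            rw [this]
            exact hB' k hk'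
        _ = ENNReal.ofReal (∑ k ∈ Finset.range (2 * κ), C2 * (1 + |s0|) *
            2 ^ ((ν : ℝ) * (ε * δ / 2)) * wt (sc k S)) := by
            rw [ENNReal.ofReal_sum_of_nonneg]
            intro k _
            have := hwt0 _ (hscS k)
            positivity
        _ ≤ _ := by
            refine ENNReal.ofReal_le_ofReal ?_
            rw [← Finset.mul_sum]
            exact mul_le_mul_of_nonneg_left hwts (by positivity)
    refine (add_le_add hG2 hA).trans ?_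
    have hwS := hwt0 S (Finset.Subset.refl S)
    rw [← ENNReal.ofReal_add (by positivity) (by positivity)]
    refine ENNReal.ofReal_le_ofReal (le_of_eq ?_)
    rw [hW]
    ring
  calc ∫⁻ x, ‖∑ p ∈ S, γ p * Fb b s0 p x‖ₑ ^ q1
      ≤ ∫⁻ x, ((2 * κ + 1 : ℕ) : ENNReal) ^ (q1 - 1) *
        ∑ k ∈ Finset.range (2 * κ + 1), ‖∑ p ∈ G k, γ p * Fb b s0 p x‖ₑ ^ q1 := by
        refine lintegral_mono fun x => ?_
        rw [hsplit x]
        refine (ENNReal.rpow_le_rpow (enorm_sum_le _ _) (by linarith)).trans ?_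
        have := ENNReal.rpow_sum_le_const_mul_sum_rpow (Finset.range (2 * κ + 1))
          (fun k => ‖∑ p ∈ G k, γ p * Fb b s0 p x‖ₑ) hq1.le
        rwa [Finset.card_range] at this
    _ = ((2 * κ + 1 : ℕ) : ENNReal) ^ (q1 - 1) *
        ∑ k ∈ Finset.range (2 * κ + 1), ∫⁻ x, ‖∑ p ∈ G k, γ p * Fb b s0 p x‖ₑ ^ q1 := by
        rw [lintegral_const_mul _ (Finset.measurable_fun_sum _ fun k _ => hmeas _),
          lintegral_finsetSum _ fun k _ => hmeas _]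
    _ ≤ ENNReal.ofReal ((2 * (κ : ℝ) + 1) ^ (q1 - 1)) * ENNReal.ofReal (W * wt S) := by
        refine mul_le_mul' (le_of_eq ?_) hsum
        rw [← ENNReal.ofReal_rpow_of_nonneg (by positivity) (by linarith)]
        congr 1
        rw [show (2 * (κ : ℝ) + 1) = ((2 * κ + 1 : ℕ) : ℝ) by push_cast; ring,
          ENNReal.ofReal_natCast]
    _ ≤ ENNReal.ofReal (D * (C1 + C2) * B ^ ε * (1 + |s0|) ^ (1 : ℝ) * u ^ ε * wt S) := by
        rw [← ENNReal.ofReal_mul (by positivity)]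
        refine ENNReal.ofReal_le_ofReal ?_
        have hwS := hwt0 S (Finset.Subset.refl S)
        have hW0 : 0 ≤ W := by rw [hW]; positivity
        have h2u : (2 : ℝ) ^ ((ν : ℝ) * (ε * δ)) ≤ B ^ ε * u ^ ε := by
          rw [← Real.mul_rpow hB.le hu0.le, show (ν : ℝ) * (ε * δ) = (δ * ν) * ε by ring,
            Real.rpow_mul (by norm_num)]
          exact Real.rpow_le_rpow (by positivity) hν2 hε.le
        calc (2 * (κ : ℝ) + 1) ^ (q1 - 1) * (W * wt S)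
            ≤ D * 2 ^ ((κ : ℝ) * (ε * δ / 20150 / 2)) * (W * wt S) :=
              mul_le_mul_of_nonneg_right (HD κ) (by positivity)
          _ = D * (C1 + C2) * (1 + |s0|) * 2 ^ ((ν : ℝ) * (ε * δ)) * wt S := by
              rw [hW, hκν, show (20150 * (ν : ℝ)) * (ε * δ / 20150 / 2) = ν * (ε * δ / 2) by ring,
                show (ν : ℝ) * (ε * δ) = ν * (ε * δ / 2) + ν * (ε * δ / 2) by ring,
                Real.rpow_add (by norm_num)]
              ring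
          _ ≤ D * (C1 + C2) * (1 + |s0|) * (B ^ ε * u ^ ε) * wt S := by
              refine mul_le_mul_of_nonneg_right ?_ hwS
              exact mul_le_mul_of_nonneg_left h2u (by positivity)
          _ = _ := by
              rw [Real.rpow_one]
              ring

end Pool.LibCA93
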