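import Pool.Agent.LibCA93.SY

/-
PLAN (PR, MEDIUM). Product over the levels, constants independent of the number of factors. Define K' by strong recursion: K' 0 = 1, K' n = max (K n) (2 SUM_(i < n) choose n i K' i K (n-i)) for n >= 1 (Nat.strongRec; or
prove by strong induction on n: there is a constant c_n that works for all sequences, all j; then choose). Induction over j: Pr A (j+2) = Pr A (j+1) * A (j+1): ‖D^n‖ <= SUM_i choose n i ‖D^i Pr‖ ‖D^(n-i) A‖; the term
i = n is <= K' n (B j)^n * 1 <= K' n (B (j+1))^n / 2 for n >= 1 (2 B j <= B (j+1)), the terms i < n are <= choose n i K' i (B j)^i K (n-i) (B (j+1))^(n-i) <= choose .. (B (j+1))^n. n = 0: |product| <= 1.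
Start: Pr A 1 = A 0. B j >= 1.
-/

set_option autoImplicit false

noncomputable section

open MeasureTheory Metric Set Filter

namespace Pool.LibCA93

open Pool.LibSR53 Pool.LibST49

/-- the constants for products -/
def PR_K (K : ℕ → ℝ) (n : ℕ) : ℝ :=
  max 1 (max (K n) (2 * ∑ i : Fin n, (n.choose i : ℝ) * PR_K K i * K (n - i)))
termination_by n
decreasing_by exact i.2

theorem PR_one (K : ℕ → ℝ) (n : ℕ) : 1 ≤ PR_K K n := by
  rw [PR_K]; exact le_max_left _ _

theorem PR_le (K : ℕ → ℝ) (n : ℕ) : K n ≤ PR_K K n := by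
  rw [PR_K]; exact (le_max_left _ _).trans (le_max_right _ _)

theorem PR_sum (K : ℕ → ℝ) (n : ℕ) :
    2 * ∑ i ∈ Finset.range n, (n.choose i : ℝ) * PR_K K i * K (n - i) ≤ PR_K K n := by
  conv_rhs => rw [PR_K]
  rw [Finset.sum_range (fun i => (n.choose i : ℝ) * PR_K K i * K (n - i))]
  exact (le_max_right _ _).trans (le_max_right _ _)

theorem Pr_le_one {m : ℕ} (A : ℕ → E m → ℝ) (hA : ∀ l ω, |A l ω| ≤ 1) (j : ℕ) (ω : E m) :
    |Pr A j ω| ≤ 1 := by
  unfold Pr
  rw [Finset.abs_prod]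
  exact Finset.prod_le_one (fun l _ => abs_nonneg _) (fun l _ => hA l ω)

theorem Pr_ne {m : ℕ} (A : ℕ → E m → ℝ) (j : ℕ) (ω : E m) (h : Pr A j ω ≠ 0) (l : ℕ)
    (hl : l < j) : A l ω ≠ 0 := by
  intro h0
  exact h (Finset.prod_eq_zero (Finset.mem_range.mpr hl) h0)

theorem PR_smooth {m : ℕ} (A : ℕ → E m → ℝ) (hA : ∀ l, ContDiff ℝ (⊤ : ℕ∞) (A l)) (j : ℕ) :
    ContDiff ℝ (⊤ : ℕ∞) (Pr A j) := by
  unfold Pr
  exact contDiff_prod (fun l _ => hA l)

theorem Sy_prod {m : ℕ} (K : ℕ → ℝ) (hK : ∀ n, 0 ≤ K n) : ∃ K' : ℕ → ℝ, (∀ n, 0 ≤ K' n) ∧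
    ∀ (B : ℕ → ℝ) (A : ℕ → E m → ℝ), 1 ≤ B 0 → (∀ l, 2 * B l ≤ B (l + 1)) →
    (∀ l, Sy K (B l) (A l)) → (∀ l ω, |A l ω| ≤ 1) → ∀ j, Sy K' (B j) (Pr A (j + 1)) := by
  refine ⟨PR_K K, fun n => zero_le_one.trans (PR_one K n), ?_⟩
  intro B A hB0 hB hA hA1 j
  have hBj : ∀ j, 1 ≤ B j := by
    intro j
    induction j with
    | zero => exact hB0
    | succ j ih => linarith [hB j]
  induction j with
  | zero =>
    have h1 : Pr A (0 + 1) = A 0 := by
      funext ω; simp [Pr]
    rw [h1]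
    refine ⟨(hA 0).smooth, fun n z => ((hA 0).bd n z).trans ?_⟩
    exact mul_le_mul_of_nonneg_right (PR_le K n) (pow_nonneg (zero_le_one.trans (hBj 0)) n)
  | succ j ih =>
    refine ⟨PR_smooth A (fun l => (hA l).smooth) _, fun n z => ?_⟩
    rcases Nat.eq_zero_or_pos n with rfl | hn
    · rw [norm_iteratedFDeriv_zero, Real.norm_eq_abs, pow_zero, mul_one]
      exact (Pr_le_one A hA1 _ z).trans (PR_one K 0)
    · have h1 : Pr A (j + 1 + 1) = fun y => Pr A (j + 1) y * A (j + 1) y := by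
        funext ω; simp only [Pr]; rw [Finset.prod_range_succ]
      rw [h1]
      have hb0 : 0 ≤ B j := zero_le_one.trans (hBj j)
      have hb1 : 0 ≤ B (j + 1) := zero_le_one.trans (hBj (j + 1))
      have hbb : B j ≤ B (j + 1) := by linarith [hB j]
      refine (norm_iteratedFDeriv_mul_le (n := n) ih.smooth (hA (j + 1)).smooth z
        (by exact_mod_cast le_top)).trans ?_
      rw [Finset.sum_range_succ]
      have h2 : ∑ i ∈ Finset.range n, (n.choose i : ℝ) *
          ‖iteratedFDeriv ℝ i (Pr A (j + 1)) z‖ * ‖iteratedFDeriv ℝ (n - i) (A (j + 1)) z‖ ≤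
          PR_K K n / 2 * B (j + 1) ^ n := by
        have h3 : ∀ i ∈ Finset.range n, (n.choose i : ℝ) *
            ‖iteratedFDeriv ℝ i (Pr A (j + 1)) z‖ * ‖iteratedFDeriv ℝ (n - i) (A (j + 1)) z‖ ≤
            (n.choose i : ℝ) * PR_K K i * K (n - i) * B (j + 1) ^ n := by
          intro i hi
          have hin : i < n := Finset.mem_range.mp hi
          have h4 : ‖iteratedFDeriv ℝ i (Pr A (j + 1)) z‖ ≤ PR_K K i * B (j + 1) ^ i :=
            (ih.bd i z).trans (mul_le_mul_of_nonneg_left (pow_le_pow_left₀ hb0 hbb i)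
              (zero_le_one.trans (PR_one K i)))
          have h5 := (hA (j + 1)).bd (n - i) z
          have h6 : B (j + 1) ^ n = B (j + 1) ^ i * B (j + 1) ^ (n - i) := by
            rw [← pow_add]; congr 1; omega
          calc (n.choose i : ℝ) * ‖iteratedFDeriv ℝ i (Pr A (j + 1)) z‖ *
                ‖iteratedFDeriv ℝ (n - i) (A (j + 1)) z‖
              ≤ (n.choose i : ℝ) * (PR_K K i * B (j + 1) ^ i) * (K (n - i) * B (j + 1) ^ (n - i)) := by
                gcongr
                exact mul_nonneg (Nat.cast_nonneg _)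
                  (mul_nonneg (zero_le_one.trans (PR_one K i)) (pow_nonneg hb1 i))
            _ = (n.choose i : ℝ) * PR_K K i * K (n - i) * B (j + 1) ^ n := by rw [h6]; ring
        refine (Finset.sum_le_sum h3).trans ?_
        rw [← Finset.sum_mul]
        refine mul_le_mul_of_nonneg_right ?_ (pow_nonneg hb1 n)
        linarith [PR_sum K n]
      have h7 : (n.choose n : ℝ) * ‖iteratedFDeriv ℝ n (Pr A (j + 1)) z‖ *
          ‖iteratedFDeriv ℝ (n - n) (A (j + 1)) z‖ ≤ PR_K K n / 2 * B (j + 1) ^ n := by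
        rw [Nat.choose_self, Nat.cast_one, one_mul, Nat.sub_self, norm_iteratedFDeriv_zero,
          Real.norm_eq_abs]
        have h8 : (B j) ^ n ≤ B (j + 1) ^ n / 2 := by
          have h9 : (2 * B j) ^ n ≤ B (j + 1) ^ n := pow_le_pow_left₀ (by positivity) (hB j) n
          rw [mul_pow] at h9
          have h10 : (2 : ℝ) ≤ 2 ^ n := by
            calc (2 : ℝ) = 2 ^ 1 := by norm_num
              _ ≤ 2 ^ n := pow_le_pow_right₀ (by norm_num) hn
          have h11 : 2 * (B j) ^ n ≤ 2 ^ n * (B j) ^ n :=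
            mul_le_mul_of_nonneg_right h10 (pow_nonneg hb0 n)
          linarith
        calc ‖iteratedFDeriv ℝ n (Pr A (j + 1)) z‖ * |A (j + 1) z|
            ≤ (PR_K K n * (B j) ^ n) * 1 :=
              mul_le_mul (ih.bd n z) (hA1 _ _) (abs_nonneg _)
                (mul_nonneg (zero_le_one.trans (PR_one K n)) (pow_nonneg hb0 n))
          _ ≤ PR_K K n / 2 * B (j + 1) ^ n := by
              have := mul_le_mul_of_nonneg_left h8 (zero_le_one.trans (PR_one K n))
              linarith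
      linarith

end Pool.LibCA93
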