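import Pool.Agent.LibCA93.D1
import Pool.Agent.LibCA93.PR

/-
PLAN (D2, STRONG. Growth of the products. The sequence B l := 2^(kl ν l) satisfies B 0 >= 1 and 2 B l <= B (l+1). For levels with 40300 a_l > c.1 + 5 the symbols are constant functions c_l, |c_l| <= 1. Pr A J'' = (product over the
non constant levels l <= lmax) times a constant of modulus <= 1 (replace A l by 1 at the constant levels; Sy_prod up to lmax; a constant factor does not increase the bounds); if there is no level with 40300 a_l <= c.1 + 5 below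
J'' the product is constant (Sy_const and Sy_weak with K' 0 >= 1). So Sy K' (2^(kl ν lmax)); 40300 a_lmax <= c.1 + 5 gives 100 a_lmax <= c.1/2 for c.1 >= 40300 (growth_half). growth_pair: if kp p /= kp q: ‖p-q‖ >=
2^(max kp)/4 (cross_dist), so 4^(kz+1) > 2^(kp p)/4, kz >= (kp p - 4)/2, and 100 a_l <= (kp p + 5)/403 <= kz. If kp p = kp q and spl = 0: product of 0 factors = 1. If spl = j+1 >= 1: the cubes at level j are different; j = 0: ‖p-q‖ >= 4^kap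
(sep_blk), kl ν 0 = 100 ν <= kap ν <= kz; j >= 1: by Cf.mar for p and q at level j (j < J'): (bi + v) = Q 2^e + r with 2^(e/2) <= r < 2^e - 2^(e/2), different Q: |bi p i - bi q i| >= 2^(e/2) for some i (e = eL ν j), so ‖p-q‖ >=
(2^(e/2) - 1) 4^kap >= 2^(20000 a_j) (e/2 = 20000 ν (2^j - 1), 4^kap = 2^(40000 ν)), so kz >= 10000 a_j - 1 >= 100 a_j = kl ν j. Levels l < spl have l <= j, so Sy_prod directly.
-/

set_option autoImplicit false

noncomputable section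

open MeasureTheory Metric Set Filter

namespace Pool.LibCA93

open Pool.LibSR53 Pool.LibST49

/-- a family of symbols of growth 2^(kl ν l), constant at the levels beyond the radius -/
def Fam2 (Kc : ℕ → ℝ) (ν : ℕ) (A : ℕ → (ℕ × (Fin 4 → ℤ)) → E 2 → ℝ) : Prop :=
  (∀ l c, Sy Kc ((2 : ℝ) ^ kl ν l) (A l c)) ∧ (∀ l c ω, |A l c ω| ≤ 1) ∧
    (∀ l (c : ℕ × (Fin 4 → ℤ)), c.1 + 5 < 40300 * aL ν l → ∀ ω ω' : E 2, A l c ω = A l c ω')

private theorem D2_kl (ν l : ℕ) : kl ν l = 100 * (ν * 2 ^ l) := rfl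

private theorem D2_B (ν : ℕ) (hν : 1 ≤ ν) (l : ℕ) :
    2 * (2 : ℝ) ^ kl ν l ≤ (2 : ℝ) ^ kl ν (l + 1) := by
  have h1 : kl ν l + 1 ≤ kl ν (l + 1) := by
    rw [D2_kl, D2_kl, pow_succ]
    have h2 : 1 ≤ ν * 2 ^ l := Nat.mul_pos hν (Nat.two_pow_pos l)
    have h3 : ν * (2 ^ l * 2) = 2 * (ν * 2 ^ l) := by ring
    rw [h3]
    omega
  calc 2 * (2 : ℝ) ^ kl ν l = (2 : ℝ) ^ (kl ν l + 1) := by rw [pow_succ]; ring
    _ ≤ (2 : ℝ) ^ kl ν (l + 1) := pow_le_pow_right₀ (by norm_num) h1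

/-- constant factors can be taken out -/
private theorem D2_split (A : ℕ → E 2 → ℝ) (hA : ∀ l ω, |A l ω| ≤ 1) (P : ℕ → Prop) (m : ℕ)
    (h : ∀ l < m, P l ∨ ∀ ω ω' : E 2, A l ω = A l ω') :
    ∃ (m' : ℕ) (c : ℝ), |c| ≤ 1 ∧ (m' = 0 ∨ ∃ j, m' = j + 1 ∧ P j) ∧
      ∀ ω, Pr A m ω = Pr A m' ω * c := by
  induction m with
  | zero => exact ⟨0, 1, by simp, Or.inl rfl, fun ω => by simp⟩
  | succ m ih =>
    rcases h m (Nat.lt_succ_self m) with h1 | h1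
    · exact ⟨m + 1, 1, by simp, Or.inr ⟨m, rfl, h1⟩, fun ω => by simp⟩
    · obtain ⟨m', c, hc, hm, hp⟩ := ih fun l hl => h l (Nat.lt_succ_of_lt hl)
      refine ⟨m', c * A m 0, ?_, hm, fun ω => ?_⟩
      · rw [abs_mul]
        exact mul_le_one₀ hc (abs_nonneg _) (hA m 0)
      · have h2 : Pr A (m + 1) ω = Pr A m ω * A m ω := by
          unfold Pr
          rw [Finset.prod_range_succ]
        rw [h2, hp ω, h1 ω 0]
        ring

/-- the core: growth of a product whose nonconstant factors have growth at most B -/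
private theorem D2_core (Kc : ℕ → ℝ) (hK : ∀ n, 0 ≤ Kc n) : ∃ K' : ℕ → ℝ, (∀ n, 0 ≤ K' n) ∧
    ∀ (ν : ℕ) (A : ℕ → E 2 → ℝ) (B : ℝ) (m : ℕ), 1 ≤ ν → 1 ≤ B →
    (∀ l, Sy Kc ((2 : ℝ) ^ kl ν l) (A l)) → (∀ l ω, |A l ω| ≤ 1) →
    (∀ l < m, (2 : ℝ) ^ kl ν l ≤ B ∨ ∀ ω ω' : E 2, A l ω = A l ω') → Sy K' B (Pr A m) := by
  obtain ⟨K1, hK1, h1⟩ := Sy_prod (m := 2) Kc hK
  have hK2 : ∀ n, 0 ≤ K1 n + 1 := fun n => by linarith [hK1 n]
  obtain ⟨K', hK', h2⟩ := Sy_mul (m := 2) (fun n => K1 n + 1) (fun _ => 1) hK2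
    (fun _ => zero_le_one)
  refine ⟨K', hK', fun ν A B m hν hB hS hA hl => ?_⟩
  have hB0 : 0 ≤ B := zero_le_one.trans hB
  obtain ⟨m', c, hc, hm, hp⟩ := D2_split A hA (fun l => (2 : ℝ) ^ kl ν l ≤ B) m hl
  have hsy : Sy (fun n => K1 n + 1) B (Pr A m') := by
    rcases hm with rfl | ⟨j, rfl, hj⟩
    · have h3 : Pr A 0 = fun _ : E 2 => (1 : ℝ) := by
        funext ω
        simp [Pr]
      rw [h3]
      exact Sy_weak (fun n => by linarith [hK1 n]) hB0 (Sy_const 1 B (by simp) hB0)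
    · have h3 := h1 (fun l => (2 : ℝ) ^ kl ν l) A (one_le_pow₀ (by norm_num)) (D2_B ν hν) hS hA j
      exact Sy_weak (fun n => by linarith [hK1 n]) hB0
        (Sy_mono hK1 (by positivity) hj h3)
  have h4 := h2 B hB0 (Pr A m') (fun _ => c) hsy (Sy_const c B hc hB0)
  have h5 : Pr A m = fun ω => Pr A m' ω * c := funext hp
  rw [h5]
  exact h4

private theorem D2_coord (Z : X 2) (i : Fin 4) : |crd Z i| ≤ ‖Z‖ := by
  have h1 : ‖Z.1‖ ≤ ‖Z‖ := norm_fst_le Z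
  have h2 : ‖Z.2‖ ≤ ‖Z‖ := norm_snd_le Z
  have h3 : ‖Z.2.1‖ ≤ ‖Z.2‖ := norm_fst_le Z.2
  have h4 : ‖Z.2.2‖ ≤ ‖Z.2‖ := norm_snd_le Z.2
  have h5 : ∀ j : Fin 2, |Z.1 j| ≤ ‖Z.1‖ := fun j => by
    have := PiLp.norm_apply_le Z.1 j
    rwa [Real.norm_eq_abs] at this
  fin_cases i
  · exact (h5 0).trans h1
  · exact (h5 1).trans h1
  · exact (h3.trans h2)
  · exact (h4.trans h2)

private theorem D2_crd_sub (p q : X 2) (i : Fin 4) : crd (p - q) i = crd p i - crd q i := by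
  fin_cases i <;> simp [crd]

/-- distance from the base indices -/
private theorem D2_bi (ν : ℕ) (p q : X 2) (i : Fin 4) (d : ℝ)
    (h : d + 1 ≤ |((bi ν p i - bi ν q i : ℤ) : ℝ)|) : d * 4 ^ kap ν ≤ ‖p - q‖ := by
  have h4 : (0 : ℝ) < 4 ^ kap ν := by positivity
  refine le_trans ?_ (D2_coord (p - q) i)
  rw [D2_crd_sub]
  have e1 : |crd p i - crd q i| = |crd p i / 4 ^ kap ν - crd q i / 4 ^ kap ν| * 4 ^ kap ν := by
    rw [← sub_div, abs_div, abs_of_pos h4, div_mul_cancel₀ _ h4.ne']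
  rw [e1]
  apply mul_le_mul_of_nonneg_right _ h4.le
  have f1 := Int.floor_le (crd p i / 4 ^ kap ν)
  have f2 := Int.lt_floor_add_one (crd p i / 4 ^ kap ν)
  have f3 := Int.floor_le (crd q i / 4 ^ kap ν)
  have f4 := Int.lt_floor_add_one (crd q i / 4 ^ kap ν)
  have e2 : ((bi ν p i - bi ν q i : ℤ) : ℝ) = (bi ν p i : ℝ) - (bi ν q i : ℝ) := by push_cast; ring
  rw [e2] at h
  change (bi ν p i : ℝ) ≤ _ at f1
  change _ < (bi ν p i : ℝ) + 1 at f2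
  change (bi ν q i : ℝ) ≤ _ at f3
  change _ < (bi ν q i : ℝ) + 1 at f4
  rcases le_abs.1 h with h5 | h5
  · refine le_trans ?_ (le_abs_self _)
    linarith
  · refine le_trans ?_ (neg_le_abs _)
    linarith

/-- different cubes far from the walls -/
private theorem D2_mod (P Q : ℤ) (e : ℕ) (hne : P / 2 ^ e ≠ Q / 2 ^ e)
    (hP1 : (2 : ℤ) ^ (e / 2) ≤ P % 2 ^ e) (hP2 : P % 2 ^ e < 2 ^ e - 2 ^ (e / 2))
    (hQ1 : (2 : ℤ) ^ (e / 2) ≤ Q % 2 ^ e) (hQ2 : Q % 2 ^ e < 2 ^ e - 2 ^ (e / 2)) :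
    (2 : ℤ) ^ (e / 2) + 1 ≤ |P - Q| := by
  have h2 : (1 : ℤ) ≤ 2 ^ (e / 2) := one_le_pow₀ (by norm_num)
  have e1 := Int.mul_ediv_add_emod P (2 ^ e)
  have e2 := Int.mul_ediv_add_emod Q (2 ^ e)
  have h3 : (0 : ℤ) < 2 ^ e := by positivity
  rcases lt_or_gt_of_ne hne with h | h
  · have h4 : (2 : ℤ) ^ e * (P / 2 ^ e + 1) ≤ 2 ^ e * (Q / 2 ^ e) :=
      mul_le_mul_of_nonneg_left (by omega) h3.le
    rw [mul_add, mul_one] at h4
    refine le_trans ?_ (neg_le_abs _)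
    linarith
  · have h4 : (2 : ℤ) ^ e * (Q / 2 ^ e + 1) ≤ 2 ^ e * (P / 2 ^ e) :=
      mul_le_mul_of_nonneg_left (by omega) h3.le
    rw [mul_add, mul_one] at h4
    refine le_trans ?_ (le_abs_self _)
    linarith

/-- lower bound for kz from a lower bound for the norm -/
private theorem D2_kz (Z : X 2) (n : ℕ) (h : (2 : ℝ) ^ n ≤ ‖Z‖) : n < 2 * kz Z + 2 := by
  have h1 : (1 : ℝ) ≤ ‖Z‖ := (one_le_pow₀ (by norm_num)).trans h
  have h2 := (kz_spec Z h1).2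
  have h3 : (2 : ℝ) ^ n < 2 ^ (2 * kz Z + 2) := by
    refine lt_of_le_of_lt h (lt_of_lt_of_eq h2 ?_)
    have e : 2 * kz Z + 2 = 2 * (kz Z + 1) := by ring
    rw [e, pow_mul]
    norm_num
  exact (pow_lt_pow_iff_right₀ (by norm_num)).1 h3

/-- different radius exponents: the growth -/
private theorem D2_cross {ν : ℕ} {u : ℝ} {S : Finset (X 2)} {J' : ℕ} (hS : Cg ν u S J') (p : X 2)
    (hp : p ∈ S) (q : X 2) (hq : q ∈ S) (hpq : kp p ≠ kp q) (l : ℕ)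
    (hl : 40300 * aL ν l ≤ kp p + 5 ∨ 40300 * aL ν l ≤ kp q + 5) :
    kl ν l ≤ kz (p - q) := by
  have hmax : ∃ M : ℕ, kp p ≤ M ∧ kp q ≤ M ∧ (2 : ℝ) ^ M ≤ 4 * ‖p - q‖ ∧ 3 ≤ M := by
    rcases lt_or_gt_of_ne hpq with h | h
    · obtain ⟨h1, h2⟩ := cross_dist hS q hq p hp h
      rw [norm_sub_rev] at h2
      exact ⟨kp q, by omega, le_rfl, h2, by omega⟩
    · obtain ⟨h1, h2⟩ := cross_dist hS p hp q hq h
      exact ⟨kp p, le_rfl, by omega, h2, by omega⟩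
  obtain ⟨M, hM1, hM2, hM3, hM4⟩ := hmax
  have h1 : (2 : ℝ) ^ (M - 2) ≤ ‖p - q‖ := by
    have e : (2 : ℝ) ^ M = 2 ^ (M - 2) * 4 := by
      have e2 : M = (M - 2) + 2 := by omega
      conv_lhs => rw [e2]
      rw [pow_add]
      norm_num
    rw [e] at hM3
    linarith
  have h2 := D2_kz (p - q) (M - 2) h1
  unfold kl
  rcases hl with h | h <;> omega

/-- equal radius exponents: the growth -/
private theorem D2_same {ν : ℕ} {u : ℝ} {S : Finset (X 2)} {v : Fin 4 → ℤ} {J' : ℕ}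
    (hS : Cf ν u S v J') (p : X 2) (hp : p ∈ S) (q : X 2) (hq : q ∈ S)
    (hpq : blk ν p ≠ blk ν q) (hk : kp p = kp q) (l : ℕ) (hlJ : l < J')
    (hl : pil ν v l (blk ν p) ≠ pil ν v l (blk ν q)) : kl ν l ≤ kz (p - q) := by
  have hν := hS.nu1
  have hg := cg_of_cf hS
  rcases Nat.eq_zero_or_pos l with rfl | hl0
  · have h1 := sep_blk hg p hp q hq hpq
    have h2 := D2_kz (p - q) (2 * kap ν) (by
      rw [pow_mul]
      norm_num
      exact h1)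
    unfold kap at h2
    unfold kl aL
    omega
  · -- some coordinate has different cubes
    obtain ⟨i, hi⟩ : ∃ i, (bi ν p i + v i) / 2 ^ (eL ν l) ≠ (bi ν q i + v i) / 2 ^ (eL ν l) := by
      by_contra hcon
      push Not at hcon
      apply hl
      unfold pil grd blk
      exact Prod.ext hk (funext hcon)
    have hmp := hS.mar p hp l hl0 hlJ i
    have hmq := hS.mar q hq l hl0 hlJ i
    have h1 := D2_mod (bi ν p i + v i) (bi ν q i + v i) (eL ν l) hi hmp.1 hmp.2 hmq.1 hmq.2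
    have e1 : bi ν p i + v i - (bi ν q i + v i) = bi ν p i - bi ν q i := by ring
    rw [e1] at h1
    have h2 : (2 : ℝ) ^ (eL ν l / 2) + 1 ≤ |((bi ν p i - bi ν q i : ℤ) : ℝ)| := by
      exact_mod_cast h1
    have h3 := D2_bi ν p q i _ h2
    have h4 : (2 : ℝ) ^ (eL ν l / 2 + 2 * kap ν) ≤ ‖p - q‖ := by
      refine le_trans (le_of_eq ?_) h3
      rw [pow_add, pow_mul]
      norm_num
    have h5 := D2_kz (p - q) _ h4
    have h6 : eL ν l / 2 = 20000 * (ν * 2 ^ l) - 20000 * ν := by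
      unfold eL
      have e2 : 40000 * ν * (2 ^ l - 1) = 2 * (20000 * (ν * 2 ^ l) - 20000 * ν) := by
        have e3 : 1 ≤ 2 ^ l := Nat.one_le_two_pow
        obtain ⟨t, ht⟩ : ∃ t, 2 ^ l = t + 1 := ⟨2 ^ l - 1, by omega⟩
        rw [ht]
        have e4 : t + 1 - 1 = t := by omega
        have e5 : 20000 * (ν * (t + 1)) - 20000 * ν = 20000 * (ν * t) := by
          have e6 : 20000 * (ν * (t + 1)) = 20000 * (ν * t) + 20000 * ν := by ring
          omega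
        rw [e4, e5]
        ring
      rw [e2]
      omega
    rw [h6] at h5
    have h7 : ν ≤ ν * 2 ^ l := Nat.le_mul_of_pos_right ν (Nat.two_pow_pos l)
    unfold kap at h5
    unfold kl aL
    omega

private theorem D2_spl_le (ν : ℕ) (v : Fin 4 → ℤ) (J' : ℕ) (c c' : ℕ × (Fin 4 → ℤ)) (h : c ≠ c')
    (l : ℕ) (hl : l < spl ν v J' c c') : l < J' ∧ pil ν v l c ≠ pil ν v l c' := by
  classical
  have hi := hi_spl ν v J' {c, c'}
  have h1 := hi.le c (by simp) c' (by simp) h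
  refine ⟨lt_of_lt_of_le hl h1, fun h2 => ?_⟩
  have h3 := (hi.iff c (by simp) c' (by simp) h l (lt_of_lt_of_le hl h1)).1 h2
  omega

/-- all levels below the splitting level -/
private theorem D2_all {ν : ℕ} {u : ℝ} {S : Finset (X 2)} {v : Fin 4 → ℤ} {J' : ℕ} {Kc : ℕ → ℝ}
    {A : ℕ → (ℕ × (Fin 4 → ℤ)) → E 2 → ℝ}
    (hS : Cf ν u S v J') (hA : Fam2 Kc ν A) (p : X 2) (hp : p ∈ S) (q : X 2) (hq : q ∈ S)
    (hpq : blk ν p ≠ blk ν q) (r : X 2) (hr : r = p ∨ r = q) (l : ℕ)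
    (hl : l < spl ν v J' (blk ν p) (blk ν q)) :
    (2 : ℝ) ^ kl ν l ≤ 2 ^ kz (p - q) ∨
      ∀ ω ω' : E 2, A l (pil ν v l (blk ν r)) ω = A l (pil ν v l (blk ν r)) ω' := by
  obtain ⟨hl1, hl2⟩ := D2_spl_le ν v J' _ _ hpq l hl
  by_cases hk : kp p = kp q
  · left
    exact pow_le_pow_right₀ (by norm_num) (D2_same hS p hp q hq hpq hk l hl1 hl2)
  · by_cases hc : kp r + 5 < 40300 * aL ν l
    · right
      exact hA.2.2 l _ hc
    · left
      rw [not_lt] at hc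
      refine pow_le_pow_right₀ (by norm_num) (D2_cross (cg_of_cf hS) p hp q hq hk l ?_)
      rcases hr with rfl | rfl
      · exact Or.inl hc
      · exact Or.inr hc

theorem growth_half (Kc : ℕ → ℝ) (hK : ∀ n, 0 ≤ Kc n) : ∃ K' : ℕ → ℝ, (∀ n, 0 ≤ K' n) ∧
    ∀ (ν : ℕ) (v : Fin 4 → ℤ) (A : ℕ → (ℕ × (Fin 4 → ℤ)) → E 2 → ℝ), 1 ≤ ν → Fam2 Kc ν A →
    ∀ (J' : ℕ) (c : ℕ × (Fin 4 → ℤ)), 40300 * ν ≤ c.1 →
    Sy K' ((2 : ℝ) ^ (c.1 / 2)) (Pr (fun l => A l (pil ν v l c)) J') := by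
  obtain ⟨K', hK', h⟩ := D2_core Kc hK
  refine ⟨K', hK', fun ν v A hν hA J' c hc => ?_⟩
  refine h ν _ _ J' hν (one_le_pow₀ (by norm_num)) (fun l => hA.1 l _) (fun l => hA.2.1 l _)
    fun l _ => ?_
  by_cases h1 : c.1 + 5 < 40300 * aL ν l
  · right
    exact hA.2.2 l _ h1
  · left
    refine pow_le_pow_right₀ (by norm_num) ?_
    unfold kl
    omega

theorem growth_pair (Kc : ℕ → ℝ) (hK : ∀ n, 0 ≤ Kc n) : ∃ K' : ℕ → ℝ, (∀ n, 0 ≤ K' n) ∧
    ∀ (ν : ℕ) (u : ℝ) (S : Finset (X 2)) (v : Fin 4 → ℤ) (J' : ℕ)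
    (A : ℕ → (ℕ × (Fin 4 → ℤ)) → E 2 → ℝ), Cf ν u S v J' → Fam2 Kc ν A → ∀ p ∈ S, ∀ q ∈ S,
    blk ν p ≠ blk ν q →
    Sy K' ((2 : ℝ) ^ kz (p - q)) (Pr (fun l => A l (pil ν v l (blk ν p)))
      (spl ν v J' (blk ν p) (blk ν q))) ∧
    Sy K' ((2 : ℝ) ^ kz (p - q)) (Pr (fun l => A l (pil ν v l (blk ν q)))
      (spl ν v J' (blk ν p) (blk ν q))) := by
  obtain ⟨K', hK', h⟩ := D2_core Kc hK
  refine ⟨K', hK', fun ν u S v J' A hS hA p hp q hq hpq => ⟨?_, ?_⟩⟩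
  · exact h ν _ _ _ hS.nu1 (one_le_pow₀ (by norm_num)) (fun l => hA.1 l _) (fun l => hA.2.1 l _)
      fun l hl => D2_all hS hA p hp q hq hpq p (Or.inl rfl) l hl
  · exact h ν _ _ _ hS.nu1 (one_le_pow₀ (by norm_num)) (fun l => hA.1 l _) (fun l => hA.2.1 l _)
      fun l hl => D2_all hS hA p hp q hq hpq q (Or.inr rfl) l hl

end Pool.LibCA93
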