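import Pool.Agent.LibCA93.D2

/-
PLAN (D3, MEDIUM). Fam2 for the cut off symbols. As χ .. l c = 1 - SUM over Bad: Sy_sum (growth 2^(kl ν l)); values in [0,1] (cells_le_one). 1 - As = SUM over Bad. Constant at high levels: if c.1 + 5 < 40300 a_l then Bad ν u S v l c = ∅ provided
the points z in the definition have kp z = c.1 (pil ν v l (blk ν z) = c has first component kp z = c.1): (S) needs inW ν l i, i <= kp z + 5, so 40300 a_l <= i <= c.1 + 5; (X) needs 40300 a_l <= kp z; (N) needs 40300 a_l <= k' <= kp z.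
So As = 1 there. Kc n := max of the K of Sy_sum and 1 (Sy_weak). as_light: As .. ω /= 0 and ‖ω‖ <= 1: SUM_(all j) χ(2^kl ω - iv j) = 1 (Pu.sum), so some j outside Bad has χ(..) /= 0, hence cel (kl ν l) j ω (Ct.supp), and j is in J 2 (kl ν l) because |j_i| <
2^kl + 1 <= 2^(kl+1) (integers). as_bad: 1 - As /= 0 gives a j in Bad with χ /= 0.
-/

set_option autoImplicit false

noncomputable section

open MeasureTheory Metric Set Filter

namespace Pool.LibCA93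

open Pool.LibSR53 Pool.LibST49

theorem D3_bad (ν : ℕ) (u : ℝ) (S : Finset (X 2)) (v : Fin 4 → ℤ) (l : ℕ)
    (c : ℕ × (Fin 4 → ℤ)) (h : c.1 + 5 < 40300 * aL ν l) : Bad ν u S v l c = ∅ := by
  classical
  refine Finset.eq_empty_of_forall_notMem fun j hj => ?_
  unfold Bad at hj
  rw [Finset.mem_filter] at hj
  obtain ⟨-, z, -, hz, hc⟩ := hj
  have h1 : c.1 = kp z := by
    rw [← hz]; rfl
  rcases hc with ⟨i, hi, hi2, -⟩ | ⟨hi, -⟩ | ⟨k', hk, hk2, -, -⟩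
  · have := hi.1
    omega
  · have := hi.1
    omega
  · have := hk.1
    omega

theorem D3_cel {χ : E 2 → ℝ} (hχ : Pu χ) (k : ℕ) (j : Fin 2 → ℤ) (ω : E 2)
    (h : χ ((2 : ℝ) ^ k • ω - iv j) ≠ 0) : cel k j ω := by
  intro i
  have h1 := hχ.supp _ h i
  simpa [iv] using h1

theorem D3_one {χ : E 2 → ℝ} (hχ : Pu χ) (ν : ℕ) (u : ℝ) (S : Finset (X 2)) (v : Fin 4 → ℤ)
    (l : ℕ) (c : ℕ × (Fin 4 → ℤ)) (ω : E 2) :
    0 ≤ As χ ν u S v l c ω ∧ As χ ν u S v l c ω ≤ 1 := by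
  have h := cells_le_one hχ (kl ν l) (Bad ν u S v l c) ω
  unfold As
  constructor <;> linarith [h.1, h.2]

theorem fam_As {χ : E 2 → ℝ} (hχ : Pu χ) : ∃ Kc : ℕ → ℝ, (∀ n, 0 ≤ Kc n) ∧
    ∀ (ν : ℕ) (u : ℝ) (S : Finset (X 2)) (v : Fin 4 → ℤ), Fam2 Kc ν (As χ ν u S v) ∧
      ∀ l0 : ℕ, Fam2 Kc ν (AP χ ν u S v l0) := by
  obtain ⟨K, hK, hS⟩ := Sy_sum hχ
  refine ⟨fun n => max (K n) 1, fun n => le_max_of_le_right zero_le_one, ?_⟩
  intro ν u S v
  have hB : ∀ l, (0 : ℝ) ≤ 2 ^ kl ν l := fun l => by positivity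
  have hcst : ∀ l (c : ℕ × (Fin 4 → ℤ)), c.1 + 5 < 40300 * aL ν l → ∀ ω ω' : E 2,
      As χ ν u S v l c ω = As χ ν u S v l c ω' := by
    intro l c h ω ω'
    unfold As
    rw [D3_bad ν u S v l c h, Finset.sum_empty, Finset.sum_empty]
  refine ⟨⟨fun l c => ?_, fun l c ω => ?_, hcst⟩, fun l0 => ⟨fun l c => ?_, fun l c ω => ?_, ?_⟩⟩
  · exact Sy_weak (fun n => le_max_left _ _) (hB l) (hS (kl ν l) (Bad ν u S v l c)).2
  · have h := D3_one hχ ν u S v l c ω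
    rw [abs_le]
    constructor <;> linarith [h.1, h.2]
  · rcases lt_trichotomy l l0 with h | h | h
    · have h1 : AP χ ν u S v l0 l c = fun _ => 1 := by
        funext ω; unfold AP; rw [if_pos h]
      rw [h1]
      exact Sy_weak (fun n => le_max_right _ _) (hB l)
        (Sy_const 1 _ (by rw [abs_one]) (hB l))
    · have h1 : AP χ ν u S v l0 l c =
          fun ω => ∑ j ∈ Bad ν u S v l c, χ ((2 : ℝ) ^ kl ν l • ω - iv j) := by
        funext ω; unfold AP As; rw [if_neg (by omega), if_pos h, sub_sub_cancel]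
      rw [h1]
      exact Sy_weak (fun n => le_max_left _ _) (hB l) (hS (kl ν l) (Bad ν u S v l c)).1
    · have h1 : AP χ ν u S v l0 l c = As χ ν u S v l c := by
        funext ω; unfold AP; rw [if_neg (by omega), if_neg (by omega)]
      rw [h1]
      exact Sy_weak (fun n => le_max_left _ _) (hB l) (hS (kl ν l) (Bad ν u S v l c)).2
  · have h := D3_one hχ ν u S v l c ω
    unfold AP
    rw [abs_le]
    split_ifs
    · norm_num
    · constructor <;> linarith [h.1, h.2]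
    · constructor <;> linarith [h.1, h.2]
  · intro l c h ω ω'
    have h1 := hcst l c h ω ω'
    unfold AP
    rw [h1]

theorem as_light {χ : E 2 → ℝ} (hχ : Pu χ) (ν : ℕ) (u : ℝ) (S : Finset (X 2))
    (v : Fin 4 → ℤ) (l : ℕ) (p : X 2) (ω : E 2) (hω : ‖ω‖ ≤ 1)
    (h : As χ ν u S v l (pil ν v l (blk ν p)) ω ≠ 0) : LG ν u S v l p ω := by
  obtain ⟨j, hj, hjχ⟩ : ∃ j, j ∉ Bad ν u S v l (pil ν v l (blk ν p)) ∧
      χ ((2 : ℝ) ^ kl ν l • ω - iv j) ≠ 0 := by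
    by_contra hcon
    push Not at hcon
    have h1 : HasSum (fun j : Fin 2 → ℤ => χ ((2 : ℝ) ^ kl ν l • ω - iv j))
        (∑ j ∈ Bad ν u S v l (pil ν v l (blk ν p)), χ ((2 : ℝ) ^ kl ν l • ω - iv j)) :=
      hasSum_sum_of_ne_finset_zero hcon
    have h2 := h1.unique (hχ.sum ((2 : ℝ) ^ kl ν l • ω))
    apply h
    unfold As
    rw [h2, sub_self]
  have hc := D3_cel hχ _ j ω hjχ
  refine ⟨j, ?_, hc, hj⟩
  unfold J
  rw [Fintype.mem_piFinset]
  intro i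
  have h1 := hc i
  have h2 : |ω i| ≤ 1 := by
    have h3 := PiLp.norm_apply_le ω i
    rw [Real.norm_eq_abs] at h3
    exact h3.trans hω
  have h4 : (1 : ℝ) ≤ 2 ^ kl ν l := one_le_pow₀ (by norm_num)
  have h5 : |(2 : ℝ) ^ kl ν l * ω i| ≤ 2 ^ kl ν l := by
    rw [abs_mul, abs_of_pos (by positivity)]
    calc (2 : ℝ) ^ kl ν l * |ω i| ≤ 2 ^ kl ν l * 1 := by gcongr
      _ = 2 ^ kl ν l := mul_one _
  have h6 : |(j i : ℝ)| ≤ 2 ^ (kl ν l + 1) := by
    have h7 : |(j i : ℝ)| ≤ |(2 : ℝ) ^ kl ν l * ω i| + |(2 : ℝ) ^ kl ν l * ω i - j i| := by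
      have h8 : (j i : ℝ) = (2 : ℝ) ^ kl ν l * ω i - ((2 : ℝ) ^ kl ν l * ω i - j i) := by ring
      calc |(j i : ℝ)| = |(2 : ℝ) ^ kl ν l * ω i - ((2 : ℝ) ^ kl ν l * ω i - j i)| := by
            rw [← h8]
        _ ≤ _ := abs_sub _ _
    rw [pow_succ]
    linarith
  rw [abs_le] at h6
  rw [Finset.mem_Icc]
  constructor
  · have := h6.1
    exact_mod_cast this
  · have := h6.2
    exact_mod_cast this

theorem as_bad {χ : E 2 → ℝ} (hχ : Pu χ) (ν : ℕ) (u : ℝ) (S : Finset (X 2)) (v : Fin 4 → ℤ)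
    (l : ℕ) (c : ℕ × (Fin 4 → ℤ)) (ω : E 2) (h : 1 - As χ ν u S v l c ω ≠ 0) :
    ∃ j ∈ Bad ν u S v l c, cel (kl ν l) j ω := by
  unfold As at h
  rw [sub_sub_cancel] at h
  obtain ⟨j, hj, hjχ⟩ := Finset.exists_ne_zero_of_sum_ne_zero h
  exact ⟨j, hj, D3_cel hχ _ j ω hjχ⟩

end Pool.LibCA93
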