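import Pool.Agent.LibCA93.GU

/-
PLAN (XP, MEDIUM). Xp_le: ‖Φ Z‖ <= C / (1+‖Z‖)^M (Rp.dec with the M of gramU). Xp_near: write G = near part (G.filter ..) + far part, same for G'; Xp is additive; for far a: ‖Φ‖ <= C (1+α)^(-M-M0) <= C β^-M0 (1+α)^-M.
near x near: gramU with G := near part, G' := near part of q. The other three: gramU with weights, filter tc2 <= all of J m k.
-/

set_option autoImplicit false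

noncomputable section

open MeasureTheory Metric Set Filter

namespace Pool.LibCA93

open Pool.LibSR53 Pool.LibST49

open scoped Classical in
private theorem XP_core {m : ℕ} {h : ℝ} {Φ : X m → ℂ} {χ : E m → ℝ} {b : V m → ℂ}
    {N M κ k : ℕ} {p q : X m} {Ψ Ψ' : E m → ℝ} {G G' : Finset (Pk m)} {C1 cA cB : ℝ}
    (hcA : 0 ≤ cA) (hcB : 0 ≤ cB)
    (hg : ∑ a ∈ G, ∑ a' ∈ G', 1 / (1 + ‖nd h a.2 - Lk κ (w κ a.1) p‖) ^ M *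
      (1 / (1 + ‖nd h a'.2 - Lk κ (w κ a'.1) q‖) ^ M) *
      ‖Kb (gb (cu χ b κ Ψ a.1) (cu χ b κ Ψ' a'.1)) (pos h κ a - pos h κ a')‖ ≤
      C1 * (2 : ℝ)⁻¹ ^ (k * m) * ∑ j ∈ (J m k).filter (fun j => tc2 χ κ k G Ψ G' Ψ' j),
        1 / (1 + ‖Lk k (w k j) (p - q)‖) ^ N)
    (hA : ∀ a ∈ G, ‖Φ (nd h a.2 - Lk κ (w κ a.1) p)‖ ≤
      cA * (1 / (1 + ‖nd h a.2 - Lk κ (w κ a.1) p‖) ^ M))
    (hB : ∀ a ∈ G', ‖Φ (nd h a.2 - Lk κ (w κ a.1) q)‖ ≤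
      cB * (1 / (1 + ‖nd h a.2 - Lk κ (w κ a.1) q‖) ^ M)) :
    Xp χ b Φ h κ G G' Ψ Ψ' p q ≤ cA * cB * (C1 * (2 : ℝ)⁻¹ ^ (k * m) *
      ∑ j ∈ (J m k).filter (fun j => tc2 χ κ k G Ψ G' Ψ' j),
        1 / (1 + ‖Lk k (w k j) (p - q)‖) ^ N) := by
  refine le_trans ?_ (mul_le_mul_of_nonneg_left hg (mul_nonneg hcA hcB))
  unfold Xp
  rw [Finset.mul_sum]
  refine Finset.sum_le_sum fun a ha => ?_
  rw [Finset.mul_sum]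
  refine Finset.sum_le_sum fun a' ha' => ?_
  have h1 := hA a ha
  have h2 := hB a' ha'
  have h3 : 0 ≤ 1 / (1 + ‖nd h a.2 - Lk κ (w κ a.1) p‖) ^ M := by positivity
  have h4 := mul_le_mul h1 h2 (norm_nonneg _) (mul_nonneg hcA h3)
  have h5 := mul_le_mul_of_nonneg_right h4 (norm_nonneg
    (Kb (gb (cu χ b κ Ψ a.1) (cu χ b κ Ψ' a'.1)) (pos h κ a - pos h κ a')))
  refine h5.trans (le_of_eq ?_)
  ring

private theorem XP_far {m : ℕ} {Φ : X m → ℂ} {Z : X m} {C r : ℝ} {M M0 : ℕ} (hC : 0 < C)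
    (hr : 1 ≤ r) (hd : ‖Φ Z‖ ≤ C / (1 + ‖Z‖) ^ (M + M0)) (hZ : r < ‖Z‖) :
    ‖Φ Z‖ ≤ C / r ^ M0 * (1 / (1 + ‖Z‖) ^ M) := by
  have hr0 : 0 < r := lt_of_lt_of_le one_pos hr
  refine hd.trans ?_
  have h1 : r ^ M0 ≤ (1 + ‖Z‖) ^ M0 := pow_le_pow_left₀ hr0.le (by linarith) M0
  have h2 : 0 < (1 + ‖Z‖) ^ M := by positivity
  have h3 : 0 < r ^ M0 := pow_pos hr0 M0
  rw [pow_add]
  calc C / ((1 + ‖Z‖) ^ M * (1 + ‖Z‖) ^ M0) ≤ C / ((1 + ‖Z‖) ^ M * r ^ M0) :=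
        div_le_div_of_nonneg_left hC.le (mul_pos h2 h3) (mul_le_mul_of_nonneg_left h1 h2.le)
    _ = C / r ^ M0 * (1 / (1 + ‖Z‖) ^ M) := by
        field_simp

open scoped Classical in
theorem Xp_le {m : ℕ} (hm : 1 ≤ m) {h v0 v1 ρ R : ℝ} {Φ Φh : X m → ℂ}
    (hR : Rp h v0 v1 ρ R Φ Φh) {χ : E m → ℝ} (hχ : Pu χ) {b : V m → ℂ} (hb : Sb v0 v1 1 b)
    (N : ℕ) (K : ℕ → ℝ) (hK : ∀ n, 0 ≤ K n) (c0 : ℝ) (hc0 : 0 < c0) : ∃ C : ℝ, 0 < C ∧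
    ∀ (κ k : ℕ), κ ≤ k → ∀ (p q : X m), c0 * 4 ^ k ≤ ‖p - q‖ → ‖p - q‖ ≤ c0⁻¹ * 4 ^ k →
    ∀ Ψ Ψ' : E m → ℝ, Sy K ((2 : ℝ) ^ k) Ψ → Sy K ((2 : ℝ) ^ k) Ψ' → ∀ G G' : Finset (Pk m),
    (∀ a ∈ G, a.1 ∈ J m κ) → (∀ a ∈ G', a.1 ∈ J m κ) →
    Xp χ b Φ h κ G G' Ψ Ψ' p q ≤ C * (2 : ℝ)⁻¹ ^ (k * m) *
      ∑ j ∈ (J m k).filter (fun j => tc2 χ κ k G Ψ G' Ψ' j),
        1 / (1 + ‖Lk k (w k j) (p - q)‖) ^ N := by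
  obtain ⟨C1, M, hC1, hg⟩ := gramU hm hR.hpos hχ hb N K hK c0 hc0
  obtain ⟨C2, hC2, hd⟩ := hR.dec M
  refine ⟨C2 * C2 * C1, by positivity, ?_⟩
  intro κ k hk p q h1 h2 Ψ Ψ' hΨ hΨ' G G' hG hG'
  have h3 := XP_core (Φ := Φ) (cA := C2) (cB := C2) hC2.le hC2.le
    (hg κ k hk p q h1 h2 Ψ Ψ' hΨ hΨ' G G' hG hG')
    (fun a _ => by rw [mul_one_div]; exact hd _) (fun a _ => by rw [mul_one_div]; exact hd _)
  refine h3.trans (le_of_eq ?_)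
  ring

private theorem XP_num {x1 x2 x3 C1 C2 C3 T S1 S2 r : ℝ}
    (e1 : x1 ≤ C2 * C2 * (C1 * T * S1)) (e2 : x2 ≤ C2 * (C3 / r) * (C1 * T * S2))
    (e3 : x3 ≤ (C3 / r) * C2 * (C1 * T * S2)) (h1 : 0 ≤ C1) (h2 : 0 ≤ C2) (h3 : 0 ≤ C3)
    (hT : 0 ≤ T) (hS1 : 0 ≤ S1) (hS2 : 0 ≤ S2) (hr : 0 < r) :
    x1 + x2 + x3 ≤ C1 * (C2 * C2 + 2 * (C2 * C3)) * T * (S1 + 1 / r * S2) := by
  have h4 : 0 ≤ 1 / r * S2 := mul_nonneg (by positivity) hS2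
  have h5 : 0 ≤ C1 * T := mul_nonneg h1 hT
  have h6 : 0 ≤ C1 * T * (C2 * C3 * S1) := mul_nonneg h5 (mul_nonneg (mul_nonneg h2 h3) hS1)
  have h7 : 0 ≤ C1 * T * (C2 * C2 * (1 / r * S2)) :=
    mul_nonneg h5 (mul_nonneg (mul_nonneg h2 h2) h4)
  have h8 : C1 * (C2 * C2 + 2 * (C2 * C3)) * T * (S1 + 1 / r * S2) =
      C2 * C2 * (C1 * T * S1) + C2 * (C3 / r) * (C1 * T * S2) + (C3 / r) * C2 * (C1 * T * S2) +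
      2 * (C1 * T * (C2 * C3 * S1)) + C1 * T * (C2 * C2 * (1 / r * S2)) := by ring
  rw [h8]
  linarith

open scoped Classical in
private theorem XP_split {m : ℕ} {h : ℝ} {Φ : X m → ℂ} {χ : E m → ℝ} {b : V m → ℂ}
    {κ : ℕ} {p q : X m} {Ψ Ψ' : E m → ℝ} (G G' : Finset (Pk m)) (P Q : Pk m → Prop) :
    Xp χ b Φ h κ G G' Ψ Ψ' p q =
      Xp χ b Φ h κ (G.filter P) (G'.filter Q) Ψ Ψ' p q +
      Xp χ b Φ h κ (G.filter P) (G'.filter (fun a => ¬ Q a)) Ψ Ψ' p q +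
      Xp χ b Φ h κ (G.filter (fun a => ¬ P a)) G' Ψ Ψ' p q := by
  unfold Xp
  rw [← Finset.sum_filter_add_sum_filter_not G P]
  congr 1
  rw [← Finset.sum_add_distrib]
  refine Finset.sum_congr rfl fun a _ => ?_
  rw [Finset.sum_filter_add_sum_filter_not]

open scoped Classical in
theorem Xp_near {m : ℕ} (hm : 1 ≤ m) {h v0 v1 ρ R : ℝ} {Φ Φh : X m → ℂ}
    (hR : Rp h v0 v1 ρ R Φ Φh) {χ : E m → ℝ} (hχ : Pu χ) {b : V m → ℂ} (hb : Sb v0 v1 1 b)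
    (N M0 : ℕ) (K : ℕ → ℝ) (hK : ∀ n, 0 ≤ K n) (c0 : ℝ) (hc0 : 0 < c0) : ∃ C : ℝ, 0 < C ∧
    ∀ (κ k : ℕ), κ ≤ k → ∀ (p q : X m), c0 * 4 ^ k ≤ ‖p - q‖ → ‖p - q‖ ≤ c0⁻¹ * 4 ^ k →
    ∀ Ψ Ψ' : E m → ℝ, Sy K ((2 : ℝ) ^ k) Ψ → Sy K ((2 : ℝ) ^ k) Ψ' → ∀ G G' : Finset (Pk m),
    (∀ a ∈ G, a.1 ∈ J m κ) → (∀ a ∈ G', a.1 ∈ J m κ) → ∀ r : ℝ, 1 ≤ r →
    Xp χ b Φ h κ G G' Ψ Ψ' p q ≤ C * (2 : ℝ)⁻¹ ^ (k * m) *
      (∑ j ∈ (J m k).filter (fun j => tc2 χ κ k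
          (G.filter (fun a => ‖nd h a.2 - Lk κ (w κ a.1) p‖ ≤ r)) Ψ
          (G'.filter (fun a => ‖nd h a.2 - Lk κ (w κ a.1) q‖ ≤ r)) Ψ' j),
        1 / (1 + ‖Lk k (w k j) (p - q)‖) ^ N +
      1 / r ^ M0 * ∑ j ∈ J m k, 1 / (1 + ‖Lk k (w k j) (p - q)‖) ^ N) := by
  obtain ⟨C1, M, hC1, hg⟩ := gramU hm hR.hpos hχ hb N K hK c0 hc0
  obtain ⟨C2, hC2, hd⟩ := hR.dec M
  obtain ⟨C3, hC3, hf⟩ := hR.dec (M + M0)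
  refine ⟨C1 * (C2 * C2 + 2 * (C2 * C3)), by positivity, ?_⟩
  intro κ k hk p q h1 h2 Ψ Ψ' hΨ hΨ' G G' hG hG' r hr
  have hr0 : 0 < r := lt_of_lt_of_le one_pos hr
  have hrM : 0 < r ^ M0 := pow_pos hr0 M0
  have hd' : ∀ Z : X m, ‖Φ Z‖ ≤ C2 * (1 / (1 + ‖Z‖) ^ M) := fun Z => by
    rw [mul_one_div]; exact hd Z
  -- the sum over a filter is at most the full sum
  have hsub : ∀ G1 G2 : Finset (Pk m), ∑ j ∈ (J m k).filter (fun j => tc2 χ κ k G1 Ψ G2 Ψ' j),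
      1 / (1 + ‖Lk k (w k j) (p - q)‖) ^ N ≤ ∑ j ∈ J m k, 1 / (1 + ‖Lk k (w k j) (p - q)‖) ^ N :=
    fun G1 G2 => Finset.sum_le_sum_of_subset_of_nonneg (Finset.filter_subset _ _)
      (fun j _ _ => by positivity)
  set P : Pk m → Prop := fun a => ‖nd h a.2 - Lk κ (w κ a.1) p‖ ≤ r with hP
  set Q : Pk m → Prop := fun a => ‖nd h a.2 - Lk κ (w κ a.1) q‖ ≤ r with hQ
  set S1 : ℝ := ∑ j ∈ (J m k).filter (fun j => tc2 χ κ k (G.filter P) Ψ (G'.filter Q) Ψ' j),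
    1 / (1 + ‖Lk k (w k j) (p - q)‖) ^ N with hS1
  set S2 : ℝ := ∑ j ∈ J m k, 1 / (1 + ‖Lk k (w k j) (p - q)‖) ^ N with hS2
  have hS1n : 0 ≤ S1 := Finset.sum_nonneg fun j _ => by positivity
  have hS2n : 0 ≤ S2 := Finset.sum_nonneg fun j _ => by positivity
  have hT : (0 : ℝ) ≤ (2 : ℝ)⁻¹ ^ (k * m) := by positivity
  have e1 : Xp χ b Φ h κ (G.filter P) (G'.filter Q) Ψ Ψ' p q ≤
      C2 * C2 * (C1 * (2 : ℝ)⁻¹ ^ (k * m) * S1) :=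
    XP_core hC2.le hC2.le (hg κ k hk p q h1 h2 Ψ Ψ' hΨ hΨ' _ _
      (fun a ha => hG a (Finset.mem_filter.1 ha).1) (fun a ha => hG' a (Finset.mem_filter.1 ha).1))
      (fun a _ => hd' _) (fun a _ => hd' _)
  have e2 : Xp χ b Φ h κ (G.filter P) (G'.filter (fun a => ¬ Q a)) Ψ Ψ' p q ≤
      C2 * (C3 / r ^ M0) * (C1 * (2 : ℝ)⁻¹ ^ (k * m) * S2) := by
    refine (XP_core (cA := C2) (cB := C3 / r ^ M0) hC2.le (div_nonneg hC3.le hrM.le)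
      (hg κ k hk p q h1 h2 Ψ Ψ' hΨ hΨ' _ _
      (fun a ha => hG a (Finset.mem_filter.1 ha).1) (fun a ha => hG' a (Finset.mem_filter.1 ha).1))
      (fun a _ => hd' _) (fun a ha => XP_far hC3 hr (hf _) ?_)).trans ?_
    · exact not_le.1 (Finset.mem_filter.1 ha).2
    · exact mul_le_mul_of_nonneg_left (mul_le_mul_of_nonneg_left (hsub _ _)
        (mul_nonneg hC1.le hT)) (mul_nonneg hC2.le (div_nonneg hC3.le hrM.le))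
  have e3 : Xp χ b Φ h κ (G.filter (fun a => ¬ P a)) G' Ψ Ψ' p q ≤
      (C3 / r ^ M0) * C2 * (C1 * (2 : ℝ)⁻¹ ^ (k * m) * S2) := by
    refine (XP_core (cA := C3 / r ^ M0) (cB := C2) (div_nonneg hC3.le hrM.le) hC2.le
      (hg κ k hk p q h1 h2 Ψ Ψ' hΨ hΨ' _ _
      (fun a ha => hG a (Finset.mem_filter.1 ha).1) hG')
      (fun a ha => XP_far hC3 hr (hf _) ?_) (fun a _ => hd' _)).trans ?_
    · exact not_le.1 (Finset.mem_filter.1 ha).2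
    · exact mul_le_mul_of_nonneg_left (mul_le_mul_of_nonneg_left (hsub _ _)
        (mul_nonneg hC1.le hT)) (mul_nonneg (div_nonneg hC3.le hrM.le) hC2.le)
  rw [XP_split G G' P Q]
  exact XP_num e1 e2 e3 hC1.le hC2.le hC3.le hT hS1n hS2n hrM

end Pool.LibCA93
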