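import Pool.Agent.LibCA93.D3
import Pool.Agent.LibCA93.XP
import Pool.Agent.LibST49.K5
import Pool.Agent.LibST49.A2

/-
PLAN (D4, STRONG). Put k := kz (p-q) >= kap ν (sep_blk, kz_spec), θ := th ν (idx p q) >= 1, N' := max of the exponents M' of dirsum(N) , plus M. growth_pair and Xp_le (c0 = 1/4, exponent N'): Xp <= C 4^-k SUM_(j in tc2) (1+‖Lk k (w k j) Z‖)^-N',
Z = p - q, and 4^-k <= C (1+‖Z‖)^-1 (m = 2: Mk has the factor (1+‖Z‖)^(-(2/2))). By dirsum SUM_(j in J 2 k) (1+‖Lk‖)^-M' <= C/(1+ee Z)^N (ee = |ny - |rad||). If all j in tc2 have ‖Lk k (w k j) Z‖ > θ: SUM <= θ^-M C /(1+ee)^N: this is the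
tail term. Otherwise there is j in tc2 with ‖Lk k (w k j) Z‖ <= θ; the ω of tc2 satisfies ‖Lk k ω Z‖ <= 20 θ (near_Lk below), and we are done if idx < i0, or if LT holds with K = 20. near null pairs: kp p = kp q implies ‖Z‖ < 2^(kp+5): since
‖Lk k ω Z‖ <= 20θ is small compared with 2^k .. : |x + 2sω| <= 20 θ 2^k, |t + <x,ω> + s|ω|^2| <= 20 θ, so |ee Z| (ny + |rad|) = |‖x‖^2 - 4st| = |‖x+2sω‖^2 - 4 s (t + <x,ω> + s|ω|^2)| <= 400 θ^2 4^k + 320 θ 4^k; so ee <= C θ^2 and ‖Z‖ <= ny + |rad| <= 2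
|rad Z| + ee <= 2 2^kp + C θ^2; if ‖Z‖ >= 2^(kp+5) this is a contradiction because θ^2 C <= ‖Z‖/4 (θ = 2^(a_l) <= 2^(idx/40300), ν >= ν0). LT: second clause: for l with inW ν l (idx), i0 <= idx gives l1 <= l by hypothesis, lev_sep gives l <
spl, so A l (pil l (blk p)) ω /= 0 (Pr_ne, tc2), A l = As, as_light. Third clause (idx < 40300 ν): use Xp_near with r = 2^ν (th = 2^ν) instead of Xp_le: the far term is r^-M0 SUM_(all j), M0 = M: tail; in the near term a in G with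
‖nd - Lk p‖ <= 2^ν and χ(2^κ ω - iv a.1) /= 0: cel (kap ν) a.1 ω, hypothesis (hk): ¬ Hv ν u S p a.1: LB. Same for q. (If i0 > idx nothing is needed.)
-/

set_option autoImplicit false

noncomputable section

open MeasureTheory Metric Set Filter

namespace Pool.LibCA93

open Pool.LibSR53 Pool.LibST49

private lemma D4_cel_norm (k : ℕ) (j : Fin 2 → ℤ) (ω : E 2) (hω : cel k j ω) :
    ‖ω - w k j‖ ≤ 2 * (2 : ℝ)⁻¹ ^ k := by
  have ha : (0 : ℝ) < (2 : ℝ)⁻¹ ^ k := by positivity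
  have h1 : ∀ i, ‖(ω - w k j) i‖ ≤ (2 : ℝ)⁻¹ ^ k := by
    intro i
    have h2 := hω i
    have h3 : (ω - w k j) i = (2 : ℝ)⁻¹ ^ k * ((2 : ℝ) ^ k * ω i - j i) := by
      have h4 : (2 : ℝ)⁻¹ ^ k * (2 : ℝ) ^ k = 1 := by
        rw [← mul_pow]
        norm_num
      have h5 : (ω - w k j) i = ω i - (2 : ℝ)⁻¹ ^ k * (j i : ℝ) := rfl
      rw [h5, mul_sub, ← mul_assoc, h4, one_mul]
    rw [h3, Real.norm_eq_abs, abs_mul, abs_of_pos ha]
    exact mul_le_of_le_one_right ha.le h2.le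
  have h2 : ‖ω - w k j‖ ^ 2 ≤ (2 * (2 : ℝ)⁻¹ ^ k) ^ 2 := by
    rw [EuclideanSpace.norm_sq_eq, Fin.sum_univ_two]
    have h3 := pow_le_pow_left₀ (norm_nonneg _) (h1 0) 2
    have h4 := pow_le_pow_left₀ (norm_nonneg _) (h1 1) 2
    have h5 : (0 : ℝ) ≤ ((2 : ℝ)⁻¹ ^ k) ^ 2 := by positivity
    nlinarith
  exact (pow_le_pow_iff_left₀ (norm_nonneg _) (by positivity) (by norm_num)).1 h2

theorem near_Lk (Z : X 2) (k : ℕ) (hk : ‖Z‖ < 4 ^ (k + 1)) (j : Fin 2 → ℤ) (ω : E 2)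
    (hω : cel k j ω) (θ : ℝ) (hθ : 1 ≤ θ) (h : ‖Lk k (w k j) Z‖ ≤ θ) :
    ‖Lk k ω Z‖ ≤ 20 * θ := by
  have h1 := Lk_comp 2 (by norm_num) k k le_rfl (w k j) ω (D4_cel_norm k j ω hω) Z
  nlinarith

private lemma D4_defect {m : ℕ} (c0 : ℝ) (hc0 : 0 < c0) (k : ℕ) (Z : X m)
    (h1 : c0 * 4 ^ k ≤ ‖Z‖) (h2 : ‖Z‖ ≤ c0⁻¹ * 4 ^ k) (ω : E m) :
    1 + abs (ny Z - |rad Z|) ≤ (1 + c0⁻¹ * (1 + 4 * c0⁻¹)) * (1 + ‖Lk k ω Z‖) ^ 2 := by
  set L : X m := Lk k ω Z with hL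
  have hL1 : ‖L.1‖ ≤ ‖L‖ := norm_fst_le L
  have hL3 : |L.2.2| ≤ ‖L‖ := (norm_snd_le L.2).trans (norm_snd_le L)
  have hs : |Z.2.1| ≤ c0⁻¹ * 4 ^ k := ((norm_fst_le Z.2).trans (norm_snd_le Z)).trans h2
  have h4 : (0 : ℝ) < 4 ^ k := by positivity
  have hB : ‖Z.1 + (2 * Z.2.1) • ω‖ ^ 2 = 4 ^ k * ‖L.1‖ ^ 2 := by
    rw [hL]
    simp only [Lk]
    rw [norm_smul, mul_pow, norm_pow, norm_inv, Real.norm_ofNat, ← pow_mul, mul_comm k 2,
      pow_mul, ← mul_assoc]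
    have h5 : (4 : ℝ) ^ k * ((2⁻¹ : ℝ) ^ 2) ^ k = 1 := by
      rw [← mul_pow]
      norm_num
    rw [h5, one_mul]
  have hA : L.2.2 = Z.2.2 + inner ℝ Z.1 ω + Z.2.1 * ‖ω‖ ^ 2 := rfl
  have hid : ny Z ^ 2 - |rad Z| ^ 2 = 4 ^ k * ‖L.1‖ ^ 2 - 4 * Z.2.1 * L.2.2 := by
    rw [← hB, hA, sq_abs]
    unfold ny rad
    rw [Real.sq_sqrt (by positivity), norm_add_sq_real, norm_smul, real_inner_smul_right,
      mul_pow, Real.norm_eq_abs, sq_abs]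
    ring
  have hnn := ny_nonneg Z
  have hsum : c0 * 4 ^ k ≤ ny Z + |rad Z| := h1.trans (norm_le_ny Z)
  have h6 : abs (ny Z - |rad Z|) * (c0 * 4 ^ k) ≤ 4 ^ k * (1 + 4 * c0⁻¹) * (1 + ‖L‖) ^ 2 := by
    calc abs (ny Z - |rad Z|) * (c0 * 4 ^ k)
        ≤ abs (ny Z - |rad Z|) * (ny Z + |rad Z|) :=
          mul_le_mul_of_nonneg_left hsum (abs_nonneg _)
      _ = abs (ny Z ^ 2 - |rad Z| ^ 2) := by
          rw [← abs_of_nonneg (add_nonneg hnn (abs_nonneg (rad Z))), ← abs_mul]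
          congr 1
          ring
      _ = abs (4 ^ k * ‖L.1‖ ^ 2 - 4 * Z.2.1 * L.2.2) := by rw [hid]
      _ ≤ 4 ^ k * ‖L.1‖ ^ 2 + 4 * |Z.2.1| * |L.2.2| := by
          refine (abs_sub _ _).trans (le_of_eq ?_)
          rw [abs_of_nonneg (by positivity : (0 : ℝ) ≤ 4 ^ k * ‖L.1‖ ^ 2), abs_mul, abs_mul]
          norm_num
      _ ≤ 4 ^ k * ‖L‖ ^ 2 + 4 * (c0⁻¹ * 4 ^ k) * ‖L‖ := by
          gcongr
      _ ≤ 4 ^ k * (1 + 4 * c0⁻¹) * (1 + ‖L‖) ^ 2 := by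
          have h7 : ‖L‖ ^ 2 ≤ (1 + ‖L‖) ^ 2 := by
            have := norm_nonneg L
            nlinarith
          have h8 : ‖L‖ ≤ (1 + ‖L‖) ^ 2 := by
            have := norm_nonneg L
            nlinarith
          have h9 : 4 ^ k * ‖L‖ ^ 2 ≤ 4 ^ k * (1 + ‖L‖) ^ 2 := by gcongr
          have h10 : 4 * (c0⁻¹ * 4 ^ k) * ‖L‖ ≤ 4 * (c0⁻¹ * 4 ^ k) * (1 + ‖L‖) ^ 2 := by gcongr
          calc _ ≤ 4 ^ k * (1 + ‖L‖) ^ 2 + 4 * (c0⁻¹ * 4 ^ k) * (1 + ‖L‖) ^ 2 :=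
                add_le_add h9 h10
            _ = _ := by ring
  have h11 : abs (ny Z - |rad Z|) ≤ c0⁻¹ * (1 + 4 * c0⁻¹) * (1 + ‖L‖) ^ 2 := by
    have h12 : abs (ny Z - |rad Z|) * (c0 * 4 ^ k) ≤
        (c0⁻¹ * (1 + 4 * c0⁻¹) * (1 + ‖L‖) ^ 2) * (c0 * 4 ^ k) := by
      refine h6.trans (le_of_eq ?_)
      field_simp
    exact le_of_mul_le_mul_right h12 (by positivity)
  have h13 : (1 : ℝ) ≤ (1 + ‖L‖) ^ 2 := by
    have := norm_nonneg L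
    nlinarith
  calc 1 + abs (ny Z - |rad Z|) ≤ (1 + ‖L‖) ^ 2 + c0⁻¹ * (1 + 4 * c0⁻¹) * (1 + ‖L‖) ^ 2 :=
        add_le_add h13 h11
    _ = _ := by ring

private lemma D4_Mk (Z : X 2) (N : ℕ) :
    Mk N Z = (1 + ‖Z‖)⁻¹ / (1 + abs (ny Z - |rad Z|)) ^ N := by
  unfold Mk
  have h : (-(((2 : ℕ) : ℝ) / 2)) = -1 := by norm_num
  rw [h, Real.rpow_neg_one]

private lemma D4_th (ν i : ℕ) : 1 ≤ th ν i := by
  unfold th
  exact one_le_pow₀ (by norm_num)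

/-- the dichotomy for the sum over the directions -/
private lemma D4_sum (k : ℕ) (Z : X 2) (P : (Fin 2 → ℤ) → Prop) [DecidablePred P] (θ : ℝ)
    (hθ : 1 ≤ θ) (M' M : ℕ) (D : ℝ) (I : ℝ) (hI0 : 0 ≤ I)
    (hD : ∑ j ∈ J 2 k, 1 / (1 + ‖Lk k (w k j) Z‖) ^ M' ≤ D)
    (hI : (∃ j ∈ (J 2 k).filter P, ‖Lk k (w k j) Z‖ ≤ θ) → 1 ≤ I) :
    ∑ j ∈ (J 2 k).filter P, 1 / (1 + ‖Lk k (w k j) Z‖) ^ (M' + M) ≤ D * (I + 1 / θ ^ M) := by
  have hθ0 : 0 < θ := by linarith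
  have hD0 : 0 ≤ D := le_trans (Finset.sum_nonneg fun j _ => by positivity) hD
  have hsub : ∑ j ∈ (J 2 k).filter P, 1 / (1 + ‖Lk k (w k j) Z‖) ^ M' ≤ D := by
    refine le_trans (Finset.sum_le_sum_of_subset_of_nonneg (Finset.filter_subset _ _) ?_) hD
    intro j _ _
    positivity
  by_cases h : ∃ j ∈ (J 2 k).filter P, ‖Lk k (w k j) Z‖ ≤ θ
  · have h1 := hI h
    have h2 : ∑ j ∈ (J 2 k).filter P, 1 / (1 + ‖Lk k (w k j) Z‖) ^ (M' + M) ≤ D := by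
      refine le_trans (Finset.sum_le_sum fun j _ => ?_) hsub
      refine one_div_le_one_div_of_le (by positivity) ?_
      exact pow_le_pow_right₀ (by linarith [norm_nonneg (Lk k (w k j) Z)]) (by omega)
    have h3 : 0 ≤ 1 / θ ^ M := by positivity
    calc _ ≤ D * 1 := by rw [mul_one]; exact h2
      _ ≤ _ := mul_le_mul_of_nonneg_left (by linarith) hD0
  · push Not at h
    have h1 : ∀ j ∈ (J 2 k).filter P, 1 / (1 + ‖Lk k (w k j) Z‖) ^ (M' + M) ≤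
        1 / θ ^ M * (1 / (1 + ‖Lk k (w k j) Z‖) ^ M') := by
      intro j hj
      rw [one_div_mul_one_div]
      refine one_div_le_one_div_of_le (by positivity) ?_
      rw [pow_add, mul_comm]
      refine mul_le_mul_of_nonneg_left ?_ (by positivity)
      refine pow_le_pow_left₀ hθ0.le ?_ _
      linarith [h j hj]
    calc _ ≤ ∑ j ∈ (J 2 k).filter P, 1 / θ ^ M * (1 / (1 + ‖Lk k (w k j) Z‖) ^ M') :=
          Finset.sum_le_sum h1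
      _ = 1 / θ ^ M * ∑ j ∈ (J 2 k).filter P, (1 / (1 + ‖Lk k (w k j) Z‖) ^ M') := by
          rw [Finset.mul_sum]
      _ ≤ 1 / θ ^ M * D := mul_le_mul_of_nonneg_left hsub (by positivity)
      _ = D * (0 + 1 / θ ^ M) := by ring
      _ ≤ _ := mul_le_mul_of_nonneg_left (by linarith) hD0

private lemma D4_null {ν : ℕ} {u : ℝ} {S : Finset (X 2)} {v : Fin 4 → ℤ} {J' : ℕ}
    (hS : Cf ν u S v J') (p : X 2) (hp : p ∈ S) (q : X 2) (hq : q ∈ S)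
    (hpq : blk ν p ≠ blk ν q) (hi : 40300 * ν ≤ idx p q) (ω : E 2)
    (hω : ‖Lk (kz (p - q)) ω (p - q)‖ ≤ 20 * th ν (idx p q)) :
    kp p = kp q → ‖p - q‖ < 2 ^ (kp p + 5) := by
  intro he
  by_contra hc
  push Not at hc
  have hg := cg_of_cf hS
  have hZ0 : (4 : ℝ) ^ kap ν ≤ ‖p - q‖ := sep_blk hg p hp q hq hpq
  have hZ1 : 1 ≤ ‖p - q‖ := le_trans (one_le_pow₀ (by norm_num)) hZ0
  obtain ⟨hk1, hk2⟩ := kz_spec (p - q) hZ1
  have hν := hS.nu1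
  -- the index
  have hidx : idx p q = Nat.log 2 ⌊‖p - q‖⌋₊ := by
    unfold idx
    rw [if_pos he]
  have h2i : (2 : ℝ) ^ idx p q ≤ ‖p - q‖ := by
    rw [hidx]
    have h1 : 1 ≤ ⌊‖p - q‖⌋₊ := (Nat.one_le_floor_iff _).2 hZ1
    have h2 : 2 ^ Nat.log 2 ⌊‖p - q‖⌋₊ ≤ ⌊‖p - q‖⌋₊ := Nat.pow_log_le_self 2 (by omega)
    have h3 : ((2 ^ Nat.log 2 ⌊‖p - q‖⌋₊ : ℕ) : ℝ) ≤ (⌊‖p - q‖⌋₊ : ℝ) := by exact_mod_cast h2
    push_cast at h3
    exact h3.trans (Nat.floor_le (norm_nonneg _))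
  -- the tolerance
  set l := Nat.log 2 (idx p q / (40300 * ν)) with hl
  have hth : th ν (idx p q) = 2 ^ (ν * 2 ^ l) := rfl
  have hdiv : 1 ≤ idx p q / (40300 * ν) := (Nat.one_le_div_iff (by omega)).2 hi
  have hl2 : 2 ^ l ≤ idx p q / (40300 * ν) := Nat.pow_log_le_self 2 (by omega)
  have hl3 : 40300 * (ν * 2 ^ l) ≤ idx p q := by
    calc 40300 * (ν * 2 ^ l) = (40300 * ν) * 2 ^ l := by ring
      _ ≤ (40300 * ν) * (idx p q / (40300 * ν)) := Nat.mul_le_mul_left _ hl2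
      _ ≤ idx p q := Nat.mul_div_le _ _
  have hap : 1 ≤ ν * 2 ^ l := Nat.one_le_iff_ne_zero.2 (by positivity)
  set θ : ℝ := th ν (idx p q) with hθ
  have hθ1 : 1 ≤ θ := D4_th _ _
  have hbig : 32768 * θ ^ 2 ≤ ‖p - q‖ := by
    refine le_trans ?_ h2i
    rw [hth, ← pow_mul]
    have h32 : (32768 : ℝ) = 2 ^ 15 := by norm_num
    rw [h32, ← pow_add]
    refine pow_le_pow_right₀ (by norm_num) ?_
    omega
  -- the defect
  have hdef := D4_defect (1 / 4) (by norm_num) (kz (p - q)) (p - q) (by linarith)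
    (by rw [pow_succ] at hk2; norm_num; linarith) ω
  have hL := norm_nonneg (Lk (kz (p - q)) ω (p - q))
  have hdef2 : 1 + abs (ny (p - q) - |rad (p - q)|) ≤ 30429 * θ ^ 2 := by
    refine hdef.trans ?_
    have h1 : (1 + ‖Lk (kz (p - q)) ω (p - q)‖) ^ 2 ≤ (21 * θ) ^ 2 :=
      pow_le_pow_left₀ (by positivity) (by linarith) 2
    norm_num
    nlinarith
  -- the radii
  have hr : ∀ z ∈ S, 1 ≤ rad z := fun z hz => le_trans (one_le_pow₀ (by norm_num)) (hS.rd z hz)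
  have hrp := kpD_spec p (hr p hp)
  have hrq := kpD_spec q (hr q hq)
  rw [← he] at hrq
  have hrad : |rad (p - q)| ≤ 2 ^ kp p := by
    rw [rad_sub, abs_le]
    rw [pow_succ] at hrp hrq
    constructor <;> linarith [hrp.1, hrp.2, hrq.1, hrq.2]
  have hny := norm_le_ny (p - q)
  have hab : ny (p - q) - |rad (p - q)| ≤ abs (ny (p - q) - |rad (p - q)|) := le_abs_self _
  have hcc : (2 : ℝ) ^ (kp p + 5) = 32 * 2 ^ kp p := by
    rw [pow_add]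
    norm_num
    ring
  rw [hcc] at hc
  have hθ2 : 0 < θ ^ 2 := by positivity
  linarith

/-- the interaction of a pair of points -/
theorem pair_bound {h v0 v1 ρ R : ℝ} {Φ Φh : X 2 → ℂ} (hR : Rp h v0 v1 ρ R Φ Φh)
    {χ : E 2 → ℝ} (hχ : Pu χ) {b : V 2 → ℂ} (hb : Sb v0 v1 1 b) (Kc : ℕ → ℝ)
    (hK : ∀ n, 0 ≤ Kc n) (M N : ℕ) : ∃ (C : ℝ) (ν0 : ℕ), 0 < C ∧
    ∀ (ν : ℕ) (u : ℝ) (S : Finset (X 2)) (v : Fin 4 → ℤ) (J' : ℕ), ν0 ≤ ν → Cf ν u S v J' →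
    ∀ A : ℕ → (ℕ × (Fin 4 → ℤ)) → E 2 → ℝ, Fam2 Kc ν A → ∀ l1 i0 : ℕ,
    (∀ l, l1 ≤ l → ∀ c, A l c = As χ ν u S v l c) →
    (∀ l i, inW ν l i → i0 ≤ i → l1 ≤ l) →
    ∀ G : (ℕ × (Fin 4 → ℤ)) → Finset (Pk 2), (∀ c, ∀ a ∈ G c, a.1 ∈ J 2 (kap ν)) →
    (i0 < 40300 * ν → ∀ c, ∀ a ∈ G c, ∀ p ∈ Sc ν S c,
      ‖nd h a.2 - Lk (kap ν) (w (kap ν) a.1) p‖ ≤ 2 ^ ν → ¬ Hv ν u S p a.1) →
    ∀ p ∈ S, ∀ q ∈ S, blk ν p ≠ blk ν q →
    Xp χ b Φ h (kap ν) (G (blk ν p)) (G (blk ν q))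
      (Pr (fun l => A l (pil ν v l (blk ν p))) (spl ν v J' (blk ν p) (blk ν q)))
      (Pr (fun l => A l (pil ν v l (blk ν q))) (spl ν v J' (blk ν p) (blk ν q))) p q ≤
    C * (Mk N (p - q) * ((open scoped Classical in
        if idx p q < i0 ∨ LT ν u S v 20 p q then (1 : ℝ) else 0) +
      1 / (th ν (idx p q)) ^ M)) := by
  obtain ⟨K', hK', hgr⟩ := growth_pair Kc hK
  obtain ⟨C1, M', hC1, hds⟩ := dirsum 2 (by norm_num) N (1 / 4) (by norm_num)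
  obtain ⟨C2, hC2, hXl⟩ := Xp_le (by norm_num : 1 ≤ 2) hR hχ hb (M' + M) K' hK' (1 / 4)
    (by norm_num)
  obtain ⟨C3, hC3, hXn⟩ := Xp_near (by norm_num : 1 ≤ 2) hR hχ hb (M' + M) M K' hK' (1 / 4)
    (by norm_num)
  refine ⟨5 * (C2 + 2 * C3) * C1, 1, by positivity, ?_⟩
  intro ν u S v J' hν hS A hA l1 i0 hAs hl1 G hGJ hGH p hp q hq hpq
  have hg := cg_of_cf hS
  have hZ0 : (4 : ℝ) ^ kap ν ≤ ‖p - q‖ := sep_blk hg p hp q hq hpq
  have hZ1 : 1 ≤ ‖p - q‖ := le_trans (one_le_pow₀ (by norm_num)) hZ0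
  obtain ⟨hk1, hk2⟩ := kz_spec (p - q) hZ1
  obtain ⟨hΨ1, hΨ2⟩ := hgr ν u S v J' A hS hA p hp q hq hpq
  set Ψ : E 2 → ℝ := Pr (fun l => A l (pil ν v l (blk ν p))) (spl ν v J' (blk ν p) (blk ν q))
    with hΨ
  set Ψ' : E 2 → ℝ := Pr (fun l => A l (pil ν v l (blk ν q))) (spl ν v J' (blk ν p) (blk ν q))
    with hΨ'
  set k := kz (p - q) with hk
  have hkk : kap ν ≤ k := by
    have h1 : (4 : ℝ) ^ kap ν < 4 ^ (k + 1) := hZ0.trans_lt hk2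
    have h2 := (pow_lt_pow_iff_right₀ (by norm_num : (1 : ℝ) < 4)).1 h1
    omega
  have hlo : 1 / 4 * (4 : ℝ) ^ k ≤ ‖p - q‖ := by
    have : (0 : ℝ) < 4 ^ k := by positivity
    linarith
  have hhi : ‖p - q‖ ≤ (1 / 4 : ℝ)⁻¹ * 4 ^ k := by
    rw [pow_succ] at hk2
    norm_num
    linarith
  set θ : ℝ := th ν (idx p q) with hθ
  have hθ1 : 1 ≤ θ := D4_th _ _
  have hθ0 : 0 < θ := by linarith
  set D : ℝ := C1 / (1 + abs (ny (p - q) - |rad (p - q)|)) ^ N with hD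
  have hD0 : 0 ≤ D := by positivity
  have hdsD := hds k (p - q) hlo hhi
  rw [← hD] at hdsD
  set I : ℝ := (open scoped Classical in
        if idx p q < i0 ∨ LT ν u S v 20 p q then (1 : ℝ) else 0) with hI
  have hI0 : 0 ≤ I := by
    rw [hI]
    split_ifs <;> norm_num
  have hI1 : (idx p q < i0 ∨ LT ν u S v 20 p q) → 1 ≤ I := by
    intro h1
    rw [hI, if_pos h1]
  have hM0 : 0 ≤ 1 / θ ^ M := by positivity
  -- passage to Mk
  have hMk : (2 : ℝ)⁻¹ ^ (k * 2) * D ≤ 5 * C1 * Mk N (p - q) := by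
    rw [D4_Mk, hD]
    have h1 : (2 : ℝ)⁻¹ ^ (k * 2) = (4 ^ k)⁻¹ := by
      rw [mul_comm, pow_mul, ← inv_pow]
      norm_num
    have h2 : (4 ^ k)⁻¹ ≤ 5 * (1 + ‖p - q‖)⁻¹ := by
      have h3 : (1 : ℝ) ≤ 4 ^ k := one_le_pow₀ (by norm_num)
      rw [pow_succ] at hk2
      rw [← one_div, ← div_eq_mul_inv, div_le_div_iff₀ (by positivity) (by positivity)]
      linarith
    rw [h1]
    calc (4 ^ k)⁻¹ * (C1 / (1 + abs (ny (p - q) - |rad (p - q)|)) ^ N) ≤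
        5 * (1 + ‖p - q‖)⁻¹ * (C1 / (1 + abs (ny (p - q) - |rad (p - q)|)) ^ N) :=
          mul_le_mul_of_nonneg_right h2 hD0
      _ = _ := by ring
  have hMk0 : 0 ≤ Mk N (p - q) := by
    rw [D4_Mk]
    positivity
  -- it suffices to bound by (C2 + 2 C3) 4^-k D (I + θ^-M)
  suffices hsuf : Xp χ b Φ h (kap ν) (G (blk ν p)) (G (blk ν q)) Ψ Ψ' p q ≤
      (C2 + 2 * C3) * (2 : ℝ)⁻¹ ^ (k * 2) * (D * (I + 1 / θ ^ M)) by
    refine hsuf.trans ?_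
    calc (C2 + 2 * C3) * (2 : ℝ)⁻¹ ^ (k * 2) * (D * (I + 1 / θ ^ M)) =
        (C2 + 2 * C3) * (((2 : ℝ)⁻¹ ^ (k * 2) * D) * (I + 1 / θ ^ M)) := by ring
      _ ≤ (C2 + 2 * C3) * ((5 * C1 * Mk N (p - q)) * (I + 1 / θ ^ M)) := by
          gcongr
      _ = _ := by ring
  have hp2 : (0 : ℝ) < (2 : ℝ)⁻¹ ^ (k * 2) := by positivity
  classical
  by_cases hcase : i0 ≤ idx p q ∧ idx p q < 40300 * ν
  · -- the base window
    obtain ⟨hi0, hi1⟩ := hcase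
    have hi2 : i0 < 40300 * ν := by omega
    have hν1 := hS.nu1
    have hθν : θ = 2 ^ ν := by
      rw [hθ]
      unfold th
      rw [Nat.div_eq_of_lt hi1]
      simp
    have hmain := hXn (kap ν) k hkk p q hlo hhi Ψ Ψ' hΨ1 hΨ2 (G (blk ν p)) (G (blk ν q))
      (hGJ _) (hGJ _) (2 ^ ν) (one_le_pow₀ (by norm_num))
    refine hmain.trans ?_
    rw [← hθν]
    have hA1 := D4_sum k (p - q) (fun j => tc2 χ (kap ν) k
      ((G (blk ν p)).filter (fun a => ‖nd h a.2 - Lk (kap ν) (w (kap ν) a.1) p‖ ≤ θ)) Ψ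
      ((G (blk ν q)).filter (fun a => ‖nd h a.2 - Lk (kap ν) (w (kap ν) a.1) q‖ ≤ θ)) Ψ' j)
      θ hθ1 M' M D I hI0 hdsD ?_
    · have hA2 : ∑ j ∈ J 2 k, 1 / (1 + ‖Lk k (w k j) (p - q)‖) ^ (M' + M) ≤ D := by
        refine le_trans (Finset.sum_le_sum fun j _ => ?_) hdsD
        refine one_div_le_one_div_of_le (by positivity) ?_
        exact pow_le_pow_right₀ (by linarith [norm_nonneg (Lk k (w k j) (p - q))]) (by omega)
      have hA3 : 1 / θ ^ M * ∑ j ∈ J 2 k, 1 / (1 + ‖Lk k (w k j) (p - q)‖) ^ (M' + M) ≤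
          D * (I + 1 / θ ^ M) := by
        calc _ ≤ 1 / θ ^ M * D := mul_le_mul_of_nonneg_left hA2 hM0
          _ = D * (0 + 1 / θ ^ M) := by ring
          _ ≤ _ := mul_le_mul_of_nonneg_left (by linarith) hD0
      calc _ ≤ C3 * (2 : ℝ)⁻¹ ^ (k * 2) * (D * (I + 1 / θ ^ M) + D * (I + 1 / θ ^ M)) :=
            mul_le_mul_of_nonneg_left (add_le_add hA1 hA3) (by positivity)
        _ = (0 + 2 * C3) * (2 : ℝ)⁻¹ ^ (k * 2) * (D * (I + 1 / θ ^ M)) := by ring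
        _ ≤ _ := by
            gcongr
    · rintro ⟨j, hj, hjθ⟩
      rw [Finset.mem_filter] at hj
      obtain ⟨_, ω, hω1, hωc, _, _, ⟨a, ha, haχ⟩, ⟨a', ha', haχ'⟩⟩ := hj
      rw [Finset.mem_filter] at ha ha'
      rw [hθν] at ha ha'
      refine hI1 (Or.inr ⟨ω, hω1, ?_, ?_, ?_⟩)
      · exact near_Lk (p - q) k hk2 j ω hωc θ hθ1 hjθ
      · intro h1
        omega
      · intro _
        refine ⟨⟨a.1, hGJ _ a ha.1, ?_, ?_⟩, ⟨a'.1, hGJ _ a' ha'.1, ?_, ?_⟩⟩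
        · intro i
          exact hχ.supp _ haχ i
        · refine hGH hi2 (blk ν p) a ha.1 p ?_ ha.2
          unfold Sc
          exact Finset.mem_filter.2 ⟨hp, rfl⟩
        · intro i
          exact hχ.supp _ haχ' i
        · refine hGH hi2 (blk ν q) a' ha'.1 q ?_ ha'.2
          unfold Sc
          exact Finset.mem_filter.2 ⟨hq, rfl⟩
  · -- the other windows
    have hmain := hXl (kap ν) k hkk p q hlo hhi Ψ Ψ' hΨ1 hΨ2 (G (blk ν p)) (G (blk ν q))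
      (hGJ _) (hGJ _)
    refine hmain.trans ?_
    have hA1 := D4_sum k (p - q) (fun j => tc2 χ (kap ν) k (G (blk ν p)) Ψ (G (blk ν q)) Ψ' j)
      θ hθ1 M' M D I hI0 hdsD ?_
    · calc _ ≤ C2 * (2 : ℝ)⁻¹ ^ (k * 2) * (D * (I + 1 / θ ^ M)) :=
            mul_le_mul_of_nonneg_left hA1 (by positivity)
        _ = (C2 + 0) * (2 : ℝ)⁻¹ ^ (k * 2) * (D * (I + 1 / θ ^ M)) := by ring
        _ ≤ _ := by
            gcongr
            positivity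
    · rintro ⟨j, hj, hjθ⟩
      rw [Finset.mem_filter] at hj
      obtain ⟨_, ω, hω1, hωc, hω2, hω3, _, _⟩ := hj
      by_cases hi0 : idx p q < i0
      · exact hI1 (Or.inl hi0)
      · have hi1 : 40300 * ν ≤ idx p q := by
          by_contra h1
          exact hcase ⟨by omega, by omega⟩
        have hnear : ‖Lk (kz (p - q)) ω (p - q)‖ ≤ 20 * th ν (idx p q) :=
          near_Lk (p - q) k hk2 j ω hωc θ hθ1 hjθ
        have hnull := D4_null hS p hp q hq hpq hi1 ω hnear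
        refine hI1 (Or.inr ⟨ω, hω1, hnear, ?_, ?_⟩)
        · intro _ l hl
          have hll := hl1 l _ hl (by omega)
          have hlt := lev_sep hS p hp q hq hpq hnull l hl
          refine ⟨as_light hχ ν u S v l p ω hω1 ?_, as_light hχ ν u S v l q ω hω1 ?_⟩
          · have h1 : A l (pil ν v l (blk ν p)) ω ≠ 0 :=
              Finset.prod_ne_zero_iff.1 hω2 l (Finset.mem_range.2 hlt)
            rw [hAs l hll] at h1
            exact h1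
          · have h1 : A l (pil ν v l (blk ν q)) ω ≠ 0 :=
              Finset.prod_ne_zero_iff.1 hω3 l (Finset.mem_range.2 hlt)
            rw [hAs l hll] at h1
            exact h1
        · intro h1
          omega

end Pool.LibCA93
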