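import Pool.Agent.LibCA93.D4
import Pool.Agent.LibCA93.BdC

/-
PLAN (D5, MEDIUM). Cr is the sum over ordered pairs of different blocks c, c' of Bs ν S and p in Sc c, q in Sc c' of 2^((c.1 + c'.1) (2/2)) Xp = sum over p, q in S with blk q /= blk p (regroup: Finset.sum_fiberwise_of_maps_to, blk ν p = c); c.1 = kp p. So
Cr <= C En (pair_bound, K = 20) and energy (K = 20, M = 4, N = 10) bounds it by C (1 + u i0) WX = C(1 + u i0) Wt (wt_bk).
-/

set_option autoImplicit false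

noncomputable section

open MeasureTheory Metric Set Filter

namespace Pool.LibCA93

open Pool.LibSR53 Pool.LibST49

private theorem D5_mem_Sc {ν : ℕ} {S : Finset (X 2)} {c : ℕ × (Fin 4 → ℤ)} {p : X 2} :
    p ∈ Sc ν S c ↔ p ∈ S ∧ blk ν p = c := by
  classical
  unfold Sc
  simp only [Finset.mem_filter]

private theorem D5_regroup {ν : ℕ} {S : Finset (X 2)} (f : X 2 → X 2 → ℝ) :
    ∑ i ∈ Bs ν S, ∑ i' ∈ (Bs ν S).erase i, ∑ p ∈ Sc ν S i, ∑ q ∈ Sc ν S i', f p q =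
      ∑ p ∈ S, (open scoped Classical in ∑ q ∈ S.filter (fun q => blk ν q ≠ blk ν p), f p q) := by
  classical
  have h1 : ∀ p ∈ S, ∑ i' ∈ (Bs ν S).erase (blk ν p), ∑ q ∈ Sc ν S i', f p q =
      ∑ q ∈ S.filter (fun q => blk ν q ≠ blk ν p), f p q := by
    intro p hp
    have hm : ∀ q ∈ S.filter (fun q => blk ν q ≠ blk ν p),
        blk ν q ∈ (Bs ν S).erase (blk ν p) := by
      intro q hq
      rw [Finset.mem_filter] at hq
      rw [Finset.mem_erase]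
      refine ⟨hq.2, ?_⟩
      unfold Bs
      exact Finset.mem_image_of_mem _ hq.1
    rw [← Finset.sum_fiberwise_of_maps_to hm]
    refine Finset.sum_congr rfl (fun i' hi' => ?_)
    refine Finset.sum_congr ?_ (fun _ _ => rfl)
    ext q
    rw [D5_mem_Sc, Finset.mem_filter, Finset.mem_filter]
    rw [Finset.mem_erase] at hi'
    constructor
    · rintro ⟨h1, h2⟩
      refine ⟨⟨h1, ?_⟩, h2⟩
      rw [h2]; exact hi'.1
    · rintro ⟨⟨h1, h2⟩, h3⟩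
      exact ⟨h1, h3⟩
  have hm2 : ∀ p ∈ S, blk ν p ∈ Bs ν S := by
    intro p hp
    unfold Bs
    exact Finset.mem_image_of_mem _ hp
  rw [← Finset.sum_fiberwise_of_maps_to hm2]
  refine Finset.sum_congr rfl (fun i hi => ?_)
  rw [Finset.sum_comm]
  have hS : (Sc ν S i) = S.filter (fun p => blk ν p = i) := by
    ext q
    rw [D5_mem_Sc, Finset.mem_filter]
  rw [hS]
  refine Finset.sum_congr rfl (fun p hp => ?_)
  rw [Finset.mem_filter] at hp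
  rw [← hp.2]
  exact h1 p hp.1

/-- the cross terms are bounded by the weight -/
theorem Cr_le {h v0 v1 ρ R : ℝ} {Φ Φh : X 2 → ℂ} (hR : Rp h v0 v1 ρ R Φ Φh)
    {χ : E 2 → ℝ} (hχ : Pu χ) {b : V 2 → ℂ} (hb : Sb v0 v1 1 b) (Kc : ℕ → ℝ)
    (hK : ∀ n, 0 ≤ Kc n) : ∃ (C : ℝ) (ν0 : ℕ), 0 < C ∧
    ∀ (ν : ℕ) (u : ℝ) (S : Finset (X 2)) (v : Fin 4 → ℤ) (J' : ℕ), ν0 ≤ ν → Cf ν u S v J' →
    ∀ A : ℕ → (ℕ × (Fin 4 → ℤ)) → E 2 → ℝ, Fam2 Kc ν A → ∀ l1 i0 : ℕ,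
    (∀ l, l1 ≤ l → ∀ c, A l c = As χ ν u S v l c) →
    (∀ l i, inW ν l i → i0 ≤ i → l1 ≤ l) →
    ∀ G : (ℕ × (Fin 4 → ℤ)) → Finset (Pk 2), (∀ c, ∀ a ∈ G c, a.1 ∈ J 2 (kap ν)) →
    (i0 < 40300 * ν → ∀ c, ∀ a ∈ G c, ∀ p ∈ Sc ν S c,
      ‖nd h a.2 - Lk (kap ν) (w (kap ν) a.1) p‖ ≤ 2 ^ ν → ¬ Hv ν u S p a.1) →
    Cr χ b Φ h (kap ν) (Bs ν S) (fun c => c.1) (Sc ν S) G (pil ν v) (spl ν v J') A ≤
      C * (1 + u * i0) * WX S := by
  classical
  obtain ⟨C1, n1, hC1, H1⟩ := pair_bound hR hχ hb Kc hK 4 10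
  obtain ⟨C2, n2, hC2, H2⟩ := energy 20 4 10 le_rfl le_rfl
  refine ⟨C1 * C2, max n1 n2, mul_pos hC1 hC2, ?_⟩
  intro ν u S v J' hν hS A hA l1 i0 hl1 hi0 G hG hGl
  have hE := H2 ν u S v J' (le_trans (le_max_right _ _) hν) hS i0
  have hP := H1 ν u S v J' (le_trans (le_max_left _ _) hν) hS A hA l1 i0 hl1 hi0 G hG hGl
  have hkey : Cr χ b Φ h (kap ν) (Bs ν S) (fun c => c.1) (Sc ν S) G (pil ν v) (spl ν v J') A ≤
      C1 * En ν u S v 20 4 10 i0 := by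
    have hEn : C1 * En ν u S v 20 4 10 i0 =
        ∑ p ∈ S, ∑ q ∈ S.filter (fun q => blk ν q ≠ blk ν p), (C1 * ((2 : ℝ) ^ (kp p + kp q) *
          (Mk 10 (p - q) * ((if idx p q < i0 ∨ LT ν u S v 20 p q then 1 else 0) +
            1 / (th ν (idx p q)) ^ 4)))) := by
      unfold En
      rw [Finset.mul_sum]
      refine Finset.sum_congr rfl (fun p hp => ?_)
      rw [Finset.mul_sum]
    rw [hEn]
    have hreg := D5_regroup (ν := ν) (S := S) (fun p q => C1 * ((2 : ℝ) ^ (kp p + kp q) *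
          (Mk 10 (p - q) * ((if idx p q < i0 ∨ LT ν u S v 20 p q then 1 else 0) +
            1 / (th ν (idx p q)) ^ 4))))
    rw [← hreg]
    unfold Cr
    refine Finset.sum_le_sum (fun i hi => ?_)
    refine Finset.sum_le_sum (fun i' hi' => ?_)
    rw [Finset.mul_sum]
    refine Finset.sum_le_sum (fun p hp => ?_)
    rw [Finset.mul_sum]
    refine Finset.sum_le_sum (fun q hq => ?_)
    rw [D5_mem_Sc] at hp hq
    rw [Finset.mem_erase] at hi'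
    obtain ⟨hpS, rfl⟩ := hp
    obtain ⟨hqS, rfl⟩ := hq
    have hb := hP p hpS q hqS (fun hh => hi'.1 hh.symm)
    have hpw : (2 : ℝ) ^ ((((blk ν p).1 : ℝ) + ((blk ν q).1 : ℝ)) * (((2 : ℕ) : ℝ) / 2)) =
        (2 : ℝ) ^ (kp p + kp q) := by
      have : (((blk ν p).1 : ℝ) + ((blk ν q).1 : ℝ)) * (((2 : ℕ) : ℝ) / 2) =
          ((kp p + kp q : ℕ) : ℝ) := by
        unfold blk
        push_cast
        ring
      rw [this, Real.rpow_natCast]
    show (2 : ℝ) ^ ((((blk ν p).1 : ℝ) + ((blk ν q).1 : ℝ)) * (((2 : ℕ) : ℝ) / 2)) * _ ≤ _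
    rw [hpw]
    have h2 : (0 : ℝ) ≤ (2 : ℝ) ^ (kp p + kp q) := by positivity
    calc _ ≤ (2 : ℝ) ^ (kp p + kp q) * (C1 * (Mk 10 (p - q) *
          ((if idx p q < i0 ∨ LT ν u S v 20 p q then (1 : ℝ) else 0) +
            1 / (th ν (idx p q)) ^ 4))) := mul_le_mul_of_nonneg_left hb h2
      _ = _ := by ring
  calc _ ≤ _ := hkey
    _ ≤ C1 * (C2 * (1 + u * i0) * WX S) := mul_le_mul_of_nonneg_left hE hC1.le
    _ = _ := by ring

end Pool.LibCA93
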