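import Pool.Agent.LibCA93.D3
import Pool.Agent.LibCA93.L1T
import Pool.Agent.LibCA93.BdC

/-
PLAN (D6, STRONG, two theorems). part_L1: L1T with Ψ c = Pr (AP .. l0 .. (pil l c)) J' (growth_half: blocks of Bs have c.1 >= 40300 ν). tch (c.1/2) (Ψ c) j gives ω in the cell j with 1 - As l0 ω /= 0 (Pr_ne, l0 < J'), so ω in a cell j' of Bad (as_bad); kl ν l0 <=
c.1/2 because otherwise Bad is empty (c.1 + 5 < 40300 a_l0 gives Bad = ∅, see D3): for every j' at most C 4^(c.1/2 - kl) cells j. card_Bad: number <= C 4^(c.1/2) 2^(-200 a_l0) a_l0 2^(199 a_l0). Sum: SUM_c #Sc 2^(c.1) 2^(c.1) a_l0 2^-a_l0 = ..WX.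
rem_L1: L1P with M = 6 and G c = Gr h ν u S G c: for p in Sc c and a in Gr c: there is p' in Sc c with ‖nd - Lk p'‖ <= 2^ν, Hv p' a.1. If ‖nd h a.2 - Lk p‖ <= 2^ν then ‖Lk (kap) (w a.1) (p - p')‖ <= 2^(ν+1) (Lk_sub), so a.1 is in the set of
card_Hv: SUM <= (number of labels) SUM_n (1+‖nd h n - Lk p‖)^-6 <= C 2^(2 kap)/2^ν (sum_nd, m + 3 = 5). If ‖nd - Lk p‖ > 2^ν: (1+α)^-6 <= 2^-ν (1+α)^-5: <= 2^-ν card(J) C. So SUM_p SUM_a <= C #Sc 2^(2 kap)/2^ν; with the factor 2^(-2 kap): C 2^-ν WX.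
-/

set_option autoImplicit false

noncomputable section

open MeasureTheory Metric Set Filter

namespace Pool.LibCA93

open Pool.LibSR53 Pool.LibST49

private theorem D6_mem_Sc {ν : ℕ} {S : Finset (X 2)} {c : ℕ × (Fin 4 → ℤ)} {p : X 2} :
    p ∈ Sc ν S c ↔ p ∈ S ∧ blk ν p = c := by
  classical
  unfold Sc
  simp only [Finset.mem_filter]

private theorem D6_mem_Bs {ν : ℕ} {S : Finset (X 2)} {c : ℕ × (Fin 4 → ℤ)}
    (hc : c ∈ Bs ν S) : ∃ p ∈ S, blk ν p = c := by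
  classical
  unfold Bs at hc
  exact Finset.mem_image.1 hc

private theorem D6_kp {ν : ℕ} {u : ℝ} {S : Finset (X 2)} {J' : ℕ} (hS : Cg ν u S J') (p : X 2)
    (hp : p ∈ S) : 40300 * ν ≤ kp p := by
  have h1 := hS.rd p hp
  have h2 : 1 ≤ rad p := le_trans (one_le_pow₀ (by norm_num)) h1
  have h3 := (kpD_spec p h2).2
  have h4 : (2 : ℝ) ^ (40300 * ν) < 2 ^ (kp p + 1) := lt_of_le_of_lt h1 h3
  have h5 := (pow_lt_pow_iff_right₀ (by norm_num : (1 : ℝ) < 2)).1 h4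
  omega

private theorem D6_bad_le {ν : ℕ} {u : ℝ} {S : Finset (X 2)} {v : Fin 4 → ℤ} {l : ℕ}
    {c : ℕ × (Fin 4 → ℤ)} {j : Fin 2 → ℤ} (hj : j ∈ Bad ν u S v l (pil ν v l c)) :
    40300 * aL ν l ≤ c.1 + 5 := by
  classical
  unfold Bad at hj
  rw [Finset.mem_filter] at hj
  obtain ⟨-, z, hz, hpil, h⟩ := hj
  have hc : kp z = c.1 := congrArg Prod.fst hpil
  rcases h with ⟨i, hi, hi2, _⟩ | ⟨hi, _⟩ | ⟨k', hk', h1, _⟩
  · have := hi.1
    omega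
  · have := hi.1
    omega
  · have := hk'.1
    omega

private theorem D6_count (k1 D : ℕ) (Bd F : Finset (Fin 2 → ℤ))
    (hF : ∀ j ∈ F, ∃ ω : E 2, cel (k1 + D) j ω ∧ ∃ j' ∈ Bd, cel k1 j' ω) :
    (F.card : ℝ) ≤ (Bd.card : ℝ) * (9 * 4 ^ D) := by
  classical
  have hsub : F ⊆ Bd.biUnion (fun j' => Fintype.piFinset (fun i =>
      Finset.Icc ((2 : ℤ) ^ D * j' i - 2 ^ D) (2 ^ D * j' i + 2 ^ D))) := by
    intro j hj
    obtain ⟨ω, h1, j', hj', h2⟩ := hF j hj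
    rw [Finset.mem_biUnion]
    refine ⟨j', hj', ?_⟩
    rw [Fintype.mem_piFinset]
    intro i
    rw [Finset.mem_Icc]
    have a1 := abs_lt.1 (h1 i)
    have a2 := abs_lt.1 (h2 i)
    have hp : (0 : ℝ) < 2 ^ D := by positivity
    have e : (2 : ℝ) ^ (k1 + D) * ω i = 2 ^ D * (2 ^ k1 * ω i) := by
      rw [pow_add]
      ring
    rw [e] at a1
    have b1 : (j i : ℝ) < 2 ^ D * (j' i + 1) + 1 := by nlinarith [a1.1, a1.2, a2.1, a2.2]
    have b2 : 2 ^ D * ((j' i : ℝ) - 1) - 1 < (j i : ℝ) := by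
      nlinarith [a1.1, a1.2, a2.1, a2.2]
    have c1 : j i < 2 ^ D * (j' i + 1) + 1 := by exact_mod_cast b1
    have c2 : 2 ^ D * (j' i - 1) - 1 < j i := by exact_mod_cast b2
    have d1 := Int.lt_add_one_iff.1 c1
    have d2 := Int.sub_one_lt_iff.1 c2
    constructor
    · linarith
    · linarith
  have hcard : ∀ j' : Fin 2 → ℤ, ((Fintype.piFinset (fun i =>
      Finset.Icc ((2 : ℤ) ^ D * j' i - 2 ^ D) (2 ^ D * j' i + 2 ^ D))).card : ℝ) ≤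
      9 * 4 ^ D := by
    intro j'
    rw [Fintype.card_piFinset]
    have hc : ∀ i : Fin 2, (Finset.Icc ((2 : ℤ) ^ D * j' i - 2 ^ D) (2 ^ D * j' i + 2 ^ D)).card =
        2 * 2 ^ D + 1 := by
      intro i
      rw [Int.card_Icc]
      have : (2 : ℤ) ^ D * j' i + 2 ^ D + 1 - (2 ^ D * j' i - 2 ^ D) =
          ((2 * 2 ^ D + 1 : ℕ) : ℤ) := by
        push_cast
        ring
      rw [this, Int.toNat_natCast]
    rw [Finset.prod_congr rfl (fun i _ => hc i), Finset.prod_const, Finset.card_univ,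
      Fintype.card_fin]
    push_cast
    have h4 : (4 : ℝ) ^ D = 2 ^ D * 2 ^ D := by
      rw [← mul_pow]
      norm_num
    rw [h4]
    have h1 : (1 : ℝ) ≤ 2 ^ D := one_le_pow₀ (by norm_num)
    nlinarith
  have h1 : F.card ≤ ∑ j' ∈ Bd, (Fintype.piFinset (fun i =>
      Finset.Icc ((2 : ℤ) ^ D * j' i - 2 ^ D) (2 ^ D * j' i + 2 ^ D))).card :=
    (Finset.card_le_card hsub).trans Finset.card_biUnion_le
  calc (F.card : ℝ) ≤ ((∑ j' ∈ Bd, (Fintype.piFinset (fun i =>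
      Finset.Icc ((2 : ℤ) ^ D * j' i - 2 ^ D) (2 ^ D * j' i + 2 ^ D))).card : ℕ) : ℝ) := by
        exact_mod_cast h1
    _ = ∑ j' ∈ Bd, ((Fintype.piFinset (fun i =>
      Finset.Icc ((2 : ℤ) ^ D * j' i - 2 ^ D) (2 ^ D * j' i + 2 ^ D))).card : ℝ) := by
        push_cast
        rfl
    _ ≤ ∑ j' ∈ Bd, (9 * 4 ^ D : ℝ) := Finset.sum_le_sum (fun j' _ => hcard j')
    _ = _ := by rw [Finset.sum_const, nsmul_eq_mul]

private theorem D6_sumlab {h : ℝ} {Cn : ℝ} (hCn : ∀ (T : Finset (Zn 2)) (a : X 2),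
    ∑ n ∈ T, 1 / (1 + ‖nd h n - a‖) ^ (2 + 3) ≤ Cn) (κ : ℕ) (p : X 2) (T : Finset (Pk 2))
    (Jx : Finset (Fin 2 → ℤ)) (hT : ∀ a ∈ T, a.1 ∈ Jx) :
    ∑ a ∈ T, 1 / (1 + ‖nd h a.2 - Lk κ (w κ a.1) p‖) ^ 5 ≤ (Jx.card : ℝ) * Cn := by
  classical
  have hsub : T ⊆ Jx ×ˢ (T.image Prod.snd) := by
    intro a ha
    rw [Finset.mem_product]
    exact ⟨hT a ha, Finset.mem_image_of_mem _ ha⟩
  calc ∑ a ∈ T, 1 / (1 + ‖nd h a.2 - Lk κ (w κ a.1) p‖) ^ 5 ≤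
      ∑ a ∈ Jx ×ˢ (T.image Prod.snd), 1 / (1 + ‖nd h a.2 - Lk κ (w κ a.1) p‖) ^ 5 :=
        Finset.sum_le_sum_of_subset_of_nonneg hsub (fun a _ _ => by positivity)
    _ = ∑ j ∈ Jx, ∑ n ∈ T.image Prod.snd, 1 / (1 + ‖nd h n - Lk κ (w κ j) p‖) ^ 5 := by
        rw [Finset.sum_product]
    _ ≤ ∑ j ∈ Jx, Cn := Finset.sum_le_sum (fun j _ => hCn _ _)
    _ = _ := by rw [Finset.sum_const, nsmul_eq_mul]

theorem part_L1 {h v0 v1 ρ R : ℝ} {Φ Φh : X 2 → ℂ} (hR : Rp h v0 v1 ρ R Φ Φh)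
    {χ : E 2 → ℝ} (hχ : Pu χ) {b : V 2 → ℂ} (hb : Sb v0 v1 1 b) : ∃ (C : ℝ) (ν0 : ℕ), 0 < C ∧
    ∀ (ν : ℕ) (u : ℝ) (S : Finset (X 2)) (v : Fin 4 → ℤ) (J' : ℕ), ν0 ≤ ν → Cf ν u S v J' →
    ∀ γ : (ℕ × (Fin 4 → ℤ)) → X 2 → ℂ, (∀ c p, ‖γ c p‖ ≤ 1) →
    ∀ G : (ℕ × (Fin 4 → ℤ)) → Finset (Pk 2), (∀ c, ∀ a ∈ G c, a.1 ∈ J 2 (kap ν)) →
    ∀ (s0 : ℝ), ∀ l0 < J',
    ∫⁻ x, ‖Fh χ b Φ h (kap ν) s0 (Bs ν S) (fun c => c.1) (Sc ν S) γ G
      (fun c => Pr (fun l => AP χ ν u S v l0 l (pil ν v l c)) J') x‖ₑ ≤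
      ENNReal.ofReal (C * (1 + |s0|) * ((aL ν l0 : ℝ) / 2 ^ aL ν l0) * WX S) := by
  classical
  obtain ⟨Kc, hKc, hfam⟩ := fam_As hχ
  obtain ⟨K', hK', hgr⟩ := growth_half Kc hKc
  obtain ⟨C1, hC1, hL1⟩ := L1T (m := 2) (by norm_num) hR hχ hb K' hK'
  obtain ⟨C3, n3, hC3, hBad⟩ := card_Bad
  refine ⟨C1 * (9 * C3), n3, by positivity, ?_⟩
  intro ν u S v J' hν hS γ hγ G hG s0 l0 hl0
  have hCg := cg_of_cf hS
  have hSy : ∀ c ∈ Bs ν S, Sy K' ((2 : ℝ) ^ (c.1 / 2))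
      (Pr (fun l => AP χ ν u S v l0 l (pil ν v l c)) J') := by
    intro c hc
    obtain ⟨p, hp, rfl⟩ := D6_mem_Bs hc
    exact hgr ν v (AP χ ν u S v l0) hS.nu1 ((hfam ν u S v).2 l0) J' _ (D6_kp hCg p hp)
  have h1 := hL1 (kap ν) _ (Bs ν S) (fun c => c.1) (Sc ν S) (blk_bk hCg) γ hγ G hG
    (fun c => Pr (fun l => AP χ ν u S v l0 l (pil ν v l c)) J') hSy s0
  refine h1.trans (ENNReal.ofReal_le_ofReal ?_)
  clear h1 hL1
  have hs : (1 + |s0|) ^ ((((2 : ℕ) : ℝ)) / 2) = 1 + |s0| := by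
    norm_num
  rw [hs]
  have hWX := wt_bk ν S
  unfold Wt at hWX
  rw [← hWX]
  have hterm : ∀ c ∈ Bs ν S, ∀ F : Finset (Fin 2 → ℤ),
      (∀ j ∈ F, tch (c.1 / 2) (Pr (fun l => AP χ ν u S v l0 l (pil ν v l c)) J') j) →
      ((Sc ν S c).card : ℝ) * (2 : ℝ) ^ ((c.1 : ℝ) * (((2 : ℕ) : ℝ) / 2)) * (F.card : ℝ) ≤
      (9 * C3) * ((aL ν l0 : ℝ) / 2 ^ aL ν l0) * ((2 : ℝ) ^ (c.1 * 2) *
        ((Sc ν S c).card : ℝ)) := by
    intro c hc F hF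
    have hpw : (2 : ℝ) ^ ((c.1 : ℝ) * (((2 : ℕ) : ℝ) / 2)) = 2 ^ c.1 := by
      have : (c.1 : ℝ) * (((2 : ℕ) : ℝ) / 2) = ((c.1 : ℕ) : ℝ) := by
        push_cast
        ring
      rw [this, Real.rpow_natCast]
    rw [hpw]
    have hN : (F.card : ℝ) ≤ (9 * C3) * ((aL ν l0 : ℝ) / 2 ^ aL ν l0) * 2 ^ c.1 := by
      rcases F.eq_empty_or_nonempty with hE | ⟨j0, hj0⟩
      · rw [hE, Finset.card_empty, Nat.cast_zero]
        positivity
      · have hF2 : ∀ j ∈ F, ∃ ω : E 2, cel (c.1 / 2) j ω ∧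
            ∃ j' ∈ Bad ν u S v l0 (pil ν v l0 c), cel (kl ν l0) j' ω := by
          intro j hj
          obtain ⟨ω, hω1, hω2, hω3⟩ := hF j hj
          refine ⟨ω, hω2, ?_⟩
          have h4 := Pr_ne _ _ _ hω3 l0 hl0
          simp only [AP, lt_irrefl, if_false, if_true] at h4
          exact as_bad hχ ν u S v l0 (pil ν v l0 c) ω h4
        obtain ⟨ω0, -, j', hj', -⟩ := hF2 j0 hj0
        have hb1 := D6_bad_le hj'
        obtain ⟨p, hp, hpc⟩ := D6_mem_Bs hc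
        have hk := D6_kp hCg p hp
        have hk2 : kp p = c.1 := congrArg Prod.fst hpc
        have hnu := hS.nu1
        have hkl : kl ν l0 ≤ c.1 / 2 := by
          unfold kl
          omega
        obtain ⟨D, hD⟩ := Nat.exists_eq_add_of_le hkl
        have hcnt := D6_count (kl ν l0) D (Bad ν u S v l0 (pil ν v l0 c)) F (by
          intro j hj
          obtain ⟨ω, h1, h2⟩ := hF2 j hj
          exact ⟨ω, by rw [← hD]; exact h1, h2⟩)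
        have hBc := hBad ν u S v J' hν hS l0 hl0 (pil ν v l0 c)
        have h5 : (2 : ℝ) ^ (199 * aL ν l0) * 4 ^ D ≤ 2 ^ c.1 / 2 ^ aL ν l0 := by
          rw [le_div_iff₀ (by positivity)]
          have e4 : (4 : ℝ) ^ D = 2 ^ (2 * D) := by
            rw [pow_mul]
            norm_num
          rw [e4, ← pow_add, ← pow_add]
          apply pow_le_pow_right₀ (by norm_num)
          unfold kl at hD
          omega
        calc (F.card : ℝ) ≤ ((Bad ν u S v l0 (pil ν v l0 c)).card : ℝ) * (9 * 4 ^ D) := hcnt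
          _ ≤ (C3 * (aL ν l0 : ℝ) * 2 ^ (199 * aL ν l0)) * (9 * 4 ^ D) :=
              mul_le_mul_of_nonneg_right hBc (by positivity)
          _ = (9 * C3) * (aL ν l0 : ℝ) * (2 ^ (199 * aL ν l0) * 4 ^ D) := by ring
          _ ≤ (9 * C3) * (aL ν l0 : ℝ) * (2 ^ c.1 / 2 ^ aL ν l0) :=
              mul_le_mul_of_nonneg_left h5 (by positivity)
          _ = _ := by ring
    calc ((Sc ν S c).card : ℝ) * (2 : ℝ) ^ c.1 * (F.card : ℝ) ≤
        ((Sc ν S c).card : ℝ) * (2 : ℝ) ^ c.1 *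
          ((9 * C3) * ((aL ν l0 : ℝ) / 2 ^ aL ν l0) * 2 ^ c.1) :=
            mul_le_mul_of_nonneg_left hN (by positivity)
      _ = _ := by
        rw [pow_mul]
        ring
  calc _ ≤ C1 * (1 + |s0|) * ∑ c ∈ Bs ν S, (9 * C3) * ((aL ν l0 : ℝ) / 2 ^ aL ν l0) *
        ((2 : ℝ) ^ (c.1 * 2) * ((Sc ν S c).card : ℝ)) := by
        refine mul_le_mul_of_nonneg_left ?_ (by positivity)
        refine Finset.sum_le_sum (fun c hc => ?_)
        exact hterm c hc _ (fun j hj => (Finset.mem_filter.1 hj).2)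
    _ = _ := by
        rw [← Finset.mul_sum]
        ring

theorem rem_L1 {h v0 v1 ρ R : ℝ} {Φ Φh : X 2 → ℂ} (hR : Rp h v0 v1 ρ R Φ Φh)
    {χ : E 2 → ℝ} (hχ : Pu χ) {b : V 2 → ℂ} (hb : Sb v0 v1 1 b) : ∃ (C : ℝ) (ν0 : ℕ), 0 < C ∧
    ∀ (ν : ℕ) (u : ℝ) (S : Finset (X 2)) (v : Fin 4 → ℤ) (J' : ℕ), ν0 ≤ ν → Cf ν u S v J' →
    ∀ γ : (ℕ × (Fin 4 → ℤ)) → X 2 → ℂ, (∀ c p, ‖γ c p‖ ≤ 1) →
    ∀ G : Finset (Pk 2), (∀ a ∈ G, a.1 ∈ J 2 (kap ν)) → ∀ s0 : ℝ,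
    ∫⁻ x, ‖Fh χ b Φ h (kap ν) s0 (Bs ν S) (fun c => c.1) (Sc ν S) γ (Gr h ν u S G)
      (fun c => Pr (fun l => As χ ν u S v l (pil ν v l c)) J') x‖ₑ ≤
      ENNReal.ofReal (C * (1 + |s0|) / 2 ^ ν * WX S) := by
  classical
  obtain ⟨Kc, hKc, hfam⟩ := fam_As hχ
  obtain ⟨K', hK', hgr⟩ := growth_half Kc hKc
  obtain ⟨C1, hC1, hL1⟩ := L1P (m := 2) (by norm_num) hR hχ hb K' hK' 6
  obtain ⟨C3, n3, hC3, hHv⟩ := card_Hv
  obtain ⟨Cn, hCn, hnd⟩ := sum_nd 2 h hR.hpos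
  refine ⟨C1 * ((C3 + 25) * Cn), n3, by positivity, ?_⟩
  intro ν u S v J' hν hS γ hγ G hG s0
  have hCg := cg_of_cf hS
  have hSy : ∀ c ∈ Bs ν S, Sy K' ((2 : ℝ) ^ (c.1 / 2))
      (Pr (fun l => As χ ν u S v l (pil ν v l c)) J') := by
    intro c hc
    obtain ⟨p, hp, rfl⟩ := D6_mem_Bs hc
    exact hgr ν v (As χ ν u S v) hS.nu1 (hfam ν u S v).1 J' _ (D6_kp hCg p hp)
  have hGr : ∀ c, ∀ a ∈ Gr h ν u S G c, a.1 ∈ J 2 (kap ν) := by
    intro c a ha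
    unfold Gr at ha
    exact hG a (Finset.mem_sdiff.1 ha).1
  have h1 := hL1 (kap ν) _ (Bs ν S) (fun c => c.1) (Sc ν S) (blk_bk hCg) γ hγ
    (Gr h ν u S G) hGr (fun c => Pr (fun l => As χ ν u S v l (pil ν v l c)) J') hSy s0
  refine h1.trans (ENNReal.ofReal_le_ofReal ?_)
  clear h1 hL1
  have hs : (1 + |s0|) ^ ((((2 : ℕ) : ℝ)) / 2) = 1 + |s0| := by
    norm_num
  rw [hs]
  have hWX := wt_bk ν S
  unfold Wt at hWX
  rw [← hWX]
  have hterm : ∀ c ∈ Bs ν S, ∀ p ∈ Sc ν S c, ∑ a ∈ Gr h ν u S G c,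
      1 / (1 + ‖nd h a.2 - Lk (kap ν) (w (kap ν) a.1) p‖) ^ 6 ≤
      (C3 + 25) * Cn * 2 ^ (2 * kap ν) / 2 ^ ν := by
    intro c hc p hp
    rw [D6_mem_Sc] at hp
    rw [← Finset.sum_filter_add_sum_filter_not (Gr h ν u S G c)
      (fun a => ‖nd h a.2 - Lk (kap ν) (w (kap ν) a.1) p‖ ≤ 2 ^ ν)]
    have hH := hHv ν u S v J' hν hS p hp.1
    have hT1 : ∑ a ∈ (Gr h ν u S G c).filter
        (fun a => ‖nd h a.2 - Lk (kap ν) (w (kap ν) a.1) p‖ ≤ 2 ^ ν),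
        1 / (1 + ‖nd h a.2 - Lk (kap ν) (w (kap ν) a.1) p‖) ^ 6 ≤
        (C3 * 2 ^ (2 * kap ν) / 2 ^ ν) * Cn := by
      calc _ ≤ ∑ a ∈ (Gr h ν u S G c).filter
            (fun a => ‖nd h a.2 - Lk (kap ν) (w (kap ν) a.1) p‖ ≤ 2 ^ ν),
          1 / (1 + ‖nd h a.2 - Lk (kap ν) (w (kap ν) a.1) p‖) ^ 5 := by
            refine Finset.sum_le_sum (fun a _ => ?_)
            apply one_div_le_one_div_of_le (by positivity)
            apply pow_le_pow_right₀ _ (by norm_num)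
            linarith [norm_nonneg (nd h a.2 - Lk (kap ν) (w (kap ν) a.1) p)]
        _ ≤ _ := D6_sumlab hnd (kap ν) p _ ((J 2 (kap ν)).filter (fun j => ∃ p' ∈ S,
              blk ν p' = blk ν p ∧ ‖Lk (kap ν) (w (kap ν) j) (p - p')‖ ≤ 2 ^ (ν + 1) ∧
              Hv ν u S p' j)) (by
            intro a ha
            rw [Finset.mem_filter] at ha
            rw [Finset.mem_filter]
            refine ⟨hGr c a ha.1, ?_⟩
            have ha1 := ha.1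
            unfold Gr Gk at ha1
            rw [Finset.mem_sdiff, Finset.mem_filter] at ha1
            have ha2 : ¬ (∀ p ∈ Sc ν S c,
                ‖nd h a.2 - Lk (kap ν) (w (kap ν) a.1) p‖ ≤ 2 ^ ν → ¬ Hv ν u S p a.1) :=
              fun hall => ha1.2 ⟨ha1.1, hall⟩
            push Not at ha2
            obtain ⟨p', hp', hn, hv⟩ := ha2
            rw [D6_mem_Sc] at hp'
            refine ⟨p', hp'.1, hp'.2.trans hp.2.symm, ?_, hv⟩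
            rw [Lk_sub]
            have e : Lk (kap ν) (w (kap ν) a.1) p - Lk (kap ν) (w (kap ν) a.1) p' =
                (nd h a.2 - Lk (kap ν) (w (kap ν) a.1) p') -
                (nd h a.2 - Lk (kap ν) (w (kap ν) a.1) p) := by abel
            rw [e]
            refine (norm_sub_le _ _).trans ?_
            have := ha.2
            rw [pow_succ]
            linarith)
        _ ≤ _ := mul_le_mul_of_nonneg_right hH hCn.le
    have hT2 : ∑ a ∈ (Gr h ν u S G c).filter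
        (fun a => ¬ ‖nd h a.2 - Lk (kap ν) (w (kap ν) a.1) p‖ ≤ 2 ^ ν),
        1 / (1 + ‖nd h a.2 - Lk (kap ν) (w (kap ν) a.1) p‖) ^ 6 ≤
        (1 / 2 ^ ν) * ((25 * 2 ^ (2 * kap ν)) * Cn) := by
      calc _ ≤ ∑ a ∈ (Gr h ν u S G c).filter
            (fun a => ¬ ‖nd h a.2 - Lk (kap ν) (w (kap ν) a.1) p‖ ≤ 2 ^ ν),
          (1 / 2 ^ ν) * (1 / (1 + ‖nd h a.2 - Lk (kap ν) (w (kap ν) a.1) p‖) ^ 5) := by
            refine Finset.sum_le_sum (fun a ha => ?_)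
            rw [Finset.mem_filter, not_le] at ha
            have hx := ha.2
            obtain ⟨x, hx0⟩ : ∃ x : ℝ, x = ‖nd h a.2 - Lk (kap ν) (w (kap ν) a.1) p‖ :=
              ⟨_, rfl⟩
            rw [← hx0] at hx ⊢
            have h2 : (0 : ℝ) < 2 ^ ν := by positivity
            have hx1 : 0 < x := h2.trans hx
            rw [one_div_mul_one_div]
            apply one_div_le_one_div_of_le (by positivity)
            rw [pow_succ (1 + x) 5, mul_comm]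
            apply mul_le_mul_of_nonneg_left _ (by positivity)
            linarith
        _ = (1 / 2 ^ ν) * ∑ a ∈ (Gr h ν u S G c).filter
          (fun a => ¬ ‖nd h a.2 - Lk (kap ν) (w (kap ν) a.1) p‖ ≤ 2 ^ ν),
          (1 / (1 + ‖nd h a.2 - Lk (kap ν) (w (kap ν) a.1) p‖) ^ 5) := by
            rw [Finset.mul_sum]
        _ ≤ (1 / 2 ^ ν) * (((J 2 (kap ν)).card : ℝ) * Cn) := by
            refine mul_le_mul_of_nonneg_left ?_ (by positivity)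
            exact D6_sumlab hnd (kap ν) p _ _ (fun a ha => hGr c a (Finset.mem_filter.1 ha).1)
        _ ≤ _ := by
            refine mul_le_mul_of_nonneg_left ?_ (by positivity)
            refine mul_le_mul_of_nonneg_right ?_ hCn.le
            have := card_J_le 2 (kap ν)
            rw [mul_comm (kap ν) 2] at this
            norm_num at this
            exact this
    calc _ ≤ (C3 * 2 ^ (2 * kap ν) / 2 ^ ν) * Cn +
        (1 / 2 ^ ν) * ((25 * 2 ^ (2 * kap ν)) * Cn) := add_le_add hT1 hT2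
      _ = _ := by ring
  have hsum : ∑ c ∈ Bs ν S, (2 : ℝ) ^ (c.1 * 2) * ∑ p ∈ Sc ν S c, ∑ a ∈ Gr h ν u S G c,
      1 / (1 + ‖nd h a.2 - Lk (kap ν) (w (kap ν) a.1) p‖) ^ 6 ≤
      ∑ c ∈ Bs ν S, (C3 + 25) * Cn * 2 ^ (2 * kap ν) / 2 ^ ν * ((2 : ℝ) ^ (c.1 * 2) *
        ((Sc ν S c).card : ℝ)) := by
    refine Finset.sum_le_sum (fun c hc => ?_)
    calc (2 : ℝ) ^ (c.1 * 2) * ∑ p ∈ Sc ν S c, ∑ a ∈ Gr h ν u S G c,
        1 / (1 + ‖nd h a.2 - Lk (kap ν) (w (kap ν) a.1) p‖) ^ 6 ≤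
        (2 : ℝ) ^ (c.1 * 2) * ∑ p ∈ Sc ν S c, (C3 + 25) * Cn * 2 ^ (2 * kap ν) / 2 ^ ν := by
          refine mul_le_mul_of_nonneg_left ?_ (by positivity)
          exact Finset.sum_le_sum (fun p hp => hterm c hc p hp)
      _ = _ := by
        rw [Finset.sum_const, nsmul_eq_mul]
        ring
  have hκ : (2 : ℝ)⁻¹ ^ (kap ν * 2) * 2 ^ (2 * kap ν) = 1 := by
    rw [mul_comm (kap ν) 2, ← mul_pow, inv_mul_cancel₀ (by norm_num), one_pow]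
  calc _ ≤ C1 * (1 + |s0|) * (2 : ℝ)⁻¹ ^ (kap ν * 2) * ∑ c ∈ Bs ν S,
        (C3 + 25) * Cn * 2 ^ (2 * kap ν) / 2 ^ ν * ((2 : ℝ) ^ (c.1 * 2) *
        ((Sc ν S c).card : ℝ)) := by
        refine mul_le_mul_of_nonneg_left hsum (by positivity)
    _ = (C1 * ((C3 + 25) * Cn) * (1 + |s0|) / 2 ^ ν * ∑ c ∈ Bs ν S, ((2 : ℝ) ^ (c.1 * 2) *
        ((Sc ν S c).card : ℝ))) * ((2 : ℝ)⁻¹ ^ (kap ν * 2) * 2 ^ (2 * kap ν)) := by
        rw [← Finset.mul_sum]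
        ring
    _ = _ := by
        rw [hκ, mul_one]

end Pool.LibCA93
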