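import Pool.Agent.LibCA93.Defs

/-
PLAN (D7, MEDIUM, only Mathlib). Hoelder for lintegral: q1 = (1-s) + s q2 with s = (q1-1)/(q2-1) in (0,1): ENNReal.lintegral_mul_le_Lp_mul_Lq applied to f^(1-s) and (f^q2)^s with exponents 1/(1-s), 1/s. interp_real: the form with ofReal bounds
(a, b >= 0): x <= ofReal(a)^(1-s) ofReal(b)^s = ofReal (a^(1-s) b^s).
-/

set_option autoImplicit false

noncomputable section

open MeasureTheory Metric Set Filter

namespace Pool.LibCA93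

open Pool.LibSR53 Pool.LibST49

theorem interp {X' : Type} [MeasurableSpace X'] (μ : Measure X') (F : X' → ENNReal)
    (hF : AEMeasurable F μ) (q1 q2 : ℝ) (h1 : 1 < q1) (h2 : q1 < q2) (a b : ℝ) (ha : 0 ≤ a)
    (hb : 0 ≤ b) (hFa : ∫⁻ x, F x ∂μ ≤ ENNReal.ofReal a)
    (hFb : ∫⁻ x, F x ^ q2 ∂μ ≤ ENNReal.ofReal b) :
    ∫⁻ x, F x ^ q1 ∂μ ≤ ENNReal.ofReal (a ^ ((q2 - q1) / (q2 - 1)) *
      b ^ ((q1 - 1) / (q2 - 1))) := by
  have hq2 : 0 < q2 - 1 := by linarith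
  obtain ⟨s, hs⟩ : ∃ s : ℝ, s = (q1 - 1) / (q2 - 1) := ⟨_, rfl⟩
  obtain ⟨r, hr⟩ : ∃ r : ℝ, r = (q2 - q1) / (q2 - 1) := ⟨_, rfl⟩
  rw [← hs, ← hr]
  have hs0 : 0 < s := by rw [hs]; exact div_pos (by linarith) hq2
  have hr0 : 0 < r := by rw [hr]; exact div_pos (by linarith) hq2
  have hrs : r + s = 1 := by
    rw [hr, hs, ← add_div, div_eq_one_iff_eq hq2.ne']
    ring
  have hq1 : r + q2 * s = q1 := by
    rw [hr, hs]
    field_simp
    ring
  have hconj : (1 / r).HolderConjugate (1 / s) := by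
    rw [Real.holderConjugate_iff]
    constructor
    · rw [lt_div_iff₀ hr0]
      linarith
    · rw [one_div, one_div, inv_inv, inv_inv]
      exact hrs
  have hmeas1 : AEMeasurable (fun x => F x ^ r) μ := hF.pow_const r
  have hmeas2 : AEMeasurable (fun x => F x ^ (q2 * s)) μ := hF.pow_const (q2 * s)
  have hH := ENNReal.lintegral_mul_le_Lp_mul_Lq μ hconj hmeas1 hmeas2
  have e1 : ∀ x, ((fun x => F x ^ r) * fun x => F x ^ (q2 * s)) x = F x ^ q1 := by
    intro x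
    rw [Pi.mul_apply, ← ENNReal.rpow_add_of_nonneg r (q2 * s) hr0.le
      (mul_nonneg (by linarith) hs0.le), hq1]
  have e2 : ∀ x, (F x ^ r) ^ (1 / r) = F x := by
    intro x
    rw [← ENNReal.rpow_mul, mul_one_div_cancel hr0.ne', ENNReal.rpow_one]
  have e3 : ∀ x, (F x ^ (q2 * s)) ^ (1 / s) = F x ^ q2 := by
    intro x
    rw [← ENNReal.rpow_mul, mul_assoc, mul_one_div_cancel hs0.ne', mul_one]
  simp only [e1, e2, e3] at hH
  rw [one_div_one_div, one_div_one_div] at hH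
  refine hH.trans ?_
  rw [ENNReal.ofReal_mul (Real.rpow_nonneg ha r), ← ENNReal.ofReal_rpow_of_nonneg ha hr0.le,
    ← ENNReal.ofReal_rpow_of_nonneg hb hs0.le]
  exact mul_le_mul' (ENNReal.rpow_le_rpow hFa hr0.le) (ENNReal.rpow_le_rpow hFb hs0.le)

end Pool.LibCA93
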