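import Pool.Agent.LibCA93.D5
import Pool.Agent.LibCA93.D6
import Pool.Agent.LibCA93.D7
import Pool.Agent.LibCA93.B4U

/-
PLAN (D8, STRONG). Choose q2 in (q1, 4/3), q' in (2,4) with q2 < q'/(q'-1) and ex0 2 q' + ε' <= ε3/20000, ε' > 0, with ε3 small (ex0 2 q' -> 0 as q' -> 4, q'/(q'-1) -> 4/3; see the proof of ST49_S4). δ := small. s := (q1-1)/(q2-1) < 1. Choose ε3, δ with s (δ + ε3) <=
(1-s)/4, ε3 <= ε. strongU (m = 2, κ = kap ν = 20000 ν: 2^(κ(ex0+ε')) <= 2^(ε3 ν); growth_half for the hypothesis on Pr; blk_bk, wt_bk, hi_spl; C1 from Cr_le).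
(keep) G = Gk, A = As, l1 = 0, i0 = 0: C1 = C; exponent q1 directly: <= C (1+|s0|) 2^(ε3 ν) WX.
(rem) G = Gr, A = As, l1 = 0, i0 = 40300 ν: C1 = C(1 + 40300 ν u): at q2: <= C (1+|s0|) (1 + 40300 ν 2^(δν)) 2^(ε3 ν) WX; rem_L1; interp: <= C (1+|s0|) 2^(-(1-s)ν) ((1+ν) 2^((δ+ε3)ν))^s C <= C (1+|s0|) 2^(-cν) (1+ν) WX <= C(1+|s0|) WX.
(part l0) G arbitrary, A = AP l0, l1 = l0+1, i0 = 40300 aL ν (l0+1): inW ν l i and i0 <= i give l >= l0+1 (40300 a_(l0+1) <= i < 40300 a_(l+1), so l0 + 1 < l + 1 .. l0+1 <= l); i0 >= 40300 ν. C1 = C (1 + u 80600 a_l0); interp with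
part_L1: <= C (1+|s0|) (a 2^-a)^(1-s) ((1+a) 2^((δ+ε3) ν))^s WX <= C (1+|s0|) 2^(-c a) WX with c = (1-s)/4 (a = a_l0 >= ν; polynomial factors absorbed). AEMeasurable: Fh is continuous (Kb_cont).
-/

set_option autoImplicit false

noncomputable section

open MeasureTheory Metric Set Filter

namespace Pool.LibCA93

open Pool.LibSR53 Pool.LibST49

private theorem D8_cu {v0 v1 : ℝ} {χ : E 2 → ℝ} (hχ : Pu χ) {b : V 2 → ℂ} (hb : Sb v0 v1 1 b)
    (κ : ℕ) {Ψ : E 2 → ℝ} (hΨ : ContDiff ℝ (⊤ : ℕ∞) Ψ) (j : Fin 2 → ℤ) :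
    Sb v0 v1 1 (cu χ b κ Ψ j) := by
  refine ⟨hb.pos, hb.le, ?_, ?_⟩
  · unfold cu
    refine ContDiff.mul ?_ (ContDiff.mul ?_ hb.smooth)
    · have h1 : ContDiff ℝ (⊤ : ℕ∞) (fun z : V 2 => (2 : ℝ) ^ κ • z.1 - iv j) := by
        fun_prop
      have h2 : ContDiff ℝ (⊤ : ℕ∞) (fun z : V 2 => χ ((2 : ℝ) ^ κ • z.1 - iv j)) :=
        hχ.smooth.comp h1
      exact Complex.ofRealCLM.contDiff.comp h2
    · have h3 : ContDiff ℝ (⊤ : ℕ∞) (fun z : V 2 => Ψ z.1) := hΨ.comp contDiff_fst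
      exact Complex.ofRealCLM.contDiff.comp h3
  · intro z hz
    exact hb.supp z (right_ne_zero_of_mul (right_ne_zero_of_mul hz))

private theorem D8_meas {h v0 v1 : ℝ} {Φ : X 2 → ℂ} {χ : E 2 → ℝ} (hχ : Pu χ) {b : V 2 → ℂ}
    (hb : Sb v0 v1 1 b) (κ : ℕ) (s0 : ℝ) {β : Type} (B : Finset β) (k : β → ℕ)
    (S : β → Finset (X 2)) (γ : β → X 2 → ℂ) (G : β → Finset (Pk 2)) (Ψ : β → E 2 → ℝ)
    (hΨ : ∀ i, ContDiff ℝ (⊤ : ℕ∞) (Ψ i)) :
    AEMeasurable (fun x => ‖Fh χ b Φ h κ s0 B k S γ G Ψ x‖ₑ) volume := by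
  have h1 : MemLp (Fh χ b Φ h κ s0 B k S γ G Ψ) 2 volume := by
    unfold Fh
    exact memLp_finsetSum B fun i _ => (memLp_finsetSum (G i) fun a _ =>
      ((gram (by norm_num) (D8_cu hχ hb κ (hΨ i) a.1) (D8_cu hχ hb κ (hΨ i) a.1) s0
        (pos h κ a) (pos h κ a)).1.const_mul _)).const_mul _
  exact h1.aestronglyMeasurable.enorm

private theorem D8_Pr {Kc : ℕ → ℝ} {ν : ℕ} {A : ℕ → (ℕ × (Fin 4 → ℤ)) → E 2 → ℝ}
    (hA : Fam2 Kc ν A) (v : Fin 4 → ℤ) (J' : ℕ) (c : ℕ × (Fin 4 → ℤ)) :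
    ContDiff ℝ (⊤ : ℕ∞) (Pr (fun l => A l (pil ν v l c)) J') := by
  unfold Pr
  exact contDiff_prod fun l _ => (hA.1 l _).smooth

private theorem D8_poly (c0 : ℝ) (h : 0 < c0) : ∃ K : ℝ, 0 < K ∧ ∀ a : ℕ,
    1 + 80600 * (a : ℝ) ≤ K * 2 ^ (c0 * a) := by
  have hl : 0 < Real.log 2 := Real.log_pos (by norm_num)
  refine ⟨1 + 80600 / (c0 * Real.log 2), by positivity, fun a => ?_⟩
  have h1 : 1 + c0 * Real.log 2 * a ≤ (2 : ℝ) ^ (c0 * a) := by
    rw [Real.rpow_def_of_pos (by norm_num)]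
    have := Real.add_one_le_exp (Real.log 2 * (c0 * a))
    linarith
  have h2 : (1 + 80600 / (c0 * Real.log 2)) * (1 + c0 * Real.log 2 * a) ≤
      (1 + 80600 / (c0 * Real.log 2)) * (2 : ℝ) ^ (c0 * a) :=
    mul_le_mul_of_nonneg_left h1 (by positivity)
  refine le_trans ?_ h2
  have h3 : (1 + 80600 / (c0 * Real.log 2)) * (1 + c0 * Real.log 2 * a) =
      1 + 80600 * (a : ℝ) + (80600 / (c0 * Real.log 2) + c0 * Real.log 2 * a) := by
    field_simp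
    ring
  rw [h3]
  have : 0 ≤ 80600 / (c0 * Real.log 2) + c0 * Real.log 2 * a := by positivity
  linarith

private theorem D8_core {t s δ' CM K : ℝ} (ht : 0 < t) (hs : 0 < s) (hts : t + s = 1)
    (hδ : s * δ' ≤ t / 4) (hK0 : 0 < K) (hK : ∀ a : ℕ, 1 + 80600 * (a : ℝ) ≤ K * 2 ^ (t / 2 * a))
    (hCM : 0 ≤ CM) (a : ℕ) (A B Q : ℝ) (hA0 : 0 ≤ A) (hB0 : 0 ≤ B) (hQ : 0 ≤ Q)
    (hA : A ≤ CM * (1 + 80600 * (a : ℝ)) * Q * 2 ^ (-(a : ℝ)))
    (hB : B ≤ CM * (1 + 80600 * (a : ℝ)) * Q * 2 ^ (δ' * a)) :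
    A ^ t * B ^ s ≤ CM * K * Q * 2 ^ (-(t / 4 * a)) := by
  set R : ℝ := CM * (1 + 80600 * (a : ℝ)) * Q with hRd
  have ha : (0 : ℝ) ≤ a := Nat.cast_nonneg a
  have hR0 : 0 ≤ R := by positivity
  have h1 : A ^ t ≤ R ^ t * 2 ^ (-(a : ℝ) * t) := by
    refine (Real.rpow_le_rpow hA0 hA ht.le).trans ?_
    rw [Real.mul_rpow hR0 (by positivity), ← Real.rpow_mul (by norm_num)]
  have h2 : B ^ s ≤ R ^ s * 2 ^ (δ' * a * s) := by
    refine (Real.rpow_le_rpow hB0 hB hs.le).trans ?_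
    rw [Real.mul_rpow hR0 (by positivity), ← Real.rpow_mul (by norm_num)]
  have h3 : A ^ t * B ^ s ≤ (R ^ t * 2 ^ (-(a : ℝ) * t)) * (R ^ s * 2 ^ (δ' * a * s)) :=
    mul_le_mul h1 h2 (Real.rpow_nonneg hB0 _) (by positivity)
  have h4 : (R ^ t * 2 ^ (-(a : ℝ) * t)) * (R ^ s * 2 ^ (δ' * a * s)) =
      R * 2 ^ (-(a : ℝ) * t + δ' * a * s) := by
    have e1 : R ^ t * R ^ s = R := by
      rw [← Real.rpow_add_of_nonneg hR0 ht.le hs.le, hts, Real.rpow_one]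
    rw [Real.rpow_add (by norm_num)]
    calc (R ^ t * 2 ^ (-(a : ℝ) * t)) * (R ^ s * 2 ^ (δ' * a * s))
        = (R ^ t * R ^ s) * (2 ^ (-(a : ℝ) * t) * 2 ^ (δ' * a * s)) := by ring
      _ = _ := by rw [e1]
  rw [h4] at h3
  refine h3.trans ?_
  have h5 : (2 : ℝ) ^ (-(a : ℝ) * t + δ' * a * s) ≤ 2 ^ (-(3 * t / 4 * a)) := by
    refine Real.rpow_le_rpow_of_exponent_le (by norm_num) ?_
    nlinarith [mul_le_mul_of_nonneg_right hδ ha]
  have h6 : R ≤ CM * (K * 2 ^ (t / 2 * a)) * Q := by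
    rw [hRd]
    exact mul_le_mul_of_nonneg_right (mul_le_mul_of_nonneg_left (hK a) hCM) hQ
  calc R * 2 ^ (-(a : ℝ) * t + δ' * a * s)
      ≤ (CM * (K * 2 ^ (t / 2 * a)) * Q) * 2 ^ (-(3 * t / 4 * a)) :=
        mul_le_mul h6 h5 (by positivity) (by positivity)
    _ = CM * K * Q * (2 ^ (t / 2 * a) * 2 ^ (-(3 * t / 4 * a))) := by ring
    _ = CM * K * Q * 2 ^ (-(t / 4 * a)) := by
        rw [← Real.rpow_add (by norm_num)]
        congr 2
        ring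

private theorem D8_rad {ν : ℕ} {u : ℝ} {S : Finset (X 2)} {v : Fin 4 → ℤ} {J' : ℕ}
    (hS : Cf ν u S v J') (c : ℕ × (Fin 4 → ℤ)) (hc : c ∈ Bs ν S) : 40300 * ν ≤ c.1 := by
  classical
  unfold Bs at hc
  obtain ⟨p, hp, rfl⟩ := Finset.mem_image.1 (by convert hc)
  have h1 := hS.rd p hp
  have h2 : 1 ≤ rad p := (one_le_pow₀ (by norm_num)).trans h1
  have h3 := (kpD_spec p h2).2
  have h4 : (2 : ℝ) ^ (40300 * ν) < 2 ^ (kp p + 1) := lt_of_le_of_lt h1 h3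
  have h5 := (pow_lt_pow_iff_right₀ (by norm_num : (1 : ℝ) < 2)).1 h4
  change 40300 * ν ≤ kp p
  omega

private theorem D8_WX (S : Finset (X 2)) : 0 ≤ WX S := by
  unfold WX
  exact Finset.sum_nonneg fun p _ => by positivity

private theorem D8_aL (ν l : ℕ) : ν ≤ aL ν l := by
  unfold aL
  exact Nat.le_mul_of_pos_right _ (by positivity)

private theorem D8_aL_succ (ν l : ℕ) : aL ν (l + 1) = 2 * aL ν l := by
  unfold aL
  ring

theorem three_parts {h v0 v1 ρ R : ℝ} {Φ Φh : X 2 → ℂ} (hR : Rp h v0 v1 ρ R Φ Φh)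
    {χ : E 2 → ℝ} (hχ : Pu χ) {b : V 2 → ℂ} (hb : Sb v0 v1 1 b)
    (hC : ∀ q : ℝ, 2 < q → q < 4 → CDec 2 q) (q1 : ℝ) (h1 : 1 < q1) (h2 : q1 < 4 / 3) :
    ∃ δ : ℝ, 0 < δ ∧ ∀ ε : ℝ, 0 < ε → ∃ (C c : ℝ) (ν0 : ℕ), 0 < C ∧ 0 < c ∧
    ∀ (ν : ℕ) (u : ℝ) (S : Finset (X 2)) (v : Fin 4 → ℤ) (J' : ℕ), ν0 ≤ ν →
    u ≤ (2 : ℝ) ^ (δ * ν) → Cf ν u S v J' →
    ∀ γ : (ℕ × (Fin 4 → ℤ)) → X 2 → ℂ, (∀ c p, ‖γ c p‖ ≤ 1) →
    ∀ G : Finset (Pk 2), (∀ a ∈ G, a.1 ∈ J 2 (kap ν)) → ∀ s0 : ℝ,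
    ∫⁻ x, ‖Fh χ b Φ h (kap ν) s0 (Bs ν S) (fun c => c.1) (Sc ν S) γ (Gk h ν u S G)
      (fun c => Pr (fun l => As χ ν u S v l (pil ν v l c)) J') x‖ₑ ^ q1 ≤
      ENNReal.ofReal (C * (1 + |s0|) * 2 ^ (ε * ν) * WX S) ∧
    ∫⁻ x, ‖Fh χ b Φ h (kap ν) s0 (Bs ν S) (fun c => c.1) (Sc ν S) γ (Gr h ν u S G)
      (fun c => Pr (fun l => As χ ν u S v l (pil ν v l c)) J') x‖ₑ ^ q1 ≤
      ENNReal.ofReal (C * (1 + |s0|) * WX S) ∧
    ∀ l0 < J', ∫⁻ x, ‖Fh χ b Φ h (kap ν) s0 (Bs ν S) (fun c => c.1) (Sc ν S) γ (fun _ => G)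
      (fun c => Pr (fun l => AP χ ν u S v l0 l (pil ν v l c)) J') x‖ₑ ^ q1 ≤
      ENNReal.ofReal (C * (1 + |s0|) * 2 ^ (-(c * aL ν l0)) * WX S) := by
  classical
  obtain ⟨Kc, hKc, hfam⟩ := fam_As hχ
  obtain ⟨K', hK', hgr⟩ := growth_half Kc hKc
  set q2 : ℝ := (q1 + 4 / 3) / 2 with hq2d
  have hq12 : q1 < q2 := by rw [hq2d]; linarith
  have hq24 : q2 < 4 / 3 := by rw [hq2d]; linarith
  have hq21 : 0 < q2 - 1 := by linarith
  set t : ℝ := (q2 - q1) / (q2 - 1) with htd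
  set s : ℝ := (q1 - 1) / (q2 - 1) with hsd
  have ht : 0 < t := div_pos (by linarith) hq21
  have hs : 0 < s := div_pos (by linarith) hq21
  have hts : t + s = 1 := by
    rw [htd, hsd, ← add_div, div_eq_one_iff_eq hq21.ne']
    ring
  have hs1 : s ≤ 1 := by linarith
  set d0 : ℝ := t / 8 with hd0d
  have hd0 : 0 < d0 := by rw [hd0d]; positivity
  refine ⟨d0, hd0, fun ε hε => ?_⟩
  set e3 : ℝ := min ε (t / 8) with he3d
  have he3 : 0 < e3 := lt_min hε (by positivity)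
  have he3ε : e3 ≤ ε := min_le_left _ _
  have he3t : e3 ≤ t / 8 := min_le_right _ _
  set η : ℝ := min 1 (e3 / 40000) with hηd
  have hη : 0 < η := lt_min one_pos (by positivity)
  have hη1 : η ≤ 1 := min_le_left _ _
  have hηe : η ≤ e3 / 40000 := min_le_right _ _
  set q' : ℝ := 4 - η with hq'd
  have hq'2 : 2 < q' := by rw [hq'd]; linarith
  have hq'4 : q' < 4 := by rw [hq'd]; linarith
  have hq'c : q' * ((2 : ℕ) : ℝ) ≤ 2 * (((2 : ℕ) : ℝ) + 2) := by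
    push_cast
    linarith
  have hq43 : 4 / 3 ≤ q' / (q' - 1) := by
    rw [div_le_div_iff₀ (by norm_num) (by linarith)]
    linarith
  have hex : ex0 2 q' + e3 / 40000 ≤ e3 / 20000 := by
    have h1' : ex0 2 q' = η / (3 - η) := by
      unfold ex0
      rw [hq'd]
      push_cast
      have : (4 : ℝ) - η - 1 ≠ 0 := by linarith
      have : (3 : ℝ) - η ≠ 0 := by linarith
      field_simp
      ring
    have h2' : η / (3 - η) ≤ e3 / 40000 := by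
      rw [div_le_iff₀ (by linarith)]
      nlinarith
    rw [h1']
    linarith
  obtain ⟨CU1, hCU1, hU1⟩ := strongU (m := 2) (by norm_num) hR hχ hb q' hq'2 hq'c
    (hC q' hq'2 hq'4) (e3 / 40000) (by positivity) K' hK' q1 h1 (by linarith)
  obtain ⟨CU2, hCU2, hU2⟩ := strongU (m := 2) (by norm_num) hR hχ hb q' hq'2 hq'c
    (hC q' hq'2 hq'4) (e3 / 40000) (by positivity) K' hK' q2 (by linarith) (by linarith)
  obtain ⟨Cc, νc, hCc, hCr⟩ := Cr_le hR hχ hb Kc hKc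
  obtain ⟨CP, νP, hCP, hPL⟩ := part_L1 hR hχ hb
  obtain ⟨CR, νR, hCR, hRL⟩ := rem_L1 hR hχ hb
  obtain ⟨K, hK0, hK⟩ := D8_poly (t / 2) (by positivity)
  set CM : ℝ := CP + CR + CU2 * (1 + Cc) with hCMd
  have hCM : 0 < CM := by positivity
  have hCM1 : CP ≤ CM := by
    have : 0 < CU2 * (1 + Cc) := by positivity
    rw [hCMd]; linarith
  have hCM2 : CR ≤ CM := by
    have : 0 < CU2 * (1 + Cc) := by positivity
    rw [hCMd]; linarith
  have hCM3 : CU2 * (1 + Cc) ≤ CM := by rw [hCMd]; linarith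
  refine ⟨CU1 * (1 + Cc) + CM * K, t / 4, max (max νc νP) νR, by positivity,
    by positivity, ?_⟩
  intro ν u S v J' hν hu hS γ hγ G hG s0
  have hνc : νc ≤ ν := ((le_max_left _ _).trans (le_max_left _ _)).trans hν
  have hνP : νP ≤ ν := ((le_max_right _ _).trans (le_max_left _ _)).trans hν
  have hνR : νR ≤ ν := (le_max_right _ _).trans hν
  have hCg := cg_of_cf hS
  have hBk := blk_bk hCg
  have hWt := wt_bk ν S
  have hHi := hi_spl ν v J' (Bs ν S)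
  have hW := D8_WX S
  have hE : 0 < 1 + |s0| := by positivity
  have hpw : (2 : ℝ) ^ (((kap ν : ℕ) : ℝ) * (ex0 2 q' + e3 / 40000)) ≤ 2 ^ (e3 * ν) := by
    refine Real.rpow_le_rpow_of_exponent_le (by norm_num) ?_
    unfold kap
    push_cast
    have : (0 : ℝ) ≤ ν := Nat.cast_nonneg ν
    nlinarith
  have gen : ∀ (A : ℕ → (ℕ × (Fin 4 → ℤ)) → E 2 → ℝ), Fam2 Kc ν A →
      ∀ (GG : (ℕ × (Fin 4 → ℤ)) → Finset (Pk 2)), (∀ c, ∀ a ∈ GG c, a.1 ∈ J 2 (kap ν)) →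
      ∀ C1 : ℝ, 0 ≤ C1 →
      Cr χ b Φ h (kap ν) (Bs ν S) (fun c => c.1) (Sc ν S) GG (pil ν v) (spl ν v J') A ≤
        C1 * WX S →
      (∫⁻ x, ‖Fh χ b Φ h (kap ν) s0 (Bs ν S) (fun c => c.1) (Sc ν S) γ GG
        (fun c => Pr (fun l => A l (pil ν v l c)) J') x‖ₑ ^ q1 ≤
        ENNReal.ofReal (CU1 * (1 + C1) * (1 + |s0|) * 2 ^ (e3 * ν) * WX S)) ∧
      (∫⁻ x, ‖Fh χ b Φ h (kap ν) s0 (Bs ν S) (fun c => c.1) (Sc ν S) γ GG
        (fun c => Pr (fun l => A l (pil ν v l c)) J') x‖ₑ ^ q2 ≤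
        ENNReal.ofReal (CU2 * (1 + C1) * (1 + |s0|) * 2 ^ (e3 * ν) * WX S)) := by
    intro A hA GG hGG C1 hC1 hcr
    have hcr' : Cr χ b Φ h (kap ν) (Bs ν S) (fun c => c.1) (Sc ν S) GG (pil ν v)
        (spl ν v J') A ≤ C1 * Wt (Bs ν S) (fun c => c.1) (Sc ν S) := by
      rw [hWt]
      exact hcr
    have hsy : ∀ i ∈ Bs ν S, Sy K' ((2 : ℝ) ^ (i.1 / 2)) (Pr (fun l => A l (pil ν v l i)) J') :=
      fun i hi => hgr ν v A hS.nu1 hA J' i (D8_rad hS i hi)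
    have r1 := hU1 C1 hC1 (kap ν) _ _ (Bs ν S) (fun c => c.1) (Sc ν S) hBk γ hγ GG hGG J'
      (pil ν v) (spl ν v J') hHi A (fun l i => (hA.1 l i).smooth) hA.2.1 hsy hcr' s0
    have r2 := hU2 C1 hC1 (kap ν) _ _ (Bs ν S) (fun c => c.1) (Sc ν S) hBk γ hγ GG hGG J'
      (pil ν v) (spl ν v J') hHi A (fun l i => (hA.1 l i).smooth) hA.2.1 hsy hcr' s0
    have hexp : (((2 : ℕ) : ℝ)) / 2 = 1 := by norm_num
    rw [hWt, hexp, Real.rpow_one] at r1 r2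
    refine ⟨r1.trans (ENNReal.ofReal_le_ofReal ?_), r2.trans (ENNReal.ofReal_le_ofReal ?_)⟩
    · exact mul_le_mul_of_nonneg_right (mul_le_mul_of_nonneg_left hpw (by positivity)) hW
    · exact mul_le_mul_of_nonneg_right (mul_le_mul_of_nonneg_left hpw (by positivity)) hW
  have hAs := (hfam ν u S v).1
  have hu1 := hS.u1
  have hδs : s * (d0 + e3) ≤ t / 4 := by nlinarith
  refine ⟨?_, ?_, ?_⟩
  · -- kept packets
    have hGk : ∀ c, ∀ a ∈ Gk h ν u S G c, a.1 ∈ J 2 (kap ν) := by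
      intro c a ha
      unfold Gk at ha
      exact hG a (Finset.mem_filter.1 ha).1
    have hcr := hCr ν u S v J' hνc hS (As χ ν u S v) hAs 0 0 (fun l _ c => rfl)
      (fun l i _ _ => Nat.zero_le _) (Gk h ν u S G) hGk (by
        intro _ c a ha p hp hd
        unfold Gk at ha
        exact (Finset.mem_filter.1 ha).2 p hp hd)
    have r := (gen (As χ ν u S v) hAs (Gk h ν u S G) hGk Cc hCc.le (by
      refine hcr.trans (le_of_eq ?_)
      push_cast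
      ring)).1
    refine r.trans (ENNReal.ofReal_le_ofReal ?_)
    have k1 : (2 : ℝ) ^ (e3 * ν) ≤ 2 ^ (ε * ν) := by
      refine Real.rpow_le_rpow_of_exponent_le (by norm_num) ?_
      exact mul_le_mul_of_nonneg_right he3ε (Nat.cast_nonneg ν)
    have k2 : CU1 * (1 + Cc) ≤ CU1 * (1 + Cc) + CM * K := by
      have : 0 < CM * K := by positivity
      linarith
    exact mul_le_mul_of_nonneg_right (mul_le_mul (mul_le_mul_of_nonneg_right k2 hE.le) k1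
      (by positivity) (by positivity)) hW
  · -- removed packets
    have hGr : ∀ c, ∀ a ∈ Gr h ν u S G c, a.1 ∈ J 2 (kap ν) := by
      intro c a ha
      unfold Gr at ha
      exact hG a (Finset.mem_sdiff.1 ha).1
    have hcr := hCr ν u S v J' hνc hS (As χ ν u S v) hAs 0 (40300 * ν) (fun l _ c => rfl)
      (fun l i _ _ => Nat.zero_le _) (Gr h ν u S G) hGr (fun hlt => absurd hlt (lt_irrefl _))
    have r2 := (gen (As χ ν u S v) hAs (Gr h ν u S G) hGr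
      (Cc * (1 + u * ((40300 * ν : ℕ) : ℝ))) (by positivity) hcr).2
    have r1 := hRL ν u S v J' hνR hS γ hγ G hG s0
    have ri := interp volume _ (D8_meas (h := h) (Φ := Φ) hχ hb (kap ν) s0 (Bs ν S)
      (fun c => c.1) (Sc ν S) γ (Gr h ν u S G)
      (fun c => Pr (fun l => As χ ν u S v l (pil ν v l c)) J') (fun c => D8_Pr hAs v J' c))
      q1 q2 h1 hq12 _ _ (by positivity) (by positivity) r1 r2
    refine ri.trans (ENNReal.ofReal_le_ofReal ?_)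
    have hν0 : (0 : ℝ) ≤ ν := Nat.cast_nonneg ν
    have hc := D8_core ht hs hts hδs hK0 hK hCM.le ν
      (CR * (1 + |s0|) / 2 ^ ν * WX S)
      (CU2 * (1 + Cc * (1 + u * ((40300 * ν : ℕ) : ℝ))) * (1 + |s0|) * 2 ^ (e3 * ν) * WX S)
      ((1 + |s0|) * WX S) (by positivity) (by positivity) (by positivity) (by
        have e1 : (2 : ℝ) ^ (-(ν : ℝ)) = ((2 : ℝ) ^ ν)⁻¹ := by
          rw [Real.rpow_neg (by norm_num), Real.rpow_natCast]
        rw [e1]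
        have e2 : CR ≤ CM * (1 + 80600 * (ν : ℝ)) := by
          refine hCM2.trans (le_mul_of_one_le_right hCM.le ?_)
          linarith
        calc CR * (1 + |s0|) / 2 ^ ν * WX S
            = CR * ((1 + |s0|) * WX S) * ((2 : ℝ) ^ ν)⁻¹ := by ring
          _ ≤ CM * (1 + 80600 * (ν : ℝ)) * ((1 + |s0|) * WX S) * ((2 : ℝ) ^ ν)⁻¹ := by
              refine mul_le_mul_of_nonneg_right (mul_le_mul_of_nonneg_right e2 ?_) ?_ <;>
                positivity) (by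
        have e1 : (2 : ℝ) ^ ((d0 + e3) * (ν : ℝ)) = 2 ^ (d0 * (ν : ℝ)) * 2 ^ (e3 * (ν : ℝ)) := by
          rw [← Real.rpow_add (by norm_num)]
          congr 1
          ring
        have e2 : 1 + Cc * (1 + u * ((40300 * ν : ℕ) : ℝ)) ≤
            (1 + Cc) * (1 + 80600 * (ν : ℝ)) * 2 ^ (d0 * (ν : ℝ)) := by
          push_cast
          have e3' : 1 + Cc * (1 + u * (40300 * (ν : ℝ))) ≤
              (1 + Cc) * (1 + 80600 * (ν : ℝ)) * u := by
            have f1 : 0 ≤ Cc * (ν : ℝ) * u := by positivity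
            have f2 : 0 ≤ (ν : ℝ) * u := by positivity
            nlinarith [mul_nonneg hCc.le (sub_nonneg.2 hu1)]
          exact e3'.trans (mul_le_mul_of_nonneg_left hu (by positivity))
        rw [e1]
        calc CU2 * (1 + Cc * (1 + u * ((40300 * ν : ℕ) : ℝ))) * (1 + |s0|) * 2 ^ (e3 * (ν : ℝ)) * WX S
            = CU2 * ((1 + |s0|) * WX S * 2 ^ (e3 * (ν : ℝ))) *
                (1 + Cc * (1 + u * ((40300 * ν : ℕ) : ℝ))) := by ring
          _ ≤ CU2 * ((1 + |s0|) * WX S * 2 ^ (e3 * (ν : ℝ))) *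
                ((1 + Cc) * (1 + 80600 * (ν : ℝ)) * 2 ^ (d0 * (ν : ℝ))) :=
              mul_le_mul_of_nonneg_left e2 (by positivity)
          _ = (CU2 * (1 + Cc)) * ((1 + 80600 * (ν : ℝ)) * ((1 + |s0|) * WX S) *
                (2 ^ (d0 * (ν : ℝ)) * 2 ^ (e3 * (ν : ℝ)))) := by ring
          _ ≤ CM * ((1 + 80600 * (ν : ℝ)) * ((1 + |s0|) * WX S) *
                (2 ^ (d0 * (ν : ℝ)) * 2 ^ (e3 * (ν : ℝ)))) :=
              mul_le_mul_of_nonneg_right hCM3 (by positivity)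
          _ = _ := by ring)
    refine hc.trans ?_
    have k1 : (2 : ℝ) ^ (-(t / 4 * (ν : ℝ))) ≤ 1 := by
      rw [Real.rpow_neg (by norm_num)]
      exact inv_le_one_of_one_le₀ (Real.one_le_rpow (by norm_num) (by positivity))
    have k2 : CM * K ≤ CU1 * (1 + Cc) + CM * K := by
      have : 0 < CU1 * (1 + Cc) := by positivity
      linarith
    calc CM * K * ((1 + |s0|) * WX S) * 2 ^ (-(t / 4 * (ν : ℝ)))
        ≤ CM * K * ((1 + |s0|) * WX S) * 1 := mul_le_mul_of_nonneg_left k1 (by positivity)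
      _ = CM * K * ((1 + |s0|) * WX S) := by ring
      _ ≤ (CU1 * (1 + Cc) + CM * K) * ((1 + |s0|) * WX S) :=
          mul_le_mul_of_nonneg_right k2 (by positivity)
      _ = _ := by ring
  · -- parts
    intro l0 hl0
    have hAP := (hfam ν u S v).2 l0
    have ha1 : ν ≤ aL ν l0 := D8_aL ν l0
    have hcr := hCr ν u S v J' hνc hS (AP χ ν u S v l0) hAP (l0 + 1) (40300 * aL ν (l0 + 1))
      (by
        intro l hl c
        funext ω
        unfold AP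
        rw [if_neg (by omega), if_neg (by omega)])
      (by
        intro l i hi hi0
        by_contra hlt
        have h3 : aL ν (l + 1) ≤ aL ν (l0 + 1) := by
          unfold aL
          exact Nat.mul_le_mul_left _ (Nat.pow_le_pow_right (by norm_num) (by omega))
        have h4 := hi.2
        omega) (fun _ => G) (fun _ a ha => hG a ha) (by
        intro hlt
        exfalso
        have := D8_aL ν (l0 + 1)
        omega)
    have r2 := (gen (AP χ ν u S v l0) hAP (fun _ => G) (fun _ a ha => hG a ha)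
      (Cc * (1 + u * ((40300 * aL ν (l0 + 1) : ℕ) : ℝ))) (by positivity) hcr).2
    have r1 := hPL ν u S v J' hνP hS γ hγ (fun _ => G) (fun _ a ha => hG a ha) s0 l0 hl0
    have ri := interp volume _ (D8_meas (h := h) (Φ := Φ) hχ hb (kap ν) s0 (Bs ν S)
      (fun c => c.1) (Sc ν S) γ (fun _ => G)
      (fun c => Pr (fun l => AP χ ν u S v l0 l (pil ν v l c)) J') (fun c => D8_Pr hAP v J' c))
      q1 q2 h1 hq12 _ _ (by positivity) (by positivity) r1 r2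
    refine ri.trans (ENNReal.ofReal_le_ofReal ?_)
    set a : ℕ := aL ν l0 with had
    have haν : (ν : ℝ) ≤ a := by exact_mod_cast ha1
    have hν0 : (0 : ℝ) ≤ ν := Nat.cast_nonneg ν
    have ha0 : (0 : ℝ) ≤ a := Nat.cast_nonneg a
    have hpa : (2 : ℝ) ^ (e3 * (ν : ℝ)) ≤ 2 ^ (e3 * (a : ℝ)) :=
      Real.rpow_le_rpow_of_exponent_le (by norm_num) (mul_le_mul_of_nonneg_left haν he3.le)
    have hua : u ≤ 2 ^ (d0 * (a : ℝ)) := hu.trans
      (Real.rpow_le_rpow_of_exponent_le (by norm_num) (mul_le_mul_of_nonneg_left haν hd0.le))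
    have hc := D8_core ht hs hts hδs hK0 hK hCM.le a
      (CP * (1 + |s0|) * ((a : ℝ) / 2 ^ a) * WX S)
      (CU2 * (1 + Cc * (1 + u * ((40300 * aL ν (l0 + 1) : ℕ) : ℝ))) * (1 + |s0|) *
        2 ^ (e3 * (ν : ℝ)) * WX S)
      ((1 + |s0|) * WX S) (by positivity) (by positivity) (by positivity) (by
        have e1 : (2 : ℝ) ^ (-(a : ℝ)) = ((2 : ℝ) ^ a)⁻¹ := by
          rw [Real.rpow_neg (by norm_num), Real.rpow_natCast]
        rw [e1]
        have e2 : CP * (a : ℝ) ≤ CM * (1 + 80600 * (a : ℝ)) :=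
          mul_le_mul hCM1 (by linarith) ha0 hCM.le
        calc CP * (1 + |s0|) * ((a : ℝ) / 2 ^ a) * WX S
            = (CP * (a : ℝ)) * ((1 + |s0|) * WX S) * ((2 : ℝ) ^ a)⁻¹ := by ring
          _ ≤ CM * (1 + 80600 * (a : ℝ)) * ((1 + |s0|) * WX S) * ((2 : ℝ) ^ a)⁻¹ := by
              refine mul_le_mul_of_nonneg_right (mul_le_mul_of_nonneg_right e2 ?_) ?_ <;>
                positivity) (by
        have e1 : (2 : ℝ) ^ ((d0 + e3) * (a : ℝ)) = 2 ^ (d0 * (a : ℝ)) * 2 ^ (e3 * (a : ℝ)) := by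
          rw [← Real.rpow_add (by norm_num)]
          congr 1
          ring
        have e2 : 1 + Cc * (1 + u * ((40300 * aL ν (l0 + 1) : ℕ) : ℝ)) ≤
            (1 + Cc) * (1 + 80600 * (a : ℝ)) * 2 ^ (d0 * (a : ℝ)) := by
          rw [D8_aL_succ, ← had]
          push_cast
          have e3' : 1 + Cc * (1 + u * (40300 * (2 * (a : ℝ)))) ≤
              (1 + Cc) * (1 + 80600 * (a : ℝ)) * u := by
            have f1 : 0 ≤ Cc * (a : ℝ) * u := by positivity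
            have f2 : 0 ≤ (a : ℝ) * u := by positivity
            nlinarith [mul_nonneg hCc.le (sub_nonneg.2 hu1)]
          exact e3'.trans (mul_le_mul_of_nonneg_left hua (by positivity))
        rw [e1]
        calc CU2 * (1 + Cc * (1 + u * ((40300 * aL ν (l0 + 1) : ℕ) : ℝ))) * (1 + |s0|) *
                2 ^ (e3 * (ν : ℝ)) * WX S
            = CU2 * ((1 + |s0|) * WX S) * (2 ^ (e3 * (ν : ℝ)) *
                (1 + Cc * (1 + u * ((40300 * aL ν (l0 + 1) : ℕ) : ℝ)))) := by ring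
          _ ≤ CU2 * ((1 + |s0|) * WX S) * (2 ^ (e3 * (a : ℝ)) *
                ((1 + Cc) * (1 + 80600 * (a : ℝ)) * 2 ^ (d0 * (a : ℝ)))) := by
              refine mul_le_mul_of_nonneg_left (mul_le_mul hpa e2 ?_ ?_) ?_ <;> positivity
          _ = (CU2 * (1 + Cc)) * ((1 + 80600 * (a : ℝ)) * ((1 + |s0|) * WX S) *
                (2 ^ (d0 * (a : ℝ)) * 2 ^ (e3 * (a : ℝ)))) := by ring
          _ ≤ CM * ((1 + 80600 * (a : ℝ)) * ((1 + |s0|) * WX S) *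
                (2 ^ (d0 * (a : ℝ)) * 2 ^ (e3 * (a : ℝ)))) :=
              mul_le_mul_of_nonneg_right hCM3 (by positivity)
          _ = _ := by ring)
    refine hc.trans ?_
    have k2 : CM * K ≤ CU1 * (1 + Cc) + CM * K := by
      have : 0 < CU1 * (1 + Cc) := by positivity
      linarith
    calc CM * K * ((1 + |s0|) * WX S) * 2 ^ (-(t / 4 * (a : ℝ)))
        = (CM * K) * (((1 + |s0|) * WX S) * 2 ^ (-(t / 4 * (a : ℝ)))) := by ring
      _ ≤ (CU1 * (1 + Cc) + CM * K) * (((1 + |s0|) * WX S) * 2 ^ (-(t / 4 * (a : ℝ)))) :=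
          mul_le_mul_of_nonneg_right k2 (by positivity)
      _ = _ := by ring

end Pool.LibCA93
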