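import Pool.Agent.LibCA93.Defs
import Pool.Agent.LibST49.B2

/-
PLAN (TR, MEDIUM). See the proof of weak_full in store ST49_B2.lean. By Kb_sum and repro: Kb b (Lam(x,-s0) - p) = SUM_(j in J m κ) SUM_n Φ(nd h n - Lk κ (w κ j) p) Kb (cb χ b κ j)(Lam(x,-s0) - pos h κ (j,n)) (HasSum in n), and
cu χ b κ 1 j = cb χ b κ j. So Fn x - Fh x (T) is the sum over n outside T (finite sums over i, p, j). Sup norm: <= C SUM_i SUM_p SUM_j SUM_(n not in T) ‖Φ‖ -> 0 (Kb_cont). L1 norm: <= SUM .. SUM_(n not in T) ‖Φ‖ ‖packet‖_1, packet_L1: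
‖packet‖_1 <= C (1 + |rad (pos a)| + |s0|)^(m/2) <= C' (1 + ‖nd h n‖)^(m/2) (constants depending on κ, s0; pos linear in nd): summable because Φ decays. INT |D|^q1 <= sup^(q1-1) INT |D|. Choose T with both tails small.
-/

set_option autoImplicit false

noncomputable section

open MeasureTheory Metric Set Filter

namespace Pool.LibCA93

open Pool.LibSR53 Pool.LibST49

private theorem tr_Sb {m : ℕ} {v0 v1 : ℝ} {χ : E m → ℝ} (hχ : Pu χ) {b : V m → ℂ}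
    (hb : Sb v0 v1 1 b) (k : ℕ) (j : Fin m → ℤ) : Sb v0 v1 1 (cb χ b k j) where
  pos := hb.pos
  le := hb.le
  smooth := by
    have h1 : ContDiff ℝ (⊤ : ℕ∞) (fun z : V m => χ ((2 : ℝ) ^ k • z.1 - iv j)) :=
      hχ.smooth.comp ((contDiff_fst.const_smul _).sub contDiff_const)
    exact (Complex.ofRealCLM.contDiff.comp h1).mul hb.smooth
  supp := fun z hz => hb.supp z (fun h0 => hz (by unfold cb; rw [h0, mul_zero]))

/-- tails of a dominated series -/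
private theorem tr_tail {ι : Type} {f : ι → ℂ} {s : ℂ} (hf : HasSum f s) {g : ι → ℝ}
    (hg : Summable g) {K : ℝ} (hK : 0 ≤ K) (hfg : ∀ n, ‖f n‖ ≤ K * g n) (hg0 : ∀ n, 0 ≤ g n)
    (T : Finset ι) : ‖s - ∑ n ∈ T, f n‖ ≤ K * (∑' n, g n - ∑ n ∈ T, g n) := by
  classical
  have h1 : Tendsto (fun T' : Finset ι => ‖∑ n ∈ T', f n - ∑ n ∈ T, f n‖) atTop
      (nhds ‖s - ∑ n ∈ T, f n‖) := (hf.sub_const _).norm
  refine le_of_tendsto h1 ?_
  filter_upwards [eventually_ge_atTop T] with T' hT'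
  rw [← Finset.sum_sdiff hT', add_sub_cancel_right]
  calc ‖∑ n ∈ T' \ T, f n‖ ≤ ∑ n ∈ T' \ T, ‖f n‖ := norm_sum_le _ _
    _ ≤ ∑ n ∈ T' \ T, K * g n := Finset.sum_le_sum fun n _ => hfg n
    _ = K * (∑ n ∈ T', g n - ∑ n ∈ T, g n) := by
        rw [← Finset.mul_sum, ← Finset.sum_sdiff hT', add_sub_cancel_right]
    _ ≤ K * (∑' n, g n - ∑ n ∈ T, g n) := by
        refine mul_le_mul_of_nonneg_left (sub_le_sub_right ?_ _) hK
        exact hg.sum_le_tsum _ fun n _ => hg0 n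

/-- L1 norm of the tails of a dominated series of functions -/
private theorem tr_tailL1 {ι : Type} [Countable ι] {Y : Type} [MeasurableSpace Y] {μ : Measure Y}
    {f : ι → Y → ℂ} {s : Y → ℂ} (hf : ∀ x, HasSum (fun n => f n x) (s x))
    (hm : ∀ n, Measurable fun x => ‖f n x‖ₑ) {g : ι → ℝ} (hg : Summable g) {K : ℝ} (hK : 0 ≤ K)
    (hfg : ∀ n, ∫⁻ x, ‖f n x‖ₑ ∂μ ≤ ENNReal.ofReal (K * g n)) (hg0 : ∀ n, 0 ≤ g n)
    (T : Finset ι) :
    ∫⁻ x, ‖s x - ∑ n ∈ T, f n x‖ₑ ∂μ ≤ ENNReal.ofReal (K * (∑' n, g n - ∑ n ∈ T, g n)) := by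
  classical
  have h1 : ∀ x, ‖s x - ∑ n ∈ T, f n x‖ₑ ≤ ∑' n : {n // n ∉ T}, ‖f n x‖ₑ := by
    intro x
    have h2 : HasSum (fun n : {n // n ∉ T} => f n x) (s x - ∑ n ∈ T, f n x) := by
      refine (T.hasSum_compl_iff (f := fun n => f n x)).2 ?_
      rw [sub_add_cancel]
      exact hf x
    rw [← h2.tsum_eq]
    exact enorm_tsum_le_tsum_enorm
  have h3 : Summable (fun n : {n // n ∉ T} => K * g n) := (hg.subtype _).mul_left K
  calc ∫⁻ x, ‖s x - ∑ n ∈ T, f n x‖ₑ ∂μ ≤ ∫⁻ x, ∑' n : {n // n ∉ T}, ‖f n x‖ₑ ∂μ :=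
        lintegral_mono h1
    _ = ∑' n : {n // n ∉ T}, ∫⁻ x, ‖f n x‖ₑ ∂μ :=
        lintegral_tsum fun n => (hm n).aemeasurable
    _ ≤ ∑' n : {n // n ∉ T}, ENNReal.ofReal (K * g n) := ENNReal.tsum_le_tsum fun n => hfg n
    _ = ENNReal.ofReal (∑' n : {n // n ∉ T}, K * g n) :=
        (ENNReal.ofReal_tsum_of_nonneg (f := fun n : {n // n ∉ T} => K * g n)
          (fun n => mul_nonneg hK (hg0 n)) h3).symm
    _ = _ := by
        congr 1
        rw [tsum_mul_left]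
        congr 1
        rw [← hg.sum_add_tsum_subtype_compl T]
        ring

private theorem tr_le {m : ℕ} (a Y : X m) : 1 + ‖Y‖ ≤ (1 + ‖a‖) * (1 + ‖Y - a‖) := by
  have h1 : ‖Y‖ ≤ ‖Y - a‖ + ‖a‖ := by
    calc ‖Y‖ = ‖(Y - a) + a‖ := by rw [sub_add_cancel]
      _ ≤ _ := norm_add_le _ _
  nlinarith [norm_nonneg a, norm_nonneg (Y - a), mul_nonneg (norm_nonneg a) (norm_nonneg (Y - a))]

private theorem tr_summable {m : ℕ} {h v0 v1 ρ R : ℝ} {Φ Φh : X m → ℂ}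
    (hR : Rp h v0 v1 ρ R Φ Φh) (a : X m) :
    Summable (fun n : Zn m => ‖Φ (nd h n - a)‖ * (1 + ‖nd h n‖) ^ m) := by
  obtain ⟨C1, hC1, h1⟩ := hR.dec (m + (m + 3))
  obtain ⟨C2, hC2, h2⟩ := sum_nd m h hR.hpos
  refine summable_of_sum_le (c := C1 * (1 + ‖a‖) ^ m * C2)
    (fun n => mul_nonneg (norm_nonneg _) (by positivity)) fun T => ?_
  calc ∑ n ∈ T, ‖Φ (nd h n - a)‖ * (1 + ‖nd h n‖) ^ m
      ≤ ∑ n ∈ T, C1 * (1 + ‖a‖) ^ m * (1 / (1 + ‖nd h n - a‖) ^ (m + 3)) := by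
        refine Finset.sum_le_sum fun n _ => ?_
        have h3 := h1 (nd h n - a)
        have h4 : (1 + ‖nd h n‖) ^ m ≤ ((1 + ‖a‖) * (1 + ‖nd h n - a‖)) ^ m :=
          pow_le_pow_left₀ (by positivity) (tr_le a _) m
        have h5 : (0 : ℝ) < 1 + ‖nd h n - a‖ := by positivity
        calc ‖Φ (nd h n - a)‖ * (1 + ‖nd h n‖) ^ m
            ≤ C1 / (1 + ‖nd h n - a‖) ^ (m + (m + 3)) *
              ((1 + ‖a‖) * (1 + ‖nd h n - a‖)) ^ m := by
              refine mul_le_mul h3 h4 (by positivity) (by positivity)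
          _ = C1 * (1 + ‖a‖) ^ m * (1 / (1 + ‖nd h n - a‖) ^ (m + 3)) := by
              rw [pow_add, mul_pow]
              field_simp
    _ = C1 * (1 + ‖a‖) ^ m * ∑ n ∈ T, 1 / (1 + ‖nd h n - a‖) ^ (m + 3) := by
        rw [Finset.mul_sum]
    _ ≤ C1 * (1 + ‖a‖) ^ m * C2 := mul_le_mul_of_nonneg_left (h2 T a) (by positivity)

private theorem tr_summable1 {m : ℕ} {h v0 v1 ρ R : ℝ} {Φ Φh : X m → ℂ}
    (hR : Rp h v0 v1 ρ R Φ Φh) (a : X m) :
    Summable (fun n : Zn m => ‖Φ (nd h n - a)‖) := by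
  refine (tr_summable hR a).of_nonneg_of_le (fun n => norm_nonneg _) fun n => ?_
  refine le_mul_of_one_le_right (norm_nonneg _) (one_le_pow₀ ?_)
  linarith [norm_nonneg (nd h n : X m)]

/-- the L1 norm of a packet grows at most polynomially -/
private theorem tr_packet {m : ℕ} (hm : 1 ≤ m) {v0 v1 h : ℝ} {χ : E m → ℝ} (hχ : Pu χ)
    {b : V m → ℂ} (hb : Sb v0 v1 1 b) (κ : ℕ) (s0 : ℝ) : ∃ C : ℝ, 0 < C ∧
    ∀ j ∈ J m κ, ∀ n : Zn m,
      ∫⁻ x : E (m + 1), ‖Kb (cb χ b κ j) (Lam (x, -s0) - pos h κ (j, n))‖ₑ ≤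
        ENNReal.ofReal (C * (1 + ‖(nd h n : X m)‖) ^ m) := by
  obtain ⟨C3, hC3, H⟩ := packet_L1 hm hχ hb
  obtain ⟨c1, hc1⟩ : ∃ c1 : ℝ, c1 = (1 + 2 * Real.sqrt m) ^ 2 := ⟨_, rfl⟩
  have hc10 : 0 ≤ c1 := by rw [hc1]; positivity
  have hs := abs_nonneg s0
  refine ⟨C3 * (1 + 2 * c1 + |s0|) ^ ((m : ℝ) / 2), by positivity, ?_⟩
  intro j hj n
  refine (H κ j hj _ s0).trans (ENNReal.ofReal_le_ofReal ?_)
  rw [mul_assoc]
  refine mul_le_mul_of_nonneg_left ?_ hC3.le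
  have h4 : (1 : ℝ) ≤ 4 ^ κ := one_le_pow₀ (by norm_num)
  have h40 : (0 : ℝ) < 4 ^ κ := by positivity
  have hN := norm_nonneg (nd h n : X m)
  have hpos : ‖pos h κ (j, n)‖ ≤ 4 ^ κ * c1 * ‖(nd h n : X m)‖ := by
    have h5 : ‖(w κ j : E m)‖ ≤ 2 * Real.sqrt m := norm_w_le κ j hj
    refine (norm_Li_le κ (w κ j) (nd h n)).trans ?_
    rw [hc1]
    gcongr
  have hrad : |rad (pos h κ (j, n))| ≤ 4 ^ κ * (2 * c1 * ‖(nd h n : X m)‖) := by
    refine (abs_rad_le _).trans ?_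
    linarith
  have h6 : (|rad (pos h κ (j, n))| + |s0|) / 4 ^ κ ≤ 2 * c1 * ‖(nd h n : X m)‖ + |s0| := by
    rw [div_le_iff₀ h40]
    nlinarith
  have h7 : 1 + (|rad (pos h κ (j, n))| + |s0|) / 4 ^ κ ≤
      (1 + 2 * c1 + |s0|) * (1 + ‖(nd h n : X m)‖) := by
    nlinarith [mul_nonneg hc10 hN, mul_nonneg hs hN]
  calc (1 + (|rad (pos h κ (j, n))| + |s0|) / 4 ^ κ) ^ ((m : ℝ) / 2)
      ≤ ((1 + 2 * c1 + |s0|) * (1 + ‖(nd h n : X m)‖)) ^ ((m : ℝ) / 2) :=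
        Real.rpow_le_rpow (by positivity) h7 (by positivity)
    _ = (1 + 2 * c1 + |s0|) ^ ((m : ℝ) / 2) * (1 + ‖(nd h n : X m)‖) ^ ((m : ℝ) / 2) :=
        Real.mul_rpow (by positivity) (by positivity)
    _ ≤ (1 + 2 * c1 + |s0|) ^ ((m : ℝ) / 2) * (1 + ‖(nd h n : X m)‖) ^ m := by
        refine mul_le_mul_of_nonneg_left ?_ (by positivity)
        rw [← Real.rpow_natCast]
        refine Real.rpow_le_rpow_of_exponent_le (by linarith) ?_
        have : (0 : ℝ) ≤ m := Nat.cast_nonneg m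
        linarith

/-- approximation of the full function by finite sums of packets -/
theorem trunc {m : ℕ} (hm : 1 ≤ m) {h v0 v1 R : ℝ} {Φ Φh : X m → ℂ}
    (hR : Rp h v0 v1 (v1 * m) R Φ Φh) {χ : E m → ℝ} (hχ : Pu χ) {b : V m → ℂ}
    (hb : Sb v0 v1 1 b) (κ : ℕ) {β : Type} (B : Finset β) (k : β → ℕ) (S : β → Finset (X m))
    (γ : β → X m → ℂ) (s0 q1 : ℝ) (hq1 : 1 ≤ q1) (η : ℝ) (hη : 0 < η) :
    ∃ T : Finset (Zn m), ∫⁻ x, ‖Fn b s0 B k S γ x -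
      Fh χ b Φ h κ s0 B k S γ (fun _ => J m κ ×ˢ T) (fun _ _ => 1) x‖ₑ ^ q1 ≤
        ENNReal.ofReal η := by
  classical
  choose K hK using fun j : Fin m → ℤ => (Kb_cont (tr_Sb hχ hb κ j)).2
  have hK0 : ∀ j, 0 ≤ K j := fun j => (norm_nonneg _).trans (hK j 0)
  obtain ⟨C4, hC4, hL1⟩ := tr_packet (h := h) hm hχ hb κ s0
  set g : (Fin m → ℤ) → X m → Zn m → ℝ := fun j p n => ‖Φ (nd h n - Lk κ (w κ j) p)‖ with hg
  set g2 : (Fin m → ℤ) → X m → Zn m → ℝ := fun j p n =>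
    ‖Φ (nd h n - Lk κ (w κ j) p)‖ * (1 + ‖(nd h n : X m)‖) ^ m with hg2
  have hgs : ∀ j p, Summable (g j p) := fun j p => tr_summable1 hR _
  have hgs2 : ∀ j p, Summable (g2 j p) := fun j p => tr_summable hR _
  have key : ∀ (u : (Fin m → ℤ) → X m → Zn m → ℝ), (∀ j p, Summable (u j p)) →
      ∀ c : (Fin m → ℤ) → ℝ,
      Tendsto (fun T : Finset (Zn m) => ∑ i ∈ B, (2 : ℝ) ^ ((k i : ℝ) * ((m : ℝ) / 2)) *
      ∑ p ∈ S i, ‖γ i p‖ * ∑ j ∈ J m κ, c j * (∑' n, u j p n - ∑ n ∈ T, u j p n)) atTop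
      (nhds 0) := by
    intro u hu c
    have h0 : (0 : ℝ) = ∑ i ∈ B, (2 : ℝ) ^ ((k i : ℝ) * ((m : ℝ) / 2)) *
        ∑ p ∈ S i, ‖γ i p‖ * ∑ j ∈ J m κ, c j * 0 := by simp
    rw [h0]
    refine tendsto_finsetSum _ fun i _ => Tendsto.const_mul _ ?_
    refine tendsto_finsetSum _ fun p _ => Tendsto.const_mul _ ?_
    refine tendsto_finsetSum _ fun j _ => Tendsto.const_mul _ ?_
    have h1 : Tendsto (fun T : Finset (Zn m) => ∑ n ∈ T, u j p n) atTop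
        (nhds (∑' n, u j p n)) := (hu j p).hasSum
    simpa using h1.const_sub (∑' n, u j p n)
  obtain ⟨T, hT1, hT2⟩ := (((key g hgs K).eventually (eventually_le_nhds one_pos)).and
    ((key g2 hgs2 (fun _ => C4)).eventually (eventually_le_nhds hη))).exists
  refine ⟨T, ?_⟩
  -- the remainders
  obtain ⟨D, hD⟩ : ∃ D : (Fin m → ℤ) → X m → E (m + 1) → ℂ, D = fun j p x =>
      Kb (cb χ b κ j) (Lam (x, -s0) - p) - ∑ n ∈ T, Φ (nd h n - Lk κ (w κ j) p) *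
        Kb (cb χ b κ j) (Lam (x, -s0) - pos h κ (j, n)) := ⟨_, rfl⟩
  have hmeasK : ∀ (j : Fin m → ℤ) (q : X m),
      Measurable (fun x : E (m + 1) => Kb (cb χ b κ j) (Lam (x, -s0) - q)) := by
    intro j q
    have h2 : Continuous (fun x : E (m + 1) => Lam (x, -s0) - q) :=
      (continuous_Lam.comp (continuous_id.prodMk continuous_const)).sub continuous_const
    exact ((Kb_cont (tr_Sb hχ hb κ j)).1.comp h2).measurable
  have hDm : ∀ j p, Measurable (fun x => ‖D j p x‖ₑ) := by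
    intro j p
    rw [hD]
    exact ((hmeasK j p).sub (Finset.measurable_fun_sum _ fun n _ =>
      (hmeasK j _).const_mul _)).enorm
  have hsup : ∀ j p x, ‖D j p x‖ ≤ K j * (∑' n, g j p n - ∑ n ∈ T, g j p n) := by
    intro j p x
    rw [hD]
    refine tr_tail (repro hm hR hχ.toCt hb κ j (Lam (x, -s0)) p) (hgs j p) (hK0 j)
      (fun n => ?_) (fun n => norm_nonneg _) T
    rw [norm_mul, mul_comm]
    exact mul_le_mul_of_nonneg_right (hK j _) (norm_nonneg _)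
  have hint : ∀ j ∈ J m κ, ∀ p, ∫⁻ x, ‖D j p x‖ₑ ≤
      ENNReal.ofReal (C4 * (∑' n, g2 j p n - ∑ n ∈ T, g2 j p n)) := by
    intro j hj p
    rw [hD]
    refine tr_tailL1 (f := fun n x => Φ (nd h n - Lk κ (w κ j) p) *
        Kb (cb χ b κ j) (Lam (x, -s0) - pos h κ (j, n)))
      (fun x => repro hm hR hχ.toCt hb κ j (Lam (x, -s0)) p)
      (fun n => ((hmeasK j _).const_mul _).enorm) (hgs2 j p) hC4.le (fun n => ?_)
      (fun n => mul_nonneg (norm_nonneg _) (by positivity)) T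
    simp only [enorm_mul]
    rw [lintegral_const_mul _ (hmeasK j _).enorm]
    refine (mul_le_mul' le_rfl (hL1 j hj n)).trans (le_of_eq ?_)
    rw [← ofReal_norm, ← ENNReal.ofReal_mul (norm_nonneg _)]
    congr 1
    simp only [hg2]
    ring
  have hform : ∀ x, Fn b s0 B k S γ x -
      Fh χ b Φ h κ s0 B k S γ (fun _ => J m κ ×ˢ T) (fun _ _ => 1) x =
      ∑ i ∈ B, (((2 : ℝ) ^ ((k i : ℝ) * ((m : ℝ) / 2)) : ℝ) : ℂ) *
        ∑ p ∈ S i, γ i p * ∑ j ∈ J m κ, D j p x := by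
    intro x
    have hcu : ∀ j : Fin m → ℤ, cu χ b κ (fun _ => (1 : ℝ)) j = cb χ b κ j := by
      intro j
      funext z
      simp [cu, cb]
    unfold Fn Fh
    rw [← Finset.sum_sub_distrib]
    refine Finset.sum_congr rfl fun i _ => ?_
    rw [← mul_sub]
    congr 1
    have hsw : ∑ a ∈ J m κ ×ˢ T, cf Φ h κ (S i) (γ i) a *
        Kb (cu χ b κ (fun _ => (1 : ℝ)) a.1) (Lam (x, -s0) - pos h κ a) =
        ∑ p ∈ S i, γ i p * ∑ j ∈ J m κ, ∑ n ∈ T, Φ (nd h n - Lk κ (w κ j) p) *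
          Kb (cb χ b κ j) (Lam (x, -s0) - pos h κ (j, n)) := by
      rw [Finset.sum_product]
      simp only [cf, hcu, Finset.sum_mul, Finset.mul_sum]
      rw [Finset.sum_comm (s := S i) (t := J m κ)]
      refine Finset.sum_congr rfl fun j _ => ?_
      rw [Finset.sum_comm (s := S i) (t := T)]
      refine Finset.sum_congr rfl fun n _ => Finset.sum_congr rfl fun p _ => ?_
      ring
    rw [hsw, ← Finset.sum_sub_distrib]
    refine Finset.sum_congr rfl fun p _ => ?_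
    rw [← mul_sub, Kb_sum hχ hb κ, ← Finset.sum_sub_distrib, hD]
  have hle1 : ∀ x, ‖Fn b s0 B k S γ x -
      Fh χ b Φ h κ s0 B k S γ (fun _ => J m κ ×ˢ T) (fun _ _ => 1) x‖ₑ ≤ 1 := by
    intro x
    rw [← ofReal_norm]
    refine ENNReal.ofReal_le_one.2 (le_trans ?_ hT1)
    rw [hform]
    refine (norm_sum_le _ _).trans (Finset.sum_le_sum fun i _ => ?_)
    rw [norm_mul, Complex.norm_real, Real.norm_of_nonneg (by positivity)]
    refine mul_le_mul_of_nonneg_left ?_ (by positivity)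
    refine (norm_sum_le _ _).trans (Finset.sum_le_sum fun p _ => ?_)
    rw [norm_mul]
    refine mul_le_mul_of_nonneg_left ?_ (norm_nonneg _)
    exact (norm_sum_le _ _).trans (Finset.sum_le_sum fun j _ => hsup j p x)
  have htl : ∀ j p, 0 ≤ ∑' n, g2 j p n - ∑ n ∈ T, g2 j p n := fun j p =>
    sub_nonneg.2 ((hgs2 j p).sum_le_tsum _ fun n _ => mul_nonneg (norm_nonneg _) (by positivity))
  calc ∫⁻ x, ‖Fn b s0 B k S γ x -
      Fh χ b Φ h κ s0 B k S γ (fun _ => J m κ ×ˢ T) (fun _ _ => 1) x‖ₑ ^ q1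
      ≤ ∫⁻ x, ∑ i ∈ B, ENNReal.ofReal ((2 : ℝ) ^ ((k i : ℝ) * ((m : ℝ) / 2))) *
          ∑ p ∈ S i, ENNReal.ofReal ‖γ i p‖ * ∑ j ∈ J m κ, ‖D j p x‖ₑ := by
        refine lintegral_mono fun x => ?_
        refine (ENNReal.rpow_le_self_of_le_one (hle1 x) hq1).trans ?_
        rw [hform]
        refine (enorm_sum_le _ _).trans (Finset.sum_le_sum fun i _ => ?_)
        rw [enorm_mul]
        refine mul_le_mul' (le_of_eq ?_) ?_
        · rw [← ofReal_norm, Complex.norm_real, Real.norm_of_nonneg (by positivity)]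
        · refine (enorm_sum_le _ _).trans (Finset.sum_le_sum fun p _ => ?_)
          rw [enorm_mul]
          refine mul_le_mul' (le_of_eq ?_) (enorm_sum_le _ _)
          rw [← ofReal_norm]
    _ = ∑ i ∈ B, ENNReal.ofReal ((2 : ℝ) ^ ((k i : ℝ) * ((m : ℝ) / 2))) *
          ∑ p ∈ S i, ENNReal.ofReal ‖γ i p‖ * ∑ j ∈ J m κ, ∫⁻ x, ‖D j p x‖ₑ := by
        have m1 : ∀ p, Measurable (fun x => ∑ j ∈ J m κ, ‖D j p x‖ₑ) := fun p =>
          Finset.measurable_fun_sum _ fun j _ => hDm j p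
        have m2 : ∀ i, Measurable (fun x => ∑ p ∈ S i, ENNReal.ofReal ‖γ i p‖ *
            ∑ j ∈ J m κ, ‖D j p x‖ₑ) := fun i =>
          Finset.measurable_fun_sum _ fun p _ => (m1 p).const_mul _
        rw [lintegral_finsetSum _ (fun i _ => (m2 i).const_mul _)]
        refine Finset.sum_congr rfl fun i _ => ?_
        rw [lintegral_const_mul _ (m2 i), lintegral_finsetSum _ (fun p _ => (m1 p).const_mul _)]
        congr 1
        refine Finset.sum_congr rfl fun p _ => ?_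
        rw [lintegral_const_mul _ (m1 p), lintegral_finsetSum _ (fun j _ => hDm j p)]
    _ ≤ ∑ i ∈ B, ENNReal.ofReal ((2 : ℝ) ^ ((k i : ℝ) * ((m : ℝ) / 2))) *
          ∑ p ∈ S i, ENNReal.ofReal ‖γ i p‖ * ∑ j ∈ J m κ,
            ENNReal.ofReal (C4 * (∑' n, g2 j p n - ∑ n ∈ T, g2 j p n)) := by
        refine Finset.sum_le_sum fun i _ => mul_le_mul' le_rfl ?_
        refine Finset.sum_le_sum fun p _ => mul_le_mul' le_rfl ?_
        exact Finset.sum_le_sum fun j hj => hint j hj p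
    _ = ENNReal.ofReal (∑ i ∈ B, (2 : ℝ) ^ ((k i : ℝ) * ((m : ℝ) / 2)) *
          ∑ p ∈ S i, ‖γ i p‖ * ∑ j ∈ J m κ,
            C4 * (∑' n, g2 j p n - ∑ n ∈ T, g2 j p n)) := by
        have n1 : ∀ p, 0 ≤ ∑ j ∈ J m κ, C4 * (∑' n, g2 j p n - ∑ n ∈ T, g2 j p n) := fun p =>
          Finset.sum_nonneg fun j _ => mul_nonneg hC4.le (htl j p)
        have n2 : ∀ i, 0 ≤ ∑ p ∈ S i, ‖γ i p‖ * ∑ j ∈ J m κ,
            C4 * (∑' n, g2 j p n - ∑ n ∈ T, g2 j p n) := fun i =>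
          Finset.sum_nonneg fun p _ => mul_nonneg (norm_nonneg _) (n1 p)
        rw [ENNReal.ofReal_sum_of_nonneg (fun i _ => mul_nonneg (by positivity) (n2 i))]
        refine Finset.sum_congr rfl fun i _ => ?_
        rw [ENNReal.ofReal_mul (by positivity),
          ENNReal.ofReal_sum_of_nonneg (fun p _ => mul_nonneg (norm_nonneg _) (n1 p))]
        congr 1
        refine Finset.sum_congr rfl fun p _ => ?_
        rw [ENNReal.ofReal_mul (norm_nonneg _),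
          ENNReal.ofReal_sum_of_nonneg (fun j _ => mul_nonneg hC4.le (htl j p))]
    _ ≤ ENNReal.ofReal η := ENNReal.ofReal_le_ofReal hT2

end Pool.LibCA93
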