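import Pool.Agent.LibCA93.D8
import Pool.Agent.LibCA93.TR
import Pool.Agent.LibST49.P1

/-
PLAN (D9, STRONG). χ from exists_Pu, (h,R,Φ,Φh) from exists_Rp with ρ = v1 * 2. S empty: trivial. FX = Fn b s0 (Bs ν S) (fun c => c.1) (Sc ν S) (fun _ => γ) (2^((k:ℝ)*(2/2)) = 2^k; regroup by blocks). trunc with η = WX S (>= 1): T; G := J 2 (kap ν) ×ˢ T.
Fh (G, 1) = Fh (G, Pr As J') + SUM_(l0 < J') Fh (G, Pr (AP l0) J'): Kb (cu ..) is linear in the symbol Ψ (integrals of integrable functions), and 1 = Π_(l<J') A_l + SUM_(l0<J') (1 - A_l0) Π_(l0<l<J') A_l (induction; Pr (AP l0) J' is this product).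
Fh (G, Pr As) = Fh (Gk, ..) + Fh (Gr, ..). Minkowski in L^q1 (eLpNorm or the lintegral form): ‖FX‖_q1 <= SUM of the q1-norms <= (C (1+|s0|) 2^(εν) WX)^(1/q1) (3 + SUM_l0 2^(-c a_l0/q1)), and SUM_l0 2^(-c ν 2^l0/q1) <= C (a_l0 >= l0 ν, geometric).
-/

set_option autoImplicit false

noncomputable section

open MeasureTheory Metric Set Filter

namespace Pool.LibCA93

open Pool.LibSR53 Pool.LibST49

private theorem D9_Sb {v0 v1 : ℝ} {χ : E 2 → ℝ} (hχ : Pu χ) {b : V 2 → ℂ}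
    (hb : Sb v0 v1 1 b) (k : ℕ) {Ψ : E 2 → ℝ} (hΨ : ContDiff ℝ (⊤ : ℕ∞) Ψ) (j : Fin 2 → ℤ) :
    Sb v0 v1 1 (cu χ b k Ψ j) where
  pos := hb.pos
  le := hb.le
  smooth := by
    have h1 : ContDiff ℝ (⊤ : ℕ∞) (fun z : V 2 => χ ((2 : ℝ) ^ k • z.1 - iv j)) :=
      hχ.smooth.comp ((contDiff_fst.const_smul _).sub contDiff_const)
    have h2 : ContDiff ℝ (⊤ : ℕ∞) (fun z : V 2 => Ψ z.1) := hΨ.comp contDiff_fst
    exact (Complex.ofRealCLM.contDiff.comp h1).mul ((Complex.ofRealCLM.contDiff.comp h2).mul hb.smooth)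
  supp := fun z hz => hb.supp z (fun h0 => hz (by unfold cu; rw [h0, mul_zero, mul_zero]))

private theorem D9_cs {v0 v1 : ℝ} {b : V 2 → ℂ} (hb : Sb v0 v1 1 b) : HasCompactSupport b := by
  refine HasCompactSupport.of_support_subset_isCompact
    ((isCompact_closedBall (0 : E 2) 1).prod (isCompact_Icc (a := v0) (b := v1))) fun z hz => ?_
  obtain ⟨h1, h2, h3⟩ := hb.supp z hz
  exact ⟨mem_closedBall_zero_iff.2 h3, h1, h2⟩

private theorem D9_int {v0 v1 : ℝ} {b : V 2 → ℂ} (hb : Sb v0 v1 1 b) (Z : X 2) :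
    Integrable fun z : V 2 => e1 (ph Z z) * b z := by
  have h1 : Continuous fun z : V 2 => e1 (ph Z z) := by
    unfold e1 ph
    fun_prop
  exact (h1.mul hb.smooth.continuous).integrable_of_hasCompactSupport (D9_cs hb).mul_left

private theorem D9_Kadd {v0 v1 : ℝ} {χ : E 2 → ℝ} (hχ : Pu χ) {b : V 2 → ℂ}
    (hb : Sb v0 v1 1 b) (k : ℕ) (J' : ℕ) {Ψ Ψ0 : E 2 → ℝ} {Ψ1 : ℕ → E 2 → ℝ}
    (h0 : ContDiff ℝ (⊤ : ℕ∞) Ψ0) (h1 : ∀ l, ContDiff ℝ (⊤ : ℕ∞) (Ψ1 l))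
    (he : ∀ ω, Ψ ω = Ψ0 ω + ∑ l ∈ Finset.range J', Ψ1 l ω) (j : Fin 2 → ℤ) (Z : X 2) :
    Kb (cu χ b k Ψ j) Z = Kb (cu χ b k Ψ0 j) Z + ∑ l ∈ Finset.range J', Kb (cu χ b k (Ψ1 l) j) Z := by
  unfold Kb
  rw [← integral_finsetSum _ fun l _ => D9_int (D9_Sb hχ hb k (h1 l) j) Z,
    ← integral_add (D9_int (D9_Sb hχ hb k h0 j) Z)
      (integrable_finsetSum _ fun l _ => D9_int (D9_Sb hχ hb k (h1 l) j) Z)]
  refine integral_congr_ae (Eventually.of_forall fun z => ?_)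
  show e1 (ph Z z) * cu χ b k Ψ j z = e1 (ph Z z) * cu χ b k Ψ0 j z +
    ∑ l ∈ Finset.range J', e1 (ph Z z) * cu χ b k (Ψ1 l) j z
  rw [← Finset.mul_sum, ← mul_add]
  congr 1
  unfold cu
  rw [← Finset.mul_sum, ← mul_add, ← Finset.sum_mul, ← add_mul, he]
  push_cast
  ring

private theorem D9_cont {v0 v1 : ℝ} {χ : E 2 → ℝ} (hχ : Pu χ) {b : V 2 → ℂ}
    (hb : Sb v0 v1 1 b) (Φ : X 2 → ℂ) (h : ℝ) (κ : ℕ) (s0 : ℝ) {β : Type}
    (B : Finset β) (k : β → ℕ) (S : β → Finset (X 2)) (γ : β → X 2 → ℂ)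
    (G : β → Finset (Pk 2)) {Ψ : β → E 2 → ℝ} (hΨ : ∀ i, ContDiff ℝ (⊤ : ℕ∞) (Ψ i)) :
    Continuous (Fh χ b Φ h κ s0 B k S γ G Ψ) := by
  unfold Fh
  refine continuous_finsetSum _ fun i _ => continuous_const.mul ?_
  refine continuous_finsetSum _ fun a _ => continuous_const.mul ?_
  have h2 : Continuous (fun x : E 3 => Lam (x, -s0) - pos h κ a) :=
    (continuous_Lam.comp (continuous_id.prodMk continuous_const)).sub continuous_const
  exact (Kb_cont (D9_Sb hχ hb κ (hΨ i) a.1)).1.comp h2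

/-- splitting of the symbol -/
private theorem D9_split {v0 v1 : ℝ} {χ : E 2 → ℝ} (hχ : Pu χ) {b : V 2 → ℂ}
    (hb : Sb v0 v1 1 b) (Φ : X 2 → ℂ) (h : ℝ) (κ : ℕ) (s0 : ℝ) {β : Type}
    (B : Finset β) (k : β → ℕ) (S : β → Finset (X 2)) (γ : β → X 2 → ℂ)
    (G : β → Finset (Pk 2)) (J' : ℕ) {Ψ Ψ0 : β → E 2 → ℝ} {Ψ1 : ℕ → β → E 2 → ℝ}
    (h0 : ∀ i, ContDiff ℝ (⊤ : ℕ∞) (Ψ0 i)) (h1 : ∀ l i, ContDiff ℝ (⊤ : ℕ∞) (Ψ1 l i))
    (he : ∀ i ω, Ψ i ω = Ψ0 i ω + ∑ l ∈ Finset.range J', Ψ1 l i ω) (x : E 3) :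
    Fh χ b Φ h κ s0 B k S γ G Ψ x = Fh χ b Φ h κ s0 B k S γ G Ψ0 x +
      ∑ l ∈ Finset.range J', Fh χ b Φ h κ s0 B k S γ G (Ψ1 l) x := by
  unfold Fh
  rw [Finset.sum_comm (s := Finset.range J') (t := B), ← Finset.sum_add_distrib]
  refine Finset.sum_congr rfl fun i _ => ?_
  rw [← Finset.mul_sum, ← mul_add, Finset.sum_comm (s := Finset.range J') (t := G i),
    ← Finset.sum_add_distrib]
  congr 1
  refine Finset.sum_congr rfl fun a _ => ?_
  rw [← Finset.mul_sum, ← mul_add, ← D9_Kadd hχ hb κ J' (h0 i) (fun l => h1 l i) (he i)]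

/-- splitting of the packets -/
private theorem D9_splitG {χ : E 2 → ℝ} {b : V 2 → ℂ}
    (Φ : X 2 → ℂ) (h : ℝ) (κ : ℕ) (s0 : ℝ) {β : Type} [DecidableEq (Pk 2)]
    (B : Finset β) (k : β → ℕ) (S : β → Finset (X 2)) (γ : β → X 2 → ℂ)
    (G G1 G2 : β → Finset (Pk 2)) (hG1 : ∀ i, G1 i ⊆ G i) (hG2 : ∀ i, G2 i = G i \ G1 i)
    (Ψ : β → E 2 → ℝ) (x : E 3) :
    Fh χ b Φ h κ s0 B k S γ G Ψ x = Fh χ b Φ h κ s0 B k S γ G1 Ψ x +
      Fh χ b Φ h κ s0 B k S γ G2 Ψ x := by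
  unfold Fh
  rw [← Finset.sum_add_distrib]
  refine Finset.sum_congr rfl fun i _ => ?_
  rw [← mul_add, hG2 i, add_comm (∑ a ∈ G1 i, _), Finset.sum_sdiff (hG1 i)]

private theorem D9_As {χ : E 2 → ℝ} (hχ : Pu χ) (ν : ℕ) (u : ℝ) (S : Finset (X 2)) (v : Fin 4 → ℤ)
    (l : ℕ) (c : ℕ × (Fin 4 → ℤ)) : ContDiff ℝ (⊤ : ℕ∞) (As χ ν u S v l c) := by
  unfold As
  refine contDiff_const.sub (ContDiff.sum fun j _ => ?_)
  exact hχ.smooth.comp ((contDiff_id.const_smul _).sub contDiff_const)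

private theorem D9_AP {χ : E 2 → ℝ} (hχ : Pu χ) (ν : ℕ) (u : ℝ) (S : Finset (X 2)) (v : Fin 4 → ℤ)
    (l0 l : ℕ) (c : ℕ × (Fin 4 → ℤ)) : ContDiff ℝ (⊤ : ℕ∞) (AP χ ν u S v l0 l c) := by
  by_cases h1 : l < l0
  · have e : AP χ ν u S v l0 l c = fun _ => 1 := by
      funext ω
      unfold AP
      rw [if_pos h1]
    rw [e]
    exact contDiff_const
  · by_cases h2 : l = l0
    · have e : AP χ ν u S v l0 l c = fun ω => 1 - As χ ν u S v l c ω := by
        funext ω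
        unfold AP
        rw [if_neg h1, if_pos h2]
      rw [e]
      exact contDiff_const.sub (D9_As hχ ν u S v l c)
    · have e : AP χ ν u S v l0 l c = As χ ν u S v l c := by
        funext ω
        unfold AP
        rw [if_neg h1, if_neg h2]
      rw [e]
      exact D9_As hχ ν u S v l c

private theorem D9_Pr {A : ℕ → E 2 → ℝ} (hA : ∀ l, ContDiff ℝ (⊤ : ℕ∞) (A l)) (j : ℕ) :
    ContDiff ℝ (⊤ : ℕ∞) (Pr A j) := by
  unfold Pr
  exact contDiff_prod fun l _ => hA l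

/-- telescoping -/
private theorem D9_tel (A : ℕ → ℝ) (J' : ℕ) : (1 : ℝ) = ∏ l ∈ Finset.range J', A l +
    ∑ l0 ∈ Finset.range J', ∏ l ∈ Finset.range J', (if l < l0 then 1 else if l = l0 then 1 - A l else A l) := by
  induction J' with
  | zero => simp
  | succ n ih =>
    rw [Finset.prod_range_succ, Finset.sum_range_succ]
    have e1' : ∀ l0 ∈ Finset.range n, ∏ l ∈ Finset.range (n + 1), (if l < l0 then 1 else if l = l0 then 1 - A l else A l) =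
        (∏ l ∈ Finset.range n, (if l < l0 then 1 else if l = l0 then 1 - A l else A l)) * A n := by
      intro l0 hl0
      have h3 := Finset.mem_range.1 hl0
      rw [Finset.prod_range_succ, if_neg (by omega), if_neg (by omega)]
    have e2' : ∏ l ∈ Finset.range (n + 1), (if l < n then 1 else if l = n then 1 - A l else A l) = 1 - A n := by
      rw [Finset.prod_range_succ, if_neg (lt_irrefl n), if_pos rfl]
      rw [Finset.prod_eq_one fun l hl => if_pos (Finset.mem_range.1 hl), one_mul]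
    rw [Finset.sum_congr rfl e1', e2', ← Finset.sum_mul]
    linear_combination A n * ih

/-- the sum over the points by blocks -/
private theorem D9_FX (b : V 2 → ℂ) (s0 : ℝ) (ν : ℕ) (S : Finset (X 2)) (γ : X 2 → ℂ) (x : E 3) :
    FX b s0 S γ x = Fn b s0 (Bs ν S) (fun c => c.1) (Sc ν S) (fun _ => γ) x := by
  classical
  unfold FX Fn
  have h1 : ∀ c ∈ Bs ν S, (((2 : ℝ) ^ (((c.1 : ℕ) : ℝ) * (((2 : ℕ) : ℝ) / 2)) : ℝ) : ℂ) *
      ∑ p ∈ Sc ν S c, γ p * Kb b (Lam (x, -s0) - p) =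
      ∑ p ∈ S with blk ν p = c, γ p * ((2 : ℂ) ^ (kp p) * Kb b (Lam (x, -s0) - p)) := by
    intro c _
    have e1' : ((c.1 : ℕ) : ℝ) * (((2 : ℕ) : ℝ) / 2) = ((c.1 : ℕ) : ℝ) := by
      push_cast
      ring
    have e2' : Sc ν S c = S.filter (fun p => blk ν p = c) := by
      unfold Sc
      congr
    rw [e1', Real.rpow_natCast, e2', Finset.mul_sum]
    refine Finset.sum_congr rfl fun p hp => ?_
    have h2 : kp p = c.1 := by
      have h3 := (Finset.mem_filter.1 hp).2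
      rw [← h3]
      rfl
    rw [h2]
    push_cast
    ring
  rw [Finset.sum_congr rfl h1]
  refine (Finset.sum_fiberwise_of_maps_to (fun p hp => ?_) _).symm
  unfold Bs
  convert Finset.mem_image_of_mem (blk ν) hp

private theorem D9_L {q a : ℝ} (hq : 1 < q) {f : E 3 → ℂ} (ha : 0 ≤ a)
    (h : ∫⁻ x, ‖f x‖ₑ ^ q ≤ ENNReal.ofReal a) :
    eLpNorm f (ENNReal.ofReal q) volume ≤ ENNReal.ofReal (a ^ (1 / q)) := by
  have hq0 : 0 < q := by linarith
  rw [eLpNorm_eq_lintegral_rpow_enorm_toReal (by rw [ne_eq, ENNReal.ofReal_eq_zero, not_le]; exact hq0)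
    ENNReal.ofReal_ne_top, ENNReal.toReal_ofReal hq0.le, ← ENNReal.ofReal_rpow_of_nonneg ha (by positivity)]
  exact ENNReal.rpow_le_rpow h (by positivity)

private theorem D9_L' {q t : ℝ} (hq : 1 < q) {f : E 3 → ℂ} (ht : 0 ≤ t)
    (h : eLpNorm f (ENNReal.ofReal q) volume ≤ ENNReal.ofReal t) :
    ∫⁻ x, ‖f x‖ₑ ^ q ≤ ENNReal.ofReal (t ^ q) := by
  have hq0 : 0 < q := by linarith
  rw [eLpNorm_eq_lintegral_rpow_enorm_toReal (by rw [ne_eq, ENNReal.ofReal_eq_zero, not_le]; exact hq0)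
    ENNReal.ofReal_ne_top, ENNReal.toReal_ofReal hq0.le] at h
  have h1 := ENNReal.rpow_le_rpow h hq0.le
  rw [← ENNReal.rpow_mul, one_div, inv_mul_cancel₀ hq0.ne', ENNReal.rpow_one,
    ENNReal.ofReal_rpow_of_nonneg ht hq0.le] at h1
  exact h1

/-- the strong type bound for configurations -/
theorem conf_strong {v0 v1 : ℝ} {b : V 2 → ℂ} (hb : Sb v0 v1 1 b)
    (hC : ∀ q : ℝ, 2 < q → q < 4 → CDec 2 q) (q1 : ℝ) (h1 : 1 < q1) (h2 : q1 < 4 / 3) :
    ∃ δ : ℝ, 0 < δ ∧ ∀ ε : ℝ, 0 < ε → ∃ (C : ℝ) (ν0 : ℕ), 0 < C ∧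
    ∀ (ν : ℕ) (u : ℝ) (S : Finset (X 2)) (v : Fin 4 → ℤ) (J' : ℕ), ν0 ≤ ν →
    u ≤ (2 : ℝ) ^ (δ * ν) → Cf ν u S v J' → ∀ γ : X 2 → ℂ, (∀ p, ‖γ p‖ ≤ 1) → ∀ s0 : ℝ,
    ∫⁻ x, ‖FX b s0 S γ x‖ₑ ^ q1 ≤ ENNReal.ofReal (C * (1 + |s0|) * 2 ^ (ε * ν) * WX S) := by
  have hq0 : 0 < q1 := by linarith
  obtain ⟨χ, hχ⟩ := exists_Pu 2
  have hv1 : 0 < v1 := hb.pos.trans_le hb.le
  obtain ⟨h, R, Φ, Φh, -, hR⟩ := exists_Rp 2 v0 v1 (v1 * ((2 : ℕ) : ℝ)) hb.pos hb.le (by positivity)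
  obtain ⟨δ, hδ, hthree⟩ := three_parts hR hχ hb hC q1 h1 h2
  refine ⟨δ, hδ, fun ε hε => ?_⟩
  obtain ⟨C3, c, ν0, hC3, hc, hmain⟩ := hthree ε hε
  set r : ℝ := 2 ^ (-(c / q1)) with hr
  have hr0 : 0 < r := Real.rpow_pos_of_pos two_pos _
  have hr1 : r < 1 := Real.rpow_lt_one_of_one_lt_of_neg one_lt_two (by
    have : 0 < c / q1 := by positivity
    linarith)
  set K : ℝ := 3 + (1 - r)⁻¹ with hK
  have h1r : 0 < (1 - r)⁻¹ := inv_pos.2 (by linarith)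
  have hK0 : 0 < K := by linarith
  set C4 : ℝ := max C3 1 with hC4
  have hC41 : 1 ≤ C4 := le_max_right _ _
  have hC43 : C3 ≤ C4 := le_max_left _ _
  have hC40 : 0 < C4 := by linarith
  refine ⟨K ^ q1 * C4, ν0, by positivity, ?_⟩
  intro ν u S v J' hν hu hcf γ hγ s0
  have hWX : 0 ≤ WX S := Finset.sum_nonneg fun p _ => by positivity
  have hs0 : 1 ≤ 1 + |s0| := by linarith [abs_nonneg s0]
  have h2ε : 1 ≤ (2 : ℝ) ^ (ε * ν) := Real.one_le_rpow one_le_two (by positivity)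
  rcases S.eq_empty_or_nonempty with hS | hS
  · have hz : ∀ x, FX b s0 S γ x = 0 := fun x => by
      unfold FX
      rw [hS, Finset.sum_empty]
    have hz' : ∫⁻ x, ‖FX b s0 S γ x‖ₑ ^ q1 = 0 := by
      rw [lintegral_congr fun x => by rw [hz x, enorm_zero, ENNReal.zero_rpow_of_pos hq0], lintegral_zero]
    rw [hz']
    exact zero_le
  have hWX0 : 0 < WX S := Finset.sum_pos (fun p _ => by positivity) hS
  obtain ⟨T, hT⟩ := trunc (by norm_num) hR hχ hb (kap ν) (Bs ν S) (fun c => c.1) (Sc ν S) (fun _ => γ) s0 q1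
    h1.le (WX S) hWX0
  set G : Finset (Pk 2) := J 2 (kap ν) ×ˢ T with hG
  obtain ⟨hk, hrm, hp⟩ := hmain ν u S v J' hν hu hcf (fun _ => γ) (fun _ => hγ) G
    (fun a ha => (Finset.mem_product.1 ha).1) s0
  set Fone : E 3 → ℂ := Fh χ b Φ h (kap ν) s0 (Bs ν S) (fun c => c.1) (Sc ν S) (fun _ => γ) (fun _ => G)
    (fun _ _ => 1) with hFone
  set Fk : E 3 → ℂ := Fh χ b Φ h (kap ν) s0 (Bs ν S) (fun c => c.1) (Sc ν S) (fun _ => γ) (Gk h ν u S G)
    (fun c => Pr (fun l => As χ ν u S v l (pil ν v l c)) J') with hFk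
  set Fr : E 3 → ℂ := Fh χ b Φ h (kap ν) s0 (Bs ν S) (fun c => c.1) (Sc ν S) (fun _ => γ) (Gr h ν u S G)
    (fun c => Pr (fun l => As χ ν u S v l (pil ν v l c)) J') with hFr
  set Fp : ℕ → E 3 → ℂ := fun l0 => Fh χ b Φ h (kap ν) s0 (Bs ν S) (fun c => c.1) (Sc ν S) (fun _ => γ)
    (fun _ => G) (fun c => Pr (fun l => AP χ ν u S v l0 l (pil ν v l c)) J') with hFp
  set D : E 3 → ℂ := fun x => Fn b s0 (Bs ν S) (fun c => c.1) (Sc ν S) (fun _ => γ) x - Fone x with hD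
  have hsA : ∀ c : ℕ × (Fin 4 → ℤ), ContDiff ℝ (⊤ : ℕ∞) (Pr (fun l => As χ ν u S v l (pil ν v l c)) J') :=
    fun c => D9_Pr (fun l => D9_As hχ ν u S v l _) J'
  have hsP : ∀ (l0 : ℕ) (c : ℕ × (Fin 4 → ℤ)),
      ContDiff ℝ (⊤ : ℕ∞) (Pr (fun l => AP χ ν u S v l0 l (pil ν v l c)) J') :=
    fun l0 c => D9_Pr (fun l => D9_AP hχ ν u S v l0 l _) J'
  have hck : Continuous Fk := D9_cont hχ hb Φ h (kap ν) s0 _ _ _ _ _ hsA
  have hcr : Continuous Fr := D9_cont hχ hb Φ h (kap ν) s0 _ _ _ _ _ hsA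
  have hcp : ∀ l0, Continuous (Fp l0) := fun l0 => D9_cont hχ hb Φ h (kap ν) s0 _ _ _ _ _ (hsP l0)
  have hc1 : Continuous Fone := D9_cont hχ hb Φ h (kap ν) s0 _ _ _ _ _ fun _ => contDiff_const
  have hcD : Continuous D := by
    refine Continuous.sub ?_ hc1
    unfold Fn
    refine continuous_finsetSum _ fun i _ => continuous_const.mul ?_
    refine continuous_finsetSum _ fun p _ => continuous_const.mul ?_
    exact (Kb_cont hb).1.comp
      ((continuous_Lam.comp (continuous_id.prodMk continuous_const)).sub continuous_const)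
  have hdec : FX b s0 S γ = D + Fk + Fr + ∑ l0 ∈ Finset.range J', Fp l0 := by
    funext x
    have e1' : Fone x = Fh χ b Φ h (kap ν) s0 (Bs ν S) (fun c => c.1) (Sc ν S) (fun _ => γ) (fun _ => G)
        (fun c => Pr (fun l => As χ ν u S v l (pil ν v l c)) J') x + ∑ l0 ∈ Finset.range J', Fp l0 x := by
      refine D9_split hχ hb Φ h (kap ν) s0 _ _ _ _ _ J' hsA hsP (fun c ω => ?_) x
      exact D9_tel (fun l => As χ ν u S v l (pil ν v l c) ω) J'
    have e2' : Fh χ b Φ h (kap ν) s0 (Bs ν S) (fun c => c.1) (Sc ν S) (fun _ => γ) (fun _ => G)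
        (fun c => Pr (fun l => As χ ν u S v l (pil ν v l c)) J') x = Fk x + Fr x := by
      classical
      refine D9_splitG Φ h (kap ν) s0 _ _ _ _ _ _ _ (fun c => ?_) (fun c => ?_) _ x
      · unfold Gk
        exact Finset.filter_subset _ _
      · unfold Gr
        congr
    rw [D9_FX b s0 ν S γ x]
    simp only [Pi.add_apply, Finset.sum_apply, hD]
    rw [e1', e2']
    ring
  set X0 : ℝ := C4 * (1 + |s0|) * 2 ^ (ε * ν) * WX S with hX0
  have hX00 : 0 ≤ X0 := by positivity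
  have hX1 : WX S ≤ X0 := by
    have h3 : 1 ≤ C4 * (1 + |s0|) * 2 ^ (ε * ν) := one_le_mul_of_one_le_of_one_le
      (one_le_mul_of_one_le_of_one_le hC41 hs0) h2ε
    exact le_mul_of_one_le_left hWX h3
  have hLD : eLpNorm D (ENNReal.ofReal q1) volume ≤ ENNReal.ofReal (X0 ^ (1 / q1)) :=
    D9_L h1 hX00 (hT.trans (ENNReal.ofReal_le_ofReal hX1))
  have hLk : eLpNorm Fk (ENNReal.ofReal q1) volume ≤ ENNReal.ofReal (X0 ^ (1 / q1)) := by
    refine D9_L h1 hX00 (hk.trans (ENNReal.ofReal_le_ofReal ?_))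
    rw [hX0]
    gcongr
  have hLr : eLpNorm Fr (ENNReal.ofReal q1) volume ≤ ENNReal.ofReal (X0 ^ (1 / q1)) := by
    refine D9_L h1 hX00 (hrm.trans (ENNReal.ofReal_le_ofReal ?_))
    rw [hX0]
    have h3 : C3 * (1 + |s0|) ≤ C4 * (1 + |s0|) * 2 ^ (ε * ν) :=
      (mul_le_mul_of_nonneg_right hC43 (by linarith)).trans (le_mul_of_one_le_right (by positivity) h2ε)
    exact mul_le_mul_of_nonneg_right h3 hWX
  have hν1 : 1 ≤ ν := hcf.nu1
  have hLp : ∀ l0 ∈ Finset.range J', eLpNorm (Fp l0) (ENNReal.ofReal q1) volume ≤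
      ENNReal.ofReal (X0 ^ (1 / q1) * r ^ l0) := by
    intro l0 hl0
    have h3 : 0 ≤ X0 * 2 ^ (-(c * aL ν l0)) := by positivity
    refine (D9_L h1 h3 ((hp l0 (Finset.mem_range.1 hl0)).trans (ENNReal.ofReal_le_ofReal ?_))).trans
      (ENNReal.ofReal_le_ofReal ?_)
    · have h4 : C3 * (1 + |s0|) ≤ C4 * (1 + |s0|) * 2 ^ (ε * ν) :=
        (mul_le_mul_of_nonneg_right hC43 (by linarith)).trans (le_mul_of_one_le_right (by positivity) h2ε)
      calc C3 * (1 + |s0|) * 2 ^ (-(c * aL ν l0)) * WX S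
          ≤ C4 * (1 + |s0|) * 2 ^ (ε * ν) * 2 ^ (-(c * aL ν l0)) * WX S :=
            mul_le_mul_of_nonneg_right (mul_le_mul_of_nonneg_right h4 (by positivity)) hWX
        _ = X0 * 2 ^ (-(c * aL ν l0)) := by rw [hX0]; ring
    · rw [Real.mul_rpow hX00 (by positivity), ← Real.rpow_mul (by norm_num)]
      refine mul_le_mul_of_nonneg_left ?_ (by positivity)
      rw [hr, ← Real.rpow_natCast, ← Real.rpow_mul (by norm_num)]
      refine Real.rpow_le_rpow_of_exponent_le one_le_two ?_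
      have h5 : l0 ≤ aL ν l0 := by
        unfold aL
        calc l0 ≤ 2 ^ l0 := Nat.lt_two_pow_self.le
          _ ≤ ν * 2 ^ l0 := Nat.le_mul_of_pos_left _ hν1
      have h6 : (l0 : ℝ) ≤ aL ν l0 := by exact_mod_cast h5
      have h7 : 0 < c / q1 := by positivity
      have h8 : -(c * aL ν l0) * (1 / q1) = -(c / q1 * aL ν l0) := by ring
      rw [h8, neg_mul]
      exact neg_le_neg (mul_le_mul_of_nonneg_left h6 h7.le)
  have hp1 : (1 : ENNReal) ≤ ENNReal.ofReal q1 := by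
    rw [ENNReal.one_le_ofReal]
    exact h1.le
  have hms : AEStronglyMeasurable (∑ l0 ∈ Finset.range J', Fp l0) volume :=
    Finset.aestronglyMeasurable_sum _ fun l0 _ => (hcp l0).aestronglyMeasurable
  have hgeo : ∑ l0 ∈ Finset.range J', r ^ l0 ≤ (1 - r)⁻¹ := by
    rw [← tsum_geometric_of_lt_one hr0.le hr1]
    exact (summable_geometric_of_lt_one hr0.le hr1).sum_le_tsum _ fun _ _ => by positivity
  have hXq : 0 ≤ X0 ^ (1 / q1) := by positivity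
  have htot : eLpNorm (FX b s0 S γ) (ENNReal.ofReal q1) volume ≤ ENNReal.ofReal (X0 ^ (1 / q1) * K) := by
    rw [hdec]
    calc eLpNorm (D + Fk + Fr + ∑ l0 ∈ Finset.range J', Fp l0) (ENNReal.ofReal q1) volume
        ≤ eLpNorm (D + Fk + Fr) (ENNReal.ofReal q1) volume +
          eLpNorm (∑ l0 ∈ Finset.range J', Fp l0) (ENNReal.ofReal q1) volume :=
          eLpNorm_add_le ((hcD.add hck).add hcr).aestronglyMeasurable hms hp1
      _ ≤ (eLpNorm (D + Fk) (ENNReal.ofReal q1) volume + eLpNorm Fr (ENNReal.ofReal q1) volume) +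
          ∑ l0 ∈ Finset.range J', eLpNorm (Fp l0) (ENNReal.ofReal q1) volume :=
          add_le_add (eLpNorm_add_le (hcD.add hck).aestronglyMeasurable hcr.aestronglyMeasurable hp1)
            (eLpNorm_sum_le (fun l0 _ => (hcp l0).aestronglyMeasurable) hp1)
      _ ≤ ((eLpNorm D (ENNReal.ofReal q1) volume + eLpNorm Fk (ENNReal.ofReal q1) volume) +
          eLpNorm Fr (ENNReal.ofReal q1) volume) +
          ∑ l0 ∈ Finset.range J', eLpNorm (Fp l0) (ENNReal.ofReal q1) volume :=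
          add_le_add (add_le_add (eLpNorm_add_le hcD.aestronglyMeasurable hck.aestronglyMeasurable hp1) le_rfl) le_rfl
      _ ≤ ((ENNReal.ofReal (X0 ^ (1 / q1)) + ENNReal.ofReal (X0 ^ (1 / q1))) + ENNReal.ofReal (X0 ^ (1 / q1))) +
          ∑ l0 ∈ Finset.range J', ENNReal.ofReal (X0 ^ (1 / q1) * r ^ l0) :=
          add_le_add (add_le_add (add_le_add hLD hLk) hLr) (Finset.sum_le_sum hLp)
      _ = ENNReal.ofReal (X0 ^ (1 / q1) * (3 + ∑ l0 ∈ Finset.range J', r ^ l0)) := by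
          rw [← ENNReal.ofReal_sum_of_nonneg (fun l0 _ => by positivity), ← ENNReal.ofReal_add hXq hXq,
            ← ENNReal.ofReal_add (by positivity) hXq, ← ENNReal.ofReal_add (by positivity)
              (Finset.sum_nonneg fun l0 _ => by positivity), ← Finset.mul_sum]
          congr 1
          ring
      _ ≤ ENNReal.ofReal (X0 ^ (1 / q1) * K) := by
          refine ENNReal.ofReal_le_ofReal (mul_le_mul_of_nonneg_left ?_ hXq)
          rw [hK]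
          linarith
  have hfin := D9_L' h1 (by positivity) htot
  refine hfin.trans (ENNReal.ofReal_le_ofReal (le_of_eq ?_))
  rw [Real.mul_rpow hXq hK0.le, ← Real.rpow_mul hX00, one_div, inv_mul_cancel₀ hq0.ne', Real.rpow_one, hX0]
  ring

end Pool.LibCA93
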