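import Pool.Agent.LibST49.Defs

/-
LibCA93: MP_d34678, d = 3 (m = 2), all g, Stein-Tomas range, from cone decoupling. Continuation of LibST49.
Points are elements of X 2 = E 2 x R x R (coordinates Lam). Parameter nu : ℕ (called ν). a_l := ν 2^l.
kap ν = 20000 ν : packets of scale kap (sectors 2^-kap, planks of length 4^kap); base cubes have side 4^kap = 2^(40000 ν).
kl ν l = 100 a_l : the direction cells of level l have size phi_l = 2^(-100 a_l).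
cubes of level l have side 4^kap * 2^(eL ν l) = 2^(40000 a_l). Window of level l: dyadic exponents i with 40300 a_l <= i < 40300 a_(l+1).
-/

set_option autoImplicit false

noncomputable section

open MeasureTheory Metric Set Filter

namespace Pool.LibCA93

open Pool.LibSR53 Pool.LibST49

/-! ### symbols -/

/-- real symbols (functions of the direction) of growth B -/
structure Sy {m : ℕ} (K : ℕ → ℝ) (B : ℝ) (Ψ : E m → ℝ) : Prop where
  smooth : ContDiff ℝ (⊤ : ℕ∞) Ψ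
  bd : ∀ (n : ℕ) (z : E m), ‖iteratedFDeriv ℝ n Ψ z‖ ≤ K n * B ^ n

/-- the symbol of a packet with label j and an additional symbol Ψ -/
def cu {m : ℕ} (χ : E m → ℝ) (b : V m → ℂ) (κ : ℕ) (Ψ : E m → ℝ) (j : Fin m → ℤ) (z : V m) : ℂ :=
  (χ ((2 : ℝ) ^ κ • z.1 - iv j) : ℂ) * ((Ψ z.1 : ℂ) * b z)

/-- ω lies in the cell j of size 2^(-k) -/
def cel {m : ℕ} (k : ℕ) (j : Fin m → ℤ) (ω : E m) : Prop := ∀ i, |(2 : ℝ) ^ k * ω i - j i| < 1

/-- the cell j of size 2^(-k) meets the set where Ψ is not zero, inside the unit ball -/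
def tch {m : ℕ} (k : ℕ) (Ψ : E m → ℝ) (j : Fin m → ℤ) : Prop :=
  ∃ ω : E m, ‖ω‖ ≤ 1 ∧ cel k j ω ∧ Ψ ω ≠ 0

/-- the cell j of size 2^(-k) contains a direction where both symbols and one packet cut off of
each family do not vanish -/
def tc2 {m : ℕ} (χ : E m → ℝ) (κ k : ℕ) (G : Finset (Pk m)) (Ψ : E m → ℝ) (G' : Finset (Pk m))
    (Ψ' : E m → ℝ) (j : Fin m → ℤ) : Prop :=
  ∃ ω : E m, ‖ω‖ ≤ 1 ∧ cel k j ω ∧ Ψ ω ≠ 0 ∧ Ψ' ω ≠ 0 ∧
    (∃ a ∈ G, χ ((2 : ℝ) ^ κ • ω - iv a.1) ≠ 0) ∧ (∃ a ∈ G', χ ((2 : ℝ) ^ κ • ω - iv a.1) ≠ 0)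

/-- product of the first j symbols of a sequence -/
def Pr {m : ℕ} (A : ℕ → E m → ℝ) (j : ℕ) (ω : E m) : ℝ := ∏ l ∈ Finset.range j, A l ω

/-! ### functions -/

/-- finite sums of packets with additional symbols -/
def Fh {m : ℕ} (χ : E m → ℝ) (b : V m → ℂ) (Φ : X m → ℂ) (h : ℝ) (κ : ℕ) (s0 : ℝ) {β : Type}
    (B : Finset β) (k : β → ℕ) (S : β → Finset (X m)) (γ : β → X m → ℂ)
    (G : β → Finset (Pk m)) (Ψ : β → E m → ℝ) (x : E (m + 1)) : ℂ :=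
  ∑ i ∈ B, (((2 : ℝ) ^ ((k i : ℝ) * ((m : ℝ) / 2)) : ℝ) : ℂ) *
    ∑ a ∈ G i, cf Φ h κ (S i) (γ i) a * Kb (cu χ b κ (Ψ i) a.1) (Lam (x, -s0) - pos h κ a)

/-- the interaction of two points: sum over all pairs of packets -/
def Xp {m : ℕ} (χ : E m → ℝ) (b : V m → ℂ) (Φ : X m → ℂ) (h : ℝ) (κ : ℕ)
    (G G' : Finset (Pk m)) (Ψ Ψ' : E m → ℝ) (p q : X m) : ℝ :=
  ∑ a ∈ G, ∑ a' ∈ G', ‖Φ (nd h a.2 - Lk κ (w κ a.1) p)‖ * ‖Φ (nd h a'.2 - Lk κ (w κ a'.1) q)‖ *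
    ‖Kb (gb (cu χ b κ Ψ a.1) (cu χ b κ Ψ' a'.1)) (pos h κ a - pos h κ a')‖

/-- blocks of points: radius about 2^(k i), contained in a slab of width 4^κ -/
structure Bk {m : ℕ} (κ : ℕ) {β : Type} (B : Finset β) (k : β → ℕ) (S : β → Finset (X m)) :
    Prop where
  le : ∀ i ∈ B, (4 : ℝ) ^ κ ≤ 2 ^ (k i)
  rad : ∀ i ∈ B, ∀ p ∈ S i, (2 : ℝ) ^ (k i) ≤ rad p ∧ rad p ≤ 2 ^ (k i + 1)
  slab : ∀ i ∈ B, ∀ p ∈ S i, ∀ q ∈ S i, |p.2.1 - q.2.1| ≤ 4 ^ κ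
  sep : ∀ i ∈ B, ∀ p ∈ S i, ∀ q ∈ S i, p ≠ q → 1 / 3 ≤ ‖p - q‖

/-- a nested sequence of J partitions of the blocks: sp i i' is the first level at which i and i'
lie in the same class -/
structure Hi {β c : Type} (B : Finset β) (J : ℕ) (π : ℕ → β → c) (sp : β → β → ℕ) : Prop where
  le : ∀ i ∈ B, ∀ i' ∈ B, i ≠ i' → sp i i' ≤ J
  iff : ∀ i ∈ B, ∀ i' ∈ B, i ≠ i' → ∀ l < J, (π l i = π l i' ↔ sp i i' ≤ l)

/-- the cross terms of a family of blocks with symbols A l (π l i) -/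
def Cr {m : ℕ} (χ : E m → ℝ) (b : V m → ℂ) (Φ : X m → ℂ) (h : ℝ) (κ : ℕ) {β c : Type}
    [DecidableEq β] (B : Finset β) (k : β → ℕ) (S : β → Finset (X m)) (G : β → Finset (Pk m))
    (π : ℕ → β → c) (sp : β → β → ℕ) (A : ℕ → c → E m → ℝ) : ℝ :=
  ∑ i ∈ B, ∑ i' ∈ B.erase i, (2 : ℝ) ^ (((k i : ℝ) + (k i' : ℝ)) * ((m : ℝ) / 2)) *
    ∑ p ∈ S i, ∑ q ∈ S i', Xp χ b Φ h κ (G i) (G i') (Pr (fun l => A l (π l i)) (sp i i'))
      (Pr (fun l => A l (π l i')) (sp i i')) p q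

/-! ### geometry of point differences -/

/-- direction of a point difference -/
def om {m : ℕ} (Z : X m) : E m := (-(1 / (2 * Z.2.1))) • Z.1

/-- defect of a point difference -/
def ap {m : ℕ} (Z : X m) : ℝ := Z.2.2 - ‖Z.1‖ ^ 2 / (4 * Z.2.1)

/-- the quadratic form |y|^2 - r^2 -/
def qf {m : ℕ} (Z : X m) : ℝ := ‖Z.1‖ ^ 2 - 4 * Z.2.1 * Z.2.2

/-- the value at Z of the linear form with null direction ω -/
def Av {m : ℕ} (ω : E m) (Z : X m) : ℝ := Z.2.2 + inner ℝ Z.1 ω + Z.2.1 * ‖ω‖ ^ 2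

/-- distance of a point difference from the light cone -/
def ee {m : ℕ} (Z : X m) : ℝ := abs (ny Z - abs (rad Z))

/-- dyadic exponent (base 4) of the length of a point difference -/
def kz {m : ℕ} (Z : X m) : ℕ := Nat.log 4 ⌊‖Z‖⌋₊

/-! ### the configuration, m = 2 -/

/-- a_l -/
def aL (ν l : ℕ) : ℕ := ν * 2 ^ l

/-- scale of the packets -/
def kap (ν : ℕ) : ℕ := 20000 * ν

/-- scale of the direction cells of level l -/
def kl (ν l : ℕ) : ℕ := 100 * aL ν l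

/-- scale of the cubes of level l, in units of base cubes -/
def eL (ν l : ℕ) : ℕ := 40000 * ν * (2 ^ l - 1)

/-- i is in the window of level l -/
def inW (ν l i : ℕ) : Prop := 40300 * aL ν l ≤ i ∧ i < 40300 * aL ν (l + 1)

/-- the four real coordinates -/
def crd (p : X 2) : Fin 4 → ℝ := ![p.1 0, p.1 1, p.2.1, p.2.2]

/-- index of the base cube of a point -/
def bi (ν : ℕ) (p : X 2) (i : Fin 4) : ℤ := ⌊crd p i / 4 ^ kap ν⌋

/-- dyadic exponent of the radius of a point -/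
def kp (p : X 2) : ℕ := Nat.log 2 ⌊rad p⌋₊

/-- block of a point: radius exponent and base cube -/
def blk (ν : ℕ) (p : X 2) : ℕ × (Fin 4 → ℤ) := (kp p, bi ν p)

/-- class of a block in the grid of cubes of side 4^kap * 2^e, shifted by v -/
def grd (v : Fin 4 → ℤ) (e : ℕ) (c : ℕ × (Fin 4 → ℤ)) : ℕ × (Fin 4 → ℤ) :=
  (c.1, fun i => (c.2 i + v i) / 2 ^ e)

/-- class of a block at level l -/
def pil (ν : ℕ) (v : Fin 4 → ℤ) (l : ℕ) (c : ℕ × (Fin 4 → ℤ)) : ℕ × (Fin 4 → ℤ) :=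
  grd v (eL ν l) c

open scoped Classical in
/-- the points of S of radius exponent k -/
def scX (k : ℕ) (S : Finset (X 2)) : Finset (X 2) := S.filter (fun p => kp p = k)

open scoped Classical in
/-- density at most u at all scales -/
def DX (u : ℝ) (S : Finset (X 2)) : Prop :=
  ∀ k : ℕ, ∀ p ∈ scX k S, ∀ t : ℝ, 1 ≤ t → t ≤ 2 ^ (k + 20) →
    (((scX k S).filter (fun q => ‖q - p‖ ≤ t)).card : ℝ) ≤ u * t

/-- the configuration: a separated set S of density u, large radii, radius exponents and base cubes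
in one residue class mod 3, no point close to the shifted grids of levels 1 <= l < J -/
structure Cf (ν : ℕ) (u : ℝ) (S : Finset (X 2)) (v : Fin 4 → ℤ) (J : ℕ) : Prop where
  nu1 : 1 ≤ ν
  u1 : 1 ≤ u
  u2 : u ≤ 2 ^ ν
  sep : ∀ p ∈ S, ∀ q ∈ S, p ≠ q → 1 / 3 ≤ ‖p - q‖
  rd : ∀ p ∈ S, (2 : ℝ) ^ (40300 * ν) ≤ rad p
  scl : ∃ c : ℕ, ∀ p ∈ S, kp p % 3 = c
  col : ∃ c : Fin 4 → ℤ, ∀ p ∈ S, ∀ i, bi ν p i % 3 = c i
  dens : DX u S
  mar : ∀ p ∈ S, ∀ l, 1 ≤ l → l < J → ∀ i,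
    (2 : ℤ) ^ (eL ν l / 2) ≤ (bi ν p i + v i) % 2 ^ (eL ν l) ∧
      (bi ν p i + v i) % 2 ^ (eL ν l) < 2 ^ (eL ν l) - 2 ^ (eL ν l / 2)
  top : ∀ p ∈ S, rad p ≤ 2 ^ (10000 * ν * 2 ^ J)
  J1 : 1 ≤ J

open scoped Classical in
/-- number of points of T whose difference from z has direction within r of w -/
def Cn (T : Finset (X 2)) (z : X 2) (w : E 2) (r : ℝ) : ℕ :=
  (T.filter (fun p => ‖p - z‖ ≤ 10 * |(p - z).2.1| ∧ ‖om (p - z) - w‖ ≤ r)).card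

open scoped Classical in
/-- the points of S of radius exponent k at distance between 2^i and 2^(i+1) from z -/
def TS (S : Finset (X 2)) (k i : ℕ) (z : X 2) : Finset (X 2) :=
  (scX k S).filter (fun p => (2 : ℝ) ^ i ≤ ‖p - z‖ ∧ ‖p - z‖ < 2 ^ (i + 1))

open scoped Classical in
/-- the points of S of radius exponent k' at distance at most 2^(k+4) from z -/
def TN (S : Finset (X 2)) (k k' : ℕ) (z : X 2) : Finset (X 2) :=
  (scX k' S).filter (fun p => ‖p - z‖ ≤ 2 ^ (k + 4))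

open scoped Classical in
/-- the points of S of radius exponent at least k + 3 whose light cone passes near a point of S of
radius exponent k in the cube c of side 2^k -/
def PB (ν : ℕ) (S : Finset (X 2)) (v : Fin 4 → ℤ) (k : ℕ) (c : ℕ × (Fin 4 → ℤ)) :
    Finset (X 2) :=
  S.filter (fun p => k + 3 ≤ kp p ∧ ∃ z ∈ scX k S,
    grd v (k - 2 * kap ν) (blk ν z) = c ∧ ee (p - z) ≤ 2 ^ (k + 6))

open scoped Classical in
/-- the bad direction cells of the class c at level l -/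
def Bad (ν : ℕ) (u : ℝ) (S : Finset (X 2)) (v : Fin 4 → ℤ) (l : ℕ) (c : ℕ × (Fin 4 → ℤ)) :
    Finset (Fin 2 → ℤ) :=
  (J 2 (kl ν l)).filter (fun j => ∃ z ∈ S, pil ν v l (blk ν z) = c ∧
    ((∃ i : ℕ, inW ν l i ∧ i ≤ kp z + 5 ∧
        u * 2 ^ i / 2 ^ (199 * aL ν l) <
          (Cn (TS S (kp z) i z) z (w (kl ν l) j) (8 / 2 ^ (kl ν l)) : ℝ)) ∨
      (inW ν l (kp z) ∧
        (((PB ν S v (kp z) (grd v (kp z - 2 * kap ν) (blk ν z))).card : ℝ) + u * 2 ^ (kp z)) /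
            2 ^ (199 * aL ν l) <
          (Cn (PB ν S v (kp z) (grd v (kp z - 2 * kap ν) (blk ν z))) z (w (kl ν l) j)
            (8 / 2 ^ (kl ν l)) : ℝ)) ∨
      (∃ k' : ℕ, inW ν l k' ∧ k' + 3 ≤ kp z ∧ kp z ≤ k' + 25 * aL ν l ∧
        u * 2 ^ k' / 2 ^ (99 * aL ν l) <
          (Cn (TN S (kp z) k' z) z (w (kl ν l) j) (8 / 2 ^ (kl ν l)) : ℝ))))

open scoped Classical in
/-- number of points of other blocks in the plank of direction label j through p -/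
def Nb (ν : ℕ) (S : Finset (X 2)) (p : X 2) (j : Fin 2 → ℤ) (H : ℝ) : ℕ :=
  ((scX (kp p) S).filter (fun q => blk ν q ≠ blk ν p ∧
    ‖Lk (3000 * ν) (w (kap ν) j) (p - q)‖ ≤ H)).card

/-- the direction label j is heavy for p -/
def Hv (ν : ℕ) (u : ℝ) (S : Finset (X 2)) (p : X 2) (j : Fin 2 → ℤ) : Prop :=
  u * 2 ^ (34901 * ν) < (Nb ν S p j (2 ^ (34300 * ν + 8)) : ℝ)

/-- cut off symbol of the class c at level l -/
def As (χ : E 2 → ℝ) (ν : ℕ) (u : ℝ) (S : Finset (X 2)) (v : Fin 4 → ℤ) (l : ℕ)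
    (c : ℕ × (Fin 4 → ℤ)) (ω : E 2) : ℝ :=
  1 - ∑ j ∈ Bad ν u S v l c, χ ((2 : ℝ) ^ (kl ν l) • ω - iv j)

/-- the direction ω is unremoved for p at level l -/
def LG (ν : ℕ) (u : ℝ) (S : Finset (X 2)) (v : Fin 4 → ℤ) (l : ℕ) (p : X 2) (ω : E 2) : Prop :=
  ∃ j ∈ J 2 (kl ν l), cel (kl ν l) j ω ∧ j ∉ Bad ν u S v l (pil ν v l (blk ν p))

/-- the direction ω is light for p in the base window -/
def LB (ν : ℕ) (u : ℝ) (S : Finset (X 2)) (p : X 2) (ω : E 2) : Prop :=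
  ∃ j ∈ J 2 (kap ν), cel (kap ν) j ω ∧ ¬ Hv ν u S p j

/-- dyadic index of a pair: distance for equal radius exponents, smaller radius otherwise -/
def idx (p q : X 2) : ℕ := if kp p = kp q then Nat.log 2 ⌊‖p - q‖⌋₊ else min (kp p) (kp q)

/-- tolerance attached to a dyadic index -/
def th (ν i : ℕ) : ℝ := 2 ^ (ν * 2 ^ (Nat.log 2 (i / (40300 * ν))))

/-- light tangent pairs in the windows of level l -/
def LT (ν : ℕ) (u : ℝ) (S : Finset (X 2)) (v : Fin 4 → ℤ) (K : ℝ) (p q : X 2) : Prop :=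
  ∃ ω : E 2, ‖ω‖ ≤ 1 ∧ ‖Lk (kz (p - q)) ω (p - q)‖ ≤ K * th ν (idx p q) ∧
    (40300 * ν ≤ idx p q → ∀ l, inW ν l (idx p q) → LG ν u S v l p ω ∧ LG ν u S v l q ω) ∧
    (idx p q < 40300 * ν → LB ν u S p ω ∧ LB ν u S q ω)

/-- weight -/
def WX (S : Finset (X 2)) : ℝ := ∑ p ∈ S, (2 : ℝ) ^ (2 * kp p)

/-- the energy of the pairs of points in different blocks: pairs with index < i0 by absolute
values, light tangent pairs, and tails -/
def En (ν : ℕ) (u : ℝ) (S : Finset (X 2)) (v : Fin 4 → ℤ) (K : ℝ) (M N i0 : ℕ) : ℝ :=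
  open scoped Classical in
  ∑ p ∈ S, ∑ q ∈ S.filter (fun q => blk ν q ≠ blk ν p), (2 : ℝ) ^ (kp p + kp q) *
    (Mk N (p - q) * ((if idx p q < i0 ∨ LT ν u S v K p q then 1 else 0) +
      1 / (th ν (idx p q)) ^ M))

end Pool.LibCA93
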