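import Pool.Agent.LibCA93.Defs

/-
PLAN (Defs2, definitions of block D
-/

set_option autoImplicit false

noncomputable section

open MeasureTheory Metric Set Filter

namespace Pool.LibCA93

open Pool.LibSR53 Pool.LibST49

/-- level at which two blocks separate: number of levels l < J' where their cubes are different -/
def spl (ν : ℕ) (v : Fin 4 → ℤ) (J' : ℕ) (c c' : ℕ × (Fin 4 → ℤ)) : ℕ :=
  open scoped Classical in
  ((Finset.range J').filter (fun l => pil ν v l c ≠ pil ν v l c')).card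

/-- the blocks of S -/
def Bs (ν : ℕ) (S : Finset (X 2)) : Finset (ℕ × (Fin 4 → ℤ)) :=
  open scoped Classical in S.image (blk ν)

/-- the points of S in a block -/
def Sc (ν : ℕ) (S : Finset (X 2)) (c : ℕ × (Fin 4 → ℤ)) : Finset (X 2) :=
  open scoped Classical in S.filter (fun p => blk ν p = c)

/-- symbols of the part removed at level l0: nothing below l0, the removed cells at l0, cut offs
above l0 -/
def AP (χ : E 2 → ℝ) (ν : ℕ) (u : ℝ) (S : Finset (X 2)) (v : Fin 4 → ℤ) (l0 l : ℕ)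
    (c : ℕ × (Fin 4 → ℤ)) (ω : E 2) : ℝ :=
  if l < l0 then 1 else if l = l0 then 1 - As χ ν u S v l c ω else As χ ν u S v l c ω

/-- the kept packets of a block: their label is light for every near point of the block -/
def Gk (h : ℝ) (ν : ℕ) (u : ℝ) (S : Finset (X 2)) (G : Finset (Pk 2)) (c : ℕ × (Fin 4 → ℤ)) :
    Finset (Pk 2) :=
  open scoped Classical in
  G.filter (fun a => ∀ p ∈ Sc ν S c, ‖nd h a.2 - Lk (kap ν) (w (kap ν) a.1) p‖ ≤ 2 ^ ν →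
    ¬ Hv ν u S p a.1)

/-- the removed packets of a block -/
def Gr (h : ℝ) (ν : ℕ) (u : ℝ) (S : Finset (X 2)) (G : Finset (Pk 2)) (c : ℕ × (Fin 4 → ℤ)) :
    Finset (Pk 2) :=
  open scoped Classical in G \ Gk h ν u S G c

/-- the configuration without the condition on the grids -/
structure Cg (ν : ℕ) (u : ℝ) (S : Finset (X 2)) (J : ℕ) : Prop where
  nu1 : 1 ≤ ν
  u1 : 1 ≤ u
  u2 : u ≤ 2 ^ ν
  sep : ∀ p ∈ S, ∀ q ∈ S, p ≠ q → 1 / 3 ≤ ‖p - q‖
  rd : ∀ p ∈ S, (2 : ℝ) ^ (40300 * ν) ≤ rad p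
  scl : ∃ c : ℕ, ∀ p ∈ S, kp p % 3 = c
  col : ∃ c : Fin 4 → ℤ, ∀ p ∈ S, ∀ i, bi ν p i % 3 = c i
  dens : DX u S
  top : ∀ p ∈ S, rad p ≤ 2 ^ (10000 * ν * 2 ^ J)
  J1 : 1 ≤ J

/-- the point p is far from the grids of levels 1 <= l < J shifted by v -/
def gd (ν : ℕ) (v : Fin 4 → ℤ) (J : ℕ) (p : X 2) : Prop := ∀ l, 1 ≤ l → l < J → ∀ i,
  (2 : ℤ) ^ (eL ν l / 2) ≤ (bi ν p i + v i) % 2 ^ (eL ν l) ∧
    (bi ν p i + v i) % 2 ^ (eL ν l) < 2 ^ (eL ν l) - 2 ^ (eL ν l / 2)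

/-- the half wave sum over a set of points -/
def FX (b : V 2 → ℂ) (s0 : ℝ) (S : Finset (X 2)) (γ : X 2 → ℂ) (x : E 3) : ℂ :=
  ∑ p ∈ S, γ p * ((2 : ℂ) ^ (kp p) * Kb b (Lam (x, -s0) - p))

end Pool.LibCA93
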