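import Pool.Agent.LibCA93.D13
import Pool.Agent.LibST49.Fin

/-
Q1 for all functions, in the whole open Stein-Tomas range, dimension at least 3: the case d = 3 from
hst_two (caustic), the case d >= 4 from LibST49.
-/

set_option autoImplicit false

noncomputable section

open MeasureTheory Metric Set Filter

namespace Pool.LibCA93

open Pool.LibSR53 Pool.LibST49

/-- strong type bounds for half wave atoms of R^3, unconditionally -/
theorem hst2 : HST 2 :=
  hst_two fun q h1 h2 => Pool.LibCN33.cdec 2 q h1 (by push_cast; linarith)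

theorem main (d : ℕ) (hd : 3 ≤ d) (p : ℝ) (hp1 : 1 < p)
    (hp2 : p < 2 * ((d : ℝ) + 1) / ((d : ℝ) + 3))
    (η : SchwartzMap (EuclideanSpace ℝ (Fin d)) ℂ)
    (hη : ∃ ε : ℝ, 0 < ε ∧ ∀ ξ : EuclideanSpace ℝ (Fin d), ‖ξ‖ < ε →
      ∫ x : EuclideanSpace ℝ (Fin d),
        Complex.exp (-(2 * (Real.pi : ℂ) * Complex.I * ((inner ℝ x ξ : ℝ) : ℂ))) * η x = 0) :
    ∃ C : ℝ, ∀ g : EuclideanSpace ℝ (Fin d) × ℝ → ℂ, Measurable g → (∃ B : ℝ, ∀ z, ‖g z‖ ≤ B) →
      HasCompactSupport g →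
      MeasureTheory.eLpNorm
        (fun x : EuclideanSpace ℝ (Fin d) =>
          ∫ r in Set.Ioi (1 : ℝ), ∫ z : EuclideanSpace ℝ (Fin d),
            (∫ y in Metric.sphere (0 : EuclideanSpace ℝ (Fin d)) r, η (x - y - z)
              ∂(MeasureTheory.Measure.hausdorffMeasure ((d : ℝ) - 1))) * g (z, r))
        (ENNReal.ofReal p) MeasureTheory.volume
      ≤ ENNReal.ofReal C *
        (∫⁻ r in Set.Ioi (1 : ℝ), ∫⁻ x : EuclideanSpace ℝ (Fin d),
            ‖g (x, r)‖ₑ ^ p * ENNReal.ofReal (r ^ (d - 1))) ^ (1 / p) := by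
  rcases Nat.lt_or_ge 3 d with h4 | h3
  · exact Pool.LibST49.main d h4 p hp1 hp2 η hη
  · obtain rfl : d = 3 := le_antisymm h3 hd
    have hp2' : p < pS 2 := by
      unfold pS
      refine hp2.trans_eq ?_
      push_cast
      norm_num
    exact main_of_hst 2 le_rfl hst2 p hp1 hp2' η hη

end Pool.LibCA93
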