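import Pool.Agent.LibCA93.SDU
import Pool.Agent.LibCA93.SY
import Pool.Agent.LibST49.K6

/-
PLAN (GU, STRONG). gram_far of LibST49 (proof: store ST49_K6.lean; adapt it), with symbols Ψ, Ψ', without the final dirsum, and with weights 1/(1+α)^M instead of ‖Φ‖. gb (cu χ b κ Ψ j) (cu χ b κ Ψ' j') z =
χ(2^κ z.1 - iv j) χ(2^κ z.1 - iv j') Ψ z.1 Ψ' z.1 * gb b b z (all cut offs real); gb b b is a symbol (gb_sb). The function Θ = χ(2^κ . - iv j) χ(2^κ . - iv j') Ψ Ψ' is Sy K1 (2^k) with K1 depending only on K and χ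
(Sy_cut, Sy_mono since 2^κ <= 2^k, Sy_mul). subdecU for (gb b b, Θ), exponent N: for D = pos a - pos a': |Kb(..) D| <= C 2^(-km) (1+|4^-k D.2.1|)^(4N) SUM_(j'' : tch k Θ j'') (1+‖Lk k w'' D‖)^-N. tch k Θ j'' gives a
direction ω with cel k j'' ω, Ψ ω, Ψ' ω, χ(2^κ ω - iv a.1), χ(2^κ ω - iv a'.1) /= 0, ‖ω‖ <= 1: so j'' is in the filter tc2, and ‖w k j'' - w κ a.1‖, ‖w k j'' - w κ a'.1‖ <= 2 sqrt m 2^-κ. As in K6: D = (p - q) +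
(pos a - p) - (pos a' - q), ‖Lk k w'' (pos a - p)‖ <= C ‖Lk κ (w κ a.1) (pos a - p)‖ = C α (Lk_comp, Lk_Li), Peetre, |4^-k (p-q).2.1| <= c0⁻¹: term <= C 2^(-km) (1+‖Lk k w'' (p-q)‖)^-N (1+α)^(5N) (1+α')^(5N).
M := 5N + m + 3. Exchange the sums: for fixed j'' at most C labels a.1 and C labels a'.1 are near, and the sums over n, n' are bounded (sum_nd).
-/

set_option autoImplicit false

noncomputable section

open MeasureTheory Metric Set Filter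

namespace Pool.LibCA93

open Pool.LibSR53 Pool.LibST49

private theorem GU_count {m : ℕ} (r : ℝ) (hr : 0 ≤ r) (y : E m) (T : Finset (Fin m → ℤ))
    (hT : ∀ j ∈ T, ‖y - iv j‖ ≤ r) : (T.card : ℝ) ≤ (2 * r + 1) ^ m := by
  have h1 : T ⊆ Fintype.piFinset (fun i => Finset.Icc ⌈y i - r⌉ ⌊y i + r⌋) := by
    intro j hj
    rw [Fintype.mem_piFinset]
    intro i
    have h2 := hT j hj
    have h3 : ‖(y - iv j : E m) i‖ ≤ ‖y - iv j‖ := PiLp.norm_apply_le _ i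
    have h4 : (y - iv j : E m) i = y i - (j i : ℝ) := by simp [iv]
    rw [h4, Real.norm_eq_abs] at h3
    have h5 := abs_le.1 (le_trans h3 h2)
    rw [Finset.mem_Icc, Int.ceil_le, Int.le_floor]
    constructor <;> linarith [h5.1, h5.2]
  have h2 := Finset.card_le_card h1
  rw [Fintype.card_piFinset] at h2
  have h3 : (T.card : ℝ) ≤ ∏ i : Fin m, ((Finset.Icc ⌈y i - r⌉ ⌊y i + r⌋).card : ℝ) := by exact_mod_cast h2
  refine le_trans h3 ?_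
  have h4 : ∀ i ∈ (Finset.univ : Finset (Fin m)), ((Finset.Icc ⌈y i - r⌉ ⌊y i + r⌋).card : ℝ) ≤ 2 * r + 1 := by
    intro i _
    rw [Int.card_Icc]
    have h5 := Int.floor_le (y i + r)
    have h6 := Int.le_ceil (y i - r)
    rcases le_total 0 (⌊y i + r⌋ + 1 - ⌈y i - r⌉) with h7 | h7
    · have h8 : (((⌊y i + r⌋ + 1 - ⌈y i - r⌉).toNat : ℕ) : ℝ) = ((⌊y i + r⌋ + 1 - ⌈y i - r⌉ : ℤ) : ℝ) := by
        exact_mod_cast congrArg (Int.cast : ℤ → ℝ) (Int.toNat_of_nonneg h7)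
      rw [h8]
      push_cast
      linarith
    · rw [Int.toNat_of_nonpos h7]
      simp
      linarith
  refine le_trans (Finset.prod_le_prod (fun i _ => by positivity) h4) ?_
  simp

private theorem GU_comp {m : ℕ} {k κ : ℕ} (hk : κ ≤ k) (j : Fin m → ℤ) (c : E m)
    (hc : ‖c - w κ j‖ ≤ 3 * Real.sqrt m * (2 : ℝ)⁻¹ ^ κ) (Y p : X m) :
    ‖Lk k c (Li κ (w κ j) Y - p)‖ ≤ (1 + 3 * Real.sqrt m) ^ 2 * ‖Y - Lk κ (w κ j) p‖ := by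
  have h1 := Lk_comp (3 * Real.sqrt m) (by positivity) k κ hk (w κ j) c hc (Li κ (w κ j) Y - p)
  rwa [Lk_sub κ, Lk_Li] at h1

private theorem GU_near {m : ℕ} (κ : ℕ) (j j' : Fin m → ℤ) (hj : ∀ i, |j' i - j i| ≤ 1) :
    ‖(iv j - iv j' : E m)‖ ≤ Real.sqrt m ∧ ‖(w κ j - w κ j' : E m)‖ ≤ Real.sqrt m * (2 : ℝ)⁻¹ ^ κ := by
  have h1 : ‖(iv j - iv j' : E m)‖ ≤ Real.sqrt m := by
    rw [EuclideanSpace.norm_eq]
    apply Real.sqrt_le_sqrt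
    have h2 : ∀ i ∈ (Finset.univ : Finset (Fin m)), ‖(iv j - iv j' : E m) i‖ ^ 2 ≤ 1 := by
      intro i _
      have h3 : (iv j - iv j' : E m) i = (j i : ℝ) - (j' i : ℝ) := by simp [iv]
      have h4 : |(j' i : ℝ) - (j i : ℝ)| ≤ 1 := by exact_mod_cast hj i
      rw [h3, Real.norm_eq_abs, abs_sub_comm]
      exact pow_le_one₀ (abs_nonneg _) h4
    refine le_trans (Finset.sum_le_sum h2) ?_
    simp
  refine ⟨h1, ?_⟩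
  have h5 : (w κ j - w κ j' : E m) = (2 : ℝ)⁻¹ ^ κ • (iv j - iv j') := by
    rw [w, w, smul_sub]
  rw [h5, norm_smul, Real.norm_eq_abs, abs_of_nonneg (by positivity : (0 : ℝ) ≤ (2 : ℝ)⁻¹ ^ κ), mul_comm]
  exact mul_le_mul_of_nonneg_right h1 (by positivity)

private theorem GU_peetre {m : ℕ} {k κ : ℕ} (hk : κ ≤ k) (M : ℕ) (j j' : Fin m → ℤ)
    (hj : ∀ i, |j' i - j i| ≤ 1) (Y Y' p q : X m) (c : E m)
    (hc : ‖c - w κ j‖ ≤ 2 * Real.sqrt m * (2 : ℝ)⁻¹ ^ κ) :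
    1 / (1 + ‖Lk k c (Li κ (w κ j) Y - Li κ (w κ j') Y')‖) ^ M ≤
      ((1 + 3 * Real.sqrt m) ^ 2) ^ (2 * M) * ((1 + ‖Y - Lk κ (w κ j) p‖) ^ M *
        (1 + ‖Y' - Lk κ (w κ j') q‖) ^ M) * (1 / (1 + ‖Lk k c (p - q)‖) ^ M) := by
  set A : ℝ := (1 + 3 * Real.sqrt m) ^ 2 with hA
  set α := ‖Y - Lk κ (w κ j) p‖ with hα
  set α' := ‖Y' - Lk κ (w κ j') q‖ with hα'
  have hs : (0 : ℝ) ≤ Real.sqrt m := Real.sqrt_nonneg _
  have h2k : (0 : ℝ) < (2 : ℝ)⁻¹ ^ κ := by positivity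
  have hA1 : 1 ≤ A := by
    rw [hA]
    nlinarith
  have hα0 : 0 ≤ α := norm_nonneg _
  have hα0' : 0 ≤ α' := norm_nonneg _
  have h1 : ‖Lk k c (Li κ (w κ j) Y - p)‖ ≤ A * α := by
    refine GU_comp hk j c (le_trans hc ?_) Y p
    nlinarith [mul_nonneg hs h2k.le]
  have h2 : ‖Lk k c (Li κ (w κ j') Y' - q)‖ ≤ A * α' := by
    refine GU_comp hk j' c ?_ Y' q
    have h3 := (GU_near κ j j' hj).2
    calc ‖c - w κ j'‖ = ‖(c - w κ j) + (w κ j - w κ j')‖ := by congr 1; abel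
      _ ≤ ‖c - w κ j‖ + ‖w κ j - w κ j'‖ := norm_add_le _ _
      _ ≤ 3 * Real.sqrt m * (2 : ℝ)⁻¹ ^ κ := by linarith
  have h3 : Lk k c (p - q) = Lk k c (Li κ (w κ j) Y - Li κ (w κ j') Y') - Lk k c (Li κ (w κ j) Y - p) +
      Lk k c (Li κ (w κ j') Y' - q) := by
    rw [← Lk_sub, ← Lk_add]
    congr 1
    abel
  have h4 : ‖Lk k c (p - q)‖ ≤ ‖Lk k c (Li κ (w κ j) Y - Li κ (w κ j') Y')‖ + A * α + A * α' := by
    rw [h3]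
    refine le_trans (norm_add_le _ _) ?_
    have := norm_sub_le (Lk k c (Li κ (w κ j) Y - Li κ (w κ j') Y')) (Lk k c (Li κ (w κ j) Y - p))
    linarith
  set x := ‖Lk k c (Li κ (w κ j) Y - Li κ (w κ j') Y')‖ with hx
  have hx0 : 0 ≤ x := norm_nonneg _
  set y := ‖Lk k c (p - q)‖ with hy
  have hy0 : 0 ≤ y := norm_nonneg _
  have h5 : 1 + y ≤ (1 + x) * (A * (1 + α)) * (A * (1 + α')) := by
    have h6 : 1 + y ≤ (1 + x) * (1 + A * α) * (1 + A * α') := by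
      have e1 : 0 ≤ A * α := by positivity
      have e2 : 0 ≤ A * α' := by positivity
      nlinarith [mul_nonneg e1 e2, mul_nonneg hx0 e1, mul_nonneg hx0 e2, mul_nonneg (mul_nonneg hx0 e1) e2]
    refine le_trans h6 ?_
    have e3 : 1 + A * α ≤ A * (1 + α) := by nlinarith
    have e4 : 1 + A * α' ≤ A * (1 + α') := by nlinarith
    gcongr
  have h7 : (1 + y) ^ M ≤ ((1 + x) * (A * (1 + α)) * (A * (1 + α'))) ^ M :=
    pow_le_pow_left₀ (by positivity) h5 M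
  rw [mul_one_div, div_le_div_iff₀ (by positivity) (by positivity), one_mul]
  refine le_trans h7 (le_of_eq ?_)
  rw [mul_pow, mul_pow, mul_pow, mul_pow, pow_mul, pow_two, mul_pow]
  ring

private theorem GU_sec {m : ℕ} {k κ : ℕ} (hk : κ ≤ k) (j j' : Fin m → ℤ) (Y Y' p q : X m) {c : ℝ}
    (hpq : ‖p - q‖ ≤ c⁻¹ * 4 ^ k) (hc : 0 < c) :
    1 + |(4 : ℝ)⁻¹ ^ k * (Li κ (w κ j) Y - Li κ (w κ j') Y').2.1| ≤
      (1 + c⁻¹ + (1 + 3 * Real.sqrt m) ^ 2) * ((1 + ‖Y - Lk κ (w κ j) p‖) * (1 + ‖Y' - Lk κ (w κ j') q‖)) := by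
  set A : ℝ := (1 + 3 * Real.sqrt m) ^ 2 with hA
  set α := ‖Y - Lk κ (w κ j) p‖ with hα
  set α' := ‖Y' - Lk κ (w κ j') q‖ with hα'
  have hα0 : 0 ≤ α := norm_nonneg _
  have hα0' : 0 ≤ α' := norm_nonneg _
  have hA0 : 0 ≤ A := by positivity
  have hsec : ∀ (cc : E m) (Z : X m), |(4 : ℝ)⁻¹ ^ k * Z.2.1| ≤ ‖Lk k cc Z‖ := by
    intro cc Z
    calc |(4 : ℝ)⁻¹ ^ k * Z.2.1| = ‖(Lk k cc Z).2.1‖ := rfl
      _ ≤ ‖(Lk k cc Z).2‖ := norm_fst_le _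
      _ ≤ ‖Lk k cc Z‖ := norm_snd_le _
  have hz : ∀ j : Fin m → ℤ, ‖w κ j - w κ j‖ ≤ 3 * Real.sqrt m * (2 : ℝ)⁻¹ ^ κ := by
    intro j
    rw [sub_self, norm_zero]
    positivity
  have h1 : |(4 : ℝ)⁻¹ ^ k * (Li κ (w κ j) Y - p).2.1| ≤ A * α :=
    le_trans (hsec (w κ j) _) (GU_comp hk j (w κ j) (hz j) Y p)
  have h2 : |(4 : ℝ)⁻¹ ^ k * (Li κ (w κ j') Y' - q).2.1| ≤ A * α' :=
    le_trans (hsec (w κ j') _) (GU_comp hk j' (w κ j') (hz j') Y' q)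
  have h3 : |(4 : ℝ)⁻¹ ^ k * (p - q).2.1| ≤ c⁻¹ := by
    rw [abs_mul, abs_of_nonneg (by positivity : (0 : ℝ) ≤ (4 : ℝ)⁻¹ ^ k)]
    have h4 : |(p - q).2.1| ≤ ‖p - q‖ := le_trans (norm_fst_le (p - q).2) (norm_snd_le (p - q))
    calc (4 : ℝ)⁻¹ ^ k * |(p - q).2.1| ≤ (4 : ℝ)⁻¹ ^ k * (c⁻¹ * 4 ^ k) := by
          gcongr
          exact le_trans h4 hpq
      _ = c⁻¹ := by
          rw [inv_pow]
          field_simp
  have h5 : (4 : ℝ)⁻¹ ^ k * (Li κ (w κ j) Y - Li κ (w κ j') Y').2.1 =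
      (4 : ℝ)⁻¹ ^ k * (Li κ (w κ j) Y - p).2.1 + (4 : ℝ)⁻¹ ^ k * (p - q).2.1 -
        (4 : ℝ)⁻¹ ^ k * (Li κ (w κ j') Y' - q).2.1 := by
    simp only [Prod.snd_sub, Prod.fst_sub]
    ring
  have h6 : |(4 : ℝ)⁻¹ ^ k * (Li κ (w κ j) Y - Li κ (w κ j') Y').2.1| ≤ A * α + c⁻¹ + A * α' := by
    rw [h5]
    refine le_trans (abs_sub _ _) ?_
    have := abs_add_le ((4 : ℝ)⁻¹ ^ k * (Li κ (w κ j) Y - p).2.1) ((4 : ℝ)⁻¹ ^ k * (p - q).2.1)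
    linarith
  have hc' : 0 < c⁻¹ := by positivity
  nlinarith [mul_nonneg hα0 hα0', mul_nonneg hc'.le hα0, mul_nonneg hc'.le hα0', mul_nonneg hA0 (mul_nonneg hα0 hα0'),
    mul_nonneg hc'.le (mul_nonneg hα0 hα0')]

private theorem GU_fub {m : ℕ} (G : Finset (Pk m)) (I : Finset (Fin m → ℤ)) (hG : ∀ a ∈ G, a.1 ∈ I)
    (F : (Fin m → ℤ) → Zn m → ℝ) (hF : ∀ j n, 0 ≤ F j n) :
    ∑ a ∈ G, F a.1 a.2 ≤ ∑ j ∈ I, ∑ n ∈ G.image Prod.snd, F j n := by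
  classical
  rw [← Finset.sum_product']
  refine Finset.sum_le_sum_of_subset_of_nonneg ?_ (fun a _ _ => hF _ _)
  intro a ha
  rw [Finset.mem_product]
  exact ⟨hG a ha, Finset.mem_image_of_mem _ ha⟩

private theorem GU_pow {P : ℝ} (hP : 0 < P) (M m : ℕ) (C4 : ℝ) :
    C4 / P ^ (5 * M + (m + 3)) * (P ^ (4 * M) * P ^ M) = C4 * (1 / P ^ (m + 3)) := by
  have h1 : P ^ (5 * M + (m + 3)) = (P ^ (4 * M) * P ^ M) * P ^ (m + 3) := by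
    rw [← pow_add, ← pow_add]
    congr 1
    ring
  rw [h1]
  field_simp

private theorem GU_alg {C2 t B A C4 α α' s3 s4 S x1 x2 x3 : ℝ} {M m : ℕ} (hC2 : 0 ≤ C2) (ht : 0 ≤ t)
    (hC4 : 0 ≤ C4) (hα : 0 ≤ α) (hα' : 0 ≤ α') (hs3 : 0 ≤ s3) (hs4 : 0 ≤ s4)
    (hx2 : 0 ≤ x2) (hx3 : 0 ≤ x3)
    (h1 : x1 ≤ C4 / (1 + α) ^ (5 * M + (m + 3))) (h2 : x2 ≤ C4 / (1 + α') ^ (5 * M + (m + 3)))
    (h3 : s3 ≤ B * ((1 + α) * (1 + α'))) (h4 : s4 ≤ A ^ (2 * M) * ((1 + α) ^ M * (1 + α') ^ M) * S)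
    (h5 : x3 ≤ C2 * t * s3 ^ (4 * M) * s4) :
    x1 * x2 * x3 ≤ C2 * t * B ^ (4 * M) * A ^ (2 * M) * C4 ^ 2 *
      (1 / (1 + α) ^ (m + 3) * S * (1 / (1 + α') ^ (m + 3))) := by
  have e1 : s3 ^ (4 * M) ≤ (B * ((1 + α) * (1 + α'))) ^ (4 * M) := pow_le_pow_left₀ hs3 h3 _
  have e2 : C2 * t * s3 ^ (4 * M) ≤ C2 * t * (B * ((1 + α) * (1 + α'))) ^ (4 * M) :=
    mul_le_mul_of_nonneg_left e1 (mul_nonneg hC2 ht)
  have e0 : 0 ≤ C2 * t * (B * ((1 + α) * (1 + α'))) ^ (4 * M) :=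
    le_trans (mul_nonneg (mul_nonneg hC2 ht) (pow_nonneg hs3 _)) e2
  have e3 : x3 ≤ C2 * t * (B * ((1 + α) * (1 + α'))) ^ (4 * M) *
      (A ^ (2 * M) * ((1 + α) ^ M * (1 + α') ^ M) * S) :=
    le_trans h5 (mul_le_mul e2 h4 hs4 e0)
  have hp1 : 0 < 1 + α := by linarith
  have hp2 : 0 < 1 + α' := by linarith
  have q1 : 0 ≤ C4 / (1 + α) ^ (5 * M + (m + 3)) := div_nonneg hC4 (pow_nonneg hp1.le _)
  have q2 : 0 ≤ C4 / (1 + α') ^ (5 * M + (m + 3)) := div_nonneg hC4 (pow_nonneg hp2.le _)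
  have e4 : x1 * x2 ≤ C4 / (1 + α) ^ (5 * M + (m + 3)) * (C4 / (1 + α') ^ (5 * M + (m + 3))) :=
    mul_le_mul h1 h2 hx2 q1
  refine le_trans (mul_le_mul e4 e3 hx3 (mul_nonneg q1 q2)) (le_of_eq ?_)
  calc C4 / (1 + α) ^ (5 * M + (m + 3)) * (C4 / (1 + α') ^ (5 * M + (m + 3))) *
        (C2 * t * (B * ((1 + α) * (1 + α'))) ^ (4 * M) * (A ^ (2 * M) * ((1 + α) ^ M * (1 + α') ^ M) * S))
      = C2 * t * B ^ (4 * M) * A ^ (2 * M) *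
            ((C4 / (1 + α) ^ (5 * M + (m + 3)) * ((1 + α) ^ (4 * M) * (1 + α) ^ M)) *
            (C4 / (1 + α') ^ (5 * M + (m + 3)) * ((1 + α') ^ (4 * M) * (1 + α') ^ M))) * S := by
            rw [mul_pow, mul_pow]
            ring
    _ = C2 * t * B ^ (4 * M) * A ^ (2 * M) * C4 ^ 2 *
      (1 / (1 + α) ^ (m + 3) * S * (1 / (1 + α') ^ (m + 3))) := by
            rw [GU_pow hp1 M m C4, GU_pow hp2 M m C4]
            ring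

private theorem GU_gb {m : ℕ} (χ : E m → ℝ) (b : V m → ℂ) (κ : ℕ) (Ψ Ψ' : E m → ℝ)
    (j j' : Fin m → ℤ) :
    gb (cu χ b κ Ψ j) (cu χ b κ Ψ' j') =
      fun z => (((χ ((2 : ℝ) ^ κ • z.1 - iv j) * χ ((2 : ℝ) ^ κ • z.1 - iv j')) *
        (Ψ z.1 * Ψ' z.1) : ℝ) : ℂ) * gb b b z := by
  funext z
  simp only [gb, cu, map_mul, Complex.conj_ofReal, Complex.ofReal_mul]
  ring

private theorem GU_cell {m : ℕ} (k : ℕ) (j : Fin m → ℤ) (ω : E m)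
    (h : ∀ i, |(2 : ℝ) ^ k * ω i - j i| < 1) :
    ‖ω - w k j‖ ≤ Real.sqrt m * (2 : ℝ)⁻¹ ^ k := by
  have h1 : (ω - w k j : E m) = (2 : ℝ)⁻¹ ^ k • ((2 : ℝ) ^ k • ω - iv j) := by
    rw [w, smul_sub, smul_smul, ← mul_pow]
    norm_num
  have h2 : ‖((2 : ℝ) ^ k • ω - iv j : E m)‖ ≤ Real.sqrt m := by
    rw [EuclideanSpace.norm_eq]
    apply Real.sqrt_le_sqrt
    have h2 : ∀ i ∈ (Finset.univ : Finset (Fin m)),
        ‖((2 : ℝ) ^ k • ω - iv j : E m) i‖ ^ 2 ≤ 1 := by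
      intro i _
      have h3 : ((2 : ℝ) ^ k • ω - iv j : E m) i = (2 : ℝ) ^ k * ω i - (j i : ℝ) := by simp [iv]
      rw [h3, Real.norm_eq_abs]
      exact pow_le_one₀ (abs_nonneg _) (h i).le
    refine le_trans (Finset.sum_le_sum h2) ?_
    simp
  rw [h1, norm_smul, Real.norm_eq_abs, abs_of_nonneg (by positivity : (0 : ℝ) ≤ (2 : ℝ)⁻¹ ^ k),
    mul_comm]
  exact mul_le_mul_of_nonneg_right h2 (by positivity)

private theorem GU_chi {m : ℕ} {χ : E m → ℝ} (hχ : Pu χ) {κ : ℕ} {j : Fin m → ℤ} {ω : E m}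
    (h : χ ((2 : ℝ) ^ κ • ω - iv j) ≠ 0) : ∀ i, |(2 : ℝ) ^ κ * ω i - j i| < 1 := by
  intro i
  have h1 := hχ.supp _ h i
  have h3 : ((2 : ℝ) ^ κ • ω - iv j : E m) i = (2 : ℝ) ^ κ * ω i - (j i : ℝ) := by simp [iv]
  rwa [h3] at h1

private theorem GU_nr {m : ℕ} {κ k : ℕ} (hk : κ ≤ k) {i j : Fin m → ℤ} {ω : E m}
    (h1 : cel k i ω) (h2 : ∀ l, |(2 : ℝ) ^ κ * ω l - j l| < 1) :
    ‖w k i - w κ j‖ ≤ 2 * Real.sqrt m * (2 : ℝ)⁻¹ ^ κ := by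
  have e1 := GU_cell k i ω h1
  have e2 := GU_cell κ j ω h2
  have e3 : (2 : ℝ)⁻¹ ^ k ≤ (2 : ℝ)⁻¹ ^ κ := pow_le_pow_of_le_one (by norm_num) (by norm_num) hk
  have e4 : Real.sqrt m * (2 : ℝ)⁻¹ ^ k ≤ Real.sqrt m * (2 : ℝ)⁻¹ ^ κ :=
    mul_le_mul_of_nonneg_left e3 (Real.sqrt_nonneg _)
  calc ‖w k i - w κ j‖ = ‖(ω - w κ j) - (ω - w k i)‖ := by congr 1; abel
    _ ≤ ‖ω - w κ j‖ + ‖ω - w k i‖ := norm_sub_le _ _
    _ ≤ 2 * Real.sqrt m * (2 : ℝ)⁻¹ ^ κ := by linarith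

private theorem GU_adj {m : ℕ} {κ : ℕ} {j j' : Fin m → ℤ} {ω : E m}
    (h1 : ∀ l, |(2 : ℝ) ^ κ * ω l - j l| < 1) (h2 : ∀ l, |(2 : ℝ) ^ κ * ω l - j' l| < 1) :
    ∀ i, |j' i - j i| ≤ 1 := by
  intro i
  have h4 : |((j' i : ℝ) - (j i : ℝ))| < 2 := by
    have : (j' i : ℝ) - (j i : ℝ) =
        ((2 : ℝ) ^ κ * ω i - j i) - ((2 : ℝ) ^ κ * ω i - j' i) := by ring
    rw [this]
    have h5 := h1 i
    have h6 := h2 i
    calc |((2 : ℝ) ^ κ * ω i - j i) - ((2 : ℝ) ^ κ * ω i - j' i)|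
        ≤ |(2 : ℝ) ^ κ * ω i - j i| + |(2 : ℝ) ^ κ * ω i - j' i| := abs_sub _ _
      _ < 2 := by linarith
  have h5 : |j' i - j i| < 2 := by exact_mod_cast h4
  omega

open scoped Classical in
/-- interaction of distant points, with symbols of growth 2^k, before summation over directions -/
theorem gramU {m : ℕ} (hm : 1 ≤ m) {h : ℝ} (hh : 0 < h) {v0 v1 : ℝ} {χ : E m → ℝ} (hχ : Pu χ)
    {b : V m → ℂ} (hb : Sb v0 v1 1 b) (N : ℕ) (K : ℕ → ℝ) (hK : ∀ n, 0 ≤ K n) (c0 : ℝ)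
    (hc0 : 0 < c0) : ∃ (C : ℝ) (M : ℕ), 0 < C ∧ ∀ (κ k : ℕ), κ ≤ k → ∀ (p q : X m),
    c0 * 4 ^ k ≤ ‖p - q‖ → ‖p - q‖ ≤ c0⁻¹ * 4 ^ k → ∀ Ψ Ψ' : E m → ℝ, Sy K ((2 : ℝ) ^ k) Ψ →
    Sy K ((2 : ℝ) ^ k) Ψ' → ∀ G G' : Finset (Pk m), (∀ a ∈ G, a.1 ∈ J m κ) →
    (∀ a ∈ G', a.1 ∈ J m κ) →
    ∑ a ∈ G, ∑ a' ∈ G', 1 / (1 + ‖nd h a.2 - Lk κ (w κ a.1) p‖) ^ M *
      (1 / (1 + ‖nd h a'.2 - Lk κ (w κ a'.1) q‖) ^ M) *
      ‖Kb (gb (cu χ b κ Ψ a.1) (cu χ b κ Ψ' a'.1)) (pos h κ a - pos h κ a')‖ ≤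
    C * (2 : ℝ)⁻¹ ^ (k * m) * ∑ j ∈ (J m k).filter (fun j => tc2 χ κ k G Ψ G' Ψ' j),
      1 / (1 + ‖Lk k (w k j) (p - q)‖) ^ N := by
  obtain ⟨Kc, hKc, hcut⟩ := Sy_cut hχ.toCt
  obtain ⟨K2, hK2, hmul2⟩ := Sy_mul (m := m) Kc Kc hKc hKc
  obtain ⟨K3, hK3, hmul3⟩ := Sy_mul (m := m) K K hK hK
  obtain ⟨K1, hK1, hmul1⟩ := Sy_mul (m := m) K2 K3 hK2 hK3
  obtain ⟨C2, hC2, hkern⟩ := subdecU hχ (gb_sb hb hb) N K1 hK1
  obtain ⟨C3, hC3, hnd⟩ := sum_nd m h hh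
  set A : ℝ := (1 + 3 * Real.sqrt m) ^ 2 with hA
  have hApos : 0 < A := by
    have := Real.sqrt_nonneg (m : ℝ)
    positivity
  set B : ℝ := 1 + c0⁻¹ + A with hB
  have hBpos : 0 < B := by positivity
  set C5 : ℝ := (2 * (2 * Real.sqrt m) + 1) ^ m with hC5
  have hC5pos : 0 < C5 := by
    have := Real.sqrt_nonneg (m : ℝ)
    positivity
  refine ⟨C2 * B ^ (4 * N) * A ^ (2 * N) * (C5 * C3) ^ 2, 5 * N + (m + 3), by positivity, ?_⟩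
  intro κ k hk p q hpq1 hpq2 Ψ Ψ' hΨ hΨ' G G' hG hG'
  -- the symbols
  have hΘ : ∀ j j' : Fin m → ℤ, Sy K1 ((2 : ℝ) ^ k) (fun ω =>
      (χ ((2 : ℝ) ^ κ • ω - iv j) * χ ((2 : ℝ) ^ κ • ω - iv j')) * (Ψ ω * Ψ' ω)) := by
    intro j j'
    have hkk : (2 : ℝ) ^ κ ≤ 2 ^ k := pow_le_pow_right₀ (by norm_num) hk
    have e1 := Sy_mono hKc (by positivity) hkk (hcut κ (iv j))
    have e2 := Sy_mono hKc (by positivity) hkk (hcut κ (iv j'))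
    have e3 := hmul2 ((2 : ℝ) ^ k) (by positivity) _ _ e1 e2
    have e4 := hmul3 ((2 : ℝ) ^ k) (by positivity) _ _ hΨ hΨ'
    exact hmul1 ((2 : ℝ) ^ k) (by positivity) _ _ e3 e4
  obtain ⟨F, hF⟩ : ∃ F : Finset (Fin m → ℤ),
    F = (J m k).filter (fun j => tc2 χ κ k G Ψ G' Ψ' j) := ⟨_, rfl⟩
  rw [← hF]
  -- abbreviations
  obtain ⟨φ, hφ⟩ : ∃ φ : (Fin m → ℤ) → Zn m → ℝ,
    φ = fun j n => 1 / (1 + ‖nd h n - Lk κ (w κ j) p‖) ^ (m + 3) := ⟨_, rfl⟩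
  obtain ⟨ψ, hψ⟩ : ∃ ψ : (Fin m → ℤ) → Zn m → ℝ,
    ψ = fun j n => 1 / (1 + ‖nd h n - Lk κ (w κ j) q‖) ^ (m + 3) := ⟨_, rfl⟩
  obtain ⟨g, hg⟩ : ∃ g : (Fin m → ℤ) → ℝ,
    g = fun i => 1 / (1 + ‖Lk k (w k i) (p - q)‖) ^ N := ⟨_, rfl⟩
  obtain ⟨ind, hind⟩ : ∃ ind : (Fin m → ℤ) → (Fin m → ℤ) → ℝ,
    ind = fun i j => if ‖w k i - w κ j‖ ≤ 2 * Real.sqrt m * (2 : ℝ)⁻¹ ^ κ then 1 else 0 :=
      ⟨_, rfl⟩
  obtain ⟨S, hS⟩ : ∃ S : (Fin m → ℤ) → (Fin m → ℤ) → ℝ,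
    S = fun j j' => ∑ i ∈ F, ind i j * ind i j' * g i := ⟨_, rfl⟩
  have hφ0 : ∀ j n, 0 ≤ φ j n := fun j n => by rw [hφ]; positivity
  have hψ0 : ∀ j n, 0 ≤ ψ j n := fun j n => by rw [hψ]; positivity
  have hg0 : ∀ i, 0 ≤ g i := fun i => by rw [hg]; positivity
  have hind0 : ∀ j j', 0 ≤ ind j j' := by
    intro j j'
    simp only [hind]
    split_ifs <;> norm_num
  have hS0 : ∀ j j', 0 ≤ S j j' := by
    intro j j'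
    rw [hS]
    exact Finset.sum_nonneg fun i _ => mul_nonneg (mul_nonneg (hind0 _ _) (hind0 _ _)) (hg0 _)
  obtain ⟨K0, hK0⟩ : ∃ K0 : ℝ,
    K0 = C2 * (2 : ℝ)⁻¹ ^ (k * m) * B ^ (4 * N) * A ^ (2 * N) := ⟨_, rfl⟩
  have hK0pos : 0 < K0 := by rw [hK0]; positivity
  -- the single term
  have hterm : ∀ a ∈ G, ∀ a' ∈ G',
      1 / (1 + ‖nd h a.2 - Lk κ (w κ a.1) p‖) ^ (5 * N + (m + 3)) *
      (1 / (1 + ‖nd h a'.2 - Lk κ (w κ a'.1) q‖) ^ (5 * N + (m + 3))) *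
      ‖Kb (gb (cu χ b κ Ψ a.1) (cu χ b κ Ψ' a'.1)) (pos h κ a - pos h κ a')‖ ≤
      K0 * (φ a.1 a.2 * S a.1 a'.1 * ψ a'.1 a'.2) := by
    rintro ⟨j, n⟩ ha ⟨j', n'⟩ ha'
    simp only
    have hle := hkern k _ (hΘ j j') (pos h κ (j, n) - pos h κ (j', n'))
    rw [GU_gb]
    obtain ⟨T, hT⟩ : ∃ T : Finset (Fin m → ℤ), T = (J m k).filter (fun i => tch k (fun ω =>
      (χ ((2 : ℝ) ^ κ • ω - iv j) * χ ((2 : ℝ) ^ κ • ω - iv j')) * (Ψ ω * Ψ' ω)) i) := ⟨_, rfl⟩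
    rw [← hT] at hle
    obtain ⟨α, hα⟩ : ∃ α : ℝ, α = ‖nd h n - Lk κ (w κ j) p‖ := ⟨_, rfl⟩
    obtain ⟨α', hα'⟩ : ∃ α' : ℝ, α' = ‖nd h n' - Lk κ (w κ j') q‖ := ⟨_, rfl⟩
    have hα0 : 0 ≤ α := by rw [hα]; exact norm_nonneg _
    have hα0' : 0 ≤ α' := by rw [hα']; exact norm_nonneg _
    have e3 : 1 + |(4 : ℝ)⁻¹ ^ k * (pos h κ (j, n) - pos h κ (j', n')).2.1| ≤
        B * ((1 + α) * (1 + α')) := by
      rw [hα, hα']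
      exact GU_sec hk j j' (nd h n) (nd h n') p q hpq2 hc0
    have hfacts : ∀ i ∈ T, i ∈ F ∧ ind i j = 1 ∧ ind i j' = 1 ∧ (∀ l, |j' l - j l| ≤ 1) ∧
        ‖w k i - w κ j‖ ≤ 2 * Real.sqrt m * (2 : ℝ)⁻¹ ^ κ := by
      intro i hi
      rw [hT, Finset.mem_filter] at hi
      obtain ⟨hiJ, ω, hω1, hω2, hω3⟩ := hi
      have f1 := left_ne_zero_of_mul (left_ne_zero_of_mul hω3)
      have f2 := right_ne_zero_of_mul (left_ne_zero_of_mul hω3)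
      have f3 := left_ne_zero_of_mul (right_ne_zero_of_mul hω3)
      have f4 := right_ne_zero_of_mul (right_ne_zero_of_mul hω3)
      have f5 := GU_chi hχ f1
      have f6 := GU_chi hχ f2
      have n1 := GU_nr hk hω2 f5
      have n2 := GU_nr hk hω2 f6
      refine ⟨?_, ?_, ?_, GU_adj f5 f6, n1⟩
      · rw [hF, Finset.mem_filter]
        exact ⟨hiJ, ω, hω1, hω2, f3, f4, ⟨_, ha, f1⟩, ⟨_, ha', f2⟩⟩
      · rw [hind]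
        exact if_pos n1
      · rw [hind]
        exact if_pos n2
    have e4 : ∑ i ∈ T, 1 / (1 + ‖Lk k (w k i) (pos h κ (j, n) - pos h κ (j', n'))‖) ^ N ≤
        A ^ (2 * N) * ((1 + α) ^ N * (1 + α') ^ N) * S j j' := by
      have g1 : ∑ i ∈ T, 1 / (1 + ‖Lk k (w k i) (pos h κ (j, n) - pos h κ (j', n'))‖) ^ N ≤
          ∑ i ∈ T, A ^ (2 * N) * ((1 + α) ^ N * (1 + α') ^ N) * (ind i j * ind i j' * g i) := by
        refine Finset.sum_le_sum fun i hi => ?_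
        obtain ⟨_, i1, i2, i3, i4⟩ := hfacts i hi
        rw [i1, i2, one_mul, one_mul, hg, hα, hα']
        exact GU_peetre hk N j j' i3 (nd h n) (nd h n') p q (w k i) i4
      refine le_trans g1 ?_
      rw [← Finset.mul_sum, hS]
      refine mul_le_mul_of_nonneg_left ?_ (by positivity)
      refine Finset.sum_le_sum_of_subset_of_nonneg (fun i hi => (hfacts i hi).1) (fun i _ _ => ?_)
      exact mul_nonneg (mul_nonneg (hind0 _ _) (hind0 _ _)) (hg0 _)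
    have hs4 : 0 ≤ ∑ i ∈ T, 1 / (1 + ‖Lk k (w k i) (pos h κ (j, n) - pos h κ (j', n'))‖) ^ N :=
      Finset.sum_nonneg fun i _ => one_div_nonneg.2 (pow_nonneg (by
        linarith [norm_nonneg (Lk k (w k i) (pos h κ (j, n) - pos h κ (j', n')))]) _)
    have hs3 : 0 ≤ 1 + |(4 : ℝ)⁻¹ ^ k * (pos h κ (j, n) - pos h κ (j', n')).2.1| := by
      linarith [abs_nonneg ((4 : ℝ)⁻¹ ^ k * (pos h κ (j, n) - pos h κ (j', n')).2.1)]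
    rw [← hα, ← hα']
    have key := GU_alg (M := N) (m := m) (C4 := 1) hC2.le
      (pow_nonneg (by norm_num : (0 : ℝ) ≤ (2 : ℝ)⁻¹) (k * m)) zero_le_one hα0 hα0' hs3 hs4
      (one_div_nonneg.2 (pow_nonneg (by linarith : (0 : ℝ) ≤ 1 + α') (5 * N + (m + 3))))
      (norm_nonneg _) (le_refl (1 / (1 + α) ^ (5 * N + (m + 3))))
      (le_refl (1 / (1 + α') ^ (5 * N + (m + 3)))) e3 e4 hle
    refine le_trans key (le_of_eq ?_)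
    rw [hK0, hφ, hψ, hα, hα']
    ring
  -- the sums over packets near a direction
  have hcount : ∀ i : Fin m → ℤ,
      ((((J m κ).filter (fun j => ‖w k i - w κ j‖ ≤ 2 * Real.sqrt m * (2 : ℝ)⁻¹ ^ κ)).card : ℕ) :
        ℝ) ≤ C5 := by
    intro i
    refine GU_count (2 * Real.sqrt m) (by positivity) ((2 : ℝ) ^ κ • w k i) _ ?_
    intro j hj
    rw [Finset.mem_filter] at hj
    have h2 : (iv j : E m) = (2 : ℝ) ^ κ • w κ j := by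
      rw [w, smul_smul, ← mul_pow]
      norm_num
    rw [h2, ← smul_sub, norm_smul, Real.norm_eq_abs,
      abs_of_nonneg (by positivity : (0 : ℝ) ≤ (2 : ℝ) ^ κ)]
    calc (2 : ℝ) ^ κ * ‖w k i - w κ j‖ ≤ (2 : ℝ) ^ κ * (2 * Real.sqrt m * (2 : ℝ)⁻¹ ^ κ) :=
          mul_le_mul_of_nonneg_left hj.2 (by positivity)
      _ = 2 * Real.sqrt m := by
          rw [inv_pow]
          field_simp
  have hone : ∀ (H : Finset (Pk m)), (∀ a ∈ H, a.1 ∈ J m κ) → ∀ (f : (Fin m → ℤ) → Zn m → ℝ),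
      (∀ j n, 0 ≤ f j n) → (∀ (T : Finset (Zn m)) j, ∑ n ∈ T, f j n ≤ C3) → ∀ i : Fin m → ℤ,
      ∑ a ∈ H, f a.1 a.2 * ind i a.1 ≤ C5 * C3 := by
    intro H hH f hf0 hf i
    refine le_trans (GU_fub H (J m κ) hH (fun j n => f j n * ind i j)
      (fun j n => mul_nonneg (hf0 _ _) (hind0 _ _))) ?_
    have h1 : ∀ j ∈ J m κ, ∑ n ∈ H.image Prod.snd, f j n * ind i j ≤
        if ‖w k i - w κ j‖ ≤ 2 * Real.sqrt m * (2 : ℝ)⁻¹ ^ κ then C3 else 0 := by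
      intro j _
      rw [← Finset.sum_mul]
      by_cases hj : ‖w k i - w κ j‖ ≤ 2 * Real.sqrt m * (2 : ℝ)⁻¹ ^ κ
      · have hi1 : ind i j = 1 := by rw [hind]; exact if_pos hj
        rw [if_pos hj, hi1, mul_one]
        exact hf _ _
      · have hi0 : ind i j = 0 := by rw [hind]; exact if_neg hj
        rw [if_neg hj, hi0, mul_zero]
    refine le_trans (Finset.sum_le_sum h1) ?_
    rw [← Finset.sum_filter, Finset.sum_const, nsmul_eq_mul]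
    exact mul_le_mul_of_nonneg_right (hcount i) hC3.le
  have hU : ∀ i, ∑ a ∈ G, φ a.1 a.2 * ind i a.1 ≤ C5 * C3 := by
    refine hone G hG φ hφ0 (fun T j => ?_)
    rw [hφ]
    exact hnd T _
  have hU' : ∀ i, ∑ a ∈ G', ψ a.1 a.2 * ind i a.1 ≤ C5 * C3 := by
    refine hone G' hG' ψ hψ0 (fun T j => ?_)
    rw [hψ]
    exact hnd T _
  have hU0 : ∀ i, 0 ≤ ∑ a ∈ G, φ a.1 a.2 * ind i a.1 := fun i =>
    Finset.sum_nonneg fun a _ => mul_nonneg (hφ0 _ _) (hind0 _ _)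
  have hU0' : ∀ i, 0 ≤ ∑ a ∈ G', ψ a.1 a.2 * ind i a.1 := fun i =>
    Finset.sum_nonneg fun a _ => mul_nonneg (hψ0 _ _) (hind0 _ _)
  -- exchange of sums
  have hex : ∑ a ∈ G, ∑ a' ∈ G', φ a.1 a.2 * S a.1 a'.1 * ψ a'.1 a'.2 =
      ∑ i ∈ F, g i * ((∑ a ∈ G, φ a.1 a.2 * ind i a.1) * (∑ a' ∈ G', ψ a'.1 a'.2 * ind i a'.1)) := by
    have h1 : ∀ a ∈ G, ∑ a' ∈ G', φ a.1 a.2 * S a.1 a'.1 * ψ a'.1 a'.2 =
        ∑ i ∈ F, ∑ a' ∈ G', g i * ((φ a.1 a.2 * ind i a.1) * (ψ a'.1 a'.2 * ind i a'.1)) := by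
      intro a _
      rw [Finset.sum_comm]
      refine Finset.sum_congr rfl fun a' _ => ?_
      rw [hS, Finset.mul_sum, Finset.sum_mul]
      refine Finset.sum_congr rfl fun i _ => ?_
      ring
    rw [Finset.sum_congr rfl h1, Finset.sum_comm]
    refine Finset.sum_congr rfl fun i _ => ?_
    rw [Finset.sum_mul_sum, Finset.mul_sum]
    refine Finset.sum_congr rfl fun a _ => ?_
    rw [Finset.mul_sum]
  calc ∑ a ∈ G, ∑ a' ∈ G', 1 / (1 + ‖nd h a.2 - Lk κ (w κ a.1) p‖) ^ (5 * N + (m + 3)) *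
        (1 / (1 + ‖nd h a'.2 - Lk κ (w κ a'.1) q‖) ^ (5 * N + (m + 3))) *
        ‖Kb (gb (cu χ b κ Ψ a.1) (cu χ b κ Ψ' a'.1)) (pos h κ a - pos h κ a')‖
      ≤ ∑ a ∈ G, ∑ a' ∈ G', K0 * (φ a.1 a.2 * S a.1 a'.1 * ψ a'.1 a'.2) :=
        Finset.sum_le_sum fun a ha => Finset.sum_le_sum fun a' ha' => hterm a ha a' ha'
    _ = K0 * ∑ a ∈ G, ∑ a' ∈ G', φ a.1 a.2 * S a.1 a'.1 * ψ a'.1 a'.2 := by
        rw [Finset.mul_sum]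
        refine Finset.sum_congr rfl fun a _ => ?_
        rw [← Finset.mul_sum]
    _ = K0 * ∑ i ∈ F, g i * ((∑ a ∈ G, φ a.1 a.2 * ind i a.1) *
          (∑ a' ∈ G', ψ a'.1 a'.2 * ind i a'.1)) := by rw [hex]
    _ ≤ K0 * ∑ i ∈ F, g i * ((C5 * C3) * (C5 * C3)) := by
        refine mul_le_mul_of_nonneg_left (Finset.sum_le_sum fun i _ => ?_) hK0pos.le
        refine mul_le_mul_of_nonneg_left ?_ (hg0 i)
        exact mul_le_mul (hU i) (hU' i) (hU0' i) (by positivity)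
    _ = C2 * B ^ (4 * N) * A ^ (2 * N) * (C5 * C3) ^ 2 * (2 : ℝ)⁻¹ ^ (k * m) *
          ∑ i ∈ F, 1 / (1 + ‖Lk k (w k i) (p - q)‖) ^ N := by
        rw [← Finset.sum_mul, hK0, hg]
        ring

end Pool.LibCA93
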