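import Pool.Agent.LibCA93.Defs

/-
PLAN (HI, MEDIUM, only Mathlib + the structure Hi). Induction over j <= J: claim(j): SUM over the classes c of the relation (π (j-1) equal) (for j = 0: every i alone) ... Simplest: for every j <= J and every D ⊆ B which is contained in one
class of level j (for all i, i' in D: sp i i' <= j; i.e. π j i = π j i' if j < J): ‖SUM_(i in D) x j i‖^2 <= SUM_(i in D) ‖x 0 i‖^2 + SUM_(i in D) SUM_(i' in D, i' /= i) ‖<x (sp i i') i, x (sp i i') i'>‖. j = 0: all pairs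
have sp = 0: expand the square. Step j -> j+1: split D into classes D_1, D_2, .. of the relation π j equal (fiberwise sum): ‖SUM_(i in D) x (j+1) i‖^2 = SUM_a ‖SUM_(D_a) x (j+1) i‖^2 + SUM over pairs i, i' in different
D_a of Re <x (j+1) i, x (j+1) i'>, and for those pairs sp i i' = j+1 (sp > j since π j differs (Hi.iff), and sp <= j+1); in a class ‖SUM_(D_a) x (j+1) i‖ <= ‖SUM_(D_a) x j i‖ (hc), induction (pairs of D_a have sp <= j).
-/

set_option autoImplicit false

noncomputable section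

open MeasureTheory Metric Set Filter

namespace Pool.LibCA93

open Pool.LibSR53 Pool.LibST49

/-- expansion of the square of a sum -/
private theorem HI_expand {H : Type} [NormedAddCommGroup H] [InnerProductSpace ℂ H] {β : Type}
    (D : Finset β) (f : β → H) :
    ‖∑ i ∈ D, f i‖ ^ 2 = ∑ i ∈ D, ∑ i' ∈ D, (inner ℂ (f i) (f i') : ℂ).re := by
  have h1 : ‖∑ i ∈ D, f i‖ ^ 2 = (inner ℂ (∑ i ∈ D, f i) (∑ i ∈ D, f i) : ℂ).re := by
    have h2 := inner_self_eq_norm_sq_to_K (𝕜 := ℂ) (∑ i ∈ D, f i)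
    rw [h2]
    norm_cast
  rw [h1, sum_inner, Complex.re_sum]
  refine Finset.sum_congr rfl fun i _ => ?_
  rw [inner_sum, Complex.re_sum]

/-- real part of an inner product is at most its norm -/
private theorem HI_re {H : Type} [NormedAddCommGroup H] [InnerProductSpace ℂ H] (u v : H) :
    (inner ℂ u v : ℂ).re ≤ ‖(inner ℂ u v : ℂ)‖ := Complex.re_le_norm _

/-- the sum over the classes -/
private theorem HI_fib {β c : Type} [DecidableEq β] [DecidableEq c] (D : Finset β) (p : β → c)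
    (F : β → c → ℝ) :
    ∑ a ∈ D.image p, ∑ i ∈ D.filter (fun i => p i = a), F i a = ∑ i ∈ D, F i (p i) := by
  have h1 : ∀ a ∈ D.image p, ∑ i ∈ D.filter (fun i => p i = a), F i a =
      ∑ i ∈ D.filter (fun i => p i = a), F i (p i) := by
    intro a _
    refine Finset.sum_congr rfl fun i hi => ?_
    rw [(Finset.mem_filter.1 hi).2]
  rw [Finset.sum_congr rfl h1]
  exact Finset.sum_fiberwise_of_maps_to (fun i hi => Finset.mem_image_of_mem p hi) _

/-- the induction -/
private theorem HI_ind {H : Type} [NormedAddCommGroup H] [InnerProductSpace ℂ H] {β c : Type}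
    [DecidableEq β] [DecidableEq c] (B : Finset β) (J' : ℕ) (π : ℕ → β → c) (sp : β → β → ℕ)
    (hsp : Hi B J' π sp) (x : ℕ → β → H)
    (hc : ∀ j < J', ∀ D ⊆ B, (∀ i ∈ D, ∀ i' ∈ D, π j i = π j i') →
      ‖∑ i ∈ D, x (j + 1) i‖ ≤ ‖∑ i ∈ D, x j i‖) :
    ∀ j ≤ J', ∀ D ⊆ B, (∀ i ∈ D, ∀ i' ∈ D, i ≠ i' → sp i i' ≤ j) →
      ‖∑ i ∈ D, x j i‖ ^ 2 ≤ ∑ i ∈ D, ‖x 0 i‖ ^ 2 +
      ∑ i ∈ D, ∑ i' ∈ D.erase i, ‖(inner ℂ (x (sp i i') i) (x (sp i i') i') : ℂ)‖ := by
  intro j
  induction j with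
  | zero =>
    intro _ D hD hs
    rw [HI_expand, ← Finset.sum_add_distrib]
    refine Finset.sum_le_sum fun i hi => ?_
    rw [← Finset.add_sum_erase D _ hi]
    refine add_le_add ?_ (Finset.sum_le_sum fun i' hi' => ?_)
    · have h2 := inner_self_eq_norm_sq_to_K (𝕜 := ℂ) (x 0 i)
      rw [h2]
      norm_cast
    · have h3 : sp i i' = 0 := Nat.le_zero.1
        (hs i hi i' (Finset.mem_of_mem_erase hi') (Finset.ne_of_mem_erase hi').symm)
      rw [h3]
      exact HI_re _ _
  | succ j ih =>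
    intro hj D hD hs
    have hjJ : j < J' := hj
    -- the classes
    have hcls : ∀ a ∈ D.image (π j),
        ‖∑ i ∈ D.filter (fun i => π j i = a), x (j + 1) i‖ ^ 2 ≤
          ∑ i ∈ D.filter (fun i => π j i = a), (‖x 0 i‖ ^ 2 +
            ∑ i' ∈ (D.filter (fun i => π j i = a)).erase i,
              ‖(inner ℂ (x (sp i i') i) (x (sp i i') i') : ℂ)‖) := by
      intro a _
      have hsub : D.filter (fun i => π j i = a) ⊆ B := (Finset.filter_subset _ _).trans hD
      have h1 := hc j hjJ _ hsub (by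
        intro i hi i' hi'
        rw [(Finset.mem_filter.1 hi).2, (Finset.mem_filter.1 hi').2])
      have h2 := ih hjJ.le _ hsub (by
        intro i hi i' hi' hne
        refine (hsp.iff i (hsub hi) i' (hsub hi') hne j hjJ).1 ?_
        rw [(Finset.mem_filter.1 hi).2, (Finset.mem_filter.1 hi').2])
      rw [Finset.sum_add_distrib]
      exact (pow_le_pow_left₀ (norm_nonneg _) h1 2).trans h2
    have hsum := Finset.sum_le_sum hcls
    rw [HI_fib D (π j) (fun i a => ‖x 0 i‖ ^ 2 +
            ∑ i' ∈ (D.filter (fun i => π j i = a)).erase i,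
              ‖(inner ℂ (x (sp i i') i) (x (sp i i') i') : ℂ)‖)] at hsum
    have hl : ∀ a ∈ D.image (π j), ‖∑ i ∈ D.filter (fun i => π j i = a), x (j + 1) i‖ ^ 2 =
        ∑ i ∈ D.filter (fun i => π j i = a), ∑ i' ∈ D.filter (fun i => π j i = a),
          (inner ℂ (x (j + 1) i) (x (j + 1) i') : ℂ).re := fun a _ => HI_expand _ _
    rw [Finset.sum_congr rfl hl,
      HI_fib D (π j) (fun i a => ∑ i' ∈ D.filter (fun i => π j i = a),
          (inner ℂ (x (j + 1) i) (x (j + 1) i') : ℂ).re), Finset.sum_add_distrib] at hsum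
    -- the expansion
    have h3 : ‖∑ i ∈ D, x (j + 1) i‖ ^ 2 =
        ∑ i ∈ D, ∑ i' ∈ D.filter (fun i' => π j i' = π j i),
          (inner ℂ (x (j + 1) i) (x (j + 1) i') : ℂ).re +
        ∑ i ∈ D, ∑ i' ∈ D.filter (fun i' => ¬ π j i' = π j i),
          (inner ℂ (x (j + 1) i) (x (j + 1) i') : ℂ).re := by
      rw [HI_expand, ← Finset.sum_add_distrib]
      refine Finset.sum_congr rfl fun i _ => ?_
      rw [Finset.sum_filter_add_sum_filter_not]
    have h4 : ∀ i ∈ D, ∑ i' ∈ D.erase i, ‖(inner ℂ (x (sp i i') i) (x (sp i i') i') : ℂ)‖ =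
        ∑ i' ∈ (D.filter (fun i' => π j i' = π j i)).erase i,
          ‖(inner ℂ (x (sp i i') i) (x (sp i i') i') : ℂ)‖ +
        ∑ i' ∈ D.filter (fun i' => ¬ π j i' = π j i),
          ‖(inner ℂ (x (sp i i') i) (x (sp i i') i') : ℂ)‖ := by
      intro i hi
      rw [← Finset.sum_filter_add_sum_filter_not (D.erase i) (fun i' => π j i' = π j i)]
      have e1 : (D.erase i).filter (fun i' => π j i' = π j i) =
          (D.filter (fun i' => π j i' = π j i)).erase i := by
        ext i'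
        simp only [Finset.mem_filter, Finset.mem_erase]
        tauto
      have e2 : (D.erase i).filter (fun i' => ¬ π j i' = π j i) =
          D.filter (fun i' => ¬ π j i' = π j i) := by
        ext i'
        simp only [Finset.mem_filter, Finset.mem_erase]
        constructor
        · rintro ⟨⟨_, h1⟩, h2⟩
          exact ⟨h1, h2⟩
        · rintro ⟨h1, h2⟩
          refine ⟨⟨?_, h1⟩, h2⟩
          rintro rfl
          exact h2 rfl
      rw [e1, e2]
    have h5 : ∑ i ∈ D, ∑ i' ∈ D.filter (fun i' => ¬ π j i' = π j i),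
          (inner ℂ (x (j + 1) i) (x (j + 1) i') : ℂ).re ≤
        ∑ i ∈ D, ∑ i' ∈ D.filter (fun i' => ¬ π j i' = π j i),
          ‖(inner ℂ (x (sp i i') i) (x (sp i i') i') : ℂ)‖ := by
      refine Finset.sum_le_sum fun i hi => Finset.sum_le_sum fun i' hi' => ?_
      have h6 := Finset.mem_filter.1 hi'
      have hne : i ≠ i' := by
        rintro rfl
        exact h6.2 rfl
      have h7 : ¬ sp i i' ≤ j := fun h => h6.2
        ((hsp.iff i (hD hi) i' (hD h6.1) hne j hjJ).2 h).symm
      have h8 : sp i i' = j + 1 := by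
        have := hs i hi i' h6.1 hne
        omega
      rw [h8]
      exact HI_re _ _
    rw [h3, Finset.sum_congr rfl h4, Finset.sum_add_distrib]
    have h9 := add_le_add hsum h5
    rw [← add_assoc]
    exact h9

/-- L2 norm of a sum over a nested family with contractions: only the pairs count, at the level at
which they separate -/
theorem hier {H : Type} [NormedAddCommGroup H] [InnerProductSpace ℂ H] {β c : Type}
    [DecidableEq β] (B : Finset β) (J' : ℕ) (π : ℕ → β → c) (sp : β → β → ℕ)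
    (hsp : Hi B J' π sp) (x : ℕ → β → H)
    (hc : ∀ j < J', ∀ D ⊆ B, (∀ i ∈ D, ∀ i' ∈ D, π j i = π j i') →
      ‖∑ i ∈ D, x (j + 1) i‖ ≤ ‖∑ i ∈ D, x j i‖) :
    ‖∑ i ∈ B, x J' i‖ ^ 2 ≤ ∑ i ∈ B, ‖x 0 i‖ ^ 2 +
      ∑ i ∈ B, ∑ i' ∈ B.erase i, ‖(inner ℂ (x (sp i i') i) (x (sp i i') i') : ℂ)‖ := by
  classical
  exact HI_ind B J' π sp hsp x hc J' le_rfl B (Finset.Subset.refl B)
    (fun i hi i' hi' hne => hsp.le i hi i' hi' hne)

end Pool.LibCA93
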