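import Pool.Agent.LibCA93.Defs
import Pool.Agent.LibST49.K3

/-
PLAN (KU, MEDIUM/STRONG). kern of LibST49 (proof: store ST49_K3.lean; adapt it) with a general symbol Ψ instead of χ2 (2^κ z.1 - a): the amplitude is G(ζ,v) = χ1 ζ * (Ψ (2^-k (ζ + iv j)) * b (2^-k (ζ + iv j), v));
‖iteratedFDeriv n of ζ -> Ψ (2^-k (ζ + iv j))‖ <= (2^-k)^n K n (2^k)^n = K n, so M depends only on K (n <= 4N), χ1, b; then osc (LibST49.K2).
-/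

set_option autoImplicit false

noncomputable section

open MeasureTheory Metric Set Filter

namespace Pool.LibCA93

open Pool.LibSR53 Pool.LibST49

private lemma KU_nle (n : ℕ) : ((n : ℕ) : WithTop ℕ∞) ≤ (((⊤ : ℕ∞)) : WithTop ℕ∞) := by
  exact_mod_cast le_top

private lemma KU_bdd {W : Type} [NormedAddCommGroup W] [NormedSpace ℝ W] {f : W → ℂ}
    (hf : ContDiff ℝ (⊤ : ℕ∞) f) (hc : HasCompactSupport f) (K : ℕ) :
    ∃ M : ℝ, 0 ≤ M ∧ ∀ n ≤ K, ∀ z, ‖iteratedFDeriv ℝ n f z‖ ≤ M := by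
  have h : ∀ n : ℕ, ∃ C : ℝ, ∀ z, ‖iteratedFDeriv ℝ n f z‖ ≤ C := fun n =>
    (hf.continuous_iteratedFDeriv (KU_nle n)).bounded_above_of_compact_support
      (hc.iteratedFDeriv n)
  choose B hB using h
  refine ⟨∑ n ∈ Finset.range (K + 1), |B n|, Finset.sum_nonneg fun _ _ => abs_nonneg _, ?_⟩
  intro n hn z
  refine ((hB n z).trans (le_abs_self _)).trans ?_
  exact Finset.single_le_sum (f := fun n => |B n|) (fun _ _ => abs_nonneg _)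
    (Finset.mem_range.2 (Nat.lt_succ_of_le hn))

private lemma KU_comp {W W' : Type} [NormedAddCommGroup W] [NormedSpace ℝ W]
    [NormedAddCommGroup W'] [NormedSpace ℝ W'] (L : W' →L[ℝ] W) (hL : ‖L‖ ≤ 1) (c : W)
    {f : W → ℂ} (hf : ContDiff ℝ (⊤ : ℕ∞) f) {K : ℕ} {M : ℝ}
    (hM : ∀ n ≤ K, ∀ z, ‖iteratedFDeriv ℝ n f z‖ ≤ M) :
    ∀ n ≤ K, ∀ z, ‖iteratedFDeriv ℝ n (fun z => f (L z + c)) z‖ ≤ M := by
  intro n hn z
  have hf' : ContDiff ℝ (⊤ : ℕ∞) (fun y => f (y + c)) := hf.comp (contDiff_id.add contDiff_const)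
  have e : (fun z => f (L z + c)) = (fun y => f (y + c)) ∘ L := rfl
  rw [e, L.iteratedFDeriv_comp_right hf' z (KU_nle n)]
  refine (ContinuousMultilinearMap.norm_compContinuousLinearMap_le _ _).trans ?_
  rw [Finset.prod_const, iteratedFDeriv_comp_add_right]
  have h1 : ‖L‖ ^ (Finset.univ : Finset (Fin n)).card ≤ 1 := pow_le_one₀ (norm_nonneg _) hL
  calc ‖iteratedFDeriv ℝ n f (L z + c)‖ * ‖L‖ ^ (Finset.univ : Finset (Fin n)).card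
      ≤ ‖iteratedFDeriv ℝ n f (L z + c)‖ * 1 :=
        mul_le_mul_of_nonneg_left h1 (norm_nonneg _)
    _ ≤ M := by rw [mul_one]; exact hM n hn _

private lemma KU_mul {W : Type} [NormedAddCommGroup W] [NormedSpace ℝ W] {f g : W → ℂ}
    (hf : ContDiff ℝ (⊤ : ℕ∞) f) (hg : ContDiff ℝ (⊤ : ℕ∞) g) {K : ℕ} {A B : ℝ}
    (hA : 0 ≤ A) (hB : 0 ≤ B)
    (hMf : ∀ n ≤ K, ∀ z, ‖iteratedFDeriv ℝ n f z‖ ≤ A)
    (hMg : ∀ n ≤ K, ∀ z, ‖iteratedFDeriv ℝ n g z‖ ≤ B) :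
    ∀ n ≤ K, ∀ z, ‖iteratedFDeriv ℝ n (fun y => f y * g y) z‖ ≤ 2 ^ K * (A * B) := by
  intro n hn z
  refine (norm_iteratedFDeriv_mul_le hf hg z (KU_nle n)).trans ?_
  have h1 : ∑ i ∈ Finset.range (n + 1), (n.choose i : ℝ) * ‖iteratedFDeriv ℝ i f z‖ *
      ‖iteratedFDeriv ℝ (n - i) g z‖ ≤ ∑ i ∈ Finset.range (n + 1), (n.choose i : ℝ) * (A * B) := by
    refine Finset.sum_le_sum fun i hi => ?_
    have hi' : i ≤ n := Nat.lt_succ_iff.1 (Finset.mem_range.1 hi)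
    rw [mul_assoc]
    refine mul_le_mul_of_nonneg_left ?_ (Nat.cast_nonneg _)
    exact mul_le_mul (hMf i (hi'.trans hn) z) (hMg (n - i) ((Nat.sub_le _ _).trans hn) z)
      (norm_nonneg _) hA
  refine h1.trans ?_
  rw [← Finset.sum_mul, ← Nat.cast_sum, Nat.sum_range_choose]
  refine mul_le_mul_of_nonneg_right ?_ (mul_nonneg hA hB)
  push_cast
  exact pow_le_pow_right₀ (by norm_num) hn

private lemma KU_hcs {W : Type} [NormedAddCommGroup W] [ProperSpace W] {f : W → ℂ} (R : ℝ)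
    (h : ∀ z, f z ≠ 0 → ‖z‖ ≤ R) : HasCompactSupport f :=
  HasCompactSupport.of_support_subset_isCompact (isCompact_closedBall (0 : W) R)
    fun z hz => mem_closedBall_zero_iff.2 (h z hz)

private lemma KU_ct {m : ℕ} {R : ℝ} {χ : E m → ℝ} (h : Ct R χ) (z : E m) (hz : χ z ≠ 0) :
    ‖z‖ ≤ Real.sqrt (m * R ^ 2) := by
  rw [EuclideanSpace.norm_eq]
  refine Real.sqrt_le_sqrt ?_
  calc ∑ i, ‖z i‖ ^ 2 ≤ ∑ _i : Fin m, R ^ 2 := by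
        refine Finset.sum_le_sum fun i _ => ?_
        refine pow_le_pow_left₀ (norm_nonneg _) ?_ 2
        rw [Real.norm_eq_abs]
        exact (h.supp z hz i).le
    _ = m * R ^ 2 := by simp

private lemma KU_cov {m : ℕ} (k : ℕ) (c : E m) (F : V m → ℂ) :
    ∫ z, F z = (((2 : ℝ)⁻¹ ^ (k * m) : ℝ)) •
      ∫ z : V m, F (c + (2 : ℝ)⁻¹ ^ k • z.1, z.2) := by
  have hr : (2 : ℝ)⁻¹ ^ k ≠ 0 := by positivity
  have hrp : (0 : ℝ) < (2 : ℝ)⁻¹ ^ k := by positivity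
  have hmap1 : Measure.map (fun x : E m => c + (2 : ℝ)⁻¹ ^ k • x) volume =
      ENNReal.ofReal (abs ((((2 : ℝ)⁻¹ ^ k) ^ m)⁻¹)) • (volume : Measure (E m)) := by
    have e : (fun x : E m => c + (2 : ℝ)⁻¹ ^ k • x) =
        (fun x => c + x) ∘ (fun x => (2 : ℝ)⁻¹ ^ k • x) := rfl
    rw [e, ← Measure.map_map (measurable_const_add c) (measurable_const_smul _),
      Measure.map_addHaar_smul volume hr, Measure.map_smul, map_add_left_eq_self,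
      finrank_euclideanSpace_fin]
  have hφ : MeasurableEmbedding (Prod.map (fun x : E m => c + (2 : ℝ)⁻¹ ^ k • x) (id : ℝ → ℝ)) :=
    (((Homeomorph.smulOfNeZero ((2 : ℝ)⁻¹ ^ k) hr).trans (Homeomorph.addLeft c)).prodCongr
      (Homeomorph.refl ℝ)).measurableEmbedding
  have hmeas : Measurable (fun x : E m => c + (2 : ℝ)⁻¹ ^ k • x) :=
    (measurable_const_add c).comp (measurable_const_smul _)
  have hmap : Measure.map (Prod.map (fun x : E m => c + (2 : ℝ)⁻¹ ^ k • x) (id : ℝ → ℝ))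
      (volume : Measure (V m)) =
      ENNReal.ofReal (abs ((((2 : ℝ)⁻¹ ^ k) ^ m)⁻¹)) • (volume : Measure (V m)) := by
    rw [Measure.volume_eq_prod, ← Measure.map_prod_map _ _ hmeas measurable_id, hmap1,
      Measure.map_id, Measure.prod_smul_left]
  have h1 : ∫ z : V m, F (c + (2 : ℝ)⁻¹ ^ k • z.1, z.2) =
      ∫ z, F z ∂(Measure.map (Prod.map (fun x : E m => c + (2 : ℝ)⁻¹ ^ k • x) (id : ℝ → ℝ))
      (volume : Measure (V m))) := by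
    rw [hφ.integral_map]
    rfl
  rw [h1, hmap, integral_smul_measure, ENNReal.toReal_ofReal (abs_nonneg _), smul_smul,
    abs_of_pos (by positivity), pow_mul, mul_inv_cancel₀ (by positivity), one_smul]

private lemma KU_sy {m : ℕ} {K : ℕ → ℝ} (hK : ∀ n, 0 ≤ K n) {k : ℕ} {Ψ : E m → ℝ}
    (hΨ : Sy K ((2 : ℝ) ^ k) Ψ) {W' : Type} [NormedAddCommGroup W'] [NormedSpace ℝ W']
    (L : W' →L[ℝ] E m) (hL : ‖L‖ ≤ (2 : ℝ)⁻¹ ^ k) (c : E m) (D : ℕ) :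
    ∀ n ≤ D, ∀ z, ‖iteratedFDeriv ℝ n (fun z => ((Ψ (L z + c) : ℝ) : ℂ)) z‖ ≤
      ∑ n ∈ Finset.range (D + 1), K n := by
  intro n hn z
  have s2 : ContDiff ℝ (⊤ : ℕ∞) (fun z : E m => ((Ψ z : ℝ) : ℂ)) :=
    Complex.ofRealCLM.contDiff.comp hΨ.smooth
  have hf' : ContDiff ℝ (⊤ : ℕ∞) (fun y : E m => ((Ψ (y + c) : ℝ) : ℂ)) :=
    s2.comp (contDiff_id.add contDiff_const)
  have e : (fun z => ((Ψ (L z + c) : ℝ) : ℂ)) = (fun y : E m => ((Ψ (y + c) : ℝ) : ℂ)) ∘ L := rfl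
  rw [e, L.iteratedFDeriv_comp_right hf' z (KU_nle n)]
  refine (ContinuousMultilinearMap.norm_compContinuousLinearMap_le _ _).trans ?_
  rw [Finset.prod_const, Finset.card_univ, Fintype.card_fin]
  have h1 : ‖iteratedFDeriv ℝ n (fun y : E m => ((Ψ (y + c) : ℝ) : ℂ)) (L z)‖ ≤
      K n * ((2 : ℝ) ^ k) ^ n := by
    have e2 : iteratedFDeriv ℝ n (fun y : E m => ((Ψ (y + c) : ℝ) : ℂ)) (L z) =
        iteratedFDeriv ℝ n (fun y : E m => ((Ψ y : ℝ) : ℂ)) (L z + c) :=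
      iteratedFDeriv_comp_add_right (f := fun y : E m => ((Ψ y : ℝ) : ℂ)) n c (L z)
    rw [e2]
    have e3 : (fun y : E m => ((Ψ y : ℝ) : ℂ)) = Complex.ofRealLI ∘ Ψ := rfl
    rw [e3, LinearIsometry.norm_iteratedFDeriv_comp_left _ (hΨ.smooth.contDiffAt) (KU_nle n)]
    exact hΨ.bd n _
  have h2 : ‖L‖ ^ n ≤ ((2 : ℝ)⁻¹ ^ k) ^ n := pow_le_pow_left₀ (norm_nonneg _) hL n
  calc _ ≤ K n * ((2 : ℝ) ^ k) ^ n * ((2 : ℝ)⁻¹ ^ k) ^ n :=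
        mul_le_mul h1 h2 (by positivity) (mul_nonneg (hK n) (by positivity))
    _ = K n := by
        rw [mul_assoc, ← mul_pow, ← mul_pow]
        norm_num
    _ ≤ ∑ n ∈ Finset.range (D + 1), K n :=
        Finset.single_le_sum (f := K) (fun _ _ => hK _) (Finset.mem_range.2 (Nat.lt_succ_of_le hn))

/-- wave packet estimate with an additional symbol of growth 2^k, uniform in the symbol -/
theorem kernU {m : ℕ} {v0 v1 ρ R1 : ℝ} {b : V m → ℂ} {χ1 : E m → ℝ} (hb : Sb v0 v1 ρ b)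
    (h1 : Ct R1 χ1) (N : ℕ) (K : ℕ → ℝ) (hK : ∀ n, 0 ≤ K n) : ∃ C : ℝ, 0 < C ∧
    ∀ (k : ℕ) (Ψ : E m → ℝ), Sy K ((2 : ℝ) ^ k) Ψ → ∀ (j : Fin m → ℤ) (Z : X m),
    ‖Kb (fun z => (χ1 ((2 : ℝ) ^ k • z.1 - iv j) : ℂ) * ((Ψ z.1 : ℂ) * b z)) Z‖ ≤
      C * (2 : ℝ)⁻¹ ^ (k * m) * (1 + |(4 : ℝ)⁻¹ ^ k * Z.2.1|) ^ (4 * N) /
        (1 + ‖Lk k (w k j) Z‖) ^ N := by
  have hR : 0 < v0 := hb.pos
  obtain ⟨Co, hCo, hosc⟩ := osc m N (Real.sqrt (m * R1 ^ 2)) v0 v1 hR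
  -- the fixed functions
  have s1 : ContDiff ℝ (⊤ : ℕ∞) (fun z : E m => ((χ1 z : ℝ) : ℂ)) :=
    Complex.ofRealCLM.contDiff.comp h1.smooth
  have c1 : HasCompactSupport (fun z : E m => ((χ1 z : ℝ) : ℂ)) :=
    KU_hcs (Real.sqrt (m * R1 ^ 2)) fun z hz => KU_ct h1 z fun h0 => hz (by simp [h0])
  have c3 : HasCompactSupport b := by
    refine KU_hcs (max ρ |v1|) fun z hz => ?_
    obtain ⟨a1, a2, a3⟩ := hb.supp z hz
    rw [Prod.norm_def]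
    refine max_le_max a3 ?_
    rw [Real.norm_eq_abs, abs_of_pos (hR.trans_le a1)]
    exact a2.trans (le_abs_self _)
  obtain ⟨M1, hM1, b1⟩ := KU_bdd s1 c1 (4 * N)
  set M2 : ℝ := ∑ n ∈ Finset.range (4 * N + 1), K n with hM2def
  have hM2 : 0 ≤ M2 := Finset.sum_nonneg fun n _ => hK n
  obtain ⟨M3, hM3, b3⟩ := KU_bdd hb.smooth c3 (4 * N)
  set M : ℝ := 2 ^ (4 * N) * (M1 * (2 ^ (4 * N) * (M2 * M3))) with hMdef
  have hM : 0 ≤ M := by positivity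
  refine ⟨Co * (M + 1), by positivity, ?_⟩
  intro k Ψ hΨ j Z
  have hrk : (2 : ℝ) ^ k * (2 : ℝ)⁻¹ ^ k = 1 := by
    rw [← mul_pow]; norm_num
  have hrk1 : (2 : ℝ)⁻¹ ^ k ≤ 1 := pow_le_one₀ (by norm_num) (by norm_num)
  have hrk0 : (0 : ℝ) ≤ (2 : ℝ)⁻¹ ^ k := by positivity
  set c : E m := w k j with hc
  have hcw : (2 : ℝ) ^ k • c = iv j := by
    rw [hc, w, smul_smul, hrk, one_smul]
  -- the amplitude
  let L1 : V m →L[ℝ] E m := ContinuousLinearMap.fst ℝ (E m) ℝ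
  let L2 : V m →L[ℝ] E m := ((2 : ℝ)⁻¹ ^ k) • ContinuousLinearMap.fst ℝ (E m) ℝ
  let L3 : V m →L[ℝ] V m := ((2 : ℝ)⁻¹ ^ k • ContinuousLinearMap.fst ℝ (E m) ℝ).prod
    (ContinuousLinearMap.snd ℝ (E m) ℝ)
  have n1 : ‖L1‖ ≤ 1 := ContinuousLinearMap.norm_fst_le ℝ (E m) ℝ
  have n2 : ‖L2‖ ≤ (2 : ℝ)⁻¹ ^ k := by
    show ‖((2 : ℝ)⁻¹ ^ k) • ContinuousLinearMap.fst ℝ (E m) ℝ‖ ≤ (2 : ℝ)⁻¹ ^ k
    rw [norm_smul, Real.norm_eq_abs, abs_of_nonneg (by positivity)]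
    exact mul_le_of_le_one_right hrk0 n1
  have n3 : ‖L3‖ ≤ 1 := by
    refine ContinuousLinearMap.opNorm_le_bound _ zero_le_one fun z => ?_
    rw [one_mul]
    show ‖((2 : ℝ)⁻¹ ^ k • z.1, z.2)‖ ≤ ‖z‖
    rw [Prod.norm_def, Prod.norm_def]
    refine max_le_max ?_ le_rfl
    show ‖(2 : ℝ)⁻¹ ^ k • z.1‖ ≤ ‖z.1‖
    rw [norm_smul, Real.norm_eq_abs, abs_of_nonneg hrk0]
    exact mul_le_of_le_one_left (norm_nonneg _) hrk1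
  let g1 : V m → ℂ := fun z => ((χ1 (L1 z + 0) : ℝ) : ℂ)
  let g2 : V m → ℂ := fun z => ((Ψ (L2 z + c) : ℝ) : ℂ)
  let g3 : V m → ℂ := fun z => b (L3 z + (c, 0))
  let G : V m → ℂ := fun z => g1 z * (g2 z * g3 z)
  have t1 : ContDiff ℝ (⊤ : ℕ∞) g1 := s1.comp (L1.contDiff.add contDiff_const)
  have s2 : ContDiff ℝ (⊤ : ℕ∞) (fun z : E m => ((Ψ z : ℝ) : ℂ)) :=
    Complex.ofRealCLM.contDiff.comp hΨ.smooth
  have t2 : ContDiff ℝ (⊤ : ℕ∞) g2 := s2.comp (L2.contDiff.add contDiff_const)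
  have t3 : ContDiff ℝ (⊤ : ℕ∞) g3 := hb.smooth.comp (L3.contDiff.add contDiff_const)
  have t23 : ContDiff ℝ (⊤ : ℕ∞) (fun z => g2 z * g3 z) := t2.mul t3
  have hG : ContDiff ℝ (⊤ : ℕ∞) G := t1.mul t23
  have d1 := KU_comp L1 n1 (0 : E m) s1 b1
  have d2 := KU_sy hK hΨ L2 n2 c (4 * N)
  have d3 := KU_comp L3 n3 ((c, 0) : V m) hb.smooth b3
  have d23 := KU_mul t2 t3 hM2 hM3 d2 d3
  have dG : ∀ n ≤ 4 * N, ∀ z, ‖iteratedFDeriv ℝ n G z‖ ≤ M + 1 := fun n hn z =>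
    (KU_mul t1 t23 hM1 (by positivity) d1 d23 n hn z).trans (by rw [hMdef]; linarith)
  have hGs : ∀ z, G z ≠ 0 → ‖z.1‖ ≤ Real.sqrt (m * R1 ^ 2) ∧ v0 ≤ z.2 ∧ z.2 ≤ v1 := by
    intro z hz
    have hz1 : χ1 (z.1 + 0) ≠ 0 := by
      intro h0
      apply hz
      show (((χ1 (z.1 + 0) : ℝ) : ℂ)) * (g2 z * g3 z) = 0
      rw [h0, Complex.ofReal_zero, zero_mul]
    have hz3 : b ((2 : ℝ)⁻¹ ^ k • z.1 + c, z.2 + 0) ≠ 0 := by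
      intro h0
      apply hz
      show g1 z * (g2 z * b ((2 : ℝ)⁻¹ ^ k • z.1 + c, z.2 + 0)) = 0
      rw [h0, mul_zero, mul_zero]
    rw [add_zero] at hz1
    obtain ⟨a1, a2, _⟩ := hb.supp _ hz3
    simp only [add_zero] at a1 a2
    exact ⟨KU_ct h1 z.1 hz1, a1, a2⟩
  have hmain := hosc G hG hGs (M + 1) dG (Lk k c Z).1 (Lk k c Z).2.1 (Lk k c Z).2.2
  -- the change of variables
  have hK : Kb (fun z => (χ1 ((2 : ℝ) ^ k • z.1 - iv j) : ℂ) *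
      ((Ψ z.1 : ℂ) * b z)) Z = (((2 : ℝ)⁻¹ ^ (k * m) : ℝ)) •
      ∫ z : V m, e1 (z.2 * ((Lk k c Z).2.2 + inner ℝ (Lk k c Z).1 z.1 +
        (Lk k c Z).2.1 * ‖z.1‖ ^ 2)) * G z := by
    rw [Kb, KU_cov k c]
    congr 1
    refine integral_congr_ae (Filter.Eventually.of_forall fun z => ?_)
    show e1 (ph Z (c + (2 : ℝ)⁻¹ ^ k • z.1, z.2)) *
      ((χ1 ((2 : ℝ) ^ k • (c + (2 : ℝ)⁻¹ ^ k • z.1) - iv j) : ℂ) *
      ((Ψ (c + (2 : ℝ)⁻¹ ^ k • z.1) : ℂ) *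
        b (c + (2 : ℝ)⁻¹ ^ k • z.1, z.2))) =
      e1 (z.2 * ((Lk k c Z).2.2 + inner ℝ (Lk k c Z).1 z.1 + (Lk k c Z).2.1 * ‖z.1‖ ^ 2)) *
      (((χ1 (z.1 + 0) : ℝ) : ℂ) *
      (((Ψ ((2 : ℝ)⁻¹ ^ k • z.1 + c) : ℝ) : ℂ) *
        b ((2 : ℝ)⁻¹ ^ k • z.1 + c, z.2 + 0)))
    have e1' : (2 : ℝ) ^ k • (c + (2 : ℝ)⁻¹ ^ k • z.1) - iv j = z.1 + 0 := by
      rw [smul_add, hcw, smul_smul, hrk, one_smul]
      abel
    have e2' : c + (2 : ℝ)⁻¹ ^ k • z.1 = (2 : ℝ)⁻¹ ^ k • z.1 + c := add_comm _ _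
    have e3' : ((c + (2 : ℝ)⁻¹ ^ k • z.1, z.2) : V m) = ((2 : ℝ)⁻¹ ^ k • z.1 + c, z.2 + 0) := by
      rw [add_comm, add_zero]
    have e4' : ph Z (c + (2 : ℝ)⁻¹ ^ k • z.1, z.2) =
        z.2 * ((Lk k c Z).2.2 + inner ℝ (Lk k c Z).1 z.1 + (Lk k c Z).2.1 * ‖z.1‖ ^ 2) := by
      rw [ph_eq k c, pr3, ze]
      have q1 : ((2 : ℝ) ^ k * z.2) • (c + (2 : ℝ)⁻¹ ^ k • z.1 - c) = z.2 • z.1 := by
        rw [add_sub_cancel_left, smul_smul, mul_comm ((2 : ℝ) ^ k) z.2, mul_assoc, hrk, mul_one]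
      have q2 : (4 : ℝ) ^ k * (z.2 * ‖c + (2 : ℝ)⁻¹ ^ k • z.1 - c‖ ^ 2) = z.2 * ‖z.1‖ ^ 2 := by
        rw [add_sub_cancel_left, norm_smul, Real.norm_eq_abs, abs_of_nonneg hrk0]
        have q3 : (4 : ℝ) ^ k = (2 : ℝ) ^ k * (2 : ℝ) ^ k := by
          rw [← mul_pow]; norm_num
        rw [q3]
        linear_combination (((2 : ℝ) ^ k * (2 : ℝ)⁻¹ ^ k + 1) * (z.2 * ‖z.1‖ ^ 2)) * hrk
      show inner ℝ (Lk k c Z).1 (((2 : ℝ) ^ k * z.2) • (c + (2 : ℝ)⁻¹ ^ k • z.1 - c)) +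
        (Lk k c Z).2.1 * ((4 : ℝ) ^ k * (z.2 * ‖c + (2 : ℝ)⁻¹ ^ k • z.1 - c‖ ^ 2)) +
        (Lk k c Z).2.2 * z.2 = _
      rw [q1, q2, real_inner_smul_right]
      ring
    rw [e4', e1', e3', e2']
  rw [hK, norm_smul, Real.norm_eq_abs, abs_of_nonneg (by positivity)]
  have hσ : (Lk k c Z).2.1 = (4 : ℝ)⁻¹ ^ k * Z.2.1 := rfl
  calc (2 : ℝ)⁻¹ ^ (k * m) * ‖∫ z : V m, e1 (z.2 * ((Lk k c Z).2.2 +
        inner ℝ (Lk k c Z).1 z.1 + (Lk k c Z).2.1 * ‖z.1‖ ^ 2)) * G z‖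
      ≤ (2 : ℝ)⁻¹ ^ (k * m) * (Co * (M + 1) * (1 + |(Lk k c Z).2.1|) ^ (4 * N) /
        (1 + ‖(((Lk k c Z).1, (Lk k c Z).2.1, (Lk k c Z).2.2) : X m)‖) ^ N) :=
        mul_le_mul_of_nonneg_left hmain (by positivity)
    _ = Co * (M + 1) * (2 : ℝ)⁻¹ ^ (k * m) * (1 + |(4 : ℝ)⁻¹ ^ k * Z.2.1|) ^ (4 * N) /
        (1 + ‖Lk k c Z‖) ^ N := by
        rw [hσ]
        show (2 : ℝ)⁻¹ ^ (k * m) * (Co * (M + 1) * (1 + |(4 : ℝ)⁻¹ ^ k * Z.2.1|) ^ (4 * N) /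
          (1 + ‖Lk k c Z‖) ^ N) = _
        ring

end Pool.LibCA93
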