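import Pool.Agent.LibCA93.CT
import Pool.Agent.LibCA93.HI
import Pool.Agent.LibCA93.PR
import Pool.Agent.LibST49.L1

/-
PLAN (L2U, STRONG). H := Lp ℂ 2 (volume on E (m+1)) (or work with MemLp functions directly); x j i := class of the function 2^(k i m/2) SUM_(a in G i) cf_a Kb (cu χ b κ (Pr (fun l => A l (π l i)) j) a.1) (Lam (x,-s0) - pos a)
(MemLp by gram: cu .. is Sb v0 v1 1, the product Pr is smooth). hc: for i in D all A j (π j i) are the same function A; Pr .. (j+1) = A * Pr .. j (up to the order of factors), so contr (index set Σ i, a) applies.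
x J' gives Fh. SUM ‖x 0 i‖^2: cu χ b κ 1 a.1 = cb χ b κ a.1 (Pr .. 0 = 1), gram and schur (LibST49.L1; block with S i empty: cf = 0), as in ST49_L2.lean. Pairs: gram: inner product = SUM_(a,a') conj(coef) coef'
Kb (gb (cu ..) (cu ..)) (pos a - pos a'), ‖cf_i a‖ <= SUM_(p in S i) ‖Φ(nd h a.2 - Lk κ (w κ a.1) p)‖, exchange sums: Xp; total = Cr.
-/

set_option autoImplicit false

noncomputable section

open MeasureTheory Metric Set Filter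

namespace Pool.LibCA93

open Pool.LibSR53 Pool.LibST49

/-- inner products of finite sums -/
private theorem L2U_cross {Y τ τ' : Type} [MeasurableSpace Y] {μ : Measure Y} (I : Finset τ)
    (I' : Finset τ') (f : τ → Y → ℂ) (f' : τ' → Y → ℂ) (hf : ∀ t ∈ I, MemLp (f t) 2 μ)
    (hf' : ∀ t ∈ I', MemLp (f' t) 2 μ) (c : τ → ℂ) (c' : τ' → ℂ) :
    ‖∫ x, (starRingEnd ℂ) (∑ t ∈ I, c t * f t x) * (∑ t ∈ I', c' t * f' t x) ∂μ‖ ≤
      ∑ t ∈ I, ∑ t' ∈ I', ‖c t‖ * ‖c' t'‖ *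
        ‖∫ x, (starRingEnd ℂ) (f t x) * f' t' x ∂μ‖ := by
  have hpair : ∀ t ∈ I, ∀ t' ∈ I', Integrable (fun x => (starRingEnd ℂ) (f t x) * f' t' x) μ := by
    intro t ht t' ht'
    have hs : MemLp (fun x => (starRingEnd ℂ) (f t x)) 2 μ := (hf t ht).star
    exact hs.integrable_mul (hf' t' ht')
  have h2 : ∫ x, (starRingEnd ℂ) (∑ t ∈ I, c t * f t x) * (∑ t ∈ I', c' t * f' t x) ∂μ
      = ∑ t ∈ I, ∑ t' ∈ I', (starRingEnd ℂ) (c t) * c' t' *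
        ∫ x, (starRingEnd ℂ) (f t x) * f' t' x ∂μ := by
    have h3 : ∀ x, (starRingEnd ℂ) (∑ t ∈ I, c t * f t x) * (∑ t ∈ I', c' t * f' t x)
        = ∑ t ∈ I, ∑ t' ∈ I', (starRingEnd ℂ) (c t) * c' t' *
          ((starRingEnd ℂ) (f t x) * f' t' x) := by
      intro x
      rw [map_sum, Finset.sum_mul_sum]
      refine Finset.sum_congr rfl fun t _ => Finset.sum_congr rfl fun t' _ => ?_
      rw [map_mul]
      ring
    simp_rw [h3]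
    rw [integral_finsetSum]
    · refine Finset.sum_congr rfl fun t ht => ?_
      rw [integral_finsetSum]
      · refine Finset.sum_congr rfl fun t' _ => ?_
        rw [integral_const_mul]
      · intro t' ht'
        exact (hpair t ht t' ht').const_mul _
    · intro t ht
      refine integrable_finsetSum _ fun t' ht' => ?_
      exact (hpair t ht t' ht').const_mul _
  rw [h2]
  refine le_trans (norm_sum_le _ _) (Finset.sum_le_sum fun t _ => ?_)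
  refine le_trans (norm_sum_le _ _) (Finset.sum_le_sum fun t' _ => ?_)
  rw [norm_mul, norm_mul, RCLike.norm_conj]

/-- localised symbols with an additional symbol are symbols -/
private theorem L2U_cu {m : ℕ} {v0 v1 : ℝ} {χ : E m → ℝ} (hχ : Pu χ) {b : V m → ℂ}
    (hb : Sb v0 v1 1 b) (κ : ℕ) {Ψ : E m → ℝ} (hΨ : ContDiff ℝ (⊤ : ℕ∞) Ψ) (j : Fin m → ℤ) :
    Sb v0 v1 1 (cu χ b κ Ψ j) := by
  refine ⟨hb.pos, hb.le, ?_, ?_⟩
  · unfold cu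
    have h1 : ContDiff ℝ (⊤ : ℕ∞) fun z : V m => χ ((2 : ℝ) ^ κ • z.1 - iv j) :=
      hχ.smooth.comp ((contDiff_fst.const_smul _).sub contDiff_const)
    have h2 : ContDiff ℝ (⊤ : ℕ∞) fun z : V m => Ψ z.1 := hΨ.comp contDiff_fst
    exact (Complex.ofRealCLM.contDiff.comp h1).mul
      ((Complex.ofRealCLM.contDiff.comp h2).mul hb.smooth)
  · intro z hz
    apply hb.supp
    intro h0
    apply hz
    unfold cu
    rw [h0, mul_zero, mul_zero]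

/-- the norm in L2 -/
private theorem L2U_norm {Y : Type} [MeasurableSpace Y] {μ : Measure Y} (g : Lp ℂ 2 μ)
    (f : Y → ℂ) (h : g =ᵐ[μ] f) (hf : MemLp f 2 μ) :
    ∫⁻ x, ‖f x‖ₑ ^ (2 : ℝ) ∂μ = ENNReal.ofReal (‖g‖ ^ 2) := by
  have h1 : ‖g‖ = (eLpNorm f 2 μ).toReal := by
    rw [Lp.norm_def, eLpNorm_congr_ae h]
  have h2 : eLpNorm f 2 μ = (∫⁻ x, ‖f x‖ₑ ^ (2 : ℝ) ∂μ) ^ (1 / (2 : ℝ)) := by
    rw [eLpNorm_eq_lintegral_rpow_enorm_toReal (by norm_num) (by norm_num)]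
    norm_num
  have h3 : (eLpNorm f 2 μ) ^ (2 : ℝ) = ∫⁻ x, ‖f x‖ₑ ^ (2 : ℝ) ∂μ := by
    rw [h2, ← ENNReal.rpow_mul]
    norm_num
  have h4 : eLpNorm f 2 μ ≠ ⊤ := hf.2.ne
  rw [h1, ← h3, ENNReal.ofReal_pow ENNReal.toReal_nonneg, ENNReal.ofReal_toReal h4]
  norm_num

/-- L2 bound for a nested family of blocks with symbols, for arbitrary subfamilies of packets -/
theorem L2U {m : ℕ} (hm : 1 ≤ m) {h v0 v1 ρ R : ℝ} {Φ Φh : X m → ℂ}
    (hR : Rp h v0 v1 ρ R Φ Φh) {χ : E m → ℝ} (hχ : Pu χ) {b : V m → ℂ} (hb : Sb v0 v1 1 b) :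
    ∃ (C : ℝ) (M : ℕ), 0 < C ∧ ∀ (κ : ℕ) (β c : Type) [DecidableEq β] (B : Finset β)
    (k : β → ℕ) (S : β → Finset (X m)),
    (∀ i ∈ B, ∀ p ∈ S i, ∀ q ∈ S i, |p.2.1 - q.2.1| ≤ 4 ^ κ) →
    ∀ γ : β → X m → ℂ, (∀ i p, ‖γ i p‖ ≤ 1) → ∀ G : β → Finset (Pk m),
    (∀ i, ∀ a ∈ G i, a.1 ∈ J m κ) → ∀ (J' : ℕ) (π : ℕ → β → c) (sp : β → β → ℕ),
    Hi B J' π sp → ∀ A : ℕ → c → E m → ℝ, (∀ l i, ContDiff ℝ (⊤ : ℕ∞) (A l i)) →
    (∀ l i ω, |A l i ω| ≤ 1) → ∀ s0 : ℝ,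
    ∫⁻ x, ‖Fh χ b Φ h κ s0 B k S γ G (fun i => Pr (fun l => A l (π l i)) J') x‖ₑ ^ (2 : ℝ) ≤
      ENNReal.ofReal (C * ((2 : ℝ)⁻¹ ^ (κ * m) * ∑ i ∈ B, ∑ a ∈ G i, (2 : ℝ) ^ (k i * m) *
        (‖cf Φ h κ (S i) (γ i) a‖ * (1 + rh h κ (S i) a) ^ M) ^ 2) +
        Cr χ b Φ h κ B k S G π sp A) := by
  obtain ⟨C, M, hC, hschur⟩ := schur hm hR.hpos hχ hb
  refine ⟨C, M, hC, ?_⟩
  intro κ β c _ B k S hSl γ hγ G hG J' π sp hsp A hA hA1 s0
  -- the symbols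
  let Ψ : ℕ → β → E m → ℝ := fun j i => Pr (fun l => A l (π l i)) j
  have hΨ : ∀ j i, ContDiff ℝ (⊤ : ℕ∞) (Ψ j i) := fun j i =>
    PR_smooth (fun l => A l (π l i)) (fun l => hA l (π l i)) j
  let cc : β → Pk m → ℂ := fun i a =>
    (((2 : ℝ) ^ ((k i : ℝ) * ((m : ℝ) / 2)) : ℝ) : ℂ) * cf Φ h κ (S i) (γ i) a
  let ff : ℕ → β → Pk m → E (m + 1) → ℂ := fun j i a x =>
    Kb (cu χ b κ (Ψ j i) a.1) (Lam (x, -s0) - pos h κ a)
  let F : ℕ → β → E (m + 1) → ℂ := fun j i x => ∑ a ∈ G i, cc i a * ff j i a x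
  have hsb : ∀ j i a, Sb v0 v1 1 (cu χ b κ (Ψ j i) a) := fun j i a => L2U_cu hχ hb κ (hΨ j i) a
  have hff : ∀ j i a, MemLp (ff j i a) 2 volume := fun j i a =>
    (gram hm (hsb j i a.1) (hsb j i a.1) s0 (pos h κ a) (pos h κ a)).1
  have hF : ∀ j i, MemLp (F j i) 2 volume := fun j i =>
    memLp_finsetSum (G i) fun a _ => (hff j i a).const_mul (cc i a)
  let xx : ℕ → β → Lp ℂ 2 (volume : Measure (E (m + 1))) := fun j i => (hF j i).toLp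
  have hxx : ∀ j i, xx j i =ᵐ[volume] F j i := fun j i => MemLp.coeFn_toLp (hF j i)
  have hsum : ∀ j (D : Finset β), ((∑ i ∈ D, xx j i : Lp ℂ 2 (volume : Measure (E (m + 1)))) :
      E (m + 1) → ℂ) =ᵐ[volume] fun x => ∑ i ∈ D, F j i x := by
    intro j D
    induction D using Finset.induction_on with
    | empty =>
      simp only [Finset.sum_empty]
      exact Lp.coeFn_zero _ _ _
    | insert i D hi ih =>
      rw [Finset.sum_insert hi]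
      refine (Lp.coeFn_add _ _).trans ?_
      filter_upwards [hxx j i, ih] with x h1 h2
      rw [Finset.sum_insert hi, Pi.add_apply, h1, h2]
  have hsm : ∀ j (D : Finset β), MemLp (fun x => ∑ i ∈ D, F j i x) 2 volume := fun j D =>
    memLp_finsetSum D fun i _ => hF j i
  have hnorm : ∀ j (D : Finset β), ∫⁻ x, ‖∑ i ∈ D, F j i x‖ₑ ^ (2 : ℝ) =
      ENNReal.ofReal (‖∑ i ∈ D, xx j i‖ ^ 2) := fun j D =>
    L2U_norm _ _ (hsum j D) (hsm j D)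
  -- contraction
  have hc : ∀ j < J', ∀ D ⊆ B, (∀ i ∈ D, ∀ i' ∈ D, π j i = π j i') →
      ‖∑ i ∈ D, xx (j + 1) i‖ ≤ ‖∑ i ∈ D, xx j i‖ := by
    intro j _ D _ hD
    rcases D.eq_empty_or_nonempty with h0 | ⟨i0, hi0⟩
    · rw [h0, Finset.sum_empty, Finset.sum_empty]
    have key : ∫⁻ x, ‖∑ i ∈ D, F (j + 1) i x‖ₑ ^ (2 : ℝ) ≤
        ∫⁻ x, ‖∑ i ∈ D, F j i x‖ₑ ^ (2 : ℝ) := by
      have h1 := contr hm (v0 := v0) (v1 := v1) (D.sigma G) (fun t => cc t.1 t.2)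
        (fun t => cu χ b κ (Ψ j t.1) t.2.1) (fun t _ => hsb j t.1 t.2.1)
        (fun t => pos h κ t.2) s0 (A j (π j i0)) (hA j (π j i0)) (hA1 j (π j i0))
      have e1 : ∀ x, ∑ i ∈ D, F j i x = ∑ t ∈ D.sigma G, cc t.1 t.2 *
          Kb (cu χ b κ (Ψ j t.1) t.2.1) (Lam (x, -s0) - pos h κ t.2) := by
        intro x
        rw [Finset.sum_sigma]
      have e2 : ∀ x, ∑ i ∈ D, F (j + 1) i x = ∑ t ∈ D.sigma G, cc t.1 t.2 *
          Kb (fun z => (A j (π j i0) z.1 : ℂ) * cu χ b κ (Ψ j t.1) t.2.1 z)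
            (Lam (x, -s0) - pos h κ t.2) := by
        intro x
        rw [Finset.sum_sigma]
        refine Finset.sum_congr rfl fun i hi => Finset.sum_congr rfl fun a _ => ?_
        have e3 : cu χ b κ (Ψ (j + 1) i) a.1 =
            fun z => (A j (π j i0) z.1 : ℂ) * cu χ b κ (Ψ j i) a.1 z := by
          funext z
          have e4 : Ψ (j + 1) i z.1 = Ψ j i z.1 * A j (π j i0) z.1 := by
            simp only [Ψ, Pr]
            rw [Finset.prod_range_succ, hD i hi i0 hi0]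
          unfold cu
          rw [e4]
          push_cast
          ring
        simp only [ff]
        rw [e3]
      simp_rw [e1, e2]
      exact h1
    rw [hnorm, hnorm, ENNReal.ofReal_le_ofReal_iff (by positivity)] at key
    exact le_of_sq_le_sq key (norm_nonneg _)
  have hier' := hier B J' π sp hsp xx hc
  -- left side
  have hL : ∫⁻ x, ‖Fh χ b Φ h κ s0 B k S γ G (fun i => Pr (fun l => A l (π l i)) J') x‖ₑ ^ (2 : ℝ)
      = ENNReal.ofReal (‖∑ i ∈ B, xx J' i‖ ^ 2) := by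
    rw [← hnorm]
    refine lintegral_congr fun x => ?_
    congr 2
    unfold Fh
    refine Finset.sum_congr rfl fun i _ => ?_
    rw [Finset.mul_sum]
    refine Finset.sum_congr rfl fun a _ => ?_
    simp only [cc, ff, Ψ]
    ring
  rw [hL]
  apply ENNReal.ofReal_le_ofReal
  refine hier'.trans ?_
  -- inner products
  have hccn : ∀ i a, ‖cc i a‖ = (2 : ℝ) ^ ((k i : ℝ) * ((m : ℝ) / 2)) *
      ‖cf Φ h κ (S i) (γ i) a‖ := by
    intro i a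
    simp only [cc]
    rw [norm_mul, Complex.norm_real, Real.norm_eq_abs, abs_of_pos (by positivity)]
  have hin : ∀ j j' i i', ‖(inner ℂ (xx j i) (xx j' i') : ℂ)‖ ≤ ∑ a ∈ G i, ∑ a' ∈ G i',
      ((2 : ℝ) ^ ((k i : ℝ) * ((m : ℝ) / 2)) * ‖cf Φ h κ (S i) (γ i) a‖) *
      ((2 : ℝ) ^ ((k i' : ℝ) * ((m : ℝ) / 2)) * ‖cf Φ h κ (S i') (γ i') a'‖) *
      ‖Kb (gb (cu χ b κ (Ψ j i) a.1) (cu χ b κ (Ψ j' i') a'.1)) (pos h κ a - pos h κ a')‖ := by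
    intro j j' i i'
    have h1 : (inner ℂ (xx j i) (xx j' i') : ℂ) =
        ∫ x, (starRingEnd ℂ) (∑ a ∈ G i, cc i a * ff j i a x) *
          (∑ a ∈ G i', cc i' a * ff j' i' a x) := by
      rw [L2.inner_def]
      refine integral_congr_ae ?_
      filter_upwards [hxx j i, hxx j' i'] with x h1 h2
      rw [h1, h2, RCLike.inner_apply]
      simp only [F]
      ring
    rw [h1]
    refine (L2U_cross (G i) (G i') (ff j i) (ff j' i') (fun a _ => hff j i a)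
      (fun a _ => hff j' i' a) (cc i) (cc i')).trans ?_
    refine Finset.sum_le_sum fun a _ => Finset.sum_le_sum fun a' _ => ?_
    rw [hccn, hccn]
    have h2 := (gram hm (hsb j i a.1) (hsb j' i' a'.1) s0 (pos h κ a) (pos h κ a')).2
    simp only [ff]
    rw [h2]
  have h22 : ∀ i i', (2 : ℝ) ^ ((k i : ℝ) * ((m : ℝ) / 2)) * (2 : ℝ) ^ ((k i' : ℝ) * ((m : ℝ) / 2))
      = (2 : ℝ) ^ (((k i : ℝ) + (k i' : ℝ)) * ((m : ℝ) / 2)) := by
    intro i i'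
    rw [← Real.rpow_add (by norm_num)]
    congr 1
    ring
  -- diagonal
  have hdiag : ∀ i ∈ B, ‖xx 0 i‖ ^ 2 ≤ C * (2 : ℝ)⁻¹ ^ (κ * m) * ∑ a ∈ G i, (2 : ℝ) ^ (k i * m) *
      (‖cf Φ h κ (S i) (γ i) a‖ * (1 + rh h κ (S i) a) ^ M) ^ 2 := by
    intro i hi
    have h0 : ‖xx 0 i‖ ^ 2 = ‖(inner ℂ (xx 0 i) (xx 0 i) : ℂ)‖ := by
      rw [inner_self_eq_norm_sq_to_K]
      rw [norm_pow]
      simp
    have hcb : ∀ a, cu χ b κ (Ψ 0 i) a = cb χ b κ a := by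
      intro a
      funext z
      unfold cu cb
      simp only [Ψ, Pr]
      simp
    rw [h0]
    refine (hin 0 0 i i).trans ?_
    simp only [hcb]
    have h2 : (2 : ℝ) ^ ((k i : ℝ) * ((m : ℝ) / 2)) * (2 : ℝ) ^ ((k i : ℝ) * ((m : ℝ) / 2))
        = (2 : ℝ) ^ (k i * m) := by
      rw [← Real.rpow_add (by norm_num), ← Real.rpow_natCast]
      congr 1
      push_cast
      ring
    have hQ : ∑ a ∈ G i, ∑ a' ∈ G i,
        ((2 : ℝ) ^ ((k i : ℝ) * ((m : ℝ) / 2)) * ‖cf Φ h κ (S i) (γ i) a‖) *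
        ((2 : ℝ) ^ ((k i : ℝ) * ((m : ℝ) / 2)) * ‖cf Φ h κ (S i) (γ i) a'‖) *
        ‖Kb (gb (cb χ b κ a.1) (cb χ b κ a'.1)) (pos h κ a - pos h κ a')‖ =
        (2 : ℝ) ^ (k i * m) * ∑ a ∈ G i, ∑ a' ∈ G i,
        ‖cf Φ h κ (S i) (γ i) a‖ * ‖cf Φ h κ (S i) (γ i) a'‖ *
        ‖Kb (gb (cb χ b κ a.1) (cb χ b κ a'.1)) (pos h κ a - pos h κ a')‖ := by
      rw [Finset.mul_sum]
      refine Finset.sum_congr rfl fun a _ => ?_
      rw [Finset.mul_sum]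
      refine Finset.sum_congr rfl fun a' _ => ?_
      rw [← h2]
      ring
    rw [hQ, ← Finset.mul_sum]
    rcases (S i).eq_empty_or_nonempty with hS | hS
    · have h0 : ∀ a, cf Φ h κ (S i) (γ i) a = 0 := by
        intro a
        unfold cf
        rw [hS, Finset.sum_empty]
      simp only [h0, norm_zero, zero_mul]
      simp
    · have h1 := hschur κ (S i) hS (hSl i hi) (G i) (hG i)
        (fun a => ‖cf Φ h κ (S i) (γ i) a‖) (fun a => norm_nonneg _)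
      calc (2 : ℝ) ^ (k i * m) * ∑ a ∈ G i, ∑ a' ∈ G i,
            ‖cf Φ h κ (S i) (γ i) a‖ * ‖cf Φ h κ (S i) (γ i) a'‖ *
            ‖Kb (gb (cb χ b κ a.1) (cb χ b κ a'.1)) (pos h κ a - pos h κ a')‖
          ≤ (2 : ℝ) ^ (k i * m) * (C * (2 : ℝ)⁻¹ ^ (κ * m) *
            ∑ a ∈ G i, (‖cf Φ h κ (S i) (γ i) a‖ * (1 + rh h κ (S i) a) ^ M) ^ 2) :=
            mul_le_mul_of_nonneg_left h1 (by positivity)
        _ = _ := by ring
  -- off diagonal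
  have hcfn : ∀ i a, ‖cf Φ h κ (S i) (γ i) a‖ ≤
      ∑ p ∈ S i, ‖Φ (nd h a.2 - Lk κ (w κ a.1) p)‖ := by
    intro i a
    unfold cf
    refine le_trans (norm_sum_le _ _) (Finset.sum_le_sum fun p _ => ?_)
    rw [norm_mul]
    calc ‖γ i p‖ * ‖Φ (nd h a.2 - Lk κ (w κ a.1) p)‖
        ≤ 1 * ‖Φ (nd h a.2 - Lk κ (w κ a.1) p)‖ :=
          mul_le_mul_of_nonneg_right (hγ i p) (norm_nonneg _)
      _ = _ := one_mul _
  have hoff : ∀ i ∈ B, ∀ i' ∈ B.erase i,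
      ‖(inner ℂ (xx (sp i i') i) (xx (sp i i') i') : ℂ)‖ ≤
      (2 : ℝ) ^ (((k i : ℝ) + (k i' : ℝ)) * ((m : ℝ) / 2)) *
        ∑ p ∈ S i, ∑ q ∈ S i', Xp χ b Φ h κ (G i) (G i')
          (Pr (fun l => A l (π l i)) (sp i i')) (Pr (fun l => A l (π l i')) (sp i i')) p q := by
    intro i _ i' _
    refine (hin (sp i i') (sp i i') i i').trans ?_
    set D : ℝ := (2 : ℝ) ^ (((k i : ℝ) + (k i' : ℝ)) * ((m : ℝ) / 2)) with hD
    have hD0 : 0 < D := by positivity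
    let KK : Pk m → Pk m → ℝ := fun a a' => ‖Kb (gb (cu χ b κ (Ψ (sp i i') i) a.1)
      (cu χ b κ (Ψ (sp i i') i') a'.1)) (pos h κ a - pos h κ a')‖
    have hKK : ∀ a a', 0 ≤ KK a a' := fun a a' => norm_nonneg _
    have h1 : ∑ a ∈ G i, ∑ a' ∈ G i',
        ((2 : ℝ) ^ ((k i : ℝ) * ((m : ℝ) / 2)) * ‖cf Φ h κ (S i) (γ i) a‖) *
        ((2 : ℝ) ^ ((k i' : ℝ) * ((m : ℝ) / 2)) * ‖cf Φ h κ (S i') (γ i') a'‖) * KK a a' ≤
        ∑ a ∈ G i, ∑ a' ∈ G i', D *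
        ∑ p ∈ S i, ∑ q ∈ S i', ‖Φ (nd h a.2 - Lk κ (w κ a.1) p)‖ *
          ‖Φ (nd h a'.2 - Lk κ (w κ a'.1) q)‖ * KK a a' := by
      refine Finset.sum_le_sum fun a _ => Finset.sum_le_sum fun a' _ => ?_
      have h3 : ∑ p ∈ S i, ∑ q ∈ S i', ‖Φ (nd h a.2 - Lk κ (w κ a.1) p)‖ *
          ‖Φ (nd h a'.2 - Lk κ (w κ a'.1) q)‖ * KK a a'
          = (∑ p ∈ S i, ‖Φ (nd h a.2 - Lk κ (w κ a.1) p)‖) *
            (∑ q ∈ S i', ‖Φ (nd h a'.2 - Lk κ (w κ a'.1) q)‖) * KK a a' := by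
        rw [Finset.sum_mul_sum, Finset.sum_mul]
        refine Finset.sum_congr rfl fun p _ => ?_
        rw [Finset.sum_mul]
      rw [h3]
      calc ((2 : ℝ) ^ ((k i : ℝ) * ((m : ℝ) / 2)) * ‖cf Φ h κ (S i) (γ i) a‖) *
            ((2 : ℝ) ^ ((k i' : ℝ) * ((m : ℝ) / 2)) * ‖cf Φ h κ (S i') (γ i') a'‖) * KK a a'
          = D * (‖cf Φ h κ (S i) (γ i) a‖ * ‖cf Φ h κ (S i') (γ i') a'‖ * KK a a') := by
            rw [hD, ← h22]
            ring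
        _ ≤ D * ((∑ p ∈ S i, ‖Φ (nd h a.2 - Lk κ (w κ a.1) p)‖) *
            (∑ q ∈ S i', ‖Φ (nd h a'.2 - Lk κ (w κ a'.1) q)‖) * KK a a') := by
            refine mul_le_mul_of_nonneg_left (mul_le_mul_of_nonneg_right (mul_le_mul (hcfn i a)
              (hcfn i' a') (norm_nonneg _) (Finset.sum_nonneg fun p _ => norm_nonneg _))
              (hKK a a')) hD0.le
    refine le_trans h1 ?_
    have h4 : ∑ a ∈ G i, ∑ a' ∈ G i', D *
        ∑ p ∈ S i, ∑ q ∈ S i', ‖Φ (nd h a.2 - Lk κ (w κ a.1) p)‖ *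
          ‖Φ (nd h a'.2 - Lk κ (w κ a'.1) q)‖ * KK a a'
        = D * ∑ p ∈ S i, ∑ q ∈ S i', ∑ a ∈ G i, ∑ a' ∈ G i',
          ‖Φ (nd h a.2 - Lk κ (w κ a.1) p)‖ * ‖Φ (nd h a'.2 - Lk κ (w κ a'.1) q)‖ * KK a a' := by
      simp_rw [← Finset.mul_sum]
      congr 1
      calc ∑ a ∈ G i, ∑ a' ∈ G i', ∑ p ∈ S i, ∑ q ∈ S i', _
          = ∑ a ∈ G i, ∑ p ∈ S i, ∑ a' ∈ G i', ∑ q ∈ S i', _ :=
            Finset.sum_congr rfl fun a _ => Finset.sum_comm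
        _ = ∑ p ∈ S i, ∑ a ∈ G i, ∑ a' ∈ G i', ∑ q ∈ S i', _ := Finset.sum_comm
        _ = ∑ p ∈ S i, ∑ a ∈ G i, ∑ q ∈ S i', ∑ a' ∈ G i', _ :=
            Finset.sum_congr rfl fun p _ => Finset.sum_congr rfl fun a _ => Finset.sum_comm
        _ = ∑ p ∈ S i, ∑ q ∈ S i', ∑ a ∈ G i, ∑ a' ∈ G i', _ :=
            Finset.sum_congr rfl fun p _ => Finset.sum_comm
    rw [h4]
    exact le_rfl
  -- conclusion
  have hA' : ∑ i ∈ B, ‖xx 0 i‖ ^ 2 ≤ C * ((2 : ℝ)⁻¹ ^ (κ * m) * ∑ i ∈ B, ∑ a ∈ G i,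
      (2 : ℝ) ^ (k i * m) * (‖cf Φ h κ (S i) (γ i) a‖ * (1 + rh h κ (S i) a) ^ M) ^ 2) := by
    refine le_trans (Finset.sum_le_sum hdiag) ?_
    rw [← Finset.mul_sum, mul_assoc]
  have hB' : ∑ i ∈ B, ∑ i' ∈ B.erase i, ‖(inner ℂ (xx (sp i i') i) (xx (sp i i') i') : ℂ)‖ ≤
      Cr χ b Φ h κ B k S G π sp A := by
    unfold Cr
    exact Finset.sum_le_sum fun i hi => Finset.sum_le_sum (hoff i hi)
  exact add_le_add hA' hB'

end Pool.LibCA93
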