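import Pool.Agent.LibCA93.KU
import Pool.Agent.LibST49.P3

/-
PLAN (SDU, MEDIUM). subdec of LibST49 (proof: store ST49_SD.lean; adapt it): insert SUM_(j in J m k) χ(2^k ω - iv j) = 1 for ‖ω‖ <= 1 (the symbol b vanishes for ‖z.1‖ > 1), kernU with χ1 = χ for every j; if the function
z -> χ(2^k z.1 - iv j) (Ψ z.1 * b z) is not identically zero there is z with ‖z.1‖ <= 1, |2^k z.1 i - j i| < 1 for all i (support of χ), Ψ z.1 /= 0: tch k Ψ j. Otherwise Kb of it is 0.
-/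

set_option autoImplicit false

noncomputable section

open MeasureTheory Metric Set Filter

namespace Pool.LibCA93

open Pool.LibSR53 Pool.LibST49

private theorem SDU_Sb {m : ℕ} {v0 v1 : ℝ} {b : V m → ℂ} {Ψ : E m → ℝ}
    (hb : Sb v0 v1 1 b) (h2 : ContDiff ℝ (⊤ : ℕ∞) Ψ) :
    Sb v0 v1 1 (fun z => (Ψ z.1 : ℂ) * b z) := by
  refine ⟨hb.pos, hb.le, ?_, ?_⟩
  · refine ContDiff.mul ?_ hb.smooth
    refine Complex.ofRealCLM.contDiff.comp ?_
    exact h2.comp contDiff_fst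
  · intro z hz
    exact hb.supp z (right_ne_zero_of_mul hz)

open scoped Classical in
/-- kernel with a symbol of growth 2^k: sum over the cells of size 2^-k where it lives -/
theorem subdecU {m : ℕ} {v0 v1 : ℝ} {b : V m → ℂ} {χ : E m → ℝ} (hχ : Pu χ)
    (hb : Sb v0 v1 1 b) (N : ℕ) (K : ℕ → ℝ) (hK : ∀ n, 0 ≤ K n) : ∃ C : ℝ, 0 < C ∧
    ∀ (k : ℕ) (Ψ : E m → ℝ), Sy K ((2 : ℝ) ^ k) Ψ → ∀ Z : X m,
    ‖Kb (fun z => (Ψ z.1 : ℂ) * b z) Z‖ ≤
      C * (2 : ℝ)⁻¹ ^ (k * m) * (1 + |(4 : ℝ)⁻¹ ^ k * Z.2.1|) ^ (4 * N) *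
        ∑ j ∈ (J m k).filter (fun j => tch k Ψ j), 1 / (1 + ‖Lk k (w k j) Z‖) ^ N := by
  obtain ⟨C, hC, hk⟩ := kernU hb hχ.toCt N K hK
  refine ⟨C, hC, ?_⟩
  intro k Ψ hΨ Z
  set b' : V m → ℂ := fun z => (Ψ z.1 : ℂ) * b z with hb'
  rw [Kb_sum hχ (SDU_Sb hb hΨ.smooth) k Z]
  have hzero : ∀ j ∈ J m k, j ∉ (J m k).filter (fun j => tch k Ψ j) →
      Kb (cb χ b' k j) Z = 0 := by
    intro j hj hnot
    have hall : ∀ z, cb χ b' k j z = 0 := by
      intro z
      by_contra hne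
      apply hnot
      rw [Finset.mem_filter]
      refine ⟨hj, ?_⟩
      unfold cb at hne
      have hne1 : χ ((2 : ℝ) ^ k • z.1 - iv j) ≠ 0 := by
        intro h0
        apply hne
        rw [h0]
        simp
      have hne2 : Ψ z.1 ≠ 0 := by
        intro h0
        apply hne
        rw [hb']
        simp only
        rw [h0]
        simp
      have hne3 : b z ≠ 0 := by
        intro h0
        apply hne
        rw [hb']
        simp only
        rw [h0]
        simp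
      have s1 := hχ.toCt.supp _ hne1
      refine ⟨z.1, (hb.supp z hne3).2.2, ?_, hne2⟩
      intro i
      have t1 := s1 i
      have e1' : ((2 : ℝ) ^ k • z.1 - iv j) i = (2 : ℝ) ^ k * z.1 i - j i := by
        simp [iv]
      rw [e1'] at t1
      exact t1
    unfold Kb
    simp [hall]
  rw [← Finset.sum_subset (Finset.filter_subset _ (J m k)) hzero, Finset.mul_sum]
  refine (norm_sum_le _ _).trans (Finset.sum_le_sum fun j _ => ?_)
  have h := hk k Ψ hΨ j Z
  rw [mul_one_div]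
  exact h

end Pool.LibCA93
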